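import Pool.Agent.Helper25.PCap.Defs

/-!
Planar p-capacity (MP_576c25_an): toolkit packets (maximum principles, regularity, resolvent).
-/

set_option autoImplicit false

open MeasureTheory Set Filter Topology
open scoped ContDiff Real

noncomputable section

namespace Pool.Agent.Helper25.PCap

/-- mean over the circle of radius `r` about `x` -/
def cmean (ψ : ℝ × ℝ → ℝ) (x : ℝ × ℝ) (r : ℝ) : ℝ :=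
  (1 / (2 * π)) * ∫ φ in (0 : ℝ)..(2 * π), ψ (x.1 + r * Real.cos φ, x.2 + r * Real.sin φ)

/-- PACKET CIRC. Circle means of a `C²` function: `r M'(r) = ∫₀^r s·(mean of Δψ)(s) ds`. -/
def GCirc : Prop := ∀ (ψ : ℝ × ℝ → ℝ) (x : ℝ × ℝ) (R : ℝ) (O : Set (ℝ × ℝ)), 0 < R → IsOpen O →
  {y : ℝ × ℝ | (y.1 - x.1) ^ 2 + (y.2 - x.2) ^ 2 ≤ R ^ 2} ⊆ O → ContDiffOn ℝ 2 ψ O →
  ContinuousOn (cmean ψ x) (Icc 0 R) ∧ cmean ψ x 0 = ψ x ∧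
  ContinuousOn (cmean (fun y => D1 (D1 ψ) y + D2 (D2 ψ) y) x) (Icc 0 R) ∧
  ∀ r ∈ Ioo 0 R, HasDerivAt (cmean ψ x)
    ((1 / r) * ∫ s in (0 : ℝ)..r, s * cmean (fun y => D1 (D1 ψ) y + D2 (D2 ψ) y) x s) r

/-- PACKET REPR. A compactly supported smooth reproducing kernel for solutions of `LL κ u = 0`. -/
def GRepr : Prop := ∀ κ : ℝ, 0 < κ → κ < 1 → ∀ δ : ℝ, 0 < δ → ∃ η : ℝ × ℝ → ℝ,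
  ContDiff ℝ ∞ η ∧ HasCompactSupport η ∧ (∀ z, δ ≤ ‖z‖ → η z = 0) ∧
  ∀ (O : Set (ℝ × ℝ)) (u : ℝ × ℝ → ℝ), IsOpen O → ContDiffOn ℝ 2 u O →
    (∀ z ∈ O, LL κ u z = 0) → ∀ x, Metric.closedBall x δ ⊆ O → u x = ∫ z, u (x + z) * η z

/-- PACKET LIM. Bounded pointwise limits of solutions are smooth solutions. -/
def GLim : Prop := ∀ κ : ℝ, 0 < κ → κ < 1 → ∀ (O : Set (ℝ × ℝ)) (u : ℕ → ℝ × ℝ → ℝ)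
  (v : ℝ × ℝ → ℝ) (A : ℝ), IsOpen O → (∀ k, ContDiffOn ℝ 2 (u k) O) →
  (∀ k, ∀ z ∈ O, LL κ (u k) z = 0) → (∀ k, ∀ z ∈ O, |u k z| ≤ A) →
  (∀ z ∈ O, Tendsto (fun k => u k z) atTop (𝓝 (v z))) →
  ContDiffOn ℝ ∞ v O ∧ ∀ z ∈ O, LL κ v z = 0

/-- PACKET LIM (second theorem). `C²` solutions are smooth. -/
def GReg : Prop := ∀ κ : ℝ, 0 < κ → κ < 1 → ∀ (O : Set (ℝ × ℝ)) (u : ℝ × ℝ → ℝ),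
  IsOpen O → ContDiffOn ℝ 2 u O → (∀ z ∈ O, LL κ u z = 0) → ContDiffOn ℝ ∞ u O

/-- the open box of half-size `r` about `(t₀, 0)` -/
def box (t₀ r : ℝ) : Set (ℝ × ℝ) := {z | |z.1 - t₀| < r ∧ |z.2| < r}

/-- PACKET REFL. Schwarz reflection for `LL κ v = 0` with `v = 0` on the axis. -/
def GRefl : Prop := ∀ κ : ℝ, 0 < κ → κ < 1 → ∀ (t₀ r : ℝ) (v : ℝ × ℝ → ℝ), 0 < r →
  ContinuousOn v (box t₀ r ∩ {z | 0 ≤ z.2}) → (∀ z ∈ box t₀ r, z.2 = 0 → v z = 0) →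
  ContDiffOn ℝ ∞ v (box t₀ r ∩ {z | 0 < z.2}) →
  (∀ z ∈ box t₀ r ∩ {z : ℝ × ℝ | 0 < z.2}, LL κ v z = 0) →
  ∃ vt : ℝ × ℝ → ℝ, ContDiffOn ℝ ∞ vt (box t₀ r) ∧ (∀ z ∈ box t₀ r, LL κ vt z = 0) ∧
    ∀ z ∈ box t₀ r, 0 ≤ z.2 → vt z = v z

/-- PACKET SMP (local). Hopf's strong maximum principle. -/
def GSMP : Prop := ∀ κ : ℝ, 0 < κ → ∀ (O : Set (ℝ × ℝ)) (ψ : ℝ × ℝ → ℝ) (K : ℝ) (z₀ : ℝ × ℝ),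
  IsOpen O → ContDiffOn ℝ 2 ψ O → (∀ z ∈ O, 0 ≤ ψ z) →
  (∀ z ∈ O, |D1 (D1 ψ) z + κ * D2 (D2 ψ) z| ≤ K * (|D1 ψ z| + |D2 ψ z|)) →
  z₀ ∈ O → ψ z₀ = 0 → ∀ᶠ z in 𝓝 z₀, ψ z = 0

/-- PACKET SMP (global), for solutions of `LL κ ψ = 0` on a preconnected open set. -/
def GSMPc : Prop := ∀ κ : ℝ, 0 < κ → ∀ (O : Set (ℝ × ℝ)) (ψ : ℝ × ℝ → ℝ) (z₀ : ℝ × ℝ),
  IsOpen O → IsPreconnected O → ContDiffOn ℝ 2 ψ O → (∀ z ∈ O, 0 ≤ ψ z) →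
  (∀ z ∈ O, LL κ ψ z = 0) → z₀ ∈ O → ψ z₀ = 0 → ∀ z ∈ O, ψ z = 0

/-- PACKET HOPF. Hopf's boundary lemma at the axis. -/
def GHopf : Prop := ∀ κ : ℝ, 0 < κ → ∀ (t₀ r : ℝ) (v : ℝ × ℝ → ℝ) (K : ℝ), 0 < r →
  ContDiffOn ℝ 2 v (box t₀ r) →
  (∀ z ∈ box t₀ r, |D1 (D1 v) z + κ * D2 (D2 v) z| ≤ K * (|D1 v z| + |D2 v z|)) →
  (∀ z ∈ box t₀ r, 0 < z.2 → 0 < v z) → v (t₀, 0) = 0 → 0 < D2 v (t₀, 0)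

/-- PACKET MP1. Maximum principle for `LL` on the plane, vanishing at `τ → −∞`. -/
def GMP1 : Prop := ∀ κ : ℝ, 0 < κ → κ < 1 → ∀ (v : ℝ × ℝ → ℝ) (A : ℝ), Continuous v →
  (∀ z, v z ≤ A) → (∀ δ : ℝ, 0 < δ → ∃ M : ℝ, ∀ z : ℝ × ℝ, z.1 ≤ -M → v z ≤ δ) →
  (∀ z, 0 < v z → ContDiffAt ℝ 2 v z ∧ 0 ≤ LL κ v z) → ∀ z, v z ≤ 0

/-- PACKET MPQ. Maximum principle for `LL − q`, `q > 0`. -/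
def GMPq : Prop := ∀ κ q : ℝ, 0 < κ → κ < 1 → 0 < q → ∀ (v : ℝ × ℝ → ℝ) (A : ℝ), Continuous v →
  (∀ z, v z ≤ A) → (∀ z, 0 < v z → ContDiffAt ℝ 2 v z ∧ q * v z ≤ LL κ v z) → ∀ z, v z ≤ 0

/-! ### resolvent -/

/-- `∂₁ P_t g` for bounded measurable `g`, `t > 0` -/
def Pt1 (κ t : ℝ) (g : ℝ × ℝ → ℝ) (x : ℝ × ℝ) : ℝ :=
  (1 / Real.sqrt (2 * t)) * ∫ y : ℝ × ℝ,
    y.1 * g (x.1 - (1 - κ) * t + Real.sqrt (2 * t) * y.1, x.2 + Real.sqrt (2 * κ * t) * y.2)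
    ∂((ProbabilityTheory.gaussianReal 0 1).prod (ProbabilityTheory.gaussianReal 0 1))

/-- `∂₂ P_t g` for bounded measurable `g`, `t > 0` -/
def Pt2 (κ t : ℝ) (g : ℝ × ℝ → ℝ) (x : ℝ × ℝ) : ℝ :=
  (1 / Real.sqrt (2 * κ * t)) * ∫ y : ℝ × ℝ,
    y.2 * g (x.1 - (1 - κ) * t + Real.sqrt (2 * t) * y.1, x.2 + Real.sqrt (2 * κ * t) * y.2)
    ∂((ProbabilityTheory.gaussianReal 0 1).prod (ProbabilityTheory.gaussianReal 0 1))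

/-- PACKET RQA. `Rq` maps bounded measurable functions to `C¹`. -/
def GRQa : Prop := ∀ κ q : ℝ, 0 < κ → κ < 1 → 0 < q → ∃ K : ℝ, ∀ (g : ℝ × ℝ → ℝ) (A : ℝ),
  Measurable g → (∀ x, |g x| ≤ A) →
  ContDiff ℝ 1 (Rq κ q g) ∧ (∀ x, |D1 (Rq κ q g) x| ≤ K * A) ∧ (∀ x, |D2 (Rq κ q g) x| ≤ K * A) ∧
  (∀ x, D1 (Rq κ q g) x = ∫ t in Ioi (0 : ℝ), Real.exp (-(q * t)) * Pt1 κ t g x) ∧
  (∀ x, D2 (Rq κ q g) x = ∫ t in Ioi (0 : ℝ), Real.exp (-(q * t)) * Pt2 κ t g x) ∧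
  (∀ x, IntegrableOn (fun t => Real.exp (-(q * t)) * Pt1 κ t g x) (Ioi 0)) ∧
  (∀ x, IntegrableOn (fun t => Real.exp (-(q * t)) * Pt2 κ t g x) (Ioi 0))

/-- PACKET RQB. `Rq` of a bounded `C¹` function with bounded derivative is `C²` and solves
`q Z − LL Z = g`. -/
def GRQb : Prop := ∀ κ q : ℝ, 0 < κ → κ < 1 → 0 < q → ∀ (g : ℝ × ℝ → ℝ) (A : ℝ),
  ContDiff ℝ 1 g → (∀ x, |g x| ≤ A) → (∀ x, ‖fderiv ℝ g x‖ ≤ A) →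
  ContDiff ℝ 2 (Rq κ q g) ∧ ∀ x, LL κ (Rq κ q g) x = q * Rq κ q g x - g x

/-- PACKET RQC. Elementary properties of `Rq`. -/
def GRQc : Prop := ∀ κ q : ℝ, 0 < κ → κ < 1 → 0 < q →
  (∀ (g : ℝ × ℝ → ℝ) (A : ℝ), Measurable g → (∀ x, |g x| ≤ A) → ∀ x, |Rq κ q g x| ≤ A / q) ∧
  (∀ a : ℝ, ∀ x, Rq κ q (fun _ => a) x = a / q) ∧
  (∀ (g g' : ℝ × ℝ → ℝ) (A : ℝ), Measurable g → Measurable g' → (∀ x, |g x| ≤ A) →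
    (∀ x, |g' x| ≤ A) → (∀ x, g x ≤ g' x) → ∀ x, Rq κ q g x ≤ Rq κ q g' x) ∧
  (∀ (g g' : ℝ × ℝ → ℝ) (A a b : ℝ), Measurable g → Measurable g' → (∀ x, |g x| ≤ A) →
    (∀ x, |g' x| ≤ A) → ∀ x, Rq κ q (fun y => a * g y + b * g' y) x =
      a * Rq κ q g x + b * Rq κ q g' x) ∧
  (∀ (g : ℕ → ℝ × ℝ → ℝ) (g' : ℝ × ℝ → ℝ) (A : ℝ), (∀ k, Measurable (g k)) →
    (∀ k x, |g k x| ≤ A) → (∀ x, Tendsto (fun k => g k x) atTop (𝓝 (g' x))) →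
    ∀ x, Tendsto (fun k => Rq κ q (g k) x) atTop (𝓝 (Rq κ q g' x))) ∧
  (∀ (g : ℝ × ℝ → ℝ) (h x : ℝ × ℝ), Rq κ q g (x + h) = Rq κ q (fun y => g (y + h)) x) ∧
  (∀ (g : ℝ × ℝ → ℝ) (x : ℝ × ℝ), Rq κ q g (x.1, -x.2) = Rq κ q (fun y => g (y.1, -y.2)) x)

/-- PACKET E. Monotone iteration: existence for `LL Z = q Z − f(·, Z)`. -/
def GE : Prop := ∀ κ q K : ℝ, 0 < κ → κ < 1 → 0 < q → ∀ f : ℝ × ℝ → ℝ → ℝ,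
  ContDiff ℝ 1 (fun p : (ℝ × ℝ) × ℝ => f p.1 p.2) →
  (∀ x z, 0 ≤ z → z ≤ 1 → ‖fderiv ℝ (fun p : (ℝ × ℝ) × ℝ => f p.1 p.2) (x, z)‖ ≤ K) →
  (∀ x z z', 0 ≤ z → z ≤ z' → z' ≤ 1 → f x z ≤ f x z') → (∀ x, 0 ≤ f x 0) → (∀ x, f x 1 ≤ q) →
  (∀ k x, 0 ≤ Zseq κ q f k x ∧ Zseq κ q f k x ≤ 1) ∧
  (∀ k x, Zseq κ q f (k + 1) x ≤ Zseq κ q f k x) ∧
  (∀ k, ContDiff ℝ 2 (Zseq κ q f k)) ∧
  (∀ k x, LL κ (Zseq κ q f (k + 1)) x = q * Zseq κ q f (k + 1) x - f x (Zseq κ q f k x)) ∧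
  ∃ Z : ℝ × ℝ → ℝ, ContDiff ℝ 2 Z ∧
    (∀ x, Tendsto (fun k => Zseq κ q f k x) atTop (𝓝 (Z x))) ∧
    (∀ x, LL κ Z x = q * Z x - f x (Z x))

/-- PACKET QG. Quadratic growth: a nonnegative function with `0 ≤ LL κ u ≤ A` near `x`
satisfies `u(y) ≤ K (u(x) + A r²)` for `|y − x| ≤ r`. -/
def GQG : Prop := ∀ κ : ℝ, 0 < κ → κ < 1 → ∃ K : ℝ, 0 < K ∧ ∀ (u : ℝ × ℝ → ℝ) (x : ℝ × ℝ) (A : ℝ),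
  ContDiff ℝ 2 u → (∀ y, 0 ≤ u y) →
  (∀ y, dist y x ≤ 1 → 0 ≤ LL κ u y ∧ LL κ u y ≤ A) →
  ∀ h : ℝ, 0 < h → h ≤ 1 / 4 → u (x.1 - h, x.2) ≤ K * (u x + A * h ^ 2)

end Pool.Agent.Helper25.PCap
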