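import Pool.Agent.Helper25.PCap.GoalsTools

/-!
Packet QG (helper76): quadratic growth for nonnegative functions with `0 ≤ LL κ u ≤ A`.
-/

set_option autoImplicit false

open MeasureTheory Set Filter Topology
open scoped ContDiff Real

noncomputable section

namespace Pool.Agent.Helper25.PCap

namespace PkQG

/-- Euclidean disc -/
def BD (c : ℝ × ℝ) (ρ : ℝ) : Set (ℝ × ℝ) := {y | (y.1 - c.1) ^ 2 + (y.2 - c.2) ^ 2 ≤ ρ ^ 2}

lemma meas_BD (c : ℝ × ℝ) (ρ : ℝ) : MeasurableSet (BD c ρ) := by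
  apply IsClosed.measurableSet
  apply isClosed_le
  · fun_prop
  · fun_prop

lemma cmean_shift (ψ : ℝ × ℝ → ℝ) (c : ℝ × ℝ) (s : ℝ) :
    ∫ φ in Ioo (-π) π, ψ (c.1 + s * Real.cos φ, c.2 + s * Real.sin φ) = 2 * π * cmean ψ c s := by
  have hper : Function.Periodic
      (fun φ : ℝ => ψ (c.1 + s * Real.cos φ, c.2 + s * Real.sin φ)) (2 * π) := by
    intro φ
    simp [Real.cos_add_two_pi, Real.sin_add_two_pi]
  have h1 := hper.intervalIntegral_add_eq (-π) 0
  have h2 : (-π : ℝ) + 2 * π = π := by ring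
  rw [h2, zero_add] at h1
  unfold cmean
  rw [← h1, intervalIntegral.integral_of_le (by linarith [Real.pi_pos]),
    integral_Ioc_eq_integral_Ioo]
  have : (π : ℝ) ≠ 0 := Real.pi_ne_zero
  field_simp

lemma disc (ψ : ℝ × ℝ → ℝ) (hψ : Continuous ψ) (c : ℝ × ℝ) (ρ : ℝ) (hρ : 0 ≤ ρ) :
    ∫ y in BD c ρ, ψ y = 2 * π * ∫ s in (0 : ℝ)..ρ, s * cmean ψ c s := by
  have h1 : ∫ y in BD c ρ, ψ y = ∫ y, (BD c ρ).indicator ψ y := by
    rw [integral_indicator (meas_BD c ρ)]
  have h2 : ∫ y, (BD c ρ).indicator ψ y = ∫ y, (BD c ρ).indicator ψ (y + c) := by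
    rw [integral_add_right_eq_self]
  have h3 := integral_comp_polarCoord_symm (fun y => (BD c ρ).indicator ψ (y + c))
  rw [h1, h2, ← h3]
  have h4 : ∀ p ∈ polarCoord.target, p.1 • (BD c ρ).indicator ψ (polarCoord.symm p + c) =
      (Ioc 0 ρ ×ˢ Ioo (-π) π).indicator
        (fun p : ℝ × ℝ => p.1 * ψ (c.1 + p.1 * Real.cos p.2, c.2 + p.1 * Real.sin p.2)) p := by
    intro p hp
    rw [polarCoord_target] at hp
    obtain ⟨hp1, hp2⟩ := hp
    have hp1' : 0 < p.1 := hp1
    have e1 : polarCoord.symm p + c = (c.1 + p.1 * Real.cos p.2, c.2 + p.1 * Real.sin p.2) := by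
      rw [polarCoord_symm_apply]
      ext <;> simp [add_comm]
    rw [e1]
    have e2 : (c.1 + p.1 * Real.cos p.2, c.2 + p.1 * Real.sin p.2) ∈ BD c ρ ↔ p.1 ≤ ρ := by
      unfold BD
      simp only [mem_ofPred_eq]
      have : (c.1 + p.1 * Real.cos p.2 - c.1) ^ 2 + (c.2 + p.1 * Real.sin p.2 - c.2) ^ 2
          = p.1 ^ 2 := by
        have := Real.sin_sq_add_cos_sq p.2
        linear_combination p.1 ^ 2 * this
      rw [this]
      constructor
      · intro h
        exact abs_le_of_sq_le_sq' h hρ |>.2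
      · intro h
        exact pow_le_pow_left₀ hp1'.le h 2
    by_cases hc : p.1 ≤ ρ
    · rw [indicator_of_mem (e2.2 hc), indicator_of_mem]
      · rfl
      · exact ⟨⟨hp1', hc⟩, hp2⟩
    · rw [indicator_of_notMem (fun h => hc (e2.1 h)), indicator_of_notMem]
      · simp
      · rintro ⟨h, -⟩
        exact hc h.2
  have hmeasT : MeasurableSet polarCoord.target := polarCoord.open_target.measurableSet
  rw [setIntegral_congr_fun hmeasT h4, setIntegral_indicator (by measurability)]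
  have h5 : polarCoord.target ∩ Ioc 0 ρ ×ˢ Ioo (-π) π = Ioc 0 ρ ×ˢ Ioo (-π) π := by
    apply inter_eq_right.2
    rw [polarCoord_target]
    rintro p ⟨h, h'⟩
    exact ⟨h.1, h'⟩
  rw [h5]
  have hint : IntegrableOn
      (fun p : ℝ × ℝ => p.1 * ψ (c.1 + p.1 * Real.cos p.2, c.2 + p.1 * Real.sin p.2))
      (Ioc 0 ρ ×ˢ Ioo (-π) π) (volume.prod volume) := by
    have hcont : Continuous
        (fun p : ℝ × ℝ => p.1 * ψ (c.1 + p.1 * Real.cos p.2, c.2 + p.1 * Real.sin p.2)) := by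
      fun_prop
    have hK : IsCompact (Icc (0 : ℝ) ρ ×ˢ Icc (-π) π) := isCompact_Icc.prod isCompact_Icc
    have := hcont.continuousOn.integrableOn_compact (μ := (volume : Measure (ℝ × ℝ))) hK
    exact this.mono_set (prod_mono Ioc_subset_Icc_self Ioo_subset_Icc_self)
  rw [show (volume : Measure (ℝ × ℝ)) = volume.prod volume from rfl, setIntegral_prod _ hint]
  have h6 : ∀ s : ℝ, ∫ y in Ioo (-π) π, s * ψ (c.1 + s * Real.cos y, c.2 + s * Real.sin y) =
      2 * π * (s * cmean ψ c s) := by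
    intro s
    rw [integral_const_mul, cmean_shift]
    ring
  simp only [h6]
  rw [integral_const_mul, intervalIntegral.integral_of_le hρ]

/-- growth and monotonicity of circle means -/
lemma growth (h : GCirc) (ψ F : ℝ × ℝ → ℝ) (c : ℝ × ℝ) (R m A : ℝ) (hR : 0 < R) (hR1 : R ≤ 1 / 2)
    (hψ : ContDiff ℝ 2 ψ) (hpos : ∀ y, 0 ≤ ψ y) (hm : 0 ≤ m) (hm1 : m ≤ 1 / 4)
    (hF : ∀ y ∈ BD c R, D1 (D1 ψ) y + D2 (D2 ψ) y = m * ψ y + F y ∧ 0 ≤ F y ∧ F y ≤ A) :
    ContinuousOn (cmean ψ c) (Icc 0 R) ∧ cmean ψ c 0 = ψ c ∧ MonotoneOn (cmean ψ c) (Icc 0 R) ∧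
    ∀ r ∈ Icc 0 R, cmean ψ c r ≤ 2 * (ψ c + A * r ^ 2) := by
  obtain ⟨hc1, hc2, hc3, hc4⟩ := h ψ c R univ hR isOpen_univ (subset_univ _) hψ.contDiffOn
  set L : ℝ × ℝ → ℝ := fun y => D1 (D1 ψ) y + D2 (D2 ψ) y with hL
  have hmem : ∀ s ∈ Icc 0 R, ∀ φ : ℝ, (c.1 + s * Real.cos φ, c.2 + s * Real.sin φ) ∈ BD c R := by
    intro s hs φ
    unfold BD
    simp only [mem_ofPred_eq]
    have : (c.1 + s * Real.cos φ - c.1) ^ 2 + (c.2 + s * Real.sin φ - c.2) ^ 2
        = s ^ 2 := by
      have := Real.sin_sq_add_cos_sq φ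
      linear_combination s ^ 2 * this
    rw [this]
    exact pow_le_pow_left₀ hs.1 hs.2 2
  have hLcont : Continuous L := by
    have h1 : ContDiff ℝ 1 (D1 ψ) := by
      unfold D1
      exact (hψ.fderiv_right (m := 1) (by norm_num)).clm_apply contDiff_const
    have h2 : ContDiff ℝ 1 (D2 ψ) := by
      unfold D2
      exact (hψ.fderiv_right (m := 1) (by norm_num)).clm_apply contDiff_const
    have h3 : Continuous (D1 (D1 ψ)) := by
      have : ContDiff ℝ 0 (D1 (D1 ψ)) := by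
        unfold D1 at h1 ⊢
        exact (h1.fderiv_right (m := 0) (by norm_num)).clm_apply contDiff_const
      exact this.continuous
    have h4 : Continuous (D2 (D2 ψ)) := by
      have : ContDiff ℝ 0 (D2 (D2 ψ)) := by
        unfold D2 at h2 ⊢
        exact (h2.fderiv_right (m := 0) (by norm_num)).clm_apply contDiff_const
      exact this.continuous
    exact h3.add h4
  have hLpos : ∀ s ∈ Icc 0 R, 0 ≤ cmean L c s := by
    intro s hs
    unfold cmean
    apply mul_nonneg (by positivity)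
    apply intervalIntegral.integral_nonneg (by positivity)
    intro φ _
    obtain ⟨e1, e2, e3⟩ := hF _ (hmem s hs φ)
    show 0 ≤ D1 (D1 ψ) _ + D2 (D2 ψ) _
    rw [e1]
    have := hpos (c.1 + s * Real.cos φ, c.2 + s * Real.sin φ)
    positivity
  have hLle : ∀ s ∈ Icc 0 R, cmean L c s ≤ m * cmean ψ c s + A := by
    intro s hs
    have hψc := hψ.continuous
    have hLc2 : Continuous fun φ : ℝ => L (c.1 + s * Real.cos φ, c.2 + s * Real.sin φ) :=
      hLcont.comp (by fun_prop)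
    have hψc2 : Continuous fun φ : ℝ => ψ (c.1 + s * Real.cos φ, c.2 + s * Real.sin φ) :=
      hψc.comp (by fun_prop)
    have erhs : ∫ φ in (0 : ℝ)..(2 * π),
        (m * ψ (c.1 + s * Real.cos φ, c.2 + s * Real.sin φ) + A) =
        m * (∫ φ in (0 : ℝ)..(2 * π), ψ (c.1 + s * Real.cos φ, c.2 + s * Real.sin φ)) +
          (2 * π) * A := by
      rw [intervalIntegral.integral_add ((hψc2.const_mul m).intervalIntegrable _ _)
        (by apply Continuous.intervalIntegrable; fun_prop), intervalIntegral.integral_const_mul,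
        intervalIntegral.integral_const]
      simp
    have e : ∫ φ in (0 : ℝ)..(2 * π), L (c.1 + s * Real.cos φ, c.2 + s * Real.sin φ) ≤
        ∫ φ in (0 : ℝ)..(2 * π), (m * ψ (c.1 + s * Real.cos φ, c.2 + s * Real.sin φ) + A) := by
      apply intervalIntegral.integral_mono_on (by positivity)
      · exact hLc2.intervalIntegrable _ _
      · exact ((hψc2.const_mul m).add continuous_const).intervalIntegrable _ _
      · intro φ _
        obtain ⟨e1, e2, e3⟩ := hF _ (hmem s hs φ)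
        show D1 (D1 ψ) _ + D2 (D2 ψ) _ ≤ _
        rw [e1]
        linarith
    rw [erhs] at e
    unfold cmean
    have hp : 0 < 1 / (2 * π) := by positivity
    have e' := mul_le_mul_of_nonneg_left e hp.le
    have hpi : (π : ℝ) ≠ 0 := Real.pi_ne_zero
    calc _ ≤ _ := e'
      _ = _ := by
        field_simp
  have hmono : MonotoneOn (cmean ψ c) (Icc 0 R) := by
    apply monotoneOn_of_deriv_nonneg (convex_Icc 0 R) hc1
    · rw [interior_Icc]
      intro r hr
      exact (hc4 r hr).differentiableAt.differentiableWithinAt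
    · rw [interior_Icc]
      intro r hr
      rw [(hc4 r hr).deriv]
      apply mul_nonneg (one_div_nonneg.2 hr.1.le)
      apply intervalIntegral.integral_nonneg hr.1.le
      intro s hs
      exact mul_nonneg hs.1 (hLpos s ⟨hs.1, hs.2.trans hr.2.le⟩)
  refine ⟨hc1, hc2, hmono, ?_⟩
  intro r hr
  have hA : 0 ≤ A := by
    have hcR : c ∈ BD c R := by
      unfold BD
      simp only [mem_ofPred_eq, sub_self]
      nlinarith [sq_nonneg R]
    obtain ⟨-, e2, e3⟩ := hF c hcR
    exact e2.trans e3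
  rcases eq_or_lt_of_le hr.1 with h0 | h0
  · rw [← h0, hc2]
    have := hpos c
    nlinarith
  have hMpos : ∀ s ∈ Icc 0 R, 0 ≤ cmean ψ c s := by
    intro s hs
    unfold cmean
    apply mul_nonneg (by positivity)
    apply intervalIntegral.integral_nonneg (by positivity)
    intro φ _
    exact hpos _
  obtain ⟨ξ, hξ, hξe⟩ := exists_hasDerivAt_eq_slope (cmean ψ c)
    (fun r => (1 / r) * ∫ s in (0 : ℝ)..r, s * cmean L c s) h0
    (hc1.mono (Icc_subset_Icc le_rfl hr.2)) (fun t ht => hc4 t ⟨ht.1, ht.2.trans_le hr.2⟩)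
  have hbound : ∫ s in (0 : ℝ)..ξ, s * cmean L c s ≤ ξ * (ξ * (m * cmean ψ c r + A)) := by
    have hcc : ContinuousOn (fun s => s * cmean L c s) (Icc 0 ξ) :=
      continuousOn_id.mul (hc3.mono (Icc_subset_Icc le_rfl (hξ.2.le.trans hr.2)))
    have := intervalIntegral.integral_mono_on (μ := volume) (g := fun _ : ℝ => ξ * (m * cmean ψ c r + A)) hξ.1.le
      (hcc.intervalIntegrable_of_Icc hξ.1.le) (by apply Continuous.intervalIntegrable; fun_prop)
      (fun s hs => by
        have hsR : s ∈ Icc 0 R := ⟨hs.1, hs.2.trans (hξ.2.le.trans hr.2)⟩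
        have h1 := hLle s hsR
        have h2 := hmono hsR hr (hs.2.trans hξ.2.le)
        have h3 : cmean L c s ≤ m * cmean ψ c r + A := by
          have := mul_le_mul_of_nonneg_left h2 hm
          linarith
        exact mul_le_mul hs.2 h3 (hLpos s hsR) hξ.1.le)
    rw [intervalIntegral.integral_const] at this
    simpa using this
  have hslope : (cmean ψ c r - cmean ψ c 0) / (r - 0) ≤ ξ * (m * cmean ψ c r + A) := by
    rw [← hξe]
    have := mul_le_mul_of_nonneg_left hbound (one_div_nonneg.2 hξ.1.le)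
    calc _ ≤ _ := this
      _ = _ := by
        have : ξ ≠ 0 := hξ.1.ne'
        field_simp
  rw [sub_zero, div_le_iff₀ h0, hc2] at hslope
  have hMr := hMpos r hr
  have hq : 0 ≤ m * cmean ψ c r + A := by positivity
  have h5 : ξ * (m * cmean ψ c r + A) * r ≤ r * (m * cmean ψ c r + A) * r := by
    have := mul_le_mul_of_nonneg_right hξ.2.le hq
    exact mul_le_mul_of_nonneg_right this h0.le
  have h6 : r * r ≤ 1 / 4 := by nlinarith [hr.2]
  have h7 : r * (m * cmean ψ c r) * r ≤ 1 / 2 * cmean ψ c r := by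
    have : r * r * m ≤ 1 / 2 := by nlinarith [mul_nonneg h0.le h0.le]
    have := mul_le_mul_of_nonneg_right this hMr
    linarith
  nlinarith

/-- the transform -/
def TT (e k : ℝ) (x : ℝ × ℝ) (f : ℝ × ℝ → ℝ) (y : ℝ × ℝ) : ℝ :=
  Real.exp (-e * y.1 / 2) * f (x.1 + y.1, x.2 + k * y.2)

lemma TT_hasFDeriv (e k : ℝ) (x : ℝ × ℝ) (f : ℝ × ℝ → ℝ) (hf : Differentiable ℝ f) (y : ℝ × ℝ) :
    HasFDerivAt (TT e k x f)
      (Real.exp (-e * y.1 / 2) • ((fderiv ℝ f (x.1 + y.1, x.2 + k * y.2)).comp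
        ((ContinuousLinearMap.fst ℝ ℝ ℝ).prod (k • ContinuousLinearMap.snd ℝ ℝ ℝ))) +
      f (x.1 + y.1, x.2 + k * y.2) • (Real.exp (-e * y.1 / 2) •
        ((-e / 2) • ContinuousLinearMap.fst ℝ ℝ ℝ))) y := by
  have h1 : HasFDerivAt (fun y : ℝ × ℝ => -e * y.1 / 2) ((-e / 2) • ContinuousLinearMap.fst ℝ ℝ ℝ)
      y := by
    have := (hasFDerivAt_fst (𝕜 := ℝ) (E := ℝ) (F := ℝ) (p := y)).const_mul (-e / 2)
    refine this.congr_of_eventuallyEq (Eventually.of_forall fun z => ?_)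
    ring
  have h2 : HasFDerivAt (fun y : ℝ × ℝ => (x.1 + y.1, x.2 + k * y.2))
      ((ContinuousLinearMap.fst ℝ ℝ ℝ).prod (k • ContinuousLinearMap.snd ℝ ℝ ℝ)) y := by
    apply HasFDerivAt.prodMk
    · exact (hasFDerivAt_fst (𝕜 := ℝ) (E := ℝ) (F := ℝ) (p := y)).const_add x.1
    · exact ((hasFDerivAt_snd (𝕜 := ℝ) (E := ℝ) (F := ℝ) (p := y)).const_mul k).const_add x.2
  have h3 := (hf (x.1 + y.1, x.2 + k * y.2)).hasFDerivAt.comp y h2
  exact (h1.exp.mul h3)

lemma D1_TT (e k : ℝ) (x : ℝ × ℝ) (f : ℝ × ℝ → ℝ) (hf : Differentiable ℝ f) :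
    D1 (TT e k x f) = TT e k x (fun z => D1 f z - e / 2 * f z) := by
  funext y
  unfold D1
  rw [(TT_hasFDeriv e k x f hf y).fderiv]
  simp [TT]
  ring

lemma D2_TT (e k : ℝ) (x : ℝ × ℝ) (f : ℝ × ℝ → ℝ) (hf : Differentiable ℝ f) :
    D2 (TT e k x f) = TT e k x (fun z => k * D2 f z) := by
  funext y
  unfold D2
  rw [(TT_hasFDeriv e k x f hf y).fderiv]
  simp [TT]
  have : ((0 : ℝ), k) = k • ((0 : ℝ), (1 : ℝ)) := by simp
  rw [this, map_smul, smul_eq_mul]

lemma lap_TT (κ : ℝ) (hκ : 0 ≤ κ) (x : ℝ × ℝ) (u : ℝ × ℝ → ℝ) (hu : ContDiff ℝ 2 u) (y : ℝ × ℝ) :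
    D1 (D1 (TT (1 - κ) (Real.sqrt κ) x u)) y + D2 (D2 (TT (1 - κ) (Real.sqrt κ) x u)) y =
      (1 - κ) ^ 2 / 4 * TT (1 - κ) (Real.sqrt κ) x u y +
        Real.exp (-(1 - κ) * y.1 / 2) * LL κ u (x.1 + y.1, x.2 + Real.sqrt κ * y.2) := by
  have hd : Differentiable ℝ u := hu.differentiable (by norm_num)
  have h1 : ContDiff ℝ 1 (D1 u) := by
    unfold D1
    exact (hu.fderiv_right (m := 1) (by norm_num)).clm_apply contDiff_const
  have h2 : ContDiff ℝ 1 (D2 u) := by
    unfold D2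
    exact (hu.fderiv_right (m := 1) (by norm_num)).clm_apply contDiff_const
  have h1d : Differentiable ℝ (D1 u) := h1.differentiable (by norm_num)
  have h2d : Differentiable ℝ (D2 u) := h2.differentiable (by norm_num)
  rw [D1_TT _ _ _ _ hd, D2_TT _ _ _ _ hd]
  rw [D1_TT _ _ _ (fun z => D1 u z - (1 - κ) / 2 * u z) (h1d.sub (hd.const_mul _)),
    D2_TT _ _ _ (fun z => Real.sqrt κ * D2 u z) (h2d.const_mul _)]
  have e1 : ∀ z, D1 (fun z => D1 u z - (1 - κ) / 2 * u z) z = D1 (D1 u) z - (1 - κ) / 2 * D1 u z := by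
    intro z
    have := ((h1d z).hasFDerivAt.sub ((hd z).hasFDerivAt.const_mul ((1 - κ) / 2))).fderiv
    unfold D1 at this ⊢
    have h' := congrArg (fun (l : ℝ × ℝ →L[ℝ] ℝ) => l (1, 0)) this
    exact h'
  have e2 : ∀ z, D2 (fun z => Real.sqrt κ * D2 u z) z = Real.sqrt κ * D2 (D2 u) z := by
    intro z
    have := ((h2d z).hasFDerivAt.const_mul (Real.sqrt κ)).fderiv
    unfold D2 at this ⊢
    have h' := congrArg (fun (l : ℝ × ℝ →L[ℝ] ℝ) => l (0, 1)) this
    simpa using h'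
  simp only [TT, e1, e2, LL]
  have hs : Real.sqrt κ * Real.sqrt κ = κ := Real.mul_self_sqrt hκ
  set E := Real.exp (-(1 - κ) * y.1 / 2)
  linear_combination E * D2 (D2 u) (x.1 + y.1, x.2 + Real.sqrt κ * y.2) * hs

end PkQG

open PkQG in
theorem pkQG (h : GCirc) : GQG := by
  intro κ hκ0 hκ1
  refine ⟨64, by norm_num, ?_⟩
  intro u x A hu hpos hLL t ht ht1
  have hA : 0 ≤ A := by
    have := hLL x (by simp)
    linarith [this.1, this.2]
  set k := Real.sqrt κ with hk
  have hk0 : 0 ≤ k := Real.sqrt_nonneg _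
  have hk1 : k ≤ 1 := by
    rw [hk]
    exact Real.sqrt_le_one.2 hκ1.le
  set ψ := TT (1 - κ) k x u with hψ
  have hψC : ContDiff ℝ 2 ψ := by
    rw [hψ]
    unfold TT
    apply ContDiff.mul
    · apply ContDiff.exp
      fun_prop
    · exact hu.comp (by fun_prop)
  have hψpos : ∀ y, 0 ≤ ψ y := by
    intro y
    exact mul_nonneg (Real.exp_pos _).le (hpos _)
  set F : ℝ × ℝ → ℝ := fun y => Real.exp (-(1 - κ) * y.1 / 2) * LL κ u (x.1 + y.1, x.2 + k * y.2)
    with hF
  have hexp : Real.exp (1 / 2) ≤ 2 := by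
    have h1 : Real.exp (1 / 2) * Real.exp (1 / 2) = Real.exp 1 := by
      rw [← Real.exp_add]
      norm_num
    have h2 := Real.exp_one_lt_d9
    nlinarith [Real.exp_pos (1 / 2)]
  have hunit : ∀ y ∈ BD 0 1, D1 (D1 ψ) y + D2 (D2 ψ) y = (1 - κ) ^ 2 / 4 * ψ y + F y ∧
      0 ≤ F y ∧ F y ≤ 2 * A := by
    intro y hy
    unfold BD at hy
    simp only [mem_ofPred_eq, Prod.fst_zero, Prod.snd_zero, sub_zero] at hy
    have hy1 : |y.1| ≤ 1 := by
      apply abs_le_of_sq_le_sq
      · nlinarith [sq_nonneg y.2]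
      · norm_num
    have hy2 : |y.2| ≤ 1 := by
      apply abs_le_of_sq_le_sq
      · nlinarith [sq_nonneg y.1]
      · norm_num
    have hdist : dist (x.1 + y.1, x.2 + k * y.2) x ≤ 1 := by
      rw [Prod.dist_eq]
      apply max_le
      · simpa [Real.dist_eq] using hy1
      · rw [Real.dist_eq]
        simp only [add_sub_cancel_left]
        rw [abs_mul, abs_of_nonneg hk0]
        calc k * |y.2| ≤ 1 * 1 := mul_le_mul hk1 hy2 (abs_nonneg _) (by norm_num)
          _ = 1 := by norm_num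
    obtain ⟨e1, e2⟩ := hLL _ hdist
    refine ⟨lap_TT κ hκ0.le x u hu y, mul_nonneg (Real.exp_pos _).le e1, ?_⟩
    have h3 : Real.exp (-(1 - κ) * y.1 / 2) ≤ 2 := by
      refine le_trans (Real.exp_le_exp.2 ?_) hexp
      have := abs_le.1 hy1
      nlinarith
    exact mul_le_mul h3 e2 e1 (by norm_num)
  have hm0 : 0 ≤ (1 - κ) ^ 2 / 4 := by positivity
  have hm1 : (1 - κ) ^ 2 / 4 ≤ 1 / 4 := by nlinarith
  -- centre 0
  have g0 := growth h ψ F 0 (1 / 2) ((1 - κ) ^ 2 / 4) (2 * A) (by norm_num) le_rfl hψC hψpos hm0 hm1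
    (fun y hy => hunit y (by
      unfold BD at hy ⊢
      simp only [mem_ofPred_eq] at hy ⊢
      linarith))
  -- centre y0
  set y0 : ℝ × ℝ := (-t, 0) with hy0
  have g1 := growth h ψ F y0 (1 / 2) ((1 - κ) ^ 2 / 4) (2 * A) (by norm_num) le_rfl hψC hψpos hm0 hm1
    (fun y hy => hunit y (by
      unfold BD at hy ⊢
      simp only [mem_ofPred_eq, hy0, Prod.fst_zero, Prod.snd_zero, sub_zero, sub_neg_eq_add] at hy ⊢
      have h1 : |y.1 + t| ≤ 1 / 2 := by
        apply abs_le_of_sq_le_sq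
        · nlinarith [sq_nonneg y.2]
        · norm_num
      have := abs_le.1 h1
      nlinarith))
  obtain ⟨a1, a2, a3, a4⟩ := g0
  obtain ⟨b1, b2, b3, b4⟩ := g1
  have hψc : Continuous ψ := hψC.continuous
  have hd0 := disc ψ hψc 0 (2 * t) (by linarith)
  have hd1 := disc ψ hψc y0 t ht.le
  have hsub : BD y0 t ⊆ BD 0 (2 * t) := by
    intro y hy
    unfold BD at hy ⊢
    simp only [mem_ofPred_eq, hy0, Prod.fst_zero, Prod.snd_zero, sub_zero, sub_neg_eq_add] at hy ⊢
    have h1 : |y.1 + t| ≤ t := by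
      apply abs_le_of_sq_le_sq
      · nlinarith [sq_nonneg y.2]
      · linarith
    have := abs_le.1 h1
    nlinarith
  have hcompact : IsCompact (BD 0 (2 * t)) := by
    apply Metric.isCompact_of_isClosed_isBounded
    · apply isClosed_le
      · fun_prop
      · fun_prop
    · apply (Metric.isBounded_closedBall (x := (0 : ℝ × ℝ)) (r := 2 * t)).subset
      intro y hy
      unfold BD at hy
      simp only [mem_ofPred_eq, Prod.fst_zero, Prod.snd_zero, sub_zero] at hy
      rw [mem_closedBall_zero_iff, Prod.norm_def]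
      apply max_le
      · rw [Real.norm_eq_abs]
        apply abs_le_of_sq_le_sq
        · nlinarith [sq_nonneg y.2]
        · linarith
      · rw [Real.norm_eq_abs]
        apply abs_le_of_sq_le_sq
        · nlinarith [sq_nonneg y.1]
        · linarith
  have hmonoI : ∫ y in BD y0 t, ψ y ≤ ∫ y in BD 0 (2 * t), ψ y := by
    apply setIntegral_mono_set
    · exact hψc.continuousOn.integrableOn_compact hcompact
    · exact Eventually.of_forall fun y => hψpos y
    · exact hsub.eventuallyLE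
  rw [hd0, hd1] at hmonoI
  have hpi : 0 < 2 * π := by positivity
  have hmonoI' := le_of_mul_le_mul_left hmonoI hpi
  have ht2 : 2 * t ≤ 1 / 2 := by linarith
  have low : t ^ 2 / 2 * ψ y0 ≤ ∫ s in (0 : ℝ)..t, s * cmean ψ y0 s := by
    have hcc : ContinuousOn (fun s => s * cmean ψ y0 s) (Icc 0 t) :=
      continuousOn_id.mul (b1.mono (Icc_subset_Icc le_rfl (by linarith)))
    have := intervalIntegral.integral_mono_on (μ := volume) (f := fun s : ℝ => s * ψ y0)
      (g := fun s => s * cmean ψ y0 s) ht.le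
      (by apply Continuous.intervalIntegrable; fun_prop)
      (hcc.intervalIntegrable_of_Icc ht.le)
      (fun s hs => by
        have h1 := b3 (a := 0) (b := s) ⟨le_rfl, by norm_num⟩ ⟨hs.1, by linarith [hs.2]⟩ hs.1
        rw [b2] at h1
        exact mul_le_mul_of_nonneg_left h1 hs.1)
    rw [intervalIntegral.integral_mul_const, integral_id] at this
    linarith
  have up : ∫ s in (0 : ℝ)..(2 * t), s * cmean ψ 0 s ≤ (2 * t) ^ 2 / 2 * cmean ψ 0 (2 * t) := by
    have hcc : ContinuousOn (fun s => s * cmean ψ 0 s) (Icc 0 (2 * t)) :=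
      continuousOn_id.mul (a1.mono (Icc_subset_Icc le_rfl (by linarith)))
    have := intervalIntegral.integral_mono_on (μ := volume) (g := fun s : ℝ => s * cmean ψ 0 (2 * t))
      (f := fun s => s * cmean ψ 0 s) (by linarith : (0 : ℝ) ≤ 2 * t)
      (hcc.intervalIntegrable_of_Icc (by linarith))
      (by apply Continuous.intervalIntegrable; fun_prop)
      (fun s hs => by
        have h1 := a3 (a := s) (b := 2 * t) ⟨hs.1, by linarith [hs.2]⟩ ⟨by linarith, by linarith⟩ hs.2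
        exact mul_le_mul_of_nonneg_left h1 hs.1)
    rw [intervalIntegral.integral_mul_const, integral_id] at this
    linarith
  have h4 := a4 (2 * t) ⟨by linarith, by linarith⟩
  have hψ0 : ψ 0 = u x := by
    rw [hψ]
    unfold TT
    simp
  have hψy0 : ψ y0 = Real.exp ((1 - κ) * t / 2) * u (x.1 - t, x.2) := by
    rw [hψ]
    unfold TT
    simp only [hy0]
    have e1 : -(1 - κ) * -t / 2 = (1 - κ) * t / 2 := by ring
    rw [e1]
    simp [sub_eq_add_neg]
  have hge : u (x.1 - t, x.2) ≤ ψ y0 := by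
    rw [hψy0]
    have h1 : 1 ≤ Real.exp ((1 - κ) * t / 2) := by
      apply Real.one_le_exp
      apply div_nonneg _ (by norm_num)
      apply mul_nonneg _ ht.le
      linarith
    have h2 := hpos (x.1 - t, x.2)
    nlinarith
  rw [hψ0] at h4
  have h5 : t ^ 2 / 2 * ψ y0 ≤ (2 * t) ^ 2 / 2 * (2 * (u x + 2 * A * (2 * t) ^ 2)) := by
    calc t ^ 2 / 2 * ψ y0 ≤ _ := low
      _ ≤ _ := hmonoI'
      _ ≤ _ := up
      _ ≤ _ := mul_le_mul_of_nonneg_left h4 (by positivity)
  have h6 : ψ y0 ≤ 8 * (u x + 8 * A * t ^ 2) := by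
    have ht2' : 0 < t ^ 2 / 2 := by positivity
    apply le_of_mul_le_mul_left _ ht2'
    linarith
  have h7 := hpos x
  linarith

end Pool.Agent.Helper25.PCap
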