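import Pool.Agent.Helper25.PCap.Defs

/-!
Planar p-capacity (MP_576c25_an): Part A, the inclusion theorem.
-/

set_option autoImplicit false

open MeasureTheory Set Filter Topology
open scoped ContDiff Real

noncomputable section

namespace Pool.Agent.Helper25.PCap

/-- PACKET A0. Symmetries: reflection and rotation of `TData`, scaling of the system. -/
def GA0 : Prop := ∀ κ : ℝ, 0 < κ → κ < 1 →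
  (∀ (C0 : ℝ) (D : TData κ C0), ∃ D' : TData κ C0, (∀ θ, D'.T θ = D.T (-θ)) ∧
    (∀ τ θ, D'.u (τ, θ) = D.u (τ, -θ)) ∧ (∀ τ θ, D'.om (τ, θ) = -D.om (τ, -θ)) ∧
    ∀ c τ₁, FExp κ C0 D.u D.om c τ₁ →
      FExp κ C0 D'.u D'.om (fun n => (starRingEnd ℂ) (c n)) τ₁) ∧
  (∀ (C0 : ℝ) (D : TData κ C0) (φ : ℝ), ∃ D' : TData κ C0, (∀ θ, D'.T θ = D.T (θ - φ)) ∧
    (∀ τ θ, D'.u (τ, θ) = D.u (τ, θ - φ)) ∧ (∀ τ θ, D'.om (τ, θ) = D.om (τ, θ - φ)) ∧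
    ∀ c τ₁, FExp κ C0 D.u D.om c τ₁ →
      FExp κ C0 D'.u D'.om (fun n => c n * Complex.exp (((-((n : ℝ) * φ)) : ℝ) * Complex.I)) τ₁) ∧
  (∀ (C0 α : ℝ) (u om : ℝ × ℝ → ℝ) (N : Set (ℝ × ℝ)), 0 < α → IsOpen N → Sys κ C0 u om N →
    Sys κ C0 (fun z => α * u (shf κ α z.1, z.2)) (fun z => om (shf κ α z.1, z.2))
      {z | (shf κ α z.1, z.2) ∈ N}) ∧
  (∀ (C0 α : ℝ) (u om : ℝ × ℝ → ℝ) (c : ℕ → ℂ) (τ₁ : ℝ), 0 < α → α ≤ 1 →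
    (∀ τ θ, τ ≤ τ₁ → DifferentiableAt ℝ u (τ, θ)) → FExp κ C0 u om c τ₁ →
    FExp κ C0 (fun z => α * u (shf κ α z.1, z.2)) (fun z => om (shf κ α z.1, z.2))
      (fun n => (α * Real.exp (-(aa κ n * (Real.log α / (1 - κ)))) : ℝ) * c n)
      (τ₁ + Real.log α / (1 - κ)))

/-- PACKET A1. Elementary facts on the slit data. -/
def GA1 : Prop := ∀ κ : ℝ, 0 < κ → κ < 1 → ∀ S : SFull κ,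
  (∀ t ϑ ϑ' : ℝ, 0 ≤ ϑ → ϑ < ϑ' → ϑ' ≤ π / 2 → S.u (t, ϑ') < S.u (t, ϑ)) ∧
  (∀ t r w : ℝ, InS S t r w →
    ∀ᶠ p : ℝ × ℝ × ℝ in 𝓝 (t, r, w), InS S p.1 p.2.1 p.2.2)

/-- PACKET A2. Ellipse lemma. -/
def GA2 : Prop := ∀ κ : ℝ, 0 < κ → κ < 1 → ∀ (S : SFull κ) (c : ℕ → ℂ) (τ₁ : ℝ),
  FExp κ S.C0 S.u S.om c τ₁ → (∀ n, (c n).im = 0) → 0 < (c 2).re →
  ∀ β : ℝ, 0 < β → β < 1 → ∃ tβ : ℝ, ∀ t ≤ tβ, ∀ x y : ℝ, x ^ 2 + y ^ 2 ≤ β ^ 2 →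
    InS S t (S.C0 * Real.exp ((1 - κ) * t) + (c 2).re * x * Real.exp (aa κ 2 * t))
      (BB κ S.C0 * (aa κ 2 / 2) * (c 2).re * y * Real.exp (bb κ 2 * t))

/-- PACKET A3. The centre is strictly inside. -/
def GA3 : Prop := ∀ κ : ℝ, 0 < κ → κ < 1 → ∀ (S : SFull κ) (t₁ : ℝ),
  ∃ c : ℝ, 0 < c ∧ ∀ t ≤ t₁, ∀ r w : ℝ, r < 1 →
    |r * Real.exp (-((1 - κ) * t)) - S.C0| < c * Real.exp (bb κ 2 * t) →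
    |w| < c * Real.exp (bb κ 2 * t) → InS S t r w

/-- PACKET A4. `P(α)` for small `α`. -/
def GA4 : Prop := ∀ κ : ℝ, 0 < κ → κ < 1 → ∀ (S : SFull κ) (D : TData κ S.C0),
  ∃ α₀ : ℝ, 0 < α₀ ∧ α₀ ≤ 1 ∧ ∀ α, 0 < α → α ≤ α₀ → PA S D α

/-- PACKET A5. Weak inclusion at the limit. -/
def GA5 : Prop := ∀ κ : ℝ, 0 < κ → κ < 1 → ∀ (S : SFull κ) (D : TData κ S.C0) (α' : ℝ),
  0 < α' → α' ≤ 1 → (∀ α, 0 < α → α < α' → PA S D α) → PAw S D α'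

/-- PACKET A6. The chart lemma (strong maximum principle for the first order system). -/
def GChart : Prop := ∀ (κ : ℝ) (a b₁ b₂ : ℝ → ℝ) (X₁ X₂ Y₁ Y₂ : ℝ × ℝ → ℝ) (N M : Set (ℝ × ℝ))
  (τ₀ θ₀ ϑ₀ : ℝ), 0 < κ → ContDiff ℝ ∞ a → ContDiff ℝ ∞ b₁ → ContDiff ℝ ∞ b₂ →
  (∀ τ, a τ ≠ 0) → IsOpen N → IsOpen M → (τ₀, θ₀) ∈ N → (τ₀, ϑ₀) ∈ M →
  ContDiffOn ℝ ∞ X₁ N → ContDiffOn ℝ ∞ X₂ N → ContDiffOn ℝ ∞ Y₁ M → ContDiffOn ℝ ∞ Y₂ M →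
  (∀ z ∈ N, D1 X₁ z = a z.1 * D2 X₂ z + b₁ z.1) →
  (∀ z ∈ N, D1 X₂ z = -(κ / a z.1) * D2 X₁ z + b₂ z.1) →
  (∀ z ∈ M, D1 Y₁ z = a z.1 * D2 Y₂ z + b₁ z.1) →
  (∀ z ∈ M, D1 Y₂ z = -(κ / a z.1) * D2 Y₁ z + b₂ z.1) →
  X₁ (τ₀, θ₀) = Y₁ (τ₀, ϑ₀) → X₂ (τ₀, θ₀) = Y₂ (τ₀, ϑ₀) → D2 Y₁ (τ₀, ϑ₀) ≠ 0 →
  (∀ τ θ ϑ, (τ, θ) ∈ N → (τ, ϑ) ∈ M → Y₁ (τ, ϑ) = X₁ (τ, θ) → X₂ (τ, θ) ≤ Y₂ (τ, ϑ)) →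
  ∀ᶠ z in 𝓝 (τ₀, θ₀), ∃ ϑ, (z.1, ϑ) ∈ M ∧ Y₁ (z.1, ϑ) = X₁ z ∧ Y₂ (z.1, ϑ) = X₂ z

/-- PACKET A7. The contact set is open. -/
def GA7 : Prop := ∀ κ : ℝ, 0 < κ → κ < 1 → ∀ (S : SFull κ) (D : TData κ S.C0) (α : ℝ),
  0 < α → α ≤ 1 → PAw S D α → ∀ z₀ : ℝ × ℝ, z₀.1 ≤ D.T z₀.2 → D.u z₀ < α →
  ¬ InS S (shf κ α z₀.1) (D.u z₀ / α) (D.om z₀) →
  ∀ᶠ z in 𝓝 z₀, z.1 ≤ D.T z.2 ∧ D.u z < α ∧ ¬ InS S (shf κ α z.1) (D.u z / α) (D.om z)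

/-- PACKET A8. Boundary points lie over the open slit. -/
def GA8 : Prop := ∀ κ : ℝ, 0 < κ → κ < 1 → ∀ (S : SFull κ) (D : TData κ S.C0) (α : ℝ),
  0 < α → α ≤ 1 → PAw S D α → ∀ z₀ : ℝ × ℝ, z₀.1 ≤ D.T z₀.2 → D.u z₀ = α →
  0 < shf κ α z₀.1 ∧ |D.om z₀| ≤ S.om (shf κ α z₀.1, 0)

/-- PACKET A9a. Abstract boundary lemma. -/
def GBdry : Prop := ∀ (κ C0 : ℝ) (u om ut omt : ℝ × ℝ → ℝ) (N M : Set (ℝ × ℝ)) (τ₀ θ₀ α : ℝ),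
  0 < κ → κ < 1 → 0 < C0 → IsOpen N → IsOpen M → (τ₀, θ₀) ∈ N → (τ₀, 0) ∈ M →
  Sys κ C0 u om N → Sys κ C0 ut omt M → u (τ₀, θ₀) = α → om (τ₀, θ₀) = omt (τ₀, 0) →
  0 < D1 u (τ₀, θ₀) → (∀ τ, (τ, 0) ∈ M → ut (τ, 0) = α) → D2 ut (τ₀, 0) < 0 →
  (∀ τ θ ϑ, (τ, θ) ∈ N → (τ, ϑ) ∈ M → 0 < ϑ → ut (τ, ϑ) = u (τ, θ) → om (τ, θ) ≤ omt (τ, ϑ)) →
  False

/-- PACKET A9. Strict inclusion at boundary points. -/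
def GA9 : Prop := ∀ κ : ℝ, 0 < κ → κ < 1 → ∀ (S : SFull κ) (D : TData κ S.C0) (α : ℝ),
  0 < α → α ≤ 1 → PAw S D α → ∀ z₀ : ℝ × ℝ, z₀.1 ≤ D.T z₀.2 → D.u z₀ = α →
  |D.om z₀| < S.om (shf κ α z₀.1, 0)

/-- PACKET A10. Weak inclusion implies strict inclusion. -/
def GA10 : Prop := ∀ κ : ℝ, 0 < κ → κ < 1 → ∀ (S : SFull κ) (D : TData κ S.C0) (α : ℝ),
  0 < α → α ≤ 1 → PAw S D α → PA S D α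

/-- the `n`-th coefficient of `S_α` -/
def sg (κ α : ℝ) (cS : ℕ → ℂ) (n : ℕ) : ℝ :=
  α * Real.exp (-(aa κ n * (Real.log α / (1 - κ)))) * (cS n).re

/-- PACKET A11a. -/
def GA11a : Prop := ∀ κ : ℝ, 0 < κ → κ < 1 → ∀ (S : SFull κ) (D : TData κ S.C0) (α : ℝ)
  (cS cT : ℕ → ℂ) (τS τT : ℝ), 0 < α → α ≤ 1 →
  FExp κ S.C0 S.u S.om cS τS → (∀ n, (cS n).im = 0) → 0 < (cS 2).re →
  FExp κ S.C0 D.u D.om cT τT → (∀ θ, τT ≤ D.T θ) → PAw S D α → ‖cT 2‖ ≤ sg κ α cS 2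

/-- PACKET A11b. A trigonometric polynomial of mean zero which is `≤ 0`. -/
def GA11b : Prop := ∀ (δ : ℂ) (ρ : ℝ) (m : ℕ), 3 ≤ m → 0 < ρ →
  (∀ θ : ℝ, Real.sin (2 * θ) ≠ 0 →
    (δ * Complex.exp (((m : ℝ) * θ : ℝ) * Complex.I)).re * Real.cos (2 * θ) +
      ρ * (δ * Complex.exp (((m : ℝ) * θ : ℝ) * Complex.I)).im * Real.sin (2 * θ) ≤ 0) →
  δ = 0

/-- PACKET A11c. First differing mode: the pointwise inequality. -/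
def GA11c : Prop := ∀ κ : ℝ, 0 < κ → κ < 1 → ∀ (S : SFull κ) (D : TData κ S.C0) (α : ℝ)
  (cS cT : ℕ → ℂ) (τS τT : ℝ) (m : ℕ), 0 < α → α ≤ 1 →
  FExp κ S.C0 S.u S.om cS τS → (∀ n, (cS n).im = 0) → 0 < (cS 2).re →
  FExp κ S.C0 D.u D.om cT τT → (∀ θ, τT ≤ D.T θ) → PAw S D α → 3 ≤ m →
  (∀ n < m, cT n = (sg κ α cS n : ℝ)) →
  ∀ θ : ℝ, Real.sin (2 * θ) ≠ 0 →
    ((cT m - (sg κ α cS m : ℝ)) * Complex.exp (((m : ℝ) * θ : ℝ) * Complex.I)).re *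
        Real.cos (2 * θ) +
      (aa κ m / m) / (aa κ 2 / 2) *
        ((cT m - (sg κ α cS m : ℝ)) * Complex.exp (((m : ℝ) * θ : ℝ) * Complex.I)).im *
        Real.sin (2 * θ) ≤ 0

/-- PACKET A11d. Strict inequality of the second modes. -/
def GA11d : Prop := ∀ κ : ℝ, 0 < κ → κ < 1 → ∀ (S : SFull κ) (D : TData κ S.C0) (α : ℝ)
  (cS cT : ℕ → ℂ) (τS τT : ℝ), 0 < α → α ≤ 1 →
  FExp κ S.C0 S.u S.om cS τS → (∀ n, (cS n).im = 0) → 0 < (cS 2).re →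
  FExp κ S.C0 D.u D.om cT τT → (∀ θ, τT ≤ D.T θ) → PA S D α → ‖cT 2‖ < sg κ α cS 2

/-- PACKET A12. `P(α)` is open to the right. -/
def GA12 : Prop := ∀ κ : ℝ, 0 < κ → κ < 1 → ∀ (S : SFull κ) (D : TData κ S.C0) (α : ℝ),
  0 < α → α < 1 → PA S D α → ∃ α' : ℝ, α < α' ∧ ∀ β, α ≤ β → β ≤ α' → β ≤ 1 → PA S D β

/-- PACKET A13. The inclusion theorem. -/
def PartA : Prop := ∀ κ : ℝ, 0 < κ → κ < 1 → ∀ (S : SFull κ) (D : TData κ S.C0), Incl S D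

end Pool.Agent.Helper25.PCap
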