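import Pool.Agent.Helper25.PCap.Defs

/-!
Planar p-capacity (MP_576c25_an): Fourier expansion at `τ → −∞`, and passage from a
configuration to the pair `(u, om)`.
-/

set_option autoImplicit false

open MeasureTheory Set Filter Topology
open scoped ContDiff Real

noncomputable section

namespace Pool.Agent.Helper25.PCap

/-- PACKET EXPO. Elementary facts on the exponents. -/
def GExpo : Prop := ∀ κ : ℝ, 0 < κ → κ < 1 →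
  aa κ 0 = 1 - κ ∧ aa κ 1 = 1 ∧ bb κ 0 = 0 ∧
  (∀ n : ℕ, (aa κ n) * (bb κ n) = κ * (n : ℝ) ^ 2) ∧
  (∀ n : ℕ, aa κ n < aa κ (n + 1)) ∧ (∀ n : ℕ, Real.sqrt κ * n ≤ aa κ n) ∧
  (∀ n : ℕ, aa κ n ≤ n + 1) ∧ (∀ n : ℕ, 1 ≤ n → 0 < bb κ n)

/-- hypotheses on `v`: smooth periodic solution on `{τ < τ₀}` decaying at `−∞` -/
def DecSol (κ : ℝ) (v : ℝ × ℝ → ℝ) (τ₀ : ℝ) : Prop :=
  ContDiffOn ℝ ∞ v {z | z.1 < τ₀} ∧ (∀ z : ℝ × ℝ, z.1 < τ₀ → LL κ v z = 0) ∧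
  (∀ τ θ, v (τ, θ + 2 * π) = v (τ, θ)) ∧
  ∃ A γ : ℝ, 0 < γ ∧ ∀ z : ℝ × ℝ, z.1 < τ₀ → |v z| ≤ A * Real.exp (γ * z.1)

/-- PACKET F1. Evolution of the Fourier modes. -/
def GF1 : Prop := ∀ κ : ℝ, 0 < κ → κ < 1 → ∀ (v : ℝ × ℝ → ℝ) (τ₀ : ℝ), DecSol κ v τ₀ →
  ∀ (n : ℕ) (τ τ₁ : ℝ), τ ≤ τ₁ → τ₁ < τ₀ →
    (∫ θ in (0 : ℝ)..(2 * π), v (τ, θ) * Real.cos (n * θ) =
      Real.exp (aa κ n * (τ - τ₁)) * ∫ θ in (0 : ℝ)..(2 * π), v (τ₁, θ) * Real.cos (n * θ)) ∧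
    (∫ θ in (0 : ℝ)..(2 * π), v (τ, θ) * Real.sin (n * θ) =
      Real.exp (aa κ n * (τ - τ₁)) * ∫ θ in (0 : ℝ)..(2 * π), v (τ₁, θ) * Real.sin (n * θ))

/-- PACKET F2. The expansion of a decaying solution. -/
def GF2 : Prop := ∀ κ : ℝ, 0 < κ → κ < 1 → ∀ (v : ℝ × ℝ → ℝ) (τ₀ : ℝ), DecSol κ v τ₀ →
  ∃ c : ℕ → ℂ, (c 0).im = 0 ∧
    (∀ n : ℕ, 1 ≤ n → ∀ τ, τ < τ₀ →
      (c n).re * Real.exp (aa κ n * τ) =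
        (1 / π) * ∫ θ in (0 : ℝ)..(2 * π), v (τ, θ) * Real.cos (n * θ)) ∧
    (∀ n : ℕ, 1 ≤ n → ∀ τ, τ < τ₀ →
      (c n).im * Real.exp (aa κ n * τ) =
        -(1 / π) * ∫ θ in (0 : ℝ)..(2 * π), v (τ, θ) * Real.sin (n * θ)) ∧
    (∀ τ, τ < τ₀ → (c 0).re * Real.exp ((1 - κ) * τ) =
        (1 / (2 * π)) * ∫ θ in (0 : ℝ)..(2 * π), v (τ, θ)) ∧
    ∀ τ₁ : ℝ, τ₁ < τ₀ →
      Summable (fun n : ℕ => ((n : ℝ) + 1) ^ 5 * ‖c n‖ * Real.exp (aa κ n * τ₁)) ∧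
      ∀ τ θ : ℝ, τ ≤ τ₁ →
        HasSum (fun n : ℕ => (md c n θ).re * Real.exp (aa κ n * τ)) (v (τ, θ)) ∧
        HasSum (fun n : ℕ => aa κ n * (md c n θ).re * Real.exp (aa κ n * τ)) (D1 v (τ, θ)) ∧
        HasSum (fun n : ℕ => -((n : ℝ) * (md c n θ).im) * Real.exp (aa κ n * τ))
          (D2 v (τ, θ)) ∧
        HasSum (fun n : ℕ => (aa κ n) ^ 2 * (md c n θ).re * Real.exp (aa κ n * τ))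
          (D1 (D1 v) (τ, θ)) ∧
        HasSum (fun n : ℕ => -(aa κ n * (n : ℝ) * (md c n θ).im) * Real.exp (aa κ n * τ))
          (D2 (D1 v) (τ, θ))

/-- PACKET CU0. Algebraic facts on `u` of a configuration. -/
def GCU0 : Prop := ∀ κ : ℝ, 0 < κ → κ < 1 → ∀ C : Config κ,
  ContDiffOn ℝ ∞ C.u C.V ∧ (∀ z ∈ C.V, LL κ C.u z = 0) ∧
  (∀ z ∈ C.V, D1 C.u z = D1 C.W z - D1 (D1 C.W) z) ∧
  (∀ z ∈ C.V, D1 C.u z = κ * (D1 C.W z + D2 (D2 C.W) z)) ∧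
  (∀ z ∈ C.V, D2 C.u z = D2 C.W z - D1 (D2 C.W) z) ∧
  (∀ z ∈ C.V, D2 (D1 C.W) z = D1 (D2 C.W) z) ∧
  (∀ τ θ, C.u (τ, θ + 2 * π) = C.u (τ, θ)) ∧
  (∀ θ, C.u (C.T θ, θ) = 1) ∧ (∀ z : ℝ × ℝ, z.1 ≤ C.T z.2 → 0 < D1 C.u z)

/-- PACKET CE. Asymptotics of a configuration at `−∞`. -/
def GCE : Prop := ∀ κ : ℝ, 0 < κ → κ < 1 → ∀ C : Config κ, ∃ K τ₁ : ℝ, (∀ θ, τ₁ ≤ C.T θ) ∧
  ∀ τ θ : ℝ, τ ≤ τ₁ →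
    |C.W (τ, θ) + 1 - C.C0 / κ * Real.exp ((1 - κ) * τ)| ≤ K * Real.exp τ ∧
    |D1 C.W (τ, θ) - (1 - κ) * (C.C0 / κ) * Real.exp ((1 - κ) * τ)| ≤ K * Real.exp τ ∧
    |D2 C.W (τ, θ)| ≤ K * Real.exp τ ∧
    |C.u (τ, θ) - C.C0 * Real.exp ((1 - κ) * τ)| ≤ K * Real.exp (aa κ 2 * τ) ∧
    |D1 C.u (τ, θ) - (1 - κ) * C.C0 * Real.exp ((1 - κ) * τ)| ≤ K * Real.exp (aa κ 2 * τ) ∧
    |D2 C.u (τ, θ)| ≤ K * Real.exp (aa κ 2 * τ)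

/-- PACKET CU1. Positivity, range and mean of `u` of a configuration. -/
def GCU1 : Prop := ∀ κ : ℝ, 0 < κ → κ < 1 → ∀ C : Config κ,
  (∀ z : ℝ × ℝ, z.1 ≤ C.T z.2 → 0 < C.u z) ∧ (∀ z : ℝ × ℝ, z.1 < C.T z.2 → C.u z < 1) ∧
  (∀ τ, (∀ θ, τ ≤ C.T θ) →
    ∫ θ in (0 : ℝ)..(2 * π), C.u (τ, θ) = 2 * π * C.C0 * Real.exp ((1 - κ) * τ))

/-- PACKET CT. The stream function of a configuration. -/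
def GCT : Prop := ∀ κ : ℝ, 0 < κ → κ < 1 → ∀ C : Config κ,
  ∃ D : TData κ C.C0, D.T = C.T ∧ D.u = C.u

end Pool.Agent.Helper25.PCap
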