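import Pool.Agent.Helper25.PCap.GoalsA

/-!
Packet A0 of MP_576c25_an (by helper53): symmetries.
-/

set_option autoImplicit false

open MeasureTheory Set Filter Topology
open scoped ContDiff Real

noncomputable section

namespace Pool.Agent.Helper25.PCap

namespace A0

/-- the reflection as a continuous linear equivalence -/
def refl : (ℝ × ℝ) ≃L[ℝ] (ℝ × ℝ) :=
  (ContinuousLinearEquiv.refl ℝ ℝ).prodCongr (ContinuousLinearEquiv.neg ℝ)

theorem refl_apply (z : ℝ × ℝ) : refl z = (z.1, -z.2) := rfl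

theorem D1_refl (f : ℝ × ℝ → ℝ) (z : ℝ × ℝ) : D1 (fun z => f (z.1, -z.2)) z = D1 f (z.1, -z.2) := by
  have h : (fun z : ℝ × ℝ => f (z.1, -z.2)) = f ∘ refl := by
    ext z; simp [refl_apply]
  rw [D1, h, refl.comp_right_fderiv, D1]
  simp [refl_apply]

theorem D2_refl (f : ℝ × ℝ → ℝ) (z : ℝ × ℝ) : D2 (fun z => f (z.1, -z.2)) z = -D2 f (z.1, -z.2) := by
  have h : (fun z : ℝ × ℝ => f (z.1, -z.2)) = f ∘ refl := by
    ext z; simp [refl_apply]
  rw [D2, h, refl.comp_right_fderiv, D2]
  simp only [refl_apply, ContinuousLinearMap.comp_apply, ContinuousLinearEquiv.coe_coe]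
  rw [← map_neg]
  simp

theorem D1_tr (f : ℝ × ℝ → ℝ) (s t : ℝ) (z : ℝ × ℝ) :
    D1 (fun z => f (z.1 - s, z.2 - t)) z = D1 f (z.1 - s, z.2 - t) := by
  have h : (fun z : ℝ × ℝ => f (z.1 - s, z.2 - t)) = fun z => f (z + (-s, -t)) := by
    ext z; simp [sub_eq_add_neg, Prod.add_def]
  rw [D1, h, fderiv_comp_add_right, D1]
  simp [sub_eq_add_neg, Prod.add_def]

theorem D2_tr (f : ℝ × ℝ → ℝ) (s t : ℝ) (z : ℝ × ℝ) :
    D2 (fun z => f (z.1 - s, z.2 - t)) z = D2 f (z.1 - s, z.2 - t) := by
  have h : (fun z : ℝ × ℝ => f (z.1 - s, z.2 - t)) = fun z => f (z + (-s, -t)) := by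
    ext z; simp [sub_eq_add_neg, Prod.add_def]
  rw [D2, h, fderiv_comp_add_right, D2]
  simp [sub_eq_add_neg, Prod.add_def]

theorem D1_neg (f : ℝ × ℝ → ℝ) (z : ℝ × ℝ) : D1 (fun z => -f z) z = -D1 f z := by
  rw [D1, fderiv_fun_neg, D1]; rfl

theorem D2_neg (f : ℝ × ℝ → ℝ) (z : ℝ × ℝ) : D2 (fun z => -f z) z = -D2 f z := by
  rw [D2, fderiv_fun_neg, D2]; rfl

theorem D1_cmul (f : ℝ × ℝ → ℝ) (α : ℝ) (z : ℝ × ℝ) (hf : DifferentiableAt ℝ f z) :
    D1 (fun z => α * f z) z = α * D1 f z := by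
  rw [D1, fderiv_const_mul hf, D1]; rfl

theorem D2_cmul (f : ℝ × ℝ → ℝ) (α : ℝ) (z : ℝ × ℝ) (hf : DifferentiableAt ℝ f z) :
    D2 (fun z => α * f z) z = α * D2 f z := by
  rw [D2, fderiv_const_mul hf, D2]; rfl

theorem md_conj (c : ℕ → ℂ) (n : ℕ) (θ : ℝ) :
    md (fun n => (starRingEnd ℂ) (c n)) n θ = (starRingEnd ℂ) (md c n (-θ)) := by
  simp only [md, map_mul]
  congr 1
  rw [← Complex.exp_conj]
  congr 1
  simp

theorem md_rot (c : ℕ → ℂ) (φ : ℝ) (n : ℕ) (θ : ℝ) :
    md (fun n => c n * Complex.exp (((-((n : ℝ) * φ)) : ℝ) * Complex.I)) n θ = md c n (θ - φ) := by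
  simp only [md]
  rw [mul_assoc, ← Complex.exp_add]
  congr 2
  push_cast
  ring

theorem fexp_refl {κ C0 : ℝ} {u om : ℝ × ℝ → ℝ} {c : ℕ → ℂ} {τ₁ : ℝ}
    (h : FExp κ C0 u om c τ₁) :
    FExp κ C0 (fun z => u (z.1, -z.2)) (fun z => -om (z.1, -z.2))
      (fun n => (starRingEnd ℂ) (c n)) τ₁ := by
  obtain ⟨h1, h2, h3, h4⟩ := h
  refine ⟨?_, ?_, ?_, ?_⟩
  · simpa using h1
  · simp [h2]
  · simp [h3]
  intro τ θ hτ
  obtain ⟨k1, k2, k3, k4⟩ := h4 τ (-θ) hτ
  refine ⟨?_, ?_, ?_, ?_⟩
  · simpa only [md_conj, Complex.conj_re] using k1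
  · rw [D1_refl]
    simpa only [md_conj, Complex.conj_re] using k2
  · rw [D2_refl]
    simp only [md_conj, Complex.conj_im]
    convert! k3.neg using 1
    ext n; ring
  · simp only [md_conj, Complex.conj_im]
    convert! k4.neg using 1
    ext n; ring

theorem fexp_rot {κ C0 : ℝ} {u om : ℝ × ℝ → ℝ} {c : ℕ → ℂ} {τ₁ : ℝ} (φ : ℝ)
    (h : FExp κ C0 u om c τ₁) :
    FExp κ C0 (fun z => u (z.1, z.2 - φ)) (fun z => om (z.1, z.2 - φ))
      (fun n => c n * Complex.exp (((-((n : ℝ) * φ)) : ℝ) * Complex.I)) τ₁ := by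
  obtain ⟨h1, h2, h3, h4⟩ := h
  refine ⟨?_, ?_, ?_, ?_⟩
  · simpa only [norm_mul, Complex.norm_exp_ofReal_mul_I, mul_one] using h1
  · simp [h2]
  · simp [h3]
  intro τ θ hτ
  obtain ⟨k1, k2, k3, k4⟩ := h4 τ (θ - φ) hτ
  have e1 := D1_tr u 0 φ (τ, θ)
  have e2 := D2_tr u 0 φ (τ, θ)
  simp only [sub_zero] at e1 e2
  refine ⟨?_, ?_, ?_, ?_⟩
  · simpa only [md_rot] using k1
  · rw [e1]
    simpa only [md_rot] using k2
  · rw [e2]
    simpa only [md_rot] using k3
  · simpa only [md_rot] using k4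

end A0

open A0 in
/-- PACKET A0 -/
theorem pkA0 : GA0 := by
  intro κ hκ0 hκ1
  have h1κ : 1 - κ ≠ 0 := by linarith
  refine ⟨?_, ?_, ?_, ?_⟩
  · -- reflection
    intro C0 D
    let D' : TData κ C0 :=
      { T := fun θ => D.T (-θ)
        u := fun z => D.u (z.1, -z.2)
        om := fun z => -D.om (z.1, -z.2)
        V := {z | (z.1, -z.2) ∈ D.V}
        Tcont := D.Tcont.comp continuous_neg
        Tper := fun θ => by
          have := D.Tper (-(θ + 2 * π))
          rw [← this]; congr 1; ring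
        Vopen := by
          have : Continuous (fun z : ℝ × ℝ => (z.1, -z.2)) := by fun_prop
          exact D.Vopen.preimage this
        VT := fun z hz => D.VT (z.1, -z.2) hz
        sys := by
          obtain ⟨s1, s2, s3, s4⟩ := D.sys
          have hsm : ContDiffOn ℝ ∞ (fun z : ℝ × ℝ => (z.1, -z.2)) {z | (z.1, -z.2) ∈ D.V} :=
            (contDiff_fst.prodMk contDiff_snd.neg).contDiffOn
          refine ⟨s1.comp hsm (fun z hz => hz), (s2.comp hsm (fun z hz => hz)).neg, ?_, ?_⟩
          · intro z hz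
            rw [D2_neg (fun z => D.om (z.1, -z.2)), D2_refl, D1_refl, neg_neg]
            exact s3 _ hz
          · intro z hz
            rw [D1_neg (fun z => D.om (z.1, -z.2)), D1_refl, D2_refl, s4 _ hz]
            ring
        uper := fun τ θ => by
          have := D.uper τ (-(θ + 2 * π))
          change D.u (τ, -(θ + 2 * π)) = D.u (τ, -θ)
          rw [← this]; congr 2; ring
        omper := fun τ θ => by
          have := D.omper τ (-(θ + 2 * π))
          change -D.om (τ, -(θ + 2 * π)) = -D.om (τ, -θ)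
          rw [← this]; congr 3; ring
        mean := fun τ hτ => by
          have h := D.mean τ (fun θ => by simpa using hτ (-θ))
          change ∫ θ in (0 : ℝ)..(2 * π), D.u (τ, -θ) = _
          rw [← h, intervalIntegral.integral_comp_neg (fun θ => D.u (τ, θ))]
          have hper : Function.Periodic (fun θ => D.u (τ, θ)) (2 * π) := fun θ => D.uper τ θ
          have := hper.intervalIntegral_add_eq (-(2 * π)) 0
          simpa using this
        u1 := fun θ => D.u1 (-θ)
        pos := fun z hz => D.pos (z.1, -z.2) hz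
        upos := fun z hz => by
          rw [D1_refl]; exact D.upos (z.1, -z.2) hz
        exp := by
          obtain ⟨c, τ₁, h1, h2⟩ := D.exp
          exact ⟨_, τ₁, fun θ => h1 (-θ), fexp_refl h2⟩ }
    exact ⟨D', fun _ => rfl, fun _ _ => rfl, fun _ _ => rfl, fun c τ₁ h => fexp_refl h⟩
  · -- rotation
    intro C0 D φ
    let D' : TData κ C0 :=
      { T := fun θ => D.T (θ - φ)
        u := fun z => D.u (z.1, z.2 - φ)
        om := fun z => D.om (z.1, z.2 - φ)
        V := {z | (z.1, z.2 - φ) ∈ D.V}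
        Tcont := D.Tcont.comp (continuous_id.sub continuous_const)
        Tper := fun θ => by
          have := D.Tper (θ - φ)
          rw [← this]; congr 1; ring
        Vopen := by
          have : Continuous (fun z : ℝ × ℝ => (z.1, z.2 - φ)) := by fun_prop
          exact D.Vopen.preimage this
        VT := fun z hz => D.VT (z.1, z.2 - φ) hz
        sys := by
          obtain ⟨s1, s2, s3, s4⟩ := D.sys
          have hsm : ContDiffOn ℝ ∞ (fun z : ℝ × ℝ => (z.1, z.2 - φ)) {z | (z.1, z.2 - φ) ∈ D.V} :=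
            (contDiff_fst.prodMk (contDiff_snd.sub contDiff_const)).contDiffOn
          refine ⟨s1.comp hsm (fun z hz => hz), (s2.comp hsm (fun z hz => hz)), ?_, ?_⟩
          · intro z hz
            have e1 := D1_tr D.u 0 φ z
            have e2 := D2_tr D.om 0 φ z
            simp only [sub_zero] at e1 e2
            rw [e1, e2]
            exact s3 _ hz
          · intro z hz
            have e1 := D2_tr D.u 0 φ z
            have e2 := D1_tr D.om 0 φ z
            simp only [sub_zero] at e1 e2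
            rw [e1, e2]
            exact s4 _ hz
        uper := fun τ θ => by
          have := D.uper τ (θ - φ)
          change D.u (τ, θ + 2 * π - φ) = D.u (τ, θ - φ)
          rw [← this]; congr 2; ring
        omper := fun τ θ => by
          have := D.omper τ (θ - φ)
          change D.om (τ, θ + 2 * π - φ) = D.om (τ, θ - φ)
          rw [← this]; congr 2; ring
        mean := fun τ hτ => by
          have h := D.mean τ (fun θ => by simpa using hτ (θ + φ))
          change ∫ θ in (0 : ℝ)..(2 * π), D.u (τ, θ - φ) = _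
          rw [← h, intervalIntegral.integral_comp_sub_right (fun θ => D.u (τ, θ))]
          have hper : Function.Periodic (fun θ => D.u (τ, θ)) (2 * π) := fun θ => D.uper τ θ
          have := hper.intervalIntegral_add_eq (-φ) 0
          rw [zero_add] at this
          rw [← this]
          congr 1 <;> ring
        u1 := fun θ => D.u1 (θ - φ)
        pos := fun z hz => D.pos (z.1, z.2 - φ) hz
        upos := fun z hz => by
          have e1 := D1_tr D.u 0 φ z
          simp only [sub_zero] at e1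
          rw [e1]; exact D.upos (z.1, z.2 - φ) hz
        exp := by
          obtain ⟨c, τ₁, h1, h2⟩ := D.exp
          exact ⟨_, τ₁, fun θ => h1 (θ - φ), fexp_rot φ h2⟩ }
    exact ⟨D', fun _ => rfl, fun _ _ => rfl, fun _ _ => rfl, fun c τ₁ h => fexp_rot φ h⟩
  · -- scaling of the system
    intro C0 α u om N hα hN hs
    obtain ⟨s1, s2, s3, s4⟩ := hs
    set σ : ℝ := Real.log α / (1 - κ) with hσ
    have hshf : ∀ τ, shf κ α τ = τ - σ := fun τ => rfl
    have hασ : Real.exp ((1 - κ) * σ) = α := by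
      rw [hσ, mul_div_cancel₀ _ h1κ, Real.exp_log hα]
    have hsm : ContDiffOn ℝ ∞ (fun z : ℝ × ℝ => (shf κ α z.1, z.2))
        {z | (shf κ α z.1, z.2) ∈ N} := by
      simp_rw [hshf]
      exact ((contDiff_fst.sub contDiff_const).prodMk contDiff_snd).contDiffOn
    have hexp : ∀ τ, Real.exp (-(1 - κ) * τ) * α = Real.exp (-(1 - κ) * (τ - σ)) := by
      intro τ
      conv_lhs => rw [← hασ]
      rw [← Real.exp_add]; congr 1; ring
    have hdu : ∀ z : ℝ × ℝ, (z.1 - σ, z.2) ∈ N →
        DifferentiableAt ℝ (fun z : ℝ × ℝ => u (z.1 - σ, z.2)) z := by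
      intro z hz
      have h1 : DifferentiableAt ℝ u (z.1 - σ, z.2) :=
        ((s1.differentiableOn (by simp)) _ hz).differentiableAt (hN.mem_nhds hz)
      have h2 : DifferentiableAt ℝ (fun z : ℝ × ℝ => ((z.1 - σ, z.2) : ℝ × ℝ)) z :=
        (differentiableAt_fst.sub_const σ).prodMk differentiableAt_snd
      exact DifferentiableAt.comp z h1 h2
    refine ⟨contDiffOn_const.mul (s1.comp hsm (fun z hz => hz)), s2.comp hsm (fun z hz => hz), ?_, ?_⟩
    · intro z hz
      have hz' : (z.1 - σ, z.2) ∈ N := hz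
      simp_rw [hshf]
      have e1 := D1_tr u σ 0 z
      have e2 := D2_tr om σ 0 z
      simp only [sub_zero] at e1 e2
      rw [D1_cmul (fun z => u (z.1 - σ, z.2)) α z (hdu z hz'), e1, e2, s3 _ hz']
      simp only
      rw [← hexp]; ring
    · intro z hz
      have hz' : (z.1 - σ, z.2) ∈ N := hz
      simp_rw [hshf]
      have e1 := D2_tr u σ 0 z
      have e2 := D1_tr om σ 0 z
      simp only [sub_zero] at e1 e2
      rw [D2_cmul (fun z => u (z.1 - σ, z.2)) α z (hdu z hz'), e1, e2, s4 _ hz']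
      simp only
      rw [← hexp]; ring
  · -- scaling of the expansion
    intro C0 α u om c τ₁ hα hα1 hd hF
    obtain ⟨h1, h2, h3, h4⟩ := hF
    set σ : ℝ := Real.log α / (1 - κ) with hσ
    have hshf : ∀ τ, shf κ α τ = τ - σ := fun τ => rfl
    have hασ : Real.exp ((1 - κ) * σ) = α := by
      rw [hσ, mul_div_cancel₀ _ h1κ, Real.exp_log hα]
    have hexpn : ∀ (a τ : ℝ), Real.exp (-(a * σ)) * Real.exp (a * τ) = Real.exp (a * (τ - σ)) := by
      intro a τ
      rw [← Real.exp_add]; congr 1; ring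
    have hexp : ∀ τ, α * Real.exp ((1 - κ) * (τ - σ)) = Real.exp ((1 - κ) * τ) := by
      intro τ
      conv_lhs => rw [← hασ]
      rw [← Real.exp_add]; congr 1; ring
    have hb : ∀ (n : ℕ) (τ : ℝ), α * Real.exp (-(aa κ n * σ)) * Real.exp (bb κ n * τ) =
        Real.exp (bb κ n * (τ - σ)) := by
      intro n τ
      conv_lhs => rw [← hασ]
      rw [← Real.exp_add, ← Real.exp_add]; congr 1; rw [bb]; ring
    have hmd : ∀ (n : ℕ) (θ : ℝ), md (fun n => (α * Real.exp (-(aa κ n * σ)) : ℝ) * c n) n θ =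
        ((α * Real.exp (-(aa κ n * σ)) : ℝ) : ℂ) * md c n θ := by
      intro n θ; simp only [md]; ring
    refine ⟨?_, ?_, ?_, ?_⟩
    · refine (h1.mul_left α).congr (fun n => ?_)
      rw [norm_mul, Complex.norm_real, Real.norm_eq_abs, abs_of_pos (by positivity)]
      have := hexpn (aa κ n) (τ₁ + σ)
      rw [add_sub_cancel_right] at this
      rw [← this]
      ring
    · simp [h2]
    · simp [h3]
    intro τ θ hτ
    have hτ' : τ - σ ≤ τ₁ := by linarith
    obtain ⟨k1, k2, k3, k4⟩ := h4 (τ - σ) θ hτ'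
    have hdu : DifferentiableAt ℝ (fun z : ℝ × ℝ => u (z.1 - σ, z.2)) (τ, θ) := by
      have h1 : DifferentiableAt ℝ u (τ - σ, θ) := hd _ _ hτ'
      have h2 : DifferentiableAt ℝ (fun z : ℝ × ℝ => ((z.1 - σ, z.2) : ℝ × ℝ)) (τ, θ) :=
        (differentiableAt_fst.sub_const σ).prodMk differentiableAt_snd
      exact DifferentiableAt.comp (τ, θ) h1 h2
    have e1 := D1_tr u σ 0 (τ, θ)
    have e2 := D2_tr u σ 0 (τ, θ)
    simp only [sub_zero] at e1 e2
    simp_rw [hshf, hmd, Complex.re_ofReal_mul, Complex.im_ofReal_mul]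
    refine ⟨?_, ?_, ?_, ?_⟩
    · convert! k1.mul_left α using 1
      · ext n; rw [← hexpn]; ring
      · rw [← hexp]; ring
    · rw [D1_cmul (fun z => u (z.1 - σ, z.2)) α (τ, θ) hdu, e1]
      convert! k2.mul_left α using 1
      · ext n; rw [← hexpn]; ring
      · rw [← hexp]; ring
    · rw [D2_cmul (fun z => u (z.1 - σ, z.2)) α (τ, θ) hdu, e2]
      convert! k3.mul_left α using 1
      ext n; rw [← hexpn]; ring
    · convert! k4 using 1
      ext n; rw [← hb]; ring

end Pool.Agent.Helper25.PCap
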