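import Pool.Agent.Helper25.PCap.GoalsA
import Pool.Agent.Helper25.PCap.GoalsF

/-!
PACKET A11a: comparison of the second modes (helper61).
-/

set_option autoImplicit false

open MeasureTheory Set Filter Topology
open scoped ContDiff Real

noncomputable section

namespace Pool.Agent.Helper25.PCap

theorem a11_md_re (c : ℕ → ℂ) (n : ℕ) (θ : ℝ) :
    (md c n θ).re = (c n).re * Real.cos (n * θ) - (c n).im * Real.sin (n * θ) := by
  unfold md
  rw [Complex.mul_re, Complex.exp_ofReal_mul_I_re, Complex.exp_ofReal_mul_I_im]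

theorem a11_md_im (c : ℕ → ℂ) (n : ℕ) (θ : ℝ) :
    (md c n θ).im = (c n).re * Real.sin (n * θ) + (c n).im * Real.cos (n * θ) := by
  unfold md
  rw [Complex.mul_im, Complex.exp_ofReal_mul_I_re, Complex.exp_ofReal_mul_I_im]

theorem a11_md_norm (c : ℕ → ℂ) (n : ℕ) (θ : ℝ) : ‖md c n θ‖ = ‖c n‖ := by
  unfold md
  rw [norm_mul, Complex.norm_exp_ofReal_mul_I, mul_one]

theorem a11_mono (κ : ℝ) (h0 : ∀ n : ℕ, aa κ n < aa κ (n + 1)) : StrictMono (aa κ) :=
  strictMono_nat_of_lt_succ h0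

/-- two-term expansion at `τ → -∞` -/
theorem a11_two (h0 : GExpo) (κ C0 : ℝ) (hκ0 : 0 < κ) (hκ1 : κ < 1) (hC : 0 < C0)
    (u om : ℝ × ℝ → ℝ) (c : ℕ → ℂ) (τ₁ : ℝ) (hF : FExp κ C0 u om c τ₁) :
    ∃ K : ℝ, 0 ≤ K ∧ ∀ τ θ : ℝ, τ ≤ τ₁ →
      |u (τ, θ) - C0 * Real.exp ((1 - κ) * τ) - (md c 2 θ).re * Real.exp (aa κ 2 * τ)| ≤
        K * Real.exp (aa κ 3 * τ) ∧
      |om (τ, θ) - BB κ C0 * (aa κ 2 / 2) * (md c 2 θ).im * Real.exp (bb κ 2 * τ)| ≤
        K * Real.exp (bb κ 3 * τ) := by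
  obtain ⟨hs, hc0, hc1, hF⟩ := hF
  obtain ⟨_, _, _, _, hlt, hge, hle, _⟩ := h0 κ hκ0 hκ1
  have hmono := a11_mono κ hlt
  have hB : 0 < BB κ C0 := by
    unfold BB
    have : 0 < 1 - κ := by linarith
    positivity
  set g : ℕ → ℝ := fun n => ((n : ℝ) + 1) ^ 3 * ‖c n‖ * Real.exp (aa κ n * τ₁) with hg
  have hg0 : ∀ n, 0 ≤ g n := fun n => by simp only [hg]; positivity
  set M : ℝ := ∑' n, g n with hM
  have hM0 : 0 ≤ M := tsum_nonneg hg0
  have hgM : HasSum g M := hs.hasSum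
  refine ⟨(1 + BB κ C0) * M * Real.exp (-(aa κ 3 * τ₁)), by positivity, ?_⟩
  intro τ θ hτ
  obtain ⟨hu, -, -, hom⟩ := hF τ θ hτ
  -- bounds on the terms
  have hexp : ∀ n : ℕ, 3 ≤ n → Real.exp (aa κ n * τ) ≤
      Real.exp (aa κ n * τ₁) * Real.exp (aa κ 3 * (τ - τ₁)) := by
    intro n hn
    rw [← Real.exp_add]
    apply Real.exp_le_exp.2
    have h3 : aa κ 3 ≤ aa κ n := hmono.monotone hn
    nlinarith
  have hcube : ∀ n : ℕ, (1 : ℝ) ≤ ((n : ℝ) + 1) ^ 3 := by
    intro n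
    have : (0 : ℝ) ≤ n := Nat.cast_nonneg n
    have h1 : (1 : ℝ) ≤ (n : ℝ) + 1 := by linarith
    exact one_le_pow₀ h1
  constructor
  · have h1 := hu.sub (hasSum_ite_eq 2 ((md c 2 θ).re * Real.exp (aa κ 2 * τ)))
    have h2 : HasSum (fun n => g n * Real.exp (aa κ 3 * (τ - τ₁)))
        (M * Real.exp (aa κ 3 * (τ - τ₁))) := hgM.mul_right _
    have h3 := h1.norm_le_of_bounded h2 (fun n => by
      rcases Nat.lt_or_ge n 3 with hn | hn
      · have hz : ‖(md c n θ).re * Real.exp (aa κ n * τ) -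
            (if n = 2 then (md c 2 θ).re * Real.exp (aa κ 2 * τ) else 0)‖ = 0 := by
          interval_cases n
          · simp [a11_md_re, hc0]
          · simp [a11_md_re, hc1]
          · simp
        rw [hz]
        have := hg0 n
        positivity
      · have hn2 : n ≠ 2 := by omega
        rw [if_neg hn2, sub_zero, norm_mul, Real.norm_eq_abs, Real.norm_eq_abs,
          abs_of_pos (Real.exp_pos _)]
        have h4 : |(md c n θ).re| ≤ ‖c n‖ := by
          rw [← a11_md_norm c n θ]; exact Complex.abs_re_le_norm _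
        calc |(md c n θ).re| * Real.exp (aa κ n * τ)
            ≤ ‖c n‖ * (Real.exp (aa κ n * τ₁) * Real.exp (aa κ 3 * (τ - τ₁))) :=
              mul_le_mul h4 (hexp n hn) (Real.exp_pos _).le (norm_nonneg _)
          _ ≤ (((n : ℝ) + 1) ^ 3 * ‖c n‖) * (Real.exp (aa κ n * τ₁) * Real.exp (aa κ 3 * (τ - τ₁))) := by
              apply mul_le_mul_of_nonneg_right _ (by positivity)
              exact le_mul_of_one_le_left (norm_nonneg _) (hcube n)
          _ = g n * Real.exp (aa κ 3 * (τ - τ₁)) := by simp only [hg]; ring)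
    rw [Real.norm_eq_abs] at h3
    refine h3.trans ?_
    have e : Real.exp (aa κ 3 * (τ - τ₁)) = Real.exp (-(aa κ 3 * τ₁)) * Real.exp (aa κ 3 * τ) := by
      rw [← Real.exp_add]; congr 1; ring
    rw [e]
    have : 0 ≤ BB κ C0 * M * Real.exp (-(aa κ 3 * τ₁)) * Real.exp (aa κ 3 * τ) := by positivity
    nlinarith
  · have h1 := hom.sub (hasSum_ite_eq 2 (BB κ C0 * (aa κ 2 / 2) * (md c 2 θ).im * Real.exp (bb κ 2 * τ)))
    have h2 : HasSum (fun n => g n * (BB κ C0 * Real.exp (aa κ 3 * (τ - τ₁) - (1 - κ) * τ)))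
        (M * (BB κ C0 * Real.exp (aa κ 3 * (τ - τ₁) - (1 - κ) * τ))) := hgM.mul_right _
    have h3 := h1.norm_le_of_bounded h2 (fun n => by
      rcases Nat.lt_or_ge n 3 with hn | hn
      · have hz : ‖BB κ C0 * (aa κ n / n) * (md c n θ).im * Real.exp (bb κ n * τ) -
            (if n = 2 then BB κ C0 * (aa κ 2 / 2) * (md c 2 θ).im * Real.exp (bb κ 2 * τ) else 0)‖
              = 0 := by
          interval_cases n
          · simp
          · simp [a11_md_im, hc1]
          · simp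
        rw [hz]
        have := hg0 n
        positivity
      · have hn2 : n ≠ 2 := by omega
        rw [if_neg hn2, sub_zero]
        have hn0 : (0 : ℝ) < n := by
          have : 0 < n := by omega
          exact_mod_cast this
        have ha0 : 0 ≤ aa κ n := le_trans (by positivity) (hge n)
        have h4 : |(md c n θ).im| ≤ ‖c n‖ := by
          rw [← a11_md_norm c n θ]; exact Complex.abs_im_le_norm _
        have h5 : aa κ n / n ≤ ((n : ℝ) + 1) ^ 3 := by
          rw [div_le_iff₀ hn0]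
          have h6 := hle n
          have h7 : (1 : ℝ) ≤ n := by
            have : 1 ≤ n := by omega
            exact_mod_cast this
          have h8 := hcube n
          nlinarith [sq_nonneg ((n : ℝ) + 1), mul_le_mul h7 h8 zero_le_one hn0.le,
            mul_pos hn0 hn0]
        have h6 : Real.exp (bb κ n * τ) ≤
            Real.exp (aa κ n * τ₁) * Real.exp (aa κ 3 * (τ - τ₁) - (1 - κ) * τ) := by
          rw [← Real.exp_add]
          apply Real.exp_le_exp.2
          have h3 : aa κ 3 ≤ aa κ n := hmono.monotone hn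
          unfold bb
          nlinarith
        rw [norm_mul, norm_mul, norm_mul, Real.norm_eq_abs, Real.norm_eq_abs, Real.norm_eq_abs,
          Real.norm_eq_abs, abs_of_pos hB, abs_of_pos (Real.exp_pos _),
          abs_of_nonneg (div_nonneg ha0 hn0.le)]
        calc BB κ C0 * (aa κ n / n) * |(md c n θ).im| * Real.exp (bb κ n * τ)
            ≤ BB κ C0 * ((n : ℝ) + 1) ^ 3 * ‖c n‖ *
              (Real.exp (aa κ n * τ₁) * Real.exp (aa κ 3 * (τ - τ₁) - (1 - κ) * τ)) := by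
              apply mul_le_mul _ h6 (Real.exp_pos _).le (by positivity)
              apply mul_le_mul _ h4 (abs_nonneg _) (by positivity)
              exact mul_le_mul_of_nonneg_left h5 hB.le
          _ = g n * (BB κ C0 * Real.exp (aa κ 3 * (τ - τ₁) - (1 - κ) * τ)) := by
              simp only [hg]; ring)
    rw [Real.norm_eq_abs] at h3
    refine h3.trans ?_
    have e : Real.exp (aa κ 3 * (τ - τ₁) - (1 - κ) * τ) =
        Real.exp (-(aa κ 3 * τ₁)) * Real.exp (bb κ 3 * τ) := by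
      rw [← Real.exp_add]; congr 1; unfold bb; ring
    rw [e]
    have : 0 ≤ M * Real.exp (-(aa κ 3 * τ₁)) * Real.exp (bb κ 3 * τ) := by positivity
    nlinarith

theorem a11_shf_exp (κ α τ a : ℝ) (hα : 0 < α) (hκ : κ < 1) :
    α * Real.exp (a * shf κ α τ) = α * Real.exp (-(a * (Real.log α / (1 - κ)))) * Real.exp (a * τ) := by
  rw [mul_assoc, ← Real.exp_add]
  congr 2
  unfold shf
  ring

theorem a11_shf_exp_eps (κ α τ : ℝ) (hα : 0 < α) (hκ : κ < 1) :
    α * Real.exp ((1 - κ) * shf κ α τ) = Real.exp ((1 - κ) * τ) := by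
  have h : (1 - κ) ≠ 0 := by linarith
  have e : (1 - κ) * shf κ α τ = (1 - κ) * τ - Real.log α := by
    unfold shf; field_simp
  rw [e, Real.exp_sub, Real.exp_log hα]
  field_simp

theorem a11_shf_exp_b (κ α τ : ℝ) (n : ℕ) (hα : 0 < α) (hκ : κ < 1) :
    Real.exp (bb κ n * shf κ α τ) =
      α * Real.exp (-(aa κ n * (Real.log α / (1 - κ)))) * Real.exp (bb κ n * τ) := by
  have h : (1 - κ) ≠ 0 := by linarith
  have e : bb κ n * shf κ α τ = Real.log α + -(aa κ n * (Real.log α / (1 - κ))) + bb κ n * τ := by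
    unfold shf bb; field_simp; ring
  rw [e, Real.exp_add, Real.exp_add, Real.exp_log hα]

theorem a11_exp_small (a : ℝ) (ha : 0 < a) (η : ℝ) (hη : 0 < η) :
    ∃ τ₀ : ℝ, ∀ τ ≤ τ₀, Real.exp (a * τ) ≤ η := by
  refine ⟨Real.log η / a, fun τ hτ => ?_⟩
  rw [← Real.exp_log hη]
  apply Real.exp_le_exp.2
  rw [le_div_iff₀ ha] at hτ
  linarith

/-- PACKET A11a. -/
theorem pkA11a (h0 : GExpo) (_h : GA0) : GA11a := by
  intro κ hκ0 hκ1 S D α cS cT τS τT hα0 hα1 hFS hreal hpos hFT hT hP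
  obtain ⟨_, _, _, _, hlt, hge, hle, hbpos⟩ := h0 κ hκ0 hκ1
  have hmono := a11_mono κ hlt
  have hC := S.C0pos
  have hε : 0 < 1 - κ := by linarith
  have hB : 0 < BB κ S.C0 := by unfold BB; positivity
  have ha2 : 0 < aa κ 2 := by
    have h1 := hge 2
    have : 0 < Real.sqrt κ * ((2 : ℕ) : ℝ) := by positivity
    linarith
  have ha3 : 0 < aa κ 3 := ha2.trans (hlt 2)
  have hb2 : 0 < bb κ 2 := hbpos 2 (by norm_num)
  obtain ⟨KS, hKS0, hKS⟩ := a11_two h0 κ S.C0 hκ0 hκ1 hC S.u S.om cS τS hFS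
  obtain ⟨KT, hKT0, hKT⟩ := a11_two h0 κ S.C0 hκ0 hκ1 hC D.u D.om cT τT hFT
  set σ : ℝ := sg κ α cS 2 with hσ
  have hσ0 : 0 < σ := by simp only [hσ]; unfold sg; positivity
  set k : ℝ := BB κ S.C0 * (aa κ 2 / 2) with hk
  have hk0 : 0 < k := by positivity
  set s3 : ℝ := α * Real.exp (-(aa κ 3 * (Real.log α / (1 - κ)))) with hs3
  have hs30 : 0 < s3 := by positivity
  -- the claim with an error
  have main : ∀ η : ℝ, 0 < η → ‖cT 2‖ ^ 2 ≤ σ ^ 2 + 4 * η * σ + 2 * η ^ 2 := by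
    intro η hη
    -- choose τ
    obtain ⟨τa, hτa⟩ := a11_exp_small (1 - κ) hε (α / (4 * (S.C0 + 1))) (by positivity)
    obtain ⟨τb, hτb⟩ := a11_exp_small (aa κ 2) ha2 (α / (4 * (‖cT 2‖ + 1))) (by positivity)
    obtain ⟨τc, hτc⟩ := a11_exp_small (aa κ 3) ha3 (α / (4 * (KT + 1))) (by positivity)
    obtain ⟨τd, hτd⟩ := a11_exp_small (aa κ 3 - aa κ 2) (by have := hlt 2; simpa using this)
      (min η (η * k) / (KT + KS * s3 + 1)) (by positivity)
    set τ : ℝ := min (min (min τS τT) (min τa τb)) (min (min τc τd) (τS + Real.log α / (1 - κ))) with hτ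
    have l1 : τ ≤ τT := (min_le_left _ _).trans ((min_le_left _ _).trans (min_le_right _ _))
    have l2 : τ ≤ τa := (min_le_left _ _).trans ((min_le_right _ _).trans (min_le_left _ _))
    have l3 : τ ≤ τb := (min_le_left _ _).trans ((min_le_right _ _).trans (min_le_right _ _))
    have l4 : τ ≤ τc := (min_le_right _ _).trans ((min_le_left _ _).trans (min_le_left _ _))
    have l5 : τ ≤ τd := (min_le_right _ _).trans ((min_le_left _ _).trans (min_le_right _ _))
    have l6 : τ ≤ τS + Real.log α / (1 - κ) := (min_le_right _ _).trans (min_le_right _ _)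
    have l7 : shf κ α τ ≤ τS := by unfold shf; linarith
    have hreT : (md cT 2 0).re = (cT 2).re := by rw [a11_md_re]; simp
    have himT : (md cT 2 0).im = (cT 2).im := by rw [a11_md_im]; simp
    obtain ⟨hTu, hTom⟩ := hKT τ 0 l1
    rw [hreT] at hTu
    rw [himT] at hTom
    -- D.u < α
    have hDu : D.u (τ, 0) < α := by
      have b1 := hτa τ l2
      have b2 := hτb τ l3
      have b3 := hτc τ l4
      have hC1 : 0 < S.C0 + 1 := by linarith
      have c1 : S.C0 * Real.exp ((1 - κ) * τ) ≤ α / 4 := by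
        calc S.C0 * Real.exp ((1 - κ) * τ) ≤ (S.C0 + 1) * (α / (4 * (S.C0 + 1))) :=
              mul_le_mul (by linarith) b1 (Real.exp_pos _).le hC1.le
          _ = α / 4 := by field_simp
      have hN1 : 0 < ‖cT 2‖ + 1 := by positivity
      have c2 : (cT 2).re * Real.exp (aa κ 2 * τ) ≤ α / 4 := by
        calc (cT 2).re * Real.exp (aa κ 2 * τ) ≤ (‖cT 2‖ + 1) * (α / (4 * (‖cT 2‖ + 1))) := by
              have := (Complex.re_le_norm (cT 2))
              exact mul_le_mul (by linarith) b2 (Real.exp_pos _).le hN1.le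
          _ = α / 4 := by field_simp
      have c3 : KT * Real.exp (aa κ 3 * τ) ≤ α / 4 := by
        calc KT * Real.exp (aa κ 3 * τ) ≤ (KT + 1) * (α / (4 * (KT + 1))) :=
              mul_le_mul (by linarith) b3 (Real.exp_pos _).le (by linarith)
          _ = α / 4 := by field_simp
      have := (abs_le.1 hTu).2
      linarith
    have hzT : (τ, (0:ℝ)).1 ≤ D.T (τ, (0:ℝ)).2 := l1.trans (hT 0)
    obtain ⟨ϑ, hϑ0, hϑ2, hSu, hSom⟩ := hP (τ, 0) hzT hDu
    simp only at hSu hSom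
    obtain ⟨hSu', hSom'⟩ := hKS (shf κ α τ) ϑ l7
    have hreS : (md cS 2 ϑ).re = (cS 2).re * Real.cos (2 * ϑ) := by
      rw [a11_md_re, hreal 2]; simp
    have himS : (md cS 2 ϑ).im = (cS 2).re * Real.sin (2 * ϑ) := by
      rw [a11_md_im, hreal 2]; simp
    rw [hreS, hSu] at hSu'
    rw [himS] at hSom'
    -- multiply the first by α
    have e2 : α * Real.exp (aa κ 2 * shf κ α τ) * (cS 2).re = σ * Real.exp (aa κ 2 * τ) := by
      rw [a11_shf_exp κ α τ _ hα0 hκ1]
      simp only [hσ]; unfold sg; ring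
    have e3 : α * Real.exp (aa κ 3 * shf κ α τ) = s3 * Real.exp (aa κ 3 * τ) := by
      rw [a11_shf_exp κ α τ _ hα0 hκ1]
    have e0 := a11_shf_exp_eps κ α τ hα0 hκ1
    have f2 : Real.exp (bb κ 2 * shf κ α τ) * (cS 2).re = σ * Real.exp (bb κ 2 * τ) := by
      rw [a11_shf_exp_b κ α τ 2 hα0 hκ1]
      simp only [hσ]; unfold sg; ring
    have f3 : Real.exp (bb κ 3 * shf κ α τ) = s3 * Real.exp (bb κ 3 * τ) := by
      rw [a11_shf_exp_b κ α τ 3 hα0 hκ1]
    have hSu2 : |D.u (τ, 0) - S.C0 * Real.exp ((1 - κ) * τ) -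
        σ * Real.cos (2 * ϑ) * Real.exp (aa κ 2 * τ)| ≤ KS * s3 * Real.exp (aa κ 3 * τ) := by
      have hm := mul_le_mul_of_nonneg_left hSu' hα0.le
      rw [← abs_of_pos hα0, ← abs_mul] at hm
      rw [abs_of_pos hα0] at hm
      have l : α * (D.u (τ, 0) / α - S.C0 * Real.exp ((1 - κ) * shf κ α τ) -
          (cS 2).re * Real.cos (2 * ϑ) * Real.exp (aa κ 2 * shf κ α τ)) =
          D.u (τ, 0) - S.C0 * Real.exp ((1 - κ) * τ) -
            σ * Real.cos (2 * ϑ) * Real.exp (aa κ 2 * τ) := by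
        have hd : α * (D.u (τ, 0) / α) = D.u (τ, 0) := by field_simp
        calc _ = α * (D.u (τ, 0) / α) - S.C0 * (α * Real.exp ((1 - κ) * shf κ α τ)) -
            Real.cos (2 * ϑ) * (α * Real.exp (aa κ 2 * shf κ α τ) * (cS 2).re) := by ring
          _ = _ := by rw [hd, e0, e2]; ring
      rw [l] at hm
      refine hm.trans (le_of_eq ?_)
      calc α * (KS * Real.exp (aa κ 3 * shf κ α τ)) = KS * (α * Real.exp (aa κ 3 * shf κ α τ)) := by ring
        _ = _ := by rw [e3]; ring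
    have hSom2 : |D.om (τ, 0)| ≤ k * σ * Real.sin (2 * ϑ) * Real.exp (bb κ 2 * τ) +
        KS * s3 * Real.exp (bb κ 3 * τ) := by
      refine hSom.trans ?_
      have h1 := (abs_le.1 hSom').2
      have l : BB κ S.C0 * (aa κ 2 / 2) * ((cS 2).re * Real.sin (2 * ϑ)) *
          Real.exp (bb κ 2 * shf κ α τ) = k * σ * Real.sin (2 * ϑ) * Real.exp (bb κ 2 * τ) := by
        calc _ = k * Real.sin (2 * ϑ) * (Real.exp (bb κ 2 * shf κ α τ) * (cS 2).re) := by
              simp only [hk]; ring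
          _ = _ := by rw [f2]; ring
      rw [l, f3] at h1
      linarith
    -- divide
    have hEd := hτd τ l5
    set E : ℝ := Real.exp ((aa κ 3 - aa κ 2) * τ) with hE
    have hE0 : 0 < E := Real.exp_pos _
    have g3 : Real.exp (aa κ 3 * τ) = E * Real.exp (aa κ 2 * τ) := by
      rw [hE, ← Real.exp_add]; congr 1; ring
    have g3b : Real.exp (bb κ 3 * τ) = E * Real.exp (bb κ 2 * τ) := by
      rw [hE, ← Real.exp_add]; congr 1; unfold bb; ring
    have hden : 0 < KT + KS * s3 + 1 := by positivity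
    have hEd2 : (KT + KS * s3) * E ≤ min η (η * k) := by
      rw [le_div_iff₀ hden] at hEd
      nlinarith
    have hEη : (KT + KS * s3) * E ≤ η := hEd2.trans (min_le_left _ _)
    have hEηk : (KT + KS * s3) * E ≤ η * k := hEd2.trans (min_le_right _ _)
    have hx2 : 0 < Real.exp (aa κ 2 * τ) := Real.exp_pos _
    have hy2 : 0 < Real.exp (bb κ 2 * τ) := Real.exp_pos _
    have hre : |(cT 2).re - σ * Real.cos (2 * ϑ)| ≤ η := by
      have h1 : |((cT 2).re - σ * Real.cos (2 * ϑ)) * Real.exp (aa κ 2 * τ)| ≤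
          (KT + KS * s3) * Real.exp (aa κ 3 * τ) := by
        have ht := abs_sub_le (σ * Real.cos (2 * ϑ) * Real.exp (aa κ 2 * τ))
          (D.u (τ, 0) - S.C0 * Real.exp ((1 - κ) * τ)) ((cT 2).re * Real.exp (aa κ 2 * τ))
        rw [abs_sub_comm (σ * Real.cos (2 * ϑ) * Real.exp (aa κ 2 * τ))
          (D.u (τ, 0) - S.C0 * Real.exp ((1 - κ) * τ))] at ht
        have e : ((cT 2).re - σ * Real.cos (2 * ϑ)) * Real.exp (aa κ 2 * τ) =
          -(σ * Real.cos (2 * ϑ) * Real.exp (aa κ 2 * τ) - (cT 2).re * Real.exp (aa κ 2 * τ)) := by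
          ring
        rw [e, abs_neg]
        linarith
      rw [abs_mul, abs_of_pos hx2, g3, ← mul_assoc] at h1
      exact (le_of_mul_le_mul_right h1 hx2).trans hEη
    have him : |(cT 2).im| ≤ σ * Real.sin (2 * ϑ) + η := by
      have h1 : |k * (cT 2).im * Real.exp (bb κ 2 * τ)| ≤
          |D.om (τ, 0)| + KT * Real.exp (bb κ 3 * τ) := by
        have ht := abs_sub_abs_le_abs_sub (k * (cT 2).im * Real.exp (bb κ 2 * τ)) (D.om (τ, 0))
        rw [abs_sub_comm] at ht
        have : |D.om (τ, 0) - k * (cT 2).im * Real.exp (bb κ 2 * τ)| ≤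
          KT * Real.exp (bb κ 3 * τ) := by simpa [hk] using hTom
        linarith
      rw [abs_mul, abs_mul, abs_of_pos hy2, abs_of_pos hk0] at h1
      have h2 : k * |(cT 2).im| * Real.exp (bb κ 2 * τ) ≤
          (k * σ * Real.sin (2 * ϑ) + (KT + KS * s3) * E) * Real.exp (bb κ 2 * τ) := by
        rw [g3b] at h1 hSom2
        nlinarith
      have h3 := le_of_mul_le_mul_right h2 hy2
      have h4 : k * |(cT 2).im| ≤ k * (σ * Real.sin (2 * ϑ) + η) := by nlinarith
      exact le_of_mul_le_mul_left h4 hk0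
    -- conclude
    have hnorm : ‖cT 2‖ ^ 2 = (cT 2).re ^ 2 + (cT 2).im ^ 2 := by
      rw [← Complex.normSq_eq_norm_sq, Complex.normSq_apply]; ring
    have hs1 : 0 ≤ Real.sin (2 * ϑ) := Real.sin_nonneg_of_nonneg_of_le_pi (by linarith) (by linarith)
    have hs2 : Real.sin (2 * ϑ) ≤ 1 := Real.sin_le_one _
    have hc2 : |Real.cos (2 * ϑ)| ≤ 1 := Real.abs_cos_le_one _
    have hre2 : |(cT 2).re| ≤ σ * |Real.cos (2 * ϑ)| + η := by
      have h1 := abs_sub_abs_le_abs_sub (cT 2).re (σ * Real.cos (2 * ϑ))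
      rw [abs_mul, abs_of_pos hσ0] at h1
      linarith
    have hre3 : (cT 2).re ^ 2 ≤ (σ * |Real.cos (2 * ϑ)| + η) ^ 2 := by
      rw [← sq_abs (cT 2).re]
      exact pow_le_pow_left₀ (abs_nonneg _) hre2 2
    have him3 : (cT 2).im ^ 2 ≤ (σ * Real.sin (2 * ϑ) + η) ^ 2 := by
      rw [← sq_abs (cT 2).im]
      exact pow_le_pow_left₀ (abs_nonneg _) him 2
    have hpy := Real.sin_sq_add_cos_sq (2 * ϑ)
    rw [hnorm]
    have hcc : |Real.cos (2 * ϑ)| ^ 2 = Real.cos (2 * ϑ) ^ 2 := sq_abs _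
    have hexpand : (σ * |Real.cos (2 * ϑ)| + η) ^ 2 + (σ * Real.sin (2 * ϑ) + η) ^ 2 =
        σ ^ 2 * (Real.sin (2 * ϑ) ^ 2 + |Real.cos (2 * ϑ)| ^ 2) +
          2 * η * σ * (|Real.cos (2 * ϑ)| + Real.sin (2 * ϑ)) + 2 * η ^ 2 := by ring
    rw [hcc, hpy] at hexpand
    have hb : 2 * η * σ * (|Real.cos (2 * ϑ)| + Real.sin (2 * ϑ)) ≤ 2 * η * σ * 2 := by
      apply mul_le_mul_of_nonneg_left _ (by positivity)
      linarith
    linarith
  -- let η → 0
  by_contra hcon
  push Not at hcon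
  have hsq : σ ^ 2 < ‖cT 2‖ ^ 2 := pow_lt_pow_left₀ hcon hσ0.le (by norm_num)
  set d : ℝ := ‖cT 2‖ ^ 2 - σ ^ 2 with hd
  have hd0 : 0 < d := by linarith
  set η : ℝ := min 1 (d / (2 * (4 * σ + 2))) with hη
  have hη0 : 0 < η := by positivity
  have h1 := main η hη0
  have hη1 : η ≤ 1 := min_le_left _ _
  have hη2 : η ≤ d / (2 * (4 * σ + 2)) := min_le_right _ _
  rw [le_div_iff₀ (by positivity)] at hη2
  nlinarith

end Pool.Agent.Helper25.PCap
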