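import Pool.Agent.Helper25.PCap.GoalsA

/-!
PACKET A11b: a trigonometric polynomial of mean zero which is `≤ 0` (helper61).
-/

set_option autoImplicit false

open MeasureTheory Set Filter Topology
open scoped ContDiff Real

noncomputable section

namespace Pool.Agent.Helper25.PCap

theorem a11b_dense : Dense {θ : ℝ | Real.sin (2 * θ) ≠ 0} := by
  have hc : {θ : ℝ | Real.sin (2 * θ) = 0}.Countable := by
    have : {θ : ℝ | Real.sin (2 * θ) = 0} ⊆ Set.range (fun n : ℤ => (n : ℝ) * π / 2) := by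
      intro θ hθ
      obtain ⟨n, hn⟩ := Real.sin_eq_zero_iff.1 hθ
      exact ⟨n, by simp only; linarith⟩
    exact (Set.countable_range _).mono this
  have := hc.dense_compl ℝ
  exact this

theorem a11b_re (δ : ℂ) (x : ℝ) :
    (δ * Complex.exp ((x : ℝ) * Complex.I)).re = δ.re * Real.cos x - δ.im * Real.sin x := by
  rw [Complex.mul_re, Complex.exp_ofReal_mul_I_re, Complex.exp_ofReal_mul_I_im]

theorem a11b_im (δ : ℂ) (x : ℝ) :
    (δ * Complex.exp ((x : ℝ) * Complex.I)).im = δ.re * Real.sin x + δ.im * Real.cos x := by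
  rw [Complex.mul_im, Complex.exp_ofReal_mul_I_re, Complex.exp_ofReal_mul_I_im]

/-- PACKET A11b. -/
theorem pkA11b : GA11b := by
  intro δ ρ m hm hρ H
  set p := δ.re with hp
  set q := δ.im with hq
  have hmR : (3 : ℝ) ≤ m := by exact_mod_cast hm
  set a : ℝ := (m : ℝ) - 2 with ha
  set b : ℝ := (m : ℝ) + 2 with hb
  set A : ℝ := (1 + ρ) / 2 with hA
  set B : ℝ := (1 - ρ) / 2 with hB
  have hA0 : 0 < A := by simp only [hA]; linarith
  -- the function
  set h : ℝ → ℝ := fun θ => A * (p * Real.cos (a * θ) - q * Real.sin (a * θ)) +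
    B * (p * Real.cos (b * θ) - q * Real.sin (b * θ)) with hh
  have hform : ∀ θ : ℝ, (δ * Complex.exp (((m : ℝ) * θ : ℝ) * Complex.I)).re * Real.cos (2 * θ) +
      ρ * (δ * Complex.exp (((m : ℝ) * θ : ℝ) * Complex.I)).im * Real.sin (2 * θ) = h θ := by
    intro θ
    rw [a11b_re, a11b_im]
    have e1 : a * θ = (m : ℝ) * θ - 2 * θ := by simp only [ha]; ring
    have e2 : b * θ = (m : ℝ) * θ + 2 * θ := by simp only [hb]; ring
    simp only [hh]
    rw [e1, e2, Real.cos_sub, Real.sin_sub, Real.cos_add, Real.sin_add]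
    simp only [hA, hB]
    ring
  have hle : ∀ θ, h θ ≤ 0 := by
    have hcont : Continuous h := by simp only [hh]; fun_prop
    have hsub : {θ : ℝ | Real.sin (2 * θ) ≠ 0} ⊆ {θ | h θ ≤ 0} := by
      intro θ hθ
      have := H θ hθ
      rw [hform] at this
      exact this
    have hcl := closure_minimal hsub (isClosed_le hcont continuous_const)
    rw [a11b_dense.closure_eq] at hcl
    intro θ
    exact hcl (mem_univ θ)
  set R : ℝ := |p| + |q| with hR
  have hK : ∀ θ, 0 ≤ R + (p * Real.cos (a * θ) - q * Real.sin (a * θ)) := by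
    intro θ
    have h1 : |p * Real.cos (a * θ)| ≤ |p| := by
      rw [abs_mul]
      exact mul_le_of_le_one_right (abs_nonneg _) (Real.abs_cos_le_one _)
    have h2 : |q * Real.sin (a * θ)| ≤ |q| := by
      rw [abs_mul]
      exact mul_le_of_le_one_right (abs_nonneg _) (Real.abs_sin_le_one _)
    have h3 := neg_abs_le (p * Real.cos (a * θ))
    have h4 := le_abs_self (q * Real.sin (a * θ))
    simp only [hR]
    linarith
  -- antiderivative
  have ha0 : a ≠ 0 := by simp only [ha]; linarith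
  have hb0 : b ≠ 0 := by simp only [hb]; linarith
  have hm0 : (m : ℝ) ≠ 0 := by linarith
  set G : ℝ → ℝ := fun θ => A * (p ^ 2 + q ^ 2) / 2 * θ +
    R * A * (p * (Real.sin (a * θ) / a) + q * (Real.cos (a * θ) / a)) +
    R * B * (p * (Real.sin (b * θ) / b) + q * (Real.cos (b * θ) / b)) +
    A * ((p ^ 2 - q ^ 2) / 2 * (Real.sin (2 * a * θ) / (2 * a)) +
      p * q * (Real.cos (2 * a * θ) / (2 * a))) +
    B * ((p ^ 2 + q ^ 2) / 2 * (Real.sin (4 * θ) / 4) +
      (p ^ 2 - q ^ 2) / 2 * (Real.sin (2 * m * θ) / (2 * m)) +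
      p * q * (Real.cos (2 * m * θ) / (2 * m))) with hG
  have hder : ∀ θ, HasDerivAt G (h θ * (R + (p * Real.cos (a * θ) - q * Real.sin (a * θ)))) θ := by
    intro θ
    have hs : ∀ c : ℝ, c ≠ 0 → HasDerivAt (fun θ => Real.sin (c * θ) / c) (Real.cos (c * θ)) θ := by
      intro c hc
      have h1 : HasDerivAt (fun θ : ℝ => c * θ) c θ := by
        simpa using (hasDerivAt_id θ).const_mul c
      refine ((h1.sin).div_const c).congr_deriv ?_
      rw [mul_div_assoc, div_self hc, mul_one]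
    have hcs : ∀ c : ℝ, c ≠ 0 → HasDerivAt (fun θ => Real.cos (c * θ) / c) (-Real.sin (c * θ)) θ := by
      intro c hc
      have h1 : HasDerivAt (fun θ : ℝ => c * θ) c θ := by
        simpa using (hasDerivAt_id θ).const_mul c
      refine ((h1.cos).div_const c).congr_deriv ?_
      rw [mul_div_assoc, div_self hc, mul_one]
    have hlin : HasDerivAt (fun θ : ℝ => A * (p ^ 2 + q ^ 2) / 2 * θ) (A * (p ^ 2 + q ^ 2) / 2) θ := by
      simpa using (hasDerivAt_id θ).const_mul (A * (p ^ 2 + q ^ 2) / 2)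
    have h2a : (2 : ℝ) * a ≠ 0 := by positivity
    have h2m : (2 : ℝ) * m ≠ 0 := by positivity
    have h4 : (4 : ℝ) ≠ 0 := by norm_num
    have hd := (((hlin.add ((((hs a ha0).const_mul p).add ((hcs a ha0).const_mul q)).const_mul (R * A))).add
      ((((hs b hb0).const_mul p).add ((hcs b hb0).const_mul q)).const_mul (R * B))).add
      ((((hs (2 * a) h2a).const_mul ((p ^ 2 - q ^ 2) / 2)).add
        ((hcs (2 * a) h2a).const_mul (p * q))).const_mul A)).add
      (((((hs 4 h4).const_mul ((p ^ 2 + q ^ 2) / 2)).add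
        ((hs (2 * m) h2m).const_mul ((p ^ 2 - q ^ 2) / 2))).add
        ((hcs (2 * m) h2m).const_mul (p * q))).const_mul B)
    refine hd.congr_deriv ?_
    have e1 : 2 * a * θ = 2 * (a * θ) := by ring
    have e2 : 4 * θ = b * θ - a * θ := by simp only [ha, hb]; ring
    have e3 : 2 * (m : ℝ) * θ = b * θ + a * θ := by simp only [ha, hb]; ring
    rw [e1, e2, e3, Real.cos_two_mul, Real.sin_two_mul, Real.cos_sub, Real.cos_add, Real.sin_add]
    simp only [hh]
    have hsc : Real.sin (a * θ) ^ 2 = 1 - Real.cos (a * θ) ^ 2 := by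
      have := Real.sin_sq_add_cos_sq (a * θ)
      linarith
    ring_nf
    rw [hsc]
    ring
  have hanti : Antitone G := by
    apply antitone_of_deriv_nonpos
    · intro θ; exact (hder θ).differentiableAt
    · intro θ
      rw [(hder θ).deriv]
      exact mul_nonpos_of_nonpos_of_nonneg (hle θ) (hK θ)
  have h2pi := hanti (show (0 : ℝ) ≤ 2 * π by positivity)
  have hsin : ∀ n : ℕ, Real.sin ((n : ℝ) * (2 * π)) = 0 := by
    intro n
    have := Real.sin_nat_mul_pi (2 * n)
    rw [← this]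
    congr 1
    push_cast
    ring
  have hcos : ∀ n : ℕ, Real.cos ((n : ℝ) * (2 * π)) = 1 := fun n => Real.cos_nat_mul_two_pi n
  have ea : a = ((m - 2 : ℕ) : ℝ) := by
    rw [Nat.cast_sub (by omega)]; simp [ha]
  have eb : b = ((m + 2 : ℕ) : ℝ) := by
    push_cast; rfl
  have e2a : 2 * a = ((2 * (m - 2) : ℕ) : ℝ) := by
    rw [ea]; push_cast; ring
  have e2m : 2 * (m : ℝ) = ((2 * m : ℕ) : ℝ) := by push_cast; ring
  have e4 : (4 : ℝ) = ((4 : ℕ) : ℝ) := by norm_num
  have s1 : Real.sin (a * (2 * π)) = 0 := by rw [ea]; exact hsin _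
  have s2 : Real.sin (b * (2 * π)) = 0 := by rw [eb]; exact hsin _
  have s3 : Real.sin (2 * a * (2 * π)) = 0 := by rw [e2a]; exact hsin _
  have s4 : Real.sin (4 * (2 * π)) = 0 := by rw [e4]; exact hsin _
  have s5 : Real.sin (2 * (m : ℝ) * (2 * π)) = 0 := by rw [e2m]; exact hsin _
  have c1 : Real.cos (a * (2 * π)) = 1 := by rw [ea]; exact hcos _
  have c2 : Real.cos (b * (2 * π)) = 1 := by rw [eb]; exact hcos _
  have c3 : Real.cos (2 * a * (2 * π)) = 1 := by rw [e2a]; exact hcos _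
  have c5 : Real.cos (2 * (m : ℝ) * (2 * π)) = 1 := by rw [e2m]; exact hcos _
  simp only [hG, s1, s2, s3, s4, s5, c1, c2, c3, c5, mul_zero, Real.sin_zero, Real.cos_zero,
    zero_div, zero_add, add_zero] at h2pi
  have hfin : A * (p ^ 2 + q ^ 2) / 2 * (2 * π) ≤ 0 := by linarith
  have hpq : p ^ 2 + q ^ 2 ≤ 0 := by
    by_contra hcon
    push Not at hcon
    have : 0 < A * (p ^ 2 + q ^ 2) / 2 * (2 * π) := by positivity
    linarith
  have hp0 : p = 0 := by nlinarith [sq_nonneg p, sq_nonneg q]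
  have hq0 : q = 0 := by nlinarith [sq_nonneg p, sq_nonneg q]
  exact Complex.ext hp0 hq0

end Pool.Agent.Helper25.PCap
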