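import Pool.Agent.Helper25.PCap.GoalsA
import Pool.Agent.Helper25.PCap.GoalsF

/-!
Packet A4: `P(α)` for small `α`.
-/

set_option autoImplicit false

open MeasureTheory Set Filter Topology
open scoped ContDiff Real

noncomputable section

namespace Pool.Agent.Helper25.PCap

lemma pkA4_hasDerivAt {f : ℝ × ℝ → ℝ} {t ϑ : ℝ} (h : DifferentiableAt ℝ f (t, ϑ)) :
    HasDerivAt (fun s : ℝ => f (s, ϑ)) (D1 f (t, ϑ)) t := by
  have h1 : HasDerivAt (fun s : ℝ => ((s, ϑ) : ℝ × ℝ)) (1, 0) t :=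
    (hasDerivAt_id t).prodMk (hasDerivAt_const t ϑ)
  exact h.hasFDerivAt.comp_hasDerivAt t h1

lemma pkA4_mono {κ C0 : ℝ} (D : TData κ C0) (θ : ℝ) :
    StrictMonoOn (fun s : ℝ => D.u (s, θ)) (Iic (D.T θ)) := by
  have hd : ∀ s ∈ Iic (D.T θ), HasDerivAt (fun s : ℝ => D.u (s, θ)) (D1 D.u (s, θ)) s := by
    intro s hs
    refine pkA4_hasDerivAt ?_
    exact (D.sys.1.contDiffAt (D.Vopen.mem_nhds (D.VT (s, θ) hs))).differentiableAt (by simp)
  refine strictMonoOn_of_deriv_pos (convex_Iic _)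
    (fun s hs => (hd s hs).continuousAt.continuousWithinAt) fun s hs => ?_
  have hs' : s ∈ Iic (D.T θ) := interior_subset hs
  rw [(hd s hs').deriv]
  exact D.upos (s, θ) hs'

lemma pkA4_sum {f G : ℕ → ℝ} {s E : ℝ} (hf : HasSum f s) (hG : Summable G)
    (h : ∀ n, |f n| ≤ G n * E) : |s| ≤ (∑' n, G n) * E := by
  have h1 : HasSum (fun n => G n * E) ((∑' n, G n) * E) := hG.hasSum.mul_right E
  rw [abs_le]
  constructor
  · have := hasSum_le (fun n => (abs_le.1 (h n)).1) h1.neg hf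
    linarith
  · exact hasSum_le (fun n => (abs_le.1 (h n)).2) hf h1

lemma pkA4_md (c : ℕ → ℂ) (n : ℕ) (θ : ℝ) : ‖md c n θ‖ = ‖c n‖ := by
  rw [md, norm_mul, Complex.norm_exp_ofReal_mul_I, mul_one]

lemma pkA4_aa (h0 : GExpo) {κ : ℝ} (h1 : 0 < κ) (h2 : κ < 1) {n : ℕ} (hn : 2 ≤ n) :
    aa κ 2 ≤ aa κ n := by
  have := (h0 κ h1 h2).2.2.2.2.1
  exact (strictMono_nat_of_lt_succ this).monotone hn

/-- bounds for the tails -/
lemma pkA4_tail (h0 : GExpo) {κ : ℝ} (h1 : 0 < κ) (h2 : κ < 1) {C0 : ℝ} (hC : 0 < C0)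
    {u om : ℝ × ℝ → ℝ} {c : ℕ → ℂ} {τ₁ : ℝ} (hF : FExp κ C0 u om c τ₁) :
    ∃ K : ℝ, 0 < K ∧ ∀ τ θ : ℝ, τ ≤ τ₁ →
      |u (τ, θ) * Real.exp (-((1 - κ) * τ)) - C0| ≤ K * Real.exp (bb κ 2 * τ) ∧
      |om (τ, θ)| ≤ K * Real.exp (bb κ 2 * τ) := by
  obtain ⟨hS, hc0, hc1, hx⟩ := hF
  set G : ℕ → ℝ := fun n : ℕ => ((n : ℝ) + 1) ^ 3 * ‖c n‖ * Real.exp (aa κ n * τ₁) with hGdef
  have hGnn : ∀ n, 0 ≤ G n := fun n => by
    rw [hGdef]
    positivity
  have hSnn : 0 ≤ ∑' n, G n := tsum_nonneg hGnn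
  have hB : 0 < BB κ C0 := by
    rw [BB]
    have : 0 < 1 - κ := by linarith
    positivity
  have hle1 : (1 : ℝ) ≤ 1 + BB κ C0 := by linarith
  set K : ℝ := (1 + BB κ C0) * ((∑' n, G n) * Real.exp (-(aa κ 2 * τ₁)) + 1) with hK
  have hKpos : 0 < K := by rw [hK]; positivity
  refine ⟨K, hKpos, fun τ θ hτ => ?_⟩
  obtain ⟨hu, _, _, ho⟩ := hx τ θ hτ
  have hcomp : ∀ n, 2 ≤ n → Real.exp (aa κ n * τ) ≤
      Real.exp (aa κ n * τ₁) * Real.exp (aa κ 2 * (τ - τ₁)) := by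
    intro n hn
    rw [← Real.exp_add, Real.exp_le_exp]
    have h3 := pkA4_aa h0 h1 h2 hn
    nlinarith
  have hexp : Real.exp (aa κ 2 * (τ - τ₁)) = Real.exp (-(aa κ 2 * τ₁)) * Real.exp (aa κ 2 * τ) := by
    rw [← Real.exp_add]
    congr 1
    ring
  have hbb : ∀ n, Real.exp (bb κ n * τ) = Real.exp (aa κ n * τ) * Real.exp (-((1 - κ) * τ)) := by
    intro n
    rw [← Real.exp_add, bb]
    congr 1
    ring
  have hub : |u (τ, θ) - C0 * Real.exp ((1 - κ) * τ)| ≤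
      (∑' n, G n) * Real.exp (aa κ 2 * (τ - τ₁)) := by
    refine pkA4_sum hu hS fun n => ?_
    rcases Nat.lt_or_ge n 2 with hn | hn
    · have hcn : c n = 0 := by
        interval_cases n
        · exact hc0
        · exact hc1
      have : md c n θ = 0 := by rw [md, hcn, zero_mul]
      rw [this]
      simp only [Complex.zero_re, zero_mul, abs_zero]
      exact mul_nonneg (hGnn n) (Real.exp_pos _).le
    · rw [abs_mul, abs_of_pos (Real.exp_pos (aa κ n * τ))]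
      have e1 : |(md c n θ).re| ≤ ‖c n‖ := by
        rw [← pkA4_md c n θ]
        exact Complex.abs_re_le_norm _
      have e2 : ‖c n‖ ≤ ((n : ℝ) + 1) ^ 3 * ‖c n‖ := by
        have : (1 : ℝ) ≤ ((n : ℝ) + 1) ^ 3 := one_le_pow₀ (by
          have : (0 : ℝ) ≤ n := Nat.cast_nonneg n
          linarith)
        nlinarith [norm_nonneg (c n)]
      calc |(md c n θ).re| * Real.exp (aa κ n * τ)
          ≤ (((n : ℝ) + 1) ^ 3 * ‖c n‖) *
            (Real.exp (aa κ n * τ₁) * Real.exp (aa κ 2 * (τ - τ₁))) :=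
            mul_le_mul (e1.trans e2) (hcomp n hn) (Real.exp_pos _).le (by positivity)
        _ = G n * Real.exp (aa κ 2 * (τ - τ₁)) := by rw [hGdef]; ring
  have hob : |om (τ, θ)| ≤
      (∑' n, G n) * (BB κ C0 * Real.exp (aa κ 2 * (τ - τ₁)) * Real.exp (-((1 - κ) * τ))) := by
    refine pkA4_sum ho hS fun n => ?_
    rcases Nat.lt_or_ge n 2 with hn | hn
    · have hcn : c n = 0 := by
        interval_cases n
        · exact hc0
        · exact hc1
      have : md c n θ = 0 := by rw [md, hcn, zero_mul]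
      rw [this]
      simp only [Complex.zero_im, mul_zero, zero_mul, abs_zero]
      have := hGnn n
      positivity
    · have hnpos : (0 : ℝ) < n := by
        have : 0 < n := by omega
        exact_mod_cast this
      have hann : 0 ≤ aa κ n := le_trans (by positivity) ((h0 κ h1 h2).2.2.2.2.2.1 n)
      have hale : aa κ n ≤ n + 1 := (h0 κ h1 h2).2.2.2.2.2.2.1 n
      rw [hbb n]
      rw [abs_mul, abs_mul, abs_mul, abs_of_pos hB,
        abs_of_nonneg (div_nonneg hann hnpos.le),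
        abs_of_pos (mul_pos (Real.exp_pos (aa κ n * τ)) (Real.exp_pos (-((1 - κ) * τ))))]
      have e1 : |(md c n θ).im| ≤ ‖c n‖ := by
        rw [← pkA4_md c n θ]
        exact Complex.abs_im_le_norm _
      have e3 : aa κ n / n ≤ ((n : ℝ) + 1) ^ 3 := by
        rw [div_le_iff₀ hnpos]
        have h4 : (1 : ℝ) ≤ n := by
          have : 1 ≤ n := by omega
          exact_mod_cast this
        have h5 : (n : ℝ) + 1 ≤ ((n : ℝ) + 1) ^ 3 :=
          le_self_pow₀ (by linarith) (by norm_num)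
        nlinarith [mul_nonneg (by positivity : (0 : ℝ) ≤ ((n : ℝ) + 1) ^ 3)
          (by linarith : (0 : ℝ) ≤ n - 1)]
      calc BB κ C0 * (aa κ n / n) * |(md c n θ).im| *
            (Real.exp (aa κ n * τ) * Real.exp (-((1 - κ) * τ)))
          ≤ BB κ C0 * ((n : ℝ) + 1) ^ 3 * ‖c n‖ *
            ((Real.exp (aa κ n * τ₁) * Real.exp (aa κ 2 * (τ - τ₁))) *
              Real.exp (-((1 - κ) * τ))) := by
            have hdn : 0 ≤ aa κ n / n := div_nonneg hann hnpos.le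
            have := hcomp n hn
            gcongr
        _ = G n * (BB κ C0 * Real.exp (aa κ 2 * (τ - τ₁)) * Real.exp (-((1 - κ) * τ))) := by
            rw [hGdef]; ring
  have hfin : Real.exp (aa κ 2 * (τ - τ₁)) * Real.exp (-((1 - κ) * τ)) =
      Real.exp (-(aa κ 2 * τ₁)) * Real.exp (bb κ 2 * τ) := by
    rw [hexp, hbb 2]; ring
  have hEpos : 0 < Real.exp (bb κ 2 * τ) := Real.exp_pos _
  have hE1pos : 0 < Real.exp (-(aa κ 2 * τ₁)) := Real.exp_pos _
  have hprod : 0 ≤ (∑' n, G n) * Real.exp (-(aa κ 2 * τ₁)) := mul_nonneg hSnn hE1pos.le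
  constructor
  · have e : u (τ, θ) * Real.exp (-((1 - κ) * τ)) - C0 =
        (u (τ, θ) - C0 * Real.exp ((1 - κ) * τ)) * Real.exp (-((1 - κ) * τ)) := by
      have h9 : Real.exp ((1 - κ) * τ) * Real.exp (-((1 - κ) * τ)) = 1 := by
        rw [← Real.exp_add, add_neg_cancel, Real.exp_zero]
      calc u (τ, θ) * Real.exp (-((1 - κ) * τ)) - C0
          = u (τ, θ) * Real.exp (-((1 - κ) * τ)) -
            C0 * (Real.exp ((1 - κ) * τ) * Real.exp (-((1 - κ) * τ))) := by rw [h9, mul_one]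
        _ = _ := by ring
    rw [e, abs_mul, abs_of_pos (Real.exp_pos (-((1 - κ) * τ)))]
    calc |u (τ, θ) - C0 * Real.exp ((1 - κ) * τ)| * Real.exp (-((1 - κ) * τ))
        ≤ (∑' n, G n) * Real.exp (aa κ 2 * (τ - τ₁)) * Real.exp (-((1 - κ) * τ)) :=
          mul_le_mul_of_nonneg_right hub (Real.exp_pos _).le
      _ = ((∑' n, G n) * Real.exp (-(aa κ 2 * τ₁))) * Real.exp (bb κ 2 * τ) := by
          rw [mul_assoc, hfin]; ring
      _ ≤ K * Real.exp (bb κ 2 * τ) := by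
          refine mul_le_mul_of_nonneg_right ?_ hEpos.le
          rw [hK]
          nlinarith
  · calc |om (τ, θ)| ≤ (∑' n, G n) *
          (BB κ C0 * Real.exp (aa κ 2 * (τ - τ₁)) * Real.exp (-((1 - κ) * τ))) := hob
      _ = (BB κ C0 * ((∑' n, G n) * Real.exp (-(aa κ 2 * τ₁)))) * Real.exp (bb κ 2 * τ) := by
          rw [mul_assoc (BB κ C0), hfin]; ring
      _ ≤ K * Real.exp (bb κ 2 * τ) := by
          refine mul_le_mul_of_nonneg_right ?_ hEpos.le
          rw [hK]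
          nlinarith

theorem pkA4 (h0 : GExpo) (h3 : GA3) : GA4 := by
  intro κ h1 h2 S D
  have hε : 0 < 1 - κ := by linarith
  have hC := S.C0pos
  obtain ⟨c, τ₁, hτ₁, hF⟩ := D.exp
  obtain ⟨K, hK, hb⟩ := pkA4_tail h0 h1 h2 hC hF
  have hb2 : 0 < bb κ 2 := (h0 κ h1 h2).2.2.2.2.2.2.2 2 (by norm_num)
  obtain ⟨cc, hcc, hIn⟩ := h3 κ h1 h2 S (Real.log (2 / S.C0) / (1 - κ))
  -- the level τ₂
  set τ₂ : ℝ := min τ₁ (Real.log (S.C0 / (2 * K)) / bb κ 2) with hτ₂
  have hK2 : ∀ τ ≤ τ₂, K * Real.exp (bb κ 2 * τ) ≤ S.C0 / 2 := by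
    intro τ hτ
    have h5 : τ ≤ Real.log (S.C0 / (2 * K)) / bb κ 2 := hτ.trans (min_le_right _ _)
    rw [le_div_iff₀ hb2] at h5
    have h6 : Real.exp (bb κ 2 * τ) ≤ S.C0 / (2 * K) := by
      rw [← Real.le_log_iff_exp_le (by positivity)]
      linarith
    calc K * Real.exp (bb κ 2 * τ) ≤ K * (S.C0 / (2 * K)) := mul_le_mul_of_nonneg_left h6 hK.le
      _ = S.C0 / 2 := by field_simp
  have hlow : ∀ τ θ : ℝ, τ ≤ τ₂ → S.C0 / 2 * Real.exp ((1 - κ) * τ) ≤ D.u (τ, θ) := by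
    intro τ θ hτ
    have h5 := (hb τ θ (hτ.trans (min_le_left _ _))).1
    have h6 := (abs_le.1 h5).1
    have h7 := hK2 τ hτ
    have h8 : S.C0 / 2 ≤ D.u (τ, θ) * Real.exp (-((1 - κ) * τ)) := by linarith
    have h9 := mul_le_mul_of_nonneg_right h8 (Real.exp_pos ((1 - κ) * τ)).le
    rw [mul_assoc, ← Real.exp_add, neg_add_cancel, Real.exp_zero, mul_one] at h9
    exact h9
  set m0 : ℝ := S.C0 / 2 * Real.exp ((1 - κ) * τ₂) with hm0
  have hm0pos : 0 < m0 := by rw [hm0]; positivity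
  set α₁ : ℝ := Real.exp ((1 - κ) * Real.log (cc / K) / bb κ 2 - 1) with hα₁
  refine ⟨min 1 (min m0 α₁), lt_min one_pos (lt_min hm0pos (Real.exp_pos _)), min_le_left _ _, ?_⟩
  intro α hα hαle z hzT hzα
  have hαm : α ≤ m0 := hαle.trans ((min_le_right _ _).trans (min_le_left _ _))
  have hα1 : α ≤ α₁ := hαle.trans ((min_le_right _ _).trans (min_le_right _ _))
  obtain ⟨τ, θ⟩ := z
  simp only at hzT
  have hττ₂ : τ ≤ τ₂ := by
    by_contra hcon
    push Not at hcon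
    have h5 : τ₂ ≤ D.T θ := (min_le_left _ _).trans (hτ₁ θ)
    have h6 := pkA4_mono D θ (show τ₂ ∈ Iic (D.T θ) from h5) (show τ ∈ Iic (D.T θ) from hzT) hcon
    simp only at h6
    have h7 := hlow τ₂ θ le_rfl
    linarith
  have hbz := hb τ θ (hττ₂.trans (min_le_left _ _))
  have hlz := hlow τ θ hττ₂
  -- the new time
  have hεt : (1 - κ) * shf κ α τ = (1 - κ) * τ - Real.log α := by
    rw [shf]
    field_simp
  have ht : shf κ α τ ≤ Real.log (2 / S.C0) / (1 - κ) := by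
    rw [le_div_iff₀ hε]
    have h5 : Real.exp ((1 - κ) * τ) < 2 / S.C0 * α := by
      have h6 : S.C0 / 2 * Real.exp ((1 - κ) * τ) < α := lt_of_le_of_lt hlz hzα
      calc Real.exp ((1 - κ) * τ) = 2 / S.C0 * (S.C0 / 2 * Real.exp ((1 - κ) * τ)) := by
            field_simp
        _ < 2 / S.C0 * α := mul_lt_mul_of_pos_left h6 (by positivity)
    have h7 : (1 - κ) * τ < Real.log (2 / S.C0 * α) := by
      rw [Real.lt_log_iff_exp_lt (by positivity)]
      exact h5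
    rw [Real.log_mul (by positivity) hα.ne'] at h7
    linarith [hεt]
  have hKα : K * Real.exp (bb κ 2 * τ) < cc * Real.exp (bb κ 2 * shf κ α τ) := by
    have h5 : Real.log α < (1 - κ) * Real.log (cc / K) / bb κ 2 := by
      have h6 : Real.log α ≤ (1 - κ) * Real.log (cc / K) / bb κ 2 - 1 := by
        rw [Real.log_le_iff_le_exp hα]
        exact hα1
      linarith
    have h7 : bb κ 2 * (Real.log α / (1 - κ)) < Real.log (cc / K) := by
      rw [lt_div_iff₀ hb2] at h5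
      rw [mul_div_assoc', div_lt_iff₀ hε]
      linarith
    have h8 : Real.exp (bb κ 2 * (Real.log α / (1 - κ))) < cc / K := by
      rw [← Real.lt_log_iff_exp_lt (by positivity)]
      exact h7
    have h9 : Real.exp (bb κ 2 * τ) =
        Real.exp (bb κ 2 * shf κ α τ) * Real.exp (bb κ 2 * (Real.log α / (1 - κ))) := by
      rw [← Real.exp_add, shf]
      congr 1
      ring
    rw [h9]
    calc K * (Real.exp (bb κ 2 * shf κ α τ) * Real.exp (bb κ 2 * (Real.log α / (1 - κ))))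
        < K * (Real.exp (bb κ 2 * shf κ α τ) * (cc / K)) :=
          mul_lt_mul_of_pos_left (mul_lt_mul_of_pos_left h8 (Real.exp_pos _)) hK
      _ = cc * Real.exp (bb κ 2 * shf κ α τ) := by field_simp
  refine hIn (shf κ α τ) ht (D.u (τ, θ) / α) (D.om (τ, θ)) ?_ ?_ ?_
  · rw [div_lt_one hα]
    exact hzα
  · have h5 : D.u (τ, θ) / α * Real.exp (-((1 - κ) * shf κ α τ)) =
        D.u (τ, θ) * Real.exp (-((1 - κ) * τ)) := by
      rw [hεt, neg_sub, sub_eq_add_neg, Real.exp_add, Real.exp_log hα]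
      field_simp
    rw [h5]
    exact lt_of_le_of_lt hbz.1 hKα
  · exact lt_of_le_of_lt hbz.2 hKα

end Pool.Agent.Helper25.PCap
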