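import Pool.Agent.Helper25.PCap.GoalsA

/-!
PACKET A5: weak inclusion at the limit (helper61).
-/

set_option autoImplicit false

open MeasureTheory Set Filter Topology
open scoped ContDiff Real

noncomputable section

namespace Pool.Agent.Helper25.PCap

theorem a5_origin_notMem : ((0, 0) : ℝ × ℝ) ∉ SC := by
  simp [SC]

theorem a5_ne_of_lt {κ : ℝ} (S : SFull κ) (z : ℝ × ℝ) (h : S.u z < 1) : z ≠ (0, 0) := by
  intro hz
  have := S.slit z (by rw [hz]; exact a5_origin_notMem)
  linarith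

/-- PACKET A5. -/
theorem pkA5 (_h1 : GA1) : GA5 := by
  intro κ hκ0 hκ1 S D α' hα0 hα1 hP z hz hlt
  have hpos : 0 < D.u z := D.pos z hz
  set a : ℕ → ℝ := fun k => α' - (α' - D.u z) / ((k : ℝ) + 2) with ha
  have ha1 : ∀ k, D.u z < a k := by
    intro k
    have hk : (0 : ℝ) < (k : ℝ) + 2 := by positivity
    have : (α' - D.u z) / ((k : ℝ) + 2) < α' - D.u z := by
      rw [div_lt_iff₀ hk]
      have hk1 : (1 : ℝ) < (k : ℝ) + 2 := by
        have : (0 : ℝ) ≤ k := Nat.cast_nonneg k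
        linarith
      nlinarith
    simp only [ha]; linarith
  have ha2 : ∀ k, a k < α' := by
    intro k
    have : 0 < (α' - D.u z) / ((k : ℝ) + 2) := by
      apply div_pos (by linarith) (by positivity)
    simp only [ha]; linarith
  have ha0 : ∀ k, 0 < a k := fun k => hpos.trans (ha1 k)
  have hat : Tendsto a atTop (𝓝 α') := by
    have h2 : Tendsto (fun k : ℕ => (k : ℝ) + 2) atTop atTop :=
      tendsto_atTop_add_const_right _ _ tendsto_natCast_atTop_atTop
    have := (tendsto_const_nhds (x := α')).sub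
      ((tendsto_const_nhds (x := α' - D.u z)).div_atTop h2)
    simpa [ha] using this
  have hI : ∀ k, InS S (shf κ (a k) z.1) (D.u z / a k) (D.om z) :=
    fun k => hP (a k) (ha0 k) (ha2 k) z hz (ha1 k)
  choose ϑ h0 h2 hu hom using hI
  obtain ⟨b, hb, φ, hφ, hlim⟩ := isCompact_Icc.tendsto_subseq
    (fun k => (⟨(h0 k).le, (h2 k).le⟩ : ϑ k ∈ Icc (0 : ℝ) (π / 2)))
  have hshf : Tendsto (fun k => shf κ (a (φ k)) z.1) atTop (𝓝 (shf κ α' z.1)) := by
    unfold shf
    have := ((Real.continuousAt_log hα0.ne').tendsto.comp (hat.comp hφ.tendsto_atTop))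
    exact tendsto_const_nhds.sub (this.div_const _)
  have hpt : Tendsto (fun k => (shf κ (a (φ k)) z.1, ϑ (φ k))) atTop
      (𝓝 (shf κ α' z.1, b)) := hshf.prodMk_nhds hlim
  have hul : Tendsto (fun k => S.u (shf κ (a (φ k)) z.1, ϑ (φ k))) atTop
      (𝓝 (S.u (shf κ α' z.1, b))) := (S.cont.tendsto _).comp hpt
  have hur : Tendsto (fun k => D.u z / a (φ k)) atTop (𝓝 (D.u z / α')) :=
    tendsto_const_nhds.div (hat.comp hφ.tendsto_atTop) hα0.ne'
  have hueq : S.u (shf κ α' z.1, b) = D.u z / α' := by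
    refine tendsto_nhds_unique hul ?_
    refine hur.congr fun k => (hu (φ k)).symm
  have hne : (shf κ α' z.1, b) ≠ (0, 0) := by
    apply a5_ne_of_lt S
    rw [hueq, div_lt_one hα0]
    exact hlt
  refine ⟨b, hb.1, hb.2, hueq, ?_⟩
  have hc := S.om_cont (shf κ α' z.1, b) ⟨hb.1, hb.2, hne⟩
  have hw : Tendsto (fun k => (shf κ (a (φ k)) z.1, ϑ (φ k))) atTop
      (𝓝[{z | 0 ≤ z.2 ∧ z.2 ≤ π / 2 ∧ z ≠ (0, 0)}] (shf κ α' z.1, b)) := by
    refine tendsto_nhdsWithin_iff.2 ⟨hpt, Eventually.of_forall fun k => ?_⟩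
    refine ⟨(h0 _).le, (h2 _).le, fun h => ?_⟩
    have := congrArg Prod.snd h
    simp only at this
    exact (h0 (φ k)).ne' this
  refine ge_of_tendsto (hc.tendsto.comp hw) (Eventually.of_forall fun k => ?_)
  exact (hom (φ k)).le

end Pool.Agent.Helper25.PCap
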