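import Pool.Agent.Helper25.PCap.GoalsA

/-!
PACKET A8: boundary points lie over the open slit (helper61).
-/

set_option autoImplicit false

open MeasureTheory Set Filter Topology
open scoped ContDiff Real

noncomputable section

namespace Pool.Agent.Helper25.PCap

/-- one-sided expansion of `u` in the direction `-τ` -/
theorem a8_expand (u : ℝ × ℝ → ℝ) (z : ℝ × ℝ) (hd : DifferentiableAt ℝ u z) (hp : 0 < D1 u z) :
    ∃ h₁ K : ℝ, 0 < h₁ ∧ 0 < K ∧ ∀ h, 0 < h → h ≤ h₁ →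
      u (z.1 - h, z.2) < u z ∧ u z - K * h ≤ u (z.1 - h, z.2) := by
  have h1 : HasDerivAt (fun h : ℝ => ((z.1 - h, z.2) : ℝ × ℝ)) (-1, 0) 0 := by
    have ha : HasDerivAt (fun h : ℝ => z.1 - h) (-1) 0 := by
      simpa using (hasDerivAt_id (0:ℝ)).const_sub z.1
    exact ha.prodMk (hasDerivAt_const 0 z.2)
  have hz : ((z.1 - (0:ℝ), z.2) : ℝ × ℝ) = z := by simp
  have h2 : HasDerivAt (fun h : ℝ => u (z.1 - h, z.2)) (-(D1 u z)) 0 := by
    have hf : HasFDerivAt u (fderiv ℝ u z) ((z.1 - (0:ℝ), z.2) : ℝ × ℝ) := by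
      rw [hz]; exact hd.hasFDerivAt
    have := hf.comp_hasDerivAt (0:ℝ) h1
    have he : (fderiv ℝ u z) (-1, 0) = -(D1 u z) := by
      unfold D1
      rw [← map_neg]
      simp
    rw [he] at this
    exact this
  rw [hasDerivAt_iff_tendsto_slope_zero] at h2
  have h3 := h2.mono_left (nhdsGT_le_nhdsNE (0:ℝ))
  have h4 : ∀ᶠ t in 𝓝[>] (0:ℝ), t⁻¹ • (u (z.1 - (0 + t), z.2) - u (z.1 - 0, z.2)) ∈
      Ioo (-(D1 u z) - 1) 0 := by
    apply h3
    apply Ioo_mem_nhds <;> linarith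
  rw [eventually_nhdsWithin_iff, Metric.eventually_nhds_iff] at h4
  obtain ⟨ε, hε, h5⟩ := h4
  refine ⟨ε / 2, D1 u z + 1, by positivity, by positivity, fun h hh hh2 => ?_⟩
  have h6 := h5 (y := h) (by rw [Real.dist_eq]; simp [abs_of_pos hh]; linarith) hh
  simp only [zero_add, sub_zero, smul_eq_mul] at h6
  obtain ⟨h7, h8⟩ := h6
  have e : z = (z.1, z.2) := rfl
  have h9 : h * (h⁻¹ * (u (z.1 - h, z.2) - u (z.1, z.2))) = u (z.1 - h, z.2) - u (z.1, z.2) := by
    field_simp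
  constructor
  · have := mul_neg_of_pos_of_neg hh h8
    rw [h9] at this
    show u (z.1 - h, z.2) < u (z.1, z.2)
    linarith
  · have := mul_lt_mul_of_pos_left h7 hh
    rw [h9] at this
    show u (z.1, z.2) - (D1 u (z.1, z.2) + 1) * h ≤ u (z.1 - h, z.2)
    have : D1 u z = D1 u (z.1, z.2) := rfl
    nlinarith

/-- PACKET A8. -/
theorem pkA8 (h1 : GA1) : GA8 := by
  intro κ hκ0 hκ1 S D α hα0 hα1 hP z₀ hz hα
  have hV : z₀ ∈ D.V := D.VT z₀ hz
  have hVn : D.V ∈ 𝓝 z₀ := D.Vopen.mem_nhds hV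
  have hud : DifferentiableAt ℝ D.u z₀ :=
    (D.sys.1.contDiffAt hVn).differentiableAt (by simp)
  have huc : ContinuousAt D.u z₀ := hud.continuousAt
  have homc : ContinuousAt D.om z₀ := (D.sys.2.1.contDiffAt hVn).continuousAt
  obtain ⟨h₁, K, hh₁, hK, hexp⟩ := a8_expand D.u z₀ hud (D.upos z₀ hz)
  have key : ∀ h, 0 < h → h ≤ h₁ →
      InSw S (shf κ α z₀.1 - h) (D.u (z₀.1 - h, z₀.2) / α) (D.om (z₀.1 - h, z₀.2)) := by
    intro h hh hh2
    have := hP (z₀.1 - h, z₀.2) (by simp only; linarith) (by rw [← hα]; exact (hexp h hh hh2).1)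
    have e : shf κ α (z₀.1 - h) = shf κ α z₀.1 - h := by unfold shf; ring
    simp only [e] at this
    exact this
  -- sequence
  set hs : ℕ → ℝ := fun k => h₁ / ((k : ℝ) + 1) with hhs
  have hs0 : ∀ k, 0 < hs k := fun k => by simp only [hhs]; positivity
  have hs1 : ∀ k, hs k ≤ h₁ := fun k => by
    simp only [hhs]
    apply div_le_self hh₁.le
    have : (0 : ℝ) ≤ k := Nat.cast_nonneg k
    linarith
  have hst : Tendsto hs atTop (𝓝 0) := by
    have h2 : Tendsto (fun k : ℕ => (k : ℝ) + 1) atTop atTop :=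
      tendsto_atTop_add_const_right _ _ tendsto_natCast_atTop_atTop
    exact (tendsto_const_nhds (x := h₁)).div_atTop h2
  have hk := fun k => key (hs k) (hs0 k) (hs1 k)
  choose ϑ h0 h2 hu hom using hk
  obtain ⟨b, hb, φ, hφ, hlim⟩ := isCompact_Icc.tendsto_subseq
    (fun k => (⟨h0 k, h2 k⟩ : ϑ k ∈ Icc (0 : ℝ) (π / 2)))
  have hsφ : Tendsto (fun k => hs (φ k)) atTop (𝓝 0) := hst.comp hφ.tendsto_atTop
  have ht : Tendsto (fun k => shf κ α z₀.1 - hs (φ k)) atTop (𝓝 (shf κ α z₀.1)) := by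
    simpa using (tendsto_const_nhds (x := shf κ α z₀.1)).sub hsφ
  have hpt : Tendsto (fun k => (shf κ α z₀.1 - hs (φ k), ϑ (φ k))) atTop
      (𝓝 (shf κ α z₀.1, b)) := ht.prodMk_nhds hlim
  have hzt : Tendsto (fun k => ((z₀.1 - hs (φ k), z₀.2) : ℝ × ℝ)) atTop (𝓝 z₀) := by
    have : Tendsto (fun k => z₀.1 - hs (φ k)) atTop (𝓝 z₀.1) := by
      simpa using (tendsto_const_nhds (x := z₀.1)).sub hsφ
    exact this.prodMk_nhds tendsto_const_nhds
  have hu1 : S.u (shf κ α z₀.1, b) = 1 := by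
    have hl : Tendsto (fun k => S.u (shf κ α z₀.1 - hs (φ k), ϑ (φ k))) atTop
      (𝓝 (S.u (shf κ α z₀.1, b))) := (S.cont.tendsto _).comp hpt
    have hr : Tendsto (fun k => D.u (z₀.1 - hs (φ k), z₀.2) / α) atTop (𝓝 (D.u z₀ / α)) :=
      (huc.tendsto.comp hzt).div_const α
    have e : D.u z₀ / α = 1 := by rw [hα]; field_simp
    rw [e] at hr
    refine tendsto_nhds_unique hl (hr.congr fun k => (hu (φ k)).symm)
  have hnot : (shf κ α z₀.1, b) ∉ SC := by
    intro h
    have := S.lt1 _ h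
    linarith
  have htge : ¬ shf κ α z₀.1 < 0 := fun h => hnot (Or.inl h)
  have hsin : Real.sin b = 0 := by
    by_contra h
    exact hnot (Or.inr h)
  have hb0 : b = 0 := by
    rcases eq_or_lt_of_le hb.1 with h | h
    · exact h.symm
    · exfalso
      have := Real.sin_pos_of_pos_of_lt_pi h (by have := Real.pi_pos; linarith [hb.2])
      linarith
  -- exclude t₀ = 0
  have htne : shf κ α z₀.1 ≠ 0 := by
    intro ht0
    obtain ⟨c, h₀, hc, hh₀, htip⟩ := S.tip
    -- choose h small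
    set h : ℝ := min (min h₁ (h₀ / 2)) ((c * α / (2 * K)) ^ 2) with hh
    have hhpos : 0 < h := by
      simp only [hh]
      apply lt_min (lt_min hh₁ (by linarith))
      positivity
    have hh1 : h ≤ h₁ := (min_le_left _ _).trans (min_le_left _ _)
    have hh2 : h < h₀ := by
      have : h ≤ h₀ / 2 := (min_le_left _ _).trans (min_le_right _ _)
      linarith
    have hh3 : h ≤ (c * α / (2 * K)) ^ 2 := min_le_right _ _
    obtain ⟨ϑ', ha, hb', huu, _⟩ := key h hhpos hh1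
    have hmono : S.u (-h, ϑ') ≤ S.u (-h, 0) := by
      rcases eq_or_lt_of_le ha with e | e
      · rw [← e]
      · exact ((h1 κ hκ0 hκ1 S).1 (-h) 0 ϑ' le_rfl e hb').le
    have ht := htip h hhpos hh2
    rw [ht0, zero_sub] at huu
    have hlow := (hexp h hhpos hh1).2
    rw [hα] at hlow
    have h5 : 1 - K / α * h ≤ D.u (z₀.1 - h, z₀.2) / α := by
      rw [le_div_iff₀ hα0]
      have : (1 - K / α * h) * α = α - K * h := by field_simp
      linarith
    have h6 : c * Real.sqrt h ≤ K / α * h := by linarith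
    have hsq : Real.sqrt h ≤ c * α / (2 * K) := by
      rw [show c * α / (2 * K) = Real.sqrt ((c * α / (2 * K)) ^ 2) from
        (Real.sqrt_sq (by positivity)).symm]
      exact Real.sqrt_le_sqrt hh3
    have hsp : 0 < Real.sqrt h := Real.sqrt_pos.2 hhpos
    have h7 : K / α * h = K / α * Real.sqrt h * Real.sqrt h := by
      rw [mul_assoc, Real.mul_self_sqrt hhpos.le]
    have h8 : K / α * Real.sqrt h ≤ c / 2 := by
      calc K / α * Real.sqrt h ≤ K / α * (c * α / (2 * K)) :=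
            mul_le_mul_of_nonneg_left hsq (by positivity)
        _ = c / 2 := by field_simp
    nlinarith
  have htpos : 0 < shf κ α z₀.1 := lt_of_le_of_ne (not_lt.1 htge) (Ne.symm htne)
  refine ⟨htpos, ?_⟩
  rw [hb0] at hpt
  have hc := S.om_cont (shf κ α z₀.1, 0) ⟨le_rfl, by positivity, fun h => htne (congrArg Prod.fst h)⟩
  have hev : ∀ᶠ k in atTop, 0 < shf κ α z₀.1 - hs (φ k) := ht.eventually (lt_mem_nhds htpos)
  have hw : Tendsto (fun k => (shf κ α z₀.1 - hs (φ k), ϑ (φ k))) atTop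
      (𝓝[{z | 0 ≤ z.2 ∧ z.2 ≤ π / 2 ∧ z ≠ (0, 0)}] (shf κ α z₀.1, 0)) := by
    refine tendsto_nhdsWithin_iff.2 ⟨hpt, ?_⟩
    filter_upwards [hev] with k hk
    refine ⟨h0 _, h2 _, fun h => ?_⟩
    have := congrArg Prod.fst h
    simp only at this
    linarith
  have hl := hc.tendsto.comp hw
  have hr : Tendsto (fun k => |D.om (z₀.1 - hs (φ k), z₀.2)|) atTop (𝓝 |D.om z₀|) :=
    (homc.tendsto.comp hzt).abs
  exact le_of_tendsto_of_tendsto' hr hl fun k => hom (φ k)

end Pool.Agent.Helper25.PCap
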