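import Pool.Agent.Helper25.PCap.GoalsB

/-!
Planar p-capacity (MP_576c25_an): packet B2, conditions at a maximum point.
-/

set_option autoImplicit false

open MeasureTheory Set Filter Topology
open scoped ContDiff Real

noncomputable section

namespace Pool.Agent.Helper25.PCap

namespace PkB2

/-- the layer function of a continuous function over one period -/
def Lf (f : ℝ → ℝ) (s : ℝ) : ℝ := ∫ θ in Ioc (0 : ℝ) (2 * π), max 0 (s - f θ)

lemma tp : (0 : ℝ) ≤ 2 * π := by positivity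

lemma Lf_eq (f : ℝ → ℝ) (s : ℝ) :
    ∫ θ in (0 : ℝ)..(2 * π), max 0 (s - f θ) = Lf f s :=
  intervalIntegral.integral_of_le tp

lemma int_layer {f : ℝ → ℝ} (hf : Continuous f) (s : ℝ) :
    IntegrableOn (fun θ => max 0 (s - f θ)) (Ioc (0 : ℝ) (2 * π)) :=
  (continuous_const.max (continuous_const.sub hf)).integrableOn_Ioc

lemma vol_fin (P : ℝ → Prop) : volume {θ | θ ∈ Ioc (0 : ℝ) (2 * π) ∧ P θ} ≠ ⊤ := by
  exact ne_top_of_le_ne_top (measure_Ioc_lt_top (a := (0 : ℝ)) (b := 2 * π)).ne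
    (measure_mono (t := Ioc (0 : ℝ) (2 * π)) fun x hx => hx.1)

lemma ub {f : ℝ → ℝ} (hf : Continuous f) {s t : ℝ} (h : s ≤ t) :
    Lf f t - Lf f s ≤ (t - s) * (volume {θ | θ ∈ Ioc (0 : ℝ) (2 * π) ∧ f θ < t}).toReal := by
  have hA : MeasurableSet {θ | f θ < t} := (isOpen_lt hf continuous_const).measurableSet
  have e1 : (t - s) * (volume {θ | θ ∈ Ioc (0 : ℝ) (2 * π) ∧ f θ < t}).toReal
      = ∫ θ in Ioc (0 : ℝ) (2 * π), ({θ | f θ < t}).indicator (fun _ => t - s) θ := by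
    rw [setIntegral_indicator hA, setIntegral_const, smul_eq_mul, mul_comm]
    rfl
  rw [e1]
  unfold Lf
  rw [← integral_sub (int_layer hf t) (int_layer hf s)]
  refine integral_mono ((int_layer hf t).sub (int_layer hf s)) ?_ ?_
  · exact (integrableOn_const (measure_Ioc_lt_top (a := (0 : ℝ)) (b := 2 * π)).ne).indicator hA
  · intro θ
    simp only
    by_cases hc : f θ < t
    · rw [indicator_of_mem (show θ ∈ {θ | f θ < t} from hc)]
      rcases le_total s (f θ) with h1 | h1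
      · rw [max_eq_left (by linarith : s - f θ ≤ 0), max_eq_right (by linarith : 0 ≤ t - f θ)]
        linarith
      · rw [max_eq_right (by linarith : 0 ≤ s - f θ), max_eq_right (by linarith : 0 ≤ t - f θ)]
        linarith
    · rw [indicator_of_notMem (show θ ∉ {θ | f θ < t} from hc)]
      have hc' : t ≤ f θ := not_lt.1 hc
      rw [max_eq_left (by linarith : s - f θ ≤ 0), max_eq_left (by linarith : t - f θ ≤ 0)]
      simp

lemma lb {f : ℝ → ℝ} (hf : Continuous f) {s t : ℝ} (h : s ≤ t) :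
    (t - s) * (volume {θ | θ ∈ Ioc (0 : ℝ) (2 * π) ∧ f θ ≤ s}).toReal ≤ Lf f t - Lf f s := by
  have hA : MeasurableSet {θ | f θ ≤ s} := (isClosed_le hf continuous_const).measurableSet
  have e1 : (t - s) * (volume {θ | θ ∈ Ioc (0 : ℝ) (2 * π) ∧ f θ ≤ s}).toReal
      = ∫ θ in Ioc (0 : ℝ) (2 * π), ({θ | f θ ≤ s}).indicator (fun _ => t - s) θ := by
    rw [setIntegral_indicator hA, setIntegral_const, smul_eq_mul, mul_comm]
    rfl
  rw [e1]
  unfold Lf
  rw [← integral_sub (int_layer hf t) (int_layer hf s)]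
  refine integral_mono ?_ ((int_layer hf t).sub (int_layer hf s)) ?_
  · exact (integrableOn_const (measure_Ioc_lt_top (a := (0 : ℝ)) (b := 2 * π)).ne).indicator hA
  · intro θ
    simp only
    by_cases hc : f θ ≤ s
    · rw [indicator_of_mem (show θ ∈ {θ | f θ ≤ s} from hc)]
      rw [max_eq_right (by linarith : 0 ≤ s - f θ), max_eq_right (by linarith : 0 ≤ t - f θ)]
      linarith
    · rw [indicator_of_notMem (show θ ∉ {θ | f θ ≤ s} from hc)]
      have : max 0 (s - f θ) ≤ max 0 (t - f θ) := max_le_max le_rfl (by linarith)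
      linarith

lemma toReal_le {P Q : ℝ → Prop}
    (h : (volume {θ | θ ∈ Ioc (0 : ℝ) (2 * π) ∧ P θ}).toReal ≤
      (volume {θ | θ ∈ Ioc (0 : ℝ) (2 * π) ∧ Q θ}).toReal) :
    volume {θ | θ ∈ Ioc (0 : ℝ) (2 * π) ∧ P θ} ≤ volume {θ | θ ∈ Ioc (0 : ℝ) (2 * π) ∧ Q θ} :=
  (ENNReal.toReal_le_toReal (vol_fin P) (vol_fin Q)).1 h

/-- left derivative comparison -/
lemma lower {f g : ℝ → ℝ} (hf : Continuous f) (hg : Continuous g) {s₀ : ℝ} (h0 : 0 < s₀)
    (hm : ∀ s, 0 ≤ s → s < s₀ → Lf f s - Lf g s ≤ Lf f s₀ - Lf g s₀) :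
    volume {θ | θ ∈ Ioc (0 : ℝ) (2 * π) ∧ g θ < s₀} ≤
      volume {θ | θ ∈ Ioc (0 : ℝ) (2 * π) ∧ f θ < s₀} := by
  have key : ∀ s, 0 ≤ s → s < s₀ → volume {θ | θ ∈ Ioc (0 : ℝ) (2 * π) ∧ g θ ≤ s} ≤
      volume {θ | θ ∈ Ioc (0 : ℝ) (2 * π) ∧ f θ < s₀} := by
    intro s hs hs'
    apply toReal_le
    have h1 := lb hg hs'.le
    have h2 := ub hf hs'.le
    have h3 := hm s hs hs'
    have h4 : 0 < s₀ - s := by linarith
    have h5 : (s₀ - s) * (volume {θ | θ ∈ Ioc (0 : ℝ) (2 * π) ∧ g θ ≤ s}).toReal ≤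
      (s₀ - s) * (volume {θ | θ ∈ Ioc (0 : ℝ) (2 * π) ∧ f θ < s₀}).toReal := by linarith
    exact le_of_mul_le_mul_left h5 h4
  set A : ℕ → Set ℝ := fun n => {θ | θ ∈ Ioc (0 : ℝ) (2 * π) ∧ g θ ≤ s₀ - s₀ / (n + 1)} with hA
  have hmono : Monotone A := by
    intro m n hmn θ hθ
    refine ⟨hθ.1, hθ.2.trans ?_⟩
    have : s₀ / ((n : ℝ) + 1) ≤ s₀ / ((m : ℝ) + 1) := by
      apply div_le_div_of_nonneg_left h0.le (by positivity)
      have : (m : ℝ) ≤ n := by exact_mod_cast hmn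
      linarith
    linarith
  have hU : {θ | θ ∈ Ioc (0 : ℝ) (2 * π) ∧ g θ < s₀} = ⋃ n, A n := by
    ext θ
    simp only [mem_iUnion, mem_ofPred_eq, hA]
    constructor
    · rintro ⟨h1, h2⟩
      obtain ⟨n, hn⟩ := exists_nat_gt (s₀ / (s₀ - g θ))
      refine ⟨n, h1, ?_⟩
      have h3 : 0 < s₀ - g θ := by linarith
      have h4 : s₀ / ((n : ℝ) + 1) ≤ s₀ - g θ := by
        rw [div_le_iff₀ (by positivity)]
        rw [div_lt_iff₀ h3] at hn
        nlinarith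
      linarith
    · rintro ⟨n, h1, h2⟩
      have : 0 < s₀ / ((n : ℝ) + 1) := by positivity
      exact ⟨h1, by linarith⟩
  rw [hU, hmono.measure_iUnion]
  refine iSup_le fun n => key _ ?_ ?_
  · have : s₀ / ((n : ℝ) + 1) ≤ s₀ := div_le_self h0.le (by linarith [Nat.cast_nonneg (α := ℝ) n])
    linarith
  · have : 0 < s₀ / ((n : ℝ) + 1) := by positivity
    linarith

/-- right derivative comparison -/
lemma upper {f g : ℝ → ℝ} (hf : Continuous f) (hg : Continuous g) {s₀ : ℝ} (h1 : s₀ < 1)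
    (hm : ∀ s, s₀ < s → s ≤ 1 → Lf f s - Lf g s ≤ Lf f s₀ - Lf g s₀) :
    volume {θ | θ ∈ Ioc (0 : ℝ) (2 * π) ∧ f θ ≤ s₀} ≤
      volume {θ | θ ∈ Ioc (0 : ℝ) (2 * π) ∧ g θ ≤ s₀} := by
  have key : ∀ s, s₀ < s → s ≤ 1 → volume {θ | θ ∈ Ioc (0 : ℝ) (2 * π) ∧ f θ ≤ s₀} ≤
      volume {θ | θ ∈ Ioc (0 : ℝ) (2 * π) ∧ g θ < s} := by
    intro s hs hs'
    apply toReal_le
    have h1 := lb hf hs.le
    have h2 := ub hg hs.le
    have h3 := hm s hs hs'
    have h4 : 0 < s - s₀ := by linarith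
    have h5 : (s - s₀) * (volume {θ | θ ∈ Ioc (0 : ℝ) (2 * π) ∧ f θ ≤ s₀}).toReal ≤
      (s - s₀) * (volume {θ | θ ∈ Ioc (0 : ℝ) (2 * π) ∧ g θ < s}).toReal := by linarith
    exact le_of_mul_le_mul_left h5 h4
  set A : ℕ → Set ℝ := fun n => {θ | θ ∈ Ioc (0 : ℝ) (2 * π) ∧ g θ < s₀ + (1 - s₀) / (n + 1)} with hA
  have hanti : Antitone A := by
    intro m n hmn θ hθ
    refine ⟨hθ.1, lt_of_lt_of_le hθ.2 ?_⟩
    have : (1 - s₀) / ((n : ℝ) + 1) ≤ (1 - s₀) / ((m : ℝ) + 1) := by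
      apply div_le_div_of_nonneg_left (by linarith) (by positivity)
      have : (m : ℝ) ≤ n := by exact_mod_cast hmn
      linarith
    linarith
  have hI : {θ | θ ∈ Ioc (0 : ℝ) (2 * π) ∧ g θ ≤ s₀} = ⋂ n, A n := by
    ext θ
    simp only [mem_iInter, mem_ofPred_eq, hA]
    constructor
    · rintro ⟨h2, h3⟩ n
      have : 0 < (1 - s₀) / ((n : ℝ) + 1) := div_pos (by linarith) (by positivity)
      exact ⟨h2, by linarith⟩
    · intro H
      refine ⟨(H 0).1, ?_⟩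
      by_contra hc
      push Not at hc
      obtain ⟨n, hn⟩ := exists_nat_gt ((1 - s₀) / (g θ - s₀))
      have h3 : 0 < g θ - s₀ := by linarith
      have h4 : (1 - s₀) / ((n : ℝ) + 1) ≤ g θ - s₀ := by
        rw [div_le_iff₀ (by positivity)]
        rw [div_lt_iff₀ h3] at hn
        nlinarith
      have := (H n).2
      linarith
  rw [hI, hanti.measure_iInter]
  · refine le_iInf fun n => key _ ?_ ?_
    · have : 0 < (1 - s₀) / ((n : ℝ) + 1) := div_pos (by linarith) (by positivity)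
      linarith
    · have : (1 - s₀) / ((n : ℝ) + 1) ≤ 1 - s₀ :=
        div_le_self (by linarith) (by linarith [Nat.cast_nonneg (α := ℝ) n])
      linarith
  · intro n
    exact (measurableSet_Ioc.inter (isOpen_lt hg continuous_const).measurableSet).nullMeasurableSet
  · exact ⟨0, vol_fin _⟩

lemma full {f : ℝ → ℝ} (hf : Continuous f) {s : ℝ}
    (h : volume (Ioc (0 : ℝ) (2 * π)) ≤ volume {θ | θ ∈ Ioc (0 : ℝ) (2 * π) ∧ f θ < s}) :
    ∀ᵐ θ ∂(volume.restrict (Ioc (0 : ℝ) (2 * π))), f θ < s := by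
  rw [ae_restrict_iff' measurableSet_Ioc, ae_iff]
  have hm : MeasurableSet {θ | θ ∈ Ioc (0 : ℝ) (2 * π) ∧ f θ < s} :=
    measurableSet_Ioc.inter (isOpen_lt hf continuous_const).measurableSet
  have e : {θ | ¬(θ ∈ Ioc (0 : ℝ) (2 * π) → f θ < s)} =
      Ioc (0 : ℝ) (2 * π) \ {θ | θ ∈ Ioc (0 : ℝ) (2 * π) ∧ f θ < s} := by
    ext θ
    simp only [mem_ofPred_eq, Set.mem_sdiff]
    tauto
  rw [e, measure_sdiff (fun x hx => hx.1) hm.nullMeasurableSet (vol_fin _)]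
  exact tsub_eq_zero_of_le h

lemma le_all {f : ℝ → ℝ} (hf : Continuous f) {s : ℝ}
    (h : ∀ᵐ θ ∂(volume.restrict (Ioc (0 : ℝ) (2 * π))), f θ ≤ s) :
    ∀ θ ∈ Ioc (0 : ℝ) (2 * π), f θ ≤ s := by
  have hE : EqOn (fun θ => max (f θ) s) (fun _ => s) (Ioc (0 : ℝ) (2 * π)) := by
    refine Measure.eqOn_Ioc_of_ae_eq volume ?_
      (hf.max continuous_const).continuousOn continuousOn_const
    filter_upwards [h] with θ hθ
    exact max_eq_right hθ
  intro θ hθ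
  have := hE hθ
  simp only at this
  rw [← this]
  exact le_max_left _ _

lemma Lf_full {f : ℝ → ℝ} (hf : Continuous f) {s : ℝ}
    (h : ∀ θ ∈ Ioc (0 : ℝ) (2 * π), f θ ≤ s) :
    Lf f s = 2 * π * s - ∫ θ in (0 : ℝ)..(2 * π), f θ := by
  have e : Lf f s = ∫ θ in (0 : ℝ)..(2 * π), (s - f θ) := by
    rw [intervalIntegral.integral_of_le tp]
    refine setIntegral_congr_fun measurableSet_Ioc fun θ hθ => ?_
    exact max_eq_right (by linarith [h θ hθ])
  rw [e, intervalIntegral.integral_sub (by simp) (hf.intervalIntegrable _ _)]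
  simp

lemma isOpen_SC : IsOpen SC := by
  have h1 : IsOpen {z : ℝ × ℝ | z.1 < 0} := isOpen_lt continuous_fst continuous_const
  have h2 : IsOpen {z : ℝ × ℝ | Real.sin z.2 ≠ 0} :=
    isOpen_ne_fun (Real.continuous_sin.comp continuous_snd) continuous_const
  exact h1.union h2

section S

variable {κ : ℝ} (S : SData κ) (τ : ℝ)

lemma g_cont : Continuous (fun θ => S.u (τ, θ)) := S.cont.comp (by fun_prop)

lemma g_anti : StrictAntiOn (fun θ => S.u (τ, θ)) (Icc 0 (π / 2)) := by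
  refine strictAntiOn_of_deriv_neg (convex_Icc _ _) (g_cont S τ).continuousOn fun θ hθ => ?_
  rw [interior_Icc] at hθ
  have hsin : Real.sin θ ≠ 0 :=
    (Real.sin_pos_of_pos_of_lt_pi hθ.1 (by linarith [hθ.2, Real.pi_pos])).ne'
  have hmem : (τ, θ) ∈ SC := Or.inr hsin
  have hd : DifferentiableAt ℝ S.u (τ, θ) :=
    (S.smooth.contDiffAt (isOpen_SC.mem_nhds hmem)).differentiableAt (by simp)
  have h1 : HasDerivAt (fun θ : ℝ => ((τ, θ) : ℝ × ℝ)) (0, 1) θ :=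
    (hasDerivAt_const θ τ).prodMk (hasDerivAt_id θ)
  have h2 : HasDerivAt (fun θ => S.u (τ, θ)) (fderiv ℝ S.u (τ, θ) (0, 1)) θ :=
    hd.hasFDerivAt.comp_hasDerivAt θ h1
  rw [h2.deriv]
  exact S.uneg τ θ hθ.1 hθ.2

lemma g_pi (θ : ℝ) : S.u (τ, π - θ) = S.u (τ, θ) := by
  have h1 := S.per τ (-θ)
  rw [S.even τ θ] at h1
  rw [← h1]
  congr 2
  ring

lemma g_pi' (θ : ℝ) : S.u (τ, θ - π) = S.u (τ, θ) := by
  have h1 := S.per τ (θ - π)
  rw [← h1]
  congr 2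
  ring

lemma g_2pi (θ : ℝ) : S.u (τ, 2 * π - θ) = S.u (τ, θ) := by
  rw [← g_pi S τ θ, ← S.per τ (π - θ)]
  congr 2
  ring

/-- folding into the first quarter period -/
lemma fold (θ : ℝ) (h : θ ∈ Ioc (0 : ℝ) (2 * π)) : ∃ θ' ∈ Icc (0 : ℝ) (π / 2),
    S.u (τ, θ) = S.u (τ, θ') ∧ ((θ' = θ ∧ θ ≤ π / 2) ∨ (θ' = π - θ ∧ π / 2 ≤ θ ∧ θ ≤ π) ∨
      (θ' = θ - π ∧ π ≤ θ ∧ θ ≤ π + π / 2) ∨ (θ' = 2 * π - θ ∧ π + π / 2 ≤ θ)) := by
  obtain ⟨h0, h1⟩ := h
  rcases le_total θ (π / 2) with a | a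
  · exact ⟨θ, ⟨h0.le, a⟩, rfl, Or.inl ⟨rfl, a⟩⟩
  rcases le_total θ π with b | b
  · exact ⟨π - θ, ⟨by linarith, by linarith⟩, (g_pi S τ θ).symm, Or.inr (Or.inl ⟨rfl, a, b⟩)⟩
  rcases le_total θ (π + π / 2) with c | c
  · exact ⟨θ - π, ⟨by linarith, by linarith⟩, (g_pi' S τ θ).symm,
      Or.inr (Or.inr (Or.inl ⟨rfl, b, c⟩))⟩
  · exact ⟨2 * π - θ, ⟨by linarith, by linarith⟩, (g_2pi S τ θ).symm,
      Or.inr (Or.inr (Or.inr ⟨rfl, c⟩))⟩

lemma g_le (θ : ℝ) (h : θ ∈ Ioc (0 : ℝ) (2 * π)) : S.u (τ, θ) ≤ S.u (τ, 0) := by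
  obtain ⟨θ', h', e, -⟩ := fold S τ θ h
  rw [e]
  exact (g_anti S τ).antitoneOn (left_mem_Icc.2 (by positivity)) h' h'.1

lemma g_ge (θ : ℝ) (h : θ ∈ Ioc (0 : ℝ) (2 * π)) : S.u (τ, π / 2) ≤ S.u (τ, θ) := by
  obtain ⟨θ', h', e, -⟩ := fold S τ θ h
  rw [e]
  exact (g_anti S τ).antitoneOn h' (right_mem_Icc.2 (by positivity)) h'.2

end S

end PkB2

open PkB2 in
theorem pkB2 (h : GB1) : GB2 := by
  intro κ hκ hκ1 S D τ₀ s₀ hM
  obtain ⟨hE, hpos, hper, -⟩ := h κ hκ hκ1 S D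
  obtain ⟨hs0, hs1, hlt, hmax⟩ := hM
  have hpi := Real.pi_pos
  set f : ℝ → ℝ := fun θ => D.ext (τ₀, θ) with hf
  set g : ℝ → ℝ := fun θ => S.u (τ₀, θ) with hg
  have cf : Continuous f := hE.comp (by fun_prop)
  have cg : Continuous g := g_cont S.toSData τ₀
  have eT : ∀ s, LamT D τ₀ s = Lf f s := fun s => Lf_eq f s
  have eS : ∀ s, LamS S.toSData τ₀ s = Lf g s := fun s => Lf_eq g s
  rw [eT, eS] at hlt
  have hmx : ∀ s, 0 ≤ s → s ≤ 1 → Lf f s - Lf g s ≤ Lf f s₀ - Lf g s₀ := by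
    intro s h1 h2
    have := hmax τ₀ s h1 h2
    rwa [eT, eS, eT, eS] at this
  have hLf0 : Lf f 0 = 0 := by
    unfold Lf
    rw [setIntegral_congr_fun (g := fun _ => (0 : ℝ)) measurableSet_Ioc]
    · simp
    · intro θ _
      exact max_eq_left (by linarith [(hpos (τ₀, θ)).1])
  have hLgn : ∀ s, 0 ≤ Lf g s := fun s => integral_nonneg fun θ => le_max_left _ _
  -- positivity of `s₀`
  have hs0' : 0 < s₀ := by
    rcases hs0.lt_or_eq with h1 | h1
    · exact h1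
    · exfalso
      rw [← h1, hLf0] at hlt
      linarith [hLgn 0]
  have hlow := lower cf cg hs0' (fun s h1 h2 => hmx s h1 (by linarith))
  have extu : ∀ θ, τ₀ ≤ D.T θ → f θ = D.u (τ₀, θ) := by
    intro θ hθ
    simp only [hf, TData.ext]
    by_cases hc : τ₀ < D.T θ
    · simp [hc]
    · have h1 : τ₀ = D.T θ := le_antisymm hθ (not_lt.1 hc)
      rw [if_neg hc]
      rw [h1]
      exact (D.u1 θ).symm
  have flt : ∀ θ, f θ < 1 → τ₀ < D.T θ := by
    intro θ hθ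
    by_contra hc
    simp only [hf, TData.ext, if_neg hc] at hθ
    exact lt_irrefl _ hθ
  have hfint : (∀ θ, τ₀ ≤ D.T θ) → ∫ θ in (0 : ℝ)..(2 * π), f θ =
      2 * π * S.C0 * Real.exp ((1 - κ) * τ₀) := by
    intro hT
    rw [← D.mean τ₀ hT]
    refine intervalIntegral.integral_congr fun θ _ => extu θ (hT θ)
  have hTall : (∀ θ ∈ Ioc (0 : ℝ) (2 * π), τ₀ ≤ D.T θ) → ∀ θ, τ₀ ≤ D.T θ := by
    intro hT θ
    have hp : Function.Periodic D.T (2 * π) := D.Tper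
    obtain ⟨y, hy, hy'⟩ := hp.exists_mem_Ioc (by positivity) θ 0
    rw [hy']
    exact hT y (by simpa using hy)
  have hgsub : ∀ θ ∈ Ioc (0 : ℝ) (2 * π), g 0 ≤ g θ → θ = π ∨ θ = 2 * π := by
    intro θ hθ hle
    obtain ⟨θ', h', e, hc⟩ := fold S.toSData τ₀ θ hθ
    have h0 : θ' = 0 := by
      by_contra hne
      have h1 : 0 < θ' := lt_of_le_of_ne h'.1 (Ne.symm hne)
      have := (g_anti S.toSData τ₀) (left_mem_Icc.2 (by positivity)) h' h1
      simp only at this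
      have e' : g θ = S.u (τ₀, θ') := e
      have e'' : g 0 = S.u (τ₀, 0) := rfl
      rw [e', e''] at hle
      linarith
    rw [h0] at hc
    rcases hc with ⟨h1, _⟩ | ⟨h1, _⟩ | ⟨h1, _⟩ | ⟨h1, _⟩
    · exfalso; linarith [hθ.1]
    · left; linarith
    · left; linarith
    · right; linarith
  have hfullg : g 0 ≤ s₀ → volume (Ioc (0 : ℝ) (2 * π)) ≤
      volume {θ | θ ∈ Ioc (0 : ℝ) (2 * π) ∧ g θ < s₀} := by
    intro hle
    have hsub : Ioc (0 : ℝ) (2 * π) ⊆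
        {θ | θ ∈ Ioc (0 : ℝ) (2 * π) ∧ g θ < s₀} ∪ {π, 2 * π} := by
      intro θ hθ
      by_cases hc : g θ < s₀
      · exact Or.inl ⟨hθ, hc⟩
      · right
        have := hgsub θ hθ (hle.trans (not_lt.1 hc))
        simpa using this
    calc volume (Ioc (0 : ℝ) (2 * π)) ≤ _ := measure_mono hsub
      _ ≤ volume {θ | θ ∈ Ioc (0 : ℝ) (2 * π) ∧ g θ < s₀} + volume ({π, 2 * π} : Set ℝ) :=
        measure_union_le _ _
      _ = _ := by
        rw [(Set.toFinite ({π, 2 * π} : Set ℝ)).measure_zero, add_zero]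
  have hg1 : ∀ θ, g θ ≤ 1 := by
    intro θ
    by_cases hc : (τ₀, θ) ∈ SC
    · exact (S.lt1 _ hc).le
    · exact (S.slit _ hc).le
  -- `s₀ < 1`
  have hs1' : s₀ < 1 := by
    rcases hs1.lt_or_eq with h1 | h1
    · exact h1
    · exfalso
      have hae := full cf (le_trans (hfullg (by rw [h1]; exact hg1 0)) hlow)
      have hT1 : ∀ θ ∈ Ioc (0 : ℝ) (2 * π), τ₀ ≤ D.T θ := by
        have := le_all (f := fun θ => - D.T θ) (D.Tcont.neg) (s := -τ₀) (by
          filter_upwards [hae] with θ hθ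
          rw [h1] at hθ
          linarith [flt θ hθ])
        intro θ hθ
        linarith [this θ hθ]
      have hT := hTall hT1
      have e1 : Lf f 1 = 2 * π * 1 - ∫ θ in (0 : ℝ)..(2 * π), f θ :=
        Lf_full cf fun θ _ => (hpos (τ₀, θ)).2
      have e2 : Lf g 1 = 2 * π * 1 - ∫ θ in (0 : ℝ)..(2 * π), g θ :=
        Lf_full cg fun θ _ => hg1 θ
      rw [hfint hT] at e1
      have e3 : ∫ θ in (0 : ℝ)..(2 * π), g θ ≤ 2 * π * S.C0 * Real.exp ((1 - κ) * τ₀) :=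
        S.mean_le τ₀
      rw [h1, e1, e2] at hlt
      linarith
  have hup := upper cf cg hs1' (fun s h1 h2 => hmx s (by linarith) h2)
  have hlef : volume {θ | θ ∈ Ioc (0 : ℝ) (2 * π) ∧ f θ < s₀} ≤
      volume {θ | θ ∈ Ioc (0 : ℝ) (2 * π) ∧ f θ ≤ s₀} :=
    measure_mono fun θ hθ => ⟨hθ.1, hθ.2.le⟩
  refine ⟨hs0', hs1', ?_⟩
  -- case A
  have hA : g (π / 2) < s₀ := by
    by_contra hc
    push Not at hc
    have hsub : {θ | θ ∈ Ioc (0 : ℝ) (2 * π) ∧ g θ ≤ s₀} ⊆ {π / 2, π + π / 2} := by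
      rintro θ ⟨hθ, hle⟩
      obtain ⟨θ', h', e, hcs⟩ := fold S.toSData τ₀ θ hθ
      have h0 : θ' = π / 2 := by
        by_contra hne
        have h1 : θ' < π / 2 := lt_of_le_of_ne h'.2 hne
        have := (g_anti S.toSData τ₀) h' (right_mem_Icc.2 (by positivity)) h1
        simp only at this
        have e' : g θ = S.u (τ₀, θ') := e
        have e'' : g (π / 2) = S.u (τ₀, π / 2) := rfl
        rw [e'] at hle
        rw [e''] at hc
        linarith
      rw [h0] at hcs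
      simp only [mem_insert_iff, mem_singleton_iff]
      rcases hcs with ⟨h1, _⟩ | ⟨h1, _⟩ | ⟨h1, _⟩ | ⟨h1, _⟩
      · left; linarith
      · left; linarith
      · right; linarith
      · right; linarith
    have hz : volume {θ | θ ∈ Ioc (0 : ℝ) (2 * π) ∧ f θ < s₀} = 0 := by
      have h1 := measure_mono (μ := volume) hsub
      rw [(Set.toFinite ({π / 2, π + π / 2} : Set ℝ)).measure_zero] at h1
      exact le_antisymm ((hlef.trans hup).trans h1) zero_le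
    have h2 := ub cf hs0
    rw [hz, hLf0] at h2
    simp only [ENNReal.toReal_zero, mul_zero, sub_zero] at h2
    linarith [hLgn s₀]
  have hB : s₀ < g 0 := by
    by_contra hc
    push Not at hc
    have hae := full cf (le_trans (hfullg hc) hlow)
    have hfle := le_all cf (s := s₀) (by
      filter_upwards [hae] with θ hθ
      exact hθ.le)
    have hT := hTall fun θ hθ => (flt θ (by linarith [hfle θ hθ])).le
    have e1 := Lf_full cf hfle
    have e2 := Lf_full cg (s := s₀) fun θ hθ => (g_le S.toSData τ₀ θ hθ).trans hc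
    rw [hfint hT] at e1
    have hτ : τ₀ < 0 := by
      by_contra hn
      have : (τ₀, (0 : ℝ)) ∉ SC := by
        simp only [SC, mem_ofPred_eq, not_or]
        exact ⟨hn, by simp⟩
      have h1 : g 0 = 1 := S.slit _ this
      linarith
    have e3 : ∫ θ in (0 : ℝ)..(2 * π), g θ = 2 * π * S.C0 * Real.exp ((1 - κ) * τ₀) :=
      S.mean τ₀ hτ.le
    rw [e1, e2, e3] at hlt
    exact lt_irrefl _ hlt
  -- case C
  have hivt : s₀ ∈ g '' Ioo 0 (π / 2) := by
    have := intermediate_value_Ioo' (a := (0 : ℝ)) (b := π / 2) (by positivity) (f := g)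
      cg.continuousOn
    exact this ⟨hA, hB⟩
  obtain ⟨ϑ, ⟨hϑ0, hϑ1⟩, hϑ⟩ := hivt
  refine ⟨ϑ, hϑ0, hϑ1, hϑ, ?_⟩
  have hϑm : ϑ ∈ Icc (0 : ℝ) (π / 2) := ⟨hϑ0.le, hϑ1.le⟩
  have anti := g_anti S.toSData τ₀
  have hvol : ENNReal.ofReal (π - 2 * ϑ) + ENNReal.ofReal (π - 2 * ϑ) ≤
      volume {θ | θ ∈ Ioc (0 : ℝ) (2 * π) ∧ g θ < s₀} := by
    have hsub : Ioo ϑ (π - ϑ) ∪ Ioo (π + ϑ) (2 * π - ϑ) ⊆
        {θ | θ ∈ Ioc (0 : ℝ) (2 * π) ∧ g θ < s₀} := by
      intro θ hθ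
      have hθI : θ ∈ Ioc (0 : ℝ) (2 * π) := by
        rcases hθ with hθ | hθ
        · exact ⟨by linarith [hθ.1], by linarith [hθ.2]⟩
        · exact ⟨by linarith [hθ.1], by linarith [hθ.2]⟩
      refine ⟨hθI, ?_⟩
      obtain ⟨θ', h', e, hcs⟩ := fold S.toSData τ₀ θ hθI
      have hgt : ϑ < θ' := by
        rcases hθ with hθ | hθ <;> rcases hcs with ⟨h1, h2⟩ | ⟨h1, h2, h3⟩ | ⟨h1, h2, h3⟩ | ⟨h1, h2⟩ <;>
          linarith [hθ.1, hθ.2]
      have := anti hϑm h' hgt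
      simp only at this
      have e' : g θ = S.u (τ₀, θ') := e
      have e'' : g ϑ = S.u (τ₀, ϑ) := rfl
      rw [e', ← hϑ, e'']
      exact this
    refine le_trans ?_ (measure_mono hsub)
    rw [measure_union _ measurableSet_Ioo, Real.volume_Ioo, Real.volume_Ioo]
    · refine le_of_eq ?_
      congr 2 <;> ring
    · rw [Set.disjoint_left]
      intro x hx hx'
      linarith [hx.2, hx'.1]
  have hvol' : volume {θ | θ ∈ Ioc (0 : ℝ) (2 * π) ∧ g θ ≤ s₀} ≤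
      ENNReal.ofReal (π - 2 * ϑ) + ENNReal.ofReal (π - 2 * ϑ) := by
    have hsub : {θ | θ ∈ Ioc (0 : ℝ) (2 * π) ∧ g θ ≤ s₀} ⊆
        Icc ϑ (π - ϑ) ∪ Icc (π + ϑ) (2 * π - ϑ) := by
      rintro θ ⟨hθ, hle⟩
      obtain ⟨θ', h', e, hcs⟩ := fold S.toSData τ₀ θ hθ
      have hge : ϑ ≤ θ' := by
        by_contra hn
        push Not at hn
        have := anti h' hϑm hn
        simp only at this
        have e' : g θ = S.u (τ₀, θ') := e
        have e'' : g ϑ = S.u (τ₀, ϑ) := rfl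
        rw [e', ← hϑ, e''] at hle
        linarith
      rcases hcs with ⟨h1, h2⟩ | ⟨h1, h2, h3⟩ | ⟨h1, h2, h3⟩ | ⟨h1, h2⟩
      · left; exact ⟨by linarith, by linarith⟩
      · left; exact ⟨by linarith, by linarith⟩
      · right; exact ⟨by linarith, by linarith⟩
      · right; exact ⟨by linarith, by linarith⟩
    refine (measure_mono hsub).trans ((measure_union_le _ _).trans ?_)
    rw [Real.volume_Icc, Real.volume_Icc]
    refine le_of_eq ?_
    congr 2 <;> ring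
  have hfin : volume (ET D τ₀ s₀) = ENNReal.ofReal (π - 2 * ϑ) + ENNReal.ofReal (π - 2 * ϑ) :=
    le_antisymm ((hlef.trans hup).trans hvol') (hvol.trans hlow)
  rw [hfin, ENNReal.toReal_add ENNReal.ofReal_ne_top ENNReal.ofReal_ne_top,
    ENNReal.toReal_ofReal (by linarith)]
  ring

end Pool.Agent.Helper25.PCap
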