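import Pool.Agent.Helper25.PCap.GoalsB

/-!
Packet B3 of MP_576c25_an (by helper53): Taylor upper bounds for `LamS` at a regular level.
-/

set_option autoImplicit false

open MeasureTheory Set Filter Topology
open scoped ContDiff Real

noncomputable section

namespace Pool.Agent.Helper25.PCap

namespace B3

/-- the open strip `0 < θ < π` -/
def Strip : Set (ℝ × ℝ) := {z | 0 < z.2 ∧ z.2 < π}

theorem strip_open : IsOpen Strip :=
  (isOpen_lt continuous_const continuous_snd).inter (isOpen_lt continuous_snd continuous_const)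

theorem strip_sub_SC : Strip ⊆ SC := fun _ hz =>
  Or.inr (Real.sin_pos_of_pos_of_lt_pi hz.1 hz.2).ne'

theorem hasDerivAt_D1 {f : ℝ × ℝ → ℝ} {τ θ : ℝ} (hf : DifferentiableAt ℝ f (τ, θ)) :
    HasDerivAt (fun t => f (t, θ)) (D1 f (τ, θ)) τ := by
  have h1 : HasDerivAt (fun t : ℝ => ((t, θ) : ℝ × ℝ)) ((1, 0) : ℝ × ℝ) τ :=
    (hasDerivAt_id τ).prodMk (hasDerivAt_const τ θ)
  exact hf.hasFDerivAt.comp_hasDerivAt τ h1

theorem hasDerivAt_D2 {f : ℝ × ℝ → ℝ} {τ θ : ℝ} (hf : DifferentiableAt ℝ f (τ, θ)) :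
    HasDerivAt (fun t => f (τ, t)) (D2 f (τ, θ)) θ := by
  have h1 : HasDerivAt (fun t : ℝ => ((τ, t) : ℝ × ℝ)) ((0, 1) : ℝ × ℝ) θ :=
    (hasDerivAt_const θ τ).prodMk (hasDerivAt_id θ)
  exact hf.hasFDerivAt.comp_hasDerivAt θ h1

theorem contDiffOn_D1 {f : ℝ × ℝ → ℝ} {N : Set (ℝ × ℝ)} (hN : IsOpen N)
    (hf : ContDiffOn ℝ ∞ f N) : ContDiffOn ℝ ∞ (D1 f) N := by
  have h1 : ContDiffOn ℝ ∞ (fderiv ℝ f) N := hf.fderiv_of_isOpen hN (by simp)
  exact h1.clm_apply contDiffOn_const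

/-- uniform Taylor expansion of order two in `τ` -/
theorem taylor_unif (f : ℝ × ℝ → ℝ) (hf : ContDiffOn ℝ ∞ f Strip) (τ₀ α β : ℝ) (hα : 0 < α)
    (hβ : β < π) (e : ℝ) (he : 0 < e) :
    ∃ h₀ : ℝ, 0 < h₀ ∧ ∀ h : ℝ, |h| < h₀ → ∀ θ ∈ Icc α β,
      |f (τ₀ + h, θ) - f (τ₀, θ) - h * D1 f (τ₀, θ) - h ^ 2 / 2 * D1 (D1 f) (τ₀, θ)| ≤ e * h ^ 2 := by
  have hD1 := contDiffOn_D1 strip_open hf
  have hD11 := contDiffOn_D1 strip_open hD1
  have hmem : ∀ (τ θ : ℝ), θ ∈ Icc α β → (τ, θ) ∈ Strip := fun τ θ hθ =>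
    ⟨lt_of_lt_of_le hα hθ.1, lt_of_le_of_lt hθ.2 hβ⟩
  set K : Set (ℝ × ℝ) := Icc (τ₀ - 1) (τ₀ + 1) ×ˢ Icc α β with hK
  have hKc : IsCompact K := isCompact_Icc.prod isCompact_Icc
  have hKs : K ⊆ Strip := fun z hz => hmem z.1 z.2 hz.2
  have huc : UniformContinuousOn (D1 (D1 f)) K :=
    hKc.uniformContinuousOn_of_continuous (hD11.continuousOn.mono hKs)
  rw [Metric.uniformContinuousOn_iff] at huc
  obtain ⟨δ, hδ, hu⟩ := huc e he
  refine ⟨min δ 1, lt_min hδ one_pos, ?_⟩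
  intro h hh θ hθ
  have hhδ : |h| < δ := lt_of_lt_of_le hh (min_le_left _ _)
  have hh1 : |h| < 1 := lt_of_lt_of_le hh (min_le_right _ _)
  set s := uIcc τ₀ (τ₀ + h) with hs
  have hsx : ∀ x ∈ s, |x - τ₀| ≤ |h| := by
    intro x hx
    have := abs_sub_left_of_mem_uIcc hx
    rwa [add_sub_cancel_left] at this
  have hsc : Convex ℝ s := convex_uIcc _ _
  have hτs : τ₀ ∈ s := left_mem_uIcc
  have hths : τ₀ + h ∈ s := right_mem_uIcc
  have hdf : ∀ x, DifferentiableAt ℝ f (x, θ) := fun x =>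
    ((hf.differentiableOn (by simp)) _ (hmem x θ hθ)).differentiableAt
      (strip_open.mem_nhds (hmem x θ hθ))
  have hdf1 : ∀ x, DifferentiableAt ℝ (D1 f) (x, θ) := fun x =>
    ((hD1.differentiableOn (by simp)) _ (hmem x θ hθ)).differentiableAt
      (strip_open.mem_nhds (hmem x θ hθ))
  have hbd2 : ∀ x ∈ s, ‖D1 (D1 f) (x, θ) - D1 (D1 f) (τ₀, θ)‖ ≤ e := by
    intro x hx
    have h1 := hsx x hx
    have hx1 : x ∈ Icc (τ₀ - 1) (τ₀ + 1) := by
      rw [abs_le] at h1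
      constructor <;> linarith [h1.1, h1.2]
    have hτ1 : τ₀ ∈ Icc (τ₀ - 1) (τ₀ + 1) := by constructor <;> linarith
    have := hu (x, θ) ⟨hx1, hθ⟩ (τ₀, θ) ⟨hτ1, hθ⟩ (by
      rw [Prod.dist_eq]
      simp only [dist_self, Real.dist_eq]
      rw [max_eq_left (abs_nonneg _)]
      linarith)
    rw [Real.dist_eq] at this
    exact this.le
  -- first derivative
  have hb1 : ∀ x ∈ s, ‖D1 f (x, θ) - D1 f (τ₀, θ) - (x - τ₀) * D1 (D1 f) (τ₀, θ)‖ ≤ e * |h| := by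
    intro x hx
    have key := Convex.norm_image_sub_le_of_norm_hasDerivWithin_le
      (f := fun t => D1 f (t, θ) - t * D1 (D1 f) (τ₀, θ))
      (f' := fun t => D1 (D1 f) (t, θ) - D1 (D1 f) (τ₀, θ)) (s := s) (x := τ₀) (y := x) (C := e)
      (fun t ht => by
        have h1 := hasDerivAt_D1 (hdf1 t)
        have h2 := (hasDerivAt_id t).mul_const (D1 (D1 f) (τ₀, θ))
        have h3 := h1.sub h2
        simp only [id, one_mul] at h3
        exact h3.hasDerivWithinAt) hbd2 hsc hτs hx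
    have e1 : D1 f (x, θ) - x * D1 (D1 f) (τ₀, θ) - (D1 f (τ₀, θ) - τ₀ * D1 (D1 f) (τ₀, θ)) =
        D1 f (x, θ) - D1 f (τ₀, θ) - (x - τ₀) * D1 (D1 f) (τ₀, θ) := by ring
    rw [e1] at key
    refine key.trans ?_
    have := hsx x hx
    rw [Real.norm_eq_abs]
    exact mul_le_mul_of_nonneg_left this he.le
  have key := Convex.norm_image_sub_le_of_norm_hasDerivWithin_le
      (f := fun t => f (t, θ) - (t * D1 f (τ₀, θ) + (t - τ₀) ^ 2 / 2 * D1 (D1 f) (τ₀, θ)))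
      (f' := fun t => D1 f (t, θ) - D1 f (τ₀, θ) - (t - τ₀) * D1 (D1 f) (τ₀, θ))
      (s := s) (x := τ₀) (y := τ₀ + h) (C := e * |h|)
      (fun t ht => by
        have h1 := hasDerivAt_D1 (hdf t)
        have h2 := (hasDerivAt_id t).mul_const (D1 f (τ₀, θ))
        have h4 := (((((hasDerivAt_id t).sub_const τ₀).pow 2).div_const 2).mul_const
          (D1 (D1 f) (τ₀, θ)))
        have h3 := h1.sub (h2.add h4)
        refine (h3.congr_deriv ?_).hasDerivWithinAt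
        simp only [id]
        push_cast
        ring) hb1 hsc hτs hths
  rw [Real.norm_eq_abs, Real.norm_eq_abs] at key
  have e1 : f (τ₀ + h, θ) - ((τ₀ + h) * D1 f (τ₀, θ) + (τ₀ + h - τ₀) ^ 2 / 2 * D1 (D1 f) (τ₀, θ)) -
      (f (τ₀, θ) - (τ₀ * D1 f (τ₀, θ) + (τ₀ - τ₀) ^ 2 / 2 * D1 (D1 f) (τ₀, θ))) =
      f (τ₀ + h, θ) - f (τ₀, θ) - h * D1 f (τ₀, θ) - h ^ 2 / 2 * D1 (D1 f) (τ₀, θ) := by ring
  rw [e1, add_sub_cancel_left] at key
  refine key.trans (le_of_eq ?_)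
  rw [mul_assoc, ← sq, sq_abs]

/-- the elementary integral -/
theorem int_tri (g k b : ℝ) (hg : 0 < g) (hk : 0 ≤ k) (hb : 0 ≤ b) :
    ∫ x in (0 : ℝ)..b, max 0 (k - g * x) ≤ k ^ 2 / (2 * g) := by
  set c := k / g with hc
  have hc0 : 0 ≤ c := div_nonneg hk hg.le
  have hgc : g * c = k := by rw [hc]; field_simp
  have hlin : ∀ m : ℝ, ∫ x in (0 : ℝ)..m, (k - g * x) = k * m - g * (m ^ 2 / 2) := by
    intro m
    rw [intervalIntegral.integral_sub (by simp) (by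
      apply Continuous.intervalIntegrable; fun_prop), intervalIntegral.integral_const_mul,
      integral_id]
    simp
    ring
  have hpos : ∀ m : ℝ, 0 ≤ m → m ≤ c → ∫ x in (0 : ℝ)..m, max 0 (k - g * x) =
      k * m - g * (m ^ 2 / 2) := by
    intro m hm hmc
    rw [← hlin]
    apply intervalIntegral.integral_congr
    intro x hx
    rw [uIcc_of_le hm] at hx
    have : g * x ≤ k := by rw [← hgc]; exact mul_le_mul_of_nonneg_left (hx.2.trans hmc) hg.le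
    simp only
    rw [max_eq_right (by linarith)]
  have hsq : ∀ m : ℝ, k * m - g * (m ^ 2 / 2) ≤ k ^ 2 / (2 * g) := by
    intro m
    rw [le_div_iff₀ (by positivity)]
    nlinarith [sq_nonneg (k - g * m)]
  rcases le_total b c with h | h
  · rw [hpos b hb h]; exact hsq b
  · have hcont : Continuous (fun x : ℝ => max 0 (k - g * x)) := by fun_prop
    rw [← intervalIntegral.integral_add_adjacent_intervals (b := c)
      (hcont.intervalIntegrable _ _) (hcont.intervalIntegrable _ _), hpos c hc0 le_rfl]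
    have : ∫ x in c..b, max 0 (k - g * x) = ∫ x in c..b, (0 : ℝ) := by
      apply intervalIntegral.integral_congr
      intro x hx
      rw [uIcc_of_le h] at hx
      have : k ≤ g * x := by rw [← hgc]; exact mul_le_mul_of_nonneg_left hx.1 hg.le
      simp only
      rw [max_eq_left (by linarith)]
    rw [this, intervalIntegral.integral_zero, add_zero]
    exact hsq c

theorem int_tri_right (g k a b : ℝ) (hg : 0 < g) (hk : 0 ≤ k) (hb : a ≤ b) :
    ∫ x in a..b, max 0 (k - g * (x - a)) ≤ k ^ 2 / (2 * g) := by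
  have h := intervalIntegral.integral_comp_sub_right (a := a) (b := b)
    (fun x : ℝ => max 0 (k - g * x)) a
  rw [h, sub_self]
  exact int_tri g k (b - a) hg hk (by linarith)

theorem int_tri_left (g k a b : ℝ) (hg : 0 < g) (hk : 0 ≤ k) (hb : a ≤ b) :
    ∫ x in a..b, max 0 (k - g * (b - x)) ≤ k ^ 2 / (2 * g) := by
  have h := intervalIntegral.integral_comp_sub_left (a := a) (b := b)
    (fun x : ℝ => max 0 (k - g * x)) b
  rw [h, sub_self]
  exact int_tri g k (b - a) hg hk (by linarith)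

/-- linear lower bound from a negative derivative and monotonicity -/
theorem sgn_bound (F : ℝ → ℝ) (hF : StrictAntiOn F (Icc 0 (π / 2))) (ϑ₀ g g' : ℝ)
    (h0 : 0 < ϑ₀) (h1 : ϑ₀ < π / 2) (hd : HasDerivAt F (-g) ϑ₀) (_ : 0 < g') (hgg : g' < g) :
    ∃ δ : ℝ, 0 < δ ∧ ∀ θ ∈ Icc (0 : ℝ) (π / 2),
      (ϑ₀ ≤ θ → g' * min (θ - ϑ₀) δ ≤ F ϑ₀ - F θ) ∧
      (θ ≤ ϑ₀ → g' * min (ϑ₀ - θ) δ ≤ F θ - F ϑ₀) := by
  have hl := hd.isLittleO
  rw [Asymptotics.isLittleO_iff] at hl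
  have hev := hl (sub_pos.mpr hgg)
  rw [Metric.eventually_nhds_iff] at hev
  obtain ⟨δ₁, hδ₁, hE⟩ := hev
  set δ := min (δ₁ / 2) (min (ϑ₀ / 2) ((π / 2 - ϑ₀) / 2)) with hδ
  have hδ0 : 0 < δ := lt_min (by linarith) (lt_min (by linarith) (by linarith))
  have hδ1 : δ ≤ δ₁ / 2 := min_le_left _ _
  have hδ2 : δ ≤ ϑ₀ / 2 := (min_le_right _ _).trans (min_le_left _ _)
  have hδ3 : δ ≤ (π / 2 - ϑ₀) / 2 := (min_le_right _ _).trans (min_le_right _ _)
  have hR : ∀ y, 0 ≤ y → y ≤ δ → g' * y ≤ F ϑ₀ - F (ϑ₀ + y) := by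
    intro y hy hyδ
    have h2 := hE (y := ϑ₀ + y) (by
      rw [Real.dist_eq, add_sub_cancel_left, abs_of_nonneg hy]; linarith)
    rw [Real.norm_eq_abs, Real.norm_eq_abs, add_sub_cancel_left, abs_of_nonneg hy] at h2
    have h3 := (abs_le.mp h2).2
    simp only [smul_eq_mul] at h3
    nlinarith
  have hL : ∀ y, 0 ≤ y → y ≤ δ → g' * y ≤ F (ϑ₀ - y) - F ϑ₀ := by
    intro y hy hyδ
    have h2 := hE (y := ϑ₀ - y) (by
      rw [Real.dist_eq, sub_sub_cancel_left, abs_neg, abs_of_nonneg hy]; linarith)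
    rw [Real.norm_eq_abs, Real.norm_eq_abs, sub_sub_cancel_left, abs_neg, abs_of_nonneg hy] at h2
    have h3 := (abs_le.mp h2).1
    simp only [smul_eq_mul] at h3
    nlinarith
  refine ⟨δ, hδ0, fun θ hθ => ⟨fun hle => ?_, fun hle => ?_⟩⟩
  · rcases le_total (θ - ϑ₀) δ with h | h
    · rw [min_eq_left h]
      have := hR (θ - ϑ₀) (by linarith) h
      rwa [add_sub_cancel] at this
    · rw [min_eq_right h]
      have h2 := hR δ hδ0.le le_rfl
      have h3 := hF.antitoneOn (a := ϑ₀ + δ) (b := θ) ⟨by linarith, by linarith⟩ hθ (by linarith)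
      linarith
  · rcases le_total (ϑ₀ - θ) δ with h | h
    · rw [min_eq_left h]
      have := hL (ϑ₀ - θ) (by linarith) h
      rwa [sub_sub_cancel] at this
    · rw [min_eq_right h]
      have h2 := hL δ hδ0.le le_rfl
      have h3 := hF.antitoneOn (a := θ) (b := ϑ₀ - δ) hθ ⟨by linarith, by linarith⟩ (by linarith)
      linarith

theorem part1 (F : ℝ → ℝ) (hFc : Continuous F) (hF : StrictAntiOn F (Icc 0 (π / 2))) (ϑ₀ g : ℝ)
    (h0 : 0 < ϑ₀) (h1 : ϑ₀ < π / 2) (hd : HasDerivAt F (-g) ϑ₀) (hg : 0 < g) (e : ℝ) (he : 0 < e) :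
    ∃ k₀ : ℝ, 0 < k₀ ∧ ∀ k : ℝ, 0 < k → k < k₀ →
      ∫ θ in (0 : ℝ)..(π / 2), max 0 (F ϑ₀ - k - F θ) ≤
        (∫ θ in (0 : ℝ)..(π / 2), max 0 (F ϑ₀ - F θ)) - k * (π / 2 - ϑ₀) +
          (1 / (2 * g) + e) * k ^ 2 := by
  have hden : 0 < 1 + 2 * g * e := by positivity
  set g' := g / (1 + 2 * g * e) with hg'
  have hg'0 : 0 < g' := div_pos hg hden
  have hg'g : g' < g := by
    rw [hg', div_lt_iff₀ hden]
    nlinarith [mul_pos hg he]
  have hinv : 1 / (2 * g') = 1 / (2 * g) + e := by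
    rw [hg']; field_simp
  obtain ⟨δ, hδ, hb⟩ := sgn_bound F hF ϑ₀ g g' h0 h1 hd hg'0 hg'g
  refine ⟨g' * δ, mul_pos hg'0 hδ, fun k hk hkδ => ?_⟩
  have hle : ∀ θ ∈ Icc (0 : ℝ) ϑ₀, F ϑ₀ ≤ F θ := fun θ hθ =>
    hF.antitoneOn (a := θ) (b := ϑ₀) ⟨hθ.1, by linarith [hθ.2]⟩ ⟨h0.le, h1.le⟩ hθ.2
  have hge : ∀ θ ∈ Icc ϑ₀ (π / 2), F θ ≤ F ϑ₀ := fun θ hθ =>
    hF.antitoneOn (a := ϑ₀) (b := θ) ⟨h0.le, h1.le⟩ ⟨by linarith [hθ.1], hθ.2⟩ hθ.1
  have hc1 : Continuous (fun θ => max 0 (F ϑ₀ - k - F θ)) := by fun_prop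
  have hc2 : Continuous (fun θ => max 0 (F ϑ₀ - F θ)) := by fun_prop
  rw [← intervalIntegral.integral_add_adjacent_intervals (b := ϑ₀)
    (hc1.intervalIntegrable _ _) (hc1.intervalIntegrable _ _),
    ← intervalIntegral.integral_add_adjacent_intervals (a := 0) (b := ϑ₀) (c := π / 2)
    (hc2.intervalIntegrable _ _) (hc2.intervalIntegrable _ _)]
  have z1 : ∫ θ in (0 : ℝ)..ϑ₀, max 0 (F ϑ₀ - k - F θ) = 0 := by
    refine Eq.trans (b := ∫ θ in (0 : ℝ)..ϑ₀, (0 : ℝ)) ?_ intervalIntegral.integral_zero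
    apply intervalIntegral.integral_congr
    intro θ hθ
    rw [uIcc_of_le h0.le] at hθ
    have := hle θ hθ
    simp only
    rw [max_eq_left (by linarith)]
  have z2 : ∫ θ in (0 : ℝ)..ϑ₀, max 0 (F ϑ₀ - F θ) = 0 := by
    refine Eq.trans (b := ∫ θ in (0 : ℝ)..ϑ₀, (0 : ℝ)) ?_ intervalIntegral.integral_zero
    apply intervalIntegral.integral_congr
    intro θ hθ
    rw [uIcc_of_le h0.le] at hθ
    have := hle θ hθ
    simp only
    rw [max_eq_left (by linarith)]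
  have z3 : ∫ θ in ϑ₀..(π / 2), max 0 (F ϑ₀ - F θ) = ∫ θ in ϑ₀..(π / 2), (F ϑ₀ - F θ) := by
    apply intervalIntegral.integral_congr
    intro θ hθ
    rw [uIcc_of_le h1.le] at hθ
    have := hge θ hθ
    simp only
    rw [max_eq_right (by linarith)]
  have z4 : ∫ θ in ϑ₀..(π / 2), max 0 (F ϑ₀ - k - F θ) ≤
      ∫ θ in ϑ₀..(π / 2), ((F ϑ₀ - F θ) - k + max 0 (k - g' * (θ - ϑ₀))) := by
    apply intervalIntegral.integral_mono_on h1.le (hc1.intervalIntegrable _ _)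
    · apply Continuous.intervalIntegrable; fun_prop
    · intro θ hθ
      have hb1 := (hb θ ⟨by linarith [hθ.1], hθ.2⟩).1 hθ.1
      have hgθ := hge θ hθ
      rcases le_total (θ - ϑ₀) δ with hh | hh
      · rw [min_eq_left hh] at hb1
        apply max_le
        · have := le_max_right 0 (k - g' * (θ - ϑ₀))
          have h3 := le_max_left 0 (k - g' * (θ - ϑ₀))
          rcases le_total k (g' * (θ - ϑ₀)) with h4 | h4
          · linarith
          · linarith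
        · have h3 := le_max_left 0 (k - g' * (θ - ϑ₀))
          linarith
      · rw [min_eq_right hh] at hb1
        have h3 := le_max_left 0 (k - g' * (θ - ϑ₀))
        apply max_le <;> linarith
  have z5 : ∫ θ in ϑ₀..(π / 2), ((F ϑ₀ - F θ) - k + max 0 (k - g' * (θ - ϑ₀))) =
      (∫ θ in ϑ₀..(π / 2), (F ϑ₀ - F θ)) - k * (π / 2 - ϑ₀) +
      ∫ θ in ϑ₀..(π / 2), max 0 (k - g' * (θ - ϑ₀)) := by
    rw [intervalIntegral.integral_add, intervalIntegral.integral_sub,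
      intervalIntegral.integral_const]
    · simp only [smul_eq_mul]; ring
    · apply Continuous.intervalIntegrable; fun_prop
    · apply Continuous.intervalIntegrable; fun_prop
    · apply Continuous.intervalIntegrable; fun_prop
    · apply Continuous.intervalIntegrable; fun_prop
  have z6 := int_tri_right g' k ϑ₀ (π / 2) hg'0 hk.le h1.le
  have z7 : k ^ 2 / (2 * g') = (1 / (2 * g) + e) * k ^ 2 := by
    rw [← hinv]; ring
  rw [z1, z2, z3]
  linarith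

theorem part2 (f : ℝ × ℝ → ℝ) (hfc : Continuous f) (hf : ContDiffOn ℝ ∞ f Strip) (τ₀ ϑ₀ : ℝ)
    (hF : StrictAntiOn (fun θ => f (τ₀, θ)) (Icc 0 (π / 2))) (h0 : 0 < ϑ₀) (h1 : ϑ₀ < π / 2)
    (hg : D2 f (τ₀, ϑ₀) < 0) (e : ℝ) (he : 0 < e) :
    ∃ h₀ : ℝ, 0 < h₀ ∧ ∀ h : ℝ, |h| < h₀ →
      ∫ θ in (0 : ℝ)..(π / 2), max 0 (f (τ₀, ϑ₀) + D1 f (τ₀, ϑ₀) * h - f (τ₀ + h, θ)) ≤
        (∫ θ in (0 : ℝ)..(π / 2), max 0 (f (τ₀, ϑ₀) - f (τ₀, θ))) +
        h * (D1 f (τ₀, ϑ₀) * (π / 2 - ϑ₀) - ∫ θ in ϑ₀..(π / 2), D1 f (τ₀, θ)) -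
        h ^ 2 / 2 * (∫ θ in ϑ₀..(π / 2), D1 (D1 f) (τ₀, θ)) + e * h ^ 2 := by
  have hpi := Real.pi_pos
  have hpi4 := Real.pi_le_four
  have hD1 := contDiffOn_D1 strip_open hf
  have hD11 := contDiffOn_D1 strip_open hD1
  have hmemϑ : (τ₀, ϑ₀) ∈ Strip := ⟨h0, by simp only; linarith⟩
  have hdf : DifferentiableAt ℝ f (τ₀, ϑ₀) :=
    ((hf.differentiableOn (by simp)) _ hmemϑ).differentiableAt (strip_open.mem_nhds hmemϑ)
  set p := D1 f (τ₀, ϑ₀) with hp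
  set s₀ := f (τ₀, ϑ₀) with hs₀
  set g := -D2 f (τ₀, ϑ₀) with hgdef
  have hg0 : 0 < g := by rw [hgdef]; linarith
  set g' := g / 2 with hg'
  have hg'0 : 0 < g' := by rw [hg']; linarith
  have hder : HasDerivAt (fun θ => f (τ₀, θ)) (-g) ϑ₀ := by
    rw [hgdef, neg_neg]; exact hasDerivAt_D2 hdf
  obtain ⟨δ, hδ, hb⟩ := sgn_bound (fun θ => f (τ₀, θ)) hF ϑ₀ g g' h0 h1 hder hg'0
    (by rw [hg']; linarith)
  set η := min 1 (e * g' / 8) with hη
  have hη0 : 0 < η := lt_min one_pos (by positivity)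
  have hη2 : 4 * η ^ 2 / g' ≤ e / 2 := by
    rw [div_le_iff₀ hg'0]
    have h2 : η ≤ 1 := min_le_left _ _
    have h3 : η ≤ e * g' / 8 := min_le_right _ _
    nlinarith
  -- compact interval
  have hI : ∀ θ ∈ Icc (ϑ₀ / 2) (π / 2), (τ₀, θ) ∈ Strip := fun θ hθ =>
    ⟨by simp only; linarith [hθ.1], by simp only; linarith [hθ.2]⟩
  have hline : Continuous (fun θ : ℝ => ((τ₀, θ) : ℝ × ℝ)) := by fun_prop
  have hcD1 : ContinuousOn (fun θ => D1 f (τ₀, θ)) (Icc (ϑ₀ / 2) (π / 2)) :=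
    hD1.continuousOn.comp hline.continuousOn hI
  have hcD11 : ContinuousOn (fun θ => D1 (D1 f) (τ₀, θ)) (Icc (ϑ₀ / 2) (π / 2)) :=
    hD11.continuousOn.comp hline.continuousOn hI
  have hcont : ContinuousAt (fun θ => D1 f (τ₀, θ)) ϑ₀ :=
    hcD1.continuousAt (Icc_mem_nhds (by linarith) h1)
  rw [Metric.continuousAt_iff] at hcont
  obtain ⟨δ₂, hδ₂, hc2⟩ := hcont η hη0
  set δ₃ := min (min δ (δ₂ / 2)) (min (ϑ₀ / 2) ((π / 2 - ϑ₀) / 2)) with hδ₃
  have hδ30 : 0 < δ₃ :=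
    lt_min (lt_min hδ (by linarith)) (lt_min (by linarith) (by linarith))
  have d1 : δ₃ ≤ δ := (min_le_left _ _).trans (min_le_left _ _)
  have d2 : δ₃ ≤ δ₂ / 2 := (min_le_left _ _).trans (min_le_right _ _)
  have d3 : δ₃ ≤ ϑ₀ / 2 := (min_le_right _ _).trans (min_le_left _ _)
  obtain ⟨K₁, hK₁⟩ := isCompact_Icc.exists_bound_of_continuousOn hcD11
  have hK₁0 : 0 ≤ K₁ := le_trans (norm_nonneg _) (hK₁ ϑ₀ ⟨by linarith, h1.le⟩)
  obtain ⟨h₁, hh₁, hT⟩ := taylor_unif f hf τ₀ (ϑ₀ / 2) (π / 2) (by linarith) (by linarith)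
    (e / 4) (by linarith)
  set K := K₁ / 2 + e / 4 with hK
  have hK0 : 0 < K := by rw [hK]; linarith
  -- uniform continuity
  have hKc : IsCompact (Icc (τ₀ - 1) (τ₀ + 1) ×ˢ Icc (0 : ℝ) (π / 2)) :=
    isCompact_Icc.prod isCompact_Icc
  have huc := hKc.uniformContinuousOn_of_continuous hfc.continuousOn
  rw [Metric.uniformContinuousOn_iff] at huc
  obtain ⟨h₂, hh₂, hU⟩ := huc (g' * δ₃ / 2) (by positivity)
  have hUC : ∀ h : ℝ, |h| < h₂ → |h| ≤ 1 → ∀ θ ∈ Icc (0 : ℝ) (π / 2),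
      |f (τ₀ + h, θ) - f (τ₀, θ)| < g' * δ₃ / 2 := by
    intro h hh hh1 θ hθ
    rw [abs_le] at hh1
    have := hU (τ₀ + h, θ) ⟨⟨by simp only; linarith [hh1.1], by simp only; linarith [hh1.2]⟩, hθ⟩
      (τ₀, θ) ⟨⟨by simp only; linarith, by simp only; linarith⟩, hθ⟩ (by
        rw [Prod.dist_eq]
        simp only [dist_self, Real.dist_eq, add_sub_cancel_left]
        rw [max_eq_left (abs_nonneg _)]
        exact hh)
    rwa [Real.dist_eq] at this
  set h₀ := min (min h₁ (min h₂ 1)) (min (g' * δ₃ / (2 * (|p| + 1))) (η / K)) with hh₀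
  have hh₀0 : 0 < h₀ := by
    refine lt_min (lt_min hh₁ (lt_min hh₂ one_pos)) (lt_min ?_ ?_)
    · positivity
    · positivity
  refine ⟨h₀, hh₀0, fun h hh => ?_⟩
  have i1 : |h| < h₁ := lt_of_lt_of_le hh ((min_le_left _ _).trans (min_le_left _ _))
  have i2 : |h| < h₂ := lt_of_lt_of_le hh
    ((min_le_left _ _).trans ((min_le_right _ _).trans (min_le_left _ _)))
  have i3 : |h| < 1 := lt_of_lt_of_le hh
    ((min_le_left _ _).trans ((min_le_right _ _).trans (min_le_right _ _)))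
  have i4 : |h| < g' * δ₃ / (2 * (|p| + 1)) := lt_of_lt_of_le hh
    ((min_le_right _ _).trans (min_le_left _ _))
  have i5 : |h| < η / K := lt_of_lt_of_le hh
    ((min_le_right _ _).trans (min_le_right _ _))
  have habs := abs_nonneg h
  have hpabs := abs_nonneg p
  have hph : |p * h| ≤ g' * δ₃ / 2 := by
    rw [abs_mul]
    rw [lt_div_iff₀ (by positivity)] at i4
    nlinarith
  set k := η * |h| + K * h ^ 2 with hk
  have hk0 : 0 ≤ k := by positivity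
  have hkη : k ≤ 2 * η * |h| := by
    rw [lt_div_iff₀ hK0] at i5
    have : K * h ^ 2 ≤ η * |h| := by
      rw [← sq_abs h]
      nlinarith
    rw [hk]; linarith
  -- near estimate
  have hnear : ∀ θ, |θ - ϑ₀| ≤ δ₃ → θ ≤ π / 2 →
      |p * h - (f (τ₀ + h, θ) - f (τ₀, θ))| ≤ k := by
    intro θ hθ hθ2
    have hθI : θ ∈ Icc (ϑ₀ / 2) (π / 2) := by
      refine ⟨?_, hθ2⟩
      have := (abs_le.mp hθ).1
      linarith
    have t1 := hT h i1 θ hθI
    have t2 : |D1 f (τ₀, θ) - p| < η := by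
      have := hc2 (x := θ) (by rw [Real.dist_eq]; linarith)
      rwa [Real.dist_eq] at this
    have t3 : |D1 (D1 f) (τ₀, θ)| ≤ K₁ := hK₁ θ hθI
    have e1 : p * h - (f (τ₀ + h, θ) - f (τ₀, θ)) =
        -((D1 f (τ₀, θ) - p) * h) - h ^ 2 / 2 * D1 (D1 f) (τ₀, θ) -
        (f (τ₀ + h, θ) - f (τ₀, θ) - h * D1 f (τ₀, θ) - h ^ 2 / 2 * D1 (D1 f) (τ₀, θ)) := by ring
    rw [e1]
    have n1 : |-((D1 f (τ₀, θ) - p) * h)| ≤ η * |h| := by
      rw [abs_neg, abs_mul]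
      exact mul_le_mul_of_nonneg_right t2.le habs
    have n2 : |h ^ 2 / 2 * D1 (D1 f) (τ₀, θ)| ≤ h ^ 2 / 2 * K₁ := by
      rw [abs_mul, abs_of_nonneg (by positivity : (0 : ℝ) ≤ h ^ 2 / 2)]
      exact mul_le_mul_of_nonneg_left t3 (by positivity)
    have n3 := abs_sub (-((D1 f (τ₀, θ) - p) * h) - h ^ 2 / 2 * D1 (D1 f) (τ₀, θ))
      (f (τ₀ + h, θ) - f (τ₀, θ) - h * D1 f (τ₀, θ) - h ^ 2 / 2 * D1 (D1 f) (τ₀, θ))
    have n4 := abs_sub (-((D1 f (τ₀, θ) - p) * h)) (h ^ 2 / 2 * D1 (D1 f) (τ₀, θ))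
    rw [hk, hK]
    linarith
  have hsq : k ^ 2 / (2 * g') ≤ e / 4 * h ^ 2 := by
    have hk2 : k ^ 2 ≤ 4 * η ^ 2 * h ^ 2 := by
      have : k ^ 2 ≤ (2 * η * |h|) ^ 2 := pow_le_pow_left₀ hk0 hkη 2
      have e3 : (2 * η * |h|) ^ 2 = 4 * η ^ 2 * h ^ 2 := by
        rw [mul_pow, mul_pow, sq_abs]; ring
      linarith
    rw [div_le_iff₀ (by positivity)]
    rw [div_le_iff₀ hg'0] at hη2
    nlinarith [sq_nonneg h]
  -- continuity facts
  have hcx : Continuous (fun θ => s₀ + p * h - f (τ₀ + h, θ)) := by fun_prop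
  have hcm : Continuous (fun θ => max 0 (s₀ + p * h - f (τ₀ + h, θ))) := by fun_prop
  have hcm0 : Continuous (fun θ => max 0 (s₀ - f (τ₀, θ))) := by fun_prop
  have hcs0 : Continuous (fun θ => s₀ - f (τ₀, θ)) := by fun_prop
  rw [← intervalIntegral.integral_add_adjacent_intervals (b := ϑ₀)
    (hcm.intervalIntegrable _ _) (hcm.intervalIntegrable _ _),
    ← intervalIntegral.integral_add_adjacent_intervals (a := 0) (b := ϑ₀) (c := π / 2)
    (hcm0.intervalIntegrable _ _) (hcm0.intervalIntegrable _ _)]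
  -- left part
  have z1 : ∫ θ in (0 : ℝ)..ϑ₀, max 0 (s₀ + p * h - f (τ₀ + h, θ)) ≤ e / 4 * h ^ 2 := by
    refine le_trans ?_ ((int_tri_left g' k 0 ϑ₀ hg'0 hk0 h0.le).trans hsq)
    apply intervalIntegral.integral_mono_on h0.le (hcm.intervalIntegrable _ _)
    · apply Continuous.intervalIntegrable; fun_prop
    · intro θ hθ
      have hθ' : θ ∈ Icc (0 : ℝ) (π / 2) := ⟨hθ.1, by linarith [hθ.2]⟩
      have hb1 : g' * min (ϑ₀ - θ) δ ≤ f (τ₀, θ) - s₀ := (hb θ hθ').2 hθ.2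
      apply max_le (le_max_left _ _)
      rcases le_total (ϑ₀ - θ) δ₃ with hh3 | hh3
      · refine le_trans ?_ (le_max_right _ _)
        rw [min_eq_left (hh3.trans d1)] at hb1
        have hn := hnear θ (by rw [abs_sub_comm, abs_of_nonneg (by linarith [hθ.2])]; exact hh3) hθ'.2
        have := (abs_le.mp hn).2
        linarith
      · refine le_trans ?_ (le_max_left _ _)
        have hb2 : g' * δ₃ ≤ g' * min (ϑ₀ - θ) δ :=
          mul_le_mul_of_nonneg_left (le_min hh3 d1) hg'0.le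
        have hu := (abs_le.mp (hUC h i2 i3.le θ hθ').le).1
        have hv := (abs_le.mp hph).2
        linarith
  have z2 : ∫ θ in (0 : ℝ)..ϑ₀, max 0 (s₀ - f (τ₀, θ)) = 0 := by
    refine Eq.trans (b := ∫ θ in (0 : ℝ)..ϑ₀, (0 : ℝ)) ?_ intervalIntegral.integral_zero
    apply intervalIntegral.integral_congr
    intro θ hθ
    rw [uIcc_of_le h0.le] at hθ
    have : s₀ ≤ f (τ₀, θ) :=
      hF.antitoneOn (a := θ) (b := ϑ₀) ⟨hθ.1, by linarith [hθ.2]⟩ ⟨h0.le, h1.le⟩ hθ.2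
    simp only
    rw [max_eq_left (by linarith)]
  have z3 : ∫ θ in ϑ₀..(π / 2), max 0 (s₀ - f (τ₀, θ)) = ∫ θ in ϑ₀..(π / 2), (s₀ - f (τ₀, θ)) := by
    apply intervalIntegral.integral_congr
    intro θ hθ
    rw [uIcc_of_le h1.le] at hθ
    have : f (τ₀, θ) ≤ s₀ :=
      hF.antitoneOn (a := ϑ₀) (b := θ) ⟨h0.le, h1.le⟩ ⟨by linarith [hθ.1], hθ.2⟩ hθ.1
    simp only
    rw [max_eq_right (by linarith)]
  -- right part
  have hiD1 : IntervalIntegrable (fun θ => D1 f (τ₀, θ)) volume ϑ₀ (π / 2) := by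
    apply ContinuousOn.intervalIntegrable
    rw [uIcc_of_le h1.le]
    exact hcD1.mono (Icc_subset_Icc (by linarith) le_rfl)
  have hiD11 : IntervalIntegrable (fun θ => D1 (D1 f) (τ₀, θ)) volume ϑ₀ (π / 2) := by
    apply ContinuousOn.intervalIntegrable
    rw [uIcc_of_le h1.le]
    exact hcD11.mono (Icc_subset_Icc (by linarith) le_rfl)
  have hitri : IntervalIntegrable (fun θ => max 0 (k - g' * (θ - ϑ₀))) volume ϑ₀ (π / 2) := by
    apply Continuous.intervalIntegrable; fun_prop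
  have his0 := hcs0.intervalIntegrable (μ := volume) ϑ₀ (π / 2)
  have hR1 : IntervalIntegrable (fun θ => (s₀ - f (τ₀, θ)) + p * h) volume ϑ₀ (π / 2) :=
    his0.add (by simp)
  have hR2 : IntervalIntegrable (fun θ => (s₀ - f (τ₀, θ)) + p * h - h * D1 f (τ₀, θ))
      volume ϑ₀ (π / 2) := hR1.sub (hiD1.const_mul h)
  have hR3 : IntervalIntegrable (fun θ => (s₀ - f (τ₀, θ)) + p * h - h * D1 f (τ₀, θ) -
      h ^ 2 / 2 * D1 (D1 f) (τ₀, θ)) volume ϑ₀ (π / 2) := hR2.sub (hiD11.const_mul (h ^ 2 / 2))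
  have hR4 : IntervalIntegrable (fun θ => (s₀ - f (τ₀, θ)) + p * h - h * D1 f (τ₀, θ) -
      h ^ 2 / 2 * D1 (D1 f) (τ₀, θ) + e / 4 * h ^ 2) volume ϑ₀ (π / 2) := hR3.add (by simp)
  have hR5 : IntervalIntegrable (fun θ => (s₀ - f (τ₀, θ)) + p * h - h * D1 f (τ₀, θ) -
      h ^ 2 / 2 * D1 (D1 f) (τ₀, θ) + e / 4 * h ^ 2 + max 0 (k - g' * (θ - ϑ₀)))
      volume ϑ₀ (π / 2) := hR4.add hitri
  have z4 : ∫ θ in ϑ₀..(π / 2), max 0 (s₀ + p * h - f (τ₀ + h, θ)) ≤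
      ∫ θ in ϑ₀..(π / 2), ((s₀ - f (τ₀, θ)) + p * h - h * D1 f (τ₀, θ) -
      h ^ 2 / 2 * D1 (D1 f) (τ₀, θ) + e / 4 * h ^ 2 + max 0 (k - g' * (θ - ϑ₀))) := by
    apply intervalIntegral.integral_mono_on h1.le (hcm.intervalIntegrable _ _) hR5
    intro θ hθ
    have hθ' : θ ∈ Icc (0 : ℝ) (π / 2) := ⟨by linarith [hθ.1], hθ.2⟩
    have hθI : θ ∈ Icc (ϑ₀ / 2) (π / 2) := ⟨by linarith [hθ.1], hθ.2⟩
    have hb1 : g' * min (θ - ϑ₀) δ ≤ s₀ - f (τ₀, θ) := (hb θ hθ').1 hθ.1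
    have hT1 := (abs_le.mp (hT h i1 θ hθI)).1
    set x := s₀ + p * h - f (τ₀ + h, θ) with hx
    -- `max 0 x = x + max 0 (-x)`
    have hmx : max 0 x ≤ x + max 0 (-x) := by
      rcases le_total 0 x with hx0 | hx0
      · rw [max_eq_right hx0]; linarith [le_max_left 0 (-x)]
      · rw [max_eq_left hx0]; linarith [le_max_right 0 (-x)]
    have hneg : max 0 (-x) ≤ max 0 (k - g' * (θ - ϑ₀)) := by
      apply max_le (le_max_left _ _)
      rcases le_total (θ - ϑ₀) δ₃ with hh3 | hh3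
      · refine le_trans ?_ (le_max_right _ _)
        rw [min_eq_left (hh3.trans d1)] at hb1
        have hn := hnear θ (by rw [abs_of_nonneg (by linarith [hθ.1])]; exact hh3) hθ'.2
        have := (abs_le.mp hn).1
        rw [hx]
        linarith
      · refine le_trans ?_ (le_max_left _ _)
        have hb2 : g' * δ₃ ≤ g' * min (θ - ϑ₀) δ :=
          mul_le_mul_of_nonneg_left (le_min hh3 d1) hg'0.le
        have hu := (abs_le.mp (hUC h i2 i3.le θ hθ').le).2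
        have hv := (abs_le.mp hph).1
        rw [hx]
        linarith
    have hxle : x ≤ (s₀ - f (τ₀, θ)) + p * h - h * D1 f (τ₀, θ) -
      h ^ 2 / 2 * D1 (D1 f) (τ₀, θ) + e / 4 * h ^ 2 := by
      rw [hx]; linarith
    linarith
  have z5 : ∫ θ in ϑ₀..(π / 2), ((s₀ - f (τ₀, θ)) + p * h - h * D1 f (τ₀, θ) -
      h ^ 2 / 2 * D1 (D1 f) (τ₀, θ) + e / 4 * h ^ 2 + max 0 (k - g' * (θ - ϑ₀))) =
      (∫ θ in ϑ₀..(π / 2), (s₀ - f (τ₀, θ))) + p * h * (π / 2 - ϑ₀) -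
      h * (∫ θ in ϑ₀..(π / 2), D1 f (τ₀, θ)) -
      h ^ 2 / 2 * (∫ θ in ϑ₀..(π / 2), D1 (D1 f) (τ₀, θ)) + e / 4 * h ^ 2 * (π / 2 - ϑ₀) +
      ∫ θ in ϑ₀..(π / 2), max 0 (k - g' * (θ - ϑ₀)) := by
    rw [intervalIntegral.integral_add hR4 hitri,
      intervalIntegral.integral_add hR3 (by simp),
      intervalIntegral.integral_sub hR2 (hiD11.const_mul _),
      intervalIntegral.integral_sub hR1 (hiD1.const_mul _),
      intervalIntegral.integral_add his0 (by simp),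
      intervalIntegral.integral_const_mul (h ^ 2 / 2),
      intervalIntegral.integral_const_mul h (fun θ => D1 f (τ₀, θ)),
      intervalIntegral.integral_const (p * h), intervalIntegral.integral_const (e / 4 * h ^ 2)]
    simp only [smul_eq_mul]
    ring
  have z6 := (int_tri_right g' k ϑ₀ (π / 2) hg'0 hk0 h1.le).trans hsq
  have z7 : e / 4 * h ^ 2 * (π / 2 - ϑ₀) ≤ e / 4 * h ^ 2 * 2 :=
    mul_le_mul_of_nonneg_left (by linarith) (by positivity)
  rw [z2, z3]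
  rw [z5] at z4
  linarith

theorem LamS_eq {κ : ℝ} (S : SData κ) (τ s : ℝ) :
    LamS S τ s = 4 * ∫ θ in (0 : ℝ)..(π / 2), max 0 (s - S.u (τ, θ)) := by
  set G : ℝ → ℝ := fun θ => max 0 (s - S.u (τ, θ)) with hG
  have hGc : Continuous G := by
    have := S.cont
    rw [hG]; fun_prop
  have hper : ∀ θ, G (θ + π) = G θ := fun θ => by simp only [hG, S.per]
  have heven : ∀ θ, G (-θ) = G θ := fun θ => by simp only [hG, S.even]
  have i1 : ∫ θ in π..(2 * π), G θ = ∫ θ in (0 : ℝ)..π, G θ := by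
    have h := intervalIntegral.integral_comp_add_right (a := 0) (b := π) G π
    simp only [hper, zero_add] at h
    rw [h]
    congr 1; ring
  have i2 : ∫ θ in (π / 2)..π, G θ = ∫ θ in (0 : ℝ)..(π / 2), G θ := by
    have h := intervalIntegral.integral_comp_sub_left (a := π / 2) (b := π) G π
    have e1 : ∀ θ, G (π - θ) = G θ := by
      intro θ
      have : π - θ = -θ + π := by ring
      rw [this, hper, heven]
    simp only [e1, sub_self] at h
    rw [h]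
    congr 1; ring
  change ∫ θ in (0 : ℝ)..(2 * π), G θ = 4 * ∫ θ in (0 : ℝ)..(π / 2), G θ
  rw [← intervalIntegral.integral_add_adjacent_intervals (b := π)
    (hGc.intervalIntegrable _ _) (hGc.intervalIntegrable _ _), i1,
    ← intervalIntegral.integral_add_adjacent_intervals (a := 0) (b := π / 2) (c := π)
    (hGc.intervalIntegrable _ _) (hGc.intervalIntegrable _ _), i2]
  ring

theorem strictAnti {κ : ℝ} (S : SData κ) (τ : ℝ) :
    StrictAntiOn (fun θ => S.u (τ, θ)) (Icc 0 (π / 2)) := by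
  apply strictAntiOn_of_deriv_neg (convex_Icc _ _)
  · have := S.cont
    exact Continuous.continuousOn (by fun_prop)
  · intro θ hθ
    rw [interior_Icc] at hθ
    have hmem : (τ, θ) ∈ Strip := ⟨hθ.1, by simp only; linarith [hθ.2, Real.pi_pos]⟩
    have hd : DifferentiableAt ℝ S.u (τ, θ) :=
      ((S.smooth.mono strip_sub_SC).differentiableOn (by simp) _ hmem).differentiableAt
        (strip_open.mem_nhds hmem)
    rw [(hasDerivAt_D2 hd).deriv]
    exact S.uneg τ θ hθ.1 hθ.2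

end B3

open B3 in
/-- PACKET B3 -/
theorem pkB3 : GB3 := by
  intro κ hκ0 hκ1 S τ₀ ϑ₀ h0 h1 e he
  have hpi := Real.pi_pos
  have hsm : ContDiffOn ℝ ∞ S.u Strip := S.smooth.mono strip_sub_SC
  have hneg := S.uneg τ₀ ϑ₀ h0 h1
  have hmem : (τ₀, ϑ₀) ∈ Strip := ⟨h0, by simp only; linarith⟩
  have hd : DifferentiableAt ℝ S.u (τ₀, ϑ₀) :=
    (hsm.differentiableOn (by simp) _ hmem).differentiableAt (strip_open.mem_nhds hmem)
  have hF := strictAnti S.toSData τ₀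
  have hFc : Continuous (fun θ => S.u (τ₀, θ)) := by
    have := S.cont
    fun_prop
  obtain ⟨k₀, hk₀, hK⟩ := part1 (fun θ => S.u (τ₀, θ)) hFc hF ϑ₀ (-D2 S.u (τ₀, ϑ₀)) h0 h1
    (by rw [neg_neg]; exact hasDerivAt_D2 hd) (by linarith) (e / 4) (by linarith)
  obtain ⟨h₀, hh₀, hH⟩ := part2 S.u S.cont hsm τ₀ ϑ₀ hF h0 h1 hneg (e / 4) (by linarith)
  refine ⟨min k₀ h₀, lt_min hk₀ hh₀, ?_, ?_⟩
  · intro k hk hkm
    have := hK k hk (lt_of_lt_of_le hkm (min_le_left _ _))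
    rw [LamS_eq, LamS_eq]
    have e1 : 2 / (-D2 S.u (τ₀, ϑ₀)) = 4 * (1 / (2 * (-D2 S.u (τ₀, ϑ₀)))) := by
      field_simp
      ring
    rw [e1]
    nlinarith
  · intro h hh
    have := hH h (lt_of_lt_of_le hh (min_le_right _ _))
    rw [LamS_eq, LamS_eq]
    nlinarith

end Pool.Agent.Helper25.PCap
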