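import Pool.Agent.Helper25.PCap.GoalsB

/-!
Packet B6 (helper34): one variable contradiction lemma.
-/

set_option autoImplicit false

open MeasureTheory Set Filter Topology
open scoped ContDiff Real

noncomputable section

namespace Pool.Agent.Helper25.PCap

namespace PkB6

/-- cut-off density -/
def ph (m : ℕ) (t : ℝ) : ℝ := max 0 (1 - (2 * t - 1) ^ (2 * m))

lemma ph_cont (m : ℕ) : Continuous (ph m) := by
  unfold ph
  fun_prop

lemma ph_nonneg (m : ℕ) (t : ℝ) : 0 ≤ ph m t := le_max_left _ _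

lemma ph_le_one (m : ℕ) (t : ℝ) : ph m t ≤ 1 := by
  unfold ph
  have : 0 ≤ (2 * t - 1) ^ (2 * m) := by
    rw [pow_mul]; positivity
  exact max_le zero_le_one (by linarith)

lemma ph_zero_of_le (m : ℕ) {t : ℝ} (h : t ≤ 0) : ph m t = 0 := by
  unfold ph
  have h1 : 1 ≤ (2 * t - 1) ^ 2 := by nlinarith
  have h2 : 1 ≤ ((2 * t - 1) ^ 2) ^ m := one_le_pow₀ h1
  rw [pow_mul]
  exact max_eq_left (by linarith)

lemma ph_zero_of_ge (m : ℕ) {t : ℝ} (h : 1 ≤ t) : ph m t = 0 := by
  unfold ph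
  have h1 : 1 ≤ (2 * t - 1) ^ 2 := by nlinarith
  have h2 : 1 ≤ ((2 * t - 1) ^ 2) ^ m := one_le_pow₀ h1
  rw [pow_mul]
  exact max_eq_left (by linarith)

/-- primitive of the cut-off density -/
def Ph (m : ℕ) (x : ℝ) : ℝ := ∫ t in (0 : ℝ)..x, ph m t

lemma Ph_hasDeriv (m : ℕ) (x : ℝ) : HasDerivAt (Ph m) (ph m x) x :=
  intervalIntegral.integral_hasDerivAt_right ((ph_cont m).intervalIntegrable _ _)
    ((ph_cont m).stronglyMeasurableAtFilter _ _) (ph_cont m).continuousAt

lemma Ph_cont (m : ℕ) : Continuous (Ph m) :=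
  continuous_iff_continuousAt.2 fun x => (Ph_hasDeriv m x).continuousAt

lemma Ph_zero_of_le (m : ℕ) {x : ℝ} (h : x ≤ 0) : Ph m x = 0 := by
  unfold Ph
  rw [intervalIntegral.integral_symm, intervalIntegral.integral_of_le h]
  have : ∫ t in Ioc x 0, ph m t = ∫ t in Ioc x 0, (0 : ℝ) :=
    setIntegral_congr_fun measurableSet_Ioc fun t ht => ph_zero_of_le m ht.2
  rw [this]; simp

lemma Ph_of_ge (m : ℕ) {x : ℝ} (h : 1 ≤ x) : Ph m x = Ph m 1 := by
  unfold Ph
  rw [← intervalIntegral.integral_add_adjacent_intervals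
    ((ph_cont m).intervalIntegrable 0 1) ((ph_cont m).intervalIntegrable 1 x)]
  have : ∫ t in (1 : ℝ)..x, ph m t = 0 := by
    rw [intervalIntegral.integral_of_le h]
    have : ∫ t in Ioc 1 x, ph m t = ∫ t in Ioc 1 x, (0 : ℝ) :=
      setIntegral_congr_fun measurableSet_Ioc fun t ht => ph_zero_of_ge m ht.1.le
    rw [this]; simp
  rw [this, add_zero]

lemma Ph_mono (m : ℕ) : Monotone (Ph m) := by
  apply monotone_of_deriv_nonneg
  · exact fun x => (Ph_hasDeriv m x).differentiableAt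
  · intro x
    rw [(Ph_hasDeriv m x).deriv]
    exact ph_nonneg m x

lemma Ph_nonneg (m : ℕ) (x : ℝ) : 0 ≤ Ph m x := by
  rcases le_total x 0 with h | h
  · rw [Ph_zero_of_le m h]
  · have := Ph_mono m h
    rwa [Ph_zero_of_le m le_rfl] at this

lemma Ph_le (m : ℕ) (x : ℝ) : Ph m x ≤ Ph m 1 := by
  rcases le_total x 1 with h | h
  · exact Ph_mono m h
  · rw [Ph_of_ge m h]

lemma Ph_one_le (m : ℕ) : Ph m 1 ≤ 1 := by
  unfold Ph
  have : ∫ t in (0 : ℝ)..1, ph m t ≤ ∫ t in (0 : ℝ)..1, (1 : ℝ) :=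
    intervalIntegral.integral_mono_on zero_le_one ((ph_cont m).intervalIntegrable _ _)
      (continuous_const.intervalIntegrable _ _) fun t _ => ph_le_one m t
  simpa using this

lemma Ph_one_ge (m : ℕ) : 1 - 1 / (2 * m + 1) ≤ Ph m 1 := by
  unfold Ph
  have h1 : ∫ t in (0 : ℝ)..1, (1 - (2 * t - 1) ^ (2 * m)) ≤ ∫ t in (0 : ℝ)..1, ph m t :=
    intervalIntegral.integral_mono_on zero_le_one
      ((by fun_prop : Continuous fun t : ℝ => (1 - (2 * t - 1) ^ (2 * m))).intervalIntegrable _ _)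
      ((ph_cont m).intervalIntegrable _ _) fun t _ => le_max_right _ _
  have h2 : ∀ t : ℝ, HasDerivAt (fun t : ℝ => t - (2 * t - 1) ^ (2 * m + 1) / (2 * (2 * m + 1)))
      (1 - (2 * t - 1) ^ (2 * m)) t := by
    intro t
    have h3 : HasDerivAt (fun t : ℝ => 2 * t - 1) (2 * 1) t :=
      ((hasDerivAt_id t).const_mul 2).sub_const 1
    have h4 := ((h3.pow (2 * m + 1)).div_const (2 * (2 * (m : ℝ) + 1)))
    have h5 := (hasDerivAt_id t).sub h4
    refine h5.congr_deriv ?_
    have : (2 * (m : ℝ) + 1) ≠ 0 := by positivity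
    simp only [Nat.add_sub_cancel]
    push_cast
    field_simp
  have h3 := intervalIntegral.integral_eq_sub_of_hasDerivAt (a := 0) (b := 1)
    (fun t _ => h2 t)
    ((by fun_prop : Continuous fun t : ℝ => (1 - (2 * t - 1) ^ (2 * m))).intervalIntegrable _ _)
  rw [h3] at h1
  have e1 : (2 * (1 : ℝ) - 1) ^ (2 * m + 1) = 1 := by norm_num
  have e2 : (2 * (0 : ℝ) - 1) ^ (2 * m + 1) = -1 := by
    have : (2 * (0 : ℝ) - 1) = -1 := by norm_num
    rw [this, pow_succ, pow_mul]; norm_num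
  rw [e1, e2] at h1
  have h4 : (1 : ℝ) - 1 / (2 * (2 * (m : ℝ) + 1)) - (0 - -1 / (2 * (2 * (m : ℝ) + 1))) =
      1 - 1 / (2 * m + 1) := by
    have : (2 * (m : ℝ) + 1) ≠ 0 := by positivity
    field_simp
    ring
  rw [h4] at h1
  exact h1


section Main

variable {f : ℝ → ℝ} {s₀ : ℝ}

lemma cont_mul (hf : Continuous f) {u g : ℝ → ℝ} (hu : ∀ θ, f θ ≤ s₀ → ContinuousAt u θ)
    (hg : Continuous g) (hg0 : ∀ x ≤ 0, g x = 0) {η : ℝ} (hη : 0 < η) :
    Continuous (fun θ => u θ * g ((s₀ - f θ) / η)) := by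
  rw [continuous_iff_continuousAt]
  intro θ
  by_cases h : f θ ≤ s₀
  · exact (hu θ h).mul (by fun_prop)
  · push Not at h
    have h1 : (fun θ => u θ * g ((s₀ - f θ) / η)) =ᶠ[𝓝 θ] fun _ => 0 := by
      filter_upwards [hf.continuousAt.eventually (lt_mem_nhds h)] with x hx
      rw [hg0 _ (div_nonpos_of_nonpos_of_nonneg (by linarith) hη.le), mul_zero]
    exact (continuousAt_const).congr h1.symm

lemma hasDeriv_vPh (hf : Continuous f) (hfd : ∀ θ, f θ ≤ s₀ → DifferentiableAt ℝ f θ)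
    {v : ℝ → ℝ} (hv : ∀ θ, f θ ≤ s₀ → DifferentiableAt ℝ v θ) (m : ℕ) {η : ℝ} (hη : 0 < η)
    (θ : ℝ) :
    HasDerivAt (fun θ => v θ * Ph m ((s₀ - f θ) / η))
      (deriv v θ * Ph m ((s₀ - f θ) / η) -
        (1 / η) * ((v θ * deriv f θ) * ph m ((s₀ - f θ) / η))) θ := by
  by_cases h : f θ ≤ s₀
  · have h1 := (hv θ h).hasDerivAt
    have h2 := (hfd θ h).hasDerivAt
    have h3 : HasDerivAt (fun θ => (s₀ - f θ) / η) (-(deriv f θ) / η) θ :=
      (h2.const_sub s₀).div_const η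
    have h4 := (Ph_hasDeriv m ((s₀ - f θ) / η)).comp θ h3
    exact (h1.mul h4).congr_deriv (by simp only [Function.comp]; ring)
  · push Not at h
    have h1 : (fun θ => v θ * Ph m ((s₀ - f θ) / η)) =ᶠ[𝓝 θ] fun _ => 0 := by
      filter_upwards [hf.continuousAt.eventually (lt_mem_nhds h)] with x hx
      rw [Ph_zero_of_le _ (div_nonpos_of_nonpos_of_nonneg (by linarith) hη.le), mul_zero]
    have h2 : (s₀ - f θ) / η ≤ 0 := div_nonpos_of_nonpos_of_nonneg (by linarith) hη.le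
    rw [Ph_zero_of_le _ h2, ph_zero_of_le _ h2]
    simp only [mul_zero, sub_zero]
    exact (hasDerivAt_const θ (0 : ℝ)).congr_of_eventuallyEq h1

lemma ibp (hf : Continuous f) (hfper : ∀ θ, f (θ + 2 * π) = f θ)
    (hfd : ∀ θ, f θ ≤ s₀ → ContDiffAt ℝ 1 f θ) {v : ℝ → ℝ}
    (hvper : ∀ θ, v (θ + 2 * π) = v θ)
    (hv : ∀ θ, f θ ≤ s₀ → ContDiffAt ℝ 1 v θ) (m : ℕ) {η : ℝ} (hη : 0 < η) :
    ∫ θ in (0 : ℝ)..(2 * π), deriv v θ * Ph m ((s₀ - f θ) / η) =
      (1 / η) * ∫ θ in (0 : ℝ)..(2 * π), (v θ * deriv f θ) * ph m ((s₀ - f θ) / η) := by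
  have c1 : Continuous (fun θ => deriv v θ * Ph m ((s₀ - f θ) / η)) :=
    cont_mul hf (fun θ h => ((hv θ h).derivWithin (m := 0) (by norm_num)).continuousAt)
      (Ph_cont m) (fun x hx => Ph_zero_of_le m hx) hη
  have c2 : Continuous (fun θ => (v θ * deriv f θ) * ph m ((s₀ - f θ) / η)) :=
    cont_mul hf (fun θ h => ((hv θ h).continuousAt).mul
      ((hfd θ h).derivWithin (m := 0) (by norm_num)).continuousAt)
      (ph_cont m) (fun x hx => ph_zero_of_le m hx) hη
  have c3 : Continuous (fun θ => 1 / η * ((v θ * deriv f θ) * ph m ((s₀ - f θ) / η))) :=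
    continuous_const.mul c2
  have h1 := intervalIntegral.integral_eq_sub_of_hasDerivAt (a := 0) (b := 2 * π)
    (fun θ _ => hasDeriv_vPh hf (fun θ h => (hfd θ h).differentiableAt (by norm_num))
      (fun θ h => (hv θ h).differentiableAt (by norm_num)) m hη θ)
    ((c1.sub c3).intervalIntegrable _ _)
  rw [intervalIntegral.integral_sub (c1.intervalIntegrable _ _)
    (c3.intervalIntegrable _ _), intervalIntegral.integral_const_mul] at h1
  have e1 : f (2 * π) = f 0 := by simpa using hfper 0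
  have e2 : v (2 * π) = v 0 := by simpa using hvper 0
  rw [e1, e2, sub_self] at h1
  linarith

lemma bound_deriv (hf : Continuous f) {v : ℝ → ℝ}
    (hv : ∀ θ, f θ ≤ s₀ → ContDiffAt ℝ 1 v θ) :
    ∃ M : ℝ, 0 ≤ M ∧ ∀ θ ∈ Icc 0 (2 * π), f θ ≤ s₀ → |deriv v θ| ≤ M := by
  have hK : IsCompact (Icc 0 (2 * π) ∩ {θ | f θ ≤ s₀}) :=
    isCompact_Icc.inter_right (isClosed_le hf continuous_const)
  have hc : ContinuousOn (deriv v) (Icc 0 (2 * π) ∩ {θ | f θ ≤ s₀}) := fun θ h =>
    ((hv θ h.2).derivWithin (m := 0) (by norm_num)).continuousAt.continuousWithinAt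
  obtain ⟨M, hM⟩ := hK.exists_bound_of_continuousOn hc
  exact ⟨max M 0, le_max_right _ _, fun θ h1 h2 => (hM θ ⟨h1, h2⟩).trans (le_max_left _ _)⟩

lemma lim_Ph (hf : Continuous f) {v : ℝ → ℝ}
    (hv : ∀ θ, f θ ≤ s₀ → ContDiffAt ℝ 1 v θ) (m : ℕ) :
    Tendsto (fun η : ℝ => ∫ θ in (0 : ℝ)..(2 * π), deriv v θ * Ph m ((s₀ - f θ) / η))
      (𝓝[>] 0) (𝓝 (Ph m 1 * ∫ θ in {θ | θ ∈ Ioc 0 (2 * π) ∧ f θ < s₀}, deriv v θ)) := by
  obtain ⟨M, hM0, hM⟩ := bound_deriv hf hv
  have hpi : (0 : ℝ) ≤ 2 * π := by positivity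
  have e1 : Ph m 1 * ∫ θ in {θ | θ ∈ Ioc 0 (2 * π) ∧ f θ < s₀}, deriv v θ =
      ∫ θ in (0 : ℝ)..(2 * π), ({θ | f θ < s₀}.indicator (fun θ => deriv v θ * Ph m 1)) θ := by
    rw [intervalIntegral.integral_of_le hpi, setIntegral_indicator (measurableSet_lt hf.measurable
      measurable_const), integral_mul_const, mul_comm]
    rfl
  rw [e1]
  refine intervalIntegral.tendsto_integral_filter_of_dominated_convergence (fun _ => M) ?_ ?_ ?_ ?_
  · filter_upwards [self_mem_nhdsWithin] with η hη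
    have hη' : 0 < η := hη
    exact (cont_mul hf (fun θ h => ((hv θ h).derivWithin (m := 0) (by norm_num)).continuousAt)
      (Ph_cont m) (fun x hx => Ph_zero_of_le m hx) hη').aestronglyMeasurable
  · filter_upwards [self_mem_nhdsWithin] with η hη
    have hη' : 0 < η := hη
    refine Eventually.of_forall fun θ hθ => ?_
    rw [uIoc_of_le hpi] at hθ
    by_cases h : f θ ≤ s₀
    · rw [norm_mul, Real.norm_eq_abs, Real.norm_eq_abs]
      have a1 := hM θ ⟨hθ.1.le, hθ.2⟩ h
      have a2 : |Ph m ((s₀ - f θ) / η)| ≤ 1 := by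
        rw [abs_of_nonneg (Ph_nonneg _ _)]
        exact (Ph_le _ _).trans (Ph_one_le m)
      calc |deriv v θ| * |Ph m ((s₀ - f θ) / η)| ≤ M * 1 :=
            mul_le_mul a1 a2 (abs_nonneg _) hM0
        _ = M := mul_one M
    · push Not at h
      rw [Ph_zero_of_le _ (div_nonpos_of_nonpos_of_nonneg (by linarith) hη'.le), mul_zero, norm_zero]
      exact hM0
  · exact continuous_const.intervalIntegrable _ _
  · refine Eventually.of_forall fun θ _ => ?_
    by_cases h : f θ < s₀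
    · rw [indicator_of_mem (by exact h)]
      refine tendsto_const_nhds.congr' ?_
      have h0 : 0 < s₀ - f θ := by linarith
      filter_upwards [Ioo_mem_nhdsGT h0] with η hη
      rw [Ph_of_ge m (x := (s₀ - f θ) / η)]
      rw [le_div_iff₀ hη.1]
      linarith [hη.2]
    · rw [indicator_of_notMem (by exact h)]
      refine tendsto_const_nhds.congr' ?_
      push Not at h
      filter_upwards [self_mem_nhdsWithin] with η hη
      have hη' : 0 < η := hη
      rw [Ph_zero_of_le _ (div_nonpos_of_nonpos_of_nonneg (by linarith) hη'.le), mul_zero]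

lemma inner_bound (m : ℕ) {k : ℝ} (_hk : 0 < k) (y : ℝ) :
    ∫ η in Ioc 0 k, ph m (y / η) ≤ if 0 < y then max 0 (k - y) else 0 := by
  split_ifs with hy
  · have h1 : ∫ η in Ioc 0 k, ph m (y / η) ≤ ∫ η in Ioc 0 k, (Ici y).indicator (fun _ => (1 : ℝ)) η := by
      apply setIntegral_mono_on
      · refine Integrable.of_bound (C := 1) ?_ ?_
        · exact ((ph_cont m).measurable.comp (measurable_const.div measurable_id)).aestronglyMeasurable
        · exact Eventually.of_forall fun η => by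
            rw [Real.norm_eq_abs, abs_of_nonneg (ph_nonneg _ _)]; exact ph_le_one _ _
      · exact (integrable_const (1 : ℝ)).indicator measurableSet_Ici
      · exact measurableSet_Ioc
      · intro η hη
        by_cases h : y ≤ η
        · rw [indicator_of_mem (by exact h)]; exact ph_le_one _ _
        · rw [indicator_of_notMem (by exact h)]
          push Not at h
          rw [ph_zero_of_ge]
          rw [le_div_iff₀ hη.1]
          linarith
    refine h1.trans ?_
    rw [setIntegral_indicator measurableSet_Ici, setIntegral_const]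
    have h2 : Ioc 0 k ∩ Ici y = Icc y k := by
      ext η
      simp only [mem_inter_iff, mem_Ioc, mem_Ici, mem_Icc]
      constructor
      · rintro ⟨⟨_, h⟩, h'⟩; exact ⟨h', h⟩
      · rintro ⟨h, h'⟩; exact ⟨⟨by linarith, h'⟩, h⟩
    rw [h2, smul_eq_mul, mul_one, Measure.real, Real.volume_Icc]
    rcases le_total y k with h | h
    · rw [ENNReal.toReal_ofReal (by linarith)]; exact le_max_right _ _
    · rw [ENNReal.ofReal_of_nonpos (by linarith)]; simp
  · push Not at hy
    have : ∫ η in Ioc 0 k, ph m (y / η) = ∫ η in Ioc 0 k, (0 : ℝ) :=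
      setIntegral_congr_fun measurableSet_Ioc fun η hη =>
        ph_zero_of_le m (div_nonpos_of_nonpos_of_nonneg hy hη.1.le)
    rw [this]; simp

lemma J_bound (hf : Continuous f) (m : ℕ) {k : ℝ} (hk : 0 < k) :
    ∫ η in Ioc 0 k, (∫ θ in Ioc 0 (2 * π), ph m ((s₀ - f θ) / η)) ≤
      ∫ θ in {θ | θ ∈ Ioc 0 (2 * π) ∧ f θ < s₀}, max 0 (k - (s₀ - f θ)) := by
  have hint : Integrable (Function.uncurry fun η θ => ph m ((s₀ - f θ) / η))
      ((volume.restrict (Ioc 0 k)).prod (volume.restrict (Ioc 0 (2 * π)))) := by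
    refine Integrable.of_bound (C := 1) ?_ ?_
    · refine Measurable.aestronglyMeasurable ?_
      exact (ph_cont m).measurable.comp
        ((measurable_const.sub (hf.measurable.comp measurable_snd)).div measurable_fst)
    · exact Eventually.of_forall fun p => by
        simp only [Function.uncurry]
        rw [Real.norm_eq_abs, abs_of_nonneg (ph_nonneg _ _)]; exact ph_le_one _ _
  rw [integral_integral_swap hint]
  have h1 : ∫ θ in {θ | θ ∈ Ioc 0 (2 * π) ∧ f θ < s₀}, max 0 (k - (s₀ - f θ)) =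
      ∫ θ in Ioc 0 (2 * π), ({θ | f θ < s₀}.indicator (fun θ => max 0 (k - (s₀ - f θ)))) θ := by
    rw [setIntegral_indicator (measurableSet_lt hf.measurable measurable_const)]
    rfl
  rw [h1]
  apply integral_mono
  · have := hint.integral_prod_right
    exact this
  · refine Integrable.indicator ?_ (measurableSet_lt hf.measurable measurable_const)
    exact ((by fun_prop : Continuous fun θ => max 0 (k - (s₀ - f θ))).integrableOn_Icc
      (a := 0) (b := 2 * π)).mono_set Ioc_subset_Icc_self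
  · intro θ
    have := inner_bound m hk (s₀ - f θ)
    refine this.trans ?_
    by_cases h : f θ < s₀
    · rw [indicator_of_mem (by exact h), if_pos (by linarith)]
    · rw [indicator_of_notMem (by exact h), if_neg (by linarith)]

lemma exists_W (hf : Continuous f) {w : ℝ → ℝ} {w₀ : ℝ} (hw₀ : 0 < w₀)
    (hw : ∀ θ, f θ ≤ s₀ → ContinuousAt w θ) (h4 : ∀ θ, f θ = s₀ → |w θ| < w₀) :
    ∃ W η₀ : ℝ, 0 ≤ W ∧ W < w₀ ∧ 0 < η₀ ∧
      ∀ θ ∈ Icc 0 (2 * π), s₀ - η₀ < f θ → f θ ≤ s₀ → |w θ| ≤ W := by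
  have hK : IsCompact (Icc 0 (2 * π) ∩ {θ | f θ = s₀}) :=
    isCompact_Icc.inter_right (isClosed_eq hf continuous_const)
  have hc : ContinuousOn (fun θ => |w θ|) (Icc 0 (2 * π) ∩ {θ | f θ = s₀}) := fun θ h =>
    ((hw θ h.2.le).abs).continuousWithinAt
  obtain ⟨W1, hW10, hW1w, hW1⟩ : ∃ W1 : ℝ, 0 ≤ W1 ∧ W1 < w₀ ∧
      ∀ θ ∈ Icc 0 (2 * π) ∩ {θ | f θ = s₀}, |w θ| ≤ W1 := by
    rcases (Icc 0 (2 * π) ∩ {θ | f θ = s₀}).eq_empty_or_nonempty with h | h
    · exact ⟨0, le_rfl, hw₀, fun θ hθ => by rw [h] at hθ; exact absurd hθ (notMem_empty θ)⟩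
    · obtain ⟨θ, hθ, hmax⟩ := hK.exists_isMaxOn h hc
      exact ⟨|w θ|, abs_nonneg _, h4 θ hθ.2, fun x hx => hmax hx⟩
  by_contra hcon
  push Not at hcon
  have hsel : ∀ n : ℕ, ∃ θ ∈ Icc 0 (2 * π), s₀ - 1 / ((n : ℝ) + 1) < f θ ∧ f θ ≤ s₀ ∧
      (W1 + w₀) / 2 < |w θ| := fun n =>
    hcon ((W1 + w₀) / 2) (1 / ((n : ℝ) + 1)) (by linarith) (by linarith) (by positivity)
  choose θs hθI hθ1 hθ2 hθ3 using hsel
  obtain ⟨θ, hθ, φ, hφ, hlim⟩ := isCompact_Icc.tendsto_subseq hθI
  have hf1 : Tendsto (fun n => f (θs (φ n))) atTop (𝓝 (f θ)) := (hf.tendsto θ).comp hlim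
  have hle : f θ ≤ s₀ := le_of_tendsto' hf1 fun n => hθ2 _
  have hge : s₀ ≤ f θ := by
    have h5 : Tendsto (fun n : ℕ => s₀ - 1 / (((φ n : ℕ) : ℝ) + 1)) atTop (𝓝 (s₀ - 0)) := by
      refine tendsto_const_nhds.sub ?_
      exact (tendsto_one_div_add_atTop_nhds_zero_nat (𝕜 := ℝ)).comp hφ.tendsto_atTop
    rw [sub_zero] at h5
    exact le_of_tendsto_of_tendsto' h5 hf1 fun n => (hθ1 _).le
  have hw1 : Tendsto (fun n => |w (θs (φ n))|) atTop (𝓝 |w θ|) :=
    ((hw θ hle).abs.tendsto).comp hlim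
  have h6 : (W1 + w₀) / 2 ≤ |w θ| := ge_of_tendsto' hw1 fun n => (hθ3 _).le
  have h7 := hW1 θ ⟨hθ, le_antisymm hle hge⟩
  linarith

end Main

end PkB6

open PkB6 in
theorem pkB6 : GB6 := by
  intro f w s₀ g w₀ hf hfper hwper hg hw₀ hreg h1 h2 h3 h4
  have hf1 : ∀ θ, f θ ≤ s₀ → ContDiffAt ℝ 1 f θ := fun θ h => (hreg θ h).1.of_le (by norm_num)
  have hw1 : ∀ θ, f θ ≤ s₀ → ContDiffAt ℝ 1 w θ := fun θ h => (hreg θ h).2
  have hdf : ∀ θ, f θ ≤ s₀ → ContDiffAt ℝ 1 (deriv f) θ := fun θ h =>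
    (hreg θ h).1.derivWithin (by norm_num)
  have hdfper : ∀ θ, deriv f (θ + 2 * π) = deriv f θ := by
    intro θ
    have : (fun x => f (x + 2 * π)) = f := funext hfper
    rw [← deriv_comp_add_const, this]
  obtain ⟨W, η₀, hW0, hWw, hη₀, hW⟩ := exists_W hf hw₀ (fun θ h => (hw1 θ h).continuousAt) h4
  set d := w₀ - W with hd
  have hd0 : 0 < d := by linarith
  have hpi : (0 : ℝ) ≤ 2 * π := by positivity
  -- choice of m
  obtain ⟨m, hm⟩ : ∃ m : ℕ, 1 / (2 * (m : ℝ) + 1) ≤ d / (4 * w₀) := by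
    obtain ⟨m, hm⟩ := exists_nat_gt (1 / (d / (4 * w₀)))
    refine ⟨m, ?_⟩
    have h5 : 0 < d / (4 * w₀) := by positivity
    rw [div_le_iff₀ (by positivity)]
    rw [div_lt_iff₀ h5] at hm
    nlinarith
  set A := Ph m 1 with hA
  have hA1 : A ≤ 1 := Ph_one_le m
  have hA2 : 1 - d / (4 * w₀) ≤ A := by
    have := Ph_one_ge m
    linarith
  -- limits
  set Iw : ℝ → ℝ := fun η => (1 / η) * ∫ θ in (0 : ℝ)..(2 * π),
    (w θ * deriv f θ) * ph m ((s₀ - f θ) / η) with hIw
  set If : ℝ → ℝ := fun η => (1 / η) * ∫ θ in (0 : ℝ)..(2 * π),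
    (deriv f θ * deriv f θ) * ph m ((s₀ - f θ) / η) with hIf
  have l1 : Tendsto Iw (𝓝[>] 0) (𝓝 (A * -(4 * w₀))) := by
    have := lim_Ph (s₀ := s₀) hf hw1 m
    rw [h1] at this
    refine this.congr' ?_
    filter_upwards [self_mem_nhdsWithin] with η hη
    exact ibp hf hfper hf1 hwper hw1 m hη
  have l2 : Tendsto If (𝓝[>] 0)
      (𝓝 (A * ∫ θ in {θ | θ ∈ Ioc 0 (2 * π) ∧ f θ < s₀}, deriv (deriv f) θ)) := by
    refine (lim_Ph (s₀ := s₀) hf hdf m).congr' ?_
    filter_upwards [self_mem_nhdsWithin] with η hη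
    exact ibp hf hfper hf1 hdfper hdf m hη
  have hA0 : 0 ≤ A := Ph_nonneg _ _
  have hAg : A * ∫ θ in {θ | θ ∈ Ioc 0 (2 * π) ∧ f θ < s₀}, deriv (deriv f) θ ≤ 4 * g := by
    calc _ ≤ A * (4 * g) := mul_le_mul_of_nonneg_left h2 hA0
      _ ≤ 1 * (4 * g) := mul_le_mul_of_nonneg_right hA1 (by positivity)
      _ = 4 * g := one_mul _
  set ε := min (d / 2) (d * g / w₀) with hε
  have hε0 : 0 < ε := lt_min (by positivity) (by positivity)
  have ev1 : ∀ᶠ η in 𝓝[>] (0 : ℝ), Iw η < A * -(4 * w₀) + ε :=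
    l1.eventually (gt_mem_nhds (by linarith))
  have ev2 : ∀ᶠ η in 𝓝[>] (0 : ℝ), If η < 4 * g + ε :=
    l2.eventually (gt_mem_nhds (by linarith))
  obtain ⟨δ, hδ0, hδ⟩ : ∃ δ : ℝ, 0 < δ ∧ ∀ η ∈ Ioo 0 δ,
      Iw η < A * -(4 * w₀) + ε ∧ If η < 4 * g + ε := by
    have := ev1.and ev2
    rw [eventually_nhdsWithin_iff, Metric.eventually_nhds_iff] at this
    obtain ⟨δ, hδ0, hδ⟩ := this
    refine ⟨δ, hδ0, fun η hη => hδ ?_ hη.1⟩
    rw [Real.dist_eq, sub_zero, abs_of_pos hη.1]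
    exact hη.2
  -- e'
  set e' := d / (3 * w₀ * g) with he'
  have he'0 : 0 < e' := by positivity
  obtain ⟨k₀, hk₀, hk⟩ := h3 e' he'0
  set k := min (min (k₀ / 2) (δ / 2)) (η₀ / 2) with hkdef
  have hk0 : 0 < k := lt_min (lt_min (by positivity) (by positivity)) (by positivity)
  have hkk : k < k₀ := by
    have : k ≤ k₀ / 2 := (min_le_left _ _).trans (min_le_left _ _)
    linarith
  have hkδ : k < δ := by
    have : k ≤ δ / 2 := (min_le_left _ _).trans (min_le_right _ _)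
    linarith
  have hkη : k < η₀ := by
    have : k ≤ η₀ / 2 := min_le_right _ _
    linarith
  -- find good η
  obtain ⟨η, hη0, hηk, hJ⟩ : ∃ η : ℝ, 0 < η ∧ η ≤ k ∧
      ∫ θ in Ioc 0 (2 * π), ph m ((s₀ - f θ) / η) ≤ (4 / g + 3 * e') * η := by
    by_contra hcon
    push Not at hcon
    have a1 := (J_bound (s₀ := s₀) hf m hk0).trans (hk k hk0 hkk)
    have a2 : ∫ η in Ioc 0 k, (4 / g + 3 * e') * η ≤
        ∫ η in Ioc 0 k, (∫ θ in Ioc 0 (2 * π), ph m ((s₀ - f θ) / η)) := by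
      apply setIntegral_mono_on
      · exact ((by fun_prop : Continuous fun η : ℝ => (4 / g + 3 * e') * η).integrableOn_Icc
          (a := 0) (b := k)).mono_set Ioc_subset_Icc_self
      · have hint : Integrable (Function.uncurry fun η θ => ph m ((s₀ - f θ) / η))
            ((volume.restrict (Ioc 0 k)).prod (volume.restrict (Ioc 0 (2 * π)))) := by
          refine Integrable.of_bound (C := 1) ?_ ?_
          · refine Measurable.aestronglyMeasurable ?_
            exact (ph_cont m).measurable.comp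
              ((measurable_const.sub (hf.measurable.comp measurable_snd)).div measurable_fst)
          · exact Eventually.of_forall fun p => by
              simp only [Function.uncurry]
              rw [Real.norm_eq_abs, abs_of_nonneg (ph_nonneg _ _)]; exact ph_le_one _ _
        exact hint.integral_prod_left
      · exact measurableSet_Ioc
      · intro η hη
        exact (hcon η hη.1 hη.2).le
    rw [← intervalIntegral.integral_of_le hk0.le, intervalIntegral.integral_const_mul,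
      integral_id] at a2
    have a3 := a2.trans a1
    have : (4 / g + 3 * e') * ((k ^ 2 - 0 ^ 2) / 2) = (2 / g + 3 / 2 * e') * k ^ 2 := by ring
    rw [this] at a3
    have a4 : 0 < e' * k ^ 2 := by positivity
    nlinarith
  have hηδ := hδ η ⟨hη0, lt_of_le_of_lt hηk hkδ⟩
  -- the key inequality
  have cw : Continuous (fun θ => (w θ * deriv f θ) * ph m ((s₀ - f θ) / η)) :=
    cont_mul hf (fun θ h => ((hw1 θ h).continuousAt).mul (hdf θ h).continuousAt)
      (ph_cont m) (fun x hx => ph_zero_of_le m hx) hη0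
  have cf : Continuous (fun θ => (deriv f θ * deriv f θ) * ph m ((s₀ - f θ) / η)) :=
    cont_mul hf (fun θ h => ((hdf θ h).continuousAt).mul (hdf θ h).continuousAt)
      (ph_cont m) (fun x hx => ph_zero_of_le m hx) hη0
  have cp : Continuous (fun θ => ph m ((s₀ - f θ) / η)) := (ph_cont m).comp (by fun_prop)
  have key : -∫ θ in (0 : ℝ)..(2 * π), (w θ * deriv f θ) * ph m ((s₀ - f θ) / η) ≤
      ∫ θ in (0 : ℝ)..(2 * π), (W / 2 * (g * ph m ((s₀ - f θ) / η) +
        1 / g * ((deriv f θ * deriv f θ) * ph m ((s₀ - f θ) / η)))) := by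
    rw [← intervalIntegral.integral_neg]
    apply intervalIntegral.integral_mono_on hpi (cw.neg.intervalIntegrable _ _)
      ((by fun_prop : Continuous _).intervalIntegrable _ _)
    intro θ hθ
    by_cases hy : f θ < s₀
    · by_cases hy2 : s₀ - f θ < η
      · have b1 := hW θ hθ (by linarith) hy.le
        set p := ph m ((s₀ - f θ) / η)
        have hp : 0 ≤ p := ph_nonneg _ _
        set q := deriv f θ
        have b2 : -(w θ * q) ≤ W * |q| := by
          calc -(w θ * q) ≤ |w θ * q| := neg_le_abs _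
            _ = |w θ| * |q| := abs_mul _ _
            _ ≤ W * |q| := mul_le_mul_of_nonneg_right b1 (abs_nonneg _)
        have b3 : |q| ≤ (g + 1 / g * (q * q)) / 2 := by
          have : 0 ≤ (g - |q|) ^ 2 / g := by positivity
          have e : (g - |q|) ^ 2 / g = g - 2 * |q| + 1 / g * (q * q) := by
            rw [← abs_mul_abs_self q]
            field_simp
            ring
          linarith
        have b4 : W * |q| ≤ W * ((g + 1 / g * (q * q)) / 2) := mul_le_mul_of_nonneg_left b3 hW0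
        have b5 : -(w θ * q) * p ≤ W * ((g + 1 / g * (q * q)) / 2) * p :=
          mul_le_mul_of_nonneg_right (b2.trans b4) hp
        calc -(w θ * q * p) = -(w θ * q) * p := by ring
          _ ≤ _ := b5
          _ = _ := by ring
      · push Not at hy2
        have : ph m ((s₀ - f θ) / η) = 0 := ph_zero_of_ge m (by rw [le_div_iff₀ hη0]; linarith)
        simp [this]
    · push Not at hy
      have : ph m ((s₀ - f θ) / η) = 0 :=
        ph_zero_of_le m (div_nonpos_of_nonpos_of_nonneg (by linarith) hη0.le)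
      simp [this]
  rw [intervalIntegral.integral_const_mul, intervalIntegral.integral_add
    ((by fun_prop : Continuous _).intervalIntegrable _ _)
    ((by fun_prop : Continuous _).intervalIntegrable _ _), intervalIntegral.integral_const_mul,
    intervalIntegral.integral_const_mul] at key
  have hJ' : ∫ θ in (0 : ℝ)..(2 * π), ph m ((s₀ - f θ) / η) ≤ (4 / g + 3 * e') * η := by
    rw [intervalIntegral.integral_of_le hpi]; exact hJ
  have hIwη : Iw η = (1 / η) * ∫ θ in (0 : ℝ)..(2 * π),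
    (w θ * deriv f θ) * ph m ((s₀ - f θ) / η) := rfl
  have hIfη : If η = (1 / η) * ∫ θ in (0 : ℝ)..(2 * π),
    (deriv f θ * deriv f θ) * ph m ((s₀ - f θ) / η) := rfl
  set X := ∫ θ in (0 : ℝ)..(2 * π), (w θ * deriv f θ) * ph m ((s₀ - f θ) / η)
  set Y := ∫ θ in (0 : ℝ)..(2 * π), (deriv f θ * deriv f θ) * ph m ((s₀ - f θ) / η)
  set Z := ∫ θ in (0 : ℝ)..(2 * π), ph m ((s₀ - f θ) / η)
  have hX : X = η * Iw η := by rw [hIwη]; field_simp
  have hY : Y = η * If η := by rw [hIfη]; field_simp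
  have k1 : -(Iw η) ≤ W / 2 * (g * (4 / g + 3 * e') + 1 / g * If η) := by
    have : η * (-(Iw η)) ≤ η * (W / 2 * (g * (4 / g + 3 * e') + 1 / g * If η)) := by
      calc η * (-(Iw η)) = -X := by rw [hX]; ring
        _ ≤ W / 2 * (g * Z + 1 / g * Y) := key
        _ ≤ W / 2 * (g * ((4 / g + 3 * e') * η) + 1 / g * Y) := by
            apply mul_le_mul_of_nonneg_left _ (by positivity)
            have := mul_le_mul_of_nonneg_left hJ' hg.le
            linarith
        _ = _ := by rw [hY]; ring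
    exact le_of_mul_le_mul_left this hη0
  have k2 : W / 2 * (g * (4 / g + 3 * e') + 1 / g * If η) ≤
      W / 2 * (g * (4 / g + 3 * e') + 1 / g * (4 * g + ε)) := by
    apply mul_le_mul_of_nonneg_left _ (by positivity)
    have := mul_le_mul_of_nonneg_left hηδ.2.le (by positivity : 0 ≤ 1 / g)
    linarith
  have k3 : g * (4 / g + 3 * e') + 1 / g * (4 * g + ε) = 8 + 3 * g * e' + ε / g := by
    field_simp; ring
  rw [k3] at k2
  have k4 : 3 * g * e' = d / w₀ := by rw [he']; field_simp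
  have k5 : ε / g ≤ d / w₀ := by
    rw [div_le_iff₀ hg]
    calc ε ≤ d * g / w₀ := min_le_right _ _
      _ = d / w₀ * g := by ring
  have k6 : W / 2 * (8 + 3 * g * e' + ε / g) ≤ 4 * W + W * (d / w₀) := by
    rw [k4]
    have := mul_le_mul_of_nonneg_left k5 (by positivity : 0 ≤ W / 2)
    nlinarith
  have k7 : W * (d / w₀) ≤ d := by
    rw [mul_div_assoc', div_le_iff₀ hw₀]
    nlinarith
  have k8 : A * (4 * w₀) ≥ 4 * w₀ - d := by
    have := mul_le_mul_of_nonneg_right hA2 (by positivity : 0 ≤ 4 * w₀)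
    have e : (1 - d / (4 * w₀)) * (4 * w₀) = 4 * w₀ - d := by field_simp
    linarith
  have k9 : ε ≤ d / 2 := min_le_left _ _
  have := hηδ.1
  nlinarith

end Pool.Agent.Helper25.PCap
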