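import Pool.Agent.Helper25.PCap.GoalsS

/-!
MP_576c25_an, packet BAR (handoff 1343): the barrier `fB`.  (helper86)
-/

set_option autoImplicit false

open MeasureTheory Set Filter Topology
open scoped ContDiff Real

noncomputable section

namespace Pool.Agent.Helper25.PCap

namespace BAR

/-- `Φ(w) = √(1 − e^{2w})` -/
def Phi (w : ℂ) : ℂ := (1 - Complex.exp (2 * w)) ^ ((2 : ℂ)⁻¹)

/-- `w = √κ τ + i θ` -/
def ww (κ : ℝ) (z : ℝ × ℝ) : ℂ := (Real.sqrt κ * z.1 : ℝ) + (z.2 : ℝ) * Complex.I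

lemma Phi_sq (w : ℂ) : Phi w ^ 2 = 1 - Complex.exp (2 * w) := by
  unfold Phi
  have := Complex.cpow_nat_inv_pow (1 - Complex.exp (2 * w)) (n := 2) (by norm_num)
  exact_mod_cast this

lemma sqrt_re (ζ : ℂ) : (ζ ^ ((2 : ℂ)⁻¹)).re = Real.sqrt ((‖ζ‖ + ζ.re) / 2) := by
  set s : ℂ := ζ ^ ((2 : ℂ)⁻¹) with hs
  have hsq : s ^ 2 = ζ := by
    have := Complex.cpow_nat_inv_pow ζ (n := 2) (by norm_num)
    rw [hs]
    exact_mod_cast this
  have hre : 0 ≤ s.re := by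
    by_cases h0 : ζ = 0
    · rw [hs, h0, Complex.zero_cpow (by norm_num)]; simp
    · rw [hs, Complex.cpow_def_of_ne_zero h0, Complex.exp_re]
      apply mul_nonneg (Real.exp_pos _).le
      have him : (Complex.log ζ * (2 : ℂ)⁻¹).im = ζ.arg / 2 := by
        have : (2 : ℂ)⁻¹ = ((2 : ℝ)⁻¹ : ℝ) := by norm_num
        rw [this, Complex.mul_im]
        simp [Complex.log_im]
        ring
      rw [him]
      apply Real.cos_nonneg_of_mem_Icc
      have h1 := Complex.neg_pi_lt_arg ζ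
      have h2 := Complex.arg_le_pi ζ
      constructor <;> linarith
  have hn : ‖ζ‖ = s.re ^ 2 + s.im ^ 2 := by
    rw [← hsq, norm_pow, Complex.sq_norm, Complex.normSq_apply]; ring
  have hr : ζ.re = s.re ^ 2 - s.im ^ 2 := by
    rw [← hsq, pow_two, Complex.mul_re]; ring
  rw [hn, hr]
  have : (s.re ^ 2 + s.im ^ 2 + (s.re ^ 2 - s.im ^ 2)) / 2 = s.re ^ 2 := by ring
  rw [this, Real.sqrt_sq hre]

lemma zeta_re (κ : ℝ) (z : ℝ × ℝ) : (1 - Complex.exp (2 * ww κ z)).re = zr κ z := by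
  unfold ww zr
  rw [Complex.sub_re, Complex.exp_re]
  simp [mul_assoc]

lemma zeta_im (κ : ℝ) (z : ℝ × ℝ) : (1 - Complex.exp (2 * ww κ z)).im = zi κ z := by
  unfold ww zi
  rw [Complex.sub_im, Complex.exp_im]
  simp [mul_assoc]

lemma fB_eq (κ : ℝ) (z : ℝ × ℝ) : fB κ z = (Phi (ww κ z)).re := by
  unfold Phi
  rw [sqrt_re, Complex.norm_eq_sqrt_sq_add_sq, zeta_re, zeta_im]
  rfl

lemma isOpen_SC : IsOpen SC := by
  have h1 : IsOpen {z : ℝ × ℝ | z.1 < 0} := isOpen_lt continuous_fst continuous_const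
  have h2 : IsOpen {z : ℝ × ℝ | Real.sin z.2 ≠ 0} :=
    isOpen_ne_fun (Real.continuous_sin.comp continuous_snd) continuous_const
  exact h1.union h2

lemma slit (κ : ℝ) (hκ : 0 < κ) (z : ℝ × ℝ) (hz : z ∈ SC) : 0 < zr κ z ∨ zi κ z ≠ 0 := by
  have hs : 0 < Real.sqrt κ := Real.sqrt_pos.mpr hκ
  rcases hz with h | h
  · left
    unfold zr
    have h1 : Real.exp (2 * Real.sqrt κ * z.1) < 1 := by
      rw [Real.exp_lt_one_iff]
      have : Real.sqrt κ * z.1 < 0 := mul_neg_of_pos_of_neg hs h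
      linarith
    have h2 := Real.cos_le_one (2 * z.2)
    have h3 := Real.exp_pos (2 * Real.sqrt κ * z.1)
    nlinarith
  · by_cases hc : Real.cos z.2 = 0
    · left
      unfold zr
      rw [Real.cos_two_mul, hc]
      have h3 := Real.exp_pos (2 * Real.sqrt κ * z.1)
      nlinarith
    · right
      unfold zi
      rw [Real.sin_two_mul]
      have h3 := (Real.exp_pos (2 * Real.sqrt κ * z.1)).ne'
      simp [h, hc, h3]

lemma arg_pos (κ : ℝ) (hκ : 0 < κ) (z : ℝ × ℝ) (hz : z ∈ SC) :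
    0 < Real.sqrt ((zr κ z) ^ 2 + (zi κ z) ^ 2) + zr κ z := by
  rcases slit κ hκ z hz with h | h
  · have := Real.sqrt_nonneg ((zr κ z) ^ 2 + (zi κ z) ^ 2)
    linarith
  · have h1 : |zr κ z| < Real.sqrt ((zr κ z) ^ 2 + (zi κ z) ^ 2) := by
      rw [← Real.sqrt_sq_eq_abs]
      apply Real.sqrt_lt_sqrt (sq_nonneg _)
      have : 0 < (zi κ z) ^ 2 := by positivity
      linarith
    have h2 := neg_abs_le (zr κ z)
    linarith

lemma sq_pos (κ : ℝ) (hκ : 0 < κ) (z : ℝ × ℝ) (hz : z ∈ SC) :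
    (zr κ z) ^ 2 + (zi κ z) ^ 2 ≠ 0 := by
  rcases slit κ hκ z hz with h | h
  · have : 0 < (zr κ z) ^ 2 := by positivity
    have h2 := sq_nonneg (zi κ z)
    intro h3; linarith
  · have : 0 < (zi κ z) ^ 2 := by positivity
    have h2 := sq_nonneg (zr κ z)
    intro h3; linarith

lemma slitPlane (κ : ℝ) (hκ : 0 < κ) (z : ℝ × ℝ) (hz : z ∈ SC) :
    1 - Complex.exp (2 * ww κ z) ∈ Complex.slitPlane := by
  rw [Complex.mem_slitPlane_iff, zeta_re, zeta_im]
  exact slit κ hκ z hz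

lemma cont_zr (κ : ℝ) : ContDiff ℝ ∞ (zr κ) := by
  unfold zr
  fun_prop

lemma cont_zi (κ : ℝ) : ContDiff ℝ ∞ (zi κ) := by
  unfold zi
  fun_prop

lemma fB_smooth (κ : ℝ) (hκ : 0 < κ) : ContDiffOn ℝ ∞ (fB κ) SC := by
  intro z hz
  apply ContDiffAt.contDiffWithinAt
  unfold fB
  apply ContDiffAt.sqrt
  · apply ContDiffAt.div_const
    apply ContDiffAt.add
    · apply ContDiffAt.sqrt
      · exact (((cont_zr κ).pow 2).add ((cont_zi κ).pow 2)).contDiffAt
      · exact sq_pos κ hκ z hz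
    · exact (cont_zr κ).contDiffAt
  · have := arg_pos κ hκ z hz
    positivity

/-- derivative of `z ↦ Re Ψ(w(z))` -/
lemma hasFD (κ : ℝ) (Ψ : ℂ → ℂ) (Ψ' : ℂ) (z : ℝ × ℝ) (h : HasDerivAt Ψ Ψ' (ww κ z)) :
    D1 (fun z => (Ψ (ww κ z)).re) z = Real.sqrt κ * Ψ'.re ∧
    D2 (fun z => (Ψ (ww κ z)).re) z = -Ψ'.im := by
  have hw : HasFDerivAt (ww κ) ((Real.sqrt κ) • (Complex.ofRealCLM.comp (ContinuousLinearMap.fst ℝ ℝ ℝ))
      + (Complex.I) • (Complex.ofRealCLM.comp (ContinuousLinearMap.snd ℝ ℝ ℝ))) z := by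
    have h1 : HasFDerivAt (fun z : ℝ × ℝ => (z.1 : ℂ)) (Complex.ofRealCLM.comp (ContinuousLinearMap.fst ℝ ℝ ℝ)) z :=
      (Complex.ofRealCLM.comp (ContinuousLinearMap.fst ℝ ℝ ℝ)).hasFDerivAt
    have h2 : HasFDerivAt (fun z : ℝ × ℝ => (z.2 : ℂ)) (Complex.ofRealCLM.comp (ContinuousLinearMap.snd ℝ ℝ ℝ)) z :=
      (Complex.ofRealCLM.comp (ContinuousLinearMap.snd ℝ ℝ ℝ)).hasFDerivAt
    have h3 := (h1.const_smul (Real.sqrt κ)).add (h2.const_smul Complex.I)
    refine h3.congr_of_eventuallyEq (Filter.Eventually.of_forall fun x => ?_)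
    simp [ww, mul_comm]
  have hc : HasFDerivAt (fun z => (Ψ (ww κ z)).re) _ z :=
    Complex.reCLM.hasFDerivAt.comp z ((h.hasFDerivAt.restrictScalars ℝ).comp z hw)
  unfold D1 D2
  rw [hc.fderiv]
  constructor
  · simp
  · simp

/-- derivative of `Φ` -/
lemma hasDerivPhi (w : ℂ) (hw : 1 - Complex.exp (2 * w) ∈ Complex.slitPlane) :
    HasDerivAt Phi (Phi w - 1 / Phi w) w := by
  have h1 : HasDerivAt (fun w : ℂ => 1 - Complex.exp (2 * w)) (-(Complex.exp (2 * w) * 2)) w := by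
    have := ((hasDerivAt_id w).const_mul (2 : ℂ)).cexp.const_sub (1 : ℂ)
    simpa using this
  have h2 := h1.cpow_const (c := (2 : ℂ)⁻¹) hw
  have hne : (1 - Complex.exp (2 * w)) ≠ 0 := Complex.slitPlane_ne_zero hw
  have hsq := Phi_sq w
  have hP : Phi w ≠ 0 := by
    intro h0
    rw [h0] at hsq
    exact hne (by rw [← hsq]; ring)
  have h3 : (1 - Complex.exp (2 * w)) ^ ((2 : ℂ)⁻¹ - 1) = 1 / Phi w := by
    rw [Complex.cpow_sub _ _ hne, Complex.cpow_one]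
    change Phi w / _ = _
    rw [← hsq]
    field_simp
  have h4 : (2 : ℂ)⁻¹ * (1 - Complex.exp (2 * w)) ^ ((2 : ℂ)⁻¹ - 1) * (-(Complex.exp (2 * w) * 2))
      = Phi w - 1 / Phi w := by
    rw [h3]
    have : Complex.exp (2 * w) = 1 - Phi w ^ 2 := by rw [hsq]; ring
    rw [this]
    field_simp
    ring
  rw [← h4]
  exact h2

lemma D1_fB (κ : ℝ) (hκ : 0 < κ) (z : ℝ × ℝ) (hz : z ∈ SC) :
    D1 (fB κ) z = Real.sqrt κ * (Phi (ww κ z) - 1 / Phi (ww κ z)).re ∧
    D2 (fB κ) z = -(Phi (ww κ z) - 1 / Phi (ww κ z)).im := by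
  have h := hasFD κ Phi _ z (hasDerivPhi _ (slitPlane κ hκ z hz))
  have he : (fun z => (Phi (ww κ z)).re) = fB κ := by
    funext z; rw [fB_eq]
  rw [he] at h
  exact h

lemma Phi_ne (κ : ℝ) (hκ : 0 < κ) (z : ℝ × ℝ) (hz : z ∈ SC) : Phi (ww κ z) ≠ 0 := by
  intro h0
  have := Phi_sq (ww κ z)
  rw [h0] at this
  exact Complex.slitPlane_ne_zero (slitPlane κ hκ z hz) (by rw [← this]; ring)

lemma laplace (κ : ℝ) (hκ : 0 < κ) (z : ℝ × ℝ) (hz : z ∈ SC) :
    D1 (D1 (fB κ)) z + κ * D2 (D2 (fB κ)) z = 0 := by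
  set P := Phi (ww κ z) with hP
  have hPne : P ≠ 0 := Phi_ne κ hκ z hz
  have hd := hasDerivPhi _ (slitPlane κ hκ z hz)
  -- derivative of Φ - 1/Φ
  have hd2 : HasDerivAt (fun w => Phi w - 1 / Phi w)
      ((P - 1 / P) - (0 * P - 1 * (P - 1 / P)) / P ^ 2) (ww κ z) := by
    have h1 := (hasDerivAt_const (ww κ z) (1 : ℂ)).div hd hPne
    exact hd.sub h1
  set A := ((P - 1 / P) - (0 * P - 1 * (P - 1 / P)) / P ^ 2) with hA
  have e1 : D1 (fB κ) =ᶠ[𝓝 z] fun z => ((Real.sqrt κ : ℂ) * (Phi (ww κ z) - 1 / Phi (ww κ z))).re := by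
    filter_upwards [isOpen_SC.mem_nhds hz] with y hy
    rw [(D1_fB κ hκ y hy).1]
    simp
  have e2 : D2 (fB κ) =ᶠ[𝓝 z] fun z => (Complex.I * (Phi (ww κ z) - 1 / Phi (ww κ z))).re := by
    filter_upwards [isOpen_SC.mem_nhds hz] with y hy
    rw [(D1_fB κ hκ y hy).2]
    simp
  have f1 := (hasFD κ (fun w => (Real.sqrt κ : ℂ) * (Phi w - 1 / Phi w)) _ z
    (hd2.const_mul (Real.sqrt κ : ℂ))).1
  have f2 := (hasFD κ (fun w => Complex.I * (Phi w - 1 / Phi w)) _ z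
    (hd2.const_mul Complex.I)).2
  have g1 : D1 (D1 (fB κ)) z = D1 (fun z => ((Real.sqrt κ : ℂ) * (Phi (ww κ z) - 1 / Phi (ww κ z))).re) z := by
    change fderiv ℝ (D1 (fB κ)) z (1, 0) = fderiv ℝ _ z (1, 0)
    rw [e1.fderiv_eq]
  have g2 : D2 (D2 (fB κ)) z = D2 (fun z => (Complex.I * (Phi (ww κ z) - 1 / Phi (ww κ z))).re) z := by
    change fderiv ℝ (D2 (fB κ)) z (0, 1) = fderiv ℝ _ z (0, 1)
    rw [e2.fderiv_eq]
  rw [g1, g2, f1, f2]
  have hk : Real.sqrt κ * Real.sqrt κ = κ := Real.mul_self_sqrt hκ.le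
  rw [Complex.mul_im, Complex.mul_re]
  simp only [Complex.ofReal_re, Complex.ofReal_im, Complex.I_re, Complex.I_im]
  linear_combination A.re * hk

lemma D1_le (κ : ℝ) (hκ : 0 < κ) (z : ℝ × ℝ) (hz : z ∈ SC) :
    D1 (fB κ) z ≤ Real.sqrt κ * fB κ z := by
  rw [(D1_fB κ hκ z hz).1, fB_eq]
  apply mul_le_mul_of_nonneg_left _ (Real.sqrt_nonneg _)
  rw [Complex.sub_re]
  have h1 : 0 ≤ (1 / Phi (ww κ z)).re := by
    rw [one_div, Complex.inv_re]
    apply div_nonneg _ (Complex.normSq_nonneg _)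
    rw [← fB_eq]
    exact Real.sqrt_nonneg _
  linarith

end BAR

open BAR in
theorem pkBar : GBar := by
  intro κ hκ hκ1
  have hs : 0 < Real.sqrt κ := Real.sqrt_pos.mpr hκ
  have hs1 : Real.sqrt κ < 1 := by
    rw [Real.sqrt_lt' one_pos]; simpa using hκ1
  refine ⟨?_, fun z => Real.sqrt_nonneg _, ?_, ?_, fB_smooth κ hκ, laplace κ hκ, D1_le κ hκ, ?_, ?_, ?_, ?_, ?_⟩
  · unfold fB
    have h1 := (cont_zr κ).continuous
    have h2 := (cont_zi κ).continuous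
    fun_prop
  · intro z hz
    have hz' : 0 ≤ z.1 ∧ Real.sin z.2 = 0 := by
      unfold SC at hz
      simp only [Set.mem_ofPred_eq, not_or, not_lt, not_not] at hz
      exact hz
    obtain ⟨h1, h2⟩ := hz'
    have h3 : Real.sin (2 * z.2) = 0 := by rw [Real.sin_two_mul, h2]; ring
    have h4 : Real.cos (2 * z.2) = 1 := by rw [Real.cos_two_mul', h2]; nlinarith [Real.sin_sq_add_cos_sq z.2]
    have h5 : 1 ≤ Real.exp (2 * Real.sqrt κ * z.1) := by
      apply Real.one_le_exp; positivity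
    have hr : zr κ z = 1 - Real.exp (2 * Real.sqrt κ * z.1) := by unfold zr; rw [h4]; ring
    have hi : zi κ z = 0 := by unfold zi; rw [h3]; ring
    unfold fB
    rw [hi, hr]
    have : (1 - Real.exp (2 * Real.sqrt κ * z.1)) ^ 2 + 0 ^ 2 = (Real.exp (2 * Real.sqrt κ * z.1) - 1) ^ 2 := by ring
    rw [this, Real.sqrt_sq (by linarith)]
    rw [show (Real.exp (2 * Real.sqrt κ * z.1) - 1 + (1 - Real.exp (2 * Real.sqrt κ * z.1))) / 2 = 0 by ring]
    exact Real.sqrt_zero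
  · intro z hz
    unfold fB
    apply Real.sqrt_pos.mpr
    have := arg_pos κ hκ z hz
    positivity
  · intro z
    have hE : Real.exp (2 * Real.sqrt κ * z.1) = Real.exp (Real.sqrt κ * z.1) ^ 2 := by
      rw [← Real.exp_nat_mul]; congr 1; push_cast; ring
    have he := Real.exp_pos (Real.sqrt κ * z.1)
    set e := Real.exp (Real.sqrt κ * z.1) with he'
    have hc1 := Real.cos_le_one (2 * z.2)
    have hc2 := Real.neg_one_le_cos (2 * z.2)
    have hcs := Real.sin_sq_add_cos_sq (2 * z.2)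
    have hzr : zr κ z ≤ 1 + e ^ 2 := by
      unfold zr; rw [hE]; nlinarith [sq_nonneg e]
    have hss : (zr κ z) ^ 2 + (zi κ z) ^ 2 ≤ (1 + e ^ 2) ^ 2 := by
      unfold zr zi; rw [hE]
      have : (1 - e ^ 2 * Real.cos (2 * z.2)) ^ 2 + (-(e ^ 2 * Real.sin (2 * z.2))) ^ 2
        = 1 - 2 * e ^ 2 * Real.cos (2 * z.2) + e ^ 4 * (Real.sin (2 * z.2) ^ 2 + Real.cos (2 * z.2) ^ 2) := by ring
      rw [this, hcs]
      nlinarith [sq_nonneg e]
    have h1 : Real.sqrt ((zr κ z) ^ 2 + (zi κ z) ^ 2) ≤ 1 + e ^ 2 := by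
      rw [Real.sqrt_le_left (by positivity)]
      exact hss
    unfold fB
    rw [Real.sqrt_le_left (by positivity)]
    nlinarith
  · refine ⟨Real.sqrt (1 - Real.exp (-(2 * Real.sqrt κ))), ?_, ?_⟩
    · apply Real.sqrt_pos.mpr
      have : Real.exp (-(2 * Real.sqrt κ)) < 1 := by rw [Real.exp_lt_one_iff]; linarith
      linarith
    · intro θ
      unfold fB
      apply Real.sqrt_le_sqrt
      have h1 : zr κ (-1, θ) ≤ Real.sqrt ((zr κ (-1, θ)) ^ 2 + (zi κ (-1, θ)) ^ 2) := by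
        apply Real.le_sqrt_of_sq_le
        nlinarith [sq_nonneg (zi κ (-1, θ))]
      have h2 : 1 - Real.exp (-(2 * Real.sqrt κ)) ≤ zr κ (-1, θ) := by
        unfold zr
        simp only
        rw [show 2 * Real.sqrt κ * -1 = -(2 * Real.sqrt κ) by ring]
        have := Real.exp_pos (-(2 * Real.sqrt κ))
        have h3 := Real.cos_le_one (2 * θ)
        nlinarith
      linarith
  · refine ⟨Real.sqrt (2 * Real.sqrt κ * Real.exp (-2)), ?_, ?_⟩
    · apply Real.sqrt_pos.mpr; positivity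
    · intro h h0 h1
      rw [← Real.sqrt_mul (by positivity)]
      unfold fB
      apply Real.sqrt_le_sqrt
      have hi : zi κ (-h, 0) = 0 := by unfold zi; simp
      have hr : zr κ (-h, 0) = 1 - Real.exp (-(2 * Real.sqrt κ * h)) := by
        unfold zr; simp
      rw [hi, hr]
      set y := 2 * Real.sqrt κ * h with hy
      have hy0 : 0 < y := by positivity
      have hy2 : y ≤ 2 := by rw [hy]; nlinarith
      have h5 : Real.exp (-y) < 1 := by rw [Real.exp_lt_one_iff]; linarith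
      rw [show (1 - Real.exp (-y)) ^ 2 + 0 ^ 2 = (1 - Real.exp (-y)) ^ 2 by ring, Real.sqrt_sq (by linarith)]
      have h6 : Real.exp (-2) ≤ Real.exp (-y) := Real.exp_le_exp.mpr (by linarith)
      have h7 : y * Real.exp (-y) ≤ 1 - Real.exp (-y) := by
        have h8 := Real.add_one_le_exp y
        have h9 : Real.exp y * Real.exp (-y) = 1 := by rw [← Real.exp_add]; simp
        nlinarith [Real.exp_pos (-y)]
      have h10 : 2 * Real.sqrt κ * Real.exp (-2) * h = y * Real.exp (-2) := by rw [hy]; ring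
      rw [h10]
      nlinarith
  · intro τ θ
    unfold fB zr zi
    simp only
    rw [show 2 * (θ + π) = 2 * θ + 2 * π by ring, Real.cos_add_two_pi, Real.sin_add_two_pi]
  · intro τ θ
    unfold fB zr zi
    simp only
    rw [show 2 * (-θ) = -(2 * θ) by ring, Real.cos_neg, Real.sin_neg]
    simp

end Pool.Agent.Helper25.PCap
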