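import Pool.Agent.Helper25.PCap.GoalsF

/-!
Planar p-capacity (MP_576c25_an): packet CT, the stream function of a configuration.
-/

set_option autoImplicit false

open MeasureTheory Set Filter Topology
open scoped ContDiff Real

noncomputable section

namespace Pool.Agent.Helper25.PCap

namespace CT

/-- the linear form with components `a`, `b` -/
def lf (a b : ℝ) : ℝ × ℝ →L[ℝ] ℝ :=
  a • ContinuousLinearMap.fst ℝ ℝ ℝ + b • ContinuousLinearMap.snd ℝ ℝ ℝ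

theorem lf_apply (a b : ℝ) (z : ℝ × ℝ) : lf a b z = a * z.1 + b * z.2 := by
  simp [lf]

theorem norm_lf_le (a b : ℝ) : ‖lf a b‖ ≤ |a| + |b| := by
  apply ContinuousLinearMap.opNorm_le_bound _ (by positivity)
  intro z
  rw [lf_apply, Real.norm_eq_abs]
  have h1 : |z.1| ≤ ‖z‖ := norm_fst_le z
  have h2 : |z.2| ≤ ‖z‖ := norm_snd_le z
  calc |a * z.1 + b * z.2| ≤ |a * z.1| + |b * z.2| := abs_add_le _ _
    _ = |a| * |z.1| + |b| * |z.2| := by rw [abs_mul, abs_mul]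
    _ ≤ |a| * ‖z‖ + |b| * ‖z‖ := by gcongr
    _ = (|a| + |b|) * ‖z‖ := by ring

theorem clm_eq (L : ℝ × ℝ →L[ℝ] ℝ) (z : ℝ × ℝ) : L z = L (1, 0) * z.1 + L (0, 1) * z.2 := by
  have : z = z.1 • ((1 : ℝ), (0 : ℝ)) + z.2 • ((0 : ℝ), (1 : ℝ)) := by
    ext <;> simp
  conv_lhs => rw [this]
  rw [map_add, map_smul, map_smul]
  simp only [smul_eq_mul]
  ring

theorem contDiffOn_D1 {f : ℝ × ℝ → ℝ} {V : Set (ℝ × ℝ)} (hV : IsOpen V)
    (hf : ContDiffOn ℝ ∞ f V) : ContDiffOn ℝ ∞ (D1 f) V := by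
  have h := ((contDiffOn_infty_iff_fderiv_of_isOpen hV).1 hf).2
  exact h.clm_apply contDiffOn_const

theorem contDiffOn_D2 {f : ℝ × ℝ → ℝ} {V : Set (ℝ × ℝ)} (hV : IsOpen V)
    (hf : ContDiffOn ℝ ∞ f V) : ContDiffOn ℝ ∞ (D2 f) V := by
  have h := ((contDiffOn_infty_iff_fderiv_of_isOpen hV).1 hf).2
  exact h.clm_apply contDiffOn_const

theorem contDiffOn_lf {P Q : ℝ × ℝ → ℝ} {V : Set (ℝ × ℝ)}
    (hP : ContDiffOn ℝ ∞ P V) (hQ : ContDiffOn ℝ ∞ Q V) :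
    ContDiffOn ℝ ∞ (fun z => lf (P z) (Q z)) V :=
  (hP.smul contDiffOn_const).add (hQ.smul contDiffOn_const)

/-- a closed form on a convex open set has a primitive -/
theorem exists_prim {P Q : ℝ × ℝ → ℝ} {H : Set (ℝ × ℝ)} (hH : IsOpen H) (hc : Convex ℝ H)
    (hP : ContDiffOn ℝ ∞ P H) (hQ : ContDiffOn ℝ ∞ Q H) (hcl : ∀ z ∈ H, D2 P z = D1 Q z) :
    ∃ F : ℝ × ℝ → ℝ, ∀ z ∈ H, HasFDerivAt F (lf (P z) (Q z)) z := by
  have hdiff : DifferentiableOn ℝ (fun z => lf (P z) (Q z)) H :=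
    (contDiffOn_lf hP hQ).differentiableOn (by simp)
  apply hc.exists_forall_hasFDerivAt_of_fderiv_symmetric hH hdiff
  · intro a ha x y
    have hPa : HasFDerivAt P (fderiv ℝ P a) a :=
      ((hP.differentiableOn (by simp)).differentiableAt (hH.mem_nhds ha)).hasFDerivAt
    have hQa : HasFDerivAt Q (fderiv ℝ Q a) a :=
      ((hQ.differentiableOn (by simp)).differentiableAt (hH.mem_nhds ha)).hasFDerivAt
    have h1 : HasFDerivAt (fun z => lf (P z) (Q z))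
        ((fderiv ℝ P a).smulRight (ContinuousLinearMap.fst ℝ ℝ ℝ) +
          (fderiv ℝ Q a).smulRight (ContinuousLinearMap.snd ℝ ℝ ℝ)) a :=
      (hPa.smul_const (ContinuousLinearMap.fst ℝ ℝ ℝ)).add
        (hQa.smul_const (ContinuousLinearMap.snd ℝ ℝ ℝ))
    rw [h1.fderiv]
    have hcl' : fderiv ℝ P a (0, 1) = fderiv ℝ Q a (1, 0) := hcl a ha
    simp only [add_apply, ContinuousLinearMap.smulRight_apply,
      smul_apply, ContinuousLinearMap.coe_fst', ContinuousLinearMap.coe_snd',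
      smul_eq_mul]
    rw [clm_eq (fderiv ℝ P a) x, clm_eq (fderiv ℝ P a) y, clm_eq (fderiv ℝ Q a) x,
      clm_eq (fderiv ℝ Q a) y, hcl']
    ring

/-- vertical derivative -/
theorem hasDerivAt_vert {F : ℝ × ℝ → ℝ} {a b t θ : ℝ} (h : HasFDerivAt F (lf a b) (t, θ)) :
    HasDerivAt (fun s => F (s, θ)) a t := by
  have h1 : HasDerivAt (fun s : ℝ => (s, θ)) ((1 : ℝ), (0 : ℝ)) t :=
    (hasDerivAt_id t).prodMk (hasDerivAt_const t θ)
  have h2 := h.comp_hasDerivAt t h1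
  rw [lf_apply] at h2
  simpa [Function.comp_def] using h2

theorem ftc_vert {F P Q : ℝ × ℝ → ℝ} {H : Set (ℝ × ℝ)} (hP : ContDiffOn ℝ ∞ P H)
    (hF : ∀ z ∈ H, HasFDerivAt F (lf (P z) (Q z)) z) {a b θ : ℝ}
    (hab : ∀ t ∈ uIcc a b, (t, θ) ∈ H) :
    ∫ t in a..b, P (t, θ) = F (b, θ) - F (a, θ) := by
  apply intervalIntegral.integral_eq_sub_of_hasDerivAt (f := fun t => F (t, θ))
  · intro t ht
    exact hasDerivAt_vert (hF _ (hab t ht))
  · apply ContinuousOn.intervalIntegrable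
    exact hP.continuousOn.comp (by fun_prop) hab

/-- the half strip -/
def HS (m δ θ₀ : ℝ) : Set (ℝ × ℝ) := {w | w.1 < m ∧ |w.2 - θ₀| < δ}

theorem isOpen_HS (m δ θ₀ : ℝ) : IsOpen (HS m δ θ₀) := by
  have h1 : IsOpen {w : ℝ × ℝ | w.1 < m} := isOpen_lt continuous_fst continuous_const
  have h2 : IsOpen {w : ℝ × ℝ | |w.2 - θ₀| < δ} := isOpen_lt (by fun_prop) continuous_const
  exact h1.inter h2

theorem convex_HS (m δ θ₀ : ℝ) : Convex ℝ (HS m δ θ₀) := by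
  intro x hx y hy a b ha hb hab
  refine ⟨?_, ?_⟩
  · have h1 : (a • x + b • y).1 = a * x.1 + b * y.1 := by simp
    rw [h1]
    have := (convex_Iio m) (x := x.1) hx.1 (y := y.1) hy.1 ha hb hab
    simpa using this
  · have h1 : (a • x + b • y).2 = a * x.2 + b * y.2 := by simp
    have := (convex_ball θ₀ δ) (x := x.2) (by rw [Metric.mem_ball, Real.dist_eq]; exact hx.2)
      (y := y.2) (by rw [Metric.mem_ball, Real.dist_eq]; exact hy.2) ha hb hab
    rw [Metric.mem_ball, Real.dist_eq] at this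
    rw [h1]
    simpa using this

theorem const_on {f : ℝ × ℝ → ℝ} {s : Set (ℝ × ℝ)} (hs : IsOpen s) (hc : Convex ℝ s)
    (hf : ∀ z ∈ s, HasFDerivAt f (0 : ℝ × ℝ →L[ℝ] ℝ) z) {x y : ℝ × ℝ} (hx : x ∈ s) (hy : y ∈ s) :
    f x = f y :=
  hs.is_const_of_fderiv_eq_zero hc.isPreconnected
    (fun z hz => (hf z hz).differentiableAt.differentiableWithinAt)
    (fun z hz => (hf z hz).fderiv) hx hy

/-- glueing -/
theorem glue {P Q S : ℝ × ℝ → ℝ} {V : Set (ℝ × ℝ)} {τa τ₂ : ℝ} (h2 : τ₂ < τa)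
    (hP : ContDiffOn ℝ ∞ P V) (hQ : ContDiffOn ℝ ∞ Q V) (hcl : ∀ z ∈ V, D2 P z = D1 Q z)
    (hVs : ∀ z ∈ V, ∃ m δ, 0 < δ ∧ z.1 < m ∧ τa ≤ m ∧ HS m δ z.2 ⊆ V)
    (hVa : ∀ z : ℝ × ℝ, z.1 < τa → z ∈ V)
    (hS : ∀ z : ℝ × ℝ, z.1 < τa → HasFDerivAt S (lf (P z) (Q z)) z) :
    (∀ z ∈ V, HasFDerivAt (fun z : ℝ × ℝ => S (τ₂, z.2) + ∫ t in τ₂..z.1, P (t, z.2))
      (lf (P z) (Q z)) z) ∧
    ∀ z : ℝ × ℝ, z.1 < τa → S (τ₂, z.2) + ∫ t in τ₂..z.1, P (t, z.2) = S z := by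
  constructor
  · intro z hz
    obtain ⟨m, δ, hδ, hzm, ham, hsub⟩ := hVs z hz
    obtain ⟨F, hF⟩ := exists_prim (isOpen_HS m δ z.2) (convex_HS m δ z.2) (hP.mono hsub)
      (hQ.mono hsub) (fun w hw => hcl w (hsub hw))
    have hFint : ∀ w ∈ HS m δ z.2, ∫ t in τ₂..w.1, P (t, w.2) = F w - F (τ₂, w.2) := by
      intro w hw
      apply ftc_vert (hP.mono hsub) hF
      intro t ht
      refine ⟨lt_of_le_of_lt ht.2 (max_lt (lt_of_lt_of_le h2 ham) hw.1), hw.2⟩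
    have hk : ∀ w ∈ HS m δ z.2, S (τ₂, w.2) - F (τ₂, w.2) = S (τ₂, z.2) - F (τ₂, z.2) := by
      intro w hw
      have := const_on (f := fun w => S w - F w) (isOpen_HS τa δ z.2) (convex_HS τa δ z.2) ?_
        (x := (τ₂, w.2)) (y := (τ₂, z.2)) ⟨h2, hw.2⟩ ⟨h2, by simpa using hδ⟩
      · exact this
      · intro x hx
        have h1 := (hS x hx.1).sub (hF x ⟨lt_of_lt_of_le hx.1 ham, hx.2⟩)
        rwa [sub_self] at h1
    have hzH : z ∈ HS m δ z.2 := ⟨hzm, by simpa using hδ⟩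
    have hev : (fun w : ℝ × ℝ => S (τ₂, w.2) + ∫ t in τ₂..w.1, P (t, w.2)) =ᶠ[𝓝 z]
        fun w => F w + (S (τ₂, z.2) - F (τ₂, z.2)) := by
      filter_upwards [(isOpen_HS m δ z.2).mem_nhds hzH] with w hw
      rw [hFint w hw, ← hk w hw]
      ring
    exact ((hF z hzH).add_const _).congr_of_eventuallyEq hev
  · intro z hz
    have : ∫ t in τ₂..z.1, P (t, z.2) = S z - S (τ₂, z.2) := by
      apply ftc_vert (H := {w : ℝ × ℝ | w.1 < τa}) (hP.mono hVa) hS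
      intro t ht
      exact lt_of_le_of_lt ht.2 (max_lt h2 hz)
    rw [this]; ring

/-! ### The series -/

theorem md_re (c : ℕ → ℂ) (n : ℕ) (θ : ℝ) :
    (md c n θ).re = (c n).re * Real.cos (n * θ) - (c n).im * Real.sin (n * θ) := by
  rw [md, Complex.mul_re, Complex.exp_ofReal_mul_I_re, Complex.exp_ofReal_mul_I_im]

theorem md_im (c : ℕ → ℂ) (n : ℕ) (θ : ℝ) :
    (md c n θ).im = (c n).re * Real.sin (n * θ) + (c n).im * Real.cos (n * θ) := by
  rw [md, Complex.mul_im, Complex.exp_ofReal_mul_I_re, Complex.exp_ofReal_mul_I_im]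

theorem norm_md (c : ℕ → ℂ) (n : ℕ) (θ : ℝ) : ‖md c n θ‖ = ‖c n‖ := by
  rw [md, norm_mul, Complex.norm_exp_ofReal_mul_I, mul_one]

theorem abs_md_re (c : ℕ → ℂ) (n : ℕ) (θ : ℝ) : |(md c n θ).re| ≤ ‖c n‖ := by
  rw [← norm_md c n θ]; exact Complex.abs_re_le_norm _

theorem abs_md_im (c : ℕ → ℂ) (n : ℕ) (θ : ℝ) : |(md c n θ).im| ≤ ‖c n‖ := by
  rw [← norm_md c n θ]; exact Complex.abs_im_le_norm _

theorem md_per (c : ℕ → ℂ) (n : ℕ) (θ : ℝ) : md c n (θ + 2 * π) = md c n θ := by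
  apply Complex.ext
  · rw [md_re, md_re, mul_add, Real.cos_add_nat_mul_two_pi, Real.sin_add_nat_mul_two_pi]
  · rw [md_im, md_im, mul_add, Real.cos_add_nat_mul_two_pi, Real.sin_add_nat_mul_two_pi]

/-- the term of the series of the stream function -/
def tm (κ C0 : ℝ) (c : ℕ → ℂ) (n : ℕ) (z : ℝ × ℝ) : ℝ :=
  BB κ C0 * (aa κ n / n) * (md c n z.2).im * Real.exp (bb κ n * z.1)

def tmP (κ C0 : ℝ) (c : ℕ → ℂ) (n : ℕ) (z : ℝ × ℝ) : ℝ :=
  BB κ C0 * (κ * n) * (md c n z.2).im * Real.exp (bb κ n * z.1)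

def tmQ (κ C0 : ℝ) (c : ℕ → ℂ) (n : ℕ) (z : ℝ × ℝ) : ℝ :=
  BB κ C0 * aa κ n * (md c n z.2).re * Real.exp (bb κ n * z.1)

theorem hasDerivAt_md_im (c : ℕ → ℂ) (n : ℕ) (θ : ℝ) :
    HasDerivAt (fun θ => (md c n θ).im) (n * (md c n θ).re) θ := by
  have h0 : HasDerivAt (fun θ : ℝ => (n : ℝ) * θ) (n : ℝ) θ := by
    simpa using (hasDerivAt_id θ).const_mul (n : ℝ)
  have h1 := (h0.sin.const_mul (c n).re).add (h0.cos.const_mul (c n).im)
  have h2 : (fun θ => (md c n θ).im) =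
      fun θ : ℝ => (c n).re * Real.sin (n * θ) + (c n).im * Real.cos (n * θ) := by
    funext θ; exact md_im c n θ
  rw [h2]
  refine h1.congr_deriv ?_
  rw [md_re]; ring

theorem hasFDerivAt_tm {κ C0 : ℝ} {c : ℕ → ℂ} (hc0 : c 0 = 0)
    (hab : ∀ n : ℕ, (aa κ n) * (bb κ n) = κ * (n : ℝ) ^ 2) (n : ℕ) (z : ℝ × ℝ) :
    HasFDerivAt (tm κ C0 c n) (lf (tmP κ C0 c n z) (tmQ κ C0 c n z)) z := by
  have h1 : HasFDerivAt (fun z : ℝ × ℝ => (md c n z.2).im)
      ((n * (md c n z.2).re) • ContinuousLinearMap.snd ℝ ℝ ℝ) z :=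
    (hasDerivAt_md_im c n z.2).comp_hasFDerivAt z hasFDerivAt_snd
  have h0 : HasDerivAt (fun t : ℝ => Real.exp (bb κ n * t)) (bb κ n * Real.exp (bb κ n * z.1)) z.1 := by
    have := ((hasDerivAt_id z.1).const_mul (bb κ n)).exp
    refine this.congr_deriv ?_
    simp; ring
  have h2 : HasFDerivAt (fun z : ℝ × ℝ => Real.exp (bb κ n * z.1))
      ((bb κ n * Real.exp (bb κ n * z.1)) • ContinuousLinearMap.fst ℝ ℝ ℝ) z :=
    h0.comp_hasFDerivAt z hasFDerivAt_fst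
  have h3 := (h1.const_mul (BB κ C0 * (aa κ n / n))).mul h2
  refine h3.congr_fderiv ?_
  ext
  · rcases Nat.eq_zero_or_pos n with rfl | hn
    · simp [lf, tmP, tmQ, hc0, md]
    · have hn' : (n : ℝ) ≠ 0 := by exact_mod_cast hn.ne'
      have h4 : aa κ n / n * bb κ n = κ * n := by
        rw [div_mul_eq_mul_div, hab n]; field_simp
      simp [lf, tmP, tmQ]
      linear_combination (BB κ C0 * (md c n z.2).im * Real.exp (bb κ n * z.1)) * h4
  · rcases Nat.eq_zero_or_pos n with rfl | hn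
    · simp [lf, tmP, tmQ, hc0, md]
    · have hn' : (n : ℝ) ≠ 0 := by exact_mod_cast hn.ne'
      simp [lf, tmP, tmQ]
      field_simp

theorem exp_bb {κ : ℝ} (n : ℕ) (t : ℝ) :
    Real.exp (bb κ n * t) = Real.exp (-(1 - κ) * t) * Real.exp (aa κ n * t) := by
  rw [← Real.exp_add, bb]; congr 1; ring

/-- the sum of the series and its derivative -/
theorem series {κ C0 : ℝ} (hκ : 0 < κ) (hκ1 : κ < 1) (hC : 0 < C0) {c : ℕ → ℂ} (hc0 : c 0 = 0)
    (hab : ∀ n : ℕ, (aa κ n) * (bb κ n) = κ * (n : ℝ) ^ 2)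
    (ha1 : ∀ n : ℕ, aa κ n ≤ n + 1) (hb : ∀ n : ℕ, 1 ≤ n → 0 < bb κ n)
    {τa : ℝ}
    (hsum : Summable (fun n : ℕ => ((n : ℝ) + 1) ^ 5 * ‖c n‖ * Real.exp (aa κ n * τa))) :
    (∀ z : ℝ × ℝ, z.1 < τa → HasFDerivAt (fun z => ∑' n, tm κ C0 c n z)
      (lf (∑' n, tmP κ C0 c n z) (∑' n, tmQ κ C0 c n z)) z) ∧
    (∀ z : ℝ × ℝ, z.1 ≤ τa → Summable (fun n => tm κ C0 c n z)) := by
  have hB : 0 < BB κ C0 := by
    rw [BB]; have : 0 < 1 - κ := by linarith
    positivity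
  set e := Real.exp (-(1 - κ) * τa) with he
  have hepos : 0 < e := Real.exp_pos _
  have hb0 : ∀ n : ℕ, ‖c n‖ * bb κ n ≥ 0 := by
    intro n
    rcases Nat.eq_zero_or_pos n with rfl | hn
    · simp [hc0]
    · have := hb n hn; positivity
  -- basic bound
  have key : ∀ (n : ℕ) (z : ℝ × ℝ), z.1 ≤ τa →
      ‖c n‖ * Real.exp (bb κ n * z.1) ≤ ‖c n‖ * (e * Real.exp (aa κ n * τa)) := by
    intro n z hz
    rcases Nat.eq_zero_or_pos n with rfl | hn
    · simp [hc0]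
    · rw [he, ← exp_bb]
      have := hb n hn
      gcongr
  have hn1 : ∀ n : ℕ, (1 : ℝ) ≤ (n : ℝ) + 1 := fun n => by
    have : (0 : ℝ) ≤ n := Nat.cast_nonneg n
    linarith
  have hpow : ∀ n : ℕ, ((n : ℝ) + 1) ≤ ((n : ℝ) + 1) ^ 5 := fun n =>
    le_self_pow₀ (hn1 n) (by norm_num)
  have hsum1 : Summable (fun n : ℕ => ((n : ℝ) + 1) * ‖c n‖ * Real.exp (aa κ n * τa)) := by
    refine Summable.of_nonneg_of_le (fun n => by positivity) (fun n => ?_) hsum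
    have := hpow n
    gcongr
  have hP : ∀ (n : ℕ) (z : ℝ × ℝ), z.1 ≤ τa →
      |tmP κ C0 c n z| ≤ BB κ C0 * e * (((n : ℝ) + 1) * ‖c n‖ * Real.exp (aa κ n * τa)) := by
    intro n z hz
    have h1 := key n z hz
    have h2 := abs_md_im c n z.2
    rw [tmP, abs_mul, abs_mul, abs_of_pos (Real.exp_pos _), abs_of_nonneg (by positivity)]
    calc BB κ C0 * (κ * n) * |(md c n z.2).im| * Real.exp (bb κ n * z.1)
        ≤ BB κ C0 * (1 * (n + 1)) * ‖c n‖ * Real.exp (bb κ n * z.1) := by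
          gcongr
          linarith
      _ = BB κ C0 * (n + 1) * (‖c n‖ * Real.exp (bb κ n * z.1)) := by ring
      _ ≤ BB κ C0 * (n + 1) * (‖c n‖ * (e * Real.exp (aa κ n * τa))) := by gcongr
      _ = _ := by ring
  have ha0 : ∀ n : ℕ, 0 ≤ aa κ n := by
    intro n
    rw [aa]
    have : 0 < 1 - κ := by linarith
    positivity
  have hQ : ∀ (n : ℕ) (z : ℝ × ℝ), z.1 ≤ τa →
      |tmQ κ C0 c n z| ≤ BB κ C0 * e * (((n : ℝ) + 1) * ‖c n‖ * Real.exp (aa κ n * τa)) := by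
    intro n z hz
    have h1 := key n z hz
    have h2 := abs_md_re c n z.2
    have h3 := ha1 n
    have h4 := ha0 n
    rw [tmQ, abs_mul, abs_mul, abs_of_pos (Real.exp_pos _), abs_of_nonneg (by positivity)]
    calc BB κ C0 * aa κ n * |(md c n z.2).re| * Real.exp (bb κ n * z.1)
        ≤ BB κ C0 * (n + 1) * ‖c n‖ * Real.exp (bb κ n * z.1) := by gcongr
      _ = BB κ C0 * (n + 1) * (‖c n‖ * Real.exp (bb κ n * z.1)) := by ring
      _ ≤ BB κ C0 * (n + 1) * (‖c n‖ * (e * Real.exp (aa κ n * τa))) := by gcongr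
      _ = _ := by ring
  have hT : ∀ (n : ℕ) (z : ℝ × ℝ), z.1 ≤ τa →
      |tm κ C0 c n z| ≤ 2 * BB κ C0 * e * (((n : ℝ) + 1) * ‖c n‖ * Real.exp (aa κ n * τa)) := by
    intro n z hz
    have h1 := key n z hz
    have h2 := abs_md_im c n z.2
    have h3 := ha1 n
    have h4 := ha0 n
    have h5 : aa κ n / n ≤ 2 * ((n : ℝ) + 1) := by
      rcases Nat.eq_zero_or_pos n with rfl | hn
      · simp
      · have hn' : (1 : ℝ) ≤ n := by exact_mod_cast hn
        rw [div_le_iff₀ (by linarith)]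
        nlinarith
    have h6 : 0 ≤ aa κ n / n := by positivity
    rw [tm, abs_mul, abs_mul, abs_of_pos (Real.exp_pos _), abs_of_nonneg (by positivity)]
    calc BB κ C0 * (aa κ n / n) * |(md c n z.2).im| * Real.exp (bb κ n * z.1)
        ≤ BB κ C0 * (2 * (n + 1)) * ‖c n‖ * Real.exp (bb κ n * z.1) := by gcongr
      _ = BB κ C0 * (2 * (n + 1)) * (‖c n‖ * Real.exp (bb κ n * z.1)) := by ring
      _ ≤ BB κ C0 * (2 * (n + 1)) * (‖c n‖ * (e * Real.exp (aa κ n * τa))) := by gcongr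
      _ = _ := by ring
  have hsT : ∀ z : ℝ × ℝ, z.1 ≤ τa → Summable (fun n => tm κ C0 c n z) := by
    intro z hz
    refine Summable.of_norm_bounded (hsum1.mul_left (2 * BB κ C0 * e)) (fun n => ?_)
    rw [Real.norm_eq_abs]; exact hT n z hz
  refine ⟨?_, hsT⟩
  intro z hz
  have hsP : Summable (fun n => tmP κ C0 c n z) := by
    refine Summable.of_norm_bounded (hsum1.mul_left (BB κ C0 * e)) (fun n => ?_)
    rw [Real.norm_eq_abs]; exact hP n z hz.le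
  have hsQ : Summable (fun n => tmQ κ C0 c n z) := by
    refine Summable.of_norm_bounded (hsum1.mul_left (BB κ C0 * e)) (fun n => ?_)
    rw [Real.norm_eq_abs]; exact hQ n z hz.le
  have hopen : IsOpen {w : ℝ × ℝ | w.1 < τa} := isOpen_lt continuous_fst continuous_const
  have hconv : Convex ℝ {w : ℝ × ℝ | w.1 < τa} :=
    convex_halfSpace_lt (LinearMap.fst ℝ ℝ ℝ).isLinear τa
  have hmain := hasFDerivAt_tsum_of_isPreconnected
    (u := fun n : ℕ => 2 * (BB κ C0 * e * (((n : ℝ) + 1) * ‖c n‖ * Real.exp (aa κ n * τa))))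
    (f := fun n => tm κ C0 c n) (f' := fun n z => lf (tmP κ C0 c n z) (tmQ κ C0 c n z))
    (s := {w : ℝ × ℝ | w.1 < τa}) (x₀ := z) (x := z)
    ((hsum1.mul_left (BB κ C0 * e)).mul_left 2) hopen hconv.isPreconnected
    (fun n x _ => hasFDerivAt_tm hc0 hab n x)
    (fun n x hx => by
      have h1 := hP n x (le_of_lt hx)
      have h2 := hQ n x (le_of_lt hx)
      have h3 := norm_lf_le (tmP κ C0 c n x) (tmQ κ C0 c n x)
      linarith) hz (hsT z hz.le) hz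
  have hts : ∑' n, lf (tmP κ C0 c n z) (tmQ κ C0 c n z) =
      lf (∑' n, tmP κ C0 c n z) (∑' n, tmQ κ C0 c n z) := by
    have h1 : HasSum (fun n => lf (tmP κ C0 c n z) (tmQ κ C0 c n z))
        (lf (∑' n, tmP κ C0 c n z) (∑' n, tmQ κ C0 c n z)) :=
      (hsP.hasSum.smul_const _).add (hsQ.hasSum.smul_const _)
    exact h1.tsum_eq
  rw [← hts]
  exact hmain

theorem eq_zero_of_decay {x M a τ₀ : ℝ} (ha : 1 < a)
    (h : ∀ τ, τ < τ₀ → |x * Real.exp (1 * τ)| ≤ M * Real.exp (a * τ)) : x = 0 := by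
  have h1 : ∀ᶠ τ : ℝ in atBot, |x| ≤ M * Real.exp ((a - 1) * τ) := by
    filter_upwards [eventually_lt_atBot τ₀] with τ hτ
    have h2 := h τ hτ
    rw [abs_mul, abs_of_pos (Real.exp_pos _)] at h2
    have h3 : Real.exp (a * τ) = Real.exp ((a - 1) * τ) * Real.exp (1 * τ) := by
      rw [← Real.exp_add]; congr 1; ring
    rw [h3, ← mul_assoc] at h2
    exact le_of_mul_le_mul_right h2 (Real.exp_pos _)
  have h4 : Tendsto (fun τ : ℝ => M * Real.exp ((a - 1) * τ)) atBot (𝓝 (M * 0)) := by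
    apply Tendsto.const_mul
    apply Real.tendsto_exp_atBot.comp
    exact tendsto_id.const_mul_atBot (by linarith)
  rw [mul_zero] at h4
  have h5 := le_of_tendsto_of_tendsto tendsto_const_nhds h4 h1
  exact abs_eq_zero.1 (le_antisymm h5 (abs_nonneg x))

/-- the vertical hull -/
def VH (V : Set (ℝ × ℝ)) : Set (ℝ × ℝ) := {z | ∀ t, t ≤ z.1 → (t, z.2) ∈ V}

theorem VH_strip {V : Set (ℝ × ℝ)} (hV : IsOpen V) {ts : ℝ} (hts : ∀ z : ℝ × ℝ, z.1 ≤ ts → z ∈ V)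
    {z : ℝ × ℝ} (hz : z ∈ VH V) : ∃ m δ, 0 < δ ∧ z.1 < m ∧ ts ≤ m ∧ HS m δ z.2 ⊆ VH V := by
  set M := max ts z.1 with hM
  have hK : IsCompact (Icc ts M ×ˢ ({z.2} : Set ℝ)) := isCompact_Icc.prod isCompact_singleton
  have hKV : Icc ts M ×ˢ ({z.2} : Set ℝ) ⊆ V := by
    rintro ⟨t, s⟩ ⟨ht, hs⟩
    have hs' : s = z.2 := hs
    subst hs'
    rcases le_or_gt t z.1 with h | h
    · exact hz t h
    · apply hts
      have h1 : t ≤ M := ht.2
      rw [hM] at h1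
      rcases le_max_iff.1 h1 with h2 | h2
      · exact h2
      · exact absurd h (not_lt.2 h2)
  obtain ⟨δ, hδ, hthick⟩ := hK.exists_thickening_subset_open hV hKV
  refine ⟨M + δ, δ, hδ, ?_, ?_, ?_⟩
  · have := le_max_right ts z.1
    linarith
  · have := le_max_left ts z.1
    linarith
  · intro w hw t ht
    rcases le_or_gt t ts with h | h
    · exact hts _ h
    · apply hthick
      rw [Metric.mem_thickening_iff]
      refine ⟨(min t M, z.2), ⟨⟨le_min h.le (le_max_left _ _), min_le_right _ _⟩, rfl⟩, ?_⟩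
      rw [Prod.dist_eq, max_lt_iff]
      constructor
      · rw [Real.dist_eq]
        have h1 : w.1 < M + δ := hw.1
        rcases le_total t M with h2 | h2
        · rw [min_eq_left h2, sub_self, abs_zero]; exact hδ
        · rw [min_eq_right h2, abs_of_nonneg (by linarith)]
          have : t < M + δ := lt_of_le_of_lt ht h1
          linarith
      · rw [Real.dist_eq]; exact hw.2

theorem VH_open {V : Set (ℝ × ℝ)} (hV : IsOpen V) {ts : ℝ} (hts : ∀ z : ℝ × ℝ, z.1 ≤ ts → z ∈ V) :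
    IsOpen (VH V) := by
  rw [isOpen_iff_mem_nhds]
  intro z hz
  obtain ⟨m, δ, hδ, hzm, _, hsub⟩ := VH_strip hV hts hz
  exact mem_of_superset ((isOpen_HS m δ z.2).mem_nhds ⟨hzm, by simpa using hδ⟩) hsub

theorem fderiv_per {f : ℝ × ℝ → ℝ} (hf : ∀ τ θ, f (τ, θ + 2 * π) = f (τ, θ)) (τ θ : ℝ) :
    fderiv ℝ f (τ, θ + 2 * π) = fderiv ℝ f (τ, θ) := by
  have h1 : (fun z : ℝ × ℝ => f (z + (0, 2 * π))) = f := by
    funext z
    have : z + (0, 2 * π) = (z.1, z.2 + 2 * π) := by ext <;> simp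
    rw [this, hf]
  have h2 := fderiv_comp_add_right (𝕜 := ℝ) (f := f) (x := (τ, θ)) ((0 : ℝ), 2 * π)
  rw [h1] at h2
  rw [h2]
  congr 1
  ext <;> simp

theorem D1_of {f : ℝ × ℝ → ℝ} {a b : ℝ} {z : ℝ × ℝ} (h : HasFDerivAt f (lf a b) z) :
    D1 f z = a := by
  rw [D1, h.fderiv, lf_apply]; simp

theorem D2_of {f : ℝ × ℝ → ℝ} {a b : ℝ} {z : ℝ × ℝ} (h : HasFDerivAt f (lf a b) z) :
    D2 f z = b := by
  rw [D2, h.fderiv, lf_apply]; simp

theorem hasFDerivAt_exp {e : ℝ} (z : ℝ × ℝ) :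
    HasFDerivAt (fun z : ℝ × ℝ => Real.exp (-e * z.1)) (lf (-e * Real.exp (-e * z.1)) 0) z := by
  have h0 : HasDerivAt (fun t : ℝ => Real.exp (-e * t)) (-e * Real.exp (-e * z.1)) z.1 := by
    have := ((hasDerivAt_id z.1).const_mul (-e)).exp
    refine this.congr_deriv ?_
    simp; ring
  have h2 : HasFDerivAt (fun z : ℝ × ℝ => Real.exp (-e * z.1))
      ((-e * Real.exp (-e * z.1)) • ContinuousLinearMap.fst ℝ ℝ ℝ) z :=
    h0.comp_hasFDerivAt z hasFDerivAt_fst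
  refine h2.congr_fderiv ?_
  simp [lf]

/-- the closedness of the form -/
theorem closed {κ C0 : ℝ} {u : ℝ × ℝ → ℝ} {V : Set (ℝ × ℝ)} (hV : IsOpen V)
    (hu : ContDiffOn ℝ ∞ u V) (hL : ∀ z ∈ V, LL κ u z = 0) {z : ℝ × ℝ} (hz : z ∈ V) :
    D2 (fun z => -(κ * BB κ C0 * Real.exp (-(1 - κ) * z.1) * D2 u z)) z =
      D1 (fun z => BB κ C0 * Real.exp (-(1 - κ) * z.1) * D1 u z - 1) z := by
  have hE := hasFDerivAt_exp (e := 1 - κ) z
  have h1 : HasFDerivAt (D1 u) (fderiv ℝ (D1 u) z) z :=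
    (((contDiffOn_D1 hV hu).differentiableOn (by simp)).differentiableAt
      (hV.mem_nhds hz)).hasFDerivAt
  have h2 : HasFDerivAt (D2 u) (fderiv ℝ (D2 u) z) z :=
    (((contDiffOn_D2 hV hu).differentiableOn (by simp)).differentiableAt
      (hV.mem_nhds hz)).hasFDerivAt
  have h3 := ((hE.const_mul (κ * BB κ C0)).mul h2).neg
  have h4 := ((hE.const_mul (BB κ C0)).mul h1).sub_const 1
  have h5 : D2 (fun z => -(κ * BB κ C0 * Real.exp (-(1 - κ) * z.1) * D2 u z)) z =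
      -(κ * BB κ C0 * Real.exp (-(1 - κ) * z.1) * D2 (D2 u) z) := by
    rw [D2]
    have : (fun z : ℝ × ℝ => -(κ * BB κ C0 * Real.exp (-(1 - κ) * z.1) * D2 u z)) =
      -((fun z : ℝ × ℝ => κ * BB κ C0 * Real.exp (-(1 - κ) * z.1)) * D2 u) := rfl
    rw [this, h3.fderiv]
    simp [lf_apply, D2]
  have h6 : D1 (fun z => BB κ C0 * Real.exp (-(1 - κ) * z.1) * D1 u z - 1) z =
      BB κ C0 * (-(1 - κ) * Real.exp (-(1 - κ) * z.1)) * D1 u z +
        BB κ C0 * Real.exp (-(1 - κ) * z.1) * D1 (D1 u) z := by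
    rw [D1]
    have : (fun z : ℝ × ℝ => BB κ C0 * Real.exp (-(1 - κ) * z.1) * D1 u z - 1) =
      fun z => ((fun z : ℝ × ℝ => BB κ C0 * Real.exp (-(1 - κ) * z.1)) * D1 u) z - 1 := rfl
    rw [this, h4.fderiv]
    simp [lf_apply, D1]
    ring
  rw [h5, h6]
  have h7 := hL z hz
  rw [LL] at h7
  linear_combination (-(BB κ C0 * Real.exp (-(1 - κ) * z.1))) * h7

theorem hasSum_mod {f g : ℕ → ℝ} {a : ℝ} (h : HasSum f a) (hg : ∀ n, n ≠ 0 → g n = f n)
    (hg0 : g 0 = 0) : HasSum g (a - f 0) := by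
  have h1 := h.sub (hasSum_ite_eq (0 : ℕ) (f 0))
  have h2 : g = fun n => f n - if n = 0 then f 0 else 0 := by
    funext n
    by_cases hn : n = 0
    · subst hn; simp [hg0]
    · simp [hn, hg n hn]
  rw [h2]; exact h1

end CT

open CT in
theorem pkCT (h0 : GExpo) (h2 : GF2) (hc : GCU0) (he : GCE) (h1 : GCU1) : GCT := by
  intro κ hκ hκ1 C
  obtain ⟨ha0, ha1, hb0, hab, hmono, hsq, han, hbp⟩ := h0 κ hκ hκ1
  obtain ⟨hu, hL, hD1W, hD1W', hD2W, hDD, hper, huT, hupos⟩ := hc κ hκ hκ1 C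
  obtain ⟨hpos, hlt, hmean⟩ := h1 κ hκ hκ1 C
  obtain ⟨K, τ₀, hτ₀, hE⟩ := he κ hκ hκ1 C
  have hC0 := C.C0pos
  have heps : 0 < 1 - κ := by linarith
  have hBe : BB κ C.C0 * ((1 - κ) * C.C0) = 1 := by
    rw [BB]; field_simp
  have hV0 : ∀ z : ℝ × ℝ, z.1 ≤ τ₀ → z ∈ C.V := fun z hz => C.VT z (hz.trans (hτ₀ _))
  have ha2 : aa κ 0 < aa κ 2 := (hmono 0).trans (hmono 1)
  have ha12 : (1 : ℝ) < aa κ 2 := by rw [← ha1]; exact hmono 1
  rw [ha0] at ha2
  have hK0 : 0 ≤ K := by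
    have h3 := (hE τ₀ 0 le_rfl).1
    have h4 := (abs_nonneg _).trans h3
    exact nonneg_of_mul_nonneg_left h4 (Real.exp_pos _)
  have hdec : DecSol κ C.u τ₀ := by
    refine ⟨hu.mono fun z hz => hV0 z (le_of_lt hz), fun z hz => hL z (hV0 z hz.le), hper,
      C.C0 + K * Real.exp ((aa κ 2 - (1 - κ)) * τ₀), 1 - κ, heps, ?_⟩
    intro z hz
    have h3 := (hE z.1 z.2 hz.le).2.2.2.1
    have h4 : Real.exp (aa κ 2 * z.1) ≤
        Real.exp ((aa κ 2 - (1 - κ)) * τ₀) * Real.exp ((1 - κ) * z.1) := by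
      rw [← Real.exp_add]
      apply Real.exp_le_exp.2
      nlinarith
    have h5 : |C.u z| ≤ |C.u z - C.C0 * Real.exp ((1 - κ) * z.1)| +
        |C.C0 * Real.exp ((1 - κ) * z.1)| := by
      have := abs_add_le (C.u z - C.C0 * Real.exp ((1 - κ) * z.1))
        (C.C0 * Real.exp ((1 - κ) * z.1))
      rwa [sub_add_cancel] at this
    rw [abs_of_pos (a := C.C0 * Real.exp ((1 - κ) * z.1)) (by positivity)] at h5
    have h6 : K * Real.exp (aa κ 2 * z.1) ≤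
        K * (Real.exp ((aa κ 2 - (1 - κ)) * τ₀) * Real.exp ((1 - κ) * z.1)) := by gcongr
    have h7 : C.u (z.1, z.2) = C.u z := rfl
    rw [h7] at h3
    linarith
  obtain ⟨c, hc0im, hcre, hcim, hc0re, hc⟩ := h2 κ hκ hκ1 C.u τ₀ hdec
  have hc0 : (c 0).re = C.C0 := by
    have h3 := hc0re (τ₀ - 1) (by linarith)
    rw [hmean (τ₀ - 1) (fun θ => by have := hτ₀ θ; linarith)] at h3
    have h4 : (c 0).re * Real.exp ((1 - κ) * (τ₀ - 1)) = C.C0 * Real.exp ((1 - κ) * (τ₀ - 1)) := by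
      rw [h3]; field_simp
    exact mul_right_cancel₀ (Real.exp_pos _).ne' h4
  have hcont : ∀ τ, τ < τ₀ → Continuous fun θ => C.u (τ, θ) := by
    intro τ hτ
    exact hu.continuousOn.comp_continuous (by fun_prop) (fun θ => hV0 _ hτ.le)
  -- the first mode
  have hmode : ∀ (g : ℝ → ℝ), Continuous g → (∀ θ, |g θ| ≤ 1) →
      (∫ θ in (0 : ℝ)..(2 * π), g θ = 0) → ∀ τ, τ < τ₀ →
      |∫ θ in (0 : ℝ)..(2 * π), C.u (τ, θ) * g θ| ≤ K * Real.exp (aa κ 2 * τ) * (2 * π) := by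
    intro g hg hg1 hgi τ hτ
    have h3 : ∫ θ in (0 : ℝ)..(2 * π), C.u (τ, θ) * g θ =
        ∫ θ in (0 : ℝ)..(2 * π), (C.u (τ, θ) - C.C0 * Real.exp ((1 - κ) * τ)) * g θ := by
      have h4 : ∫ θ in (0 : ℝ)..(2 * π), (C.u (τ, θ) - C.C0 * Real.exp ((1 - κ) * τ)) * g θ =
          (∫ θ in (0 : ℝ)..(2 * π), C.u (τ, θ) * g θ) -
            ∫ θ in (0 : ℝ)..(2 * π), (C.C0 * Real.exp ((1 - κ) * τ)) * g θ := by
        rw [← intervalIntegral.integral_sub]
        · congr 1; funext θ; ring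
        · exact (((hcont τ hτ).mul hg)).intervalIntegrable _ _
        · exact (continuous_const.mul hg).intervalIntegrable _ _
      rw [h4, intervalIntegral.integral_const_mul, hgi]
      ring
    rw [h3, ← Real.norm_eq_abs]
    have h5 := intervalIntegral.norm_integral_le_of_norm_le_const (a := 0) (b := 2 * π)
      (f := fun θ => (C.u (τ, θ) - C.C0 * Real.exp ((1 - κ) * τ)) * g θ)
      (C := K * Real.exp (aa κ 2 * τ)) (fun θ _ => by
        rw [norm_mul, Real.norm_eq_abs, Real.norm_eq_abs]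
        have h6 := (hE τ θ hτ.le).2.2.2.1
        have h7 := hg1 θ
        calc _ ≤ K * Real.exp (aa κ 2 * τ) * 1 := by gcongr
          _ = _ := mul_one _)
    rwa [sub_zero, abs_of_pos (by positivity)] at h5
  have hcosi : ∫ θ in (0 : ℝ)..(2 * π), Real.cos ((1 : ℕ) * θ) = 0 := by
    simp
  have hsini : ∫ θ in (0 : ℝ)..(2 * π), Real.sin ((1 : ℕ) * θ) = 0 := by
    simp
  have hc1 : c 1 = 0 := by
    apply Complex.ext
    · apply eq_zero_of_decay (a := aa κ 2) (M := 1 / π * (K * (2 * π))) (τ₀ := τ₀) ha12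
      intro τ hτ
      have h3 := hcre 1 le_rfl τ hτ
      rw [ha1] at h3
      rw [h3, abs_mul, abs_of_pos (by positivity : (0 : ℝ) < 1 / π)]
      have h4 := hmode (fun θ => Real.cos ((1 : ℕ) * θ)) (by fun_prop)
        (fun θ => Real.abs_cos_le_one _) hcosi τ hτ
      calc _ ≤ 1 / π * (K * Real.exp (aa κ 2 * τ) * (2 * π)) := by gcongr
        _ = _ := by ring
    · apply eq_zero_of_decay (a := aa κ 2) (M := 1 / π * (K * (2 * π))) (τ₀ := τ₀) ha12
      intro τ hτ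
      have h3 := hcim 1 le_rfl τ hτ
      rw [ha1] at h3
      rw [h3, abs_mul, abs_neg, abs_of_pos (by positivity : (0 : ℝ) < 1 / π)]
      have h4 := hmode (fun θ => Real.sin ((1 : ℕ) * θ)) (by fun_prop)
        (fun θ => Real.abs_sin_le_one _) hsini τ hτ
      calc _ ≤ 1 / π * (K * Real.exp (aa κ 2 * τ) * (2 * π)) := by gcongr
        _ = _ := by ring
  -- the modified coefficients
  set c' : ℕ → ℂ := fun n => if n = 0 then 0 else c n with hc'
  have hc'0 : c' 0 = 0 := by simp [hc']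
  have hc'1 : c' 1 = 0 := by simp [hc', hc1]
  have hmd' : ∀ n θ, n ≠ 0 → md c' n θ = md c n θ := by
    intro n θ hn
    simp [md, hc', hn]
  have hmd0 : ∀ θ, md c' 0 θ = 0 := by
    intro θ; simp [md, hc']
  have hnorm : ∀ n, ‖c' n‖ ≤ ‖c n‖ := by
    intro n
    by_cases hn : n = 0
    · simp [hc', hn]
    · simp [hc', hn]
  have hmdc0 : ∀ θ, md c 0 θ = (C.C0 : ℂ) := by
    intro θ
    have : c 0 = (C.C0 : ℂ) := by
      apply Complex.ext
      · rw [hc0]; simp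
      · rw [hc0im]; simp
    simp [md, this]
  set τa := τ₀ - 1 with hτa
  set τb := τ₀ - 2 with hτb
  have hb5 : ∀ n : ℕ, (1 : ℝ) ≤ (n : ℝ) + 1 := fun n => by
    have : (0 : ℝ) ≤ n := Nat.cast_nonneg n
    linarith
  have hsumA : Summable (fun n : ℕ => ((n : ℝ) + 1) ^ 5 * ‖c' n‖ * Real.exp (aa κ n * τa)) := by
    refine Summable.of_nonneg_of_le (fun n => by positivity) (fun n => ?_)
      (hc τa (by rw [hτa]; linarith)).1
    have := hnorm n
    gcongr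
  obtain ⟨hser, hserS⟩ := series hκ hκ1 hC0 hc'0 hab han hbp hsumA
  -- the sums
  have hs1 : ∀ τ θ, τ ≤ τa → HasSum (fun n : ℕ => (md c' n θ).re * Real.exp (aa κ n * τ))
      (C.u (τ, θ) - C.C0 * Real.exp ((1 - κ) * τ)) := by
    intro τ θ hτ
    have h3 := hasSum_mod (g := fun n : ℕ => (md c' n θ).re * Real.exp (aa κ n * τ))
      ((hc τa (by rw [hτa]; linarith)).2 τ θ hτ).1
      (fun n hn => by rw [hmd' n θ hn]) (by simp [hmd0])
    have h4 : (md c 0 θ).re * Real.exp (aa κ 0 * τ) = C.C0 * Real.exp ((1 - κ) * τ) := by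
      rw [hmdc0, ha0]; simp
    rwa [h4] at h3
  have hs2 : ∀ τ θ, τ ≤ τa → HasSum (fun n : ℕ => aa κ n * (md c' n θ).re * Real.exp (aa κ n * τ))
      (D1 C.u (τ, θ) - (1 - κ) * C.C0 * Real.exp ((1 - κ) * τ)) := by
    intro τ θ hτ
    have h3 := hasSum_mod (g := fun n : ℕ => aa κ n * (md c' n θ).re * Real.exp (aa κ n * τ))
      ((hc τa (by rw [hτa]; linarith)).2 τ θ hτ).2.1
      (fun n hn => by rw [hmd' n θ hn]) (by simp [hmd0])
    have h4 : aa κ 0 * (md c 0 θ).re * Real.exp (aa κ 0 * τ) =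
        (1 - κ) * C.C0 * Real.exp ((1 - κ) * τ) := by
      rw [hmdc0, ha0]; simp
    rwa [h4] at h3
  have hs3 : ∀ τ θ, τ ≤ τa → HasSum
      (fun n : ℕ => -((n : ℝ) * (md c' n θ).im) * Real.exp (aa κ n * τ)) (D2 C.u (τ, θ)) := by
    intro τ θ hτ
    have h3 := hasSum_mod
      (g := fun n : ℕ => -((n : ℝ) * (md c' n θ).im) * Real.exp (aa κ n * τ))
      ((hc τa (by rw [hτa]; linarith)).2 τ θ hτ).2.2.1
      (fun n hn => by rw [hmd' n θ hn]) (by simp)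
    simpa using h3
  set P : ℝ × ℝ → ℝ := fun z => -(κ * BB κ C.C0 * Real.exp (-(1 - κ) * z.1) * D2 C.u z) with hPdef
  set Q : ℝ × ℝ → ℝ := fun z => BB κ C.C0 * Real.exp (-(1 - κ) * z.1) * D1 C.u z - 1 with hQdef
  have hsP : ∀ z : ℝ × ℝ, z.1 ≤ τa → HasSum (fun n => tmP κ C.C0 c' n z) (P z) := by
    intro z hz
    have h3 := (hs3 z.1 z.2 hz).mul_left (-(κ * BB κ C.C0 * Real.exp (-(1 - κ) * z.1)))
    have h4 : (fun n => tmP κ C.C0 c' n z) = fun n : ℕ =>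
        -(κ * BB κ C.C0 * Real.exp (-(1 - κ) * z.1)) *
          (-((n : ℝ) * (md c' n z.2).im) * Real.exp (aa κ n * z.1)) := by
      funext n
      rw [tmP, exp_bb]; ring
    have h5 : P z = -(κ * BB κ C.C0 * Real.exp (-(1 - κ) * z.1)) * D2 C.u (z.1, z.2) := by
      rw [hPdef]; simp only [neg_mul]
    rw [h4, h5]
    exact h3
  have hsQ : ∀ z : ℝ × ℝ, z.1 ≤ τa → HasSum (fun n => tmQ κ C.C0 c' n z) (Q z) := by
    intro z hz
    have h3 := (hs2 z.1 z.2 hz).mul_left (BB κ C.C0 * Real.exp (-(1 - κ) * z.1))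
    have h4 : (fun n => tmQ κ C.C0 c' n z) = fun n : ℕ =>
        (BB κ C.C0 * Real.exp (-(1 - κ) * z.1)) *
          (aa κ n * (md c' n z.2).re * Real.exp (aa κ n * z.1)) := by
      funext n
      rw [tmQ, exp_bb]; ring
    have h6 : Real.exp (-(1 - κ) * z.1) * Real.exp ((1 - κ) * z.1) = 1 := by
      rw [← Real.exp_add, neg_mul, neg_add_cancel, Real.exp_zero]
    have h5 : Q z = (BB κ C.C0 * Real.exp (-(1 - κ) * z.1)) *
        (D1 C.u (z.1, z.2) - (1 - κ) * C.C0 * Real.exp ((1 - κ) * z.1)) := by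
      rw [hQdef]
      linear_combination (BB κ C.C0 * ((1 - κ) * C.C0)) * h6 + hBe
    rw [h4, h5]
    exact h3
  set S : ℝ × ℝ → ℝ := fun z => ∑' n, tm κ C.C0 c' n z with hSdef
  have hS : ∀ z : ℝ × ℝ, z.1 < τa → HasFDerivAt S (lf (P z) (Q z)) z := by
    intro z hz
    have h3 := hser z hz
    rwa [(hsP z hz.le).tsum_eq, (hsQ z hz.le).tsum_eq] at h3
  have hVa : ∀ z : ℝ × ℝ, z.1 ≤ τa → z ∈ C.V := fun z hz => hV0 z (by rw [hτa] at hz; linarith)
  have hVV : VH C.V ⊆ C.V := fun z hz => hz z.1 le_rfl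
  have hVHopen : IsOpen (VH C.V) := VH_open C.Vopen hVa
  have hE' : ContDiff ℝ ∞ (fun z : ℝ × ℝ => Real.exp (-(1 - κ) * z.1)) := by fun_prop
  have hPs : ContDiffOn ℝ ∞ P (VH C.V) :=
    ((contDiffOn_const.mul hE'.contDiffOn).mul ((contDiffOn_D2 C.Vopen hu).mono hVV)).neg
  have hQs : ContDiffOn ℝ ∞ Q (VH C.V) :=
    ((contDiffOn_const.mul hE'.contDiffOn).mul ((contDiffOn_D1 C.Vopen hu).mono hVV)).sub
      contDiffOn_const
  obtain ⟨hG1, hG2⟩ := glue (P := P) (Q := Q) (S := S) (V := VH C.V) (τa := τa) (τ₂ := τb)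
    (by rw [hτa, hτb]; linarith) hPs hQs (fun z hz => closed C.Vopen hu hL (hVV hz))
    (fun z hz => VH_strip C.Vopen hVa hz)
    (fun z hz t ht => hVa _ (le_trans ht hz.le)) hS
  set om : ℝ × ℝ → ℝ := fun z => S (τb, z.2) + ∫ t in τb..z.1, P (t, z.2) with hom
  have homs : ContDiffOn ℝ ∞ om (VH C.V) := by
    rw [contDiffOn_infty_iff_fderiv_of_isOpen hVHopen]
    refine ⟨fun z hz => (hG1 z hz).differentiableAt.differentiableWithinAt, ?_⟩
    exact (contDiffOn_lf hPs hQs).congr (fun z hz => (hG1 z hz).fderiv)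
  refine ⟨{
    T := C.T
    u := C.u
    om := om
    V := VH C.V
    Tcont := C.Tcont
    Tper := C.Tper
    Vopen := hVHopen
    VT := fun z hz t ht => C.VT _ (ht.trans hz)
    sys := ⟨hu.mono hVV, homs, fun z hz => D2_of (hG1 z hz), fun z hz => D1_of (hG1 z hz)⟩
    uper := hper
    omper := ?_
    mean := hmean
    u1 := huT
    pos := hpos
    upos := hupos
    exp := ?_ }, rfl, rfl⟩
  · intro τ θ
    have h3 : S (τb, θ + 2 * π) = S (τb, θ) := by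
      simp only [hSdef, tm, md_per]
    have h4 : ∀ t, P (t, θ + 2 * π) = P (t, θ) := by
      intro t
      simp only [hPdef, D2, fderiv_per hper]
    show S (τb, θ + 2 * π) + ∫ t in τb..τ, P (t, θ + 2 * π) = S (τb, θ) + ∫ t in τb..τ, P (t, θ)
    rw [h3]
    simp only [h4]
  · refine ⟨c', τb, fun θ => by have := hτ₀ θ; rw [hτb]; linarith, ?_, hc'0, hc'1, ?_⟩
    · refine Summable.of_nonneg_of_le (fun n => by positivity) (fun n => ?_)
        (hc τb (by rw [hτb]; linarith)).1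
      have h3 := hnorm n
      have h4 : ((n : ℝ) + 1) ^ 3 ≤ ((n : ℝ) + 1) ^ 5 := pow_le_pow_right₀ (hb5 n) (by norm_num)
      gcongr
    · intro τ θ hτ
      have hτ' : τ ≤ τa := by rw [hτa]; rw [hτb] at hτ; linarith
      have hτ'' : τ < τa := by rw [hτa]; rw [hτb] at hτ; linarith
      refine ⟨hs1 τ θ hτ', hs2 τ θ hτ', hs3 τ θ hτ', ?_⟩
      have h3 : om (τ, θ) = S (τ, θ) := hG2 (τ, θ) hτ''
      rw [h3]
      exact (hserS (τ, θ) hτ').hasSum

end Pool.Agent.Helper25.PCap
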