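import Pool.Agent.Helper25.PCap.GoalsF

/-!
Packet F2 of MP_576c25_an (by helper53): the Fourier expansion of a decaying solution.
-/

set_option autoImplicit false

open MeasureTheory Set Filter Topology
open scoped ContDiff Real

noncomputable section

namespace Pool.Agent.Helper25.PCap

namespace F2

theorem exp_int (g : ℝ → ℝ) (hg : Continuous g) (s : ℝ) :
    ∫ x in (0 : ℝ)..(2 * π), Complex.exp (((s * x : ℝ) : ℂ) * Complex.I) * (g x : ℂ) =
      ((∫ x in (0 : ℝ)..(2 * π), g x * Real.cos (s * x) : ℝ) : ℂ) +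
        Complex.I * ((∫ x in (0 : ℝ)..(2 * π), g x * Real.sin (s * x) : ℝ) : ℂ) := by
  have h1 : ∀ x : ℝ, Complex.exp (((s * x : ℝ) : ℂ) * Complex.I) * (g x : ℂ) =
      ((g x * Real.cos (s * x) : ℝ) : ℂ) + Complex.I * ((g x * Real.sin (s * x) : ℝ) : ℂ) := by
    intro x
    rw [Complex.exp_mul_I]
    push_cast
    ring
  simp_rw [h1]
  rw [intervalIntegral.integral_add, intervalIntegral.integral_const_mul,
    intervalIntegral.integral_ofReal, intervalIntegral.integral_ofReal]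
  · apply Continuous.intervalIntegrable
    fun_prop
  · apply Continuous.intervalIntegrable
    fun_prop

/-- Fourier series of a real periodic function -/
theorem fourier_real (g : ℝ → ℝ) (hg : Continuous g) (hp : ∀ x, g (x + 2 * π) = g x)
    (d : ℕ → ℂ)
    (h0 : d 0 = (((1 / (2 * π)) * ∫ x in (0:ℝ)..(2 * π), g x : ℝ) : ℂ))
    (hre : ∀ n : ℕ, 1 ≤ n → (d n).re = (1 / π) * ∫ x in (0:ℝ)..(2 * π), g x * Real.cos (n * x))
    (him : ∀ n : ℕ, 1 ≤ n → (d n).im = -(1 / π) * ∫ x in (0:ℝ)..(2 * π), g x * Real.sin (n * x))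
    (hs : Summable (fun n => ‖d n‖)) (x : ℝ) :
    HasSum (fun n : ℕ => (md d n x).re) (g x) := by
  have : Fact (0 < 2 * π) := ⟨by positivity⟩
  have hper : Function.Periodic (fun x => (g x : ℂ)) (2 * π) := fun x => by simp [hp]
  have hcont : Continuous (hper.lift) := by
    apply continuous_coinduced_dom.mpr
    change Continuous (fun x => (g x : ℂ))
    fun_prop
  let F : C(AddCircle (2 * π), ℂ) := ⟨hper.lift, hcont⟩
  have hpi : (π : ℂ) ≠ 0 := by exact_mod_cast Real.pi_ne_zero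
  have hF : ∀ x : ℝ, F (x : AddCircle (2 * π)) = (g x : ℂ) := fun x => rfl
  have hco : ∀ n : ℤ, fourierCoeff F n = (1 / (2 * π) : ℂ) *
      (((∫ x in (0 : ℝ)..(2 * π), g x * Real.cos (((-n : ℤ) : ℝ) * x) : ℝ) : ℂ) +
        Complex.I * ((∫ x in (0 : ℝ)..(2 * π), g x * Real.sin (((-n : ℤ) : ℝ) * x) : ℝ) : ℂ)) := by
    intro n
    rw [fourierCoeff_eq_intervalIntegral F n 0, ← exp_int g hg, zero_add]
    rw [Complex.real_smul]
    congr 1
    · push_cast; rfl
    · apply intervalIntegral.integral_congr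
      intro x _
      simp only [hF, fourier_coe_apply, smul_eq_mul]
      congr 2
      push_cast
      field_simp
  have hpos : ∀ n : ℕ, 1 ≤ n → fourierCoeff F (n : ℤ) = d n / 2 := by
    intro n hn
    rw [hco]
    have e1 : ∀ x : ℝ, g x * Real.cos (((-(n : ℤ) : ℤ) : ℝ) * x) = g x * Real.cos (n * x) := by
      intro x; push_cast; rw [neg_mul, Real.cos_neg]
    have e2 : ∀ x : ℝ, g x * Real.sin (((-(n : ℤ) : ℤ) : ℝ) * x) = -(g x * Real.sin (n * x)) := by
      intro x; push_cast; rw [neg_mul, Real.sin_neg]; ring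
    simp_rw [e1, e2]
    rw [intervalIntegral.integral_neg]
    have e3 : d n = ((d n).re : ℂ) + ((d n).im : ℂ) * Complex.I := (Complex.re_add_im _).symm
    rw [e3, hre n hn, him n hn]
    push_cast
    field_simp
    try ring
  have hneg : ∀ n : ℕ, 1 ≤ n → fourierCoeff F (-(n : ℤ)) = (starRingEnd ℂ) (d n) / 2 := by
    intro n hn
    rw [hco]
    have e1 : ∀ x : ℝ, g x * Real.cos (((-(-(n : ℤ)) : ℤ) : ℝ) * x) = g x * Real.cos (n * x) := by
      intro x; push_cast; rw [neg_neg]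
    have e2 : ∀ x : ℝ, g x * Real.sin (((-(-(n : ℤ)) : ℤ) : ℝ) * x) = (g x * Real.sin (n * x)) := by
      intro x; push_cast; rw [neg_neg]
    simp_rw [e1, e2]
    have e3 : (starRingEnd ℂ) (d n) = ((d n).re : ℂ) - ((d n).im : ℂ) * Complex.I := by
      apply Complex.ext <;> simp
    rw [e3, hre n hn, him n hn]
    push_cast
    field_simp
    try ring
  have hzero : fourierCoeff F 0 = d 0 := by
    rw [hco, h0]
    simp
  have hsum : Summable (fourierCoeff F) := by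
    apply Summable.of_nat_of_neg
    · apply Summable.of_norm_bounded hs
      intro n
      rcases Nat.eq_zero_or_pos n with rfl | hn
      · simp [hzero]
      · rw [hpos n hn, norm_div]
        simp only [Complex.norm_ofNat]
        linarith [norm_nonneg (d n)]
    · apply Summable.of_norm_bounded hs
      intro n
      rcases Nat.eq_zero_or_pos n with rfl | hn
      · simp [hzero]
      · rw [hneg n hn, norm_div]
        simp only [Complex.norm_ofNat, RCLike.norm_conj]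
        linarith [norm_nonneg (d n)]
  have H := has_pointwise_sum_fourier_series_of_summable hsum (x : AddCircle (2 * π))
  have H2 := H.nat_add_neg
  have H3 : HasSum (fun n : ℕ => if n = 0 then d 0 else 0) (d 0) := hasSum_ite_eq 0 (d 0)
  have H4 := H2.sub H3
  have e : ∀ n : ℕ, (fourierCoeff F (n : ℤ) • fourier (n : ℤ) (x : AddCircle (2 * π)) +
      fourierCoeff F (-(n : ℤ)) • fourier (-(n : ℤ)) (x : AddCircle (2 * π)) -
      if n = 0 then d 0 else 0) = (((md d n x).re : ℝ) : ℂ) := by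
    intro n
    rcases Nat.eq_zero_or_pos n with rfl | hn
    · simp only [Nat.cast_zero, neg_zero, hzero, fourier_zero, smul_eq_mul, mul_one, if_true, md]
      rw [h0]
      simp
    · rw [hpos n hn, hneg n hn, if_neg (by omega)]
      have e5 : fourier (n : ℤ) (x : AddCircle (2 * π)) = Complex.exp (((n : ℝ) * x : ℝ) * Complex.I) := by
        rw [fourier_coe_apply]
        congr 1
        push_cast
        field_simp
      have e6 : fourier (-(n : ℤ)) (x : AddCircle (2 * π)) =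
          (starRingEnd ℂ) (Complex.exp (((n : ℝ) * x : ℝ) * Complex.I)) := by
        rw [fourier_neg, e5]
      rw [e5, e6]
      have e7 : (((md d n x).re : ℝ) : ℂ) = (md d n x + (starRingEnd ℂ) (md d n x)) / 2 := by
        rw [Complex.re_eq_add_conj]
      rw [e7]
      simp only [md, map_mul, smul_eq_mul, sub_zero]
      ring
  simp_rw [e] at H4
  have H5 : HasSum (fun n : ℕ => (((md d n x).re : ℝ) : ℂ)) ((g x : ℝ) : ℂ) := by
    convert! H4 using 1
    simp only [hzero, hF, fourier_zero, smul_eq_mul, mul_one]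
    ring
  exact_mod_cast (Complex.hasSum_ofReal.mp H5)

/-- the `n`-th mode function and its derivative -/
theorem mode_hasFDerivAt (d : ℕ → ℂ) (a : ℝ) (n : ℕ) (z : ℝ × ℝ) :
    HasFDerivAt (fun z : ℝ × ℝ => (md d n z.2).re * Real.exp (a * z.1))
      ((a * (md d n z.2).re * Real.exp (a * z.1)) • (ContinuousLinearMap.fst ℝ ℝ ℝ) +
       (-((n : ℝ) * (md d n z.2).im) * Real.exp (a * z.1)) • (ContinuousLinearMap.snd ℝ ℝ ℝ)) z := by
  have h1 : ∀ θ : ℝ, (md d n θ).re = (d n).re * Real.cos (n * θ) - (d n).im * Real.sin (n * θ) := by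
    intro θ
    simp only [md, Complex.mul_re, Complex.exp_ofReal_mul_I_re, Complex.exp_ofReal_mul_I_im]
  have h2 : ∀ θ : ℝ, (md d n θ).im = (d n).re * Real.sin (n * θ) + (d n).im * Real.cos (n * θ) := by
    intro θ
    simp only [md, Complex.mul_im, Complex.exp_ofReal_mul_I_re, Complex.exp_ofReal_mul_I_im]
  simp_rw [h1, h2]
  have hf1 : HasFDerivAt (fun z : ℝ × ℝ => z.1) (ContinuousLinearMap.fst ℝ ℝ ℝ) z := hasFDerivAt_fst
  have hf2 : HasFDerivAt (fun z : ℝ × ℝ => z.2) (ContinuousLinearMap.snd ℝ ℝ ℝ) z := hasFDerivAt_snd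
  have hn : HasFDerivAt (fun z : ℝ × ℝ => (n : ℝ) * z.2) ((n : ℝ) • ContinuousLinearMap.snd ℝ ℝ ℝ) z :=
    hf2.const_mul (n : ℝ)
  have hc := hn.cos
  have hs := hn.sin
  have he := (hf1.const_mul a).exp
  have := ((hc.const_mul (d n).re).sub (hs.const_mul (d n).im)).mul he
  refine this.congr_fderiv ?_
  ext
  · simp
    ring
  · simp
    ring

theorem md_norm (d : ℕ → ℂ) (n : ℕ) (θ : ℝ) : ‖md d n θ‖ = ‖d n‖ := by
  simp only [md, norm_mul, Complex.norm_exp_ofReal_mul_I, mul_one]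

/-- termwise differentiation -/
theorem termwise (κ : ℝ) (hκ0 : 0 < κ) (hκ1 : κ < 1) (ha0 : ∀ n : ℕ, 0 ≤ aa κ n)
    (ha1 : ∀ n : ℕ, aa κ n ≤ n + 1)
    (d : ℕ → ℂ) (w : ℝ × ℝ → ℝ) (τ₂ : ℝ)
    (hsum : Summable (fun n : ℕ => ((n : ℝ) + 1) * ‖d n‖ * Real.exp (aa κ n * τ₂)))
    (hw : ∀ z : ℝ × ℝ, z.1 < τ₂ →
      HasSum (fun n : ℕ => (md d n z.2).re * Real.exp (aa κ n * z.1)) (w z))
    (z : ℝ × ℝ) (hz : z.1 < τ₂) :
    HasSum (fun n : ℕ => aa κ n * (md d n z.2).re * Real.exp (aa κ n * z.1)) (D1 w z) ∧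
    HasSum (fun n : ℕ => -((n : ℝ) * (md d n z.2).im) * Real.exp (aa κ n * z.1)) (D2 w z) := by
  have hopen : IsOpen {z : ℝ × ℝ | z.1 < τ₂} := isOpen_lt continuous_fst continuous_const
  have hconv : Convex ℝ {z : ℝ × ℝ | z.1 < τ₂} := by
    have : {z : ℝ × ℝ | z.1 < τ₂} = (Set.Iio τ₂) ×ˢ (Set.univ : Set ℝ) := by
      ext z; simp
    rw [this]
    exact (convex_Iio τ₂).prod convex_univ
  set f' : ℕ → ℝ × ℝ → (ℝ × ℝ →L[ℝ] ℝ) := fun n z =>
    ((aa κ n * (md d n z.2).re * Real.exp (aa κ n * z.1)) • (ContinuousLinearMap.fst ℝ ℝ ℝ) +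
       (-((n : ℝ) * (md d n z.2).im) * Real.exp (aa κ n * z.1)) • (ContinuousLinearMap.snd ℝ ℝ ℝ))
    with hf'
  set u : ℕ → ℝ := fun n => 2 * (((n : ℝ) + 1) * ‖d n‖ * Real.exp (aa κ n * τ₂)) with hu
  have hus : Summable u := hsum.mul_left 2
  have hbound : ∀ n (z : ℝ × ℝ), z ∈ {z : ℝ × ℝ | z.1 < τ₂} → ‖f' n z‖ ≤ u n := by
    intro n z hz
    have hz' : z.1 < τ₂ := hz
    have hE : Real.exp (aa κ n * z.1) ≤ Real.exp (aa κ n * τ₂) :=
      Real.exp_le_exp.mpr (mul_le_mul_of_nonneg_left hz'.le (ha0 n))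
    have hEp := Real.exp_pos (aa κ n * z.1)
    have hr : |(md d n z.2).re| ≤ ‖d n‖ := by
      rw [← md_norm d n z.2]; exact Complex.abs_re_le_norm _
    have hi : |(md d n z.2).im| ≤ ‖d n‖ := by
      rw [← md_norm d n z.2]; exact Complex.abs_im_le_norm _
    have hn0 : (0 : ℝ) ≤ n := Nat.cast_nonneg n
    have hd0 := norm_nonneg (d n)
    calc ‖f' n z‖ ≤ ‖(aa κ n * (md d n z.2).re * Real.exp (aa κ n * z.1)) •
            (ContinuousLinearMap.fst ℝ ℝ ℝ)‖ +
          ‖(-((n : ℝ) * (md d n z.2).im) * Real.exp (aa κ n * z.1)) •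
            (ContinuousLinearMap.snd ℝ ℝ ℝ)‖ := norm_add_le _ _
      _ ≤ |aa κ n * (md d n z.2).re * Real.exp (aa κ n * z.1)| * 1 +
          |-((n : ℝ) * (md d n z.2).im) * Real.exp (aa κ n * z.1)| * 1 := by
          rw [norm_smul, norm_smul]
          gcongr
          · rfl
          · exact ContinuousLinearMap.norm_fst_le ..
          · rfl
          · exact ContinuousLinearMap.norm_snd_le ..
      _ ≤ ((n : ℝ) + 1) * ‖d n‖ * Real.exp (aa κ n * τ₂) +
          ((n : ℝ) + 1) * ‖d n‖ * Real.exp (aa κ n * τ₂) := by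
          rw [mul_one, mul_one, abs_mul, abs_mul, abs_mul, abs_neg, abs_mul, abs_of_pos hEp,
            abs_of_nonneg (ha0 n), abs_of_nonneg hn0]
          have h1 : aa κ n * |(md d n z.2).re| ≤ ((n : ℝ) + 1) * ‖d n‖ :=
            mul_le_mul (ha1 n) hr (abs_nonneg _) (by positivity)
          have h2 : (n : ℝ) * |(md d n z.2).im| ≤ ((n : ℝ) + 1) * ‖d n‖ :=
            mul_le_mul (by linarith) hi (abs_nonneg _) (by positivity)
          gcongr
      _ = u n := by rw [hu]; ring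
  have hfd : ∀ n (z : ℝ × ℝ), z ∈ {z : ℝ × ℝ | z.1 < τ₂} →
      HasFDerivAt (fun z : ℝ × ℝ => (md d n z.2).re * Real.exp (aa κ n * z.1)) (f' n z) z :=
    fun n z _ => mode_hasFDerivAt d (aa κ n) n z
  have key := hasFDerivAt_tsum_of_isPreconnected hus hopen hconv.isPreconnected hfd hbound
    (x₀ := z) hz (hw z hz).summable hz
  have hew : (fun y : ℝ × ℝ => ∑' n : ℕ, (md d n y.2).re * Real.exp (aa κ n * y.1)) =ᶠ[𝓝 z] w := by
    filter_upwards [hopen.mem_nhds hz] with y hy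
    exact (hw y hy).tsum_eq
  have hwd : HasFDerivAt w (∑' n, f' n z) z := key.congr_of_eventuallyEq hew.symm
  have hfs : HasSum (fun n => f' n z) (∑' n, f' n z) :=
    (Summable.of_norm_bounded hus (fun n => hbound n z hz)).hasSum
  constructor
  · have := (ContinuousLinearMap.apply ℝ ℝ ((1, 0) : ℝ × ℝ)).hasSum hfs
    rw [D1, hwd.fderiv]
    convert! this using 1
    ext n
    simp [hf']
  · have := (ContinuousLinearMap.apply ℝ ℝ ((0, 1) : ℝ × ℝ)).hasSum hfs
    rw [D2, hwd.fderiv]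
    convert! this using 1
    ext n
    simp [hf']

end F2

open F2 in
/-- PACKET F2 -/
theorem pkF2 (h : GExpo) (h1 : GF1) : GF2 := by
  intro κ hκ0 hκ1 v τ₀ hv
  obtain ⟨haz, -, -, -, -, hasq, ha1, -⟩ := h κ hκ0 hκ1
  have hF1 := h1 κ hκ0 hκ1 v τ₀ hv
  obtain ⟨hsm, -, hper, A, γ, hγ, hA⟩ := hv
  have ha0 : ∀ n : ℕ, 0 ≤ aa κ n := fun n => le_trans (by positivity) (hasq n)
  have hopen : IsOpen {z : ℝ × ℝ | z.1 < τ₀} := isOpen_lt continuous_fst continuous_const
  have hcont : ∀ τ < τ₀, Continuous (fun θ => v (τ, θ)) := by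
    intro τ hτ
    rw [continuous_iff_continuousAt]
    intro θ
    have hc : ContinuousAt v (τ, θ) := (hsm.continuousOn).continuousAt (hopen.mem_nhds hτ)
    exact ContinuousAt.comp (f := fun θ : ℝ => ((τ, θ) : ℝ × ℝ)) hc (by fun_prop)
  have evC : ∀ (n : ℕ) (τ τ' : ℝ), τ < τ₀ → τ' < τ₀ →
      ∫ θ in (0 : ℝ)..(2 * π), v (τ, θ) * Real.cos (n * θ) =
      Real.exp (aa κ n * (τ - τ')) * ∫ θ in (0 : ℝ)..(2 * π), v (τ', θ) * Real.cos (n * θ) := by
    intro n τ τ' hτ hτ'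
    rcases le_total τ τ' with hle | hle
    · exact (hF1 n τ τ' hle hτ').1
    · rw [(hF1 n τ' τ hle hτ).1, ← mul_assoc, ← Real.exp_add]
      have : aa κ n * (τ - τ') + aa κ n * (τ' - τ) = 0 := by ring
      rw [this, Real.exp_zero, one_mul]
  have evS : ∀ (n : ℕ) (τ τ' : ℝ), τ < τ₀ → τ' < τ₀ →
      ∫ θ in (0 : ℝ)..(2 * π), v (τ, θ) * Real.sin (n * θ) =
      Real.exp (aa κ n * (τ - τ')) * ∫ θ in (0 : ℝ)..(2 * π), v (τ', θ) * Real.sin (n * θ) := by
    intro n τ τ' hτ hτ'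
    rcases le_total τ τ' with hle | hle
    · exact (hF1 n τ τ' hle hτ').2
    · rw [(hF1 n τ' τ hle hτ).2, ← mul_assoc, ← Real.exp_add]
      have : aa κ n * (τ - τ') + aa κ n * (τ' - τ) = 0 := by ring
      rw [this, Real.exp_zero, one_mul]
  have ev0 : ∀ (τ τ' : ℝ), τ < τ₀ → τ' < τ₀ →
      ∫ θ in (0 : ℝ)..(2 * π), v (τ, θ) =
      Real.exp ((1 - κ) * (τ - τ')) * ∫ θ in (0 : ℝ)..(2 * π), v (τ', θ) := by
    intro τ τ' hτ hτ'
    have := evC 0 τ τ' hτ hτ'
    simpa [haz] using this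
  set τs : ℝ := τ₀ - 1 with hτs
  have hτs0 : τs < τ₀ := by rw [hτs]; linarith
  let c : ℕ → ℂ := fun n => if n = 0 then
      ⟨1 / (2 * π) * (Real.exp (-((1 - κ) * τs)) * ∫ θ in (0 : ℝ)..(2 * π), v (τs, θ)), 0⟩
    else ⟨(1 / π) * (Real.exp (-(aa κ n * τs)) *
        ∫ θ in (0 : ℝ)..(2 * π), v (τs, θ) * Real.cos (n * θ)),
      -(1 / π) * (Real.exp (-(aa κ n * τs)) *
        ∫ θ in (0 : ℝ)..(2 * π), v (τs, θ) * Real.sin (n * θ))⟩
  have hc0 : c 0 = ⟨1 / (2 * π) * (Real.exp (-((1 - κ) * τs)) *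
      ∫ θ in (0 : ℝ)..(2 * π), v (τs, θ)), 0⟩ := if_pos rfl
  have hcn : ∀ n : ℕ, 1 ≤ n → c n = ⟨(1 / π) * (Real.exp (-(aa κ n * τs)) *
        ∫ θ in (0 : ℝ)..(2 * π), v (τs, θ) * Real.cos (n * θ)),
      -(1 / π) * (Real.exp (-(aa κ n * τs)) *
        ∫ θ in (0 : ℝ)..(2 * π), v (τs, θ) * Real.sin (n * θ))⟩ := fun n hn => if_neg (by omega)
  have hcre : ∀ n : ℕ, 1 ≤ n → ∀ τ, τ < τ₀ → (c n).re * Real.exp (aa κ n * τ) =
      (1 / π) * ∫ θ in (0 : ℝ)..(2 * π), v (τ, θ) * Real.cos (n * θ) := by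
    intro n hn τ hτ
    rw [hcn n hn, evC n τ τs hτ hτs0]
    have : Real.exp (aa κ n * (τ - τs)) = Real.exp (-(aa κ n * τs)) * Real.exp (aa κ n * τ) := by
      rw [← Real.exp_add]; congr 1; ring
    rw [this]
    ring
  have hcim : ∀ n : ℕ, 1 ≤ n → ∀ τ, τ < τ₀ → (c n).im * Real.exp (aa κ n * τ) =
      -(1 / π) * ∫ θ in (0 : ℝ)..(2 * π), v (τ, θ) * Real.sin (n * θ) := by
    intro n hn τ hτ
    rw [hcn n hn, evS n τ τs hτ hτs0]
    have : Real.exp (aa κ n * (τ - τs)) = Real.exp (-(aa κ n * τs)) * Real.exp (aa κ n * τ) := by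
      rw [← Real.exp_add]; congr 1; ring
    rw [this]
    ring
  have hcre0 : ∀ τ, τ < τ₀ → (c 0).re * Real.exp ((1 - κ) * τ) =
      (1 / (2 * π)) * ∫ θ in (0 : ℝ)..(2 * π), v (τ, θ) := by
    intro τ hτ
    rw [hc0, ev0 τ τs hτ hτs0]
    have : Real.exp ((1 - κ) * (τ - τs)) = Real.exp (-((1 - κ) * τs)) * Real.exp ((1 - κ) * τ) := by
      rw [← Real.exp_add]; congr 1; ring
    rw [this]
    ring
  have hc0im : (c 0).im = 0 := by rw [hc0]
  refine ⟨c, hc0im, hcre, hcim, hcre0, ?_⟩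
  -- bound of the coefficients
  have hbd : ∀ (n : ℕ) (τ : ℝ), τ < τ₀ → ‖c n‖ * Real.exp (aa κ n * τ) ≤
      4 * (A * Real.exp (γ * τ)) := by
    intro n τ hτ
    have hM : ∀ θ, |v (τ, θ)| ≤ A * Real.exp (γ * τ) := fun θ => hA (τ, θ) hτ
    set M := A * Real.exp (γ * τ) with hMdef
    have hM0 : 0 ≤ M := le_trans (abs_nonneg _) (hM 0)
    have hint : ∀ f : ℝ → ℝ, (∀ θ, |f θ| ≤ M) → |∫ θ in (0 : ℝ)..(2 * π), f θ| ≤ M * (2 * π) := by
      intro f hf
      have := intervalIntegral.norm_integral_le_of_norm_le_const (a := (0 : ℝ)) (b := 2 * π)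
        (f := f) (C := M) (fun x _ => hf x)
      simpa [abs_of_pos Real.two_pi_pos] using this
    have hEp := Real.exp_pos (aa κ n * τ)
    rcases Nat.eq_zero_or_pos n with rfl | hn
    · have h1 : ‖c 0‖ ≤ |(c 0).re| := by
        refine (Complex.norm_le_abs_re_add_abs_im _).trans ?_
        rw [hc0im]; simp
      have h2 := hcre0 τ hτ
      rw [haz]
      calc ‖c 0‖ * Real.exp ((1 - κ) * τ) ≤ |(c 0).re| * Real.exp ((1 - κ) * τ) := by gcongr
        _ = |(c 0).re * Real.exp ((1 - κ) * τ)| := by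
            rw [abs_mul, abs_of_pos (Real.exp_pos _)]
        _ = (1 / (2 * π)) * |∫ θ in (0 : ℝ)..(2 * π), v (τ, θ)| := by
            rw [h2, abs_mul, abs_of_pos (by positivity)]
        _ ≤ (1 / (2 * π)) * (M * (2 * π)) := by
            have := hint (fun θ => v (τ, θ)) hM
            gcongr
        _ = M := by field_simp
        _ ≤ 4 * M := by linarith
    · have h2 := hcre n hn τ hτ
      have h3 := hcim n hn τ hτ
      have hMc : ∀ θ, |v (τ, θ) * Real.cos (n * θ)| ≤ M := by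
        intro θ
        rw [abs_mul]
        calc |v (τ, θ)| * |Real.cos (n * θ)| ≤ M * 1 :=
              mul_le_mul (hM θ) (Real.abs_cos_le_one _) (abs_nonneg _) hM0
          _ = M := mul_one M
      have hMs : ∀ θ, |v (τ, θ) * Real.sin (n * θ)| ≤ M := by
        intro θ
        rw [abs_mul]
        calc |v (τ, θ)| * |Real.sin (n * θ)| ≤ M * 1 :=
              mul_le_mul (hM θ) (Real.abs_sin_le_one _) (abs_nonneg _) hM0
          _ = M := mul_one M
      have hic := hint _ hMc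
      have his := hint _ hMs
      calc ‖c n‖ * Real.exp (aa κ n * τ) ≤ (|(c n).re| + |(c n).im|) * Real.exp (aa κ n * τ) := by
            have := Complex.norm_le_abs_re_add_abs_im (c n)
            gcongr
        _ = |(c n).re * Real.exp (aa κ n * τ)| + |(c n).im * Real.exp (aa κ n * τ)| := by
            rw [abs_mul, abs_mul, abs_of_pos hEp]; ring
        _ = (1 / π) * |∫ θ in (0 : ℝ)..(2 * π), v (τ, θ) * Real.cos (n * θ)| +
            (1 / π) * |∫ θ in (0 : ℝ)..(2 * π), v (τ, θ) * Real.sin (n * θ)| := by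
            rw [h2, h3, abs_mul, abs_mul, abs_neg, abs_of_pos (by positivity : (0 : ℝ) < 1 / π)]
        _ ≤ (1 / π) * (M * (2 * π)) + (1 / π) * (M * (2 * π)) := by gcongr
        _ = 4 * M := by field_simp; ring
  have hsumm : ∀ τ₁ : ℝ, τ₁ < τ₀ →
      Summable (fun n : ℕ => ((n : ℝ) + 1) ^ 5 * ‖c n‖ * Real.exp (aa κ n * τ₁)) := by
    intro τ₁ hτ₁
    set τ₂ := (τ₁ + τ₀) / 2 with hτ₂
    have hτ₂0 : τ₂ < τ₀ := by rw [hτ₂]; linarith
    have hδ : 0 < τ₂ - τ₁ := by rw [hτ₂]; linarith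
    set r := Real.sqrt κ * (τ₂ - τ₁) with hr
    have hr0 : 0 < r := mul_pos (Real.sqrt_pos.mpr hκ0) hδ
    have hs1 := Real.summable_pow_mul_exp_neg_nat_mul 5 hr0
    have hs2 := (summable_nat_add_iff 1).mpr hs1
    have hs3 := hs2.mul_left (4 * (A * Real.exp (γ * τ₂)) * Real.exp r)
    refine Summable.of_nonneg_of_le (fun n => by positivity) (fun n => ?_) hs3
    have hb := hbd n τ₂ hτ₂0
    have hC0 : 0 ≤ 4 * (A * Real.exp (γ * τ₂)) := le_trans (by positivity) hb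
    have e1 : ‖c n‖ * Real.exp (aa κ n * τ₁) =
        (‖c n‖ * Real.exp (aa κ n * τ₂)) * Real.exp (-(aa κ n * (τ₂ - τ₁))) := by
      rw [mul_assoc, ← Real.exp_add]; congr 2; ring
    have e2 : Real.exp (-(aa κ n * (τ₂ - τ₁))) ≤ Real.exp (-(r * n)) := by
      apply Real.exp_le_exp.mpr
      have := mul_le_mul_of_nonneg_right (hasq n) hδ.le
      rw [hr]
      linarith
    have e3 : Real.exp r * Real.exp (-r * ((n + 1 : ℕ) : ℝ)) = Real.exp (-(r * n)) := by
      rw [← Real.exp_add]; congr 1; push_cast; ring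
    calc ((n : ℝ) + 1) ^ 5 * ‖c n‖ * Real.exp (aa κ n * τ₁)
        = ((n : ℝ) + 1) ^ 5 * ((‖c n‖ * Real.exp (aa κ n * τ₂)) *
            Real.exp (-(aa κ n * (τ₂ - τ₁)))) := by rw [mul_assoc, e1]
      _ ≤ ((n : ℝ) + 1) ^ 5 * ((4 * (A * Real.exp (γ * τ₂))) * Real.exp (-(r * n))) := by
          gcongr
      _ = 4 * (A * Real.exp (γ * τ₂)) * Real.exp r *
          (((n + 1 : ℕ) : ℝ) ^ 5 * Real.exp (-r * ((n + 1 : ℕ) : ℝ))) := by
          rw [← e3]; push_cast; ring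
  -- pointwise expansion
  have hexp : ∀ z : ℝ × ℝ, z.1 < τ₀ →
      HasSum (fun n : ℕ => (md c n z.2).re * Real.exp (aa κ n * z.1)) (v z) := by
    intro z hz
    have hd := fourier_real (fun θ => v (z.1, θ)) (hcont z.1 hz) (fun x => hper z.1 x)
      (fun n => c n * (Real.exp (aa κ n * z.1) : ℂ)) ?_ ?_ ?_ ?_ z.2
    · have e : ∀ n : ℕ, (md (fun n => c n * (Real.exp (aa κ n * z.1) : ℂ)) n z.2).re =
          (md c n z.2).re * Real.exp (aa κ n * z.1) := by
        intro n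
        have : md (fun n => c n * (Real.exp (aa κ n * z.1) : ℂ)) n z.2 =
            md c n z.2 * (Real.exp (aa κ n * z.1) : ℂ) := by
          simp only [md]; ring
        rw [this, Complex.re_mul_ofReal]
      simp_rw [e] at hd
      exact hd
    · have := hcre0 z.1 hz
      rw [← this, haz]
      apply Complex.ext
      · simp [-Complex.ofReal_exp]
      · simp [-Complex.ofReal_exp, hc0im]
    · intro n hn
      simp only [Complex.re_mul_ofReal]
      exact hcre n hn z.1 hz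
    · intro n hn
      simp only [Complex.im_mul_ofReal]
      exact hcim n hn z.1 hz
    · have := hsumm z.1 hz
      refine Summable.of_nonneg_of_le (fun n => norm_nonneg _) (fun n => ?_) this
      rw [norm_mul, Complex.norm_real, Real.norm_eq_abs, abs_of_pos (Real.exp_pos _), mul_assoc]
      have h5 : (1 : ℝ) ≤ ((n : ℝ) + 1) ^ 5 := one_le_pow₀ (by linarith [Nat.cast_nonneg (α := ℝ) n])
      exact le_mul_of_one_le_left (by positivity) h5
  intro τ₁ hτ₁
  refine ⟨hsumm τ₁ hτ₁, ?_⟩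
  intro τ θ hτ
  set τ₂ := (τ₁ + τ₀) / 2 with hτ₂
  have hτ₂0 : τ₂ < τ₀ := by rw [hτ₂]; linarith
  have hτ₂1 : τ₁ < τ₂ := by rw [hτ₂]; linarith
  have hS := hsumm τ₂ hτ₂0
  have hS1 : Summable (fun n : ℕ => ((n : ℝ) + 1) * ‖c n‖ * Real.exp (aa κ n * τ₂)) := by
    refine Summable.of_nonneg_of_le (fun n => by positivity) (fun n => ?_) hS
    have hn0 : (1 : ℝ) ≤ (n : ℝ) + 1 := by linarith [Nat.cast_nonneg (α := ℝ) n]
    have : ((n : ℝ) + 1) ≤ ((n : ℝ) + 1) ^ 5 := by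
      calc ((n : ℝ) + 1) = ((n : ℝ) + 1) ^ 1 := (pow_one _).symm
        _ ≤ ((n : ℝ) + 1) ^ 5 := pow_le_pow_right₀ hn0 (by norm_num)
    gcongr
  have hT := termwise κ hκ0 hκ1 ha0 ha1 c v τ₂ hS1 (fun z hz => hexp z (lt_trans hz hτ₂0))
  have hS2 : Summable (fun n : ℕ => ((n : ℝ) + 1) * ‖(aa κ n : ℂ) * c n‖ *
      Real.exp (aa κ n * τ₂)) := by
    refine Summable.of_nonneg_of_le (fun n => by positivity) (fun n => ?_) hS
    have hn0 : (1 : ℝ) ≤ (n : ℝ) + 1 := by linarith [Nat.cast_nonneg (α := ℝ) n]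
    rw [norm_mul, Complex.norm_real, Real.norm_eq_abs, abs_of_nonneg (ha0 n)]
    have h2 : ((n : ℝ) + 1) * (aa κ n) ≤ ((n : ℝ) + 1) ^ 5 := by
      calc ((n : ℝ) + 1) * (aa κ n) ≤ ((n : ℝ) + 1) * ((n : ℝ) + 1) := by
            gcongr; exact ha1 n
        _ = ((n : ℝ) + 1) ^ 2 := by ring
        _ ≤ ((n : ℝ) + 1) ^ 5 := pow_le_pow_right₀ hn0 (by norm_num)
    calc ((n : ℝ) + 1) * (aa κ n * ‖c n‖) * Real.exp (aa κ n * τ₂)
        = (((n : ℝ) + 1) * aa κ n) * (‖c n‖ * Real.exp (aa κ n * τ₂)) := by ring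
      _ ≤ ((n : ℝ) + 1) ^ 5 * (‖c n‖ * Real.exp (aa κ n * τ₂)) := by gcongr
      _ = ((n : ℝ) + 1) ^ 5 * ‖c n‖ * Real.exp (aa κ n * τ₂) := by ring
  have hmd : ∀ (n : ℕ) (θ : ℝ), md (fun n => (aa κ n : ℂ) * c n) n θ = (aa κ n : ℂ) * md c n θ := by
    intro n θ; simp only [md]; ring
  have hT2 := termwise κ hκ0 hκ1 ha0 ha1 (fun n => (aa κ n : ℂ) * c n) (D1 v) τ₂ hS2
    (fun z hz => by
      have := (hT z hz).1
      simp_rw [hmd, Complex.re_ofReal_mul]
      exact this)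
  have hzz : ((τ, θ) : ℝ × ℝ).1 < τ₂ := lt_of_le_of_lt hτ hτ₂1
  refine ⟨hexp (τ, θ) (lt_trans hzz hτ₂0), (hT (τ, θ) hzz).1, (hT (τ, θ) hzz).2, ?_, ?_⟩
  · have := (hT2 (τ, θ) hzz).1
    simp_rw [hmd, Complex.re_ofReal_mul] at this
    convert! this using 1
    ext n
    ring
  · have := (hT2 (τ, θ) hzz).2
    simp_rw [hmd, Complex.im_ofReal_mul] at this
    convert! this using 1
    ext n
    ring

end Pool.Agent.Helper25.PCap
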