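import Pool.Agent.Helper25.PCap.GoalsFin

/-!
PACKET FIN1 (MP_576c25_an): lower bound for the energies of a convex set by capacities of
configurations.
-/

set_option autoImplicit false

open MeasureTheory Set Filter Topology
open scoped ContDiff Real

noncomputable section

namespace Pool.Agent.Helper25.PCap

namespace PkFIN1

/-- homogeneity of the energy -/
lemma En_smul (p l : ℝ) (hl : 0 < l) (ψ : ℝ × ℝ → ℝ) (hψ : ContDiff ℝ 1 ψ) :
    En p (fun x => l⁻¹ * ψ x) = (l ^ p)⁻¹ * En p ψ := by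
  have hd : Differentiable ℝ ψ := hψ.differentiable (by norm_num)
  unfold En
  rw [← integral_const_mul]
  congr 1
  funext x
  have e1 : fderiv ℝ (fun x => l⁻¹ * ψ x) x = l⁻¹ • fderiv ℝ ψ x :=
    fderiv_const_mul (hd x) l⁻¹
  have e2 : D1 (fun x => l⁻¹ * ψ x) x = l⁻¹ * D1 ψ x := by
    unfold D1; rw [e1]; rfl
  have e3 : D2 (fun x => l⁻¹ * ψ x) x = l⁻¹ * D2 ψ x := by
    unfold D2; rw [e1]; rfl
  rw [e2, e3]
  have e4 : (l⁻¹ * D1 ψ x) ^ 2 + (l⁻¹ * D2 ψ x) ^ 2 =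
      (l⁻¹) ^ 2 * ((D1 ψ x) ^ 2 + (D2 ψ x) ^ 2) := by ring
  rw [e4, Real.mul_rpow (by positivity) (by positivity)]
  congr 1
  rw [← Real.rpow_natCast, ← Real.rpow_mul (by positivity), Real.inv_rpow hl.le]
  congr 2
  push_cast
  ring

/-- choice of the scaling factor -/
lemma exists_scale (p c e : ℝ) (hp : 0 < p) (hc : 0 ≤ c) (he : 0 < e) :
    ∃ l : ℝ, 0 < l ∧ l < 1 ∧ (l ^ p)⁻¹ * c ≤ c + e := by
  have hce : 0 < c + e := by linarith
  set r : ℝ := c / (c + e) with hr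
  have hr0 : 0 ≤ r := by positivity
  have hr1 : r < 1 := by rw [hr, div_lt_one hce]; linarith
  have hm0 : 0 < (1 + r) / 2 := by positivity
  refine ⟨((1 + r) / 2) ^ (1 / p), by positivity, ?_, ?_⟩
  · exact Real.rpow_lt_one hm0.le (by linarith) (by positivity)
  · rw [← Real.rpow_mul hm0.le, one_div_mul_cancel hp.ne', Real.rpow_one,
      inv_mul_le_iff₀ hm0]
    have h1 : c = r * (c + e) := by rw [hr]; field_simp
    nlinarith

end PkFIN1

open PkFIN1 in
theorem pkFin1 (ht : GTransfer) (hs : GSupp) (tp : TPart) (h3 : GP3) (h2 : GP2)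
    (pl : PLower) : GFin1 := by
  intro κ hκ hκ1 Ω hne hb hconv c hc e he
  obtain ⟨u, huc, husupp, ⟨U, hUo, hΩU, hU1⟩, hceq⟩ := hc
  have hp : (0 : ℝ) < 1 + κ := by linarith
  have hc0 : 0 ≤ c := by
    rw [hceq]
    exact integral_nonneg fun x => Real.rpow_nonneg (norm_nonneg _) _
  obtain ⟨l, hl0, hl1, hlc⟩ := exists_scale (1 + κ) c e hp hc0 he
  have hucl : closure Ω ⊆ {x | l < u x} := by
    have h1 : closure Ω ⊆ {x | 1 ≤ u x} := by
      apply closure_minimal _ (isClosed_le continuous_const huc.continuous)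
      intro x hx
      exact hU1 x (hΩU hx)
    intro x hx
    have h2 : 1 ≤ u x := h1 hx
    exact lt_of_lt_of_le hl1 h2
  have hcomp : IsCompact (closure Ω) := hb.isCompact_closure
  obtain ⟨ζ, hζ, hζsub⟩ := hcomp.exists_cthickening_subset_open
    (isOpen_lt continuous_const huc.continuous) hucl
  obtain ⟨-, -, happ, hlast⟩ := hs Ω hne hb hconv
  obtain ⟨H, hHs, hHp, hHr, hHb⟩ := happ (ζ / 2) (by linarith)
  obtain ⟨C, hC⟩ := tp κ hκ hκ1 H hHs hHp hHr (ζ / 2) (by linarith)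
  obtain ⟨ht1, -, -, hofto, hinner, -, -, -⟩ := ht
  obtain ⟨-, -, hlev1, -⟩ := h2 κ hκ hκ1 C
  obtain ⟨hHs1, -, -, -, hdn, -⟩ := h3 κ hκ hκ1 C
  refine ⟨C, fun θ => (hHb θ).1.trans (hC θ).1, ?_⟩
  have hbd : ∀ θ, l < u (toE (C.X (C.T θ, θ))) := by
    intro θ
    have h4 : ∀ θ', (inner ℝ (toE (C.X (C.T θ, θ))) (nuE θ') : ℝ) ≤ hE Ω θ' + ζ := by
      intro θ'
      rw [hinner, hofto]
      have h5 := hdn 1 θ θ' one_pos le_rfl
      rw [hlev1, hHs1] at h5
      have h6 := (hC θ').2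
      have h7 := (hHb θ').2
      linarith
    obtain ⟨y', hy', hyd⟩ := hlast ζ _ hζ.le h4
    exact hζsub (Metric.mem_cthickening_of_dist_le _ y' ζ _ hy' hyd)
  obtain ⟨g1, g2, g3⟩ := ht1 (1 + κ) u (by linarith) huc husupp
  have k1 := pl κ hκ hκ1 C (fun x => l⁻¹ * u (toE x)) (contDiff_const.mul g1)
    (g2.mul_left) (by
      intro θ
      rw [le_inv_mul_iff₀ hl0, mul_one]
      exact (hbd θ).le)
  rw [En_smul (1 + κ) l hl0 _ g1, ← g3, ← hceq] at k1
  exact k1.trans hlc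

end Pool.Agent.Helper25.PCap
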