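import Pool.Agent.Helper25.PCap.GoalsFin

/-!
Planar p-capacity (MP_576c25_an): PACKET FIN2 (helper85). Upper bound for the segment.
-/

set_option autoImplicit false

open MeasureTheory Set Filter Topology
open scoped ContDiff Real

noncomputable section

namespace Pool.Agent.Helper25.PCap

/-- the polar angle of the segment direction -/
theorem fin2_angle (a b : E2) : ∃ φ : ℝ,
    b 0 - a 0 = dist a b * (-Real.sin φ) ∧ b 1 - a 1 = dist a b * Real.cos φ := by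
  set v : ℂ := ⟨b 0 - a 0, b 1 - a 1⟩ with hv
  have hn : ‖v‖ = dist a b := by
    rw [EuclideanSpace.dist_eq, Fin.sum_univ_two, Complex.norm_def, Complex.normSq_mk]
    congr 1
    rw [Real.dist_eq, Real.dist_eq, sq_abs, sq_abs]
    ring
  refine ⟨Complex.arg v - π / 2, ?_, ?_⟩
  · have h1 : Real.sin (Complex.arg v - π / 2) = -Real.cos (Complex.arg v) := by
      rw [Real.sin_sub_pi_div_two]
    rw [h1, ← hn, neg_neg, Complex.norm_mul_cos_arg]
  · have h1 : Real.cos (Complex.arg v - π / 2) = Real.sin (Complex.arg v) := by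
      rw [Real.cos_sub_pi_div_two]
    rw [h1, ← hn, Complex.norm_mul_sin_arg]

/-- choice of the level `s` -/
theorem fin2_level (κ A e : ℝ) (he : 0 < e) : ∃ s : ℝ, 0 < s ∧ s < 1 ∧
    A * s ^ (-κ) ≤ A + e := by
  have hc : ContinuousAt (fun s : ℝ => A * s ^ (-κ)) 1 := by
    apply ContinuousAt.mul continuousAt_const
    exact Real.continuousAt_rpow_const 1 (-κ) (Or.inl one_ne_zero)
  have ht : Tendsto (fun s : ℝ => A * s ^ (-κ)) (𝓝 1) (𝓝 A) := by
    have := hc.tendsto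
    simpa using this
  have h1 : ∀ᶠ s : ℝ in 𝓝 1, A * s ^ (-κ) < A + e :=
    ht.eventually (gt_mem_nhds (by linarith : A < A + e))
  have h2 : ∀ᶠ s : ℝ in 𝓝 1, (0 : ℝ) < s := lt_mem_nhds one_pos
  have h3 : ∀ᶠ s : ℝ in 𝓝[<] (1 : ℝ), A * s ^ (-κ) < A + e ∧ 0 < s ∧ s < 1 := by
    have h4 : ∀ᶠ s : ℝ in 𝓝[<] (1 : ℝ), A * s ^ (-κ) < A + e ∧ 0 < s :=
      nhdsWithin_le_nhds (h1.and h2)
    filter_upwards [h4, self_mem_nhdsWithin] with s hs hs'
    exact ⟨hs.1, hs.2, hs'⟩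
  obtain ⟨s, hs1, hs2, hs3⟩ := h3.exists
  exact ⟨s, hs2, hs3, hs1.le⟩

/-- PACKET FIN2. -/
theorem pkFin2 (ht : GTransfer) (h15 : GS15) (hsh : GShift) (pu : PUpper) : GFin2 := by
  intro κ hκ0 hκ1 S h a b hab e he
  obtain ⟨_, ht2, htE1, htE2, htI, htS, htc1, htc2⟩ := ht
  obtain ⟨s, hs0, hs1, hsA⟩ :=
    fin2_level κ (2 * π * (1 - κ) * (S.C0 * Real.exp ((1 - κ) * h)) / κ) (e / 2) (by linarith)
  obtain ⟨C, hC0, hCH⟩ := h15 κ hκ0 hκ1 S s hs0 hs1
  obtain ⟨C1, hC10, hC1H⟩ := (hsh κ hκ0 hκ1 C).1 h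
  obtain ⟨φ, hφ0, hφ1⟩ := fin2_angle a b
  obtain ⟨C2, hC20, hC2H⟩ := (hsh κ hκ0 hκ1 C1).2.1 φ
  obtain ⟨C3, hC30, hC3H⟩ := (hsh κ hκ0 hκ1 C2).2.2 ((a 0 + b 0) / 2, (a 1 + b 1) / 2)
  have hkey : ∀ θ, dist a b / 2 * |Real.sin (θ - φ)| ≤ Real.exp h * C.H (θ - φ) := by
    intro θ
    have h1 := hCH (θ - φ)
    have h2 : 0 < Real.exp h := Real.exp_pos h
    have h3 : dist a b / 2 ≤ Real.exp h * (S.Per / 4) := by linarith
    calc dist a b / 2 * |Real.sin (θ - φ)|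
        ≤ Real.exp h * (S.Per / 4) * |Real.sin (θ - φ)| :=
          mul_le_mul_of_nonneg_right h3 (abs_nonneg _)
      _ = Real.exp h * (S.Per / 4 * |Real.sin (θ - φ)|) := by ring
      _ ≤ Real.exp h * C.H (θ - φ) := mul_le_mul_of_nonneg_left h1 h2.le
  have hH3 : ∀ θ, C3.H θ = Real.exp h * C.H (θ - φ) +
      ((a 0 + b 0) / 2 * Real.cos θ + (a 1 + b 1) / 2 * Real.sin θ) := by
    intro θ
    rw [hC3H θ, hC2H θ, hC1H (θ - φ)]
  have hda : ∀ θ, dn (ofE a) θ ≤ C3.H θ := by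
    intro θ
    rw [hH3 θ]
    have h1 := hkey θ
    have h2 : -(dist a b / 2 * Real.sin (θ - φ)) ≤ dist a b / 2 * |Real.sin (θ - φ)| := by
      have : -Real.sin (θ - φ) ≤ |Real.sin (θ - φ)| := neg_le_abs _
      have hd : 0 ≤ dist a b / 2 := by positivity
      nlinarith
    have h3 : dn (ofE a) θ = (a 0 + b 0) / 2 * Real.cos θ + (a 1 + b 1) / 2 * Real.sin θ
        - dist a b / 2 * Real.sin (θ - φ) := by
      rw [Real.sin_sub]
      simp only [dn, ofE]
      have e0 : a 0 = b 0 - dist a b * (-Real.sin φ) := by linarith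
      have e1 : a 1 = b 1 - dist a b * Real.cos φ := by linarith
      have e0' : a 0 = (a 0 + b 0) / 2 - dist a b * (-Real.sin φ) / 2 := by linarith
      have e1' : a 1 = (a 1 + b 1) / 2 - dist a b * Real.cos φ / 2 := by linarith
      have key : a 0 * Real.cos θ + a 1 * Real.sin θ =
          ((a 0 + b 0) / 2 - dist a b * (-Real.sin φ) / 2) * Real.cos θ +
          ((a 1 + b 1) / 2 - dist a b * Real.cos φ / 2) * Real.sin θ := by
        rw [← e0', ← e1']
      rw [key]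
      ring
    linarith
  have hdb : ∀ θ, dn (ofE b) θ ≤ C3.H θ := by
    intro θ
    rw [hH3 θ]
    have h1 := hkey θ
    have h2 : dist a b / 2 * Real.sin (θ - φ) ≤ dist a b / 2 * |Real.sin (θ - φ)| := by
      have : Real.sin (θ - φ) ≤ |Real.sin (θ - φ)| := le_abs_self _
      have hd : 0 ≤ dist a b / 2 := by positivity
      nlinarith
    have h3 : dn (ofE b) θ = (a 0 + b 0) / 2 * Real.cos θ + (a 1 + b 1) / 2 * Real.sin θ
        + dist a b / 2 * Real.sin (θ - φ) := by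
      rw [Real.sin_sub]
      simp only [dn, ofE]
      have e0' : b 0 = (a 0 + b 0) / 2 + dist a b * (-Real.sin φ) / 2 := by linarith
      have e1' : b 1 = (a 1 + b 1) / 2 + dist a b * Real.cos φ / 2 := by linarith
      have key : b 0 * Real.cos θ + b 1 * Real.sin θ =
          ((a 0 + b 0) / 2 + dist a b * (-Real.sin φ) / 2) * Real.cos θ +
          ((a 1 + b 1) / 2 + dist a b * Real.cos φ / 2) * Real.sin θ := by
        rw [← e0', ← e1']
      rw [key]
      ring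
    linarith
  obtain ⟨f, hf1, hf2, ⟨U, hU1, hU2, hU3⟩, hfE⟩ :=
    pu κ hκ0 hκ1 C3 (ofE a) (ofE b) hda hdb (e / 2) (by linarith)
  obtain ⟨g1, g2, g3⟩ := ht2 (1 + κ) f (by linarith) hf1 hf2
  refine ⟨En (1 + κ) f, ⟨fun y => f (ofE y), g1, g2,
    ⟨ofE ⁻¹' U, hU1.preimage htc2, ?_, ?_⟩, g3.symm⟩, ?_⟩
  · intro y hy
    apply hU2
    rw [← htS a b]
    exact mem_image_of_mem _ hy
  · intro y hy
    exact hU3 (ofE y) hy
  · have hcap : C3.cap = 2 * π * (1 - κ) * (S.C0 * Real.exp ((1 - κ) * h)) / κ * s ^ (-κ) := by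
      simp only [Config.cap]
      rw [hC30, hC20, hC10, hC0]
      ring
    rw [hcap] at hfE
    linarith

end Pool.Agent.Helper25.PCap
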