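import Pool.Agent.Helper25.PCap.GoalsP
import Pool.Agent.Helper25.PCap.GoalsF

/-!
PACKET P1: derivatives of the physical map.
-/

set_option autoImplicit false

open MeasureTheory Set Filter Topology
open scoped ContDiff Real

noncomputable section

namespace Pool.Agent.Helper25.PCap

namespace PkP1

theorem det_pair (L : ℝ × ℝ →ₗ[ℝ] ℝ × ℝ) :
    LinearMap.det L = (L (1, 0)).1 * (L (0, 1)).2 - (L (0, 1)).1 * (L (1, 0)).2 := by
  rw [← LinearMap.det_toMatrix (Module.Basis.finTwoProd ℝ), Matrix.det_fin_two]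
  simp [LinearMap.toMatrix_apply]

theorem contDiffOn_D1 {f : ℝ × ℝ → ℝ} {V : Set (ℝ × ℝ)} (hV : IsOpen V)
    (hf : ContDiffOn ℝ ∞ f V) : ContDiffOn ℝ ∞ (D1 f) V :=
  (hf.fderiv_of_isOpen hV (by simp)).clm_apply contDiffOn_const

theorem contDiffOn_D2 {f : ℝ × ℝ → ℝ} {V : Set (ℝ × ℝ)} (hV : IsOpen V)
    (hf : ContDiffOn ℝ ∞ f V) : ContDiffOn ℝ ∞ (D2 f) V :=
  (hf.fderiv_of_isOpen hV (by simp)).clm_apply contDiffOn_const

theorem diffAt {f : ℝ × ℝ → ℝ} {V : Set (ℝ × ℝ)} (hV : IsOpen V) (hf : ContDiffOn ℝ ∞ f V)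
    {z : ℝ × ℝ} (hz : z ∈ V) : HasFDerivAt f (fderiv ℝ f z) z :=
  ((hf.contDiffAt (hV.mem_nhds hz)).differentiableAt (by simp)).hasFDerivAt

/-- the derivative of `e^{-τ} (a cos θ - b sin θ)` and `e^{-τ} (a sin θ + b cos θ)` -/
theorem hasFDerivAt_pair {a b : ℝ × ℝ → ℝ} {a' b' : ℝ × ℝ →L[ℝ] ℝ} {z : ℝ × ℝ}
    (ha : HasFDerivAt a a' z) (hb : HasFDerivAt b b' z) :
    ∃ L : ℝ × ℝ →L[ℝ] ℝ × ℝ, HasFDerivAt (fun z : ℝ × ℝ =>
      (Real.exp (-z.1) * (a z * Real.cos z.2 - b z * Real.sin z.2),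
       Real.exp (-z.1) * (a z * Real.sin z.2 + b z * Real.cos z.2))) L z ∧
      L (1, 0) = (Real.exp (-z.1) * ((a' (1, 0) - a z) * Real.cos z.2 -
          (b' (1, 0) - b z) * Real.sin z.2),
        Real.exp (-z.1) * ((a' (1, 0) - a z) * Real.sin z.2 +
          (b' (1, 0) - b z) * Real.cos z.2)) ∧
      L (0, 1) = (Real.exp (-z.1) * ((a' (0, 1) - b z) * Real.cos z.2 -
          (b' (0, 1) + a z) * Real.sin z.2),
        Real.exp (-z.1) * ((a' (0, 1) - b z) * Real.sin z.2 +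
          (b' (0, 1) + a z) * Real.cos z.2)) := by
  have h1 : HasFDerivAt (fun z : ℝ × ℝ => z.1) (ContinuousLinearMap.fst ℝ ℝ ℝ) z :=
    hasFDerivAt_fst
  have h2 : HasFDerivAt (fun z : ℝ × ℝ => z.2) (ContinuousLinearMap.snd ℝ ℝ ℝ) z :=
    hasFDerivAt_snd
  have he := h1.neg.exp
  have hc := h2.cos
  have hs := h2.sin
  have hx := he.mul ((ha.mul hc).sub (hb.mul hs))
  have hy := he.mul ((ha.mul hs).add (hb.mul hc))
  refine ⟨_, hx.prodMk hy, ?_, ?_⟩
  · refine Prod.ext ?_ ?_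
    · simp
      ring
    · simp
      ring
  · refine Prod.ext ?_ ?_
    · simp
      ring
    · simp
      ring

end PkP1

open PkP1 in
theorem pkP1 (hc : GCU0) : GP1 := by
  intro κ hκ hκ1 C
  obtain ⟨hu, hL, hD1, hD1', hD2, hDD, -⟩ := hc κ hκ hκ1 C
  have ha := contDiffOn_D1 C.Vopen C.smooth
  have hb := contDiffOn_D2 C.Vopen C.smooth
  constructor
  · have h1 : ContDiff ℝ ∞ (fun z : ℝ × ℝ => Real.exp (-z.1)) := contDiff_fst.neg.exp
    have h2 : ContDiff ℝ ∞ (fun z : ℝ × ℝ => Real.cos z.2) := contDiff_snd.cos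
    have h3 : ContDiff ℝ ∞ (fun z : ℝ × ℝ => Real.sin z.2) := contDiff_snd.sin
    exact (h1.contDiffOn.mul ((ha.mul h2.contDiffOn).sub (hb.mul h3.contDiffOn))).prodMk
      (h1.contDiffOn.mul ((ha.mul h3.contDiffOn).add (hb.mul h2.contDiffOn)))
  · intro z hz
    obtain ⟨L, h1, h2, h3⟩ := hasFDerivAt_pair (diffAt C.Vopen ha hz) (diffAt C.Vopen hb hz)
    have hX : fderiv ℝ C.X z = L := HasFDerivAt.fderiv (f := C.X) h1
    have e1 : fderiv ℝ (D1 C.W) z (1, 0) = D1 C.W z - D1 C.u z := by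
      have := hD1 z hz
      change D1 (D1 C.W) z = _
      linarith
    have e2 : fderiv ℝ (D2 C.W) z (1, 0) = D2 C.W z - D2 C.u z := by
      have := hD2 z hz
      change D1 (D2 C.W) z = _
      linarith
    have e3 : fderiv ℝ (D1 C.W) z (0, 1) = D2 C.W z - D2 C.u z := by
      have h4 := hD2 z hz
      have h5 := hDD z hz
      change D2 (D1 C.W) z = _
      linarith
    have e4 : fderiv ℝ (D2 C.W) z (0, 1) = D1 C.u z / κ - D1 C.W z := by
      have h4 := hD1' z hz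
      change D2 (D2 C.W) z = _
      rw [h4]
      field_simp
      ring
    rw [e1, e2] at h2
    rw [e3, e4] at h3
    have g1 : fderiv ℝ C.X z (1, 0) =
      (-(Real.exp (-z.1) * (D1 C.u z * Real.cos z.2 - D2 C.u z * Real.sin z.2)),
       -(Real.exp (-z.1) * (D1 C.u z * Real.sin z.2 + D2 C.u z * Real.cos z.2))) := by
      rw [hX, h2]
      refine Prod.ext ?_ ?_ <;> simp only <;> ring
    have g2 : fderiv ℝ C.X z (0, 1) =
      (Real.exp (-z.1) * (-(D2 C.u z * Real.cos z.2) - D1 C.u z / κ * Real.sin z.2),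
       Real.exp (-z.1) * (-(D2 C.u z * Real.sin z.2) + D1 C.u z / κ * Real.cos z.2)) := by
      rw [hX, h3]
      refine Prod.ext ?_ ?_ <;> simp only <;> ring
    refine ⟨g1, g2, ?_⟩
    have h6 : (fderiv ℝ C.X z).det = LinearMap.det (fderiv ℝ C.X z : ℝ × ℝ →ₗ[ℝ] ℝ × ℝ) := rfl
    rw [h6, det_pair]
    simp only [ContinuousLinearMap.coe_coe]
    rw [g1, g2]
    simp only
    have h7 : Real.exp (-(2 * z.1)) = Real.exp (-z.1) * Real.exp (-z.1) := by
      rw [← Real.exp_add]; congr 1; ring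
    rw [h7, Config.Q]
    have h8 := Real.sin_sq_add_cos_sq z.2
    have h9 : Real.cos z.2 ^ 2 = 1 - Real.sin z.2 ^ 2 := by linarith
    field_simp
    ring_nf
    rw [h9]
    ring

end Pool.Agent.Helper25.PCap
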