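import Pool.Agent.Helper25.PCap.GoalsP
import Pool.Agent.Helper25.PCap.GoalsF

/-!
PACKET P10a: change of variables for the physical map.
-/

set_option autoImplicit false

open MeasureTheory Set Filter Topology
open scoped ContDiff Real

noncomputable section

namespace Pool.Agent.Helper25.PCap

namespace P10a

theorem contOn_D1 {f : ℝ × ℝ → ℝ} {V : Set (ℝ × ℝ)} (hV : IsOpen V)
    (hf : ContDiffOn ℝ ∞ f V) : ContinuousOn (D1 f) V :=
  ((hf.fderiv_of_isOpen (m := 0) hV (by simp)).clm_apply contDiffOn_const).continuousOn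

theorem contOn_D2 {f : ℝ × ℝ → ℝ} {V : Set (ℝ × ℝ)} (hV : IsOpen V)
    (hf : ContDiffOn ℝ ∞ f V) : ContinuousOn (D2 f) V :=
  ((hf.fderiv_of_isOpen (m := 0) hV (by simp)).clm_apply contDiffOn_const).continuousOn

theorem measurable_R {κ : ℝ} (C : Config κ) (M : ℝ) : MeasurableSet (C.R M) := by
  have h1 : MeasurableSet {z : ℝ × ℝ | -M < z.1} :=
    measurableSet_lt measurable_const measurable_fst
  have h2 : MeasurableSet {z : ℝ × ℝ | z.1 < C.T z.2} :=
    measurableSet_lt measurable_fst (C.Tcont.measurable.comp measurable_snd)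
  have h3 : MeasurableSet {z : ℝ × ℝ | 0 ≤ z.2} :=
    measurableSet_le measurable_const measurable_snd
  have h4 : MeasurableSet {z : ℝ × ℝ | z.2 < 2 * π} :=
    measurableSet_lt measurable_snd measurable_const
  exact h1.inter (h2.inter (h3.inter h4))

/-- the closed region -/
def K {κ : ℝ} (C : Config κ) (M : ℝ) : Set (ℝ × ℝ) :=
  {z | -M ≤ z.1 ∧ z.1 ≤ C.T z.2 ∧ 0 ≤ z.2 ∧ z.2 ≤ 2 * π}

theorem compact_K {κ : ℝ} (C : Config κ) (M : ℝ) : IsCompact (K C M) := by
  obtain ⟨B, hB⟩ := (isCompact_Icc (a := (0 : ℝ)) (b := 2 * π)).bddAbove_image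
    C.Tcont.continuousOn
  have h1 : IsCompact (Icc (-M) B ×ˢ Icc (0 : ℝ) (2 * π)) := isCompact_Icc.prod isCompact_Icc
  refine h1.of_isClosed_subset ?_ ?_
  · have a1 : IsClosed {z : ℝ × ℝ | -M ≤ z.1} := isClosed_le continuous_const continuous_fst
    have a2 : IsClosed {z : ℝ × ℝ | z.1 ≤ C.T z.2} :=
      isClosed_le continuous_fst (C.Tcont.comp continuous_snd)
    have a3 : IsClosed {z : ℝ × ℝ | 0 ≤ z.2} := isClosed_le continuous_const continuous_snd
    have a4 : IsClosed {z : ℝ × ℝ | z.2 ≤ 2 * π} := isClosed_le continuous_snd continuous_const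
    exact a1.inter (a2.inter (a3.inter a4))
  · rintro z ⟨h1, h2, h3, h4⟩
    exact ⟨⟨h1, h2.trans (hB ⟨z.2, ⟨h3, h4⟩, rfl⟩)⟩, h3, h4⟩

theorem fubini {κ : ℝ} (C : Config κ) (M : ℝ) (h : ℝ × ℝ → ℝ) (hi : IntegrableOn h (C.R M)) :
    ∫ z in C.R M, h z =
      ∫ θ in (0 : ℝ)..(2 * π), ∫ τ in (-M)..(max (-M) (C.T θ)), h (τ, θ) := by
  have hR := measurable_R C M
  rw [← integral_indicator hR]
  have hi' : Integrable ((C.R M).indicator h) := (integrable_indicator_iff hR).mpr hi
  have h2π : (0 : ℝ) ≤ 2 * π := by positivity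
  rw [Measure.volume_eq_prod] at hi' ⊢
  rw [integral_prod_symm _ hi']
  rw [intervalIntegral.integral_of_le h2π, ← integral_Ico_eq_integral_Ioc,
    ← integral_indicator measurableSet_Ico]
  congr 1
  ext θ
  by_cases hθ : θ ∈ Ico (0 : ℝ) (2 * π)
  · rw [indicator_of_mem hθ, intervalIntegral.integral_of_le (le_max_left _ _),
      integral_Ioc_eq_integral_Ioo]
    have e : (fun τ => (C.R M).indicator h (τ, θ)) =
        (Ioo (-M) (max (-M) (C.T θ))).indicator fun τ => h (τ, θ) := by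
      ext τ
      by_cases hτ : τ ∈ Ioo (-M) (max (-M) (C.T θ))
      · rw [indicator_of_mem hτ, indicator_of_mem]
        refine ⟨hτ.1, ?_, hθ.1, hθ.2⟩
        rcases lt_max_iff.mp hτ.2 with h1 | h1
        · exact absurd h1 (not_lt.mpr hτ.1.le)
        · exact h1
      · rw [indicator_of_notMem hτ, indicator_of_notMem]
        rintro ⟨h1, h2, -, -⟩
        exact hτ ⟨h1, lt_max_of_lt_right h2⟩
    rw [e, integral_indicator measurableSet_Ioo]
  · rw [indicator_of_notMem hθ]
    have e : (fun τ => (C.R M).indicator h (τ, θ)) = fun _ => 0 := by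
      ext τ
      rw [indicator_of_notMem]
      rintro ⟨-, -, h1, h2⟩
      exact hθ ⟨h1, h2⟩
    rw [e]
    simp

end P10a

open P10a in
theorem pkP10a (hc : GCU0) (h1 : GP1) (h5 : GP5) : GP10a := by
  intro κ hκ hκ1 C M g hg
  obtain ⟨hu, -⟩ := hc κ hκ hκ1 C
  obtain ⟨hX, hder⟩ := h1 κ hκ hκ1 C
  have hRV : ∀ z ∈ C.R M, z ∈ C.V := fun z hz => C.VT z hz.2.1.le
  have hKV : ∀ z ∈ K C M, z ∈ C.V := fun z hz => C.VT z hz.2.1
  have hRK : C.R M ⊆ K C M := fun z hz => ⟨hz.1.le, hz.2.1.le, hz.2.2.1, hz.2.2.2.le⟩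
  have hf' : ∀ z ∈ C.R M, HasFDerivWithinAt C.X (fderiv ℝ C.X z) (C.R M) z := fun z hz =>
    (((hX.contDiffAt (C.Vopen.mem_nhds (hRV z hz))).differentiableAt
      (by simp)).hasFDerivAt).hasFDerivWithinAt
  have hinj : InjOn C.X (C.R M) := by
    intro z hz z' hz' he
    obtain ⟨e1, n, e2⟩ := h5 κ hκ hκ1 C z z' hz.2.1.le hz'.2.1.le he
    have hπ : 0 < 2 * π := by positivity
    have hn : n = 0 := by
      by_contra hn
      rcases lt_or_gt_of_ne hn with hn | hn
      · have : (n : ℝ) ≤ -1 := by exact_mod_cast Int.le_sub_one_of_lt hn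
        have := hz.2.2.1
        have := hz'.2.2.2
        nlinarith
      · have : (1 : ℝ) ≤ n := by exact_mod_cast hn
        have := hz.2.2.2
        have := hz'.2.2.1
        nlinarith
    refine Prod.ext e1 ?_
    rw [e2, hn]; simp
  rw [integral_image_eq_integral_abs_det_fderiv_smul volume (measurable_R C M) hf' hinj g]
  have hQ : ∀ z, 0 ≤ C.Q z := by
    intro z
    unfold Config.Q
    positivity
  have e : ∫ z in C.R M, |(fderiv ℝ C.X z).det| • g (C.X z) =
      ∫ z in C.R M, Real.exp (-(2 * z.1)) * C.Q z * g (C.X z) := by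
    refine setIntegral_congr_fun (measurable_R C M) fun z hz => ?_
    have h2 := (hder z (hRV z hz)).2.2
    rw [h2, abs_neg, abs_of_nonneg (mul_nonneg (Real.exp_pos _).le (hQ z)), smul_eq_mul]
  rw [e]
  refine fubini C M (fun z => Real.exp (-(2 * z.1)) * C.Q z * g (C.X z)) ?_
  have hcont : ContinuousOn (fun z => Real.exp (-(2 * z.1)) * C.Q z * g (C.X z)) (K C M) := by
    have a1 : ContinuousOn (D1 C.u) (K C M) := (contOn_D1 C.Vopen hu).mono hKV
    have a2 : ContinuousOn (D2 C.u) (K C M) := (contOn_D2 C.Vopen hu).mono hKV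
    have a3 : ContinuousOn C.X (K C M) := hX.continuousOn.mono hKV
    have a4 : ContinuousOn (fun z : ℝ × ℝ => Real.exp (-(2 * z.1))) (K C M) :=
      (Real.continuous_exp.comp ((continuous_const.mul continuous_fst).neg)).continuousOn
    have a5 : ContinuousOn C.Q (K C M) := ((a1.pow 2).div_const κ).add (a2.pow 2)
    exact (a4.mul a5).mul (hg.comp_continuousOn a3)
  exact (hcont.integrableOn_compact (compact_K C M)).mono_set hRK

end Pool.Agent.Helper25.PCap
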