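import Pool.Agent.Helper25.PCap.GoalsP
import Pool.Agent.Helper25.PCap.GoalsF

/-!
Planar p-capacity (MP_576c25_an): packet P4, level sets are nested and exhaust the plane.
-/

set_option autoImplicit false

open MeasureTheory Set Filter Topology
open scoped ContDiff Real

noncomputable section

namespace Pool.Agent.Helper25.PCap

namespace PkP4

variable {κ : ℝ} (C : Config κ)

lemma d1W_cont : ContinuousOn (D1 C.W) C.V := by
  have h1 : ContDiffOn ℝ ∞ (fderiv ℝ C.W) C.V :=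
    C.smooth.fderiv_of_isOpen C.Vopen (by simp)
  exact (h1.continuousOn).clm_apply continuousOn_const

lemma d1W_smooth : ContDiffOn ℝ ∞ (D1 C.W) C.V := by
  have h1 : ContDiffOn ℝ ∞ (fderiv ℝ C.W) C.V :=
    C.smooth.fderiv_of_isOpen C.Vopen (by simp)
  exact h1.clm_apply contDiffOn_const

lemma hasDeriv (τ θ : ℝ) (h : τ ≤ C.T θ) :
    HasDerivAt (fun t => Real.exp (-t) * D1 C.W (t, θ))
      (Real.exp (-τ) * (D1 (D1 C.W) (τ, θ) - D1 C.W (τ, θ))) τ := by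
  have hV : (τ, θ) ∈ C.V := C.VT _ h
  have hd : DifferentiableAt ℝ (D1 C.W) (τ, θ) :=
    ((d1W_smooth C).contDiffAt (C.Vopen.mem_nhds hV)).differentiableAt (by simp)
  have h1 : HasDerivAt (fun t : ℝ => ((t, θ) : ℝ × ℝ)) (1, 0) τ :=
    (hasDerivAt_id τ).prodMk (hasDerivAt_const τ θ)
  have h0 : HasFDerivAt (D1 C.W) (fderiv ℝ (D1 C.W) (τ, θ))
      ((fun t : ℝ => ((t, θ) : ℝ × ℝ)) τ) := hd.hasFDerivAt
  have h2' := h0.comp_hasDerivAt τ h1
  have h2 : HasDerivAt (fun t => D1 C.W (t, θ)) (fderiv ℝ (D1 C.W) (τ, θ) (1, 0)) τ := h2'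
  have h3 : HasDerivAt (fun t : ℝ => Real.exp (-t)) (-Real.exp (-τ)) τ := by
    have := (hasDerivAt_neg τ).exp
    simpa using this
  have h4 := h3.mul h2
  have e : Real.exp (-τ) * (D1 (D1 C.W) (τ, θ) - D1 C.W (τ, θ)) =
      -Real.exp (-τ) * D1 C.W (τ, θ) +
        Real.exp (-τ) * fderiv ℝ (D1 C.W) (τ, θ) (1, 0) := by
    have e0 : D1 (D1 C.W) (τ, θ) = fderiv ℝ (D1 C.W) (τ, θ) (1, 0) := rfl
    rw [e0]; ring
  rw [e]
  exact h4

lemma anti (hc : ∀ z ∈ C.V, D1 C.u z = D1 C.W z - D1 (D1 C.W) z)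
    (hp : ∀ z : ℝ × ℝ, z.1 ≤ C.T z.2 → 0 < D1 C.u z) (θ : ℝ) :
    StrictAntiOn (fun t => Real.exp (-t) * D1 C.W (t, θ)) (Iic (C.T θ)) := by
  refine strictAntiOn_of_deriv_neg (convex_Iic _) ?_ ?_
  · intro t ht
    exact (hasDeriv C t θ ht).continuousAt.continuousWithinAt
  · intro t ht
    rw [interior_Iic] at ht
    have ht' : t ≤ C.T θ := (mem_Iio.1 ht).le
    rw [(hasDeriv C t θ ht').deriv]
    have h1 := hc (t, θ) (C.VT _ ht')
    have h2 := hp (t, θ) ht'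
    have h3 := Real.exp_pos (-t)
    nlinarith

lemma dn_X (z : ℝ × ℝ) : dn (C.X z) z.2 = Real.exp (-z.1) * D1 C.W z := by
  simp only [dn, Config.X]
  have := Real.sin_sq_add_cos_sq z.2
  linear_combination (Real.exp (-z.1) * D1 C.W z) * this

lemma big (hκ : 0 < κ) (hκ1 : κ < 1) (he : GCE) (R : ℝ) :
    ∃ M : ℝ, ∀ τ θ : ℝ, τ ≤ -M → R ≤ Real.exp (-τ) * D1 C.W (τ, θ) := by
  obtain ⟨K, τ₁, -, H⟩ := he κ hκ hκ1 C
  set c := (1 - κ) * (C.C0 / κ) with hc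
  have hcpos : 0 < c := mul_pos (by linarith) (div_pos C.C0pos hκ)
  refine ⟨max (-τ₁) ((R + K) / (c * κ)), fun τ θ hτ => ?_⟩
  have h1 : τ ≤ τ₁ := by linarith [le_max_left (-τ₁) ((R + K) / (c * κ))]
  have h2 : τ ≤ -((R + K) / (c * κ)) := by linarith [le_max_right (-τ₁) ((R + K) / (c * κ))]
  have h3 := (abs_le.1 (H τ θ h1).2.1).1
  have h4 : -(κ * τ) ≤ Real.exp (-(κ * τ)) := by
    linarith [Real.add_one_le_exp (-(κ * τ))]
  have h5 : R + K ≤ c * (-(κ * τ)) := by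
    have : (R + K) / (c * κ) ≤ -τ := by linarith
    rw [div_le_iff₀ (by positivity)] at this
    linarith
  have h6 : R + K ≤ c * Real.exp (-(κ * τ)) := h5.trans (mul_le_mul_of_nonneg_left h4 hcpos.le)
  have e1 : Real.exp (-τ) * Real.exp ((1 - κ) * τ) = Real.exp (-(κ * τ)) := by
    rw [← Real.exp_add]; congr 1; ring
  have e2 : Real.exp (-τ) * Real.exp τ = 1 := by
    rw [← Real.exp_add]; simp
  have h7 : Real.exp (-τ) * (c * Real.exp ((1 - κ) * τ) - K * Real.exp τ) ≤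
      Real.exp (-τ) * D1 C.W (τ, θ) :=
    mul_le_mul_of_nonneg_left (by linarith) (Real.exp_pos _).le
  have e3 : Real.exp (-τ) * (c * Real.exp ((1 - κ) * τ) - K * Real.exp τ) =
      c * Real.exp (-(κ * τ)) - K := by
    linear_combination c * e1 - K * e2
  linarith

end PkP4

open PkP4 in
theorem pkP4 (hc : GCU0) (he : GCE) (_h1 : GP1) (h2 : GP2) : GP4 := by
  intro κ hκ hκ1 C
  obtain ⟨-, -, hD, -, -, -, -, -, hpos⟩ := hc κ hκ hκ1 C
  obtain ⟨hlev, -, -, hmono, -, -, hcont, hsmall⟩ := h2 κ hκ hκ1 C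
  refine ⟨?_, ?_, ?_, ?_⟩
  · intro s s' θ hs hss hs1
    exact anti C hD hpos θ (hlev s θ hs (by linarith)).1 (hlev s' θ (by linarith) hs1).1
      (hmono s s' θ hs hss hs1)
  · have hm : ContinuousOn (fun p : ℝ × ℝ => ((C.lev p.1 p.2, p.2) : ℝ × ℝ))
        (Ioc (0 : ℝ) 1 ×ˢ (univ : Set ℝ)) := hcont.prodMk continuousOn_snd
    have hmaps : MapsTo (fun p : ℝ × ℝ => ((C.lev p.1 p.2, p.2) : ℝ × ℝ))
        (Ioc (0 : ℝ) 1 ×ˢ (univ : Set ℝ)) C.V := fun p hp =>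
      C.VT _ (hlev p.1 p.2 hp.1.1 hp.1.2).1
    exact (Real.continuous_exp.comp_continuousOn hcont.neg).mul ((d1W_cont C).comp hm hmaps)
  · intro R
    obtain ⟨M, hM⟩ := big C hκ hκ1 he R
    obtain ⟨s₀, h0, h1, h3⟩ := hsmall M
    exact ⟨s₀, h0, h1, fun s θ hs hs' => hM _ θ (h3 s θ hs hs')⟩
  · intro R
    obtain ⟨M, hM⟩ := big C hκ hκ1 he R
    refine ⟨M, fun z hz => ?_⟩
    rw [dn_X]
    exact hM z.1 z.2 hz

end Pool.Agent.Helper25.PCap
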