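import Pool.Agent.Helper25.PCap.GoalsP
import Pool.Agent.Helper25.PCap.GoalsF

/-!
PACKET P6: surjectivity of the physical map.
-/

set_option autoImplicit false

open MeasureTheory Set Filter Topology
open scoped ContDiff Real

noncomputable section

namespace Pool.Agent.Helper25.PCap

namespace P6

theorem D1_per {f : ℝ × ℝ → ℝ} (hp : ∀ τ θ, f (τ, θ + 2 * π) = f (τ, θ)) (τ θ : ℝ) :
    D1 f (τ, θ + 2 * π) = D1 f (τ, θ) := by
  have h1 : (fun z : ℝ × ℝ => f (z + (0, 2 * π))) = f := by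
    ext ⟨a, b⟩
    have := hp a b
    simpa using this
  have h2 := fderiv_comp_add_right (𝕜 := ℝ) (f := f) (x := (τ, θ)) ((0 : ℝ), 2 * π)
  rw [h1] at h2
  unfold D1
  rw [h2]
  simp

theorem Hs_per {κ : ℝ} (C : Config κ) (hl : ∀ s θ, C.lev s (θ + 2 * π) = C.lev s θ) (s θ : ℝ) :
    C.Hs s (θ + 2 * π) = C.Hs s θ := by
  unfold Config.Hs
  rw [hl, D1_per C.per]

theorem dn_per (x : ℝ × ℝ) (θ : ℝ) : dn x (θ + 2 * π) = dn x θ := by
  unfold dn
  rw [Real.cos_add_two_pi, Real.sin_add_two_pi]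

theorem exists_red {f : ℝ → ℝ} (hf : ∀ θ, f (θ + 2 * π) = f θ) (θ : ℝ) :
    ∃ θ' ∈ Icc (0 : ℝ) (2 * π), f θ' = f θ := by
  have hp : Function.Periodic f (2 * π) := hf
  obtain ⟨y, hy, he⟩ := hp.exists_mem_Ico₀ (by positivity) θ
  exact ⟨y, ⟨hy.1, hy.2.le⟩, he.symm⟩

theorem hasDerivAt_dn (x : ℝ × ℝ) (θ : ℝ) :
    HasDerivAt (dn x) (-(x.1 * Real.sin θ) + x.2 * Real.cos θ) θ := by
  have h : HasDerivAt (fun θ => x.1 * Real.cos θ + x.2 * Real.sin θ)
      (x.1 * -Real.sin θ + x.2 * Real.cos θ) θ :=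
    ((Real.hasDerivAt_cos θ).const_mul x.1).add ((Real.hasDerivAt_sin θ).const_mul x.2)
  have h2 : x.1 * -Real.sin θ + x.2 * Real.cos θ = -(x.1 * Real.sin θ) + x.2 * Real.cos θ := by
    ring
  rw [h2] at h
  exact h

theorem dn_le (x : ℝ × ℝ) (θ : ℝ) : dn x θ ≤ |x.1| + |x.2| := by
  unfold dn
  have h1 : x.1 * Real.cos θ ≤ |x.1| := by
    refine (le_abs_self _).trans ?_
    rw [abs_mul]
    exact mul_le_of_le_one_right (abs_nonneg _) (Real.abs_cos_le_one θ)
  have h2 : x.2 * Real.sin θ ≤ |x.2| := by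
    refine (le_abs_self _).trans ?_
    rw [abs_mul]
    exact mul_le_of_le_one_right (abs_nonneg _) (Real.abs_sin_le_one θ)
  linarith

end P6

open P6 in
theorem pkP6 (h1 : GCU1) (h2 : GP2) (h3 : GP3) (h4 : GP4) : GP6 := by
  intro κ hκ hκ1 C s x hs hs1
  obtain ⟨hpos, hlt1, -⟩ := h1 κ hκ hκ1 C
  obtain ⟨hlev, hlevu, hlev1, hmono, hlper, -, hlc, -⟩ := h2 κ hκ hκ1 C
  obtain ⟨hH1, hHc, hdn, hHd, hle, -⟩ := h3 κ hκ hκ1 C
  obtain ⟨hHm, hHcont, hHinf, -⟩ := h4 κ hκ hκ1 C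
  constructor
  · rintro ⟨θ₀, hθ₀⟩
    -- reduce the angle
    have hper : ∀ s' θ, dn x (θ + 2 * π) - C.Hs s' (θ + 2 * π) = dn x θ - C.Hs s' θ := by
      intro s' θ
      rw [dn_per, Hs_per C hlper]
    obtain ⟨θ₁, hθ₁, he₁⟩ := exists_red (f := fun θ => dn x θ - C.Hs s θ) (hper s) θ₀
    obtain ⟨s₀, hs₀, hs₀1, hbig⟩ := hHinf (|x.1| + |x.2| + 1)
    have hneg : ∀ s' θ, 0 < s' → s' < s₀ → dn x θ - C.Hs s' θ < 0 := by
      intro s' θ a b
      have := hbig s' θ a b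
      have := dn_le x θ
      linarith
    -- the compact set
    set A : Set (ℝ × ℝ) := {p | p ∈ Icc s₀ s ×ˢ Icc (0 : ℝ) (2 * π) ∧ 0 ≤ dn x p.2 - C.Hs p.1 p.2}
      with hA
    have hcont : ContinuousOn (fun p : ℝ × ℝ => dn x p.2 - C.Hs p.1 p.2)
        (Icc s₀ s ×ˢ Icc (0 : ℝ) (2 * π)) := by
      have a1 : Continuous (fun p : ℝ × ℝ => dn x p.2) := by
        unfold dn
        fun_prop
      refine a1.continuousOn.sub (hHcont.mono ?_)
      rintro ⟨a, b⟩ ⟨⟨ha1, ha2⟩, -⟩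
      exact ⟨⟨lt_of_lt_of_le hs₀ ha1, ha2.trans hs1⟩, mem_univ _⟩
    have hcomp : IsCompact (Icc s₀ s ×ˢ Icc (0 : ℝ) (2 * π)) := isCompact_Icc.prod isCompact_Icc
    have hAc : IsCompact A := by
      have : A = (Icc s₀ s ×ˢ Icc (0 : ℝ) (2 * π)) ∩
          (fun p : ℝ × ℝ => dn x p.2 - C.Hs p.1 p.2) ⁻¹' Ici 0 := rfl
      rw [this]
      exact hcomp.of_isClosed_subset
        (hcont.preimage_isClosed_of_isClosed hcomp.isClosed isClosed_Ici) inter_subset_left
    have hf1 : 0 < dn x θ₁ - C.Hs s θ₁ := by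
      have : dn x θ₁ - C.Hs s θ₁ = dn x θ₀ - C.Hs s θ₀ := he₁
      rw [this]; linarith
    have hs0s : s₀ ≤ s := by
      by_contra hcon
      rw [not_le] at hcon
      have := hneg s θ₁ hs hcon
      linarith
    have hne : A.Nonempty := ⟨(s, θ₁), ⟨⟨hs0s, le_rfl⟩, hθ₁⟩, hf1.le⟩
    obtain ⟨⟨s', θ'⟩, hmem, hmin⟩ := hAc.exists_isMinOn hne continuous_fst.continuousOn
    obtain ⟨⟨⟨hs'1, hs'2⟩, hθ'⟩, hf'⟩ := hmem
    simp only at hs'1 hs'2 hθ' hf'
    have hs'pos : 0 < s' := lt_of_lt_of_le hs₀ hs'1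
    -- no smaller level
    have hno : ∀ s'' θ, 0 < s'' → s'' < s' → dn x θ - C.Hs s'' θ < 0 := by
      intro s'' θ a b
      by_contra hcon
      rw [not_lt] at hcon
      obtain ⟨θ₂, hθ₂, he₂⟩ := exists_red (f := fun θ => dn x θ - C.Hs s'' θ) (hper s'') θ
      have hs'' : s₀ ≤ s'' := by
        by_contra hc2
        rw [not_le] at hc2
        have := hneg s'' θ a hc2
        linarith
      have hm : ((s'', θ₂) : ℝ × ℝ) ∈ A := by
        refine ⟨⟨⟨hs'', (b.le.trans hs'2)⟩, hθ₂⟩, ?_⟩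
        have : dn x θ₂ - C.Hs s'' θ₂ = dn x θ - C.Hs s'' θ := he₂
        simp only
        rw [this]; exact hcon
      have := hmin hm
      simp only [mem_ofPred_eq] at this
      linarith
    have hle0 : ∀ θ, dn x θ - C.Hs s' θ ≤ 0 := by
      intro θ
      have hc1 : ContinuousWithinAt (fun t => dn x θ - C.Hs t θ) (Ioc 0 s') s' := by
        have a1 : ContinuousWithinAt (fun p : ℝ × ℝ => C.Hs p.1 p.2)
            (Ioc (0 : ℝ) 1 ×ˢ (univ : Set ℝ)) (s', θ) :=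
          hHcont (s', θ) ⟨⟨hs'pos, hs'2.trans hs1⟩, mem_univ _⟩
        have a2 : ContinuousWithinAt (fun t : ℝ => ((t, θ) : ℝ × ℝ)) (Ioc 0 s') s' :=
          (continuous_id.prodMk continuous_const).continuousWithinAt
        refine continuousWithinAt_const.sub (ContinuousWithinAt.comp (x := s')
          (g := fun p : ℝ × ℝ => C.Hs p.1 p.2) (f := fun t : ℝ => ((t, θ) : ℝ × ℝ)) a1 a2 ?_)
        intro t ht
        exact ⟨⟨ht.1, ht.2.trans (hs'2.trans hs1)⟩, mem_univ _⟩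
      have hc2 : Tendsto (fun t => dn x θ - C.Hs t θ) (𝓝[<] s') (𝓝 (dn x θ - C.Hs s' θ)) := by
        have : 𝓝[<] s' = 𝓝[Ioo 0 s'] s' := (nhdsWithin_Ioo_eq_nhdsLT hs'pos).symm
        rw [this]
        exact hc1.mono_left (nhdsWithin_mono _ Ioo_subset_Ioc_self)
      refine le_of_tendsto hc2 ?_
      have : ∀ᶠ t in 𝓝[<] s', t ∈ Ioo 0 s' := Ioo_mem_nhdsLT hs'pos
      filter_upwards [this] with t ht
      exact (hno t θ ht.1 ht.2).le
    have heq : dn x θ' - C.Hs s' θ' = 0 := le_antisymm (hle0 θ') hf'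
    have hss : s' < s := by
      refine lt_of_le_of_ne hs'2 ?_
      rintro rfl
      have := hle0 θ₁
      linarith
    have hs'le : s' ≤ 1 := hs'2.trans hs1
    have hder := (hasDerivAt_dn x θ').sub (hHd s' θ' hs'pos hs'le)
    have hmax : IsLocalMax (fun θ => dn x θ - C.Hs s' θ) θ' :=
      Filter.Eventually.of_forall fun θ => by
        have := hle0 θ
        simp only
        linarith
    have hzero := hmax.hasDerivAt_eq_zero hder
    refine ⟨(C.lev s' θ', θ'), hmono s' s θ' hs'pos hss hs1, ?_⟩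
    have e1 : dn x θ' = Real.exp (-C.lev s' θ') * D1 C.W (C.lev s' θ', θ') := by
      have : C.Hs s' θ' = Real.exp (-C.lev s' θ') * D1 C.W (C.lev s' θ', θ') := rfl
      linarith
    unfold dn at e1
    have hsc := Real.sin_sq_add_cos_sq θ'
    set a := Real.exp (-C.lev s' θ') * D1 C.W (C.lev s' θ', θ') with ha
    set b := Real.exp (-C.lev s' θ') * D2 C.W (C.lev s' θ', θ') with hb
    have ex : C.X (C.lev s' θ', θ') = (a * Real.cos θ' - b * Real.sin θ',
        a * Real.sin θ' + b * Real.cos θ') := by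
      rw [Config.X, ha, hb]
      refine Prod.ext ?_ ?_ <;> simp only <;> ring
    rw [ex]
    refine Prod.ext ?_ ?_
    · simp only
      have : b = -(x.1 * Real.sin θ') + x.2 * Real.cos θ' := by linarith
      rw [this, ← e1]
      linear_combination x.1 * hsc
    · simp only
      have : b = -(x.1 * Real.sin θ') + x.2 * Real.cos θ' := by linarith
      rw [this, ← e1]
      linear_combination x.2 * hsc
  · rintro ⟨z, hz, rfl⟩
    have hzT : z.1 < C.T z.2 := lt_of_lt_of_le hz (hlev s z.2 hs hs1).1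
    have hu0 := hpos z hzT.le
    have hu1 := hlt1 z hzT
    have hlz := hlevu z hzT.le
    have hus : C.u z < s := by
      by_contra hcon
      rw [not_lt] at hcon
      rcases hcon.lt_or_eq with hc | hc
      · have := hmono s (C.u z) z.2 hs hc hu1.le
        rw [hlz] at this
        linarith
      · rw [← hc] at hlz
        linarith
    refine ⟨z.2, ?_⟩
    have e1 := hdn (C.u z) z.2
    rw [hlz] at e1
    have e2 : ((z.1, z.2) : ℝ × ℝ) = z := rfl
    rw [e2] at e1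
    rw [e1]
    exact hHm (C.u z) s z.2 hu0 hus hs1

end Pool.Agent.Helper25.PCap
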