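import Pool.Agent.Helper25.PCap.PkPLOWER

/-!
Planar p-capacity (MP_576c25_an): packet P9, consequences of the divergence identity.
-/

set_option autoImplicit false

open MeasureTheory Set Filter Topology
open scoped ContDiff Real

noncomputable section

namespace Pool.Agent.Helper25.PCap

namespace P9

open CT PLow

theorem aa2 {κ : ℝ} (hκ : 0 < κ) : 1 - κ < aa κ 2 := by
  set y := Real.sqrt ((1 - κ) ^ 2 + 4 * κ * ((2 : ℕ) : ℝ) ^ 2) with hy
  have h1 : 1 - κ < y := by
    apply Real.lt_sqrt_of_sq_lt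
    have : 0 < 4 * κ * ((2 : ℕ) : ℝ) ^ 2 := by positivity
    linarith
  have h2 : aa κ 2 = ((1 - κ) + y) / 2 := rfl
  rw [h2]
  linarith

theorem tendsto_exp_atBot {a : ℝ} (ha : 0 < a) (M : ℝ) :
    Tendsto (fun τ : ℝ => M * Real.exp (a * τ)) atBot (𝓝 0) := by
  have h4 : Tendsto (fun τ : ℝ => M * Real.exp (a * τ)) atBot (𝓝 (M * 0)) := by
    apply Tendsto.const_mul
    apply Real.tendsto_exp_atBot.comp
    exact tendsto_id.const_mul_atBot ha
  rwa [mul_zero] at h4

end P9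

open CT PLow P9 in
theorem pkP9 (hc : GCU0) (he : GCE) (h1 : GCU1) (_h2 : GP2) (h8 : GP8) : GP9 := by
  intro κ hκ hκ1 C
  obtain ⟨hu, -, -, -, -, -, huper, huT, hupos⟩ := hc κ hκ hκ1 C
  obtain ⟨K, τ₁, hτ₁, hE⟩ := he κ hκ hκ1 C
  obtain ⟨hpos, -, -⟩ := h1 κ hκ hκ1 C
  have hC0 := C.C0pos
  have heps : 0 < 1 - κ := by linarith
  have ha2 := aa2 hκ
  have hTc := C.Tcont
  have hD1u : ContinuousOn (D1 C.u) C.V := (contDiffOn_D1 C.Vopen hu).continuousOn
  have hD2u : ContinuousOn (D2 C.u) C.V := (contDiffOn_D2 C.Vopen hu).continuousOn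
  have hD1T : Continuous (fun θ => D1 C.u (C.T θ, θ)) :=
    hD1u.comp_continuous (by fun_prop) (fun θ => C.VT _ le_rfl)
  have hD2T : Continuous (fun θ => D2 C.u (C.T θ, θ)) :=
    hD2u.comp_continuous (by fun_prop) (fun θ => C.VT _ le_rfl)
  have hflux : Continuous C.flux := by
    apply Continuous.mul (by fun_prop)
    apply Continuous.add (hD1T.div_const κ)
    exact (hD2T.pow 2).div hD1T (fun θ => (hupos (C.T θ, θ) le_rfl).ne')
  have hfpos : ∀ θ, 0 < C.flux θ := by
    intro θ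
    have h2 := hupos (C.T θ, θ) le_rfl
    rw [Config.flux]; positivity
  have hVd : ∀ z ∈ C.V, DifferentiableAt ℝ C.u z := fun z hz =>
    (hu.differentiableOn (by simp)).differentiableAt (C.Vopen.mem_nhds hz)
  -- the general identity
  have hG : ∀ (G : ℝ → ℝ), ContDiff ℝ 1 G → ∀ M : ℝ, (∀ θ, -M ≤ C.T θ) →
      ∫ θ in (0 : ℝ)..(2 * π), ∫ τ in (-M)..(C.T θ), Real.exp (-((1 - κ) * τ)) *
        (deriv G (C.u (τ, θ)) * C.Q (τ, θ)) =
      G 1 * (∫ θ in (0 : ℝ)..(2 * π), C.flux θ) -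
      ∫ θ in (0 : ℝ)..(2 * π), Real.exp ((1 - κ) * M) * D1 C.u (-M, θ) * G (C.u (-M, θ)) / κ := by
    intro G hGs M hM
    have h2 := h8 κ hκ hκ1 C (fun z => G (C.u z)) M (hGs.comp_contDiffOn (hu.of_le (by simp)))
      (fun τ θ => by simp only [huper]) hM
    have h3 : ∀ z ∈ C.V, ∀ w, fderiv ℝ (fun z => G (C.u z)) z w =
        deriv G (C.u z) * fderiv ℝ C.u z w := by
      intro z hz w
      have h4 : HasDerivAt G (deriv G (C.u z)) (C.u z) :=
        (hGs.differentiable (by norm_num) _).hasDerivAt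
      have h5 := h4.comp_hasFDerivAt z (hVd z hz).hasFDerivAt
      have h6 : fderiv ℝ (fun z => G (C.u z)) z = deriv G (C.u z) • fderiv ℝ C.u z := h5.fderiv
      rw [h6]
      simp
    have h4 : (∫ θ in (0 : ℝ)..(2 * π), G (C.u (C.T θ, θ)) * C.flux θ) =
        G 1 * (∫ θ in (0 : ℝ)..(2 * π), C.flux θ) := by
      rw [← intervalIntegral.integral_const_mul]
      simp only [huT]
    rw [h4] at h2
    rw [← h2]
    apply intervalIntegral.integral_congr
    intro θ _
    apply intervalIntegral.integral_congr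
    intro τ hτ
    rw [uIcc_of_le (hM θ)] at hτ
    have hz : (τ, θ) ∈ C.V := C.VT _ hτ.2
    have h5 : D1 (fun z => G (C.u z)) (τ, θ) = deriv G (C.u (τ, θ)) * D1 C.u (τ, θ) := h3 _ hz _
    have h6 : D2 (fun z => G (C.u z)) (τ, θ) = deriv G (C.u (τ, θ)) * D2 C.u (τ, θ) := h3 _ hz _
    show _ = Real.exp (-((1 - κ) * τ)) *
      (D1 C.u (τ, θ) * D1 (fun z => G (C.u z)) (τ, θ) / κ +
        D2 C.u (τ, θ) * D2 (fun z => G (C.u z)) (τ, θ))
    rw [h5, h6]
    simp only [Config.Q]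
    ring
  have hτM : ∀ τ, τ ≤ τ₁ → ∀ θ, -(-τ) ≤ C.T θ := fun τ hτ θ => by
    rw [neg_neg]; exact hτ.trans (hτ₁ θ)
  have hline : ∀ τ, τ ≤ τ₁ → Continuous (fun θ => D1 C.u (τ, θ)) := fun τ hτ =>
    hD1u.comp_continuous (by fun_prop) (fun θ => C.VT _ (hτ.trans (hτ₁ θ)))
  have hcap : (∫ θ in (0 : ℝ)..(2 * π), C.flux θ) = C.cap := by
    set F := ∫ θ in (0 : ℝ)..(2 * π), C.flux θ with hF
    have h2 : ∀ τ, τ ≤ τ₁ → |F - C.cap| ≤ (K / κ * (2 * π)) * Real.exp ((aa κ 2 - (1 - κ)) * τ) := by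
      intro τ hτ
      have h3 := hG (fun _ => 1) contDiff_const (-τ) (hτM τ hτ)
      simp only [deriv_const', zero_mul, mul_zero, intervalIntegral.integral_zero, one_mul,
        mul_one, neg_neg] at h3
      have h4 : F - C.cap = ∫ θ in (0 : ℝ)..(2 * π), (Real.exp ((1 - κ) * -τ) *
          (D1 C.u (τ, θ) - (1 - κ) * C.C0 * Real.exp ((1 - κ) * τ)) / κ) := by
        have h5 : F = ∫ θ in (0 : ℝ)..(2 * π), Real.exp ((1 - κ) * -τ) * D1 C.u (τ, θ) / κ := by
          linarith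
        have h6 : ∀ θ, Real.exp ((1 - κ) * -τ) *
          (D1 C.u (τ, θ) - (1 - κ) * C.C0 * Real.exp ((1 - κ) * τ)) / κ =
            Real.exp ((1 - κ) * -τ) * D1 C.u (τ, θ) / κ - (1 - κ) * C.C0 / κ := by
          intro θ
          have h7 : Real.exp ((1 - κ) * -τ) * Real.exp ((1 - κ) * τ) = 1 := by
            rw [← Real.exp_add, ← mul_add, neg_add_cancel, mul_zero, Real.exp_zero]
          have h8 : Real.exp ((1 - κ) * -τ) *
            (D1 C.u (τ, θ) - (1 - κ) * C.C0 * Real.exp ((1 - κ) * τ)) =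
            Real.exp ((1 - κ) * -τ) * D1 C.u (τ, θ) - (1 - κ) * C.C0 := by
            linear_combination (-((1 - κ) * C.C0)) * h7
          rw [h8, sub_div]
        simp only [h6]
        rw [intervalIntegral.integral_sub, ← h5, intervalIntegral.integral_const]
        · rw [Config.cap, smul_eq_mul, sub_zero]; ring
        · exact ((continuous_const.mul (hline τ hτ)).div_const κ).intervalIntegrable _ _
        · exact continuous_const.intervalIntegrable _ _
      rw [h4, ← Real.norm_eq_abs]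
      have h5 := intervalIntegral.norm_integral_le_of_norm_le_const (a := 0) (b := 2 * π)
        (f := fun θ => Real.exp ((1 - κ) * -τ) *
          (D1 C.u (τ, θ) - (1 - κ) * C.C0 * Real.exp ((1 - κ) * τ)) / κ)
        (C := Real.exp ((1 - κ) * -τ) * (K * Real.exp (aa κ 2 * τ)) / κ) (fun θ _ => by
          rw [norm_div, norm_mul, Real.norm_eq_abs, Real.norm_eq_abs, Real.norm_eq_abs,
            abs_of_pos (Real.exp_pos _), abs_of_pos hκ]
          have h6 := (hE τ θ hτ).2.2.2.2.1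
          gcongr)
      rw [sub_zero, abs_of_pos (by positivity : (0 : ℝ) < 2 * π)] at h5
      refine h5.trans (le_of_eq ?_)
      have h6 : Real.exp ((aa κ 2 - (1 - κ)) * τ) =
          Real.exp ((1 - κ) * -τ) * Real.exp (aa κ 2 * τ) := by
        rw [← Real.exp_add]; congr 1; ring
      rw [h6]; ring
    have h3 := tendsto_exp_atBot (a := aa κ 2 - (1 - κ)) (by linarith) (K / κ * (2 * π))
    have h4 : |F - C.cap| ≤ 0 :=
      ge_of_tendsto h3 ((eventually_le_atBot τ₁).mono (fun τ hτ => h2 τ hτ))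
    have h5 := abs_eq_zero.1 (le_antisymm h4 (abs_nonneg _))
    linarith
  refine ⟨hflux, hfpos, hcap, ?_, ?_⟩
  · intro M hM
    have h2 := hG id contDiff_id M hM
    simp only [deriv_id', one_mul, id_eq] at h2
    rw [h2, hcap]
    have h3 : 0 ≤ ∫ θ in (0 : ℝ)..(2 * π),
        Real.exp ((1 - κ) * M) * D1 C.u (-M, θ) * C.u (-M, θ) / κ := by
      apply intervalIntegral.integral_nonneg (by positivity)
      intro θ _
      have h4 := hupos (-M, θ) (hM θ)
      have h5 := hpos (-M, θ) (hM θ)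
      positivity
    linarith
  · intro G δ hGs hδ hG0
    have h2 : Tendsto (fun τ : ℝ => C.C0 * Real.exp ((1 - κ) * τ) + K * Real.exp (aa κ 2 * τ))
        atBot (𝓝 (0 + 0)) :=
      (tendsto_exp_atBot heps C.C0).add (tendsto_exp_atBot (by linarith) K)
    rw [add_zero] at h2
    obtain ⟨a, ha⟩ := eventually_atBot.1 (h2.eventually (gt_mem_nhds hδ))
    set M₀ := max (-a) (-τ₁) with hM₀
    have hM₀a : -M₀ ≤ a := by have := le_max_left (-a) (-τ₁); rw [hM₀]; linarith
    have hM₀t : -M₀ ≤ τ₁ := by have := le_max_right (-a) (-τ₁); rw [hM₀]; linarith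
    have hlt : ∀ z : ℝ × ℝ, z.1 ≤ -M₀ → C.u z < δ := by
      intro z hz
      have h3 := (hE z.1 z.2 (hz.trans hM₀t)).2.2.2.1
      have h4 := ha z.1 (hz.trans hM₀a)
      have h5 := le_abs_self (C.u (z.1, z.2) - C.C0 * Real.exp ((1 - κ) * z.1))
      have h6 : C.u (z.1, z.2) = C.u z := rfl
      rw [h6] at h3 h5
      linarith
    refine ⟨M₀, fun θ => hM₀t.trans (hτ₁ θ), hlt, ?_⟩
    intro M hM
    have hMT : ∀ θ, -M ≤ C.T θ := fun θ => by
      have := hτ₁ θ
      linarith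
    rw [hG G hGs M hMT, hcap]
    have h3 : ∀ θ, G (C.u (-M, θ)) = 0 := fun θ =>
      hG0 _ (hlt (-M, θ) (by show -M ≤ -M₀; linarith)).le
    simp only [h3, mul_zero, zero_div, intervalIntegral.integral_zero, sub_zero]
    ring

end Pool.Agent.Helper25.PCap
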