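import Pool.Agent.Helper25.PCap.Defs

/-!
Planar p-capacity (MP_576c25_an): Part B, the star function comparison.
-/

set_option autoImplicit false

open MeasureTheory Set Filter Topology
open scoped ContDiff Real

noncomputable section

namespace Pool.Agent.Helper25.PCap

/-- star function of `T` -/
def LamT {κ C0 : ℝ} (D : TData κ C0) (τ s : ℝ) : ℝ :=
  ∫ θ in (0 : ℝ)..(2 * π), max 0 (s - D.ext (τ, θ))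

/-- star function of `S` -/
def LamS {κ : ℝ} (S : SData κ) (τ s : ℝ) : ℝ :=
  ∫ θ in (0 : ℝ)..(2 * π), max 0 (s - S.u (τ, θ))

/-- the sublevel set `{u_T(τ,·) < s}` in one period -/
def ET {κ C0 : ℝ} (D : TData κ C0) (τ s : ℝ) : Set ℝ :=
  {θ | θ ∈ Ioc 0 (2 * π) ∧ D.ext (τ, θ) < s}

/-- positive maximum point of `LamT − LamS` on `ℝ × [0,1]` -/
def MaxPt {κ : ℝ} (S : SFull κ) (D : TData κ S.C0) (τ₀ s₀ : ℝ) : Prop :=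
  0 ≤ s₀ ∧ s₀ ≤ 1 ∧ LamS S.toSData τ₀ s₀ < LamT D τ₀ s₀ ∧
  ∀ τ s, 0 ≤ s → s ≤ 1 →
    LamT D τ s - LamS S.toSData τ s ≤ LamT D τ₀ s₀ - LamS S.toSData τ₀ s₀

/-- PACKET B1. Existence of a maximum point, and facts on `ext`. -/
def GB1 : Prop := ∀ κ : ℝ, 0 < κ → κ < 1 → ∀ (S : SFull κ) (D : TData κ S.C0),
  Continuous D.ext ∧ (∀ z, 0 < D.ext z ∧ D.ext z ≤ 1) ∧
  (∀ τ θ, D.ext (τ, θ + 2 * π) = D.ext (τ, θ)) ∧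
  ((∃ τ s, 0 ≤ s ∧ s ≤ 1 ∧ LamS S.toSData τ s < LamT D τ s) → ∃ τ₀ s₀, MaxPt S D τ₀ s₀)

/-- PACKET B2. At a maximum point. -/
def GB2 : Prop := ∀ κ : ℝ, 0 < κ → κ < 1 → ∀ (S : SFull κ) (D : TData κ S.C0) (τ₀ s₀ : ℝ),
  MaxPt S D τ₀ s₀ → 0 < s₀ ∧ s₀ < 1 ∧ ∃ ϑ₀ : ℝ, 0 < ϑ₀ ∧ ϑ₀ < π / 2 ∧ S.u (τ₀, ϑ₀) = s₀ ∧
    (volume (ET D τ₀ s₀)).toReal = 2 * π - 4 * ϑ₀

/-- PACKET B3. Taylor bounds for `LamS` at a regular level. -/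
def GB3 : Prop := ∀ κ : ℝ, 0 < κ → κ < 1 → ∀ (S : SFull κ) (τ₀ ϑ₀ : ℝ), 0 < ϑ₀ → ϑ₀ < π / 2 →
  ∀ e : ℝ, 0 < e → ∃ h₀ : ℝ, 0 < h₀ ∧
  (∀ k : ℝ, 0 < k → k < h₀ →
    LamS S.toSData τ₀ (S.u (τ₀, ϑ₀) - k) ≤ LamS S.toSData τ₀ (S.u (τ₀, ϑ₀)) -
      k * (2 * π - 4 * ϑ₀) + (2 / (-D2 S.u (τ₀, ϑ₀)) + e) * k ^ 2) ∧
  (∀ h : ℝ, |h| < h₀ →
    LamS S.toSData (τ₀ + h) (S.u (τ₀, ϑ₀) + D1 S.u (τ₀, ϑ₀) * h) ≤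
      LamS S.toSData τ₀ (S.u (τ₀, ϑ₀)) +
      h * (D1 S.u (τ₀, ϑ₀) * (2 * π - 4 * ϑ₀) - 4 * ∫ θ in ϑ₀..(π / 2), D1 S.u (τ₀, θ)) -
      h ^ 2 / 2 * (4 * ∫ θ in ϑ₀..(π / 2), D1 (D1 S.u) (τ₀, θ)) + e * h ^ 2)

/-- PACKET B4. Taylor bounds for `LamT`. -/
def GB4 : Prop := ∀ κ : ℝ, 0 < κ → κ < 1 → ∀ (C0 : ℝ) (D : TData κ C0) (τ₀ s₀ p : ℝ),
  Continuous D.ext → 0 < s₀ → s₀ < 1 →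
  (∀ k : ℝ, 0 ≤ k → LamT D τ₀ (s₀ - k) = LamT D τ₀ s₀ - k * (volume (ET D τ₀ s₀)).toReal +
    ∫ θ in ET D τ₀ s₀, max 0 (k - (s₀ - D.ext (τ₀, θ)))) ∧
  ∀ e : ℝ, 0 < e → ∃ h₀ : ℝ, 0 < h₀ ∧ ∀ h : ℝ, |h| < h₀ →
    LamT D τ₀ s₀ + h * (p * (volume (ET D τ₀ s₀)).toReal - ∫ θ in ET D τ₀ s₀, D1 D.u (τ₀, θ)) -
      h ^ 2 / 2 * (∫ θ in ET D τ₀ s₀, D1 (D1 D.u) (τ₀, θ)) - e * h ^ 2 ≤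
    LamT D (τ₀ + h) (s₀ + p * h)

/-- PACKET B5. First and second order conditions at a maximum point. -/
def GB5 : Prop := ∀ κ : ℝ, 0 < κ → κ < 1 → ∀ (S : SFull κ) (D : TData κ S.C0) (τ₀ s₀ ϑ₀ : ℝ),
  MaxPt S D τ₀ s₀ → 0 < s₀ → s₀ < 1 → 0 < ϑ₀ → ϑ₀ < π / 2 → S.u (τ₀, ϑ₀) = s₀ →
  (volume (ET D τ₀ s₀)).toReal = 2 * π - 4 * ϑ₀ →
  (∫ θ in ET D τ₀ s₀, D2 D.om (τ₀, θ)) = -(4 * S.om (τ₀, ϑ₀)) ∧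
  (∫ θ in ET D τ₀ s₀, D2 (D2 D.u) (τ₀, θ)) ≤ 4 * (-D2 S.u (τ₀, ϑ₀)) ∧
  ∀ e : ℝ, 0 < e → ∃ k₀ : ℝ, 0 < k₀ ∧ ∀ k : ℝ, 0 < k → k < k₀ →
    (∫ θ in ET D τ₀ s₀, max 0 (k - (s₀ - D.ext (τ₀, θ)))) ≤ (2 / (-D2 S.u (τ₀, ϑ₀)) + e) * k ^ 2

/-- PACKET B6. The contradiction lemma (one variable). -/
def GB6 : Prop := ∀ (f w : ℝ → ℝ) (s₀ g w₀ : ℝ), Continuous f →
  (∀ θ, f (θ + 2 * π) = f θ) → (∀ θ, w (θ + 2 * π) = w θ) → 0 < g → 0 < w₀ →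
  (∀ θ, f θ ≤ s₀ → ContDiffAt ℝ 2 f θ ∧ ContDiffAt ℝ 1 w θ) →
  (∫ θ in {θ | θ ∈ Ioc 0 (2 * π) ∧ f θ < s₀}, deriv w θ) = -(4 * w₀) →
  (∫ θ in {θ | θ ∈ Ioc 0 (2 * π) ∧ f θ < s₀}, deriv (deriv f) θ) ≤ 4 * g →
  (∀ e : ℝ, 0 < e → ∃ k₀ : ℝ, 0 < k₀ ∧ ∀ k : ℝ, 0 < k → k < k₀ →
    (∫ θ in {θ | θ ∈ Ioc 0 (2 * π) ∧ f θ < s₀}, max 0 (k - (s₀ - f θ))) ≤ (2 / g + e) * k ^ 2) →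
  (∀ θ, f θ = s₀ → |w θ| < w₀) → False

/-- PACKET B7. The star inequality at `s = 1`. -/
def GB7 : Prop := ∀ κ : ℝ, 0 < κ → κ < 1 → ∀ (S : SFull κ) (D : TData κ S.C0), Incl S D →
  ∀ τ : ℝ, ∫ θ in (0 : ℝ)..(2 * π), (1 - D.ext (τ, θ)) ≤ ∫ θ in (0 : ℝ)..(2 * π), (1 - S.u (τ, θ))

/-- PACKET B8. Integral formula for the mean width. -/
def GB8 : Prop := ∀ κ : ℝ, 0 < κ → κ < 1 → ∀ (S : SFull κ) (C : Config κ) (D : TData κ S.C0),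
  C.C0 = S.C0 → D.T = C.T → D.u = C.u →
  (∀ τ : ℝ, ∫ θ in (0 : ℝ)..(2 * π), (1 - D.ext (τ, θ)) ≤
    ∫ θ in (0 : ℝ)..(2 * π), (1 - S.u (τ, θ))) →
  ∫ θ in (0 : ℝ)..(2 * π), C.H θ ≤ S.Per

/-- PART B: comparison of mean widths at equal `C0`. -/
def PartB : Prop := ∀ κ : ℝ, 0 < κ → κ < 1 → ∀ (S : SFull κ) (C : Config κ),
  C.C0 = S.C0 → ∫ θ in (0 : ℝ)..(2 * π), C.H θ ≤ S.Per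

end Pool.Agent.Helper25.PCap
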