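import Pool.Agent.Helper25.PCap.GoalsA
import Pool.Agent.Helper25.PCap.GoalsB
import Pool.Agent.Helper25.PCap.GoalsF

/-!
Planar p-capacity (MP_576c25_an): packet PARTB, assembly of part B.
-/

set_option autoImplicit false

open MeasureTheory Set Filter Topology
open scoped ContDiff Real

noncomputable section

namespace Pool.Agent.Helper25.PCap

theorem pkPartB (ha : PartA) (ht : GCT) (h7 : GB7) (h8 : GB8) : PartB := by
  intro κ hκ hκ1 S C hC
  have key : ∀ c, C.C0 = c → ∃ D : TData κ c, D.T = C.T ∧ D.u = C.u := by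
    rintro c rfl
    exact ht κ hκ hκ1 C
  obtain ⟨D, hT, hu⟩ := key S.C0 hC
  exact h8 κ hκ hκ1 S C D hC hT hu (h7 κ hκ hκ1 S D (ha κ hκ hκ1 S D))

end Pool.Agent.Helper25.PCap
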