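import Pool.Agent.Helper25.PCap.Defs

/-!
Planar p-capacity (MP_576c25_an): Part P, the physical plane.
-/

set_option autoImplicit false

open MeasureTheory Set Filter Topology
open scoped ContDiff Real

noncomputable section

namespace Pool.Agent.Helper25.PCap

/-- level curve: `lev s θ` is the `τ ≤ T θ` with `u(τ,θ) = s` -/
def Config.lev {κ : ℝ} (C : Config κ) (s θ : ℝ) : ℝ := sSup {τ : ℝ | τ ≤ C.T θ ∧ C.u (τ, θ) ≤ s}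

/-- support function of the level set -/
def Config.Hs {κ : ℝ} (C : Config κ) (s θ : ℝ) : ℝ :=
  Real.exp (-C.lev s θ) * D1 C.W (C.lev s θ, θ)

/-- `x · ν(θ)` -/
def dn (x : ℝ × ℝ) (θ : ℝ) : ℝ := x.1 * Real.cos θ + x.2 * Real.sin θ

/-- `u_τ²/κ + u_θ²` -/
def Config.Q {κ : ℝ} (C : Config κ) (z : ℝ × ℝ) : ℝ := (D1 C.u z) ^ 2 / κ + (D2 C.u z) ^ 2

/-- boundary flux density -/
def Config.flux {κ : ℝ} (C : Config κ) (θ : ℝ) : ℝ :=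
  Real.exp (-((1 - κ) * C.T θ)) *
    (D1 C.u (C.T θ, θ) / κ + (D2 C.u (C.T θ, θ)) ^ 2 / D1 C.u (C.T θ, θ))

/-- PACKET P1. Derivatives of the physical map. -/
def GP1 : Prop := ∀ κ : ℝ, 0 < κ → κ < 1 → ∀ C : Config κ,
  ContDiffOn ℝ ∞ C.X C.V ∧
  ∀ z ∈ C.V,
    fderiv ℝ C.X z (1, 0) =
      (-(Real.exp (-z.1) * (D1 C.u z * Real.cos z.2 - D2 C.u z * Real.sin z.2)),
       -(Real.exp (-z.1) * (D1 C.u z * Real.sin z.2 + D2 C.u z * Real.cos z.2))) ∧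
    fderiv ℝ C.X z (0, 1) =
      (Real.exp (-z.1) * (-(D2 C.u z * Real.cos z.2) - D1 C.u z / κ * Real.sin z.2),
       Real.exp (-z.1) * (-(D2 C.u z * Real.sin z.2) + D1 C.u z / κ * Real.cos z.2)) ∧
    (fderiv ℝ C.X z).det = -(Real.exp (-(2 * z.1)) * C.Q z)

/-- PACKET P2. Level curves. -/
def GP2 : Prop := ∀ κ : ℝ, 0 < κ → κ < 1 → ∀ C : Config κ,
  (∀ s θ, 0 < s → s ≤ 1 → C.lev s θ ≤ C.T θ ∧ C.u (C.lev s θ, θ) = s) ∧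
  (∀ z : ℝ × ℝ, z.1 ≤ C.T z.2 → C.lev (C.u z) z.2 = z.1) ∧ (∀ θ, C.lev 1 θ = C.T θ) ∧
  (∀ s s' θ, 0 < s → s < s' → s' ≤ 1 → C.lev s θ < C.lev s' θ) ∧
  (∀ s θ, C.lev s (θ + 2 * π) = C.lev s θ) ∧
  (∀ s θ, 0 < s → s ≤ 1 → HasDerivAt (C.lev s)
    (-(D2 C.u (C.lev s θ, θ) / D1 C.u (C.lev s θ, θ))) θ) ∧
  ContinuousOn (fun p : ℝ × ℝ => C.lev p.1 p.2) (Ioc (0 : ℝ) 1 ×ˢ (univ : Set ℝ)) ∧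
  (∀ M : ℝ, ∃ s₀ : ℝ, 0 < s₀ ∧ s₀ ≤ 1 ∧ ∀ s θ, 0 < s → s < s₀ → C.lev s θ ≤ -M)

/-- PACKET P3. Level curves are strictly convex with outer normal `ν(θ)`. -/
def GP3 : Prop := ∀ κ : ℝ, 0 < κ → κ < 1 → ∀ C : Config κ,
  (∀ θ, C.Hs 1 θ = C.H θ) ∧ Continuous C.H ∧
  (∀ s θ, dn (C.X (C.lev s θ, θ)) θ = C.Hs s θ) ∧
  (∀ s θ, 0 < s → s ≤ 1 → HasDerivAt (C.Hs s)
    (Real.exp (-C.lev s θ) * D2 C.W (C.lev s θ, θ)) θ) ∧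
  (∀ s θ θ', 0 < s → s ≤ 1 → dn (C.X (C.lev s θ, θ)) θ' ≤ C.Hs s θ') ∧
  (∀ s θ θ', 0 < s → s ≤ 1 → dn (C.X (C.lev s θ, θ)) θ' = C.Hs s θ' →
    ∃ n : ℤ, θ = θ' + n * (2 * π))

/-- PACKET P4. Level sets are strictly nested and exhaust the plane. -/
def GP4 : Prop := ∀ κ : ℝ, 0 < κ → κ < 1 → ∀ C : Config κ,
  (∀ s s' θ, 0 < s → s < s' → s' ≤ 1 → C.Hs s' θ < C.Hs s θ) ∧
  ContinuousOn (fun p : ℝ × ℝ => C.Hs p.1 p.2) (Ioc (0 : ℝ) 1 ×ˢ (univ : Set ℝ)) ∧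
  (∀ R : ℝ, ∃ s₀ : ℝ, 0 < s₀ ∧ s₀ ≤ 1 ∧ ∀ s θ, 0 < s → s < s₀ → R ≤ C.Hs s θ) ∧
  (∀ R : ℝ, ∃ M : ℝ, ∀ z : ℝ × ℝ, z.1 ≤ -M → R ≤ dn (C.X z) z.2)

/-- PACKET P5. Injectivity of the physical map. -/
def GP5 : Prop := ∀ κ : ℝ, 0 < κ → κ < 1 → ∀ (C : Config κ) (z z' : ℝ × ℝ),
  z.1 ≤ C.T z.2 → z'.1 ≤ C.T z'.2 → C.X z = C.X z' →
  z.1 = z'.1 ∧ ∃ n : ℤ, z.2 = z'.2 + n * (2 * π)

/-- PACKET P6. Surjectivity of the physical map. -/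
def GP6 : Prop := ∀ κ : ℝ, 0 < κ → κ < 1 → ∀ (C : Config κ) (s : ℝ) (x : ℝ × ℝ),
  0 < s → s ≤ 1 → ((∃ θ, C.Hs s θ < dn x θ) ↔ ∃ z : ℝ × ℝ, z.1 < C.lev s z.2 ∧ C.X z = x)

/-- PACKET P8. Divergence identity. -/
def GP8 : Prop := ∀ κ : ℝ, 0 < κ → κ < 1 → ∀ (C : Config κ) (ψ : ℝ × ℝ → ℝ) (M : ℝ),
  ContDiffOn ℝ 1 ψ C.V → (∀ τ θ, ψ (τ, θ + 2 * π) = ψ (τ, θ)) → (∀ θ, -M ≤ C.T θ) →
  ∫ θ in (0 : ℝ)..(2 * π), ∫ τ in (-M)..(C.T θ), Real.exp (-((1 - κ) * τ)) *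
      (D1 C.u (τ, θ) * D1 ψ (τ, θ) / κ + D2 C.u (τ, θ) * D2 ψ (τ, θ)) =
    (∫ θ in (0 : ℝ)..(2 * π), ψ (C.T θ, θ) * C.flux θ) -
    ∫ θ in (0 : ℝ)..(2 * π), Real.exp ((1 - κ) * M) * D1 C.u (-M, θ) * ψ (-M, θ) / κ

/-- PACKET P9. Consequences of the divergence identity. -/
def GP9 : Prop := ∀ κ : ℝ, 0 < κ → κ < 1 → ∀ C : Config κ,
  Continuous C.flux ∧ (∀ θ, 0 < C.flux θ) ∧
  (∫ θ in (0 : ℝ)..(2 * π), C.flux θ) = C.cap ∧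
  (∀ M : ℝ, (∀ θ, -M ≤ C.T θ) →
    ∫ θ in (0 : ℝ)..(2 * π), ∫ τ in (-M)..(C.T θ), Real.exp (-((1 - κ) * τ)) * C.Q (τ, θ) ≤
      C.cap) ∧
  (∀ (G : ℝ → ℝ) (δ : ℝ), ContDiff ℝ 1 G → 0 < δ → (∀ x, x ≤ δ → G x = 0) →
    ∃ M₀ : ℝ, (∀ θ, -M₀ ≤ C.T θ) ∧ (∀ z : ℝ × ℝ, z.1 ≤ -M₀ → C.u z < δ) ∧ ∀ M, M₀ ≤ M →
    ∫ θ in (0 : ℝ)..(2 * π), ∫ τ in (-M)..(C.T θ), Real.exp (-((1 - κ) * τ)) *
      (deriv G (C.u (τ, θ)) * C.Q (τ, θ)) = C.cap * G 1)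

/-- the fundamental region, cut at `−M` -/
def Config.R {κ : ℝ} (C : Config κ) (M : ℝ) : Set (ℝ × ℝ) :=
  {z | -M < z.1 ∧ z.1 < C.T z.2 ∧ 0 ≤ z.2 ∧ z.2 < 2 * π}

/-- PACKET P10a. Change of variables for the physical map: integral over the fundamental
region against the integral over its image. -/
def GP10a : Prop := ∀ κ : ℝ, 0 < κ → κ < 1 → ∀ (C : Config κ) (M : ℝ) (g : ℝ × ℝ → ℝ),
  Continuous g →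
  (∫ x in C.X '' (C.R M), g x) =
    ∫ θ in (0 : ℝ)..(2 * π), ∫ τ in (-M)..(max (-M) (C.T θ)),
      Real.exp (-(2 * τ)) * C.Q (τ, θ) * g (C.X (τ, θ))

/-- PACKET P10. Lower bound for the energy. -/
def PLower : Prop := ∀ κ : ℝ, 0 < κ → κ < 1 → ∀ (C : Config κ) (φ : ℝ × ℝ → ℝ),
  ContDiff ℝ 1 φ → HasCompactSupport φ → (∀ θ, 1 ≤ φ (C.X (C.T θ, θ))) →
  C.cap ≤ En (1 + κ) φ

/-- PACKET P11. Test functions from a configuration: upper bound. -/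
def PUpper : Prop := ∀ κ : ℝ, 0 < κ → κ < 1 → ∀ (C : Config κ) (a b : ℝ × ℝ),
  (∀ θ, dn a θ ≤ C.H θ) → (∀ θ, dn b θ ≤ C.H θ) → ∀ e : ℝ, 0 < e →
  ∃ φ : ℝ × ℝ → ℝ, ContDiff ℝ 1 φ ∧ HasCompactSupport φ ∧
    (∃ U : Set (ℝ × ℝ), IsOpen U ∧ segment ℝ a b ⊆ U ∧ ∀ x ∈ U, 1 ≤ φ x) ∧
    En (1 + κ) φ ≤ C.cap + e

end Pool.Agent.Helper25.PCap
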