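import Pool.Agent.Helper25.PCap.GoalsF
import Pool.Agent.Helper25.PCap.GoalsP
import Pool.Agent.Helper25.PCap.PkCT

/-!
Planar p-capacity (MP_576c25_an): packet PLOWER, lower bound for the energy.
-/

set_option autoImplicit false

open MeasureTheory Set Filter Topology
open scoped ContDiff Real

noncomputable section

namespace Pool.Agent.Helper25.PCap

namespace PLow

open CT

/-- Young's inequality -/
theorem young {κ N τ : ℝ} (hκ : 0 < κ) (hN : 0 ≤ N) :
    (1 + κ) * Real.exp (κ * τ) * N ≤ N ^ (1 + κ) + κ * Real.exp ((1 + κ) * τ) := by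
  have hp : 0 < 1 + κ := by linarith
  have h := Real.geom_mean_le_arith_mean2_weighted (w₁ := 1 / (1 + κ)) (w₂ := κ / (1 + κ))
    (p₁ := N ^ (1 + κ)) (p₂ := Real.exp ((1 + κ) * τ)) (by positivity) (by positivity)
    (by positivity) (by positivity) (by field_simp)
  have h1 : (N ^ (1 + κ)) ^ (1 / (1 + κ)) = N := by
    rw [← Real.rpow_mul hN, mul_one_div_cancel hp.ne', Real.rpow_one]
  have h2 : (Real.exp ((1 + κ) * τ)) ^ (κ / (1 + κ)) = Real.exp (κ * τ) := by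
    rw [← Real.exp_mul]; congr 1; field_simp
  rw [h1, h2] at h
  have h3 : (1 + κ) * (N * Real.exp (κ * τ)) ≤
      (1 + κ) * (1 / (1 + κ) * N ^ (1 + κ) + κ / (1 + κ) * Real.exp ((1 + κ) * τ)) := by
    gcongr
  have h4 : (1 + κ) * (1 / (1 + κ) * N ^ (1 + κ) + κ / (1 + κ) * Real.exp ((1 + κ) * τ)) =
      N ^ (1 + κ) + κ * Real.exp ((1 + κ) * τ) := by field_simp
  linarith

theorem pointwise {κ a b G1 G2 τ θ : ℝ} (hκ : 0 < κ) :
    -κ * (Real.exp (-((1 - κ) * τ)) * (a ^ 2 / κ + b ^ 2)) +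
      (1 + κ) * (Real.exp (-((1 - κ) * τ)) *
        (a * (G1 * -(Real.exp (-τ) * (a * Real.cos θ - b * Real.sin θ)) +
              G2 * -(Real.exp (-τ) * (a * Real.sin θ + b * Real.cos θ))) / κ +
         b * (G1 * (Real.exp (-τ) * (-(b * Real.cos θ) - a / κ * Real.sin θ)) +
              G2 * (Real.exp (-τ) * (-(b * Real.sin θ) + a / κ * Real.cos θ))))) ≤
    Real.exp (-(2 * τ)) * (a ^ 2 / κ + b ^ 2) * (G1 ^ 2 + G2 ^ 2) ^ ((1 + κ) / 2) := by
  set q := a ^ 2 / κ + b ^ 2 with hq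
  have hq0 : 0 ≤ q := by positivity
  set N := Real.sqrt (G1 ^ 2 + G2 ^ 2) with hN
  have hN0 : 0 ≤ N := Real.sqrt_nonneg _
  have hNp : (G1 ^ 2 + G2 ^ 2) ^ ((1 + κ) / 2) = N ^ (1 + κ) := by
    rw [hN, Real.sqrt_eq_rpow, ← Real.rpow_mul (by positivity)]
    congr 1; ring
  set ng := Real.cos θ * G1 + Real.sin θ * G2 with hng
  have hcs : -ng ≤ N := by
    have h1 : ng ^ 2 ≤ G1 ^ 2 + G2 ^ 2 := by
      have h2 := Real.sin_sq_add_cos_sq θ
      have h3 : G1 ^ 2 + G2 ^ 2 - ng ^ 2 = (Real.cos θ * G2 - Real.sin θ * G1) ^ 2 := by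
        rw [hng]
        linear_combination (-(G1 ^ 2 + G2 ^ 2)) * h2
      nlinarith [sq_nonneg (Real.cos θ * G2 - Real.sin θ * G1)]
    have h2 := Real.abs_le_sqrt h1
    have h3 := neg_abs_le ng
    linarith
  have h1 : a * (G1 * -(Real.exp (-τ) * (a * Real.cos θ - b * Real.sin θ)) +
              G2 * -(Real.exp (-τ) * (a * Real.sin θ + b * Real.cos θ))) / κ +
         b * (G1 * (Real.exp (-τ) * (-(b * Real.cos θ) - a / κ * Real.sin θ)) +
              G2 * (Real.exp (-τ) * (-(b * Real.sin θ) + a / κ * Real.cos θ))) =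
      -(Real.exp (-τ) * q * ng) := by
    rw [hq, hng]; field_simp; ring
  rw [h1, hNp]
  have hy := young (κ := κ) (N := N) (τ := τ) hκ hN0
  have e1 : Real.exp (-((1 - κ) * τ)) = Real.exp (-(2 * τ)) * Real.exp ((1 + κ) * τ) := by
    rw [← Real.exp_add]; congr 1; ring
  have e2 : Real.exp (-((1 - κ) * τ)) * Real.exp (-τ) = Real.exp (-(2 * τ)) * Real.exp (κ * τ) := by
    rw [← Real.exp_add, ← Real.exp_add]; congr 1; ring
  have e3 : (1 + κ) * Real.exp (κ * τ) * (-ng) ≤ (1 + κ) * Real.exp (κ * τ) * N := by gcongr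
  have e4 : -κ * Real.exp ((1 + κ) * τ) + (1 + κ) * Real.exp (κ * τ) * (-ng) ≤ N ^ (1 + κ) := by
    linarith
  calc _ = Real.exp (-(2 * τ)) * q *
        (-κ * Real.exp ((1 + κ) * τ) + (1 + κ) * Real.exp (κ * τ) * (-ng)) := by
        linear_combination (-κ * q) * e1 - ((1 + κ) * q * ng) * e2
    _ ≤ _ := by gcongr

section region

variable {κ : ℝ} (C : Config κ)

theorem cont_inner {h : ℝ × ℝ → ℝ} (hh : ContinuousOn h C.V) (M : ℝ) (hM : ∀ θ, -M ≤ C.T θ) :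
    Continuous (fun θ => ∫ τ in (-M)..(C.T θ), h (τ, θ)) := by
  have h1 : Continuous (fun q : ℝ × ℝ => h (min q.2 (C.T q.1), q.1)) := by
    refine hh.comp_continuous ?_ ?_
    · have := C.Tcont
      fun_prop
    · intro q
      exact C.VT _ (min_le_right _ _)
  have h2 : (fun θ => ∫ τ in (-M)..(C.T θ), h (τ, θ)) =
      fun θ => ∫ τ in (-M)..(C.T θ), h (min τ (C.T θ), θ) := by
    funext θ
    apply intervalIntegral.integral_congr
    intro τ hτ
    rw [uIcc_of_le (hM θ)] at hτ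
    show h (τ, θ) = h (min τ (C.T θ), θ)
    rw [min_eq_left hτ.2]
  rw [h2]
  exact intervalIntegral.continuous_parametric_intervalIntegral_of_continuous
    (f := fun θ τ => h (min τ (C.T θ), θ)) h1 C.Tcont

theorem inner_int {h : ℝ × ℝ → ℝ} (hh : ContinuousOn h C.V) (M : ℝ) (hM : ∀ θ, -M ≤ C.T θ) (θ : ℝ) :
    IntervalIntegrable (fun τ => h (τ, θ)) volume (-M) (C.T θ) := by
  apply ContinuousOn.intervalIntegrable
  refine hh.comp (by fun_prop) ?_
  intro τ hτ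
  rw [uIcc_of_le (hM θ)] at hτ
  exact C.VT _ hτ.2

theorem dbl_mono {h g : ℝ × ℝ → ℝ} (hh : ContinuousOn h C.V) (hg : ContinuousOn g C.V) {M : ℝ}
    (hM : ∀ θ, -M ≤ C.T θ) (hle : ∀ z : ℝ × ℝ, z.1 ≤ C.T z.2 → h z ≤ g z) :
    ∫ θ in (0 : ℝ)..(2 * π), ∫ τ in (-M)..(C.T θ), h (τ, θ) ≤
      ∫ θ in (0 : ℝ)..(2 * π), ∫ τ in (-M)..(C.T θ), g (τ, θ) := by
  apply intervalIntegral.integral_mono_on (by positivity)
    ((cont_inner C hh M hM).intervalIntegrable _ _) ((cont_inner C hg M hM).intervalIntegrable _ _)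
  intro θ _
  apply intervalIntegral.integral_mono_on (hM θ) (inner_int C hh M hM θ) (inner_int C hg M hM θ)
  intro τ hτ
  exact hle _ hτ.2

theorem dbl_lin {h g : ℝ × ℝ → ℝ} (hh : ContinuousOn h C.V) (hg : ContinuousOn g C.V) {M : ℝ}
    (hM : ∀ θ, -M ≤ C.T θ) (a b : ℝ) :
    ∫ θ in (0 : ℝ)..(2 * π), ∫ τ in (-M)..(C.T θ), (a * h (τ, θ) + b * g (τ, θ)) =
      a * (∫ θ in (0 : ℝ)..(2 * π), ∫ τ in (-M)..(C.T θ), h (τ, θ)) +
      b * (∫ θ in (0 : ℝ)..(2 * π), ∫ τ in (-M)..(C.T θ), g (τ, θ)) := by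
  have h1 : ∀ θ, ∫ τ in (-M)..(C.T θ), (a * h (τ, θ) + b * g (τ, θ)) =
      a * (∫ τ in (-M)..(C.T θ), h (τ, θ)) + b * (∫ τ in (-M)..(C.T θ), g (τ, θ)) := by
    intro θ
    rw [intervalIntegral.integral_add ((inner_int C hh M hM θ).const_mul a)
      ((inner_int C hg M hM θ).const_mul b), intervalIntegral.integral_const_mul,
      intervalIntegral.integral_const_mul]
  simp only [h1]
  rw [intervalIntegral.integral_add
    (((cont_inner C hh M hM).intervalIntegrable _ _).const_mul a)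
    (((cont_inner C hg M hM).intervalIntegrable _ _).const_mul b),
    intervalIntegral.integral_const_mul, intervalIntegral.integral_const_mul]

theorem X_per (τ θ : ℝ) : C.X (τ, θ + 2 * π) = C.X (τ, θ) := by
  simp only [Config.X, D1, D2, fderiv_per C.per, Real.cos_add_two_pi, Real.sin_add_two_pi]

end region

theorem dn_le (x : ℝ × ℝ) (θ : ℝ) : dn x θ ≤ 2 * ‖x‖ := by
  have h1 : |x.1| ≤ ‖x‖ := norm_fst_le x
  have h2 : |x.2| ≤ ‖x‖ := norm_snd_le x
  have h3 := Real.abs_cos_le_one θ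
  have h4 := Real.abs_sin_le_one θ
  have h5 : x.1 * Real.cos θ ≤ |x.1| * |Real.cos θ| := by rw [← abs_mul]; exact le_abs_self _
  have h6 : x.2 * Real.sin θ ≤ |x.2| * |Real.sin θ| := by rw [← abs_mul]; exact le_abs_self _
  have h7 : |x.1| * |Real.cos θ| ≤ ‖x‖ * 1 := by gcongr
  have h8 : |x.2| * |Real.sin θ| ≤ ‖x‖ * 1 := by gcongr
  rw [dn]; linarith

end PLow

open CT PLow in
theorem pkPLower (hc : GCU0) (he : GCE) (h1 : GP1) (h4 : GP4) (h8 : GP8) (h9 : GP9)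
    (h10 : GP10a) : PLower := by
  intro κ hκ hκ1 C φ hφ hcs hb
  obtain ⟨hu, -, -, -, -, -, huper, -, hupos⟩ := hc κ hκ hκ1 C
  obtain ⟨K, τ₁, hτ₁, -⟩ := he κ hκ hκ1 C
  obtain ⟨hX, hXd⟩ := h1 κ hκ hκ1 C
  obtain ⟨-, -, -, h4d⟩ := h4 κ hκ hκ1 C
  obtain ⟨hfc, hfpos, hfint, hQcap, -⟩ := h9 κ hκ hκ1 C
  -- the cut
  obtain ⟨R, hR⟩ := hcs.isCompact.isBounded.subset_closedBall (0 : ℝ × ℝ)
  obtain ⟨M1, hM1⟩ := h4d (2 * |R| + 1)
  set M := max M1 (-τ₁) with hMdef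
  have hM : ∀ θ, -M ≤ C.T θ := by
    intro θ
    have h2 := le_max_right M1 (-τ₁)
    have h3 := hτ₁ θ
    rw [hMdef]; linarith
  have hzero : ∀ z : ℝ × ℝ, z.1 ≤ -M → φ (C.X z) = 0 := by
    intro z hz
    have h2 : z.1 ≤ -M1 := by
      have := le_max_left M1 (-τ₁)
      rw [hMdef] at hz; linarith
    have h3 := hM1 z h2
    have h5 := dn_le (C.X z) z.2
    have h6 := le_abs_self R
    by_contra hne
    have h7 : C.X z ∈ tsupport φ := subset_tsupport φ hne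
    have h8 := hR h7
    rw [Metric.mem_closedBall, dist_zero_right] at h8
    linarith
  -- derivatives of φ
  have hdiff : Differentiable ℝ φ := hφ.differentiable (by norm_num)
  have hfd : Continuous (fderiv ℝ φ) := hφ.continuous_fderiv (by norm_num)
  have hD1c : Continuous (D1 φ) := hfd.clm_apply continuous_const
  have hD2c : Continuous (D2 φ) := hfd.clm_apply continuous_const
  set g : ℝ × ℝ → ℝ := fun x => ((D1 φ x) ^ 2 + (D2 φ x) ^ 2) ^ ((1 + κ) / 2) with hg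
  have hgc : Continuous g := by
    apply Continuous.rpow_const (by fun_prop)
    intro x; right; linarith
  have hg0 : ∀ x, 0 ≤ g x := fun x => by rw [hg]; positivity
  have hgcs : HasCompactSupport g := by
    apply HasCompactSupport.intro hcs.isCompact
    intro x hx
    have h2 : fderiv ℝ φ x = 0 := by
      have := support_fderiv_subset (𝕜 := ℝ) (f := φ)
      by_contra hne
      exact hx (this hne)
    simp only [hg, D1, D2, h2]
    simp only [zero_apply]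
    rw [zero_pow (by norm_num), add_zero, Real.zero_rpow (by linarith)]
  have hgi : Integrable g := hgc.integrable_of_hasCompactSupport hgcs
  have hstep1 : ∫ x in C.X '' (C.R M), g x ≤ En (1 + κ) φ :=
    setIntegral_le_integral hgi (Eventually.of_forall hg0)
  rw [h10 κ hκ hκ1 C M g hgc] at hstep1
  have hmax : ∀ θ, max (-M) (C.T θ) = C.T θ := fun θ => max_eq_right (hM θ)
  simp only [hmax] at hstep1
  -- ψ
  set ψ : ℝ × ℝ → ℝ := fun z => φ (C.X z) with hψ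
  have hψs : ContDiffOn ℝ 1 ψ C.V := hφ.comp_contDiffOn (hX.of_le (by simp))
  have hψper : ∀ τ θ, ψ (τ, θ + 2 * π) = ψ (τ, θ) := by
    intro τ θ; simp only [hψ, X_per]
  have hψd : ∀ z ∈ C.V, ∀ w, fderiv ℝ ψ z w = D1 φ (C.X z) * (fderiv ℝ C.X z w).1 +
      D2 φ (C.X z) * (fderiv ℝ C.X z w).2 := by
    intro z hz w
    have h2 : DifferentiableAt ℝ C.X z :=
      (hX.differentiableOn (by simp)).differentiableAt (C.Vopen.mem_nhds hz)
    have h3 : fderiv ℝ ψ z = (fderiv ℝ φ (C.X z)).comp (fderiv ℝ C.X z) :=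
      fderiv_comp z (hdiff _) h2
    rw [h3, ContinuousLinearMap.comp_apply, clm_eq]
    rfl
  -- continuity of the integrands
  have hD1u : ContinuousOn (D1 C.u) C.V := (contDiffOn_D1 C.Vopen hu).continuousOn
  have hD2u : ContinuousOn (D2 C.u) C.V := (contDiffOn_D2 C.Vopen hu).continuousOn
  have hfψ : ContinuousOn (fderiv ℝ ψ) C.V := hψs.continuousOn_fderiv_of_isOpen C.Vopen le_rfl
  have hD1ψ : ContinuousOn (D1 ψ) C.V := hfψ.clm_apply continuousOn_const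
  have hD2ψ : ContinuousOn (D2 ψ) C.V := hfψ.clm_apply continuousOn_const
  have hexp1 : Continuous (fun z : ℝ × ℝ => Real.exp (-((1 - κ) * z.1))) := by fun_prop
  have hexp2 : Continuous (fun z : ℝ × ℝ => Real.exp (-(2 * z.1))) := by fun_prop
  have hQc : ContinuousOn C.Q C.V := ((hD1u.pow 2).div_const κ).add (hD2u.pow 2)
  set fA : ℝ × ℝ → ℝ := fun z => Real.exp (-((1 - κ) * z.1)) * C.Q z with hfA
  set fB : ℝ × ℝ → ℝ := fun z => Real.exp (-((1 - κ) * z.1)) *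
    (D1 C.u z * D1 ψ z / κ + D2 C.u z * D2 ψ z) with hfB
  set fC : ℝ × ℝ → ℝ := fun z => Real.exp (-(2 * z.1)) * C.Q z * g (C.X z) with hfC
  have hAc : ContinuousOn fA C.V := hexp1.continuousOn.mul hQc
  have hBc : ContinuousOn fB C.V :=
    hexp1.continuousOn.mul (((hD1u.mul hD1ψ).div_const κ).add (hD2u.mul hD2ψ))
  have hCc : ContinuousOn fC C.V :=
    (hexp2.continuousOn.mul hQc).mul (hgc.comp_continuousOn hX.continuousOn)
  have hle : ∀ z : ℝ × ℝ, z.1 ≤ C.T z.2 → -κ * fA z + (1 + κ) * fB z ≤ fC z := by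
    intro z hz
    have hzV := C.VT z hz
    obtain ⟨hX1, hX2, -⟩ := hXd z hzV
    have h2 : D1 ψ z = D1 φ (C.X z) * (fderiv ℝ C.X z (1, 0)).1 +
      D2 φ (C.X z) * (fderiv ℝ C.X z (1, 0)).2 := hψd z hzV (1, 0)
    have h3 : D2 ψ z = D1 φ (C.X z) * (fderiv ℝ C.X z (0, 1)).1 +
      D2 φ (C.X z) * (fderiv ℝ C.X z (0, 1)).2 := hψd z hzV (0, 1)
    rw [hX1] at h2
    rw [hX2] at h3
    simp only [hfA, hfB, hfC, h2, h3, Config.Q, hg]
    exact pointwise hκ
  have hlin := dbl_lin C hAc hBc hM (-κ) (1 + κ)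
  have hmono := dbl_mono C (h := fun z => -κ * fA z + (1 + κ) * fB z) (g := fC)
    ((continuousOn_const.mul hAc).add (continuousOn_const.mul hBc)) hCc hM hle
  have hA : ∫ θ in (0 : ℝ)..(2 * π), ∫ τ in (-M)..(C.T θ), fA (τ, θ) ≤ C.cap := hQcap M hM
  have hB : ∫ θ in (0 : ℝ)..(2 * π), ∫ τ in (-M)..(C.T θ), fB (τ, θ) =
    (∫ θ in (0 : ℝ)..(2 * π), ψ (C.T θ, θ) * C.flux θ) -
    ∫ θ in (0 : ℝ)..(2 * π), Real.exp ((1 - κ) * M) * D1 C.u (-M, θ) * ψ (-M, θ) / κ :=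
    h8 κ hκ hκ1 C ψ M hψs hψper hM
  have hz0 : ∀ θ, ψ (-M, θ) = 0 := fun θ => hzero (-M, θ) le_rfl
  have hB2 : ∫ θ in (0 : ℝ)..(2 * π),
      Real.exp ((1 - κ) * M) * D1 C.u (-M, θ) * ψ (-M, θ) / κ = 0 := by
    simp [hz0]
  have hTc := C.Tcont
  have hψT : Continuous (fun θ => ψ (C.T θ, θ)) :=
    hψs.continuousOn.comp_continuous (by fun_prop) (fun θ => C.VT _ le_rfl)
  have hB1 : C.cap ≤ ∫ θ in (0 : ℝ)..(2 * π), ψ (C.T θ, θ) * C.flux θ := by
    rw [← hfint]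
    apply intervalIntegral.integral_mono_on (by positivity) (hfc.intervalIntegrable _ _)
      ((hψT.mul hfc).intervalIntegrable _ _)
    intro θ _
    have h2 := hb θ
    have h3 := hfpos θ
    have h5 : 1 * C.flux θ ≤ ψ (C.T θ, θ) * C.flux θ := by
      apply mul_le_mul_of_nonneg_right h2 h3.le
    rwa [one_mul] at h5
  rw [hB2, sub_zero] at hB
  have hfin : ∫ θ in (0 : ℝ)..(2 * π), ∫ τ in (-M)..(C.T θ), fC (τ, θ) ≤ En (1 + κ) φ := hstep1
  have hlin' := hlin.symm.le.trans (hmono.trans hfin)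
  rw [hB] at hlin'
  nlinarith

end Pool.Agent.Helper25.PCap
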