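import Pool.Agent.Helper25.PCap.GoalsTools

/-!
PACKET RQC: elementary properties of the resolvent `Rq` (helper61).
-/

set_option autoImplicit false

open MeasureTheory Set Filter Topology
open scoped ContDiff Real

noncomputable section

namespace Pool.Agent.Helper25.PCap

/-- the Gaussian product measure -/
abbrev rqcG : Measure (ℝ × ℝ) :=
  (ProbabilityTheory.gaussianReal 0 1).prod (ProbabilityTheory.gaussianReal 0 1)

/-- the map inside `g` -/
def rqcM (κ t : ℝ) (x y : ℝ × ℝ) : ℝ × ℝ :=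
  (x.1 - (1 - κ) * t + Real.sqrt (2 * t) * y.1, x.2 + Real.sqrt (2 * κ * t) * y.2)

theorem rqc_Pt_eq (κ t : ℝ) (g : ℝ × ℝ → ℝ) (x : ℝ × ℝ) :
    Pt κ t g x = ∫ y, g (rqcM κ t x y) ∂rqcG := rfl

theorem rqc_meas_M (κ t : ℝ) (x : ℝ × ℝ) : Measurable (rqcM κ t x) := by
  unfold rqcM; fun_prop

theorem rqc_meas_M2 (κ : ℝ) (x : ℝ × ℝ) : Measurable (fun p : ℝ × (ℝ × ℝ) => rqcM κ p.1 x p.2) := by
  unfold rqcM; fun_prop

theorem rqc_int (κ t : ℝ) (g : ℝ × ℝ → ℝ) (A : ℝ) (hg : Measurable g) (hA : ∀ x, |g x| ≤ A)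
    (x : ℝ × ℝ) : Integrable (fun y => g (rqcM κ t x y)) rqcG := by
  refine Integrable.of_bound ((hg.comp (rqc_meas_M κ t x)).aestronglyMeasurable) A ?_
  exact Eventually.of_forall fun y => by simpa using hA _

theorem rqc_Pt_meas (κ : ℝ) (g : ℝ × ℝ → ℝ) (hg : Measurable g) (x : ℝ × ℝ) :
    StronglyMeasurable (fun t => Pt κ t g x) := by
  have h : StronglyMeasurable (fun p : ℝ × (ℝ × ℝ) => g (rqcM κ p.1 x p.2)) :=
    (hg.comp (rqc_meas_M2 κ x)).stronglyMeasurable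
  exact h.integral_prod_right

theorem rqc_Pt_bound (κ t : ℝ) (g : ℝ × ℝ → ℝ) (A : ℝ) (hA : ∀ x, |g x| ≤ A) (x : ℝ × ℝ) :
    |Pt κ t g x| ≤ A := by
  rw [rqc_Pt_eq]
  have := norm_integral_le_of_norm_le_const (μ := rqcG) (f := fun y => g (rqcM κ t x y)) (C := A)
    (Eventually.of_forall fun y => by simpa using hA _)
  simpa using this

theorem rqc_exp_int (q : ℝ) (hq : 0 < q) : IntegrableOn (fun t : ℝ => Real.exp (-(q * t))) (Ioi 0) := by
  have := integrableOn_exp_mul_Ioi (a := -q) (by linarith) 0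
  refine this.congr_fun (fun t _ => by ring_nf) measurableSet_Ioi

theorem rqc_exp_val (q : ℝ) (hq : 0 < q) : ∫ t in Ioi (0:ℝ), Real.exp (-(q * t)) = 1 / q := by
  have := integral_exp_mul_Ioi (a := -q) (by linarith) 0
  have h2 : ∀ t : ℝ, Real.exp (-(q * t)) = Real.exp (-q * t) := fun t => by ring_nf
  simp only [h2]
  rw [this]
  simp

theorem rqc_integrable (κ q : ℝ) (hq : 0 < q) (g : ℝ × ℝ → ℝ) (A : ℝ) (hg : Measurable g)
    (hA : ∀ x, |g x| ≤ A) (x : ℝ × ℝ) :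
    IntegrableOn (fun t => Real.exp (-(q * t)) * Pt κ t g x) (Ioi 0) := by
  refine Integrable.mono' ((rqc_exp_int q hq).mul_const A) ?_ ?_
  · exact ((by fun_prop : Measurable fun t : ℝ => Real.exp (-(q * t))).stronglyMeasurable.mul
      (rqc_Pt_meas κ g hg x)).aestronglyMeasurable
  · refine Eventually.of_forall fun t => ?_
    rw [norm_mul, Real.norm_eq_abs, Real.norm_eq_abs, abs_of_pos (Real.exp_pos _)]
    exact mul_le_mul_of_nonneg_left (rqc_Pt_bound κ t g A hA x) (Real.exp_pos _).le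

theorem rqc_bound (κ q : ℝ) (hq : 0 < q) (g : ℝ × ℝ → ℝ) (A : ℝ)
    (hA : ∀ x, |g x| ≤ A) (x : ℝ × ℝ) : |Rq κ q g x| ≤ A / q := by
  unfold Rq
  have h := norm_integral_le_of_norm_le (μ := volume.restrict (Ioi (0:ℝ)))
    (f := fun t => Real.exp (-(q * t)) * Pt κ t g x) (g := fun t => Real.exp (-(q * t)) * A)
    ((rqc_exp_int q hq).mul_const A) (Eventually.of_forall fun t => by
      rw [norm_mul, Real.norm_eq_abs, Real.norm_eq_abs, abs_of_pos (Real.exp_pos _)]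
      exact mul_le_mul_of_nonneg_left (rqc_Pt_bound κ t g A hA x) (Real.exp_pos _).le)
  rw [integral_mul_const, rqc_exp_val q hq] at h
  rw [Real.norm_eq_abs] at h
  calc _ ≤ _ := h
    _ = A / q := by ring

theorem rqc_const (κ q : ℝ) (hq : 0 < q) (a : ℝ) (x : ℝ × ℝ) : Rq κ q (fun _ => a) x = a / q := by
  unfold Rq
  have : ∀ t, Pt κ t (fun _ => a) x = a := fun t => by
    unfold Pt
    simp
  simp only [this]
  rw [integral_mul_const, rqc_exp_val q hq]
  ring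

theorem rqc_Pt_mono (κ t : ℝ) (g g' : ℝ × ℝ → ℝ) (A : ℝ) (hg : Measurable g) (hg' : Measurable g')
    (hA : ∀ x, |g x| ≤ A) (hA' : ∀ x, |g' x| ≤ A) (h : ∀ x, g x ≤ g' x) (x : ℝ × ℝ) :
    Pt κ t g x ≤ Pt κ t g' x := by
  rw [rqc_Pt_eq, rqc_Pt_eq]
  exact integral_mono (rqc_int κ t g A hg hA x) (rqc_int κ t g' A hg' hA' x) fun y => h _

theorem rqc_mono (κ q : ℝ) (hq : 0 < q) (g g' : ℝ × ℝ → ℝ) (A : ℝ) (hg : Measurable g)
    (hg' : Measurable g') (hA : ∀ x, |g x| ≤ A) (hA' : ∀ x, |g' x| ≤ A) (h : ∀ x, g x ≤ g' x)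
    (x : ℝ × ℝ) : Rq κ q g x ≤ Rq κ q g' x := by
  unfold Rq
  refine integral_mono (rqc_integrable κ q hq g A hg hA x) (rqc_integrable κ q hq g' A hg' hA' x)
    fun t => ?_
  exact mul_le_mul_of_nonneg_left (rqc_Pt_mono κ t g g' A hg hg' hA hA' h x) (Real.exp_pos _).le

theorem rqc_Pt_lin (κ t : ℝ) (g g' : ℝ × ℝ → ℝ) (A a b : ℝ) (hg : Measurable g)
    (hg' : Measurable g') (hA : ∀ x, |g x| ≤ A) (hA' : ∀ x, |g' x| ≤ A) (x : ℝ × ℝ) :
    Pt κ t (fun y => a * g y + b * g' y) x = a * Pt κ t g x + b * Pt κ t g' x := by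
  rw [rqc_Pt_eq, rqc_Pt_eq, rqc_Pt_eq]
  rw [integral_add ((rqc_int κ t g A hg hA x).const_mul a) ((rqc_int κ t g' A hg' hA' x).const_mul b),
    integral_const_mul, integral_const_mul]

theorem rqc_lin (κ q : ℝ) (hq : 0 < q) (g g' : ℝ × ℝ → ℝ) (A a b : ℝ) (hg : Measurable g)
    (hg' : Measurable g') (hA : ∀ x, |g x| ≤ A) (hA' : ∀ x, |g' x| ≤ A) (x : ℝ × ℝ) :
    Rq κ q (fun y => a * g y + b * g' y) x = a * Rq κ q g x + b * Rq κ q g' x := by
  unfold Rq
  have h : ∀ t, Real.exp (-(q * t)) * Pt κ t (fun y => a * g y + b * g' y) x =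
      a * (Real.exp (-(q * t)) * Pt κ t g x) + b * (Real.exp (-(q * t)) * Pt κ t g' x) := by
    intro t
    rw [rqc_Pt_lin κ t g g' A a b hg hg' hA hA' x]; ring
  simp only [h]
  rw [integral_add ((rqc_integrable κ q hq g A hg hA x).const_mul a)
    ((rqc_integrable κ q hq g' A hg' hA' x).const_mul b), integral_const_mul, integral_const_mul]

theorem rqc_lim (κ q : ℝ) (hq : 0 < q) (g : ℕ → ℝ × ℝ → ℝ) (g' : ℝ × ℝ → ℝ) (A : ℝ)
    (hg : ∀ k, Measurable (g k)) (hA : ∀ k x, |g k x| ≤ A)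
    (hl : ∀ x, Tendsto (fun k => g k x) atTop (𝓝 (g' x))) (x : ℝ × ℝ) :
    Tendsto (fun k => Rq κ q (g k) x) atTop (𝓝 (Rq κ q g' x)) := by
  have hP : ∀ t, Tendsto (fun k => Pt κ t (g k) x) atTop (𝓝 (Pt κ t g' x)) := by
    intro t
    simp only [rqc_Pt_eq]
    refine tendsto_integral_of_dominated_convergence (fun _ => A) ?_ ?_ ?_ ?_
    · intro k
      exact ((hg k).comp (rqc_meas_M κ t x)).aestronglyMeasurable
    · exact integrable_const A
    · intro k
      exact Eventually.of_forall fun y => by simpa using hA k _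
    · exact Eventually.of_forall fun y => hl _
  unfold Rq
  refine tendsto_integral_of_dominated_convergence (fun t => Real.exp (-(q * t)) * A) ?_ ?_ ?_ ?_
  · intro k
    exact (rqc_integrable κ q hq (g k) A (hg k) (hA k) x).aestronglyMeasurable
  · exact (rqc_exp_int q hq).mul_const A
  · intro k
    refine Eventually.of_forall fun t => ?_
    rw [norm_mul, Real.norm_eq_abs, Real.norm_eq_abs, abs_of_pos (Real.exp_pos _)]
    exact mul_le_mul_of_nonneg_left (rqc_Pt_bound κ t (g k) A (hA k) x) (Real.exp_pos _).le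
  · exact Eventually.of_forall fun t => (hP t).const_mul _

theorem rqc_trans (κ q : ℝ) (g : ℝ × ℝ → ℝ) (h x : ℝ × ℝ) :
    Rq κ q g (x + h) = Rq κ q (fun y => g (y + h)) x := by
  unfold Rq
  congr 1
  ext t
  congr 1
  unfold Pt
  congr 1
  ext y
  congr 1
  ext
  · simp; ring
  · simp; ring

/-- reflection as a measurable equivalence -/
def rqcR : (ℝ × ℝ) ≃ᵐ (ℝ × ℝ) := MeasurableEquiv.prodCongr (MeasurableEquiv.refl ℝ) (MeasurableEquiv.neg ℝ)

theorem rqcR_mp : MeasurePreserving rqcR rqcG rqcG := by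
  have h2 : MeasurePreserving (fun y : ℝ => -y) (ProbabilityTheory.gaussianReal 0 1)
      (ProbabilityTheory.gaussianReal 0 1) := by
    refine ⟨measurable_neg, ?_⟩
    have := ProbabilityTheory.gaussianReal_map_neg (μ := 0) (v := 1)
    simpa using this
  exact (MeasurePreserving.id (ProbabilityTheory.gaussianReal 0 1)).prod h2

theorem rqc_refl (κ q : ℝ) (g : ℝ × ℝ → ℝ) (x : ℝ × ℝ) :
    Rq κ q g (x.1, -x.2) = Rq κ q (fun y => g (y.1, -y.2)) x := by
  unfold Rq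
  congr 1
  ext t
  congr 1
  rw [rqc_Pt_eq, rqc_Pt_eq]
  have h := rqcR_mp.integral_comp' (g := fun y => g (rqcM κ t (x.1, -x.2) y))
  rw [← h]
  congr 1
  ext y
  have hR : rqcR y = (y.1, -y.2) := rfl
  rw [hR]
  congr 1
  ext
  · simp [rqcM]
  · simp [rqcM]; ring

/-- PACKET RQC. -/
theorem pkRQc : GRQc := by
  intro κ q _ _ hq
  refine ⟨?_, ?_, ?_, ?_, ?_, ?_, ?_⟩
  · intro g A _ hA x
    exact rqc_bound κ q hq g A hA x
  · intro a x
    exact rqc_const κ q hq a x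
  · intro g g' A hg hg' hA hA' h x
    exact rqc_mono κ q hq g g' A hg hg' hA hA' h x
  · intro g g' A a b hg hg' hA hA' x
    exact rqc_lin κ q hq g g' A a b hg hg' hA hA' x
  · intro g g' A hg hA hl x
    exact rqc_lim κ q hq g g' A hg hA hl x
  · intro g h x
    exact rqc_trans κ q g h x
  · intro g x
    exact rqc_refl κ q g x

end Pool.Agent.Helper25.PCap
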