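import Pool.Agent.Helper25.PCap.GoalsS
import Pool.Agent.Helper25.PCap.GoalsF

/-!
Packet S10: the stream function of the slit.
-/

set_option autoImplicit false

open MeasureTheory Set Filter Topology
open scoped ContDiff Real

noncomputable section

namespace Pool.Agent.Helper25.PCap

lemma s10_diff {f : ℝ × ℝ → ℝ} {U : Set (ℝ × ℝ)} (hU : IsOpen U) (hf : ContDiffOn ℝ ∞ f U)
    {z : ℝ × ℝ} (hz : z ∈ U) : DifferentiableAt ℝ f z :=
  (hf.contDiffAt (hU.mem_nhds hz)).differentiableAt (by simp)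

lemma s10_D1 {f : ℝ × ℝ → ℝ} {U : Set (ℝ × ℝ)} (hU : IsOpen U) (hf : ContDiffOn ℝ ∞ f U) :
    ContDiffOn ℝ ∞ (D1 f) U :=
  ((contDiffOn_infty_iff_fderiv_of_isOpen hU).1 hf).2.clm_apply contDiffOn_const

lemma s10_D2 {f : ℝ × ℝ → ℝ} {U : Set (ℝ × ℝ)} (hU : IsOpen U) (hf : ContDiffOn ℝ ∞ f U) :
    ContDiffOn ℝ ∞ (D2 f) U :=
  ((contDiffOn_infty_iff_fderiv_of_isOpen hU).1 hf).2.clm_apply contDiffOn_const

lemma s10_h1 {f : ℝ × ℝ → ℝ} {t ϑ : ℝ} (h : DifferentiableAt ℝ f (t, ϑ)) :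
    HasDerivAt (fun s : ℝ => f (s, ϑ)) (D1 f (t, ϑ)) t := by
  have h1 : HasDerivAt (fun s : ℝ => ((s, ϑ) : ℝ × ℝ)) (1, 0) t :=
    (hasDerivAt_id t).prodMk (hasDerivAt_const t ϑ)
  exact h.hasFDerivAt.comp_hasDerivAt t h1

lemma s10_h2 {f : ℝ × ℝ → ℝ} {t ϑ : ℝ} (h : DifferentiableAt ℝ f (t, ϑ)) :
    HasDerivAt (fun s : ℝ => f (t, s)) (D2 f (t, ϑ)) ϑ := by
  have h1 : HasDerivAt (fun s : ℝ => ((t, s) : ℝ × ℝ)) (0, 1) ϑ :=
    (hasDerivAt_const ϑ t).prodMk (hasDerivAt_id ϑ)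
  exact h.hasFDerivAt.comp_hasDerivAt ϑ h1

/-- a function with smooth partial derivatives is smooth -/
lemma s10_partials {Φ P1 P2 : ℝ × ℝ → ℝ} {N : Set (ℝ × ℝ)} (hN : IsOpen N)
    (h1 : ContDiffOn ℝ ∞ P1 N) (h2 : ContDiffOn ℝ ∞ P2 N)
    (hd1 : ∀ z ∈ N, HasDerivAt (fun t => Φ (t, z.2)) (P1 z) z.1)
    (hd2 : ∀ z ∈ N, HasDerivAt (fun t => Φ (z.1, t)) (P2 z) z.2) :
    ContDiffOn ℝ ∞ Φ N ∧ (∀ z ∈ N, D1 Φ z = P1 z) ∧ (∀ z ∈ N, D2 Φ z = P2 z) := by
  have hF : ∀ z ∈ N, HasFDerivAt Φ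
      (P1 z • ContinuousLinearMap.fst ℝ ℝ ℝ + P2 z • ContinuousLinearMap.snd ℝ ℝ ℝ) z := by
    intro z hz
    have hev : ∀ᶠ v in 𝓝 z, v ∈ N := hN.mem_nhds hz
    have key := hasStrictFDerivAt_uncurry_coprod (𝕜 := ℝ) (u := z) (f := fun a b => Φ (a, b))
      (f₁ := fun a b => P1 (a, b) • (1 : ℝ →L[ℝ] ℝ)) (f₂ := fun a b => P2 (a, b) • (1 : ℝ →L[ℝ] ℝ))
      (by
        filter_upwards [hev] with v hv
        have := (hd1 v hv).hasFDerivAt
        refine this.congr_fderiv ?_
        ext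
        simp [Function.HasUncurry.uncurry])
      (by
        filter_upwards [hev] with v hv
        have := (hd2 v hv).hasFDerivAt
        refine this.congr_fderiv ?_
        ext
        simp [Function.HasUncurry.uncurry])
      (by
        have : ContinuousAt P1 z := (h1.contDiffAt (hN.mem_nhds hz)).continuousAt
        exact this.smul continuousAt_const)
      (by
        have : ContinuousAt P2 z := (h2.contDiffAt (hN.mem_nhds hz)).continuousAt
        exact this.smul continuousAt_const)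
    refine key.hasFDerivAt.congr_fderiv ?_
    ext <;> simp [Function.HasUncurry.uncurry]
  refine ⟨?_, ?_, ?_⟩
  · rw [contDiffOn_infty_iff_fderiv_of_isOpen hN]
    refine ⟨fun z hz => (hF z hz).differentiableAt.differentiableWithinAt, ?_⟩
    have : ContDiffOn ℝ ∞ (fun z => P1 z • ContinuousLinearMap.fst ℝ ℝ ℝ +
        P2 z • ContinuousLinearMap.snd ℝ ℝ ℝ) N :=
      (h1.smul contDiffOn_const).add (h2.smul contDiffOn_const)
    exact this.congr fun z hz => (hF z hz).fderiv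
  · intro z hz
    rw [D1, (hF z hz).fderiv]
    simp
  · intro z hz
    rw [D2, (hF z hz).fderiv]
    simp

/-- vertical primitives -/
lemma s10_prim {g : ℝ × ℝ → ℝ} {N : Set (ℝ × ℝ)} {b : ℝ} (hN : IsOpen N)
    (hg : ContDiffOn ℝ ∞ g N) (hseg : ∀ z ∈ N, ∀ s ∈ uIcc z.2 b, (z.1, s) ∈ N) :
    (∀ z ∈ N, HasDerivAt (fun θ => ∫ s in θ..b, g (z.1, s)) (-g z) z.2) ∧
    (∀ z ∈ N, HasDerivAt (fun t => ∫ s in z.2..b, g (t, s)) (∫ s in z.2..b, D1 g (z.1, s)) z.1) := by
  have hgc : ∀ z ∈ N, ContinuousOn (fun s => g (z.1, s)) (uIcc z.2 b) := by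
    intro z hz
    exact hg.continuousOn.comp (by fun_prop) (fun s hs => hseg z hz s hs)
  refine ⟨?_, ?_⟩
  · intro z hz
    have hc : ContinuousAt (fun s => g (z.1, s)) z.2 := by
      have h1 : ContinuousAt g (z.1, z.2) := (hg.contDiffAt (hN.mem_nhds hz)).continuousAt
      exact h1.comp (by fun_prop : ContinuousAt (fun s : ℝ => ((z.1, s) : ℝ × ℝ)) z.2)
    have hopen : IsOpen {s : ℝ | (z.1, s) ∈ N} := hN.preimage (by fun_prop)
    have hcon : ContinuousOn (fun s => g (z.1, s)) {s : ℝ | (z.1, s) ∈ N} :=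
      hg.continuousOn.comp (by fun_prop) (fun s hs => hs)
    exact intervalIntegral.integral_hasDerivAt_left (hgc z hz).intervalIntegrable
      (hcon.stronglyMeasurableAtFilter hopen z.2 hz) hc
  · intro z hz
    have hsub : ({z.1} : Set ℝ) ×ˢ (uIcc z.2 b) ⊆ N := by
      rintro ⟨a, s⟩ ⟨ha, hs⟩
      rw [mem_singleton_iff] at ha
      simp only at ha hs
      subst ha
      exact hseg z hz s hs
    obtain ⟨u, v, hu, hv, hzu, hsv, huv⟩ :=
      generalized_tube_lemma (isCompact_singleton) (isCompact_uIcc) hN hsub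
    obtain ⟨δ, hδ, hball⟩ := Metric.isOpen_iff.1 hu z.1 (hzu rfl)
    have hcb : Metric.closedBall z.1 (δ / 2) ⊆ u :=
      (Metric.closedBall_subset_ball (by linarith)).trans hball
    have hKN : Metric.closedBall z.1 (δ / 2) ×ˢ uIcc z.2 b ⊆ N :=
      (prod_mono hcb hsv).trans huv
    have hD : ContinuousOn (D1 g) N := (s10_D1 hN hg).continuousOn
    obtain ⟨C, hC⟩ := ((isCompact_closedBall z.1 (δ / 2)).prod
      (isCompact_uIcc (a := z.2) (b := b))).exists_bound_of_continuousOn (hD.mono hKN)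
    have hmemball : ∀ t ∈ Metric.ball z.1 (δ / 2), ∀ s ∈ uIcc z.2 b, (t, s) ∈ N :=
      fun t ht s hs => hKN ⟨Metric.ball_subset_closedBall ht, hs⟩
    have hgt : ∀ t ∈ Metric.ball z.1 (δ / 2), ContinuousOn (fun s => g (t, s)) (uIcc z.2 b) :=
      fun t ht => hg.continuousOn.comp (by fun_prop) (fun s hs => hmemball t ht s hs)
    have hmem : Metric.ball z.1 (δ / 2) ∈ 𝓝 z.1 := Metric.ball_mem_nhds _ (by linarith)
    refine (intervalIntegral.hasDerivAt_integral_of_dominated_loc_of_deriv_le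
      (F := fun t s => g (t, s)) (F' := fun t s => D1 g (t, s)) (bound := fun _ => C)
      hmem ?_ ?_ ?_ ?_ ?_ ?_).2
    · filter_upwards [hmem] with t ht
      exact ((hgt t ht).mono uIoc_subset_uIcc).aestronglyMeasurable measurableSet_uIoc
    · exact (hgt z.1 (Metric.mem_ball_self (by linarith))).intervalIntegrable
    · have : ContinuousOn (fun s => D1 g (z.1, s)) (uIcc z.2 b) :=
        hD.comp (by fun_prop) (fun s hs => hseg z hz s hs)
      exact (this.mono uIoc_subset_uIcc).aestronglyMeasurable measurableSet_uIoc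
    · refine Eventually.of_forall fun s hs t ht => ?_
      exact hC (t, s) ⟨Metric.ball_subset_closedBall ht, uIoc_subset_uIcc hs⟩
    · exact intervalIntegrable_const
    · refine Eventually.of_forall fun s hs t ht => ?_
      exact s10_h1 (s10_diff hN hg (hmemball t ht s (uIoc_subset_uIcc hs)))

lemma s10_isOpen_SC : IsOpen SC := by
  have h : SC = {z : ℝ × ℝ | z.1 < 0} ∪ {z : ℝ × ℝ | Real.sin z.2 ≠ 0} := rfl
  rw [h]
  exact (isOpen_lt continuous_fst continuous_const).union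
    (isOpen_ne_fun (Real.continuous_sin.comp continuous_snd) continuous_const)

/-- the integrand of the stream function -/
def s10g {κ : ℝ} (S : SData κ) (z : ℝ × ℝ) : ℝ :=
  1 - BB κ S.C0 * Real.exp (-(1 - κ) * z.1) * D1 S.u z

lemma s10_g_smooth {κ : ℝ} (S : SData κ) {N : Set (ℝ × ℝ)} (hN : IsOpen N) (hs : N ⊆ SC) :
    ContDiffOn ℝ ∞ (s10g S) N := by
  have h1 : ContDiffOn ℝ ∞ (D1 S.u) N := s10_D1 hN (S.smooth.mono hs)
  have h2 : ContDiff ℝ ∞ (fun z : ℝ × ℝ => BB κ S.C0 * Real.exp (-(1 - κ) * z.1)) := by fun_prop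
  exact contDiffOn_const.sub (h2.contDiffOn.mul h1)

lemma s10_sym {κ : ℝ} (S : SData κ) (τ θ : ℝ) : S.u (τ, π - θ) = S.u (τ, θ) := by
  have h1 := S.per τ (-θ)
  rw [S.even] at h1
  rw [← h1]
  congr 2
  ring

lemma s10_D2_half {κ : ℝ} (S : SData κ) (τ : ℝ) : D2 S.u (τ, π / 2) = 0 := by
  have hmem : (τ, π / 2) ∈ SC := by
    refine Or.inr ?_
    show Real.sin (π / 2) ≠ 0
    rw [Real.sin_pi_div_two]
    norm_num
  have h1 := s10_h2 (s10_diff s10_isOpen_SC S.smooth hmem)
  have h2 : HasDerivAt (fun s : ℝ => S.u (τ, π - s)) (-D2 S.u (τ, π / 2)) (π / 2) := by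
    have h3 : HasDerivAt (fun s : ℝ => π - s) (-1) (π / 2) := by
      simpa using (hasDerivAt_id (π / 2)).const_sub π
    have h4 : HasDerivAt (fun s : ℝ => S.u (τ, s)) (D2 S.u (τ, π / 2)) (π - π / 2) := by
      have : π - π / 2 = π / 2 := by ring
      rw [this]
      exact h1
    have h := h4.comp (π / 2) h3
    rw [mul_neg_one] at h
    exact h
  have h5 : (fun s : ℝ => S.u (τ, π - s)) = fun s : ℝ => S.u (τ, s) := by
    funext s
    exact s10_sym S τ s
  rw [h5] at h2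
  have := h1.unique h2
  linarith

/-- the system on a set of points connected with `θ = π/2` by vertical segments -/
lemma s10_sys {κ : ℝ} (S : SData κ) {N : Set (ℝ × ℝ)}
    (hN : IsOpen N) (hs : N ⊆ SC) (hseg : ∀ z ∈ N, ∀ s ∈ uIcc z.2 (π / 2), (z.1, s) ∈ N) :
    Sys κ S.C0 S.u (omS S) N := by
  have hg := s10_g_smooth S hN hs
  obtain ⟨hp2, hp1⟩ := s10_prim hN hg hseg
  have hu := S.smooth.mono hs
  have hD2 : ContDiffOn ℝ ∞ (D2 S.u) N := s10_D2 hN hu
  have hex : ContDiff ℝ ∞ (fun z : ℝ × ℝ => κ * BB κ S.C0 * Real.exp (-(1 - κ) * z.1)) := by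
    fun_prop
  have hP1 : ContDiffOn ℝ ∞ (fun z : ℝ × ℝ => -(κ * BB κ S.C0 * Real.exp (-(1 - κ) * z.1) *
      D2 S.u z)) N := (hex.contDiffOn.mul hD2).neg
  have hD1g : ∀ z ∈ N, D1 (s10g S) z =
      κ * BB κ S.C0 * Real.exp (-(1 - κ) * z.1) * D2 (D2 S.u) z := by
    intro z hz
    obtain ⟨t, θ⟩ := z
    have e1 := s10_h1 (s10_diff hN hg hz)
    have e2 : HasDerivAt (fun s : ℝ => D1 S.u (s, θ)) (D1 (D1 S.u) (t, θ)) t :=
      s10_h1 (s10_diff hN (s10_D1 hN hu) hz)
    have e3 : HasDerivAt (fun s : ℝ => BB κ S.C0 * Real.exp (-(1 - κ) * s))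
        (BB κ S.C0 * (Real.exp (-(1 - κ) * t) * (-(1 - κ)))) t := by
      have h6 : HasDerivAt (fun s : ℝ => -(1 - κ) * s) (-(1 - κ)) t := by
        simpa using (hasDerivAt_id t).const_mul (-(1 - κ))
      exact (h6.exp).const_mul _
    have e4 := (e3.mul e2).const_sub 1
    have e5 : D1 (s10g S) (t, θ) = -(BB κ S.C0 * (Real.exp (-(1 - κ) * t) * (-(1 - κ))) *
        D1 S.u (t, θ) + BB κ S.C0 * Real.exp (-(1 - κ) * t) * D1 (D1 S.u) (t, θ)) :=
      e1.unique e4
    have e6 := S.eq (t, θ) (hs hz)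
    rw [LL] at e6
    rw [e5]
    simp only
    have e7 : D1 (D1 S.u) (t, θ) = (1 - κ) * D1 S.u (t, θ) - κ * D2 (D2 S.u) (t, θ) := by linarith
    rw [e7]
    ring
  have hom : ∀ t θ, omS S (t, θ) = ∫ s in θ..(π / 2), s10g S (t, s) := fun t θ => rfl
  have hpart := s10_partials (Φ := omS S)
    (P1 := fun z : ℝ × ℝ => -(κ * BB κ S.C0 * Real.exp (-(1 - κ) * z.1) * D2 S.u z))
    (P2 := fun z => -s10g S z) hN hP1 hg.neg
    (by
      intro z hz
      have h7 := hp1 z hz
      have h8 : ∫ s in z.2..(π / 2), D1 (s10g S) (z.1, s) =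
          -(κ * BB κ S.C0 * Real.exp (-(1 - κ) * z.1) * D2 S.u z) := by
        have h9 : ∫ s in z.2..(π / 2), D1 (s10g S) (z.1, s) =
            ∫ s in z.2..(π / 2), κ * BB κ S.C0 * Real.exp (-(1 - κ) * z.1) *
              D2 (D2 S.u) (z.1, s) := by
          refine intervalIntegral.integral_congr fun s hs' => ?_
          exact hD1g (z.1, s) (hseg z hz s hs')
        rw [h9, intervalIntegral.integral_const_mul]
        have h10 : ∫ s in z.2..(π / 2), D2 (D2 S.u) (z.1, s) =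
            D2 S.u (z.1, π / 2) - D2 S.u (z.1, z.2) := by
          refine intervalIntegral.integral_eq_sub_of_hasDerivAt
            (f := fun s => D2 S.u (z.1, s)) (fun s hs' => ?_) ?_
          · exact s10_h2 (s10_diff hN hD2 (hseg z hz s hs'))
          · refine ContinuousOn.intervalIntegrable ?_
            exact (s10_D2 hN hD2).continuousOn.comp (by fun_prop) (fun s hs' => hseg z hz s hs')
        rw [h10, s10_D2_half]
        ring
      rw [h8] at h7
      exact h7)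
    (by
      intro z hz
      exact hp2 z hz)
  refine ⟨hu, hpart.1, fun z hz => ?_, fun z hz => ?_⟩
  · rw [hpart.2.2 z hz, s10g]
    ring
  · rw [hpart.2.1 z hz]

lemma s10_D1_sym {κ : ℝ} (S : SData κ) (τ θ : ℝ) (h1 : (τ, θ) ∈ SC) (h2 : (τ, π - θ) ∈ SC) :
    D1 S.u (τ, π - θ) = D1 S.u (τ, θ) := by
  have e1 := s10_h1 (s10_diff s10_isOpen_SC S.smooth h1)
  have e2 := s10_h1 (s10_diff s10_isOpen_SC S.smooth h2)
  have e3 : (fun s : ℝ => S.u (s, π - θ)) = fun s : ℝ => S.u (s, θ) := by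
    funext s
    exact s10_sym S s θ
  rw [e3] at e2
  exact e2.unique e1

lemma s10_refl {κ : ℝ} (S : SData κ) (τ θ : ℝ) (h0 : 0 < θ) (h1 : θ < π) :
    omS S (τ, π - θ) = -omS S (τ, θ) := by
  have e1 : ∫ x in θ..(π / 2), s10g S (τ, π - x) = ∫ x in (π / 2)..(π - θ), s10g S (τ, x) := by
    have := intervalIntegral.integral_comp_sub_left (a := θ) (b := π / 2)
      (fun x => s10g S (τ, x)) π
    rw [this]
    congr 1
    ring
  have e2 : ∫ x in θ..(π / 2), s10g S (τ, π - x) = ∫ x in θ..(π / 2), s10g S (τ, x) := by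
    refine intervalIntegral.integral_congr fun x hx => ?_
    have hx' : 0 < x ∧ x < π := by
      have hlo : min θ (π / 2) ≤ x := hx.1
      have hhi : x ≤ max θ (π / 2) := hx.2
      have h3 : 0 < min θ (π / 2) := lt_min h0 (by positivity)
      have h4 : max θ (π / 2) < π := max_lt h1 (by linarith [Real.pi_pos])
      exact ⟨by linarith, by linarith⟩
    have m1 : (τ, x) ∈ SC := Or.inr (Real.sin_pos_of_pos_of_lt_pi hx'.1 hx'.2).ne'
    have m2 : (τ, π - x) ∈ SC := Or.inr (Real.sin_pos_of_pos_of_lt_pi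
      (by simp only; linarith) (by simp only; linarith)).ne'
    show s10g S (τ, π - x) = s10g S (τ, x)
    rw [s10g, s10g, s10_D1_sym S τ x m1 m2]
  show ∫ s in (π - θ)..(π / 2), s10g S (τ, s) = -∫ s in θ..(π / 2), s10g S (τ, s)
  rw [← e2, e1, intervalIntegral.integral_symm]

lemma s10_md_re (c : ℕ → ℂ) (n : ℕ) (θ : ℝ) (h : (c n).im = 0) :
    (md c n θ).re = (c n).re * Real.cos (n * θ) := by
  rw [md, Complex.mul_re, Complex.exp_ofReal_mul_I_re, Complex.exp_ofReal_mul_I_im, h]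
  ring

lemma s10_md_im (c : ℕ → ℂ) (n : ℕ) (θ : ℝ) (h : (c n).im = 0) :
    (md c n θ).im = (c n).re * Real.sin (n * θ) := by
  rw [md, Complex.mul_im, Complex.exp_ofReal_mul_I_re, Complex.exp_ofReal_mul_I_im, h]
  ring

lemma s10_int_cos (n : ℕ) (hn : n ≠ 0) (a b : ℝ) :
    ∫ s in a..b, Real.cos (n * s) = (Real.sin (n * b) - Real.sin (n * a)) / n := by
  have hn' : (n : ℝ) ≠ 0 := by exact_mod_cast hn
  have h : ∀ s ∈ uIcc a b, HasDerivAt (fun s : ℝ => Real.sin (n * s) / n) (Real.cos (n * s)) s := by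
    intro s _
    have h1 : HasDerivAt (fun s : ℝ => (n : ℝ) * s) n s := by
      simpa using (hasDerivAt_id s).const_mul (n : ℝ)
    have h2 := (h1.sin).div_const (n : ℝ)
    have h3 : Real.cos (n * s) * n / n = Real.cos (n * s) := by field_simp
    rw [h3] at h2
    exact h2
  rw [intervalIntegral.integral_eq_sub_of_hasDerivAt h
    ((by fun_prop : Continuous fun s : ℝ => Real.cos (n * s)).intervalIntegrable _ _)]
  ring

lemma s10_exp {κ : ℝ} (hκ : 0 < κ) (hκ1 : κ < 1) (h0 : GExpo) (S : SData κ) (c : ℕ → ℂ)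
    (hc0 : c 0 = 0) (hodd : ∀ n, Odd n → c n = 0) (him : ∀ n, (c n).im = 0) (τ : ℝ)
    (hsum : Summable (fun n : ℕ => ((n : ℝ) + 1) ^ 5 * ‖c n‖ * Real.exp (aa κ n * τ)))
    (hD : ∀ θ : ℝ, HasSum (fun n : ℕ => aa κ n * (md c n θ).re * Real.exp (aa κ n * τ))
      (D1 S.u (τ, θ) - (1 - κ) * S.C0 * Real.exp ((1 - κ) * τ))) (θ : ℝ) :
    HasSum (fun n : ℕ => BB κ S.C0 * (aa κ n / n) * (md c n θ).im * Real.exp (bb κ n * τ))
      (omS S (τ, θ)) := by
  obtain ⟨_, _, _, _, _, hge, hle, _⟩ := h0 κ hκ hκ1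
  have hC0 := S.C0pos
  set A : ℝ := BB κ S.C0 * Real.exp (-(1 - κ) * τ) with hA
  have hB : BB κ S.C0 * ((1 - κ) * S.C0) = 1 := by
    rw [BB]
    have : (1 - κ) * S.C0 ≠ 0 := (mul_pos (by linarith) hC0).ne'
    exact one_div_mul_cancel this
  have hee : Real.exp (-(1 - κ) * τ) * Real.exp ((1 - κ) * τ) = 1 := by
    rw [← Real.exp_add]
    have : -(1 - κ) * τ + (1 - κ) * τ = 0 := by ring
    rw [this, Real.exp_zero]
  have hlim : ∀ s : ℝ, HasSum (fun n : ℕ => -A * (aa κ n * (md c n s).re * Real.exp (aa κ n * τ)))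
      (s10g S (τ, s)) := by
    intro s
    have h1 := (hD s).mul_left (-A)
    have h2 : -A * (D1 S.u (τ, s) - (1 - κ) * S.C0 * Real.exp ((1 - κ) * τ)) = s10g S (τ, s) := by
      rw [s10g, hA]
      have h3 : BB κ S.C0 * Real.exp (-(1 - κ) * τ) * ((1 - κ) * S.C0 * Real.exp ((1 - κ) * τ)) =
          1 := by
        calc BB κ S.C0 * Real.exp (-(1 - κ) * τ) * ((1 - κ) * S.C0 * Real.exp ((1 - κ) * τ))
            = (BB κ S.C0 * ((1 - κ) * S.C0)) *
              (Real.exp (-(1 - κ) * τ) * Real.exp ((1 - κ) * τ)) := by ring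
          _ = 1 := by rw [hB, hee, one_mul]
      linear_combination h3
    rw [h2] at h1
    exact h1
  have haa : ∀ n : ℕ, 0 ≤ aa κ n := fun n =>
    le_trans (mul_nonneg (Real.sqrt_nonneg _) (Nat.cast_nonneg _)) (hge n)
  have hnorm : ∀ (n : ℕ) (s : ℝ), |(md c n s).re| ≤ ‖c n‖ := by
    intro n s
    refine (Complex.abs_re_le_norm _).trans ?_
    rw [md, norm_mul, Complex.norm_exp_ofReal_mul_I, mul_one]
  have hbsum : Summable (fun n : ℕ => |A| * (aa κ n * ‖c n‖ * Real.exp (aa κ n * τ))) := by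
    refine Summable.mul_left _ (Summable.of_nonneg_of_le (fun n => ?_) (fun n => ?_) hsum)
    · exact mul_nonneg (mul_nonneg (haa n) (norm_nonneg _)) (Real.exp_pos _).le
    · refine mul_le_mul_of_nonneg_right ?_ (Real.exp_pos _).le
      refine mul_le_mul_of_nonneg_right ?_ (norm_nonneg _)
      have h1 : (1 : ℝ) ≤ (n : ℝ) + 1 := by
        have : (0 : ℝ) ≤ n := Nat.cast_nonneg n
        linarith
      calc aa κ n ≤ (n : ℝ) + 1 := hle n
        _ = ((n : ℝ) + 1) ^ 1 := (pow_one _).symm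
        _ ≤ ((n : ℝ) + 1) ^ 5 := pow_le_pow_right₀ h1 (by norm_num)
  have hcont : ∀ n : ℕ, Continuous (fun s : ℝ => -A * (aa κ n * (md c n s).re *
      Real.exp (aa κ n * τ))) := by
    intro n
    have h1 : Continuous (fun s : ℝ => (md c n s).re) := by
      have h2 : (fun s : ℝ => (md c n s).re) = fun s : ℝ => (c n).re * Real.cos (n * s) := by
        funext s
        exact s10_md_re c n s (him n)
      rw [h2]
      fun_prop
    fun_prop
  have key := intervalIntegral.hasSum_integral_of_dominated_convergence (μ := volume)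
    (a := θ) (b := π / 2)
    (F := fun (n : ℕ) (s : ℝ) => -A * (aa κ n * (md c n s).re * Real.exp (aa κ n * τ)))
    (f := fun s => s10g S (τ, s))
    (bound := fun (n : ℕ) (_ : ℝ) => |A| * (aa κ n * ‖c n‖ * Real.exp (aa κ n * τ)))
    (fun n => (hcont n).aestronglyMeasurable)
    (fun n => Eventually.of_forall fun s _ => by
      rw [Real.norm_eq_abs, abs_mul, abs_neg]
      refine mul_le_mul_of_nonneg_left ?_ (abs_nonneg _)
      rw [abs_mul, abs_mul, abs_of_nonneg (haa n), abs_of_pos (Real.exp_pos _)]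
      refine mul_le_mul_of_nonneg_right ?_ (Real.exp_pos _).le
      exact mul_le_mul_of_nonneg_left (hnorm n s) (haa n))
    (Eventually.of_forall fun s _ => hbsum)
    (intervalIntegrable_const)
    (Eventually.of_forall fun s _ => hlim s)
  have hterm : ∀ n : ℕ, (∫ s in θ..(π / 2), -A * (aa κ n * (md c n s).re *
      Real.exp (aa κ n * τ))) =
      BB κ S.C0 * (aa κ n / n) * (md c n θ).im * Real.exp (bb κ n * τ) := by
    intro n
    have hbb : Real.exp (bb κ n * τ) = Real.exp (-(1 - κ) * τ) * Real.exp (aa κ n * τ) := by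
      rw [← Real.exp_add, bb]
      congr 1
      ring
    by_cases hn : n = 0
    · subst hn
      have : ∀ s, md c 0 s = 0 := fun s => by rw [md, hc0, zero_mul]
      simp [this]
    · have hn' : (n : ℝ) ≠ 0 := by exact_mod_cast hn
      have h1 : (∫ s in θ..(π / 2), -A * (aa κ n * (md c n s).re * Real.exp (aa κ n * τ))) =
          ∫ s in θ..(π / 2), (-A * aa κ n * (c n).re * Real.exp (aa κ n * τ)) *
            Real.cos (n * s) := by
        congr 1
        funext s
        rw [s10_md_re c n s (him n)]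
        ring
      rw [h1, intervalIntegral.integral_const_mul, s10_int_cos n hn, s10_md_im c n θ (him n), hbb]
      have h2 : (c n).re * Real.sin (n * (π / 2)) = 0 := by
        rcases Nat.even_or_odd n with he | ho
        · obtain ⟨k, hk⟩ := he
          have : (n : ℝ) * (π / 2) = (k : ℝ) * π := by
            rw [hk]
            push_cast
            ring
          rw [this, Real.sin_nat_mul_pi, mul_zero]
        · rw [hodd n ho]
          simp
      have h3 : -A * aa κ n * (c n).re * Real.exp (aa κ n * τ) *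
          ((Real.sin (n * (π / 2)) - Real.sin (n * θ)) / n) =
          BB κ S.C0 * (aa κ n / n) * ((c n).re * Real.sin (n * θ)) *
            (Real.exp (-(1 - κ) * τ) * Real.exp (aa κ n * τ)) -
          A * aa κ n * Real.exp (aa κ n * τ) / n * ((c n).re * Real.sin (n * (π / 2))) := by
        rw [hA]
        ring
      rw [h3, h2, mul_zero, sub_zero]
  have hfin : (fun n : ℕ => ∫ s in θ..(π / 2), -A * (aa κ n * (md c n s).re *
      Real.exp (aa κ n * τ))) = fun n : ℕ =>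
      BB κ S.C0 * (aa κ n / n) * (md c n θ).im * Real.exp (bb κ n * τ) := by
    funext n
    exact hterm n
  rw [hfin] at key
  exact key

theorem pkS10 (h0 : GExpo) (h9 : GS9) : GS10 := by
  intro κ hκ hκ1 S
  obtain ⟨c, hc0, hc1, hodd, him, hc2, hc⟩ := h9 κ hκ hκ1 S
  have hexp : ∀ τ θ : ℝ, τ < 0 →
      HasSum (fun n : ℕ => BB κ S.C0 * (aa κ n / n) * (md c n θ).im * Real.exp (bb κ n * τ))
        (omS S (τ, θ)) := by
    intro τ θ hτ
    obtain ⟨hs, hh⟩ := hc τ hτ
    exact s10_exp hκ hκ1 h0 S c hc0 hodd him τ hs (fun s => (hh τ s le_rfl).2.1) θ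
  have hopenQ : IsOpen {z : ℝ × ℝ | 0 < z.2 ∧ z.2 < π} :=
    (isOpen_lt continuous_const continuous_snd).inter (isOpen_lt continuous_snd continuous_const)
  have hopenN : IsOpen {z : ℝ × ℝ | z.1 < 0} := isOpen_lt continuous_fst continuous_const
  refine ⟨?_, ?_, ?_, ?_, ?_, ?_, c, -1, by norm_num, ?_, him, hc2⟩
  · refine s10_sys S hopenQ ?_ ?_
    · intro z hz
      exact Or.inr (Real.sin_pos_of_pos_of_lt_pi hz.1 hz.2).ne'
    · intro z hz s hs
      have hlo : min z.2 (π / 2) ≤ s := hs.1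
      have hhi : s ≤ max z.2 (π / 2) := hs.2
      have h3 : 0 < min z.2 (π / 2) := lt_min hz.1 (by positivity)
      have h4 : max z.2 (π / 2) < π := max_lt hz.2 (by linarith [Real.pi_pos])
      exact ⟨lt_of_lt_of_le h3 hlo, lt_of_le_of_lt hhi h4⟩
  · refine s10_sys S hopenN ?_ ?_
    · intro z hz
      exact Or.inl hz
    · intro z hz s _
      exact hz
  · intro τ
    exact intervalIntegral.integral_same
  · intro τ hτ
    have h := hexp τ 0 hτ
    have h1 : (fun n : ℕ => BB κ S.C0 * (aa κ n / n) * (md c n 0).im * Real.exp (bb κ n * τ)) =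
        fun _ => 0 := by
      funext n
      rw [s10_md_im c n 0 (him n)]
      simp
    rw [h1] at h
    exact h.unique hasSum_zero
  · intro τ θ hθ hθ'
    exact s10_refl S τ θ hθ hθ'
  · intro τ θ hτ
    have h := hexp τ (-θ) hτ
    have h2 := (hexp τ θ hτ).neg
    have h1 : (fun n : ℕ => BB κ S.C0 * (aa κ n / n) * (md c n (-θ)).im * Real.exp (bb κ n * τ)) =
        fun n : ℕ => -(BB κ S.C0 * (aa κ n / n) * (md c n θ).im * Real.exp (bb κ n * τ)) := by
      funext n
      rw [s10_md_im c n (-θ) (him n), s10_md_im c n θ (him n)]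
      have : (n : ℝ) * -θ = -(n * θ) := by ring
      rw [this, Real.sin_neg]
      ring
    rw [h1] at h
    exact h.unique h2
  · obtain ⟨hs, hh⟩ := hc (-1) (by norm_num)
    refine ⟨?_, hc0, hc1, ?_⟩
    · refine Summable.of_nonneg_of_le (fun n => ?_) (fun n => ?_) hs
      · exact mul_nonneg (mul_nonneg (by positivity) (norm_nonneg _)) (Real.exp_pos _).le
      · refine mul_le_mul_of_nonneg_right ?_ (Real.exp_pos _).le
        refine mul_le_mul_of_nonneg_right ?_ (norm_nonneg _)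
        have h1 : (1 : ℝ) ≤ (n : ℝ) + 1 := by
          have : (0 : ℝ) ≤ n := Nat.cast_nonneg n
          linarith
        exact pow_le_pow_right₀ h1 (by norm_num)
    · intro τ θ hτ
      obtain ⟨e1, e2, e3, _⟩ := hh τ θ hτ
      exact ⟨e1, e2, e3, hexp τ θ (by linarith)⟩

end Pool.Agent.Helper25.PCap
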