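import Pool.Agent.Helper25.PCap.GoalsS
import Pool.Agent.Helper25.PCap.GoalsF
import Pool.Agent.Helper25.PCap.PkCT
import Pool.Agent.Helper27.PCap.Expo

/-!
Planar p-capacity (MP_576c25_an): packet S12, signs for the slit function.
-/

set_option autoImplicit false

open MeasureTheory Set Filter Topology
open scoped ContDiff Real

noncomputable section

namespace Pool.Agent.Helper25.PCap

namespace S12

open CT

theorem isOpen_SC : IsOpen SC := by
  have h1 : IsOpen {z : ℝ × ℝ | z.1 < 0} := isOpen_lt continuous_fst continuous_const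
  have h2 : IsOpen {z : ℝ × ℝ | Real.sin z.2 ≠ 0} := isOpen_ne_fun (by fun_prop) continuous_const
  exact h1.union h2

theorem hasF {f : ℝ × ℝ → ℝ} {O : Set (ℝ × ℝ)} (hO : IsOpen O) (hf : ContDiffOn ℝ ∞ f O)
    {z : ℝ × ℝ} (hz : z ∈ O) : HasFDerivAt f (lf (D1 f z) (D2 f z)) z := by
  have h1 := ((hf.differentiableOn (by simp)).differentiableAt (hO.mem_nhds hz)).hasFDerivAt
  refine h1.congr_fderiv (ContinuousLinearMap.ext fun w => ?_)
  rw [clm_eq, lf_apply]; rfl

theorem hasDerivAt_horiz {F : ℝ × ℝ → ℝ} {a b t θ : ℝ} (h : HasFDerivAt F (lf a b) (t, θ)) :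
    HasDerivAt (fun s => F (t, s)) b θ := by
  have h1 : HasDerivAt (fun s : ℝ => (t, s)) ((0 : ℝ), (1 : ℝ)) θ :=
    (hasDerivAt_const θ t).prodMk (hasDerivAt_id θ)
  have h2 := h.comp_hasDerivAt θ h1
  rw [lf_apply] at h2
  simpa [Function.comp_def] using h2

theorem deriv_nonpos_right {g : ℝ → ℝ} {g' a b : ℝ} (hab : a < b) (h : HasDerivAt g g' a)
    (hle : ∀ x, a < x → x < b → g x ≤ g a) : g' ≤ 0 := by
  have h1 : Tendsto (slope g a) (𝓝[>] a) (𝓝 g') :=
    (hasDerivAt_iff_tendsto_slope.1 h).mono_left (nhdsWithin_mono _ (fun x hx => ne_of_gt hx))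
  refine le_of_tendsto h1 ?_
  filter_upwards [Ioo_mem_nhdsGT hab] with x hx
  rw [slope_def_field]
  have h2 := hle x hx.1 hx.2
  have h3 := hx.1
  apply div_nonpos_of_nonpos_of_nonneg <;> linarith

theorem deriv_nonneg_left {g : ℝ → ℝ} {g' a b : ℝ} (hab : b < a) (h : HasDerivAt g g' a)
    (hle : ∀ x, b < x → x < a → g x ≤ g a) : 0 ≤ g' := by
  have h1 : Tendsto (slope g a) (𝓝[<] a) (𝓝 g') :=
    (hasDerivAt_iff_tendsto_slope.1 h).mono_left (nhdsWithin_mono _ (fun x hx => ne_of_lt hx))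
  refine ge_of_tendsto h1 ?_
  filter_upwards [Ioo_mem_nhdsLT hab] with x hx
  rw [slope_def_field]
  have h2 := hle x hx.1 hx.2
  have h3 := hx.2
  apply div_nonneg_of_nonpos <;> linarith

theorem mono_of {F F' : ℝ → ℝ} {s : Set ℝ} (hs : Convex ℝ s) (hF : ∀ x ∈ s, HasDerivAt F (F' x) x)
    (h0 : ∀ x ∈ s, 0 ≤ F' x) : MonotoneOn F s := by
  apply monotoneOn_of_deriv_nonneg hs (fun x hx => (hF x hx).continuousAt.continuousWithinAt)
  · intro x hx
    exact (hF x (interior_subset hx)).differentiableAt.differentiableWithinAt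
  · intro x hx
    rw [(hF x (interior_subset hx)).deriv]
    exact h0 x (interior_subset hx)

theorem strictMono_of {F F' : ℝ → ℝ} (hF : ∀ x, HasDerivAt F (F' x) x)
    (h0 : ∀ x, 0 < F' x) : StrictMono F :=
  strictMono_of_deriv_pos (fun x => by rw [(hF x).deriv]; exact h0 x)

theorem tail {b : ℕ → ℝ} (hb : StrictMono b) {W : ℕ → ℝ} {τ₁ : ℝ}
    (hW : Summable (fun n => W n * Real.exp (b n * τ₁))) :
    ∃ K : ℝ, ∀ (w : ℕ → ℝ) (τ s : ℝ), w 0 = 0 → w 1 = 0 → (∀ n, |w n| ≤ W n) → τ ≤ τ₁ →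
      HasSum (fun n => w n * Real.exp (b n * τ)) s →
      |s - w 2 * Real.exp (b 2 * τ)| ≤ K * Real.exp (b 3 * (τ - τ₁)) := by
  refine ⟨∑' n, W n * Real.exp (b n * τ₁), ?_⟩
  intro w τ s h0 h1 hw hτ hs
  have h2 := hs.sub (hasSum_ite_eq (2 : ℕ) (w 2 * Real.exp (b 2 * τ)))
  have h3 := hW.hasSum.mul_right (Real.exp (b 3 * (τ - τ₁)))
  have h4 : ∀ n, ‖(w n * Real.exp (b n * τ) - if n = 2 then w 2 * Real.exp (b 2 * τ) else 0)‖ ≤
      W n * Real.exp (b n * τ₁) * Real.exp (b 3 * (τ - τ₁)) := by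
    intro n
    have hWn : 0 ≤ W n := (abs_nonneg _).trans (hw n)
    by_cases hn2 : n = 2
    · subst hn2
      simp only [if_true, sub_self, norm_zero]
      positivity
    · rw [if_neg hn2, sub_zero, norm_mul, Real.norm_eq_abs, Real.norm_eq_abs,
        abs_of_pos (Real.exp_pos _)]
      rcases Nat.lt_or_ge n 3 with h | h
      · have : w n = 0 := by
          interval_cases n
          · exact h0
          · exact h1
          · exact absurd rfl hn2
        rw [this, abs_zero, zero_mul]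
        positivity
      · have h5 : Real.exp (b n * τ) ≤ Real.exp (b n * τ₁) * Real.exp (b 3 * (τ - τ₁)) := by
          rw [← Real.exp_add]
          apply Real.exp_le_exp.2
          have h6 : b 3 ≤ b n := hb.monotone h
          nlinarith
        calc |w n| * Real.exp (b n * τ) ≤
            W n * (Real.exp (b n * τ₁) * Real.exp (b 3 * (τ - τ₁))) := by
              gcongr
              exact hw n
          _ = _ := by ring
  exact h2.norm_le_of_bounded h3 h4

theorem tendsto_exp_atBot {a : ℝ} (ha : 0 < a) (M : ℝ) :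
    Tendsto (fun τ : ℝ => M * Real.exp (a * τ)) atBot (𝓝 0) := by
  have h4 : Tendsto (fun τ : ℝ => M * Real.exp (a * τ)) atBot (𝓝 (M * 0)) := by
    apply Tendsto.const_mul
    apply Real.tendsto_exp_atBot.comp
    exact tendsto_id.const_mul_atBot ha
  rwa [mul_zero] at h4

theorem lead {b2 b3 τ₁ K w2 : ℝ} (hb : b2 < b3) (hw : 0 < w2) :
    ∀ᶠ τ : ℝ in atBot, K * Real.exp (b3 * (τ - τ₁)) < w2 * Real.exp (b2 * τ) := by
  have h1 := tendsto_exp_atBot (a := b3 - b2) (by linarith) (K * Real.exp (-(b3 * τ₁)))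
  filter_upwards [h1.eventually (gt_mem_nhds hw)] with τ hτ
  have h2 : Real.exp (b3 * (τ - τ₁)) =
      Real.exp (-(b3 * τ₁)) * Real.exp ((b3 - b2) * τ) * Real.exp (b2 * τ) := by
    rw [← Real.exp_add, ← Real.exp_add]; congr 1; ring
  calc K * Real.exp (b3 * (τ - τ₁)) =
      (K * Real.exp (-(b3 * τ₁)) * Real.exp ((b3 - b2) * τ)) * Real.exp (b2 * τ) := by
        rw [h2]; ring
    _ < w2 * Real.exp (b2 * τ) := mul_lt_mul_of_pos_right hτ (Real.exp_pos _)

theorem dui {f : ℝ × ℝ → ℝ} {O : Set (ℝ × ℝ)} (hO : IsOpen O) (hf : ContDiffOn ℝ ∞ f O)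
    {a b τ : ℝ} (hab : a ≤ b) (hsub : ∀ t θ, a ≤ θ → θ ≤ b → (t, θ) ∈ O) :
    HasDerivAt (fun t => ∫ θ in a..b, f (t, θ)) (∫ θ in a..b, D1 f (τ, θ)) τ := by
  have hD : ContinuousOn (D1 f) O := (contDiffOn_D1 hO hf).continuousOn
  have hK : IsCompact (Icc (τ - 1) (τ + 1) ×ˢ Icc a b) := isCompact_Icc.prod isCompact_Icc
  have hKO : Icc (τ - 1) (τ + 1) ×ˢ Icc a b ⊆ O := by
    rintro ⟨t, θ⟩ ⟨_, h⟩
    exact hsub t θ h.1 h.2
  obtain ⟨C, hC⟩ := hK.exists_bound_of_continuousOn (hD.mono hKO)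
  have hcf : ∀ t, IntervalIntegrable (fun θ => f (t, θ)) volume a b := by
    intro t
    apply ContinuousOn.intervalIntegrable
    refine hf.continuousOn.comp (by fun_prop) ?_
    intro θ hθ
    rw [uIcc_of_le hab] at hθ
    exact hsub t θ hθ.1 hθ.2
  have hcD : ∀ t, IntervalIntegrable (fun θ => D1 f (t, θ)) volume a b := by
    intro t
    apply ContinuousOn.intervalIntegrable
    refine hD.comp (by fun_prop) ?_
    intro θ hθ
    rw [uIcc_of_le hab] at hθ
    exact hsub t θ hθ.1 hθ.2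
  refine (intervalIntegral.hasDerivAt_integral_of_dominated_loc_of_deriv_le
    (s := Ioo (τ - 1) (τ + 1)) (F := fun t θ => f (t, θ)) (F' := fun t θ => D1 f (t, θ))
    (bound := fun _ => C) (Ioo_mem_nhds (by linarith) (by linarith))
    (Eventually.of_forall fun t => (intervalIntegrable_iff.1 (hcf t)).aestronglyMeasurable)
    (hcf τ) ((intervalIntegrable_iff.1 (hcD τ)).aestronglyMeasurable) ?_
    (continuous_const.intervalIntegrable _ _) ?_).2
  · apply Eventually.of_forall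
    intro θ hθ t ht
    rw [uIoc_of_le hab] at hθ
    exact hC (t, θ) ⟨⟨ht.1.le, ht.2.le⟩, ⟨hθ.1.le, hθ.2⟩⟩
  · apply Eventually.of_forall
    intro θ hθ t ht
    rw [uIoc_of_le hab] at hθ
    exact hasDerivAt_vert (hasF hO hf (hsub t θ hθ.1.le hθ.2))

section symm

variable {κ : ℝ} (S : SData κ)

theorem symm_half (τ θ : ℝ) : S.u (τ, π - θ) = S.u (τ, θ) := by
  have h := S.per τ (-θ)
  rw [S.even] at h
  rw [← h]; congr 2; ring

theorem u_le_one (z : ℝ × ℝ) : S.u z ≤ 1 := by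
  by_cases hz : z ∈ SC
  · exact (S.lt1 z hz).le
  · exact (S.slit z hz).le

theorem antiOn (τ : ℝ) : StrictAntiOn (fun θ => S.u (τ, θ)) (Icc 0 (π / 2)) := by
  have hc := S.cont
  apply strictAntiOn_of_deriv_neg (convex_Icc _ _) (by fun_prop)
  intro θ hθ
  rw [interior_Icc] at hθ
  have hz : ((τ, θ) : ℝ × ℝ) ∈ SC := by
    right
    exact (Real.sin_pos_of_pos_of_lt_pi hθ.1 (by linarith [hθ.2, Real.pi_pos])).ne'
  rw [(hasDerivAt_horiz (hasF isOpen_SC S.smooth hz)).deriv]
  exact S.uneg τ θ hθ.1 hθ.2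

theorem le_zero (τ θ : ℝ) (h0 : 0 ≤ θ) (h1 : θ ≤ π) : S.u (τ, θ) ≤ S.u (τ, 0) := by
  have hpi := Real.pi_pos
  rcases le_total θ (π / 2) with h | h
  · exact (antiOn S τ).antitoneOn ⟨le_rfl, by linarith⟩ ⟨h0, h⟩ h0
  · rw [← symm_half S τ θ]
    exact (antiOn S τ).antitoneOn ⟨le_rfl, by linarith⟩ ⟨by linarith, by linarith⟩ (by linarith)

theorem le_zero' (τ θ : ℝ) (h0 : 0 ≤ θ) (h1 : θ ≤ 2 * π) : S.u (τ, θ) ≤ S.u (τ, 0) := by
  rcases le_total θ π with h | h
  · exact le_zero S τ θ h0 h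
  · have h2 := S.per τ (θ - π)
    rw [sub_add_cancel] at h2
    rw [h2]
    exact le_zero S τ (θ - π) (by linarith) (by linarith)

theorem int_four (τ : ℝ) : ∫ θ in (0 : ℝ)..(2 * π), S.u (τ, θ) =
    4 * ∫ θ in (0 : ℝ)..(π / 2), S.u (τ, θ) := by
  have hc := S.cont
  have hi : ∀ a b : ℝ, IntervalIntegrable (fun θ => S.u (τ, θ)) volume a b := fun a b =>
    (by fun_prop : Continuous fun θ => S.u (τ, θ)).intervalIntegrable a b
  have h1 : ∫ θ in π..(2 * π), S.u (τ, θ) = ∫ θ in (0 : ℝ)..π, S.u (τ, θ) := by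
    have h2 := intervalIntegral.integral_comp_add_right (a := 0) (b := π)
      (fun θ => S.u (τ, θ)) π
    rw [zero_add, ← two_mul] at h2
    rw [← h2]
    simp only [S.per]
  have h3 : ∫ θ in (π / 2)..π, S.u (τ, θ) = ∫ θ in (0 : ℝ)..(π / 2), S.u (τ, θ) := by
    have h4 := intervalIntegral.integral_comp_sub_left (a := 0) (b := π / 2)
      (fun θ => S.u (τ, θ)) π
    rw [sub_zero] at h4
    have h5 : π - π / 2 = π / 2 := by ring
    rw [h5] at h4
    rw [← h4]
    simp only [symm_half]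
  rw [← intervalIntegral.integral_add_adjacent_intervals (hi 0 π) (hi π (2 * π)), h1,
    ← intervalIntegral.integral_add_adjacent_intervals (hi 0 (π / 2)) (hi (π / 2) π), h3]
  ring

end symm

end S12

open CT S12 in
theorem pkS12 : GS12 := by
  intro κ hκ hκ1 S hQ hN hhalf hzero hFE hcont hrefl
  obtain ⟨c, τ₁, hτ₁, ⟨hsum, hc0, hc1, hexp⟩, hcim, hc2⟩ := hFE
  obtain ⟨ha0, ha1, hb0, hab, hmono, hsq, han, hbp⟩ := Pool.Agent.Helper27.PCap.pkExpo κ hκ hκ1
  have hpi := Real.pi_pos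
  have hC0 := S.C0pos
  have heps : 0 < 1 - κ := by linarith
  have hBpos : 0 < BB κ S.C0 := by rw [BB]; positivity
  have hBe : BB κ S.C0 * ((1 - κ) * S.C0) = 1 := by
    rw [BB]; field_simp
  have hScont := S.cont
  have hQo : IsOpen {z : ℝ × ℝ | 0 < z.2 ∧ z.2 < π} :=
    (isOpen_lt continuous_const continuous_snd).inter (isOpen_lt continuous_snd continuous_const)
  have hNo : IsOpen {z : ℝ × ℝ | z.1 < 0} := isOpen_lt continuous_fst continuous_const
  have hQSC : ∀ z : ℝ × ℝ, 0 < z.2 → z.2 < π → z ∈ SC := fun z h1 h2 =>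
    Or.inr (Real.sin_pos_of_pos_of_lt_pi h1 h2).ne'
  have hNSC : ∀ z : ℝ × ℝ, z.1 < 0 → z ∈ SC := fun z h => Or.inl h
  have huF : ∀ z ∈ SC, HasFDerivAt S.u (lf (D1 S.u z) (D2 S.u z)) z := fun z hz =>
    hasF isOpen_SC S.smooth hz
  have hu1 := contDiffOn_D1 isOpen_SC S.smooth
  have hu2 := contDiffOn_D2 isOpen_SC S.smooth
  have hu1F : ∀ z ∈ SC, HasFDerivAt (D1 S.u) (lf (D1 (D1 S.u) z) (D2 (D1 S.u) z)) z :=
    fun z hz => hasF isOpen_SC hu1 hz
  have hu2F : ∀ z ∈ SC, HasFDerivAt (D2 S.u) (lf (D1 (D2 S.u) z) (D2 (D2 S.u) z)) z :=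
    fun z hz => hasF isOpen_SC hu2 hz
  have hbmono : StrictMono (bb κ) := by
    apply strictMono_nat_of_lt_succ
    intro n
    rw [bb, bb]
    have := hmono n
    linarith
  have hb2 : 0 < bb κ 2 := hbp 2 (by norm_num)
  have hb3 : 0 < bb κ 3 := hbp 3 (by norm_num)
  have hb23 : bb κ 2 < bb κ 3 := hbmono (by norm_num)
  have haa0 : ∀ n : ℕ, 0 ≤ aa κ n := by
    intro n; rw [aa]; positivity
  have hn0 : ∀ n : ℕ, (0 : ℝ) ≤ n := fun n => Nat.cast_nonneg n
  have hn1 : ∀ n : ℕ, (1 : ℝ) ≤ (n : ℝ) + 1 := fun n => by have := hn0 n; linarith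
  -- the weights
  set W : ℕ → ℝ := fun n => 2 * BB κ S.C0 * (((n : ℝ) + 1) ^ 3 * ‖c n‖) with hWdef
  have hWsum : Summable (fun n => W n * Real.exp (bb κ n * τ₁)) := by
    have h1 := hsum.mul_left (2 * BB κ S.C0 * Real.exp (-(1 - κ) * τ₁))
    refine h1.congr (fun n => ?_)
    simp only [hWdef]
    rw [exp_bb]; ring
  obtain ⟨K, hK⟩ := tail hbmono hWsum
  have hp3 : ∀ n : ℕ, (n : ℝ) + 1 ≤ ((n : ℝ) + 1) ^ 3 := fun n =>
    le_self_pow₀ (hn1 n) (by norm_num)
  have hW1 : ∀ (n : ℕ) (θ : ℝ), |BB κ S.C0 * aa κ n * (md c n θ).re| ≤ W n := by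
    intro n θ
    rw [abs_mul, abs_of_nonneg (by have := haa0 n; positivity)]
    have h1 := abs_md_re c n θ
    have h2 := han n
    have h3 := hp3 n
    have h4 := haa0 n
    calc BB κ S.C0 * aa κ n * |(md c n θ).re| ≤ BB κ S.C0 * (((n : ℝ) + 1) ^ 3) * ‖c n‖ := by
          gcongr
          linarith
      _ ≤ 2 * (BB κ S.C0 * (((n : ℝ) + 1) ^ 3) * ‖c n‖) := by
          have : 0 ≤ BB κ S.C0 * (((n : ℝ) + 1) ^ 3) * ‖c n‖ := by positivity
          linarith
      _ = W n := by simp only [hWdef]; ring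
  have hW2 : ∀ (n : ℕ) (θ : ℝ), |BB κ S.C0 * (aa κ n / n) * (md c n θ).im| ≤ W n := by
    intro n θ
    have h4 := haa0 n
    rw [abs_mul, abs_of_nonneg (by positivity)]
    have h1 := abs_md_im c n θ
    have h2 := han n
    have h3 := hp3 n
    have h5 : aa κ n / n ≤ 2 * ((n : ℝ) + 1) := by
      rcases Nat.eq_zero_or_pos n with rfl | hn
      · simp
      · have hn' : (1 : ℝ) ≤ n := by exact_mod_cast hn
        rw [div_le_iff₀ (by linarith)]
        nlinarith
    calc BB κ S.C0 * (aa κ n / n) * |(md c n θ).im| ≤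
          BB κ S.C0 * (2 * (((n : ℝ) + 1) ^ 3)) * ‖c n‖ := by
          gcongr
          linarith
      _ = W n := by simp only [hWdef]; ring
  have hmd0 : ∀ n θ, c n = 0 → md c n θ = 0 := fun n θ h => by simp [md, h]
  -- symmetric derivatives
  have hD2half : ∀ τ, D2 S.u (τ, π / 2) = 0 := by
    intro τ
    have hz : ((τ, π / 2) : ℝ × ℝ) ∈ SC := hQSC _ (by positivity) (by show π / 2 < π; linarith)
    have h1 := hasDerivAt_horiz (huF _ hz)
    have h2 : HasDerivAt (fun θ : ℝ => π - θ) (-1) (π / 2) := by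
      simpa using (hasDerivAt_id (π / 2)).const_sub π
    have h3 : HasDerivAt (fun θ => S.u (τ, θ)) (D2 S.u (τ, π / 2)) (π - π / 2) := by
      have : π - π / 2 = π / 2 := by ring
      rw [this]; exact h1
    have h4 := h3.comp (π / 2) h2
    have h5 : (fun θ => S.u (τ, θ)) ∘ (fun θ : ℝ => π - θ) = fun θ => S.u (τ, θ) := by
      funext θ; exact symm_half S τ θ
    rw [h5] at h4
    have h6 := h4.unique h1
    linarith
  have hD2zero : ∀ τ, τ < 0 → D2 S.u (τ, 0) = 0 := by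
    intro τ hτ
    have h1 := hasDerivAt_horiz (huF (τ, 0) (hNSC _ hτ))
    have h2 : HasDerivAt (fun θ : ℝ => -θ) (-1) 0 := hasDerivAt_neg' 0
    have h3 : HasDerivAt (fun θ => S.u (τ, θ)) (D2 S.u (τ, 0)) (-0) := by
      rw [neg_zero]; exact h1
    have h4 := h3.comp 0 h2
    have h5 : (fun θ => S.u (τ, θ)) ∘ (fun θ : ℝ => -θ) = fun θ => S.u (τ, θ) := by
      funext θ; exact S.even τ θ
    rw [h5] at h4
    have h6 := h4.unique h1
    linarith
  have hDD0 : ∀ τ, τ < 0 → D2 (D2 S.u) (τ, 0) ≤ 0 := by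
    intro τ hτ
    have h1 := hasDerivAt_horiz (hu2F (τ, 0) (hNSC _ hτ))
    apply deriv_nonpos_right (b := π / 2) (by positivity) h1
    intro θ h2 h3
    rw [hD2zero τ hτ]
    exact (S.uneg τ θ h2 h3).le
  have hDDh : ∀ τ, 0 ≤ D2 (D2 S.u) (τ, π / 2) := by
    intro τ
    have hz : ((τ, π / 2) : ℝ × ℝ) ∈ SC := hQSC _ (by positivity) (by show π / 2 < π; linarith)
    have h1 := hasDerivAt_horiz (hu2F _ hz)
    apply deriv_nonneg_left (b := 0) (by positivity) h1
    intro θ h2 h3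
    rw [hD2half τ]
    exact (S.uneg τ θ h2 h3).le
  -- the function F
  set F : ℝ → ℝ → ℝ := fun θ τ =>
    BB κ S.C0 * Real.exp (-(1 - κ) * τ) * D1 S.u (τ, θ) - 1 with hF
  have hFder : ∀ τ θ, ((τ, θ) : ℝ × ℝ) ∈ SC → HasDerivAt (F θ)
      (-(κ * BB κ S.C0 * Real.exp (-(1 - κ) * τ) * D2 (D2 S.u) (τ, θ))) τ := by
    intro τ θ hz
    have h1 := hasDerivAt_vert (hu1F _ hz)
    have h0 : HasDerivAt (fun t : ℝ => Real.exp (-(1 - κ) * t))
        (-(1 - κ) * Real.exp (-(1 - κ) * τ)) τ := by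
      have := ((hasDerivAt_id τ).const_mul (-(1 - κ))).exp
      refine this.congr_deriv ?_
      simp; ring
    have h2 := ((h0.const_mul (BB κ S.C0)).mul h1).sub_const 1
    have h3 := S.eq _ hz
    rw [LL] at h3
    refine h2.congr_deriv ?_
    linear_combination (BB κ S.C0 * Real.exp (-(1 - κ) * τ)) * h3
  have hFsum : ∀ τ θ, τ ≤ τ₁ → HasSum
      (fun n : ℕ => (BB κ S.C0 * aa κ n * (md c n θ).re) * Real.exp (bb κ n * τ)) (F θ τ) := by
    intro τ θ hτ
    have h3 := (hexp τ θ hτ).2.1.mul_left (BB κ S.C0 * Real.exp (-(1 - κ) * τ))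
    have h4 : (fun n : ℕ => (BB κ S.C0 * aa κ n * (md c n θ).re) * Real.exp (bb κ n * τ)) =
        fun n : ℕ => (BB κ S.C0 * Real.exp (-(1 - κ) * τ)) *
          (aa κ n * (md c n θ).re * Real.exp (aa κ n * τ)) := by
      funext n
      rw [exp_bb]; ring
    have h6 : Real.exp (-(1 - κ) * τ) * Real.exp ((1 - κ) * τ) = 1 := by
      rw [← Real.exp_add, neg_mul, neg_add_cancel, Real.exp_zero]
    have h5 : F θ τ = (BB κ S.C0 * Real.exp (-(1 - κ) * τ)) *
        (D1 S.u (τ, θ) - (1 - κ) * S.C0 * Real.exp ((1 - κ) * τ)) := by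
      simp only [hF]
      linear_combination (BB κ S.C0 * ((1 - κ) * S.C0)) * h6 + hBe
    rw [h4, h5]
    exact h3
  have hFt : ∀ τ θ, τ ≤ τ₁ → |F θ τ - (BB κ S.C0 * aa κ 2 * (md c 2 θ).re) *
      Real.exp (bb κ 2 * τ)| ≤ K * Real.exp (bb κ 3 * (τ - τ₁)) := by
    intro τ θ hτ
    exact hK (fun n => BB κ S.C0 * aa κ n * (md c n θ).re) τ (F θ τ)
      (by simp [hmd0 0 θ hc0]) (by simp [hmd0 1 θ hc1]) (fun n => hW1 n θ) hτ (hFsum τ θ hτ)
  have haa2 : 0 < aa κ 2 := by
    have h1 : bb κ 2 = aa κ 2 - (1 - κ) := rfl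
    linarith
  -- (3)
  have claim3 : ∀ τ, τ < 0 → 0 < F 0 τ := by
    intro τ hτ
    have hw : 0 < BB κ S.C0 * aa κ 2 * (md c 2 0).re := by
      have : (md c 2 0).re = (c 2).re := by rw [md_re]; simp
      rw [this]; positivity
    obtain ⟨t, ht1, ht2, ht3⟩ := ((lead (τ₁ := τ₁) (K := K) hb23 hw).and
      ((eventually_le_atBot τ₁).and (eventually_le_atBot τ))).exists
    have h1 := abs_le.1 (hFt t 0 ht2)
    have h2 : 0 < F 0 t := by linarith [h1.1]
    have h3 := mono_of (F := F 0) (s := Iio 0) (convex_Iio 0)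
      (fun x hx => hFder x 0 (hNSC _ hx)) (fun x hx => by
        have h4 := hDD0 x hx
        have h5 : 0 ≤ κ * BB κ S.C0 * Real.exp (-(1 - κ) * x) := by positivity
        nlinarith)
    exact lt_of_lt_of_le h2 (h3 (lt_of_le_of_lt ht3 hτ) hτ ht3)
  -- (4)
  have hhalfSC : ∀ τ : ℝ, ((τ, π / 2) : ℝ × ℝ) ∈ SC := fun τ =>
    hQSC _ (by positivity) (by show π / 2 < π; linarith)
  have claim4 : ∀ τ, F (π / 2) τ < 0 := by
    intro τ
    have hw : 0 < -(BB κ S.C0 * aa κ 2 * (md c 2 (π / 2)).re) := by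
      have h1 : (md c 2 (π / 2)).re = -(c 2).re := by
        rw [md_re, hcim]
        have : ((2 : ℕ) : ℝ) * (π / 2) = π := by push_cast; ring
        rw [this, Real.cos_pi]; ring
      rw [h1]
      have : 0 < BB κ S.C0 * aa κ 2 * (c 2).re := by positivity
      linarith
    obtain ⟨t, ht1, ht2, ht3⟩ := ((lead (τ₁ := τ₁) (K := K) hb23 hw).and
      ((eventually_le_atBot τ₁).and (eventually_le_atBot τ))).exists
    have h1 := abs_le.1 (hFt t (π / 2) ht2)
    have h2 : F (π / 2) t < 0 := by linarith [h1.2]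
    have h3 := mono_of (F := fun x => -F (π / 2) x) (s := univ) convex_univ
      (fun x _ => (hFder x (π / 2) (hhalfSC x)).neg) (fun x _ => by
        have h4 := hDDh x
        rw [neg_neg]
        positivity)
    have h4 := h3 (mem_univ t) (mem_univ τ) ht3
    have h5 : -F (π / 2) t ≤ -F (π / 2) τ := h4
    linarith
  -- (1)
  have hD1om : ∀ z : ℝ × ℝ, 0 < z.2 → z.2 < π / 2 → 0 < D1 (omS S) z := by
    intro z h1 h2
    rw [hQ.2.2.2 z ⟨h1, by linarith⟩]
    have h3 := S.uneg z.1 z.2 h1 h2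
    have h4 : 0 < κ * BB κ S.C0 * Real.exp (-(1 - κ) * z.1) := by positivity
    have h5 : D2 S.u z < 0 := h3
    nlinarith
  have claim1 : ∀ τ θ, 0 < θ → θ < π / 2 → 0 < omS S (τ, θ) := by
    intro τ θ h1 h2
    have hm : StrictMono (fun t => omS S (t, θ)) :=
      strictMono_of (fun t => hasDerivAt_vert (hasF hQo hQ.2.1 ⟨h1, by show θ < π; linarith⟩))
        (fun t => hD1om (t, θ) h1 h2)
    have hlim : Tendsto (fun t => omS S (t, θ)) atBot (𝓝 0) := by
      have h3 := (tendsto_exp_atBot hb2 (|BB κ S.C0 * (aa κ 2 / 2) * (md c 2 θ).im|)).add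
        (tendsto_exp_atBot hb3 (K * Real.exp (-(bb κ 3 * τ₁))))
      rw [add_zero] at h3
      apply squeeze_zero_norm' _ h3
      filter_upwards [eventually_le_atBot τ₁] with t ht
      have h4 := hK (fun n => BB κ S.C0 * (aa κ n / n) * (md c n θ).im) t (omS S (t, θ))
        (by simp [hmd0 0 θ hc0]) (by simp [hmd0 1 θ hc1]) (fun n => hW2 n θ) ht
        (hexp t θ ht).2.2.2
      have h5 : Real.exp (bb κ 3 * (t - τ₁)) =
          Real.exp (-(bb κ 3 * τ₁)) * Real.exp (bb κ 3 * t) := by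
        rw [← Real.exp_add]; congr 1; ring
      rw [h5] at h4
      rw [Real.norm_eq_abs]
      have h6 := abs_add_le (omS S (t, θ) - BB κ S.C0 * (aa κ 2 / (2 : ℕ)) * (md c 2 θ).im *
        Real.exp (bb κ 2 * t)) (BB κ S.C0 * (aa κ 2 / (2 : ℕ)) * (md c 2 θ).im *
        Real.exp (bb κ 2 * t))
      rw [sub_add_cancel, abs_mul (BB κ S.C0 * (aa κ 2 / (2 : ℕ)) * (md c 2 θ).im),
        abs_of_pos (Real.exp_pos _)] at h6
      have h7 : ((2 : ℕ) : ℝ) = 2 := by norm_num
      rw [h7] at h6 h4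
      linarith
    have h3 : 0 ≤ omS S (τ - 1, θ) := by
      apply le_of_tendsto hlim
      filter_upwards [eventually_le_atBot (τ - 1)] with t ht
      exact hm.monotone ht
    exact lt_of_le_of_lt h3 (hm (by linarith : τ - 1 < τ))
  -- (2)
  have hge : ∀ τ, 0 < τ → 0 ≤ omS S (τ, 0) := by
    intro τ hτ
    have h1 : ContinuousWithinAt (omS S) {z | 0 ≤ z.2 ∧ z.2 ≤ π / 2 ∧ z ≠ (0, 0)} (τ, 0) :=
      hcont (τ, 0) ⟨le_rfl, by positivity, by
        intro h; have := congrArg Prod.fst h; exact hτ.ne' this⟩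
    have h2 : Tendsto (fun θ : ℝ => ((τ, θ) : ℝ × ℝ)) (𝓝[>] 0)
        (𝓝[{z | 0 ≤ z.2 ∧ z.2 ≤ π / 2 ∧ z ≠ (0, 0)}] (τ, 0)) := by
      apply tendsto_nhdsWithin_iff.2
      refine ⟨?_, ?_⟩
      · have h3 : Continuous (fun θ : ℝ => ((τ, θ) : ℝ × ℝ)) := by fun_prop
        exact (h3.tendsto 0).mono_left nhdsWithin_le_nhds
      · filter_upwards [Ioo_mem_nhdsGT (show (0 : ℝ) < π / 2 by positivity)] with θ hθ
        refine ⟨hθ.1.le, hθ.2.le, ?_⟩
        intro h; have := congrArg Prod.fst h; exact hτ.ne' this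
    have h3 := h1.tendsto.comp h2
    refine ge_of_tendsto h3 ?_
    filter_upwards [Ioo_mem_nhdsGT (show (0 : ℝ) < π / 2 by positivity)] with θ hθ
    exact (claim1 τ θ hθ.1 hθ.2).le
  have claim2 : ∀ τ, 0 < τ → 0 < omS S (τ, 0) := by
    intro τ hτ
    by_contra hcon
    have h0 : omS S (τ, 0) = 0 := le_antisymm (not_lt.1 hcon) (hge τ hτ)
    obtain ⟨N, ut, omt, hNop, hmem, hsys, heq, hneg⟩ := hrefl τ hτ
    have h1 : HasDerivAt (fun t => omt (t, 0)) (D1 omt (τ, 0)) τ :=
      hasDerivAt_vert (hasF hNop hsys.2.1 hmem)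
    have h2 : 0 < D1 omt (τ, 0) := by
      rw [hsys.2.2.2 _ hmem]
      have h4 : 0 < κ * BB κ S.C0 * Real.exp (-(1 - κ) * τ) := by positivity
      show 0 < -(κ * BB κ S.C0 * Real.exp (-(1 - κ) * τ) * D2 ut (τ, 0))
      nlinarith
    -- neighbourhood
    have h3 : ∀ᶠ t in 𝓝 τ, ((t, 0) : ℝ × ℝ) ∈ N := by
      have h4 : Continuous (fun t : ℝ => ((t, 0) : ℝ × ℝ)) := by fun_prop
      exact h4.continuousAt.eventually (hNop.mem_nhds hmem)
    have h4 : ∀ᶠ t in 𝓝 τ, 0 < t := lt_mem_nhds hτ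
    obtain ⟨a, b, hab', hIoo⟩ := mem_nhds_iff_exists_Ioo_subset.1 (h3.and h4)
    have h5 : D1 omt (τ, 0) ≤ 0 := by
      -- use -omt(t), increasing towards the left
      have h6 : HasDerivAt (fun t => -omt (t, 0)) (-D1 omt (τ, 0)) τ := h1.neg
      have h7 := deriv_nonneg_left (g := fun t => -omt (t, 0)) (b := a) hab'.1 h6 (by
        intro x hx1 hx2
        have hx : x ∈ Ioo a b := ⟨hx1, hx2.trans hab'.2⟩
        obtain ⟨hxN, hx0⟩ := hIoo hx
        have e1 := (heq (x, 0) hxN le_rfl).2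
        have e2 := (heq (τ, 0) hmem le_rfl).2
        have e3 := hge x hx0
        show -omt (x, 0) ≤ -omt (τ, 0)
        rw [e1, e2, h0]
        linarith)
      linarith
    linarith
  -- (5)
  have claim5 : ∀ τ, S.u (τ, π / 2) < S.C0 * Real.exp ((1 - κ) * τ) := by
    intro τ
    have hd : ∀ t, HasDerivAt (fun t => S.C0 * Real.exp ((1 - κ) * t) - S.u (t, π / 2))
        (S.C0 * ((1 - κ) * Real.exp ((1 - κ) * t)) - D1 S.u (t, π / 2)) t := by
      intro t
      have h0 : HasDerivAt (fun t : ℝ => Real.exp ((1 - κ) * t))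
          ((1 - κ) * Real.exp ((1 - κ) * t)) t := by
        have := ((hasDerivAt_id t).const_mul (1 - κ)).exp
        refine this.congr_deriv ?_
        simp; ring
      exact (h0.const_mul S.C0).sub (hasDerivAt_vert (huF _ (hhalfSC t)))
    have hm : StrictMono (fun t => S.C0 * Real.exp ((1 - κ) * t) - S.u (t, π / 2)) := by
      apply strictMono_of hd
      intro t
      have h1 := claim4 t
      simp only [hF] at h1
      have h6 : Real.exp (-(1 - κ) * t) * Real.exp ((1 - κ) * t) = 1 := by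
        rw [← Real.exp_add, neg_mul, neg_add_cancel, Real.exp_zero]
      have h7 : 0 < BB κ S.C0 * Real.exp (-(1 - κ) * t) := by positivity
      have h8 : 0 < (BB κ S.C0 * Real.exp (-(1 - κ) * t)) *
          (S.C0 * ((1 - κ) * Real.exp ((1 - κ) * t)) - D1 S.u (t, π / 2)) := by
        have h9 : (BB κ S.C0 * Real.exp (-(1 - κ) * t)) *
          (S.C0 * ((1 - κ) * Real.exp ((1 - κ) * t)) - D1 S.u (t, π / 2)) =
          1 - BB κ S.C0 * Real.exp (-(1 - κ) * t) * D1 S.u (t, π / 2) := by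
          linear_combination (BB κ S.C0 * ((1 - κ) * S.C0)) * h6 + hBe
        rw [h9]; linarith
      exact (pos_iff_pos_of_mul_pos h8).1 h7
    have hlim : Tendsto (fun t => S.C0 * Real.exp ((1 - κ) * t) - S.u (t, π / 2)) atBot (𝓝 0) := by
      have h3 := (tendsto_exp_atBot heps S.C0)
      have h4 : Tendsto (fun t => S.u (t, π / 2)) atBot (𝓝 0) := by
        have h5 := tendsto_exp_atBot heps 1
        apply squeeze_zero (fun t => (S.pos _).le) (fun t => ?_) h5
        rw [one_mul]; exact S.upper (t, π / 2)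
      have h6 := h3.sub h4
      rwa [sub_zero] at h6
    have h3 : 0 ≤ S.C0 * Real.exp ((1 - κ) * (τ - 1)) - S.u (τ - 1, π / 2) := by
      apply le_of_tendsto hlim
      filter_upwards [eventually_le_atBot (τ - 1)] with t ht
      exact hm.monotone ht
    have h4 := hm (by linarith : τ - 1 < τ)
    have h5 : S.C0 * Real.exp ((1 - κ) * (τ - 1)) - S.u (τ - 1, π / 2) <
      S.C0 * Real.exp ((1 - κ) * τ) - S.u (τ, π / 2) := h4
    linarith
  -- (6)
  have claim6 : ∀ τ, τ ≤ 0 → S.C0 * Real.exp ((1 - κ) * τ) < S.u (τ, 0) := by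
    intro τ hτ
    have h1 := S.mean τ hτ
    have h2 : ∫ θ in (0 : ℝ)..(2 * π), S.u (τ, θ) < ∫ θ in (0 : ℝ)..(2 * π), S.u (τ, 0) := by
      apply intervalIntegral.integral_lt_integral_of_continuousOn_of_le_of_exists_lt
        (by positivity) (by fun_prop) (by fun_prop)
      · intro θ hθ
        exact le_zero' S τ θ hθ.1.le hθ.2
      · refine ⟨π / 2, ⟨by positivity, by linarith⟩, ?_⟩
        exact antiOn S τ ⟨le_rfl, by positivity⟩ ⟨by positivity, le_rfl⟩ (by positivity)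
    rw [h1, intervalIntegral.integral_const, smul_eq_mul, sub_zero] at h2
    have h3 : 2 * π * (S.C0 * Real.exp ((1 - κ) * τ)) < 2 * π * S.u (τ, 0) := by linarith
    exact lt_of_mul_lt_mul_left h3 (by positivity)
  -- (7)
  have claim7 : ∀ τ, ∫ θ in (0 : ℝ)..(2 * π), S.u (τ, θ) ≤
      2 * π * S.C0 * Real.exp ((1 - κ) * τ) := by
    intro τ
    rcases le_or_gt τ 0 with hτ | hτ
    · exact (S.mean τ hτ).le
    · rw [int_four]
      have hi : ∀ t a b : ℝ, IntervalIntegrable (fun θ => S.u (t, θ)) volume a b := fun t a b =>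
        (by fun_prop : Continuous fun θ => S.u (t, θ)).intervalIntegrable a b
      have hm0 : ∫ θ in (0 : ℝ)..(π / 2), S.u (0, θ) = π / 2 * S.C0 := by
        have h1 := S.mean 0 le_rfl
        rw [int_four, mul_zero, Real.exp_zero] at h1
        linarith
      have hδ : ∀ δ, 0 < δ → δ < π / 2 → ∫ θ in (0 : ℝ)..(π / 2), S.u (τ, θ) ≤
          π / 2 * S.C0 * Real.exp ((1 - κ) * τ) + δ := by
        intro δ h1 h2
        have hd : ∀ t, HasDerivAt (fun t => (π / 2 - δ) * (S.C0 * Real.exp ((1 - κ) * t)) -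
            ∫ θ in δ..(π / 2), S.u (t, θ))
            ((1 - κ) * S.C0 * Real.exp ((1 - κ) * t) * omS S (t, δ)) t := by
          intro t
          have h0 : HasDerivAt (fun t : ℝ => Real.exp ((1 - κ) * t))
              ((1 - κ) * Real.exp ((1 - κ) * t)) t := by
            have := ((hasDerivAt_id t).const_mul (1 - κ)).exp
            refine this.congr_deriv ?_
            simp; ring
          have h3 := dui (τ := t) isOpen_SC S.smooth h2.le
            (fun t θ h4 h5 => hQSC (t, θ) (by show 0 < θ; linarith) (by show θ < π; linarith))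
          have h4 := ((h0.const_mul S.C0).const_mul (π / 2 - δ)).sub h3
          refine h4.congr_deriv ?_
          have hcD : IntervalIntegrable (fun θ => D1 S.u (t, θ)) volume δ (π / 2) := by
            apply ContinuousOn.intervalIntegrable
            refine hu1.continuousOn.comp (by fun_prop) ?_
            intro θ hθ
            rw [uIcc_of_le h2.le] at hθ
            exact hQSC (t, θ) (by show 0 < θ; linarith [hθ.1]) (by show θ < π; linarith [hθ.2])
          have h5 : omS S (t, δ) = (π / 2 - δ) - BB κ S.C0 * Real.exp (-(1 - κ) * t) *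
              ∫ θ in δ..(π / 2), D1 S.u (t, θ) := by
            rw [omS]
            show ∫ s in δ..(π / 2), (1 - BB κ S.C0 * Real.exp (-(1 - κ) * t) * D1 S.u (t, s)) = _
            rw [intervalIntegral.integral_sub (continuous_const.intervalIntegrable _ _)
              (hcD.const_mul _), intervalIntegral.integral_const_mul,
              intervalIntegral.integral_const]
            simp
          have h6 : Real.exp (-(1 - κ) * t) * Real.exp ((1 - κ) * t) = 1 := by
            rw [← Real.exp_add, neg_mul, neg_add_cancel, Real.exp_zero]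
          rw [h5]
          linear_combination (BB κ S.C0 * ((1 - κ) * S.C0) *
            (∫ θ in δ..(π / 2), D1 S.u (t, θ))) * h6 +
            (∫ θ in δ..(π / 2), D1 S.u (t, θ)) * hBe
        have hm := strictMono_of hd (fun t => by
          have := claim1 t δ h1 h2
          positivity)
        have h3 : (π / 2 - δ) * (S.C0 * Real.exp ((1 - κ) * 0)) -
            ∫ θ in δ..(π / 2), S.u (0, θ) <
            (π / 2 - δ) * (S.C0 * Real.exp ((1 - κ) * τ)) -
            ∫ θ in δ..(π / 2), S.u (τ, θ) := hm hτ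
        rw [mul_zero, Real.exp_zero, mul_one] at h3
        have h4 := intervalIntegral.integral_add_adjacent_intervals (hi τ 0 δ) (hi τ δ (π / 2))
        have h5 := intervalIntegral.integral_add_adjacent_intervals (hi 0 0 δ) (hi 0 δ (π / 2))
        have h6 : 0 ≤ ∫ θ in (0 : ℝ)..δ, S.u (0, θ) :=
          intervalIntegral.integral_nonneg h1.le (fun θ _ => (S.pos _).le)
        have h7 : ∫ θ in (0 : ℝ)..δ, S.u (τ, θ) ≤ ∫ θ in (0 : ℝ)..δ, (1 : ℝ) :=
          intervalIntegral.integral_mono_on h1.le (hi τ 0 δ)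
            (continuous_const.intervalIntegrable _ _) (fun θ _ => u_le_one S _)
        rw [intervalIntegral.integral_const, smul_eq_mul, mul_one, sub_zero] at h7
        rw [hm0] at h5
        have h8 : 1 ≤ Real.exp ((1 - κ) * τ) := Real.one_le_exp (by positivity)
        have h9 : 0 ≤ δ * (S.C0 * (Real.exp ((1 - κ) * τ) - 1)) := by
          apply mul_nonneg h1.le
          apply mul_nonneg hC0.le
          linarith
        nlinarith
      have h1 : ∫ θ in (0 : ℝ)..(π / 2), S.u (τ, θ) ≤ π / 2 * S.C0 * Real.exp ((1 - κ) * τ) := by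
        by_contra hcon
        push Not at hcon
        set gap := (∫ θ in (0 : ℝ)..(π / 2), S.u (τ, θ)) -
          π / 2 * S.C0 * Real.exp ((1 - κ) * τ) with hgap
        have hg : 0 < gap := by rw [hgap]; linarith
        have h2 := hδ (min (gap / 2) (π / 4)) (lt_min (by linarith) (by positivity))
          (lt_of_le_of_lt (min_le_right _ _) (by linarith))
        have h3 := min_le_left (gap / 2) (π / 4)
        linarith
      linarith
  refine ⟨claim1, claim2, ?_, ?_, claim5, claim6, claim7⟩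
  · intro τ hτ
    rw [hN.2.2.1 (τ, 0) hτ]
    exact claim3 τ hτ
  · intro τ
    rw [hQ.2.2.1 (τ, π / 2) ⟨by show 0 < π / 2; positivity, by show π / 2 < π; linarith⟩]
    exact claim4 τ

end Pool.Agent.Helper25.PCap
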