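import Pool.Agent.Helper25.PCap.Defs

/-!
Planar p-capacity (MP_576c25_an): Part T, existence of configurations near a smooth
strictly convex body (penalized obstacle problem in the hodograph plane).
-/

set_option autoImplicit false

open MeasureTheory Set Filter Topology
open scoped ContDiff Real

noncomputable section

namespace Pool.Agent.Helper25.PCap

/-- curvature radius `ρ = H + H''` -/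
def rho (H : ℝ → ℝ) (θ : ℝ) : ℝ := H θ + deriv (deriv H) θ

/-- properties of the concave cut-off `G` -/
def GCut (G : ℝ → ℝ) : Prop :=
  ContDiff ℝ ∞ G ∧ G 0 = 0 ∧ (∀ x, 1 ≤ x → G x = 1) ∧ (∀ x, 0 ≤ deriv G x) ∧ Antitone (deriv G) ∧
  ∃ K : ℝ, ∀ x, deriv G x ≤ K

/-- PACKET T0. The cut-off exists. -/
def GT0 : Prop := ∃ G : ℝ → ℝ, GCut G

/-- smooth periodic support function with curvature radius in `[ρ₀, ρ₁]` -/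
def SuppFn (H : ℝ → ℝ) (ρ₀ ρ₁ : ℝ) : Prop :=
  ContDiff ℝ ∞ H ∧ (∀ θ, H (θ + 2 * π) = H θ) ∧ 0 < ρ₀ ∧ ∀ θ, ρ₀ ≤ rho H θ ∧ rho H θ ≤ ρ₁

/-- the properties of the penalized solution -/
def ZProp (κ : ℝ) (H G : ℝ → ℝ) (ρ₁ η : ℝ) (Z : ℝ × ℝ → ℝ) : Prop :=
  ContDiff ℝ 2 Z ∧ (∀ x, 0 ≤ Z x ∧ Z x ≤ 1) ∧ (∀ τ θ, Z (τ, θ + 2 * π) = Z (τ, θ)) ∧
  (∀ z, LL κ Z z = κ * Real.exp z.1 * rho H z.2 * G (Z z / (η * Real.exp z.1))) ∧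
  (∀ τ τ' θ, τ ≤ τ' → Z (τ', θ) ≤ Z (τ, θ)) ∧
  (∀ θ, ConvexOn ℝ (Ioi (0 : ℝ)) (fun t => Z (Real.log t, θ))) ∧
  (∀ z, 1 - max 1 (4 * κ * ρ₁ / (1 - κ) ^ 2) * Real.exp ((1 - κ) / 2 * z.1) ≤ Z z)

/-- the right hand side of the iteration -/
def fT (κ : ℝ) (H G : ℝ → ℝ) (η q : ℝ) (x : ℝ × ℝ) (z : ℝ) : ℝ :=
  q * z - κ * Real.exp x.1 * rho H x.2 * G (z / (η * Real.exp x.1))

/-- PACKET T1a. `fT` satisfies the hypotheses of the existence theorem, and is antitone in `τ`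
and jointly convex in the perspective variable. -/
def GT1a : Prop := ∀ (κ ρ₀ ρ₁ η : ℝ) (H G : ℝ → ℝ), 0 < κ → κ < 1 → SuppFn H ρ₀ ρ₁ → GCut G →
  0 < η → ∃ q K : ℝ, 0 < q ∧
  ContDiff ℝ 1 (fun p : (ℝ × ℝ) × ℝ => fT κ H G η q p.1 p.2) ∧
  (∀ x z, 0 ≤ z → z ≤ 1 →
    ‖fderiv ℝ (fun p : (ℝ × ℝ) × ℝ => fT κ H G η q p.1 p.2) (x, z)‖ ≤ K) ∧
  (∀ x z z', 0 ≤ z → z ≤ z' → z' ≤ 1 → fT κ H G η q x z ≤ fT κ H G η q x z') ∧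
  (∀ x, 0 ≤ fT κ H G η q x 0) ∧ (∀ x, fT κ H G η q x 1 ≤ q) ∧
  (∀ τ τ' θ z, 0 ≤ z → τ ≤ τ' → fT κ H G η q (τ', θ) z ≤ fT κ H G η q (τ, θ) z) ∧
  (∀ (x : ℝ × ℝ) (t t' z z' a b : ℝ), 0 < t → 0 < t' → 0 ≤ z → 0 ≤ z' → 0 ≤ a → 0 ≤ b →
    a + b = 1 →
    fT κ H G η q (x.1 + Real.log (a * t + b * t'), x.2) (a * z + b * z') ≤
      a * fT κ H G η q (x.1 + Real.log t, x.2) z + b * fT κ H G η q (x.1 + Real.log t', x.2) z') ∧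
  (∀ x z, 0 ≤ z → z ≤ 1 → q * z - κ * Real.exp x.1 * ρ₁ ≤ fT κ H G η q x z) ∧
  (∀ τ θ z, fT κ H G η q (τ, θ + 2 * π) z = fT κ H G η q (τ, θ) z)

/-- PACKET T1. Existence of the penalized solution. -/
def GT1 : Prop := ∀ (κ ρ₀ ρ₁ η : ℝ) (H G : ℝ → ℝ), 0 < κ → κ < 1 → SuppFn H ρ₀ ρ₁ → GCut G →
  0 < η → ∃ Z : ℝ × ℝ → ℝ, ZProp κ H G ρ₁ η Z

/-- PACKET T2. Nondegeneracy. -/
def GT2 : Prop := ∀ (κ ρ₀ : ℝ), 0 < κ → κ < 1 → 0 < ρ₀ → ∃ K : ℝ, 0 < K ∧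
  ∀ (ρ₁ η : ℝ) (H G : ℝ → ℝ) (Z : ℝ × ℝ → ℝ), SuppFn H ρ₀ ρ₁ → GCut G → 0 < η → η ≤ ρ₀ / 2 →
  ZProp κ H G ρ₁ η Z → ∀ z : ℝ × ℝ, η * Real.exp z.1 ≤ Z z → Real.exp z.1 ≤ K

/-- PACKET T3. `Z − Z_τ` is small where `Z ≤ η e^τ`. -/
def GT3 : Prop := ∀ (κ ρ₀ ρ₁ : ℝ), 0 < κ → κ < 1 → ∀ e : ℝ, 0 < e → ∃ η₀ : ℝ, 0 < η₀ ∧
  ∀ (η : ℝ) (H G : ℝ → ℝ) (Z : ℝ × ℝ → ℝ), SuppFn H ρ₀ ρ₁ → GCut G → 0 < η → η ≤ η₀ →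
  ZProp κ H G ρ₁ η Z → ∀ z : ℝ × ℝ, Z z ≤ η * Real.exp z.1 → Z z - D1 Z z < e

/-- PACKET LEV. A level set of a solution gives a configuration. -/
def GLevel : Prop := ∀ (κ : ℝ) (W : ℝ × ℝ → ℝ) (T : ℝ → ℝ) (V : Set (ℝ × ℝ)) (s : ℝ),
  0 < κ → κ < 1 → 0 < s → s ≤ 1 → IsOpen V → ContDiffOn ℝ ∞ W V → (∀ z ∈ V, LL κ W z = 0) →
  (∀ τ θ, W (τ, θ + 2 * π) = W (τ, θ)) → Continuous T → (∀ θ, T (θ + 2 * π) = T θ) →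
  (∀ z : ℝ × ℝ, z.1 ≤ T z.2 → z ∈ V) →
  (∃ A γ : ℝ, 0 < γ ∧ ∀ z : ℝ × ℝ, z.1 ≤ T z.2 → |W z + 1| ≤ A * Real.exp (γ * z.1)) →
  (∀ θ, 1 + W (T θ, θ) - D1 W (T θ, θ) = s) →
  (∀ z : ℝ × ℝ, z.1 ≤ T z.2 → 0 < D1 W z - D1 (D1 W) z) →
  ∃ C : Config κ, (∀ θ, C.H θ = Real.exp (-T θ) * D1 W (T θ, θ)) ∧
    ∀ C' : ℝ, (∃ τ : ℝ, (∀ θ, τ ≤ T θ) ∧
      ∫ θ in (0 : ℝ)..(2 * π), W (τ, θ) = 2 * π * (-1 + C' / κ * Real.exp ((1 - κ) * τ))) →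
      C.C0 = C' * s ^ (-κ)

/-- PACKET SHF. Scaling, rotation and translation of configurations. -/
def GShift : Prop := ∀ κ : ℝ, 0 < κ → κ < 1 → ∀ C : Config κ,
  (∀ h : ℝ, ∃ C' : Config κ, C'.C0 = C.C0 * Real.exp ((1 - κ) * h) ∧
    ∀ θ, C'.H θ = Real.exp h * C.H θ) ∧
  (∀ φ : ℝ, ∃ C' : Config κ, C'.C0 = C.C0 ∧ ∀ θ, C'.H θ = C.H (θ - φ)) ∧
  (∀ a : ℝ × ℝ, ∃ C' : Config κ, C'.C0 = C.C0 ∧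
    ∀ θ, C'.H θ = C.H θ + (a.1 * Real.cos θ + a.2 * Real.sin θ))

/-- PART T. Configurations near a smooth strictly convex body. -/
def TPart : Prop := ∀ κ : ℝ, 0 < κ → κ < 1 → ∀ H : ℝ → ℝ, ContDiff ℝ ∞ H →
  (∀ θ, H (θ + 2 * π) = H θ) → (∀ θ, 0 < rho H θ) → ∀ e : ℝ, 0 < e →
  ∃ C : Config κ, ∀ θ, H θ ≤ C.H θ ∧ C.H θ ≤ H θ + e

end Pool.Agent.Helper25.PCap
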