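import Pool.Agent.Helper25.PCap.GoalsS
import Pool.Agent.Helper25.PCap.GoalsT

/-! PACKET S15: level sets of the slit function are configurations. -/

set_option autoImplicit false

open MeasureTheory Set Filter Topology
open scoped ContDiff Real

noncomputable section

namespace Pool.Agent.Helper25.PCap

namespace PkS15

theorem isOpen_SC : IsOpen SC := by
  have h1 : IsOpen {z : ℝ × ℝ | z.1 < 0} := isOpen_lt continuous_fst continuous_const
  have h2 : IsOpen {z : ℝ × ℝ | Real.sin z.2 ≠ 0} :=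
    isOpen_ne_fun (Real.continuous_sin.comp continuous_snd) continuous_const
  exact h1.union h2

theorem hasDerivAt_D1 {f : ℝ × ℝ → ℝ} {τ θ : ℝ} (hf : DifferentiableAt ℝ f (τ, θ)) :
    HasDerivAt (fun t => f (t, θ)) (D1 f (τ, θ)) τ := by
  have h1 : HasDerivAt (fun t : ℝ => (t, θ)) ((1 : ℝ), (0 : ℝ)) τ :=
    (hasDerivAt_id τ).prodMk (hasDerivAt_const τ θ)
  exact hf.hasFDerivAt.comp_hasDerivAt τ h1

variable {κ : ℝ}

theorem diff_u (S : SData κ) {z : ℝ × ℝ} (hz : z ∈ SC) : DifferentiableAt ℝ S.u z :=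
  (S.smooth.contDiffAt (isOpen_SC.mem_nhds hz)).differentiableAt (by simp)

/-- strict monotonicity in `τ` from a point of `SC` -/
theorem u_lt (S : SData κ) {τ τ' θ : ℝ} (h : (τ, θ) ∈ SC) (hlt : τ < τ') :
    S.u (τ, θ) < S.u (τ', θ) := by
  by_cases h' : (τ', θ) ∈ SC
  · have hsub : ∀ t ∈ Icc τ τ', (t, θ) ∈ SC := by
      intro t ht
      rcases h' with h' | h'
      · exact Or.inl (lt_of_le_of_lt ht.2 h')
      · exact Or.inr h'
    have hmono : StrictMonoOn (fun t => S.u (t, θ)) (Icc τ τ') := by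
      apply strictMonoOn_of_deriv_pos (convex_Icc τ τ')
      · intro t ht
        exact ((hasDerivAt_D1 (diff_u S (hsub t ht))).continuousAt).continuousWithinAt
      · intro t ht
        have ht' : t ∈ Icc τ τ' := interior_subset ht
        rw [(hasDerivAt_D1 (diff_u S (hsub t ht'))).deriv]
        exact S.upos _ (hsub t ht')
    exact hmono (left_mem_Icc.2 hlt.le) (right_mem_Icc.2 hlt.le) hlt
  · rw [S.slit _ h']
    exact S.lt1 _ h

theorem exists_level (S : SData κ) (hκ1 : κ < 1) {s : ℝ} (hs0 : 0 < s) (hs1 : s < 1) (θ : ℝ) :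
    ∃ τ : ℝ, (τ, θ) ∈ SC ∧ S.u (τ, θ) = s := by
  have h1κ : 0 < 1 - κ := by linarith
  set τ0 : ℝ := Real.log (s / 2) / (1 - κ) with hτ0
  have hneg : Real.log (s / 2) < 0 := Real.log_neg (by linarith) (by linarith)
  have hτ0neg : τ0 < 0 := div_neg_of_neg_of_pos hneg h1κ
  have hlow : S.u (τ0, θ) < s := by
    have h := S.upper (τ0, θ)
    have h2 : (1 - κ) * τ0 = Real.log (s / 2) := by
      rw [hτ0]; field_simp
    have h3 : S.u (τ0, θ) ≤ Real.exp ((1 - κ) * τ0) := h
    rw [h2, Real.exp_log (by linarith)] at h3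
    linarith
  have hcont : Continuous (fun t : ℝ => S.u (t, θ)) :=
    S.cont.comp (continuous_id.prodMk continuous_const)
  by_cases hsin : Real.sin θ = 0
  · have hup : S.u (0, θ) = 1 := S.slit _ (by
      intro h
      rcases h with h | h
      · exact lt_irrefl _ h
      · exact h hsin)
    obtain ⟨t, ht, hts⟩ := intermediate_value_Icc hτ0neg.le hcont.continuousOn
      (show s ∈ Icc (S.u (τ0, θ)) (S.u (0, θ)) from ⟨hlow.le, by rw [hup]; exact hs1.le⟩)
    refine ⟨t, Or.inl ?_, hts⟩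
    rcases lt_or_eq_of_le ht.2 with h | h
    · exact h
    · exfalso
      have hts' : S.u (t, θ) = s := hts
      rw [h, hup] at hts'
      linarith
  · obtain ⟨A, γ, hγ, hdec⟩ := S.dec
    have hlim : Tendsto (fun t : ℝ => A * Real.exp (-(γ * t))) atTop (𝓝 (A * 0)) := by
      apply Tendsto.const_mul
      apply Real.tendsto_exp_neg_atTop_nhds_zero.comp
      exact tendsto_id.const_mul_atTop hγ
    rw [mul_zero] at hlim
    have hev : ∀ᶠ t in atTop, A * Real.exp (-(γ * t)) < 1 - s :=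
      hlim.eventually (gt_mem_nhds (by linarith))
    obtain ⟨t1, ht1, ht1'⟩ := (hev.and (eventually_ge_atTop (0 : ℝ))).exists
    have hup : s < S.u (t1, θ) := by
      have := hdec (t1, θ) ht1'
      have h3 : 1 - S.u (t1, θ) ≤ A * Real.exp (-(γ * t1)) := this
      linarith
    obtain ⟨t, _, hts⟩ := intermediate_value_Icc (hτ0neg.le.trans ht1') hcont.continuousOn
      (show s ∈ Icc (S.u (τ0, θ)) (S.u (t1, θ)) from ⟨hlow.le, hup.le⟩)
    exact ⟨t, Or.inr hsin, hts⟩

end PkS15

open PkS15 in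
theorem pkS15 (h14 : GS14) (h14b : GS14b) (hl : GLevel) : GS15 := by
  intro κ hκ0 hκ1 S s hs0 hs1
  have h1κ : 0 < 1 - κ := by linarith
  choose T hTSC hTu using exists_level S hκ1 hs0 hs1
  obtain ⟨W, hW⟩ := h14 κ hκ0 hκ1 S
  have hW0 := hW
  obtain ⟨hWs, hWeq, hWper, hWeven, hWu, ⟨A, hA⟩, hWmean⟩ := hW
  -- monotonicity
  have hbelow : ∀ τ θ, τ < T θ → (τ, θ) ∈ SC := by
    intro τ θ h
    rcases hTSC θ with h' | h'
    · exact Or.inl (h.trans h')
    · exact Or.inr h'
  have hbelow' : ∀ z : ℝ × ℝ, z.1 ≤ T z.2 → z ∈ SC := by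
    intro z h
    rcases lt_or_eq_of_le h with h' | h'
    · exact hbelow z.1 z.2 h'
    · have := hTSC z.2
      rw [← h'] at this
      exact this
  have hlt : ∀ τ θ, τ < T θ → S.u (τ, θ) < s := by
    intro τ θ h
    have := u_lt S (hbelow τ θ h) h
    rwa [hTu θ] at this
  have hgt : ∀ τ θ, T θ < τ → s < S.u (τ, θ) := by
    intro τ θ h
    have := u_lt S (hTSC θ) h
    rwa [hTu θ] at this
  have hlt' : ∀ τ θ, S.u (τ, θ) < s → τ < T θ := by
    intro τ θ h
    by_contra hc
    rcases lt_or_eq_of_le (not_lt.1 hc) with h' | h'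
    · exact absurd (hgt τ θ h') (by linarith)
    · rw [← h', hTu θ] at h
      exact lt_irrefl _ h
  have hgt' : ∀ τ θ, s < S.u (τ, θ) → T θ < τ := by
    intro τ θ h
    by_contra hc
    rcases lt_or_eq_of_le (not_lt.1 hc) with h' | h'
    · exact absurd (hlt τ θ h') (by linarith)
    · rw [h', hTu θ] at h
      exact lt_irrefl _ h
  -- continuity of T
  have hTcont : Continuous T := by
    rw [continuous_iff_continuousAt]
    intro θ0
    refine tendsto_order.2 ⟨?_, ?_⟩
    · intro a ha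
      have hc : ContinuousAt (fun θ : ℝ => S.u (a, θ)) θ0 :=
        (S.cont.comp (continuous_const.prodMk continuous_id)).continuousAt
      filter_upwards [hc.eventually (gt_mem_nhds (hlt a θ0 ha))] with θ hθ
      exact hlt' a θ hθ
    · intro a ha
      have hc : ContinuousAt (fun θ : ℝ => S.u (a, θ)) θ0 :=
        (S.cont.comp (continuous_const.prodMk continuous_id)).continuousAt
      filter_upwards [hc.eventually (lt_mem_nhds (hgt a θ0 ha))] with θ hθ
      exact hgt' a θ hθ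
  -- periodicity
  have huper : ∀ τ θ, S.u (τ, θ + 2 * π) = S.u (τ, θ) := by
    intro τ θ
    have : θ + 2 * π = (θ + π) + π := by ring
    rw [this, S.per, S.per]
  have hTper : ∀ θ, T (θ + 2 * π) = T θ := by
    intro θ
    rcases lt_trichotomy (T (θ + 2 * π)) (T θ) with h | h | h
    · have := hlt _ θ h
      rw [← huper, hTu] at this
      exact absurd this (lt_irrefl _)
    · exact h
    · have := hgt _ θ h
      rw [← huper, hTu] at this
      exact absurd this (lt_irrefl _)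
  have hWper2 : ∀ τ θ, W (τ, θ + 2 * π) = W (τ, θ) := by
    intro τ θ
    have : θ + 2 * π = (θ + π) + π := by ring
    rw [this, hWper, hWper]
  -- decay
  have hdecay : ∃ A γ : ℝ, 0 < γ ∧ ∀ z : ℝ × ℝ, z.1 ≤ T z.2 →
      |W z + 1| ≤ A * Real.exp (γ * z.1) := by
    -- compact set
    set K : Set (ℝ × ℝ) := {z | -1 ≤ z.1 ∧ z.1 ≤ T z.2 ∧ 0 ≤ z.2 ∧ z.2 ≤ 2 * π} with hK
    obtain ⟨b, hb⟩ := (isCompact_Icc (a := (0 : ℝ)) (b := 2 * π)).bddAbove_image
      hTcont.continuousOn
    have hKcl : IsClosed K := by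
      have e : K = {z : ℝ × ℝ | -1 ≤ z.1} ∩ {z | z.1 ≤ T z.2} ∩ {z | 0 ≤ z.2} ∩
          {z | z.2 ≤ 2 * π} := by
        ext z; simp only [hK, Set.mem_ofPred_eq, mem_inter_iff]; tauto
      rw [e]
      exact (((isClosed_le continuous_const continuous_fst).inter
        (isClosed_le continuous_fst (hTcont.comp continuous_snd))).inter
        (isClosed_le continuous_const continuous_snd)).inter
        (isClosed_le continuous_snd continuous_const)
    have hKsub : K ⊆ Icc (-1) b ×ˢ Icc 0 (2 * π) := by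
      rintro ⟨τ, θ⟩ ⟨h1, h2, h3, h4⟩
      exact ⟨⟨h1, le_trans h2 (hb ⟨θ, ⟨h3, h4⟩, rfl⟩)⟩, ⟨h3, h4⟩⟩
    have hKc : IsCompact K :=
      (isCompact_Icc.prod isCompact_Icc).of_isClosed_subset hKcl hKsub
    have hcW : ContinuousOn (fun z => |W z + 1|) K := by
      have h1 : ContinuousOn W K := hWs.continuousOn.mono (fun z hz => hbelow' z hz.2.1)
      exact (h1.add continuousOn_const).abs
    obtain ⟨M, hM⟩ := hKc.bddAbove_image hcW
    refine ⟨max A (M * Real.exp (1 - κ)), 1 - κ, h1κ, ?_⟩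
    rintro ⟨τ, θ⟩ hz
    have hz' : τ ≤ T θ := hz
    show |W (τ, θ) + 1| ≤ max A (M * Real.exp (1 - κ)) * Real.exp ((1 - κ) * τ)
    by_cases h1 : τ ≤ -1
    · refine (hA (τ, θ) h1).trans ?_
      exact mul_le_mul_of_nonneg_right (le_max_left _ _) (Real.exp_pos _).le
    · have h1' : -1 ≤ τ := (not_le.1 h1).le
      -- reduce θ to [0, 2π)
      have h2π : (0 : ℝ) < 2 * π := by positivity
      set φ : ℝ := toIcoMod h2π 0 θ with hφ
      have hφmem : φ ∈ Ico (0 : ℝ) (0 + 2 * π) := toIcoMod_mem_Ico h2π 0 θ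
      have hφeq : φ = θ - toIcoDiv h2π 0 θ • (2 * π) := rfl
      have hPW : Function.Periodic (fun x => W (τ, x)) (2 * π) := fun x => hWper2 τ x
      have hPT : Function.Periodic T (2 * π) := hTper
      have hWφ : W (τ, φ) = W (τ, θ) := by
        have := hPW.sub_zsmul_eq (x := θ) (toIcoDiv h2π 0 θ)
        rw [hφeq]
        exact this
      have hTφ : T φ = T θ := by
        have := hPT.sub_zsmul_eq (x := θ) (toIcoDiv h2π 0 θ)
        rw [hφeq]
        exact this
      have hmem : (τ, φ) ∈ K := by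
        refine ⟨h1', ?_, hφmem.1, ?_⟩
        · show τ ≤ T φ
          rw [hTφ]; exact hz'
        · have := hφmem.2
          show φ ≤ 2 * π
          linarith
      have hMle : |W (τ, φ) + 1| ≤ M := hM ⟨(τ, φ), hmem, rfl⟩
      rw [hWφ] at hMle
      have hMnn : 0 ≤ M := (abs_nonneg _).trans hMle
      have hexp : 1 ≤ Real.exp (1 - κ) * Real.exp ((1 - κ) * τ) := by
        rw [← Real.exp_add]
        apply Real.one_le_exp
        nlinarith
      calc |W (τ, θ) + 1| ≤ M := hMle
        _ = M * 1 := (mul_one M).symm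
        _ ≤ M * (Real.exp (1 - κ) * Real.exp ((1 - κ) * τ)) :=
            mul_le_mul_of_nonneg_left hexp hMnn
        _ = M * Real.exp (1 - κ) * Real.exp ((1 - κ) * τ) := by ring
        _ ≤ _ := mul_le_mul_of_nonneg_right (le_max_right _ _) (Real.exp_pos _).le
  -- positivity
  have hpos : ∀ z : ℝ × ℝ, z.1 ≤ T z.2 → 0 < D1 W z - D1 (D1 W) z := by
    intro z hz
    have hzSC := hbelow' z hz
    have hWat : ContDiffAt ℝ ∞ W z := hWs.contDiffAt (isOpen_SC.mem_nhds hzSC)
    have hWd : DifferentiableAt ℝ W z := hWat.differentiableAt (by simp)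
    have hfd : ContDiffAt ℝ ∞ (fderiv ℝ W) z := hWat.fderiv_right (m := ∞) (by simp)
    have hD1 : DifferentiableAt ℝ (D1 W) z := by
      have : ContDiffAt ℝ ∞ (fun y => fderiv ℝ W y (1, 0)) z :=
        hfd.clm_apply contDiffAt_const
      exact this.differentiableAt (by simp)
    have heq : S.u =ᶠ[𝓝 z] fun y => 1 + W y - D1 W y := by
      filter_upwards [isOpen_SC.mem_nhds hzSC] with y hy
      exact (hWu y hy).symm
    have h2 : D1 S.u z = D1 W z - D1 (D1 W) z := by
      have h3 : fderiv ℝ S.u z = fderiv ℝ W z - fderiv ℝ (D1 W) z := by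
        rw [heq.fderiv_eq]
        have h4 : HasFDerivAt (fun y => 1 + W y - D1 W y)
            (fderiv ℝ W z - fderiv ℝ (D1 W) z) z :=
          (hWd.hasFDerivAt.const_add 1).sub hD1.hasFDerivAt
        exact h4.fderiv
      show fderiv ℝ S.u z (1, 0) = _
      rw [h3]
      rfl
    rw [← h2]
    exact S.upos z hzSC
  obtain ⟨C, hCH, hC0⟩ := hl κ W T SC s hκ0 hκ1 hs0 hs1.le isOpen_SC hWs hWeq hWper2 hTcont hTper
    hbelow' hdecay (fun θ => by rw [hWu _ (hTSC θ), hTu θ]) hpos
  refine ⟨C, ?_, ?_⟩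
  · apply hC0
    set τ0 : ℝ := Real.log (s / 2) / (1 - κ) with hτ0
    have hneg : Real.log (s / 2) < 0 := Real.log_neg (by linarith) (by linarith)
    have hτ0neg : τ0 < 0 := div_neg_of_neg_of_pos hneg h1κ
    refine ⟨τ0, fun θ => ?_, hWmean τ0 hτ0neg⟩
    refine (hlt' τ0 θ ?_).le
    have h := S.upper (τ0, θ)
    have h2 : (1 - κ) * τ0 = Real.log (s / 2) := by
      rw [hτ0]; field_simp
    have h3 : S.u (τ0, θ) ≤ Real.exp ((1 - κ) * τ0) := h
    rw [h2, Real.exp_log (by linarith)] at h3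
    linarith
  · intro θ
    rw [hCH θ]
    exact h14b κ hκ0 hκ1 S W hW0 (T θ, θ) (hTSC θ)

end Pool.Agent.Helper25.PCap

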