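import Pool.Agent.Helper25.PCap.Defs

/-!
Planar p-capacity (MP_576c25_an): Part S, construction of the slit function.
-/

set_option autoImplicit false

open MeasureTheory Set Filter Topology
open scoped ContDiff Real

noncomputable section

namespace Pool.Agent.Helper25.PCap

/-- real part of `1 − e^{2(√κ τ + iθ)}` -/
def zr (κ : ℝ) (z : ℝ × ℝ) : ℝ := 1 - Real.exp (2 * Real.sqrt κ * z.1) * Real.cos (2 * z.2)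

/-- imaginary part of `1 − e^{2(√κ τ + iθ)}` -/
def zi (κ : ℝ) (z : ℝ × ℝ) : ℝ := -(Real.exp (2 * Real.sqrt κ * z.1) * Real.sin (2 * z.2))

/-- `Re √(1 − e^{2(√κ τ + iθ)})` -/
def fB (κ : ℝ) (z : ℝ × ℝ) : ℝ :=
  Real.sqrt ((Real.sqrt ((zr κ z) ^ 2 + (zi κ z) ^ 2) + zr κ z) / 2)

/-- PACKET BAR. The barrier function `fB`. -/
def GBar : Prop := ∀ κ : ℝ, 0 < κ → κ < 1 →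
  Continuous (fB κ) ∧ (∀ z, 0 ≤ fB κ z) ∧ (∀ z, z ∉ SC → fB κ z = 0) ∧ (∀ z ∈ SC, 0 < fB κ z) ∧
  ContDiffOn ℝ ∞ (fB κ) SC ∧
  (∀ z ∈ SC, D1 (D1 (fB κ)) z + κ * D2 (D2 (fB κ)) z = 0) ∧
  (∀ z ∈ SC, D1 (fB κ) z ≤ Real.sqrt κ * fB κ z) ∧
  (∀ z, fB κ z ≤ Real.exp (Real.sqrt κ * z.1) + 1) ∧
  (∃ c : ℝ, 0 < c ∧ ∀ θ, c ≤ fB κ (-1, θ)) ∧
  (∃ c : ℝ, 0 < c ∧ ∀ h, 0 < h → h < 1 → c * Real.sqrt h ≤ fB κ (-h, 0)) ∧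
  (∀ τ θ, fB κ (τ, θ + π) = fB κ (τ, θ)) ∧ (∀ τ θ, fB κ (τ, -θ) = fB κ (τ, θ))

/-- penalization weight -/
def qf (h : ℝ) (z : ℝ × ℝ) : ℝ := expNegInvGlue z.1 * expNegInvGlue (h - (Real.sin z.2) ^ 2)

/-- PACKET QF. Properties of the weight. -/
def GQF : Prop :=
  (∀ h : ℝ, ContDiff ℝ ∞ (qf h) ∧ (∃ K : ℝ, ∀ z, ‖fderiv ℝ (qf h) z‖ ≤ K) ∧
    (∀ z, 0 ≤ qf h z ∧ qf h z ≤ 1) ∧ (∀ z : ℝ × ℝ, z.1 ≤ 0 → qf h z = 0) ∧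
    (∀ z : ℝ × ℝ, h ≤ (Real.sin z.2) ^ 2 → qf h z = 0) ∧
    (∀ z : ℝ × ℝ, 0 < z.1 → (Real.sin z.2) ^ 2 < h → 0 < qf h z) ∧
    (∀ τ τ' θ, τ ≤ τ' → qf h (τ, θ) ≤ qf h (τ', θ)) ∧
    (∀ τ θ θ', (Real.sin θ) ^ 2 ≤ (Real.sin θ') ^ 2 → qf h (τ, θ') ≤ qf h (τ, θ))) ∧
  (∀ h h' z, h ≤ h' → qf h z ≤ qf h' z)

/-- penalized solution -/
def MSol (κ k h : ℝ) (m : ℝ × ℝ → ℝ) : Prop :=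
  ContDiff ℝ 2 m ∧ (∀ z, 0 ≤ m z ∧ m z ≤ 1 ∧ 1 - Real.exp ((1 - κ) * z.1) ≤ m z) ∧
  (∀ z, LL κ m z = k * qf h z * m z) ∧ (∀ τ θ, m (τ, θ + π) = m (τ, θ)) ∧
  (∀ τ θ, m (τ, -θ) = m (τ, θ)) ∧ (∀ τ τ' θ, τ ≤ τ' → m (τ', θ) ≤ m (τ, θ))

/-- PACKET S1. Existence of the penalized solution. -/
def GS1 : Prop := ∀ κ k h : ℝ, 0 < κ → κ < 1 → 0 < k → ∃ m, MSol κ k h m

/-- PACKET S2. Comparison and unimodality. -/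
def GS2 : Prop := ∀ κ k h : ℝ, 0 < κ → κ < 1 → 0 < k → ∀ m, MSol κ k h m →
  (∀ (k' h' : ℝ) (m' : ℝ × ℝ → ℝ), k ≤ k' → h ≤ h' → MSol κ k' h' m' → ∀ z, m' z ≤ m z) ∧
  (∀ τ θ θ', 0 ≤ θ → θ ≤ θ' → θ' ≤ π / 2 → m (τ, θ) ≤ m (τ, θ'))

/-- PACKET S3. Upper barrier in the limit `k → ∞`. -/
def GS3 : Prop := ∀ κ : ℝ, 0 < κ → κ < 1 → ∃ K : ℝ, 0 < K ∧ ∀ (h : ℝ) (m : ℕ → ℝ × ℝ → ℝ)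
  (mh : ℝ × ℝ → ℝ), 0 < h → h < 1 → (∀ k : ℕ, MSol κ ((k : ℝ) + 1) h (m k)) →
  (∀ z, Tendsto (fun k => m k z) atTop (𝓝 (mh z))) →
  ∀ z : ℝ × ℝ, -1 < z.1 → mh z ≤ K * (Real.exp ((1 - κ) / 2 * z.1) * fB κ z)

/-- the limit function `m = 1 − u` -/
def SLim (κ : ℝ) (m : ℝ × ℝ → ℝ) : Prop :=
  (∀ z, 0 ≤ m z ∧ m z ≤ 1 ∧ 1 - Real.exp ((1 - κ) * z.1) ≤ m z) ∧
  ContDiffOn ℝ ∞ m SC ∧ (∀ z ∈ SC, LL κ m z = 0) ∧ (∀ τ θ, m (τ, θ + π) = m (τ, θ)) ∧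
  (∀ τ θ, m (τ, -θ) = m (τ, θ)) ∧ (∀ τ τ' θ, τ ≤ τ' → m (τ', θ) ≤ m (τ, θ)) ∧
  (∀ τ θ θ', 0 ≤ θ → θ ≤ θ' → θ' ≤ π / 2 → m (τ, θ) ≤ m (τ, θ')) ∧
  ∃ K : ℝ, 0 < K ∧ ∀ z : ℝ × ℝ, -1 < z.1 → m z ≤ K * (Real.exp ((1 - κ) / 2 * z.1) * fB κ z)

/-- PACKET S4. Existence of the limit. -/
def GS4 : Prop := ∀ κ : ℝ, 0 < κ → κ < 1 → ∃ m, SLim κ m

/-- PACKET S5. Continuity, decay and tip behaviour of the limit. -/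
def GS5 : Prop := ∀ κ : ℝ, 0 < κ → κ < 1 → ∀ m, SLim κ m →
  Continuous m ∧ (∀ z, z ∉ SC → m z = 0) ∧
  (∃ A γ : ℝ, 0 < γ ∧ ∀ z : ℝ × ℝ, 0 ≤ z.1 → m z ≤ A * Real.exp (-(γ * z.1))) ∧
  (∃ c h₀ : ℝ, 0 < c ∧ 0 < h₀ ∧ ∀ h, 0 < h → h < h₀ → c * Real.sqrt h ≤ m (-h, 0))

/-- PACKET S6. Strict inequalities. -/
def GS6 : Prop := ∀ κ : ℝ, 0 < κ → κ < 1 → ∀ m, SLim κ m → Continuous m →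
  (∀ z, z ∉ SC → m z = 0) →
  (∃ A γ : ℝ, 0 < γ ∧ ∀ z : ℝ × ℝ, 0 ≤ z.1 → m z ≤ A * Real.exp (-(γ * z.1))) →
  (∀ z ∈ SC, 0 < m z) ∧ (∀ z, m z < 1) ∧ (∀ z ∈ SC, D1 m z < 0) ∧
  (∀ τ θ, 0 < θ → θ < π / 2 → 0 < D2 m (τ, θ))

/-- PACKET S7. Reflection across the slit. -/
def GS7 : Prop := ∀ κ : ℝ, 0 < κ → κ < 1 → ∀ m, SLim κ m → Continuous m →
  (∀ z, z ∉ SC → m z = 0) → (∀ z ∈ SC, 0 < m z) → ∀ t₀ : ℝ, 0 < t₀ →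
  ∃ (N : Set (ℝ × ℝ)) (mt : ℝ × ℝ → ℝ), IsOpen N ∧ (t₀, 0) ∈ N ∧ ContDiffOn ℝ ∞ mt N ∧
    (∀ z ∈ N, LL κ mt z = 0) ∧ (∀ z ∈ N, 0 ≤ z.2 → mt z = m z) ∧ 0 < D2 mt (t₀, 0)

/-- PACKET S8. Mean and `SData`. -/
def GS8 : Prop := ∀ κ : ℝ, 0 < κ → κ < 1 → Nonempty (SData κ)

/-- PACKET S9. Fourier expansion of `u` for `SData`: coefficients. -/
def GS9 : Prop := ∀ κ : ℝ, 0 < κ → κ < 1 → ∀ S : SData κ, ∃ c : ℕ → ℂ,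
  c 0 = 0 ∧ c 1 = 0 ∧ (∀ n, Odd n → c n = 0) ∧ (∀ n, (c n).im = 0) ∧ 0 < (c 2).re ∧
  ∀ τ₁ : ℝ, τ₁ < 0 → Summable (fun n : ℕ => ((n : ℝ) + 1) ^ 5 * ‖c n‖ * Real.exp (aa κ n * τ₁)) ∧
  ∀ τ θ : ℝ, τ ≤ τ₁ →
    HasSum (fun n : ℕ => (md c n θ).re * Real.exp (aa κ n * τ))
      (S.u (τ, θ) - S.C0 * Real.exp ((1 - κ) * τ)) ∧
    HasSum (fun n : ℕ => aa κ n * (md c n θ).re * Real.exp (aa κ n * τ))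
      (D1 S.u (τ, θ) - (1 - κ) * S.C0 * Real.exp ((1 - κ) * τ)) ∧
    HasSum (fun n : ℕ => -((n : ℝ) * (md c n θ).im) * Real.exp (aa κ n * τ))
      (D2 S.u (τ, θ)) ∧
    HasSum (fun n : ℕ => (aa κ n) ^ 2 * (md c n θ).re * Real.exp (aa κ n * τ))
      (D1 (D1 S.u) (τ, θ) - (1 - κ) ^ 2 * S.C0 * Real.exp ((1 - κ) * τ))

/-- the stream function of the slit -/
def omS {κ : ℝ} (S : SData κ) (z : ℝ × ℝ) : ℝ :=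
  ∫ s in z.2..(π / 2), (1 - BB κ S.C0 * Real.exp (-(1 - κ) * z.1) * D1 S.u (z.1, s))

/-- PACKET S10. The system for `omS` off the slit, symmetries, and its Fourier expansion. -/
def GS10 : Prop := ∀ κ : ℝ, 0 < κ → κ < 1 → ∀ S : SData κ,
  Sys κ S.C0 S.u (omS S) {z | 0 < z.2 ∧ z.2 < π} ∧ Sys κ S.C0 S.u (omS S) {z | z.1 < 0} ∧
  (∀ τ, omS S (τ, π / 2) = 0) ∧ (∀ τ, τ < 0 → omS S (τ, 0) = 0) ∧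
  (∀ τ θ, 0 < θ → θ < π → omS S (τ, π - θ) = -omS S (τ, θ)) ∧
  (∀ τ θ, τ < 0 → omS S (τ, -θ) = -omS S (τ, θ)) ∧
  ∃ (c : ℕ → ℂ) (τ₁ : ℝ), τ₁ < 0 ∧ FExp κ S.C0 S.u (omS S) c τ₁ ∧ (∀ n, (c n).im = 0) ∧
    0 < (c 2).re

/-- PACKET S11. Behaviour of `omS` at the slit. -/
def GS11 : Prop := ∀ κ : ℝ, 0 < κ → κ < 1 → ∀ S : SData κ,
  Sys κ S.C0 S.u (omS S) {z | 0 < z.2 ∧ z.2 < π} →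
  Sys κ S.C0 S.u (omS S) {z | z.1 < 0} → (∀ τ, τ < 0 → omS S (τ, 0) = 0) →
  ContinuousOn (omS S) {z | 0 ≤ z.2 ∧ z.2 ≤ π / 2 ∧ z ≠ (0, 0)} ∧
  (∀ t₀ : ℝ, 0 < t₀ → ∃ (N : Set (ℝ × ℝ)) (ut omt : ℝ × ℝ → ℝ), IsOpen N ∧ (t₀, 0) ∈ N ∧
    Sys κ S.C0 ut omt N ∧ (∀ z ∈ N, 0 ≤ z.2 → ut z = S.u z ∧ omt z = omS S z) ∧
    D2 ut (t₀, 0) < 0)

/-- PACKET S12. Signs. -/
def GS12 : Prop := ∀ κ : ℝ, 0 < κ → κ < 1 → ∀ S : SData κ,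
  Sys κ S.C0 S.u (omS S) {z | 0 < z.2 ∧ z.2 < π} →
  Sys κ S.C0 S.u (omS S) {z | z.1 < 0} → (∀ τ, omS S (τ, π / 2) = 0) →
  (∀ τ, τ < 0 → omS S (τ, 0) = 0) →
  (∃ (c : ℕ → ℂ) (τ₁ : ℝ), τ₁ < 0 ∧ FExp κ S.C0 S.u (omS S) c τ₁ ∧ (∀ n, (c n).im = 0) ∧
    0 < (c 2).re) →
  ContinuousOn (omS S) {z | 0 ≤ z.2 ∧ z.2 ≤ π / 2 ∧ z ≠ (0, 0)} →
  (∀ t₀ : ℝ, 0 < t₀ → ∃ (N : Set (ℝ × ℝ)) (ut omt : ℝ × ℝ → ℝ), IsOpen N ∧ (t₀, 0) ∈ N ∧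
    Sys κ S.C0 ut omt N ∧ (∀ z ∈ N, 0 ≤ z.2 → ut z = S.u z ∧ omt z = omS S z) ∧
    D2 ut (t₀, 0) < 0) →
  (∀ τ θ, 0 < θ → θ < π / 2 → 0 < omS S (τ, θ)) ∧ (∀ τ, 0 < τ → 0 < omS S (τ, 0)) ∧
  (∀ τ, τ < 0 → 0 < D2 (omS S) (τ, 0)) ∧ (∀ τ, D2 (omS S) (τ, π / 2) < 0) ∧
  (∀ τ, S.u (τ, π / 2) < S.C0 * Real.exp ((1 - κ) * τ)) ∧
  (∀ τ, τ ≤ 0 → S.C0 * Real.exp ((1 - κ) * τ) < S.u (τ, 0)) ∧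
  (∀ τ, ∫ θ in (0 : ℝ)..(2 * π), S.u (τ, θ) ≤ 2 * π * S.C0 * Real.exp ((1 - κ) * τ))

/-- PACKET S13. Full slit data. -/
def GS13 : Prop := ∀ κ : ℝ, 0 < κ → κ < 1 → ∀ S : SData κ, ∃ F : SFull κ, F.toSData = S

/-- properties of the hodograph function `W_S` of the segment -/
def WSProp {κ : ℝ} (S : SData κ) (W : ℝ × ℝ → ℝ) : Prop :=
  ContDiffOn ℝ ∞ W SC ∧ (∀ z ∈ SC, LL κ W z = 0) ∧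
  (∀ τ θ, W (τ, θ + π) = W (τ, θ)) ∧ (∀ τ θ, W (τ, -θ) = W (τ, θ)) ∧
  (∀ z ∈ SC, 1 + W z - D1 W z = S.u z) ∧
  (∃ A : ℝ, ∀ z : ℝ × ℝ, z.1 ≤ -1 → |W z + 1| ≤ A * Real.exp ((1 - κ) * z.1)) ∧
  (∀ τ, τ < 0 → ∫ θ in (0 : ℝ)..(2 * π), W (τ, θ) =
    2 * π * (-1 + S.C0 / κ * Real.exp ((1 - κ) * τ)))

/-- PACKET S14. The hodograph function `W_S` of the segment. -/
def GS14 : Prop := ∀ κ : ℝ, 0 < κ → κ < 1 → ∀ S : SData κ, ∃ W : ℝ × ℝ → ℝ, WSProp S W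

/-- PACKET S14b. The support function of the segment. -/
def GS14b : Prop := ∀ κ : ℝ, 0 < κ → κ < 1 → ∀ (S : SData κ) (W : ℝ × ℝ → ℝ), WSProp S W →
  ∀ z ∈ SC, S.Per / 4 * |Real.sin z.2| ≤ Real.exp (-z.1) * D1 W z

/-- PACKET S15. Level sets of the slit function are configurations containing the segment. -/
def GS15 : Prop := ∀ κ : ℝ, 0 < κ → κ < 1 → ∀ (S : SData κ) (s : ℝ), 0 < s → s < 1 →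
  ∃ C : Config κ, C.C0 = S.C0 * s ^ (-κ) ∧ ∀ θ, S.Per / 4 * |Real.sin θ| ≤ C.H θ

end Pool.Agent.Helper25.PCap
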