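import Pool.Agent.Helper25.PCap.GoalsTools
import Pool.Agent.Helper25.PCap.GoalsS

/-!
Packet S3 (helper76): upper barrier in the limit `k → ∞`.
-/

set_option autoImplicit false

open MeasureTheory Set Filter Topology
open scoped ContDiff Real

noncomputable section

namespace Pool.Agent.Helper25.PCap

namespace PkS3

lemma two_le_inf : (2 : WithTop ℕ∞) ≤ ∞ := by
  exact WithTop.coe_le_coe.2 (le_top : (2 : ℕ∞) ≤ ⊤)

lemma D1_congr {f g : ℝ × ℝ → ℝ} {z : ℝ × ℝ} (h : f =ᶠ[𝓝 z] g) : D1 f =ᶠ[𝓝 z] D1 g := by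
  filter_upwards [h.fderiv (𝕜 := ℝ)] with y hy
  unfold D1
  rw [hy]

lemma D2_congr {f g : ℝ × ℝ → ℝ} {z : ℝ × ℝ} (h : f =ᶠ[𝓝 z] g) : D2 f =ᶠ[𝓝 z] D2 g := by
  filter_upwards [h.fderiv (𝕜 := ℝ)] with y hy
  unfold D2
  rw [hy]

lemma LL_congr (κ : ℝ) {f g : ℝ × ℝ → ℝ} {z : ℝ × ℝ} (h : f =ᶠ[𝓝 z] g) :
    LL κ f z = LL κ g z := by
  unfold LL
  rw [(D1_congr (D1_congr h)).eq_of_nhds, (D1_congr h).eq_of_nhds,
    (D2_congr (D2_congr h)).eq_of_nhds]

lemma ev_diff {f : ℝ × ℝ → ℝ} {z : ℝ × ℝ} (hf : ContDiffAt ℝ 2 f z) :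
    ∀ᶠ y in 𝓝 z, DifferentiableAt ℝ f y :=
  (hf.eventually (by simp)).mono fun y hy => hy.differentiableAt (by norm_num)

lemma D1_cd {f : ℝ × ℝ → ℝ} {z : ℝ × ℝ} (hf : ContDiffAt ℝ 2 f z) : ContDiffAt ℝ 1 (D1 f) z := by
  unfold D1
  exact (hf.fderiv_right (m := 1) (by norm_num)).clm_apply contDiffAt_const

lemma D2_cd {f : ℝ × ℝ → ℝ} {z : ℝ × ℝ} (hf : ContDiffAt ℝ 2 f z) : ContDiffAt ℝ 1 (D2 f) z := by
  unfold D2
  exact (hf.fderiv_right (m := 1) (by norm_num)).clm_apply contDiffAt_const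

lemma D1_lin {a b : ℝ} {f g : ℝ × ℝ → ℝ} {z : ℝ × ℝ} (hf : DifferentiableAt ℝ f z)
    (hg : DifferentiableAt ℝ g z) :
    D1 (fun y => a * f y + b * g y) z = a * D1 f z + b * D1 g z := by
  have := ((hf.hasFDerivAt.const_mul a).add (hg.hasFDerivAt.const_mul b)).fderiv
  exact congrArg (fun (l : ℝ × ℝ →L[ℝ] ℝ) => l (1, 0)) this

lemma D2_lin {a b : ℝ} {f g : ℝ × ℝ → ℝ} {z : ℝ × ℝ} (hf : DifferentiableAt ℝ f z)
    (hg : DifferentiableAt ℝ g z) :
    D2 (fun y => a * f y + b * g y) z = a * D2 f z + b * D2 g z := by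
  have := ((hf.hasFDerivAt.const_mul a).add (hg.hasFDerivAt.const_mul b)).fderiv
  exact congrArg (fun (l : ℝ × ℝ →L[ℝ] ℝ) => l (0, 1)) this

lemma LL_lin (κ a b : ℝ) {f g : ℝ × ℝ → ℝ} {z : ℝ × ℝ} (hf : ContDiffAt ℝ 2 f z)
    (hg : ContDiffAt ℝ 2 g z) :
    LL κ (fun y => a * f y + b * g y) z = a * LL κ f z + b * LL κ g z := by
  have e1 : D1 (fun y => a * f y + b * g y) =ᶠ[𝓝 z] fun y => a * D1 f y + b * D1 g y := by
    filter_upwards [ev_diff hf, ev_diff hg] with y h1 h2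
    exact D1_lin h1 h2
  have e2 : D2 (fun y => a * f y + b * g y) =ᶠ[𝓝 z] fun y => a * D2 f y + b * D2 g y := by
    filter_upwards [ev_diff hf, ev_diff hg] with y h1 h2
    exact D2_lin h1 h2
  unfold LL
  rw [(D1_congr e1).eq_of_nhds, e1.eq_of_nhds, (D2_congr e2).eq_of_nhds,
    D1_lin ((D1_cd hf).differentiableAt (by norm_num)) ((D1_cd hg).differentiableAt (by norm_num)),
    D2_lin ((D2_cd hf).differentiableAt (by norm_num)) ((D2_cd hg).differentiableAt (by norm_num))]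
  ring

lemma LL_const (κ a : ℝ) (z : ℝ × ℝ) : LL κ (fun _ => a) z = 0 := by
  have h1 : D1 (fun _ : ℝ × ℝ => a) = fun _ => 0 := by
    funext y; unfold D1; simp
  have h2 : D2 (fun _ : ℝ × ℝ => a) = fun _ => 0 := by
    funext y; unfold D2; simp
  have h3 : D1 (fun _ : ℝ × ℝ => (0 : ℝ)) = fun _ => 0 := by
    funext y; unfold D1; simp
  have h4 : D2 (fun _ : ℝ × ℝ => (0 : ℝ)) = fun _ => 0 := by
    funext y; unfold D2; simp
  unfold LL
  rw [h1, h2, h3, h4]
  ring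

/-- exponential weight and shift -/
def SH (a t : ℝ) (f : ℝ × ℝ → ℝ) (y : ℝ × ℝ) : ℝ :=
  Real.exp (a * (y.1 - t)) * f (y.1 - t, y.2)

lemma SH_hasFDeriv (a t : ℝ) (f : ℝ × ℝ → ℝ) (y : ℝ × ℝ)
    (hf : DifferentiableAt ℝ f (y.1 - t, y.2)) :
    HasFDerivAt (SH a t f)
      (Real.exp (a * (y.1 - t)) • ((fderiv ℝ f (y.1 - t, y.2)).comp
        ((ContinuousLinearMap.fst ℝ ℝ ℝ).prod (ContinuousLinearMap.snd ℝ ℝ ℝ))) +
      f (y.1 - t, y.2) • (Real.exp (a * (y.1 - t)) •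
        (a • ContinuousLinearMap.fst ℝ ℝ ℝ))) y := by
  have h1 : HasFDerivAt (fun y : ℝ × ℝ => a * (y.1 - t)) (a • ContinuousLinearMap.fst ℝ ℝ ℝ)
      y := by
    exact ((hasFDerivAt_fst (𝕜 := ℝ) (E := ℝ) (F := ℝ) (p := y)).sub_const t).const_mul a
  have h2 : HasFDerivAt (fun y : ℝ × ℝ => (y.1 - t, y.2))
      ((ContinuousLinearMap.fst ℝ ℝ ℝ).prod (ContinuousLinearMap.snd ℝ ℝ ℝ)) y := by
    apply HasFDerivAt.prodMk
    · exact (hasFDerivAt_fst (𝕜 := ℝ) (E := ℝ) (F := ℝ) (p := y)).sub_const t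
    · exact (hasFDerivAt_snd (𝕜 := ℝ) (E := ℝ) (F := ℝ) (p := y))
  have h3 := hf.hasFDerivAt.comp y h2
  exact (h1.exp.mul h3)

lemma D1_SH (a t : ℝ) (f : ℝ × ℝ → ℝ) (y : ℝ × ℝ) (hf : DifferentiableAt ℝ f (y.1 - t, y.2)) :
    D1 (SH a t f) y = SH a t (fun z => D1 f z + a * f z) y := by
  unfold D1
  rw [(SH_hasFDeriv a t f y hf).fderiv]
  simp [SH]
  ring

lemma D2_SH (a t : ℝ) (f : ℝ × ℝ → ℝ) (y : ℝ × ℝ) (hf : DifferentiableAt ℝ f (y.1 - t, y.2)) :
    D2 (SH a t f) y = SH a t (D2 f) y := by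
  unfold D2
  rw [(SH_hasFDeriv a t f y hf).fderiv]
  simp [SH]

lemma isOpen_SC : IsOpen SC := by
  unfold SC
  apply IsOpen.union
  · exact isOpen_lt continuous_fst continuous_const
  · exact isOpen_ne_fun (by fun_prop) continuous_const

lemma LL_SH (κ t : ℝ) (f : ℝ × ℝ → ℝ) (hf : ContDiffOn ℝ ∞ f SC) (y : ℝ × ℝ)
    (hy : (y.1 - t, y.2) ∈ SC) :
    LL κ (SH ((1 - κ) / 2) t f) y = Real.exp ((1 - κ) / 2 * (y.1 - t)) *
      (D1 (D1 f) (y.1 - t, y.2) + κ * D2 (D2 f) (y.1 - t, y.2) -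
        (1 - κ) ^ 2 / 4 * f (y.1 - t, y.2)) := by
  set a := (1 - κ) / 2 with ha
  have hcd : ∀ z ∈ SC, ContDiffAt ℝ 2 f z := fun z hz =>
    ((hf z hz).contDiffAt (isOpen_SC.mem_nhds hz)).of_le two_le_inf
  have hopen : IsOpen {y : ℝ × ℝ | (y.1 - t, y.2) ∈ SC} :=
    isOpen_SC.preimage (by fun_prop)
  have hev : ∀ᶠ z in 𝓝 y, (z.1 - t, z.2) ∈ SC := hopen.mem_nhds hy
  have e1 : D1 (SH a t f) =ᶠ[𝓝 y] SH a t (fun z => D1 f z + a * f z) := by
    filter_upwards [hev] with z hz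
    exact D1_SH a t f z ((hcd _ hz).differentiableAt (by norm_num))
  have e2 : D2 (SH a t f) =ᶠ[𝓝 y] SH a t (D2 f) := by
    filter_upwards [hev] with z hz
    exact D2_SH a t f z ((hcd _ hz).differentiableAt (by norm_num))
  have d1 : DifferentiableAt ℝ (D1 f) (y.1 - t, y.2) :=
    (D1_cd (hcd _ hy)).differentiableAt (by norm_num)
  have d2 : DifferentiableAt ℝ (D2 f) (y.1 - t, y.2) :=
    (D2_cd (hcd _ hy)).differentiableAt (by norm_num)
  have d0 : DifferentiableAt ℝ f (y.1 - t, y.2) := (hcd _ hy).differentiableAt (by norm_num)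
  have d3 : DifferentiableAt ℝ (fun z => D1 f z + a * f z) (y.1 - t, y.2) :=
    d1.add (d0.const_mul a)
  have e3 : D1 (fun z => D1 f z + a * f z) (y.1 - t, y.2) =
      D1 (D1 f) (y.1 - t, y.2) + a * D1 f (y.1 - t, y.2) := by
    have := D1_lin (a := 1) (b := a) d1 d0
    simpa using this
  unfold LL
  rw [(D1_congr e1).eq_of_nhds, e1.eq_of_nhds, (D2_congr e2).eq_of_nhds, D1_SH _ _ _ _ d3,
    D2_SH _ _ _ _ d2]
  simp only [SH, e3]
  rw [ha]
  ring

/-- the quadratic barrier -/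
def QB (A a b d : ℝ) (z : ℝ × ℝ) : ℝ := A * (z.1 - a) ^ 2 + A * (z.2 - b) ^ 2 + d

lemma D1_QB (A a b d : ℝ) : D1 (QB A a b d) = fun z => 2 * A * (z.1 - a) := by
  funext z
  have h1 : HasFDerivAt (fun y : ℝ × ℝ => y.1 - a) (ContinuousLinearMap.fst ℝ ℝ ℝ) z :=
    (hasFDerivAt_fst (𝕜 := ℝ) (E := ℝ) (F := ℝ) (p := z)).sub_const a
  have h2 : HasFDerivAt (fun y : ℝ × ℝ => y.2 - b) (ContinuousLinearMap.snd ℝ ℝ ℝ) z :=
    (hasFDerivAt_snd (𝕜 := ℝ) (E := ℝ) (F := ℝ) (p := z)).sub_const b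
  have h3 := (((h1.pow 2).const_mul A).add ((h2.pow 2).const_mul A)).add_const d
  have h4 := congrArg (fun (l : ℝ × ℝ →L[ℝ] ℝ) => l (1, 0)) h3.fderiv
  have h5 : D1 (QB A a b d) z = _ := h4
  rw [h5]
  simp
  ring

lemma D2_QB (A a b d : ℝ) : D2 (QB A a b d) = fun z => 2 * A * (z.2 - b) := by
  funext z
  have h1 : HasFDerivAt (fun y : ℝ × ℝ => y.1 - a) (ContinuousLinearMap.fst ℝ ℝ ℝ) z :=
    (hasFDerivAt_fst (𝕜 := ℝ) (E := ℝ) (F := ℝ) (p := z)).sub_const a
  have h2 : HasFDerivAt (fun y : ℝ × ℝ => y.2 - b) (ContinuousLinearMap.snd ℝ ℝ ℝ) z :=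
    (hasFDerivAt_snd (𝕜 := ℝ) (E := ℝ) (F := ℝ) (p := z)).sub_const b
  have h3 := (((h1.pow 2).const_mul A).add ((h2.pow 2).const_mul A)).add_const d
  have h4 := congrArg (fun (l : ℝ × ℝ →L[ℝ] ℝ) => l (0, 1)) h3.fderiv
  have h5 : D2 (QB A a b d) z = _ := h4
  rw [h5]
  simp
  ring

lemma LL_QB (κ A a b d : ℝ) (z : ℝ × ℝ) :
    LL κ (QB A a b d) z = 2 * A - (1 - κ) * (2 * A * (z.1 - a)) + κ * (2 * A) := by
  unfold LL
  rw [D1_QB, D2_QB]
  have h1 : HasFDerivAt (fun y : ℝ × ℝ => 2 * A * (y.1 - a))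
      ((2 * A) • ContinuousLinearMap.fst ℝ ℝ ℝ) z :=
    ((hasFDerivAt_fst (𝕜 := ℝ) (E := ℝ) (F := ℝ) (p := z)).sub_const a).const_mul (2 * A)
  have h2 : HasFDerivAt (fun y : ℝ × ℝ => 2 * A * (y.2 - b))
      ((2 * A) • ContinuousLinearMap.snd ℝ ℝ ℝ) z :=
    ((hasFDerivAt_snd (𝕜 := ℝ) (E := ℝ) (F := ℝ) (p := z)).sub_const b).const_mul (2 * A)
  have e1 : D1 (fun y : ℝ × ℝ => 2 * A * (y.1 - a)) z = 2 * A := by
    unfold D1
    rw [h1.fderiv]
    simp
  have e2 : D2 (fun y : ℝ × ℝ => 2 * A * (y.2 - b)) z = 2 * A := by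
    unfold D2
    rw [h2.fderiv]
    simp
  rw [e1, e2]

lemma QB_cd (A a b d : ℝ) : ContDiff ℝ 2 (QB A a b d) := by
  unfold QB
  fun_prop

lemma QB_cont (A a b d : ℝ) : Continuous (QB A a b d) := (QB_cd A a b d).continuous

lemma sin_sq_lip (x y : ℝ) : |Real.sin x ^ 2 - Real.sin y ^ 2| ≤ 2 * |x - y| := by
  have h1 : Real.sin x ^ 2 - Real.sin y ^ 2 = (Real.sin x - Real.sin y) * (Real.sin x + Real.sin y) := by
    ring
  rw [h1, abs_mul]
  have h2 : |Real.sin x - Real.sin y| ≤ |x - y| := by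
    have := Real.lipschitzWith_sin.dist_le_mul x y
    simpa [Real.dist_eq] using this
  have h3 : |Real.sin x + Real.sin y| ≤ 2 := by
    calc _ ≤ |Real.sin x| + |Real.sin y| := abs_add_le _ _
      _ ≤ 1 + 1 := add_le_add (Real.abs_sin_le_one x) (Real.abs_sin_le_one y)
      _ = 2 := by norm_num
  calc _ ≤ |x - y| * 2 := mul_le_mul h2 h3 (abs_nonneg _) (abs_nonneg _)
    _ = _ := by ring

/-- Step 1: smallness of penalized solutions in the penalized region -/
lemma step1 (h1 : GMP1) (hq : GQF) (κ : ℝ) (hκ0 : 0 < κ) (hκ1 : κ < 1) (h t : ℝ) (hh0 : 0 < h)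
    (hh1 : h < 1) (ht0 : 0 < t) (ht1 : t < 1) :
    ∃ δ : ℕ → ℝ, Tendsto δ atTop (𝓝 0) ∧ (∀ k, 0 ≤ δ k) ∧
      ∀ (k : ℕ) (m : ℝ × ℝ → ℝ), MSol κ ((k : ℝ) + 1) h m →
      ∀ z : ℝ × ℝ, t ≤ z.1 → Real.sin z.2 ^ 2 ≤ h / 2 → m z ≤ δ k := by
  obtain ⟨-, -, q1, q2, q3, q4, q5, q6⟩ := hq.1 h
  -- the constant c
  set θs := Real.arcsin (Real.sqrt (3 * h / 4)) with hθs
  have hsin : Real.sin θs ^ 2 = 3 * h / 4 := by
    rw [hθs, Real.sin_arcsin]
    · exact Real.sq_sqrt (by linarith)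
    · have := Real.sqrt_nonneg (3 * h / 4)
      linarith
    · rw [Real.sqrt_le_one]
      linarith
  set c := qf h (t / 2, θs) with hc
  have hcpos : 0 < c := q4 _ (by simpa using ht0) (by simp only [hsin]; linarith)
  set r := min (t / 2) (h / 8) with hr
  have hr0 : 0 < r := lt_min (by linarith) (by linarith)
  have hr1 : r ≤ 1 / 2 := (min_le_left _ _).trans (by linarith)
  have hrt : r ≤ t / 2 := min_le_left _ _
  have hrh : r ≤ h / 8 := min_le_right _ _
  refine ⟨fun k => 6 / (r ^ 2 * c) * (1 / ((k : ℝ) + 1)), ?_, ?_, ?_⟩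
  · have := (tendsto_one_div_add_atTop_nhds_zero_nat (𝕜 := ℝ)).const_mul (6 / (r ^ 2 * c))
    simpa using this
  · intro k
    positivity
  intro k m hm z0 hz0 hz0s
  obtain ⟨m1, m2, m3, -, -, -⟩ := hm
  set δ : ℝ := 6 / (r ^ 2 * c) * (1 / ((k : ℝ) + 1)) with hδ
  have hδ0 : 0 ≤ δ := by positivity
  have hk0 : (0 : ℝ) < (k : ℝ) + 1 := by positivity
  set w := QB (1 / r ^ 2) z0.1 z0.2 δ with hw
  -- comparison function
  have hw_out : ∀ z : ℝ × ℝ, r ^ 2 ≤ (z.1 - z0.1) ^ 2 + (z.2 - z0.2) ^ 2 → 1 ≤ w z := by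
    intro z hz
    have : w z = ((z.1 - z0.1) ^ 2 + (z.2 - z0.2) ^ 2) / r ^ 2 + δ := by
      rw [hw]
      unfold QB
      ring
    rw [this]
    have h2 : 1 ≤ ((z.1 - z0.1) ^ 2 + (z.2 - z0.2) ^ 2) / r ^ 2 := by
      rw [one_le_div (by positivity)]
      exact hz
    linarith
  have key := h1 κ hκ0 hκ1 (fun z => max 0 (m z - w z)) 1
    (continuous_const.max (m1.continuous.sub (QB_cont _ _ _ _)))
    (fun z => by
      apply max_le (by norm_num)
      have h2 := (m2 z).2.1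
      have h3 : 0 ≤ w z := by
        rw [hw]
        unfold QB
        positivity
      linarith)
    (fun ε hε => ⟨r + |z0.1|, fun z hz => by
      have h2 : 1 ≤ w z := by
        apply hw_out
        have h3 : r ≤ z0.1 - z.1 := by
          have := neg_abs_le z0.1
          linarith
        have h4 : r ^ 2 ≤ (z0.1 - z.1) ^ 2 := pow_le_pow_left₀ hr0.le h3 2
        nlinarith [sq_nonneg (z.2 - z0.2)]
      have h3 := (m2 z).2.1
      apply max_le hε.le
      linarith⟩)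
    (fun z hz => by
      have hpos : 0 < m z - w z := by
        rcases lt_max_iff.1 hz with h2 | h2
        · exact absurd h2 (lt_irrefl _)
        · exact h2
      have hin : (z.1 - z0.1) ^ 2 + (z.2 - z0.2) ^ 2 < r ^ 2 := by
        by_contra hcon
        have h2 := hw_out z (not_lt.1 hcon)
        have h3 := (m2 z).2.1
        linarith
      have hev : (fun z => max 0 (m z - w z)) =ᶠ[𝓝 z] fun y => 1 * m y + (-1) * w y := by
        have hc' : Continuous fun y => m y - w y := m1.continuous.sub (QB_cont _ _ _ _)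
        filter_upwards [hc'.continuousAt.eventually (lt_mem_nhds hpos)] with y hy
        rw [max_eq_right hy.le]
        ring
      have hmc : ContDiffAt ℝ 2 m z := m1.contDiffAt
      have hwc : ContDiffAt ℝ 2 w z := (QB_cd _ _ _ _).contDiffAt
      refine ⟨?_, ?_⟩
      · refine ContDiffAt.congr_of_eventuallyEq ?_ hev
        exact (contDiffAt_const.mul hmc).add (contDiffAt_const.mul hwc)
      · rw [LL_congr κ hev, LL_lin κ 1 (-1) hmc hwc, m3 z, hw, LL_QB]
        have hd1 : |z.1 - z0.1| ≤ r := by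
          apply abs_le_of_sq_le_sq _ hr0.le
          nlinarith [sq_nonneg (z.2 - z0.2)]
        have hd2 : |z.2 - z0.2| ≤ r := by
          apply abs_le_of_sq_le_sq _ hr0.le
          nlinarith [sq_nonneg (z.1 - z0.1)]
        have ha1 := abs_le.1 hd1
        -- qf ≥ c
        have hqc : c ≤ qf h z := by
          have h3 : t / 2 ≤ z.1 := by linarith
          have h4 : Real.sin z.2 ^ 2 ≤ Real.sin θs ^ 2 := by
            rw [hsin]
            have h5 := abs_le.1 (sin_sq_lip z.2 z0.2)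
            linarith [h5.2]
          calc c ≤ qf h (t / 2, z.2) := q6 _ _ _ h4
            _ ≤ qf h (z.1, z.2) := q5 _ _ _ h3
            _ = qf h z := rfl
        have hLw : 2 * (1 / r ^ 2) - (1 - κ) * (2 * (1 / r ^ 2) * (z.1 - z0.1)) +
            κ * (2 * (1 / r ^ 2)) ≤ 6 * (1 / r ^ 2) := by
          have h5 : 0 < 1 / r ^ 2 := by positivity
          have h6 : -(1 - κ) * (z.1 - z0.1) ≤ 1 := by nlinarith
          nlinarith
        have hδk : ((k : ℝ) + 1) * c * δ = 6 * (1 / r ^ 2) := by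
          rw [hδ]
          field_simp
        have hwδ : δ ≤ w z := by
          rw [hw]
          unfold QB
          have : 0 ≤ 1 / r ^ 2 * (z.1 - z0.1) ^ 2 + 1 / r ^ 2 * (z.2 - z0.2) ^ 2 := by positivity
          linarith
        have h7 : ((k : ℝ) + 1) * c * δ ≤ ((k : ℝ) + 1) * qf h z * m z := by
          apply mul_le_mul
          · exact mul_le_mul_of_nonneg_left hqc hk0.le
          · linarith
          · exact hδ0
          · have := hcpos.le.trans hqc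
            positivity
        linarith)
    z0
  have h2 : m z0 - w z0 ≤ 0 := (le_max_right _ _).trans key
  have h3 : w z0 = δ := by
    rw [hw]
    unfold QB
    ring
  rw [h3] at h2
  linarith

/-- Step 2 -/
lemma step2 (h1 : GMP1) (hb : GBar) (hq : GQF) (κ : ℝ) (hκ0 : 0 < κ) (hκ1 : κ < 1) (K : ℝ)
    (hK0 : 0 < K) (hK : ∀ θ, 1 ≤ K * (Real.exp ((1 - κ) / 2 * (-1)) * fB κ (-1, θ)))
    (h t : ℝ) (ht0 : 0 < t) (k : ℕ)
    (m : ℝ × ℝ → ℝ) (hm : MSol κ ((k : ℝ) + 1) h m) (δ : ℝ) (hδ0 : 0 ≤ δ)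
    (hδ : ∀ z : ℝ × ℝ, t ≤ z.1 → Real.sin z.2 ^ 2 ≤ h / 2 → m z ≤ δ) (hh0 : 0 < h) :
    ∀ z : ℝ × ℝ, t - 1 ≤ z.1 → m z ≤ δ + K * SH ((1 - κ) / 2) t (fB κ) z := by
  obtain ⟨b1, b2, b3, b4, b5, b6, -⟩ := hb κ hκ0 hκ1
  obtain ⟨-, -, q1, q2, q3, q4, q5, q6⟩ := hq.1 h
  obtain ⟨m1, m2, m3, -, -, -⟩ := hm
  set S := SH ((1 - κ) / 2) t (fB κ) with hS
  have hScont : Continuous S := by
    rw [hS]
    unfold SH
    apply Continuous.mul
    · fun_prop
    · exact b1.comp (by fun_prop)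
  have hSpos : ∀ z, 0 ≤ S z := by
    intro z
    rw [hS]
    exact mul_nonneg (Real.exp_pos _).le (b2 _)
  have hSbd : ∀ z : ℝ × ℝ, z.1 = t - 1 → 1 ≤ K * S z := by
    intro z hz
    rw [hS]
    unfold SH
    rw [hz]
    have : t - 1 - t = -1 := by ring
    rw [this]
    exact hK z.2
  set g : ℝ × ℝ → ℝ := fun z => m z - δ - K * S z with hg
  have hgcont : Continuous g := by
    rw [hg]
    exact (m1.continuous.sub continuous_const).sub (continuous_const.mul hScont)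
  set v : ℝ × ℝ → ℝ := fun z => if t - 1 ≤ z.1 then max 0 (g z) else 0 with hv
  have hvcont : Continuous v := by
    rw [hv]
    apply Continuous.if_le (continuous_const.max hgcont) continuous_const continuous_const
      continuous_fst
    intro z hz
    have h2 := hSbd z hz.symm
    have h3 := (m2 z).2.1
    apply max_eq_left
    rw [hg]
    show m z - δ - K * S z ≤ 0
    linarith
  have key := h1 κ hκ0 hκ1 v 1 hvcont
    (fun z => by
      rw [hv]
      show (if t - 1 ≤ z.1 then max 0 (g z) else 0) ≤ 1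
      split_ifs with hc
      · apply max_le (by norm_num)
        have h2 := (m2 z).2.1
        have h3 : 0 ≤ K * S z := mul_nonneg hK0.le (hSpos z)
        show m z - δ - K * S z ≤ 1
        linarith
      · norm_num)
    (fun ε hε => ⟨2 + |t|, fun z hz => by
      rw [hv]
      show (if t - 1 ≤ z.1 then max 0 (g z) else 0) ≤ ε
      rw [if_neg]
      · exact hε.le
      · have := neg_abs_le t
        intro hcon
        linarith⟩)
    (fun z hz => by
      have hz1 : t - 1 ≤ z.1 := by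
        by_contra hcon
        rw [hv] at hz
        simp only [if_neg hcon] at hz
        exact lt_irrefl _ hz
      have hz2 : 0 < g z := by
        rw [hv] at hz
        simp only [if_pos hz1] at hz
        rcases lt_max_iff.1 hz with h2 | h2
        · exact absurd h2 (lt_irrefl _)
        · exact h2
      have hz3 : t - 1 < z.1 := by
        rcases lt_or_eq_of_le hz1 with h2 | h2
        · exact h2
        · exfalso
          have h3 := hSbd z h2.symm
          have h4 := (m2 z).2.1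
          have h5 : 0 < m z - δ - K * S z := hz2
          linarith
      have hSC : (z.1 - t, z.2) ∈ SC := by
        unfold SC
        by_cases hc : z.1 < t
        · left
          show z.1 - t < 0
          linarith
        · right
          show Real.sin z.2 ≠ 0
          intro h0
          have h2 := hδ z (not_lt.1 hc) (by rw [h0]; simp; linarith)
          have h3 : 0 ≤ K * S z := mul_nonneg hK0.le (hSpos z)
          have h5 : 0 < m z - δ - K * S z := hz2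
          linarith
      have hev : v =ᶠ[𝓝 z] fun y => 1 * (1 * m y + (-1) * (fun _ : ℝ × ℝ => δ) y) + (-K) * S y := by
        have h2 : ∀ᶠ y : ℝ × ℝ in 𝓝 z, t - 1 < y.1 :=
          continuous_fst.continuousAt.eventually (lt_mem_nhds hz3)
        filter_upwards [hgcont.continuousAt.eventually (lt_mem_nhds hz2), h2] with y hy hy2
        rw [hv]
        show (if t - 1 ≤ y.1 then max 0 (g y) else 0) = _
        rw [if_pos hy2.le, max_eq_right hy.le]
        show m y - δ - K * S y = _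
        ring
      have hmc : ContDiffAt ℝ 2 m z := m1.contDiffAt
      have hcc : ContDiffAt ℝ 2 (fun _ : ℝ × ℝ => δ) z := contDiffAt_const
      have hfc : ContDiffAt ℝ 2 (fB κ) (z.1 - t, z.2) :=
        ((b5 _ hSC).contDiffAt (isOpen_SC.mem_nhds hSC)).of_le two_le_inf
      have hSc : ContDiffAt ℝ 2 S z := by
        rw [hS]
        unfold SH
        apply ContDiffAt.mul
        · apply ContDiffAt.exp
          fun_prop
        · have hsh : ContDiffAt ℝ 2 (fun y : ℝ × ℝ => (y.1 - t, y.2)) z := by fun_prop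
          exact ContDiffAt.comp (g := fB κ) (f := fun y : ℝ × ℝ => (y.1 - t, y.2)) z hfc hsh
      have hmd : ContDiffAt ℝ 2 (fun y => 1 * m y + (-1) * (fun _ : ℝ × ℝ => δ) y) z :=
        (contDiffAt_const.mul hmc).add (contDiffAt_const.mul hcc)
      refine ⟨?_, ?_⟩
      · refine ContDiffAt.congr_of_eventuallyEq ?_ hev
        exact (contDiffAt_const.mul hmd).add (contDiffAt_const.mul hSc)
      · rw [LL_congr κ hev, LL_lin κ 1 (-K) hmd hSc, LL_lin κ 1 (-1) hmc hcc, LL_const, m3 z, hS,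
          LL_SH κ t (fB κ) b5 z hSC, b6 _ hSC]
        have h2 : 0 ≤ ((k : ℝ) + 1) * qf h z * m z := by
          have := (m2 z).1
          have := (q1 z).1
          positivity
        have h3 : 0 ≤ K * (Real.exp ((1 - κ) / 2 * (z.1 - t)) *
            ((1 - κ) ^ 2 / 4 * fB κ (z.1 - t, z.2))) := by
          have := b2 (z.1 - t, z.2)
          positivity
        linarith)
  intro z hz
  have h2 := key z
  rw [hv] at h2
  simp only [if_pos hz] at h2
  have h3 : m z - δ - K * S z ≤ 0 := (le_max_right _ _).trans h2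
  linarith

end PkS3

open PkS3 in
theorem pkS3 (h1 : GMP1) (hb : GBar) (h : GQF) : GS3 := by
  intro κ hκ0 hκ1
  obtain ⟨b1, b2, b3, b4, b5, b6, b7, b8, ⟨c0, hc0, hc0'⟩, -⟩ := hb κ hκ0 hκ1
  set K := Real.exp ((1 - κ) / 2) / c0 with hKdef
  have hK0 : 0 < K := by positivity
  have hK : ∀ θ, 1 ≤ K * (Real.exp ((1 - κ) / 2 * (-1)) * fB κ (-1, θ)) := by
    intro θ
    have h2 := hc0' θ
    have h3 : K * (Real.exp ((1 - κ) / 2 * (-1)) * c0) = 1 := by
      rw [hKdef]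
      have h4 : Real.exp ((1 - κ) / 2) * Real.exp ((1 - κ) / 2 * (-1)) = 1 := by
        rw [← Real.exp_add]
        simp
      have h5 : Real.exp ((1 - κ) / 2) / c0 * (Real.exp ((1 - κ) / 2 * (-1)) * c0) =
        Real.exp ((1 - κ) / 2) * Real.exp ((1 - κ) / 2 * (-1)) := by
        field_simp
      rw [h5, h4]
    calc (1 : ℝ) = K * (Real.exp ((1 - κ) / 2 * (-1)) * c0) := h3.symm
      _ ≤ _ := mul_le_mul_of_nonneg_left
        (mul_le_mul_of_nonneg_left h2 (Real.exp_pos _).le) hK0.le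
  refine ⟨K, hK0, ?_⟩
  intro hh m mh hh0 hh1 hm hlim z hz
  -- for every t small
  have main : ∀ t : ℝ, 0 < t → t < 1 → t - 1 ≤ z.1 →
      mh z ≤ K * SH ((1 - κ) / 2) t (fB κ) z := by
    intro t ht0 ht1 htz
    obtain ⟨δ, hδ1, hδ2, hδ3⟩ := step1 h1 h κ hκ0 hκ1 hh t hh0 hh1 ht0 ht1
    have h2 : ∀ k, m k z ≤ δ k + K * SH ((1 - κ) / 2) t (fB κ) z := fun k =>
      step2 h1 hb h κ hκ0 hκ1 K hK0 hK hh t ht0 k (m k) (hm k) (δ k) (hδ2 k)
        (hδ3 k (m k) (hm k)) hh0 z htz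
    have h3 : Tendsto (fun k => δ k + K * SH ((1 - κ) / 2) t (fB κ) z) atTop
        (𝓝 (0 + K * SH ((1 - κ) / 2) t (fB κ) z)) := hδ1.add_const _
    rw [zero_add] at h3
    exact le_of_tendsto_of_tendsto' (hlim z) h3 h2
  have hcont : Continuous fun t : ℝ => K * SH ((1 - κ) / 2) t (fB κ) z := by
    unfold SH
    apply continuous_const.mul
    apply Continuous.mul
    · fun_prop
    · exact b1.comp (by fun_prop)
  have hval : K * SH ((1 - κ) / 2) 0 (fB κ) z = K * (Real.exp ((1 - κ) / 2 * z.1) * fB κ z) := by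
    unfold SH
    simp
  rw [← hval]
  have ht : Tendsto (fun t : ℝ => K * SH ((1 - κ) / 2) t (fB κ) z) (𝓝[>] 0)
      (𝓝 (K * SH ((1 - κ) / 2) 0 (fB κ) z)) :=
    (hcont.tendsto 0).mono_left nhdsWithin_le_nhds
  refine ge_of_tendsto ht ?_
  have hmin : 0 < min 1 (z.1 + 1) := lt_min (by norm_num) (by linarith)
  filter_upwards [Ioo_mem_nhdsGT hmin] with t htt
  have h5 := htt.2
  have h6 := lt_min_iff.1 h5
  exact main t htt.1 h6.1 (by linarith [h6.2])

end Pool.Agent.Helper25.PCap
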