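import Pool.Agent.Helper25.PCap.GoalsS
import Pool.Agent.Helper25.PCap.GoalsTools

/-!
Packet S5 of MP_576c25_an (by helper69): continuity, decay and tip behaviour of the slit function.
-/

set_option autoImplicit false

open MeasureTheory Set Filter Topology
open scoped ContDiff Real

noncomputable section

namespace Pool.Agent.Helper25.PCap

namespace S5

variable {f g : ℝ × ℝ → ℝ} {z : ℝ × ℝ}

theorem D1_congr (h : f =ᶠ[𝓝 z] g) : D1 f z = D1 g z := by
  rw [D1, D1, h.fderiv_eq]

theorem D2_congr (h : f =ᶠ[𝓝 z] g) : D2 f z = D2 g z := by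
  rw [D2, D2, h.fderiv_eq]

theorem D1_congr' (h : f =ᶠ[𝓝 z] g) : D1 f =ᶠ[𝓝 z] D1 g := by
  filter_upwards [h.eventually_nhds] with w hw using D1_congr hw

theorem D2_congr' (h : f =ᶠ[𝓝 z] g) : D2 f =ᶠ[𝓝 z] D2 g := by
  filter_upwards [h.eventually_nhds] with w hw using D2_congr hw

theorem LL_congr (κ : ℝ) (h : f =ᶠ[𝓝 z] g) : LL κ f z = LL κ g z := by
  rw [LL, LL, D1_congr (D1_congr' h), D2_congr (D2_congr' h), D1_congr h]

theorem diff_fderiv (hf : ContDiffAt ℝ 2 f z) : DifferentiableAt ℝ (fderiv ℝ f) z :=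
  (hf.fderiv_right (m := 1) (by norm_num)).differentiableAt (by norm_num)

theorem diff_D1 (hf : ContDiffAt ℝ 2 f z) : DifferentiableAt ℝ (D1 f) z :=
  (diff_fderiv hf).clm_apply (differentiableAt_const _)

theorem diff_D2 (hf : ContDiffAt ℝ 2 f z) : DifferentiableAt ℝ (D2 f) z :=
  (diff_fderiv hf).clm_apply (differentiableAt_const _)

theorem diff_of (hf : ContDiffAt ℝ 2 f z) : DifferentiableAt ℝ f z :=
  hf.differentiableAt (by norm_num)

theorem ev_diff (hf : ContDiffAt ℝ 2 f z) : ∀ᶠ w in 𝓝 z, DifferentiableAt ℝ f w := by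
  filter_upwards [hf.eventually (by norm_num)] with w hw using diff_of hw

theorem D1_of {d : ℝ} (hf : DifferentiableAt ℝ f z) (h : HasDerivAt (fun t => f (t, z.2)) d z.1) :
    D1 f z = d := by
  have h1 : HasDerivAt (fun t : ℝ => (t, z.2)) ((1 : ℝ), (0 : ℝ)) z.1 :=
    (hasDerivAt_id z.1).prodMk (hasDerivAt_const z.1 z.2)
  have h2 : HasFDerivAt f (fderiv ℝ f z) (z.1, z.2) := hf.hasFDerivAt
  exact (h2.comp_hasDerivAt z.1 h1).unique h

theorem D2_of {d : ℝ} (hf : DifferentiableAt ℝ f z) (h : HasDerivAt (fun t => f (z.1, t)) d z.2) :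
    D2 f z = d := by
  have h1 : HasDerivAt (fun t : ℝ => (z.1, t)) ((0 : ℝ), (1 : ℝ)) z.2 :=
    (hasDerivAt_const z.2 z.1).prodMk (hasDerivAt_id z.2)
  have h2 : HasFDerivAt f (fderiv ℝ f z) (z.1, z.2) := hf.hasFDerivAt
  exact (h2.comp_hasDerivAt z.2 h1).unique h

theorem hasD1 (hf : DifferentiableAt ℝ f z) : HasDerivAt (fun t => f (t, z.2)) (D1 f z) z.1 := by
  have h1 : HasDerivAt (fun t : ℝ => (t, z.2)) ((1 : ℝ), (0 : ℝ)) z.1 :=
    (hasDerivAt_id z.1).prodMk (hasDerivAt_const z.1 z.2)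
  have h2 : HasFDerivAt f (fderiv ℝ f z) (z.1, z.2) := hf.hasFDerivAt
  exact h2.comp_hasDerivAt z.1 h1

theorem hasD2 (hf : DifferentiableAt ℝ f z) : HasDerivAt (fun t => f (z.1, t)) (D2 f z) z.2 := by
  have h1 : HasDerivAt (fun t : ℝ => (z.1, t)) ((0 : ℝ), (1 : ℝ)) z.2 :=
    (hasDerivAt_const z.2 z.1).prodMk (hasDerivAt_id z.2)
  have h2 : HasFDerivAt f (fderiv ℝ f z) (z.1, z.2) := hf.hasFDerivAt
  exact h2.comp_hasDerivAt z.2 h1

theorem D1_sub' (hf : DifferentiableAt ℝ f z) (hg : DifferentiableAt ℝ g z) :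
    D1 (fun w => f w - g w) z = D1 f z - D1 g z := by
  rw [D1, fderiv_fun_sub hf hg]; rfl

theorem D2_sub' (hf : DifferentiableAt ℝ f z) (hg : DifferentiableAt ℝ g z) :
    D2 (fun w => f w - g w) z = D2 f z - D2 g z := by
  rw [D2, fderiv_fun_sub hf hg]; rfl

theorem LL_sub (κ : ℝ) (hf : ContDiffAt ℝ 2 f z) (hg : ContDiffAt ℝ 2 g z) :
    LL κ (fun w => f w - g w) z = LL κ f z - LL κ g z := by
  have e1 : D1 (fun w => f w - g w) =ᶠ[𝓝 z] fun w => D1 f w - D1 g w := by
    filter_upwards [ev_diff hf, ev_diff hg] with w h1 h2 using D1_sub' h1 h2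
  have e2 : D2 (fun w => f w - g w) =ᶠ[𝓝 z] fun w => D2 f w - D2 g w := by
    filter_upwards [ev_diff hf, ev_diff hg] with w h1 h2 using D2_sub' h1 h2
  rw [LL, D1_congr e1, D2_congr e2, D1_sub' (diff_D1 hf) (diff_D1 hg),
    D2_sub' (diff_D2 hf) (diff_D2 hg), D1_sub' (diff_of hf) (diff_of hg), LL, LL]
  ring

theorem LL_cmul (κ c : ℝ) (hf : ContDiffAt ℝ 2 f z) :
    LL κ (fun w => c * f w) z = c * LL κ f z := by
  have a1 : ∀ (k : ℝ × ℝ → ℝ) (w : ℝ × ℝ), DifferentiableAt ℝ k w →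
      D1 (fun w => c * k w) w = c * D1 k w := by
    intro k w hk; rw [D1, fderiv_const_mul hk, D1]; rfl
  have a2 : ∀ (k : ℝ × ℝ → ℝ) (w : ℝ × ℝ), DifferentiableAt ℝ k w →
      D2 (fun w => c * k w) w = c * D2 k w := by
    intro k w hk; rw [D2, fderiv_const_mul hk, D2]; rfl
  have e1 : D1 (fun w => c * f w) =ᶠ[𝓝 z] fun w => c * D1 f w := by
    filter_upwards [ev_diff hf] with w h1 using a1 f w h1
  have e2 : D2 (fun w => c * f w) =ᶠ[𝓝 z] fun w => c * D2 f w := by
    filter_upwards [ev_diff hf] with w h1 using a2 f w h1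
  rw [LL, D1_congr e1, D2_congr e2, a1 _ _ (diff_D1 hf), a2 _ _ (diff_D2 hf),
    a1 _ _ (diff_of hf), LL]
  ring

theorem diff_exp (a : ℝ) (hf : DifferentiableAt ℝ f z) :
    DifferentiableAt ℝ (fun w : ℝ × ℝ => Real.exp (a * w.1) * f w) z := by
  have : DifferentiableAt ℝ (fun w : ℝ × ℝ => Real.exp (a * w.1)) z :=
    (differentiableAt_fst.const_mul a).exp
  exact this.mul hf

theorem D1_expmul (a : ℝ) (hf : DifferentiableAt ℝ f z) :
    D1 (fun w : ℝ × ℝ => Real.exp (a * w.1) * f w) z =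
      Real.exp (a * z.1) * (D1 f z + a * f z) := by
  refine D1_of (diff_exp a hf) ?_
  have h1 : HasDerivAt (fun t : ℝ => Real.exp (a * t)) (Real.exp (a * z.1) * a) z.1 := by
    have := ((hasDerivAt_id z.1).const_mul a).exp
    simpa using this
  have h2 := h1.mul (hasD1 hf)
  refine h2.congr_deriv ?_
  ring

theorem D2_expmul (a : ℝ) (hf : DifferentiableAt ℝ f z) :
    D2 (fun w : ℝ × ℝ => Real.exp (a * w.1) * f w) z =
      Real.exp (a * z.1) * D2 f z := by
  refine D2_of (diff_exp a hf) ?_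
  exact (hasD2 hf).const_mul (Real.exp (a * z.1))

theorem LL_expmul (κ a : ℝ) (hf : ContDiffAt ℝ 2 f z) :
    LL κ (fun w : ℝ × ℝ => Real.exp (a * w.1) * f w) z =
      Real.exp (a * z.1) * (D1 (D1 f) z + κ * D2 (D2 f) z + (2 * a - (1 - κ)) * D1 f z +
        (a ^ 2 - (1 - κ) * a) * f z) := by
  have e1 : D1 (fun w : ℝ × ℝ => Real.exp (a * w.1) * f w) =ᶠ[𝓝 z]
      fun w => Real.exp (a * w.1) * (D1 f w + a * f w) := by
    filter_upwards [ev_diff hf] with w h1 using D1_expmul a h1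
  have e2 : D2 (fun w : ℝ × ℝ => Real.exp (a * w.1) * f w) =ᶠ[𝓝 z]
      fun w => Real.exp (a * w.1) * D2 f w := by
    filter_upwards [ev_diff hf] with w h1 using D2_expmul a h1
  have h3 : DifferentiableAt ℝ (fun w => D1 f w + a * f w) z :=
    (diff_D1 hf).add ((diff_of hf).const_mul a)
  have h4 : D1 (fun w => D1 f w + a * f w) z = D1 (D1 f) z + a * D1 f z := by
    refine D1_of h3 ?_
    exact (hasD1 (diff_D1 hf)).add ((hasD1 (diff_of hf)).const_mul a)
  rw [LL, D1_congr e1, D2_congr e2, D1_expmul a h3, D2_expmul a (diff_D2 hf),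
    D1_expmul a (diff_of hf), h4]
  ring

/-- the trigonometric factor -/
def tr (a b : ℝ) (w : ℝ × ℝ) : ℝ := a * Real.cos (w.2 / 2) + b * Real.sin (w.2 / 2)

theorem tr_smooth (a b : ℝ) : ContDiff ℝ ∞ (tr a b) := by
  unfold tr
  fun_prop

theorem tr_at (a b : ℝ) (w : ℝ × ℝ) : ContDiffAt ℝ 2 (tr a b) w :=
  ((tr_smooth a b).of_le ENat.LEInfty.out).contDiffAt

theorem D1_tr (a b : ℝ) : D1 (tr a b) = fun _ => 0 := by
  funext w
  refine D1_of (diff_of (tr_at a b w)) ?_
  exact hasDerivAt_const w.1 (a * Real.cos (w.2 / 2) + b * Real.sin (w.2 / 2))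

theorem D2_tr (a b : ℝ) : D2 (tr a b) = tr (b / 2) (-(a / 2)) := by
  funext w
  refine D2_of (diff_of (tr_at a b w)) ?_
  have h0 : HasDerivAt (fun t : ℝ => t / 2) (1 / 2) w.2 := (hasDerivAt_id w.2).div_const 2
  have h1 := (h0.cos.const_mul a).add (h0.sin.const_mul b)
  refine h1.congr_deriv ?_
  unfold tr
  ring

theorem LL_tr (κ c a b : ℝ) (w : ℝ × ℝ) :
    LL κ (fun w : ℝ × ℝ => Real.exp (c * w.1) * tr a b w) w =
      (c ^ 2 - (1 - κ) * c - κ / 4) * (Real.exp (c * w.1) * tr a b w) := by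
  rw [LL_expmul κ c (tr_at a b w), D1_tr, D2_tr, D2_tr]
  have : D1 (fun _ : ℝ × ℝ => (0 : ℝ)) w = 0 := by
    rw [D1, fderiv_fun_const]; rfl
  rw [this]
  unfold tr
  ring

theorem isOpen_SC : IsOpen SC := by
  have h1 : IsOpen {z : ℝ × ℝ | z.1 < 0} := isOpen_lt continuous_fst continuous_const
  have h2 : IsOpen {z : ℝ × ℝ | Real.sin z.2 ≠ 0} :=
    isOpen_ne_fun (Real.continuous_sin.comp continuous_snd) continuous_const
  exact h1.union h2

/-- locally the sum of absolute values is a trigonometric factor -/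
theorem abs_local (z : ℝ × ℝ) (hz : Real.sin z.2 ≠ 0) : ∃ a b : ℝ,
    (fun w : ℝ × ℝ => |Real.cos (w.2 / 2)| + |Real.sin (w.2 / 2)|) =ᶠ[𝓝 z] tr a b := by
  have hs : Real.sin z.2 = 2 * Real.sin (z.2 / 2) * Real.cos (z.2 / 2) := by
    rw [← Real.sin_two_mul]; congr 1; ring
  have h1 : Real.sin (z.2 / 2) ≠ 0 := by
    intro h; apply hz; rw [hs, h]; ring
  have h2 : Real.cos (z.2 / 2) ≠ 0 := by
    intro h; apply hz; rw [hs, h]; ring
  have key : ∀ k : ℝ × ℝ → ℝ, Continuous k → k z ≠ 0 →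
      ∃ a : ℝ, ∀ᶠ w in 𝓝 z, |k w| = a * k w := by
    intro k hk h
    rcases lt_or_gt_of_ne h with h | h
    · refine ⟨-1, ?_⟩
      filter_upwards [hk.continuousAt.eventually (gt_mem_nhds h)] with w hw
      rw [abs_of_neg hw]; ring
    · refine ⟨1, ?_⟩
      filter_upwards [hk.continuousAt.eventually (lt_mem_nhds h)] with w hw
      rw [abs_of_pos hw]; ring
  obtain ⟨a, ha⟩ := key (fun w => Real.cos (w.2 / 2)) (by fun_prop) h2
  obtain ⟨b, hb⟩ := key (fun w => Real.sin (w.2 / 2)) (by fun_prop) h1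
  refine ⟨a, b, ?_⟩
  filter_upwards [ha, hb] with w h3 h4
  rw [h3, h4, tr]

theorem abs_ge (t : ℝ) : 1 ≤ |Real.cos (t / 2)| + |Real.sin (t / 2)| := by
  have h1 := Real.sin_sq_add_cos_sq (t / 2)
  have h2 : |Real.cos (t / 2)| ^ 2 = Real.cos (t / 2) ^ 2 := sq_abs _
  have h3 : |Real.sin (t / 2)| ^ 2 = Real.sin (t / 2) ^ 2 := sq_abs _
  have h4 := abs_nonneg (Real.cos (t / 2))
  have h5 := abs_nonneg (Real.sin (t / 2))
  have h6 : 0 ≤ |Real.cos (t / 2)| * |Real.sin (t / 2)| := mul_nonneg h4 h5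
  nlinarith

theorem abs_le2 (t : ℝ) : |Real.cos (t / 2)| + |Real.sin (t / 2)| ≤ 2 := by
  have h1 := Real.abs_cos_le_one (t / 2)
  have h2 := Real.abs_sin_le_one (t / 2)
  linarith

/-- the positive part of a positive smooth function -/
theorem max_local (hf : ContinuousAt f z) (hz : 0 < f z) : (fun w => max 0 (f w)) =ᶠ[𝓝 z] f := by
  filter_upwards [hf.eventually (lt_mem_nhds hz)] with w hw
  exact max_eq_right hw.le

end S5

open S5

theorem pkS5 (h1 : GMP1) (hb : GBar) : GS5 := by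
  intro κ hκ hκ1 m hm
  obtain ⟨hm0, hms, hml, -, -, -, -, K, hK, hmK⟩ := hm
  obtain ⟨fc, f0, fz, fp, fs, fe, fd, fu, -, ⟨c', hc', ft⟩, -, -⟩ := hb κ hκ hκ1
  have msm : ∀ z ∈ SC, ContDiffAt ℝ 2 m z := fun z hz =>
    ((hms z hz).contDiffAt (isOpen_SC.mem_nhds hz)).of_le ENat.LEInfty.out
  have fsm : ∀ z ∈ SC, ContDiffAt ℝ 2 (fB κ) z := fun z hz =>
    ((fs z hz).contDiffAt (isOpen_SC.mem_nhds hz)).of_le ENat.LEInfty.out
  have hzero : ∀ z, z ∉ SC → m z = 0 := by
    intro z hz
    have h2 : 0 ≤ z.1 := by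
      by_contra h
      exact hz (Or.inl (not_le.1 h))
    have h3 := hmK z (by linarith)
    rw [fz z hz, mul_zero, mul_zero] at h3
    exact le_antisymm h3 (hm0 z).1
  have hcont : Continuous m := by
    rw [continuous_iff_continuousAt]
    intro z
    by_cases hz : z ∈ SC
    · exact (msm z hz).continuousAt
    · have h2 : 0 ≤ z.1 := by
        by_contra h
        exact hz (Or.inl (not_le.1 h))
      have h3 : ContinuousAt (fun w : ℝ × ℝ =>
          K * (Real.exp ((1 - κ) / 2 * w.1) * fB κ w)) z := by fun_prop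
      have h4 : Tendsto (fun w : ℝ × ℝ => K * (Real.exp ((1 - κ) / 2 * w.1) * fB κ w)) (𝓝 z)
          (𝓝 0) := by
        have := h3.tendsto
        simpa only [fz z hz, mul_zero] using this
      rw [ContinuousAt, hzero z hz]
      refine tendsto_of_tendsto_of_tendsto_of_le_of_le' tendsto_const_nhds h4 ?_ ?_
      · exact Eventually.of_forall fun w => (hm0 w).1
      · have h5 : ∀ᶠ w : ℝ × ℝ in 𝓝 z, -1 < w.1 :=
          continuous_fst.continuousAt.eventually (lt_mem_nhds (by linarith))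
        filter_upwards [h5] with w hw using hmK w hw
  refine ⟨hcont, hzero, ?_, ?_⟩
  · -- decay
    refine ⟨2, κ / 8, by positivity, ?_⟩
    set G : ℝ × ℝ → ℝ := fun w => |Real.cos (w.2 / 2)| + |Real.sin (w.2 / 2)| with hG
    have Gc : Continuous G := by fun_prop
    set F : ℝ × ℝ → ℝ := fun w => Real.exp (-(κ / 8) * w.1) * G w with hF
    have Fc : Continuous F := by fun_prop
    have G1 : ∀ w, 1 ≤ G w := fun w => abs_ge w.2
    have Fpos : ∀ w, 0 < F w := fun w => mul_pos (Real.exp_pos _) (by linarith [G1 w])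
    have hle : ∀ w : ℝ × ℝ, w.1 ≤ 0 → m w - F w ≤ 0 := by
      intro w hw
      have h2 : 1 ≤ Real.exp (-(κ / 8) * w.1) := by
        rw [Real.one_le_exp_iff]; nlinarith
      have h3 : 1 ≤ F w := by
        have := mul_le_mul h2 (G1 w) zero_le_one (Real.exp_pos _).le
        rw [one_mul] at this
        exact this
      linarith [(hm0 w).2.1]
    have hv := h1 κ hκ hκ1 (fun w => max 0 (m w - F w)) 1
      (continuous_const.max (hcont.sub Fc)) ?_ ?_ ?_
    · intro z hz
      have h2 := (le_max_right _ _).trans (hv z)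
      have h3 : F z ≤ 2 * Real.exp (-(κ / 8 * z.1)) := by
        have h4 : G z ≤ 2 := abs_le2 z.2
        have h5 := mul_le_mul_of_nonneg_left h4 (Real.exp_pos (-(κ / 8) * z.1)).le
        have h6 : -(κ / 8) * z.1 = -(κ / 8 * z.1) := by ring
        rw [h6] at h5
        simp only [hF, h6]
        linarith
      linarith
    · intro w
      refine max_le zero_le_one ?_
      linarith [(hm0 w).2.1, Fpos w]
    · intro δ hδ
      refine ⟨0, fun z hz => ?_⟩
      exact (max_le le_rfl (hle z (by linarith))).trans hδ.le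
    · intro z hz
      have h2 : 0 < m z - F z := by
        by_contra h
        rw [not_lt] at h
        have := max_le (le_refl (0 : ℝ)) h
        exact absurd hz (not_lt.2 this)
      have h3 : 0 < z.1 := by
        by_contra h
        exact absurd (hle z (not_lt.1 h)) (not_le.2 h2)
      have h4 : Real.sin z.2 ≠ 0 := by
        intro h
        have h5 : z ∉ SC := by
          rintro (h6 | h6)
          · linarith
          · exact h6 h
        have := hzero z h5
        linarith [Fpos z]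
      have hzS : z ∈ SC := Or.inr h4
      obtain ⟨a, b, hab⟩ := abs_local z h4
      have e1 : F =ᶠ[𝓝 z] fun w => Real.exp (-(κ / 8) * w.1) * tr a b w := by
        filter_upwards [hab] with w hw
        simp only [hF, hG]
        rw [hw]
      have Fs : ContDiffAt ℝ 2 F z := by
        refine ContDiffAt.congr_of_eventuallyEq ?_ e1
        have : ContDiffAt ℝ 2 (fun w : ℝ × ℝ => Real.exp (-(κ / 8) * w.1)) z :=
          (contDiffAt_const.mul contDiffAt_fst).exp
        exact this.mul (tr_at a b z)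
      have e2 : (fun w => max 0 (m w - F w)) =ᶠ[𝓝 z] fun w => m w - F w :=
        max_local (hcont.sub Fc).continuousAt h2
      refine ⟨((msm z hzS).sub Fs).congr_of_eventuallyEq e2, ?_⟩
      rw [LL_congr κ e2, LL_sub κ (msm z hzS) Fs, hml z hzS, LL_congr κ e1, LL_tr]
      have h5 : 0 < Real.exp (-(κ / 8) * z.1) * tr a b z := by
        have := e1.eq_of_nhds
        rw [← this]; exact Fpos z
      have h6 : (-(κ / 8)) ^ 2 - (1 - κ) * (-(κ / 8)) - κ / 4 ≤ 0 := by nlinarith
      nlinarith [mul_nonneg (neg_nonneg.2 h6) h5.le]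
  · -- tip
    set e : ℝ := 1 - κ with he
    have he0 : 0 < e := by linarith
    set ψ : ℝ × ℝ → ℝ := fun w => Real.exp (-2 * w.1) * fB κ w with hψ
    have ψc : Continuous ψ := by fun_prop
    have hs1 : Real.sqrt κ < 1 := by
      rw [show (1 : ℝ) = Real.sqrt 1 from Real.sqrt_one.symm]
      exact Real.sqrt_lt_sqrt hκ.le hκ1
    have hs0 : 0 ≤ Real.sqrt κ := Real.sqrt_nonneg κ
    have ψb : ∀ w : ℝ × ℝ, -1 ≤ w.1 → ψ w ≤ 2 * Real.exp 2 := by
      intro w hw
      have h2 : ψ w ≤ Real.exp (-2 * w.1) * (Real.exp (Real.sqrt κ * w.1) + 1) :=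
        mul_le_mul_of_nonneg_left (fu w) (Real.exp_pos _).le
      have h3 : Real.exp (-2 * w.1) ≤ Real.exp 2 := Real.exp_le_exp.2 (by linarith)
      have h4 : Real.exp (-2 * w.1) * Real.exp (Real.sqrt κ * w.1) ≤ Real.exp 2 := by
        rw [← Real.exp_add]
        refine Real.exp_le_exp.2 ?_
        nlinarith
      linarith
    have hE : 0 < 1 - Real.exp (-e) := by
      have : Real.exp (-e) < 1 := by rw [Real.exp_lt_one_iff]; linarith
      linarith
    set c : ℝ := (1 - Real.exp (-e)) / (2 * Real.exp 2) with hc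
    have hc0 : 0 < c := div_pos hE (by positivity)
    have hcc : c * (2 * Real.exp 2) = 1 - Real.exp (-e) := by
      rw [hc]; field_simp
    set pr : ℝ × ℝ → ℝ × ℝ := fun w => (max w.1 (-1), w.2) with hpr
    have prc : Continuous pr := by fun_prop
    have hbd : ∀ θ : ℝ, c * ψ (-1, θ) - m (-1, θ) ≤ 0 := by
      intro θ
      have h2 := mul_le_mul_of_nonneg_left (ψb (-1, θ) le_rfl) hc0.le
      have h3 := (hm0 (-1, θ)).2.2
      have h4 : e * ((-1, θ) : ℝ × ℝ).1 = -e := by simp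
      rw [h4] at h3
      linarith
    have hlow : ∀ w : ℝ × ℝ, w.1 ≤ -1 → max 0 (c * ψ (pr w) - m (pr w)) = 0 := by
      intro w hw
      have h2 : pr w = (-1, w.2) := by simp [hpr, hw]
      rw [h2]
      exact max_eq_left (hbd w.2)
    have hv := h1 κ hκ hκ1 (fun w => max 0 (c * ψ (pr w) - m (pr w))) (c * (2 * Real.exp 2))
      (continuous_const.max (((ψc.comp prc).const_mul c).sub (hcont.comp prc))) ?_ ?_ ?_
    · refine ⟨c * c', 1, mul_pos hc0 hc', one_pos, ?_⟩
      intro h hh0 hh1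
      have h2 := (le_max_right _ _).trans (hv (-h, 0))
      have h3 : pr (-h, 0) = (-h, 0) := by
        simp only [hpr]
        rw [max_eq_left (by linarith)]
      rw [h3] at h2
      have h4 := ft h hh0 hh1
      have h5 : c' * Real.sqrt h ≤ ψ (-h, 0) := by
        refine h4.trans ?_
        have h6 : 1 ≤ Real.exp (-2 * ((-h, 0) : ℝ × ℝ).1) := by
          rw [Real.one_le_exp_iff]; simp only; linarith
        have h7 := mul_le_mul_of_nonneg_right h6 (f0 (-h, 0))
        simpa only [one_mul] using h7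
      have h6 := mul_le_mul_of_nonneg_left h5 hc0.le
      linarith
    · intro w
      refine max_le (by positivity) ?_
      have h2 : -1 ≤ (pr w).1 := le_max_right _ _
      have h3 := mul_le_mul_of_nonneg_left (ψb (pr w) h2) hc0.le
      linarith [(hm0 (pr w)).1]
    · intro δ hδ
      refine ⟨1, fun z hz => ?_⟩
      exact (hlow z hz).le.trans hδ.le
    · intro z hz
      have h3 : -1 < z.1 := by
        by_contra h
        have := hlow z (not_lt.1 h)
        exact absurd hz (not_lt.2 this.le)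
      have epr : pr =ᶠ[𝓝 z] id := by
        filter_upwards [continuous_fst.continuousAt.eventually (lt_mem_nhds h3)] with w hw
        simp only [hpr, id]
        rw [max_eq_left (le_of_lt hw)]
      have e3 : (fun w => max 0 (c * ψ (pr w) - m (pr w))) =ᶠ[𝓝 z]
          fun w => max 0 (c * ψ w - m w) := by
        filter_upwards [epr] with w hw
        rw [hw]; rfl
      have hz2 : 0 < max 0 (c * ψ z - m z) := by
        have := e3.eq_of_nhds
        exact lt_of_lt_of_eq hz this
      have h2 : 0 < c * ψ z - m z := by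
        by_contra h
        rw [not_lt] at h
        have := max_le (le_refl (0 : ℝ)) h
        exact absurd hz2 (not_lt.2 this)
      have hzS : z ∈ SC := by
        by_contra h
        have h4 : ψ z = 0 := by simp only [hψ]; rw [fz z h, mul_zero]
        rw [h4] at h2
        linarith [(hm0 z).1]
      have ψs : ContDiffAt ℝ 2 ψ z := by
        have : ContDiffAt ℝ 2 (fun w : ℝ × ℝ => Real.exp (-2 * w.1)) z :=
          (contDiffAt_const.mul contDiffAt_fst).exp
        exact this.mul (fsm z hzS)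
      have e4 : (fun w => max 0 (c * ψ w - m w)) =ᶠ[𝓝 z] fun w => c * ψ w - m w :=
        max_local ((ψc.const_mul c).sub hcont).continuousAt h2
      have e5 := e3.trans e4
      have cψs : ContDiffAt ℝ 2 (fun w => c * ψ w) z := contDiffAt_const.mul ψs
      refine ⟨(cψs.sub (msm z hzS)).congr_of_eventuallyEq e5, ?_⟩
      rw [LL_congr κ e5, LL_sub κ cψs (msm z hzS), hml z hzS, LL_cmul κ c ψs, sub_zero]
      refine mul_nonneg hc0.le ?_
      have h7 := LL_expmul κ (-2) (fsm z hzS)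
      rw [fe z hzS] at h7
      simp only [hψ]
      rw [h7]
      refine mul_nonneg (Real.exp_pos _).le ?_
      have h8 := fd z hzS
      have h9 := f0 z
      have h10 : D1 (fB κ) z ≤ fB κ z := h8.trans (by nlinarith)
      have h11 : 0 ≤ fB κ z - D1 (fB κ) z := by linarith
      nlinarith [mul_nonneg (by linarith : (0 : ℝ) ≤ 4 + (1 - κ)) h11, mul_nonneg he0.le h9]

end Pool.Agent.Helper25.PCap
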