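import Pool.Agent.Helper25.PCap.GoalsS
import Pool.Agent.Helper25.PCap.GoalsTools
import Pool.Agent.Helper10.PCap.Basic

/-!
Planar p-capacity (MP_576c25_an): packet S6, strict inequalities. (helper56)
-/

set_option autoImplicit false

open MeasureTheory Set Filter Topology
open scoped ContDiff Real

noncomputable section

namespace Pool.Agent.Helper25.PCap

open Pool.Agent.Helper10.PCap

namespace S6

theorem SC_open : IsOpen SC := by
  have h1 : IsOpen {z : ℝ × ℝ | z.1 < 0} := isOpen_lt continuous_fst continuous_const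
  have h2 : IsOpen {z : ℝ × ℝ | Real.sin z.2 ≠ 0} :=
    isOpen_ne_fun (Real.continuous_sin.comp continuous_snd) continuous_const
  have : SC = {z : ℝ × ℝ | z.1 < 0} ∪ {z : ℝ × ℝ | Real.sin z.2 ≠ 0} := by
    ext z; rfl
  rw [this]
  exact h1.union h2

theorem SC_preconnected : IsPreconnected SC := by
  have hU : Convex ℝ {z : ℝ × ℝ | z.1 < 0} := by
    apply convex_halfSpace_lt
    exact ⟨fun _ _ => rfl, fun _ _ => rfl⟩
  have hL : ∀ θ : ℝ, Convex ℝ {z : ℝ × ℝ | z.2 = θ} := by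
    intro θ
    apply convex_hyperplane
    exact ⟨fun _ _ => rfl, fun _ _ => rfl⟩
  have hSC : SC = ⋃ θ : {θ : ℝ // Real.sin θ ≠ 0},
      ({z : ℝ × ℝ | z.1 < 0} ∪ {z : ℝ × ℝ | z.2 = θ.1}) := by
    ext z
    simp only [mem_iUnion, mem_union, mem_setOf_eq, Subtype.exists, SC]
    constructor
    · rintro (h | h)
      · exact ⟨π / 2, by rw [Real.sin_pi_div_two]; exact one_ne_zero, Or.inl h⟩
      · exact ⟨z.2, h, Or.inr rfl⟩
    · rintro ⟨θ, hθ, h | h⟩
      · exact Or.inl h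
      · right; rw [h]; exact hθ
  rw [hSC]
  apply isPreconnected_iUnion
  · refine ⟨(-1, 0), ?_⟩
    simp only [mem_iInter]
    intro θ
    left
    norm_num
  · intro θ
    refine IsPreconnected.union (-1, θ.1) ?_ ?_ hU.isPreconnected (hL θ.1).isPreconnected
    · change (-1 : ℝ) < 0
      norm_num
    · rfl

theorem LL_D {κ : ℝ} {m : ℝ × ℝ → ℝ} {O : Set (ℝ × ℝ)} (hO : IsOpen O)
    (hm : ContDiffOn ℝ ∞ m O) (heq : ∀ z ∈ O, LL κ m z = 0) :
    (∀ z ∈ O, LL κ (D1 m) z = 0) ∧ (∀ z ∈ O, LL κ (D2 m) z = 0) := by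
  have h1 := smoothD1 hO hm
  have h2 := smoothD2 hO hm
  have h11 := smoothD1 hO h1
  have h22 := smoothD2 hO h2
  have hz0 : ∀ z ∈ O, ∀ v : ℝ × ℝ, fderiv ℝ (LL κ m) z v = 0 := by
    intro z hz v
    have := eqOn_D (f := LL κ m) (g := fun _ => (0 : ℝ)) hO heq hz v
    rw [this]
    simp
  have hexp : ∀ z ∈ O, ∀ v : ℝ × ℝ, fderiv ℝ (LL κ m) z v =
      fderiv ℝ (D1 (D1 m)) z v - (1 - κ) * fderiv ℝ (D1 m) z v + κ * fderiv ℝ (D2 (D2 m)) z v := by
    intro z hz v
    have e1 := (diffAt hO h11 hz).hasFDerivAt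
    have e2 := (diffAt hO h1 hz).hasFDerivAt
    have e3 := (diffAt hO h22 hz).hasFDerivAt
    have e4 := ((e1.sub (e2.const_mul (1 - κ))).add (e3.const_mul κ))
    have e5 : HasFDerivAt (LL κ m) _ z := e4
    rw [e5.fderiv]
    simp
  constructor
  · intro z hz
    have hA := hexp z hz (1, 0)
    rw [hz0 z hz] at hA
    have hB : D2 (D2 (D1 m)) z = D1 (D2 (D2 m)) z := by
      rw [eqOn_D2 hO (fun y hy => D12_comm hO hm hy) hz]
      exact D12_comm hO h2 hz
    rw [LL, hB]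
    change 0 = D1 (D1 (D1 m)) z - (1 - κ) * D1 (D1 m) z + κ * D1 (D2 (D2 m)) z at hA
    linarith
  · intro z hz
    have hA := hexp z hz (0, 1)
    rw [hz0 z hz] at hA
    have hB : D2 (D1 (D1 m)) z = D1 (D1 (D2 m)) z := by
      rw [D12_comm hO h1 hz]
      exact eqOn_D1 hO (fun y hy => D12_comm hO hm hy) hz
    change 0 = D2 (D1 (D1 m)) z - (1 - κ) * D2 (D1 m) z + κ * D2 (D2 (D2 m)) z at hA
    rw [LL, ← hB, ← D12_comm hO hm hz]
    linarith

theorem LL_one_sub {κ : ℝ} (m : ℝ × ℝ → ℝ) (z : ℝ × ℝ) :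
    LL κ (fun y => 1 - m y) z = - LL κ m z := by
  have h1 : D1 (fun y => 1 - m y) = fun y => - D1 m y := by
    funext y
    simp only [D1]
    rw [fderiv_const_sub]
    rfl
  have h2 : D2 (fun y => 1 - m y) = fun y => - D2 m y := by
    funext y
    simp only [D2]
    rw [fderiv_const_sub]
    rfl
  have h3 : D1 (fun y => - D1 m y) z = - D1 (D1 m) z := by
    rw [D1, fderiv_fun_neg]; rfl
  have h4 : D2 (fun y => - D2 m y) z = - D2 (D2 m) z := by
    rw [D2, fderiv_fun_neg]; rfl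
  rw [LL, h1, h2, h3, h4, LL]
  ring

theorem LL_neg {κ : ℝ} (f : ℝ × ℝ → ℝ) (z : ℝ × ℝ) :
    LL κ (fun y => - f y) z = - LL κ f z := by
  have h1 : D1 (fun y => - f y) = fun y => - D1 f y := by
    funext y
    simp only [D1]
    rw [fderiv_fun_neg]
    rfl
  have h2 : D2 (fun y => - f y) = fun y => - D2 f y := by
    funext y
    simp only [D2]
    rw [fderiv_fun_neg]
    rfl
  have h3 : D1 (fun y => - D1 f y) z = - D1 (D1 f) z := by
    rw [D1, fderiv_fun_neg]; rfl
  have h4 : D2 (fun y => - D2 f y) z = - D2 (D2 f) z := by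
    rw [D2, fderiv_fun_neg]; rfl
  rw [LL, h1, h2, h3, h4, LL]
  ring

theorem exists_small {A γ δ : ℝ} (hγ : 0 < γ) (hδ : 0 < δ) :
    ∃ t : ℝ, 0 ≤ t ∧ A * Real.exp (-(γ * t)) < δ := by
  have h1 : Tendsto (fun t : ℝ => A * Real.exp (-(γ * t))) atTop (𝓝 (A * 0)) := by
    apply Tendsto.const_mul
    apply Real.tendsto_exp_neg_atTop_nhds_zero.comp
    exact tendsto_id.const_mul_atTop hγ
  rw [mul_zero] at h1
  obtain ⟨t, ht0, ht⟩ := ((eventually_ge_atTop (0 : ℝ)).and (h1.eventually_lt_const hδ)).exists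
  exact ⟨t, ht0, ht⟩

end S6

open S6 in
theorem pkS6 (hs : GSMPc) : GS6 := by
  intro κ hκ0 hκ1 m hm hcont hoff hdec
  obtain ⟨hb, hsm, heq, hper, heven, hanti, hmono, -⟩ := hm
  obtain ⟨A, γ, hγ, hA⟩ := hdec
  have hO := SC_open
  have hP := SC_preconnected
  have hsm2 : ContDiffOn ℝ 2 m SC := hsm.of_le (by exact WithTop.coe_le_coe.2 (le_top : (2 : ℕ∞) ≤ ⊤))
  have hlow : 0 < m (-1, π / 2) := by
    have h1 := (hb (-1, π / 2)).2.2
    have h2 : Real.exp ((1 - κ) * (-1)) < 1 := by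
      rw [Real.exp_lt_one_iff]
      linarith
    have h3 : 1 - Real.exp ((1 - κ) * (-1)) ≤ m (-1, π / 2) := h1
    linarith
  have hmem : ∀ t : ℝ, (t, π / 2) ∈ SC := by
    intro t
    right
    rw [Real.sin_pi_div_two]
    exact one_ne_zero
  -- (1)
  have hpos : ∀ z ∈ SC, 0 < m z := by
    intro z hz
    rcases lt_or_eq_of_le (hb z).1 with h | h
    · exact h
    · exfalso
      have h1 := hs κ hκ0 SC m z hO hP hsm2 (fun y _ => (hb y).1) heq hz h.symm (-1, π / 2) (hmem _)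
      rw [h1] at hlow
      exact lt_irrefl _ hlow
  -- (2)
  have hlt : ∀ z, m z < 1 := by
    intro z
    by_cases hz : z ∈ SC
    · rcases lt_or_eq_of_le (hb z).2.1 with h | h
      · exact h
      · exfalso
        have h1 := hs κ hκ0 SC (fun y => 1 - m y) z hO hP (contDiffOn_const.sub hsm2)
          (fun y _ => by linarith [(hb y).2.1])
          (fun y hy => by rw [LL_one_sub, heq y hy, neg_zero]) hz (by change 1 - m z = 0; linarith)
        obtain ⟨t, ht0, ht⟩ := exists_small (A := A) (δ := 1) hγ one_pos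
        have h2 := h1 (t, π / 2) (hmem t)
        have h3 := hA (t, π / 2) ht0
        have h4 : 1 - m (t, π / 2) = 0 := h2
        have h5 : m (t, π / 2) ≤ A * Real.exp (-(γ * t)) := h3
        linarith
    · rw [hoff z hz]; exact one_pos
  obtain ⟨hL1, hL2⟩ := LL_D hO hsm heq
  have hD1 := smoothD1 hO hsm
  have hD2 := smoothD2 hO hsm
  have hle2 : ((2 : ℕ∞) : WithTop ℕ∞) ≤ ∞ := WithTop.coe_le_coe.2 (le_top : (2 : ℕ∞) ≤ ⊤)
  -- (3)
  have hD1le : ∀ z ∈ SC, D1 m z ≤ 0 := by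
    rintro ⟨t, x⟩ hz
    have h1 := hasDerivAt1 (diffAt hO hsm hz)
    have h2 : Antitone (fun s => m (s, x)) := fun a b hab => hanti a b x hab
    have h3 := h2.deriv_nonpos (x := t)
    rw [h1.deriv] at h3
    exact h3
  have h3 : ∀ z ∈ SC, D1 m z < 0 := by
    intro z hz
    rcases lt_or_eq_of_le (hD1le z hz) with h | h
    · exact h
    · exfalso
      have h1 := hs κ hκ0 SC (fun y => - D1 m y) z hO hP ((hD1.of_le hle2).neg)
        (fun y hy => by linarith [hD1le y hy])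
        (fun y hy => by rw [LL_neg, hL1 y hy, neg_zero]) hz (by change - D1 m z = 0; linarith)
      obtain ⟨t, ht0, ht⟩ := exists_small (A := A) hγ hlow
      have h2 : m (t, π / 2) = m (-1, π / 2) := by
        apply is_const_of_deriv_eq_zero (f := fun s => m (s, π / 2))
        · intro s
          exact (hasDerivAt1 (diffAt hO hsm (hmem s))).differentiableAt
        · intro s
          rw [(hasDerivAt1 (diffAt hO hsm (hmem s))).deriv]
          have := h1 (s, π / 2) (hmem s)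
          have h4 : - D1 m (s, π / 2) = 0 := this
          linarith
      have h5 : m (t, π / 2) ≤ A * Real.exp (-(γ * t)) := hA (t, π / 2) ht0
      linarith
  refine ⟨hpos, hlt, h3, ?_⟩
  -- (4)
  let Q : Set (ℝ × ℝ) := {z | 0 < z.2 ∧ z.2 < π / 2}
  have hQO : IsOpen Q := (isOpen_lt continuous_const continuous_snd).inter
    (isOpen_lt continuous_snd continuous_const)
  have hQP : IsPreconnected Q := by
    apply Convex.isPreconnected
    have c1 : Convex ℝ {z : ℝ × ℝ | 0 < z.2} :=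
      convex_halfSpace_gt ⟨fun _ _ => rfl, fun _ _ => rfl⟩ 0
    have c2 : Convex ℝ {z : ℝ × ℝ | z.2 < π / 2} :=
      convex_halfSpace_lt ⟨fun _ _ => rfl, fun _ _ => rfl⟩ (π / 2)
    exact c1.inter c2
  have hQS : Q ⊆ SC := by
    rintro z ⟨h1, h2⟩
    right
    exact (Real.sin_pos_of_pos_of_lt_pi h1 (by linarith [Real.pi_pos])).ne'
  have hD2ge : ∀ z ∈ Q, 0 ≤ D2 m z := by
    rintro ⟨t, x⟩ hz
    have h1 := hasDerivAt2 (diffAt hO hsm (hQS hz))
    have hx0 : 0 < x := hz.1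
    have hx1 : x < π / 2 := hz.2
    have h2 : MonotoneOn (fun s => m (t, s)) (Icc 0 (π / 2)) :=
      fun a ha b hb' hab => hmono t a b ha.1 hab hb'.2
    have h4 := h1.hasDerivWithinAt (s := Icc 0 (π / 2))
    have h5 : UniqueDiffWithinAt ℝ (Icc 0 (π / 2)) x :=
      (uniqueDiffOn_Icc (by linarith)) x ⟨hx0.le, hx1.le⟩
    have h6 := h2.derivWithin_nonneg (x := x)
    rw [h4.derivWithin h5] at h6
    exact h6
  intro t x hx0 hx1
  have hz : ((t, x) : ℝ × ℝ) ∈ Q := ⟨hx0, hx1⟩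
  rcases lt_or_eq_of_le (hD2ge _ hz) with h | h
  · exact h
  · exfalso
    have h1 := hs κ hκ0 Q (D2 m) (t, x) hQO hQP ((hD2.of_le hle2).mono hQS) hD2ge
      (fun y hy => hL2 y (hQS hy)) hz h.symm
    have hpi := Real.pi_pos
    obtain ⟨c, hc, hc2⟩ := exists_deriv_eq_slope (fun s => m (1, s)) (a := 0) (b := π / 4)
      (by linarith) (by fun_prop) (by
        intro s hs'
        have : ((1, s) : ℝ × ℝ) ∈ SC := hQS ⟨hs'.1, by linarith [hs'.2]⟩
        exact (hasDerivAt2 (diffAt hO hsm this)).differentiableAt.differentiableWithinAt)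
    have hcQ : ((1, c) : ℝ × ℝ) ∈ Q := ⟨hc.1, by linarith [hc.2]⟩
    rw [(hasDerivAt2 (diffAt hO hsm (hQS hcQ))).deriv, h1 _ hcQ] at hc2
    have h0 : m (1, 0) = 0 := by
      apply hoff
      rintro (h' | h')
      · have : (1 : ℝ) < 0 := h'
        linarith
      · exact h' Real.sin_zero
    have h4 : 0 < m (1, π / 4) := by
      apply hpos
      exact hQS ⟨by change 0 < π / 4; linarith, by change π / 4 < π / 2; linarith⟩
    rw [h0, sub_zero, sub_zero] at hc2
    have h5 : 0 < m (1, π / 4) / (π / 4) := div_pos h4 (by linarith)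
    linarith

end Pool.Agent.Helper25.PCap
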