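import Pool.Agent.Helper25.PCap.GoalsS
import Pool.Agent.Helper25.PCap.GoalsTools

/-!
Packet S7 of MP_576c25_an (by helper53): reflection across the slit.
-/

set_option autoImplicit false

open MeasureTheory Set Filter Topology
open scoped ContDiff Real

noncomputable section

namespace Pool.Agent.Helper25.PCap

/-- PACKET S7 -/
theorem pkS7 (hr : GRefl) (hh : GHopf) : GS7 := by
  intro κ hκ0 hκ1 m hS hc hz hpos t₀ ht₀
  obtain ⟨-, hsm, heq, -⟩ := hS
  have hpi := Real.pi_gt_three
  set r := min t₀ 1 / 2 with hrdef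
  have hr0 : 0 < r := by
    have : 0 < min t₀ 1 := lt_min ht₀ one_pos
    rw [hrdef]; linarith
  have hrt : r < t₀ := by
    have : min t₀ 1 ≤ t₀ := min_le_left _ _
    rw [hrdef]; linarith
  have hr1 : r < 1 := by
    have : min t₀ 1 ≤ 1 := min_le_right _ _
    rw [hrdef]; linarith
  have hsub : box t₀ r ∩ {z | 0 < z.2} ⊆ SC := by
    intro z hz'
    obtain ⟨⟨h1, h2⟩, h3⟩ := hz'
    have h3' : 0 < z.2 := h3
    rw [abs_lt] at h2
    exact Or.inr (Real.sin_pos_of_pos_of_lt_pi h3' (by linarith [h2.2])).ne'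
  obtain ⟨mt, hmt, hmteq, hmtm⟩ := hr κ hκ0 hκ1 t₀ r m hr0 hc.continuousOn
    (by
      intro z hzb hz2
      apply hz
      intro hsc
      rcases hsc with h | h
      · have := (abs_lt.mp hzb.1).1
        linarith
      · exact h (by rw [hz2]; exact Real.sin_zero))
    (hsm.mono hsub) (fun z hzb => heq z (hsub hzb))
  have hmem : (t₀, (0 : ℝ)) ∈ box t₀ r := by
    constructor <;> simpa using hr0
  have hopen : IsOpen (box t₀ r) := by
    have e : box t₀ r = {z : ℝ × ℝ | |z.1 - t₀| < r} ∩ {z : ℝ × ℝ | |z.2| < r} := rfl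
    rw [e]
    exact (isOpen_lt (by fun_prop) continuous_const).inter (isOpen_lt (by fun_prop) continuous_const)
  refine ⟨box t₀ r, mt, hopen, hmem, hmt, hmteq, hmtm, ?_⟩
  apply hh κ hκ0 t₀ r mt 1 hr0 (hmt.of_le (WithTop.coe_le_coe.mpr le_top))
  · intro z hzb
    have h1 := hmteq z hzb
    rw [LL] at h1
    have h2 : D1 (D1 mt) z + κ * D2 (D2 mt) z = (1 - κ) * D1 mt z := by linarith
    rw [h2, abs_mul, abs_of_pos (by linarith : 0 < 1 - κ)]
    nlinarith [abs_nonneg (D1 mt z), abs_nonneg (D2 mt z)]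
  · intro z hzb hz2
    rw [hmtm z hzb hz2.le]
    exact hpos z (hsub ⟨hzb, hz2⟩)
  · rw [hmtm _ hmem le_rfl]
    apply hz
    intro hsc
    rcases hsc with h | h
    · simp only at h; linarith
    · exact h Real.sin_zero

end Pool.Agent.Helper25.PCap
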