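import Pool.Agent.Helper25.PCap.GoalsF
import Pool.Agent.Helper25.PCap.GoalsS
import Pool.Agent.Helper10.PCap.Basic

/-!
Packet S9 of MP_576c25_an (by helper5): Fourier coefficients of the slit function.
-/

set_option autoImplicit false

open MeasureTheory Set Filter Topology
open scoped ContDiff Real

noncomputable section

namespace Pool.Agent.Helper25.PCap

namespace S9

theorem sin_zero {g : ℝ → ℝ} (hper : ∀ x, g (x + π) = g x) (heven : ∀ x, g (-x) = g x)
    (n : ℕ) : ∫ x in (0 : ℝ)..(2 * π), g x * Real.sin (n * x) = 0 := by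
  have h1 : ∫ x in (0 : ℝ)..(2 * π), g (2 * π - x) * Real.sin (n * (2 * π - x)) =
      ∫ x in (0 : ℝ)..(2 * π), g x * Real.sin (n * x) := by
    have := intervalIntegral.integral_comp_sub_left (a := (0 : ℝ)) (b := 2 * π)
      (fun x => g x * Real.sin (n * x)) (2 * π)
    simpa using this
  have h2 : ∀ x : ℝ, g (2 * π - x) * Real.sin (n * (2 * π - x)) = -(g x * Real.sin (n * x)) := by
    intro x
    have e1 : g (2 * π - x) = g x := by
      have : 2 * π - x = -x + π + π := by ring
      rw [this, hper, hper, heven]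
    have e2 : Real.sin (n * (2 * π - x)) = -Real.sin (n * x) := by
      have : (n : ℝ) * (2 * π - x) = n * (2 * π) - n * x := by ring
      rw [this, Real.sin_nat_mul_two_pi_sub]
    rw [e1, e2]
    ring
  simp_rw [h2] at h1
  rw [intervalIntegral.integral_neg] at h1
  linarith

theorem cos_odd {g : ℝ → ℝ} (hg : Continuous g) (hper : ∀ x, g (x + π) = g x)
    {n : ℕ} (hn : Odd n) : ∫ x in (0 : ℝ)..(2 * π), g x * Real.cos (n * x) = 0 := by
  have hc : Continuous fun x => g x * Real.cos (n * x) := by fun_prop
  have h1 : ∫ x in (0 : ℝ)..(2 * π), g x * Real.cos (n * x) =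
      (∫ x in (0 : ℝ)..π, g x * Real.cos (n * x)) + ∫ x in π..(2 * π), g x * Real.cos (n * x) :=
    (intervalIntegral.integral_add_adjacent_intervals (hc.intervalIntegrable _ _)
      (hc.intervalIntegrable _ _)).symm
  have h2 : ∫ x in π..(2 * π), g x * Real.cos (n * x) =
      ∫ x in (0 : ℝ)..π, g (x + π) * Real.cos (n * (x + π)) := by
    have := intervalIntegral.integral_comp_add_right (a := (0 : ℝ)) (b := π)
      (fun x => g x * Real.cos (n * x)) π
    rw [this]
    congr 1 <;> ring
  have h3 : ∀ x : ℝ, g (x + π) * Real.cos (n * (x + π)) = -(g x * Real.cos (n * x)) := by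
    intro x
    have e : Real.cos (n * (x + π)) = -Real.cos (n * x) := by
      obtain ⟨k, hk⟩ := hn
      have : (n : ℝ) * (x + π) = n * x + π + k * (2 * π) := by
        rw [hk]; push_cast; ring
      rw [this, Real.cos_add_nat_mul_two_pi, Real.cos_add_pi]
    rw [hper, e]
    ring
  rw [h1, h2]
  simp_rw [h3]
  rw [intervalIntegral.integral_neg]
  ring

theorem cos_two {g : ℝ → ℝ} (hg : Continuous g) (hper : ∀ x, g (x + π) = g x)
    (heven : ∀ x, g (-x) = g x)
    (hmon : ∀ x y, 0 ≤ x → x < y → y ≤ π / 2 → g y < g x) :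
    0 < ∫ x in (0 : ℝ)..(2 * π), g x * Real.cos (2 * x) := by
  have hpi := Real.pi_pos
  have hc : Continuous fun x => g x * Real.cos (2 * x) := by fun_prop
  set f : ℝ → ℝ := fun x => g x * Real.cos (2 * x) with hf
  have fper : ∀ x, f (x + π) = f x := by
    intro x
    simp only [hf]
    rw [hper]
    have : 2 * (x + π) = 2 * x + 2 * π := by ring
    rw [this, Real.cos_add_two_pi]
  have feven : ∀ x, f (-x) = f x := by
    intro x
    simp only [hf]
    rw [heven]
    have : 2 * (-x) = -(2 * x) := by ring
    rw [this, Real.cos_neg]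
  have h1 : ∫ x in (0 : ℝ)..(2 * π), f x = 2 * ∫ x in (0 : ℝ)..π, f x := by
    rw [← intervalIntegral.integral_add_adjacent_intervals (b := π) (hc.intervalIntegrable _ _)
      (hc.intervalIntegrable _ _)]
    have := intervalIntegral.integral_comp_add_right (a := (0 : ℝ)) (b := π) f π
    simp_rw [fper] at this
    have e : ∫ x in (0 + π)..(π + π), f x = ∫ x in π..(2 * π), f x := by
      congr 1 <;> ring
    rw [← e, ← this]
    ring
  have h2 : ∫ x in (0 : ℝ)..π, f x = 2 * ∫ x in (0 : ℝ)..(π / 2), f x := by
    rw [← intervalIntegral.integral_add_adjacent_intervals (b := π / 2)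
      (hc.intervalIntegrable _ _) (hc.intervalIntegrable _ _)]
    have := intervalIntegral.integral_comp_sub_left (a := (0 : ℝ)) (b := π / 2) f π
    have e0 : ∀ x, f (π - x) = f x := by
      intro x
      have : π - x = -x + π := by ring
      rw [this, fper, feven]
    simp_rw [e0] at this
    have e : ∫ x in (π - π / 2)..(π - 0), f x = ∫ x in (π / 2)..π, f x := by
      congr 1 <;> ring
    rw [← e, ← this]
    ring
  have h3 : ∫ x in (0 : ℝ)..(π / 2), f x =
      ∫ x in (0 : ℝ)..(π / 4), (g x - g (π / 2 - x)) * Real.cos (2 * x) := by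
    rw [← intervalIntegral.integral_add_adjacent_intervals (b := π / 4)
      (hc.intervalIntegrable _ _) (hc.intervalIntegrable _ _)]
    have := intervalIntegral.integral_comp_sub_left (a := (0 : ℝ)) (b := π / 4) f (π / 2)
    have e : ∫ x in (π / 2 - π / 4)..(π / 2 - 0), f x = ∫ x in (π / 4)..(π / 2), f x := by
      congr 1 <;> ring
    rw [← e, ← this, ← intervalIntegral.integral_add]
    · apply intervalIntegral.integral_congr
      intro x _
      simp only [hf]
      have : 2 * (π / 2 - x) = π - 2 * x := by ring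
      rw [this, Real.cos_pi_sub]
      ring
    · exact hc.intervalIntegrable _ _
    · exact Continuous.intervalIntegrable (by fun_prop) _ _
  rw [h1, h2, h3]
  have h4 : 0 < ∫ x in (0 : ℝ)..(π / 4), (g x - g (π / 2 - x)) * Real.cos (2 * x) := by
    apply intervalIntegral.intervalIntegral_pos_of_pos_on
    · exact Continuous.intervalIntegrable (by fun_prop) _ _
    · intro x hx
      apply mul_pos
      · have := hmon x (π / 2 - x) hx.1.le (by linarith [hx.2]) (by linarith [hx.1])
        linarith
      · apply Real.cos_pos_of_mem_Ioo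
        constructor <;> linarith [hx.1, hx.2]
    · positivity
  linarith

/-- the coefficients without the zero mode -/
def cut (c : ℕ → ℂ) (n : ℕ) : ℂ := if n = 0 then 0 else c n

theorem md_cut_re (c : ℕ → ℂ) (n : ℕ) (θ : ℝ) :
    (md (cut c) n θ).re = if n = 0 then 0 else (md c n θ).re := by
  unfold md cut
  split_ifs <;> simp

theorem md_cut_im (c : ℕ → ℂ) (n : ℕ) (θ : ℝ) :
    (md (cut c) n θ).im = if n = 0 then 0 else (md c n θ).im := by
  unfold md cut
  split_ifs <;> simp

end S9

open S9 in
theorem pkS9 (h0 : GExpo) (hf : GF2) : GS9 := by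
  intro κ hκ hκ1 S
  have hpi := Real.pi_pos
  have hε : 0 < 1 - κ := by linarith
  obtain ⟨ha0, -⟩ := h0 κ hκ hκ1
  have hO : IsOpen {z : ℝ × ℝ | z.1 < 0} := isOpen_lt continuous_fst continuous_const
  have hsm : ContDiffOn ℝ ∞ S.u {z | z.1 < 0} := S.smooth.mono fun z hz => Or.inl hz
  have hdec : DecSol κ S.u 0 := by
    refine ⟨hsm, fun z hz => S.eq z (Or.inl hz), ?_, 1, 1 - κ, hε, ?_⟩
    · intro τ θ
      have : θ + 2 * π = θ + π + π := by ring
      rw [this, S.per, S.per]
    · intro z _
      rw [abs_of_pos (S.pos z), one_mul]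
      exact S.upper z
  obtain ⟨c, hc0, hre, him, hm, hs⟩ := hf κ hκ hκ1 S.u 0 hdec
  have hcont : ∀ τ : ℝ, Continuous fun θ => S.u (τ, θ) := fun τ =>
    S.cont.comp (by fun_prop)
  have him0 : ∀ n, (c n).im = 0 := by
    intro n
    rcases Nat.eq_zero_or_pos n with rfl | hn
    · exact hc0
    · have h1 := him n hn (-1) (by norm_num)
      rw [sin_zero (g := fun θ => S.u (-1, θ)) (fun x => S.per _ _) (fun x => S.even _ _) n,
        mul_zero] at h1
      exact (mul_eq_zero.1 h1).resolve_right (Real.exp_pos _).ne'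
  have hodd : ∀ n, Odd n → c n = 0 := by
    intro n hn
    have hn1 : 1 ≤ n := hn.pos
    have h1 := hre n hn1 (-1) (by norm_num)
    rw [cos_odd (g := fun θ => S.u (-1, θ)) (hcont _) (fun x => S.per _ _) hn, mul_zero] at h1
    apply Complex.ext
    · simpa using (mul_eq_zero.1 h1).resolve_right (Real.exp_pos _).ne'
    · simpa using him0 n
  have hmon : ∀ x y : ℝ, 0 ≤ x → x < y → y ≤ π / 2 → S.u (-1, y) < S.u (-1, x) := by
    have hanti : StrictAntiOn (fun θ => S.u (-1, θ)) (Icc 0 (π / 2)) := by
      apply strictAntiOn_of_deriv_neg (convex_Icc _ _) (hcont _).continuousOn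
      intro x hx
      rw [interior_Icc] at hx
      have hd : DifferentiableAt ℝ S.u (-1, x) :=
        Pool.Agent.Helper10.PCap.diffAt hO hsm (by simp)
      rw [(Pool.Agent.Helper10.PCap.hasDerivAt2 hd).deriv]
      exact S.uneg _ _ hx.1 hx.2
    intro x y hx hxy hy
    exact hanti ⟨hx, by linarith⟩ ⟨by linarith, hy⟩ hxy
  have hc2 : 0 < (c 2).re := by
    have h1 := hre 2 (by norm_num) (-1) (by norm_num)
    have h2 := cos_two (g := fun θ => S.u (-1, θ)) (hcont _) (fun x => S.per _ _)
      (fun x => S.even _ _) hmon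
    have h3 : 0 < (c 2).re * Real.exp (aa κ 2 * (-1)) := by
      rw [h1]
      apply mul_pos (by positivity)
      simpa using h2
    exact pos_of_mul_pos_left h3 (Real.exp_pos _).le
  have hcz : c 0 = (S.C0 : ℂ) := by
    have h1 := hm (-1) (by norm_num)
    rw [S.mean (-1) (by norm_num)] at h1
    have h2 : (c 0).re = S.C0 := by
      apply mul_right_cancel₀ (Real.exp_pos ((1 - κ) * (-1))).ne'
      rw [h1]
      field_simp
    apply Complex.ext
    · simpa using h2
    · simpa using hc0
  have hmd0 : ∀ θ, (md c 0 θ).re = S.C0 := by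
    intro θ
    simp [md, hcz]
  have hcong : ∀ f g : ℕ → ℝ, (∀ n, f n = g n) → ∀ a : ℝ, HasSum g a → HasSum f a := by
    intro f g h a hg
    rwa [funext h]
  refine ⟨cut c, by simp [cut], ?_, ?_, ?_, ?_, ?_⟩
  · simp only [cut, one_ne_zero, if_false]
    exact hodd 1 (by decide)
  · intro n hn
    have : n ≠ 0 := by rintro rfl; exact absurd hn (by decide)
    simp only [cut, this, if_false]
    exact hodd n hn
  · intro n
    unfold cut
    split_ifs
    · simp
    · exact him0 n
  · simpa [cut] using hc2
  · intro τ₁ hτ₁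
    obtain ⟨hS, hx⟩ := hs τ₁ hτ₁
    refine ⟨?_, ?_⟩
    · refine Summable.of_nonneg_of_le (fun n => by positivity) (fun n => ?_) hS
      apply mul_le_mul_of_nonneg_right _ (Real.exp_pos _).le
      apply mul_le_mul_of_nonneg_left _ (by positivity)
      unfold cut
      split_ifs
      · simp
      · exact le_rfl
    · intro τ θ hτ
      obtain ⟨h1, h2, h3, h4, -⟩ := hx τ θ hτ
      refine ⟨?_, ?_, ?_, ?_⟩
      · have := hasSum_ite_sub_hasSum h1 0
        rw [hmd0, ha0] at this
        refine hcong _ _ (fun n => ?_) _ this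
        rw [md_cut_re]
        split_ifs <;> simp
      · have := hasSum_ite_sub_hasSum h2 0
        rw [hmd0, ha0] at this
        refine hcong _ _ (fun n => ?_) _ this
        rw [md_cut_re]
        split_ifs <;> simp
      · have := hasSum_ite_sub_hasSum h3 0
        simp only [Nat.cast_zero, zero_mul, neg_zero, sub_zero] at this
        refine hcong _ _ (fun n => ?_) _ this
        rw [md_cut_im]
        split_ifs <;> simp
      · have := hasSum_ite_sub_hasSum h4 0
        rw [hmd0, ha0] at this
        refine hcong _ _ (fun n => ?_) _ this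
        rw [md_cut_re]
        split_ifs <;> simp

end Pool.Agent.Helper25.PCap
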