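import Pool.Agent.Helper25.PCap.GoalsFin

/-!
PACKET SUP (MP_576c25_an): smooth strictly convex outer approximation of a bounded convex set
through support functions.
-/

set_option autoImplicit false

open MeasureTheory Set Filter Topology
open scoped ContDiff Real Convolution

noncomputable section

namespace Pool.Agent.Helper25.PCap

namespace PkSUP

lemma nu0 (θ : ℝ) : nuE θ 0 = Real.cos θ := by
  simp [nuE]

lemma nu1 (θ : ℝ) : nuE θ 1 = Real.sin θ := by
  simp [nuE]

lemma inner_nu (x : E2) (θ : ℝ) :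
    inner ℝ x (nuE θ) = x 0 * Real.cos θ + x 1 * Real.sin θ := by
  rw [PiLp.inner_apply, Fin.sum_univ_two, nu0, nu1]
  simp only [RCLike.inner_apply, conj_trivial]
  ring

lemma norm_sq' (x : E2) : ‖x‖ ^ 2 = x 0 ^ 2 + x 1 ^ 2 := by
  rw [EuclideanSpace.norm_sq_eq, Fin.sum_univ_two]
  simp

lemma norm_nu (θ : ℝ) : ‖nuE θ‖ = 1 := by
  have h : ‖nuE θ‖ ^ 2 = 1 := by
    rw [norm_sq', nu0, nu1]; exact Real.cos_sq_add_sin_sq θ
  have h0 := norm_nonneg (nuE θ)
  nlinarith

lemma nu_add (θ t : ℝ) : nuE (θ + t) + nuE (θ - t) = (2 * Real.cos t) • nuE θ := by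
  ext i
  fin_cases i
  · simp only [Fin.zero_eta, PiLp.add_apply, PiLp.smul_apply, nu0, smul_eq_mul,
      Real.cos_add, Real.cos_sub]
    ring
  · simp only [Fin.mk_one, PiLp.add_apply, PiLp.smul_apply, nu1, smul_eq_mul,
      Real.sin_add, Real.sin_sub]
    ring

lemma nu_per (θ : ℝ) : nuE (θ + 2 * π) = nuE θ := by
  simp [nuE]

lemma nu_lip (θ θ' : ℝ) : ‖nuE θ - nuE θ'‖ ≤ |θ - θ'| := by
  have h : ‖nuE θ - nuE θ'‖ ^ 2 ≤ |θ - θ'| ^ 2 := by
    rw [norm_sq', PiLp.sub_apply, PiLp.sub_apply, nu0, nu1, nu0, nu1, sq_abs]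
    have h1 := Real.one_sub_sq_div_two_le_cos (x := θ - θ')
    rw [Real.cos_sub] at h1
    nlinarith [Real.cos_sq_add_sin_sq θ, Real.cos_sq_add_sin_sq θ']
  exact (sq_le_sq₀ (norm_nonneg _) (abs_nonneg _)).1 h

lemma exists_nu (v : E2) (hv : ‖v‖ = 1) : ∃ θ, nuE θ = v := by
  have h2 : v 0 ^ 2 + v 1 ^ 2 = 1 := by rw [← norm_sq', hv]; norm_num
  set z : ℂ := ⟨v 0, v 1⟩ with hz
  have hz1 : ‖z‖ = 1 := by
    have h3 : ‖z‖ ^ 2 = 1 := by
      rw [← Complex.normSq_eq_norm_sq, Complex.normSq_apply]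
      simp only [hz]
      linarith
    have h0 := norm_nonneg z
    nlinarith
  have hz0 : z ≠ 0 := by
    intro h; rw [h, norm_zero] at hz1; exact zero_ne_one hz1
  refine ⟨Complex.arg z, ?_⟩
  ext i
  fin_cases i
  · simp only [Fin.zero_eta, nu0]
    rw [Complex.cos_arg hz0, hz1]; simp [hz]
  · simp only [Fin.mk_one, nu1]
    rw [Complex.sin_arg, hz1]; simp [hz]

variable {Ω : Set E2}

lemma bdd {R : ℝ} (hR : ∀ x ∈ Ω, ‖x‖ ≤ R) (θ : ℝ) :
    BddAbove ((fun x : E2 => inner ℝ x (nuE θ)) '' Ω) := by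
  refine ⟨R, ?_⟩
  rintro _ ⟨x, hx, rfl⟩
  have h := real_inner_le_norm x (nuE θ)
  rw [norm_nu, mul_one] at h
  exact h.trans (hR x hx)

lemma le_hE {R : ℝ} (hR : ∀ x ∈ Ω, ‖x‖ ≤ R) {x : E2} (hx : x ∈ Ω) (θ : ℝ) :
    inner ℝ x (nuE θ) ≤ hE Ω θ :=
  le_csSup (bdd hR θ) ⟨x, hx, rfl⟩

lemma hE_le (hne : Ω.Nonempty) {θ c : ℝ} (h : ∀ x ∈ Ω, inner ℝ x (nuE θ) ≤ c) :
    hE Ω θ ≤ c := by
  refine csSup_le (hne.image _) ?_
  rintro _ ⟨x, hx, rfl⟩
  exact h x hx

lemma hE_lip1 {R : ℝ} (hne : Ω.Nonempty) (hR : ∀ x ∈ Ω, ‖x‖ ≤ R) (θ θ' : ℝ) :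
    hE Ω θ ≤ hE Ω θ' + R * |θ - θ'| := by
  refine hE_le hne fun x hx => ?_
  have h1 : (inner ℝ x (nuE θ) : ℝ) = inner ℝ x (nuE θ') + inner ℝ x (nuE θ - nuE θ') := by
    rw [inner_sub_right]; ring
  have h2 := real_inner_le_norm x (nuE θ - nuE θ')
  have h3 : ‖x‖ * ‖nuE θ - nuE θ'‖ ≤ R * |θ - θ'| :=
    mul_le_mul (hR x hx) (nu_lip θ θ') (norm_nonneg _) ((norm_nonneg x).trans (hR x hx))
  have h4 := le_hE hR hx θ'
  linarith

lemma hE_lip {R : ℝ} (hne : Ω.Nonempty) (hR : ∀ x ∈ Ω, ‖x‖ ≤ R) (θ θ' : ℝ) :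
    |hE Ω θ - hE Ω θ'| ≤ R * |θ - θ'| := by
  rw [abs_le]
  have h1 := hE_lip1 hne hR θ θ'
  have h2 := hE_lip1 hne hR θ' θ
  rw [abs_sub_comm] at h2
  constructor <;> linarith

lemma hE_three {R : ℝ} (hne : Ω.Nonempty) (hR : ∀ x ∈ Ω, ‖x‖ ≤ R) {θ t : ℝ}
    (ht : 0 < Real.cos t) :
    2 * Real.cos t * hE Ω θ ≤ hE Ω (θ + t) + hE Ω (θ - t) := by
  have h : hE Ω θ ≤ (hE Ω (θ + t) + hE Ω (θ - t)) / (2 * Real.cos t) := by
    refine hE_le hne fun x hx => ?_
    rw [le_div_iff₀ (by positivity)]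
    have h1 : (inner ℝ x (nuE θ) : ℝ) * (2 * Real.cos t) =
        inner ℝ x (nuE (θ + t)) + inner ℝ x (nuE (θ - t)) := by
      rw [← inner_add_right, nu_add, inner_smul_right]; ring
    rw [h1]
    exact add_le_add (le_hE hR hx _) (le_hE hR hx _)
  rw [le_div_iff₀ (by positivity)] at h
  linarith

/-- second difference test -/
lemma second {f : ℝ → ℝ} (hf : ContDiff ℝ ∞ f) (θ : ℝ)
    (h : ∀ t, 0 < Real.cos t → 2 * Real.cos t * f θ ≤ f (θ + t) + f (θ - t)) :
    0 ≤ f θ + deriv (deriv f) θ := by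
  by_contra hneg
  push Not at hneg
  have hd : Differentiable ℝ f := hf.differentiable (by norm_num)
  have hf1 : ContDiff ℝ ∞ (deriv f) := by
    exact (contDiff_infty_iff_deriv.1 hf).2
  have hd1 : Differentiable ℝ (deriv f) := hf1.differentiable (by norm_num)
  set g : ℝ → ℝ := fun t => f (θ + t) + f (θ - t) - 2 * Real.cos t * f θ with hg
  have e1 : ∀ t, HasDerivAt g (deriv f (θ + t) - deriv f (θ - t) + 2 * Real.sin t * f θ) t := by
    intro t
    have a1 : HasDerivAt (fun t : ℝ => f (θ + t)) (deriv f (θ + t)) t :=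
      HasDerivAt.comp_const_add θ t (hd (θ + t)).hasDerivAt
    have a2 : HasDerivAt (fun t : ℝ => f (θ - t)) (-deriv f (θ - t)) t :=
      HasDerivAt.comp_const_sub θ t (hd (θ - t)).hasDerivAt
    have a3 : HasDerivAt (fun t : ℝ => 2 * Real.cos t * f θ) (2 * (-Real.sin t) * f θ) t :=
      ((Real.hasDerivAt_cos t).const_mul 2).mul_const (f θ)
    exact ((a1.add a2).sub a3).congr_deriv (by ring)
  have e1' : deriv g = fun t => deriv f (θ + t) - deriv f (θ - t) + 2 * Real.sin t * f θ := by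
    funext t; exact (e1 t).deriv
  have e2 : HasDerivAt (deriv g) (2 * (f θ + deriv (deriv f) θ)) 0 := by
    rw [e1']
    have a1 : HasDerivAt (fun t : ℝ => deriv f (θ + t)) (deriv (deriv f) (θ + 0)) 0 :=
      HasDerivAt.comp_const_add θ 0 (hd1 (θ + 0)).hasDerivAt
    have a2 : HasDerivAt (fun t : ℝ => deriv f (θ - t)) (-deriv (deriv f) (θ - 0)) 0 :=
      HasDerivAt.comp_const_sub θ 0 (hd1 (θ - 0)).hasDerivAt
    have a3 : HasDerivAt (fun t : ℝ => 2 * Real.sin t * f θ) (2 * (Real.cos 0) * f θ) 0 :=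
      ((Real.hasDerivAt_sin 0).const_mul 2).mul_const (f θ)
    refine ((a1.sub a2).add a3).congr_deriv ?_
    rw [Real.cos_zero, add_zero, sub_zero]
    ring
  have hg0 : g 0 = 0 := by simp only [hg]; rw [add_zero, sub_zero, Real.cos_zero]; ring
  have hmax : IsLocalMax g 0 := by
    apply isLocalMax_of_deriv_deriv_neg
    · rw [e2.deriv]; linarith
    · rw [e1']; simp
    · exact (e1 0).continuousAt
  have hcos : ∀ᶠ t in 𝓝 (0 : ℝ), 0 < Real.cos t := by
    have := Real.continuous_cos.continuousAt (x := (0 : ℝ))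
    exact this.eventually (lt_mem_nhds (by rw [Real.cos_zero]; norm_num))
  have hzero : g =ᶠ[𝓝 0] fun _ => (0 : ℝ) := by
    filter_upwards [hmax, hcos] with t ht1 ht2
    rw [hg0] at ht1
    have := h t ht2
    simp only [hg] at ht1 ⊢
    linarith
  have h2 : deriv (deriv g) 0 = 0 := by
    have h3 : deriv g =ᶠ[𝓝 0] deriv (fun _ : ℝ => (0 : ℝ)) := hzero.deriv
    rw [h3.deriv_eq]
    simp
  rw [e2.deriv] at h2
  linarith

end PkSUP

open PkSUP in
theorem pkSupp : GSupp := by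
  intro Ω hne hb hconv
  obtain ⟨R₀, hR₀⟩ := hb.exists_norm_le
  set R := max R₀ 0 with hRdef
  have hR : ∀ x ∈ Ω, ‖x‖ ≤ R := fun x hx => (hR₀ x hx).trans (le_max_left _ _)
  have hR0 : 0 ≤ R := le_max_right _ _
  have hlip := hE_lip hne hR
  have hcont : Continuous (hE Ω) := by
    rw [Metric.continuous_iff]
    intro θ ε hε
    refine ⟨ε / (R + 1), by positivity, fun θ' hθ' => ?_⟩
    rw [Real.dist_eq] at hθ' ⊢
    have h1 := hlip θ' θ
    have h2 : |θ' - θ| * (R + 1) < ε := (lt_div_iff₀ (by positivity)).1 hθ'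
    nlinarith [abs_nonneg (θ' - θ)]
  have hper : ∀ θ, hE Ω (θ + 2 * π) = hE Ω θ := by
    intro θ; simp only [hE, nu_per]
  refine ⟨hcont, hper, ?_, ?_⟩
  · intro ζ hζ
    set σ : ℝ := ζ / (4 * (R + 1)) with hσ
    have hσ0 : 0 < σ := by positivity
    let φ : ContDiffBump (0 : ℝ) := ⟨σ / 2, σ, by positivity, by linarith⟩
    set b : ℝ → ℝ := φ.normed volume with hbdef
    set Hs : ℝ → ℝ := fun θ => ∫ s, b s * hE Ω (θ - s) with hHs
    have hconvo : Hs = (b ⋆[ContinuousLinearMap.lsmul ℝ ℝ, volume] (hE Ω)) := by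
      funext θ
      simp [hHs, MeasureTheory.convolution]
    have hbs : HasCompactSupport b := φ.hasCompactSupport_normed
    have hbc : ContDiff ℝ ∞ b := φ.contDiff_normed
    have hb0 : ∀ s, 0 ≤ b s := fun s => φ.nonneg_normed s
    have hsm : ContDiff ℝ ∞ Hs := by
      rw [hconvo]
      exact hbs.contDiff_convolution_left _ hbc hcont.locallyIntegrable
    have hint : ∀ θ, Integrable (fun s => b s * hE Ω (θ - s)) := by
      intro θ
      have hc : Continuous (fun s => b s * hE Ω (θ - s)) :=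
        hbc.continuous.mul (hcont.comp (continuous_const.sub continuous_id))
      exact hc.integrable_of_hasCompactSupport (hbs.mul_right)
    have hclose : ∀ θ, |Hs θ - hE Ω θ| ≤ ζ / 4 := by
      intro θ
      rw [hconvo, ← Real.dist_eq]
      apply ContDiffBump.dist_normed_convolution_le
      · exact hcont.aestronglyMeasurable
      · intro x hx
        rw [Metric.mem_ball, Real.dist_eq] at hx
        rw [Real.dist_eq]
        have h1 := hlip x θ
        have h2 : |x - θ| < σ := hx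
        have h3 : R * |x - θ| ≤ R * σ := mul_le_mul_of_nonneg_left h2.le hR0
        have h4 : R * σ ≤ ζ / 4 := by
          have h5 : (R + 1) * σ = ζ / 4 := by rw [hσ]; field_simp
          nlinarith
        linarith
    have hthree : ∀ θ t, 0 < Real.cos t → 2 * Real.cos t * Hs θ ≤ Hs (θ + t) + Hs (θ - t) := by
      intro θ t ht
      simp only [hHs]
      rw [← integral_const_mul, ← integral_add (hint _) (hint _)]
      apply integral_mono ((hint θ).const_mul _) ((hint _).add (hint _))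
      intro s
      have h1 := hE_three hne hR (θ := θ - s) (t := t) ht
      have e1 : θ - s + t = θ + t - s := by ring
      have e2 : θ - s - t = θ - t - s := by ring
      rw [e1, e2] at h1
      have h2 := mul_le_mul_of_nonneg_left h1 (hb0 s)
      simp only [Pi.add_apply]
      nlinarith
    refine ⟨fun θ => Hs θ + ζ / 2, hsm.add contDiff_const, ?_, ?_, ?_⟩
    · intro θ
      simp only [hHs]
      congr 1
      congr 1
      funext s
      have e1 : θ + 2 * π - s = (θ - s) + 2 * π := by ring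
      rw [e1, hper]
    · intro θ
      have h1 := second hsm θ (fun t ht => hthree θ t ht)
      have e1 : deriv (fun θ => Hs θ + ζ / 2) = deriv Hs := by
        funext x; exact deriv_add_const (f := Hs) (ζ / 2)
      simp only [rho, e1]
      linarith
    · intro θ
      have h1 := abs_le.1 (hclose θ)
      constructor <;> simp only <;> linarith [h1.1, h1.2]
  · intro ζ y hζ hy
    have hcne : (closure Ω).Nonempty := hne.closure
    obtain ⟨y', hy', hmin⟩ := exists_norm_eq_iInf_of_complete_convex hcne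
      isClosed_closure.isComplete hconv.closure y
    refine ⟨y', hy', ?_⟩
    by_contra hgt
    push Not at hgt
    rw [dist_eq_norm] at hgt
    have hd : 0 < ‖y - y'‖ := lt_of_le_of_lt hζ hgt
    have hin := (norm_eq_iInf_iff_real_inner_le_zero hconv.closure hy').1 hmin
    obtain ⟨θ, hθ⟩ := exists_nu (‖y - y'‖⁻¹ • (y - y')) (by
      rw [norm_smul, norm_inv, norm_norm, inv_mul_cancel₀ hd.ne'])
    have h1 : hE Ω θ ≤ inner ℝ y' (nuE θ) := by
      refine hE_le hne fun x hx => ?_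
      have h2 := hin x (subset_closure hx)
      have h3 : (inner ℝ x (nuE θ) : ℝ) - inner ℝ y' (nuE θ) ≤ 0 := by
        rw [← inner_sub_left, hθ, inner_smul_right, real_inner_comm]
        exact mul_nonpos_of_nonneg_of_nonpos (by positivity) h2
      linarith
    have h4 : (inner ℝ y (nuE θ) : ℝ) = inner ℝ y' (nuE θ) + ‖y - y'‖ := by
      have h5 : (inner ℝ (y - y') (nuE θ) : ℝ) = ‖y - y'‖ := by
        rw [hθ, inner_smul_right, real_inner_self_eq_norm_sq, sq, ← mul_assoc,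
          inv_mul_cancel₀ hd.ne', one_mul]
      rw [inner_sub_left] at h5
      linarith
    have h6 := hy θ
    linarith

end Pool.Agent.Helper25.PCap
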