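import Pool.Agent.Helper25.PCap.GoalsFin

/-!
Planar p-capacity (MP_576c25_an): packet TR, transfer between `E2` and `ℝ × ℝ`.
-/

set_option autoImplicit false

open MeasureTheory Set Filter Topology
open scoped ContDiff Real

noncomputable section

namespace Pool.Agent.Helper25.PCap

namespace TR

/-- `ofE` as a continuous linear equivalence -/
def eqv : E2 ≃L[ℝ] ℝ × ℝ :=
  (EuclideanSpace.equiv (Fin 2) ℝ).trans (ContinuousLinearEquiv.finTwoArrow ℝ ℝ)

theorem eqv_apply (y : E2) : eqv y = ofE y := rfl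

theorem ofE_toE (x : ℝ × ℝ) : ofE (toE x) = x := by
  simp [ofE, toE]

theorem toE_ofE (y : E2) : toE (ofE y) = y := by
  ext i
  fin_cases i <;> simp [ofE, toE]

theorem eqv_symm_apply (x : ℝ × ℝ) : eqv.symm x = toE x := by
  rw [ContinuousLinearEquiv.symm_apply_eq, eqv_apply, ofE_toE]

theorem mp_of : MeasurePreserving ofE := by
  have h1 := EuclideanSpace.volume_preserving_symm_measurableEquiv_toLp (Fin 2)
  have h2 := volume_preserving_finTwoArrow ℝ
  exact h2.comp h1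

theorem me_of : MeasurableEmbedding ofE := by
  have : MeasurableEmbedding (eqv.toHomeomorph : E2 → ℝ × ℝ) :=
    eqv.toHomeomorph.measurableEmbedding
  exact this

theorem toE_10 : toE (1, 0) = EuclideanSpace.single (0 : Fin 2) (1 : ℝ) := by
  simp [toE]

theorem toE_01 : toE (0, 1) = EuclideanSpace.single (1 : Fin 2) (1 : ℝ) := by
  simp [toE]

theorem norm_L (L : E2 →L[ℝ] ℝ) :
    ‖L‖ = Real.sqrt ((L (toE (1, 0))) ^ 2 + (L (toE (0, 1))) ^ 2) := by
  have h1 : ‖(InnerProductSpace.toDual ℝ E2).symm L‖ = ‖L‖ :=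
    LinearIsometryEquiv.norm_map _ _
  rw [← h1, EuclideanSpace.norm_eq]
  congr 1
  have h2 : ∀ x, inner ℝ ((InnerProductSpace.toDual ℝ E2).symm L) x = L x := fun x =>
    InnerProductSpace.toDual_symm_apply
  rw [← h2, ← h2, toE_10, toE_01, EuclideanSpace.inner_single_right,
    EuclideanSpace.inner_single_right]
  simp [Fin.sum_univ_two]

theorem norm_L_rpow (L : E2 →L[ℝ] ℝ) (p : ℝ) :
    ‖L‖ ^ p = ((L (toE (1, 0))) ^ 2 + (L (toE (0, 1))) ^ 2) ^ (p / 2) := by
  rw [norm_L, Real.sqrt_eq_rpow, ← Real.rpow_mul (by positivity)]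
  congr 1
  ring

theorem fd (u : E2 → ℝ) (x : ℝ × ℝ) (v : ℝ × ℝ) :
    fderiv ℝ (fun x : ℝ × ℝ => u (toE x)) x v = fderiv ℝ u (toE x) (toE v) := by
  have h : (fun x : ℝ × ℝ => u (toE x)) = u ∘ (eqv.symm : ℝ × ℝ → E2) := by
    funext x
    simp [eqv_symm_apply]
  rw [h, ContinuousLinearEquiv.comp_right_fderiv]
  simp [eqv_symm_apply]

theorem part1 (p : ℝ) (u : E2 → ℝ) (hu : ContDiff ℝ 1 u) (hc : HasCompactSupport u) :
    ContDiff ℝ 1 (fun x : ℝ × ℝ => u (toE x)) ∧ HasCompactSupport (fun x : ℝ × ℝ => u (toE x)) ∧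
    (∫ x : E2, ‖fderiv ℝ u x‖ ^ p) = En p (fun x => u (toE x)) := by
  have h : (fun x : ℝ × ℝ => u (toE x)) = u ∘ (eqv.symm : ℝ × ℝ → E2) := by
    funext x
    simp [eqv_symm_apply]
  refine ⟨?_, ?_, ?_⟩
  · rw [h]
    exact hu.comp eqv.symm.contDiff
  · rw [h]
    exact hc.comp_homeomorph eqv.symm.toHomeomorph
  · unfold En
    rw [← mp_of.integral_comp me_of]
    congr 1
    funext y
    rw [norm_L_rpow]
    unfold D1 D2
    rw [fd u, fd u, toE_ofE]

theorem part2 (p : ℝ) (φ : ℝ × ℝ → ℝ) (hu : ContDiff ℝ 1 φ) (hc : HasCompactSupport φ) :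
    ContDiff ℝ 1 (fun y : E2 => φ (ofE y)) ∧ HasCompactSupport (fun y : E2 => φ (ofE y)) ∧
    (∫ y : E2, ‖fderiv ℝ (fun y : E2 => φ (ofE y)) y‖ ^ p) = En p φ := by
  have h : (fun y : E2 => φ (ofE y)) = φ ∘ (eqv : E2 → ℝ × ℝ) := by
    funext x
    simp [eqv_apply]
  have h1 : ContDiff ℝ 1 (fun y : E2 => φ (ofE y)) := by
    rw [h]
    exact hu.comp eqv.contDiff
  have h2 : HasCompactSupport (fun y : E2 => φ (ofE y)) := by
    rw [h]
    exact hc.comp_homeomorph eqv.toHomeomorph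
  refine ⟨h1, h2, ?_⟩
  rw [(part1 p _ h1 h2).2.2]
  simp only [ofE_toE]

end TR

/-- PACKET TR. -/
theorem pkTransfer : GTransfer := by
  refine ⟨fun p u _ hu hc => TR.part1 p u hu hc, fun p φ _ hu hc => TR.part2 p φ hu hc,
    TR.toE_ofE, TR.ofE_toE, ?_, ?_, ?_, ?_⟩
  · intro y θ
    unfold nuE dn ofE
    rw [inner_add_right, EuclideanSpace.inner_single_right, EuclideanSpace.inner_single_right]
    simp
    ring
  · intro a b
    have h := image_segment ℝ (TR.eqv.toLinearEquiv.toLinearMap.toAffineMap) a b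
    exact h
  · have : toE = (TR.eqv.symm : ℝ × ℝ → E2) := by
      funext x
      rw [TR.eqv_symm_apply]
    rw [this]
    exact TR.eqv.symm.continuous
  · exact TR.eqv.continuous

end Pool.Agent.Helper25.PCap
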