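import Pool.Agent.Helper25.PCap.Frozen
import Pool.Agent.Helper25.PCap.GoalsTools
import Pool.Agent.Helper25.PCap.GoalsF
import Pool.Agent.Helper25.PCap.GoalsA
import Pool.Agent.Helper10.PCap.CE
import Pool.Agent.Helper10.PCap.CU0
import Pool.Agent.Helper10.PCap.F1
import Pool.Agent.Helper11.PCap.QF
import Pool.Agent.Helper11.Refl.C
import Pool.Agent.Helper14.PCap.PkA10
import Pool.Agent.Helper14.PCap.PkT1a
import Pool.Agent.Helper25.PCap.PkA0
import Pool.Agent.Helper25.PCap.PkA1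
import Pool.Agent.Helper25.PCap.PkA11a
import Pool.Agent.Helper25.PCap.PkA11b
import Pool.Agent.Helper25.PCap.PkA4
import Pool.Agent.Helper25.PCap.PkA5
import Pool.Agent.Helper25.PCap.PkA8
import Pool.Agent.Helper25.PCap.PkB2
import Pool.Agent.Helper25.PCap.PkB3
import Pool.Agent.Helper25.PCap.PkBAR
import Pool.Agent.Helper25.PCap.PkCT
import Pool.Agent.Helper25.PCap.PkF2
import Pool.Agent.Helper25.PCap.PkFIN1
import Pool.Agent.Helper25.PCap.PkFIN2
import Pool.Agent.Helper25.PCap.PkLEV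
import Pool.Agent.Helper25.PCap.PkP1
import Pool.Agent.Helper25.PCap.PkP10a
import Pool.Agent.Helper25.PCap.PkP4
import Pool.Agent.Helper25.PCap.PkP6
import Pool.Agent.Helper25.PCap.PkP9
import Pool.Agent.Helper25.PCap.PkPARTB
import Pool.Agent.Helper25.PCap.PkPLOWER
import Pool.Agent.Helper25.PCap.PkQG
import Pool.Agent.Helper25.PCap.PkRQC
import Pool.Agent.Helper25.PCap.PkS10
import Pool.Agent.Helper25.PCap.PkS15
import Pool.Agent.Helper25.PCap.PkS3
import Pool.Agent.Helper25.PCap.PkS4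
import Pool.Agent.Helper25.PCap.PkS5
import Pool.Agent.Helper25.PCap.PkS7
import Pool.Agent.Helper25.PCap.PkSUP
import Pool.Agent.Helper25.PCap.PkTR
import Pool.Agent.Helper27.PCap.B1
import Pool.Agent.Helper27.PCap.Bdry
import Pool.Agent.Helper27.PCap.CU1
import Pool.Agent.Helper27.PCap.Circ
import Pool.Agent.Helper27.PCap.Expo
import Pool.Agent.Helper27.PCap.P5
import Pool.Agent.Helper29.PCap.PkS14b
import Pool.Agent.Helper31.PCap.A11c
import Pool.Agent.Helper39.PCap.PkFINAL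
import Pool.Agent.Helper50.PCap.A12
import Pool.Agent.Helper50.PCap.B8
import Pool.Agent.Helper50.PCap.RQB
import Pool.Agent.Helper50.PCap.TPart
import Pool.Agent.Helper51.PCap.PkA11d
import Pool.Agent.Helper51.PCap.PkB7
import Pool.Agent.Helper51.PCap.PkT0
import Pool.Agent.Helper52.PCap.Chart
import Pool.Agent.Helper73.PC.P2
import Pool.Agent.Helper73.PC.P8
import Pool.Agent.Helper73.PC.S13
import Pool.Agent.Helper73.PC.SMP
import Pool.Agent.Helper75.PCap.A13
import Pool.Agent.Helper75.PCap.P3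
import Pool.Agent.Helper75.PCap.Repr
import Pool.Agent.Helper77.PCap.PkE
import Pool.Agent.Helper77.PCap.PkPUPPER
import Pool.Agent.Helper80.PCap.PkS1
import Pool.Agent.Helper89.PCap.A9
import Pool.Agent.Helper89.PCap.B4
import Pool.Agent.Helper89.PCap.Hopf
import Pool.Agent.Helper90.PCap.A2
import Pool.Agent.Helper90.PCap.B5
import Pool.Agent.Helper90.PCap.Lim
import Pool.Agent.Helper90.PCap.MP
import Pool.Agent.Helper95.PCap.PkRQA
import Pool.Agent.Helper95.PCap.PkA3
import Pool.Agent.Helper95.PCap.PkT1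
import Pool.Agent.Helper95.PCap.PkS14
import Pool.Agent.Helper88.PCap.PkS8
import Pool.Agent.Helper88.PCap.PkS11
import Pool.Agent.Helper88.PCap.PkSHF
import Pool.Agent.Helper25.PCap.PkB6
import Pool.Agent.Helper89.PCap.S2
import Pool.Agent.Helper25.PCap.PkS6
import Pool.Agent.Helper25.PCap.PkS9
import Pool.Agent.Helper14.PCap.PkT2
import Pool.Agent.Helper14.PCap.PkT3
import Pool.Agent.Helper25.PCap.PkS12
import Pool.Agent.Helper52.PCap.A7

set_option autoImplicit false

namespace Pool.Agent.Helper25.PCap.Assembly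

open Pool.Agent.Helper25.PCap

/-- the complete assembly -/
theorem final : GFinal := by
  have expo := Helper27.PCap.pkExpo
  have circ := Helper27.PCap.pkCirc
  have repr := Helper75.PCap.pkRepr circ
  have lim := Helper90.PCap.pkLim repr
  have reg := Helper90.PCap.pkReg repr
  have refl := Helper11.Refl.pkRefl repr lim
  have smp := Helper73.PC.pkSMP
  have smpc := Helper73.PC.pkSMPc smp
  have hopf := Helper89.PCap.Hopf.pkHopf
  have mp1 := Helper90.PCap.pkMP1
  have mpq := Helper90.PCap.pkMPq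
  have rqa := Helper95.RQA.pkRQa
  have rqb := Helper50.PCap.pkRQb rqa
  have rqc := pkRQc
  have E := Helper77.PCap.pkE rqa rqb rqc
  have qg := pkQG circ
  have f1 := Helper10.PCap.pkF1 expo
  have f2 := pkF2 expo f1
  have cu0 := Helper10.PCap.pkCU0
  have ce := Helper10.PCap.pkCE expo f2 cu0
  have cu1 := Helper27.PCap.pkCU1 cu0 ce
  have ct := pkCT expo f2 cu0 ce cu1
  have a0 := pkA0
  have a1 := pkA1
  have a2 := Helper90.PCap.pkA2 expo a1
  have a3 := Helper95.A3.pkA3 a1 a2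
  have a4 := pkA4 expo a3
  have a5 := pkA5 a1
  have ch := Helper52.PCap.pkChart smp
  have a7 := Helper52.PCap.pkA7 a0 a1 ch
  have a8 := pkA8 a1
  have bdry := Helper27.PCap.pkBdry
  have a9 := Helper89.PCap.A9.pkA9 a0 a1 a8 bdry
  have a10 := pkA10 a1 a7 a8 a9
  have a11a := pkA11a expo a0
  have a11b := pkA11b
  have a11c := Helper31.PCap.pkA11c expo a0 a1
  have a11d := Helper51.PCap.pkA11d expo a0 a11a a11b a11c
  have a12 := Helper50.PCap.pkA12 expo a1 a2 a8 a9 a11d
  have pa := Helper75.PCap.pkA13 a4 a5 a10 a12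
  have b1 := Helper27.PCap.pkB1
  have b2 := pkB2 b1
  have b3 := pkB3
  have b4 := Helper89.PCap.B4.pkB4
  have b5 := Helper90.PCap.pkB5 b1 b3 b4
  have b7 := Helper51.PCap.pkB7 b1 b2 b5 pkB6
  have b8 := Helper50.PCap.pkB8 cu0 cu1
  have pb := pkPartB pa ct b7 b8
  have p1 := pkP1 cu0
  have p2 := Helper73.PC.pkP2 cu0 ce cu1
  have p3 := Helper75.PCap.pkP3 cu0 p1 p2
  have p4 := pkP4 cu0 ce p1 p2
  have p5 := Helper27.PCap.pkP5 cu1 p2 p3 p4
  have p6 := pkP6 cu1 p2 p3 p4
  have p8 := Helper73.PC.pkP8 cu0 p2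
  have p9 := pkP9 cu0 ce cu1 p2 p8
  have p10 := pkP10a cu0 p1 p5
  have pl := pkPLower cu0 ce p1 p4 p8 p9 p10
  have pu := Helper77.PCap.pkPUpper cu0 ce cu1 p1 p2 p3 p4 p5 p6 p9 p10
  have t0 := Helper51.PCap.pkT0
  have t1a := pkT1a
  have t1 := Helper95.T1.pkT1 E rqc mpq t1a
  have t3 := pkT3 pkT2 qg
  have lev := pkLevel expo f1
  have tp := Helper50.PCap.pkTPart t0 t1 t3 lev reg smpc
  have bar := pkBar
  have qf := Helper11.PCap.pkQF
  have s1 := Helper80.PCap.pkS1 E rqc mpq qf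
  have s2 := Helper89.PCap.S2.pkS2 mp1 qf
  have s3 := pkS3 mp1 bar qf
  have s4 := pkS4 s1 s2 s3 lim qf
  have s5 := pkS5 mp1 bar
  have s6 := pkS6 smpc
  have s7 := pkS7 refl hopf
  have s8 := Helper88.PCap.pkS8 s4 s5 s6 s7 expo f1
  have s9 := pkS9 expo f2
  have s10 := pkS10 expo s9
  have s13 := Helper73.PC.pkS13 s10 Helper88.PCap.pkS11 pkS12
  have s14 := Helper95.S14.pkS14 expo s9
  have s14b := Helper29.PCap.S14b.pkS14b
  have s15 := pkS15 s14 s14b lev
  have tr := pkTransfer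
  have sup := pkSupp
  exact pkFinal (pkFin1 tr sup tp p3 p2 pl) (pkFin2 tr s15 Helper88.PCap.pkShift pu) pb s8 s13 Helper88.PCap.pkShift p3 sup

end Pool.Agent.Helper25.PCap.Assembly
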