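import Mathlib

/-!
Planar p-capacity (MP_576c25_an, S04725): definitions.

`p = 1 + κ`, `0 < κ < 1`.  All hodograph functions live on `ℝ × ℝ ∋ (τ, θ)`.
The equation is `LL κ f = f_ττ − (1−κ) f_τ + κ f_θθ = 0`.
-/

set_option autoImplicit false

open MeasureTheory Set Filter Topology
open scoped ContDiff Real

noncomputable section

namespace Pool.Agent.Helper25.PCap

/-- partial derivative in the first variable `τ` -/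
def D1 (f : ℝ × ℝ → ℝ) (z : ℝ × ℝ) : ℝ := fderiv ℝ f z (1, 0)

/-- partial derivative in the second variable `θ` -/
def D2 (f : ℝ × ℝ → ℝ) (z : ℝ × ℝ) : ℝ := fderiv ℝ f z (0, 1)

/-- the hodograph operator -/
def LL (κ : ℝ) (f : ℝ × ℝ → ℝ) (z : ℝ × ℝ) : ℝ :=
  D1 (D1 f) z - (1 - κ) * D1 f z + κ * D2 (D2 f) z

/-- exponent `a_n`: the larger root of `a² − (1−κ) a − κ n² = 0` -/
def aa (κ : ℝ) (n : ℕ) : ℝ := ((1 - κ) + Real.sqrt ((1 - κ) ^ 2 + 4 * κ * (n : ℝ) ^ 2)) / 2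

/-- exponent `b_n = a_n − (1−κ)` -/
def bb (κ : ℝ) (n : ℕ) : ℝ := aa κ n - (1 - κ)

/-- `B = 1/(ε C₀)` -/
def BB (κ C0 : ℝ) : ℝ := 1 / ((1 - κ) * C0)

/-- `(u, om)` solves the first order system on the open set `N` -/
def Sys (κ C0 : ℝ) (u om : ℝ × ℝ → ℝ) (N : Set (ℝ × ℝ)) : Prop :=
  ContDiffOn ℝ ∞ u N ∧ ContDiffOn ℝ ∞ om N ∧
  (∀ z ∈ N, D2 om z = BB κ C0 * Real.exp (-(1 - κ) * z.1) * D1 u z - 1) ∧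
  (∀ z ∈ N, D1 om z = -(κ * BB κ C0 * Real.exp (-(1 - κ) * z.1) * D2 u z))

/-- the `n`-th complex mode `c_n e^{inθ}` -/
def md (c : ℕ → ℂ) (n : ℕ) (θ : ℝ) : ℂ := c n * Complex.exp (((n : ℝ) * θ : ℝ) * Complex.I)

/-- Fourier expansion at `τ → −∞` (modes `n ≥ 2`), of `u`, its partial derivatives, and `om` -/
def FExp (κ C0 : ℝ) (u om : ℝ × ℝ → ℝ) (c : ℕ → ℂ) (τ₁ : ℝ) : Prop :=
  Summable (fun n : ℕ => ((n : ℝ) + 1) ^ 3 * ‖c n‖ * Real.exp (aa κ n * τ₁)) ∧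
  c 0 = 0 ∧ c 1 = 0 ∧
  ∀ τ θ : ℝ, τ ≤ τ₁ →
    HasSum (fun n : ℕ => (md c n θ).re * Real.exp (aa κ n * τ))
      (u (τ, θ) - C0 * Real.exp ((1 - κ) * τ)) ∧
    HasSum (fun n : ℕ => aa κ n * (md c n θ).re * Real.exp (aa κ n * τ))
      (D1 u (τ, θ) - (1 - κ) * C0 * Real.exp ((1 - κ) * τ)) ∧
    HasSum (fun n : ℕ => -((n : ℝ) * (md c n θ).im) * Real.exp (aa κ n * τ))
      (D2 u (τ, θ)) ∧
    HasSum (fun n : ℕ => BB κ C0 * (aa κ n / n) * (md c n θ).im * Real.exp (bb κ n * τ))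
      (om (τ, θ))

/-! ### Configurations (hodograph of a convex body) -/

/-- A smooth configuration: the hodograph function `W` of the exterior `p`-capacitary
potential of a convex body, `u = 1 + W − W_τ`, body boundary `τ = T θ`. -/
structure Config (κ : ℝ) where
  C0 : ℝ
  W : ℝ × ℝ → ℝ
  T : ℝ → ℝ
  V : Set (ℝ × ℝ)
  C0pos : 0 < C0
  Tcont : Continuous T
  Tper : ∀ θ, T (θ + 2 * π) = T θ
  Vopen : IsOpen V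
  VT : ∀ z : ℝ × ℝ, z.1 ≤ T z.2 → z ∈ V
  smooth : ContDiffOn ℝ ∞ W V
  eq : ∀ z ∈ V, LL κ W z = 0
  per : ∀ τ θ, W (τ, θ + 2 * π) = W (τ, θ)
  dec : ∃ A γ : ℝ, 0 < γ ∧ ∀ z : ℝ × ℝ, z.1 ≤ T z.2 → |W z + 1| ≤ A * Real.exp (γ * z.1)
  mean : ∀ τ, (∀ θ, τ ≤ T θ) →
    ∫ θ in (0 : ℝ)..(2 * π), W (τ, θ) = 2 * π * (-1 + C0 / κ * Real.exp ((1 - κ) * τ))
  bdry : ∀ θ, W (T θ, θ) = D1 W (T θ, θ)
  upos : ∀ z : ℝ × ℝ, z.1 ≤ T z.2 → 0 < D1 W z - D1 (D1 W) z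

namespace Config

variable {κ : ℝ}

/-- the potential in hodograph coordinates -/
def u (C : Config κ) (z : ℝ × ℝ) : ℝ := 1 + C.W z - D1 C.W z

/-- the physical point `X(τ, θ)` -/
def X (C : Config κ) (z : ℝ × ℝ) : ℝ × ℝ :=
  (Real.exp (-z.1) * (D1 C.W z * Real.cos z.2 - D2 C.W z * Real.sin z.2),
   Real.exp (-z.1) * (D1 C.W z * Real.sin z.2 + D2 C.W z * Real.cos z.2))

/-- support function of the body -/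
def H (C : Config κ) (θ : ℝ) : ℝ := Real.exp (-C.T θ) * C.W (C.T θ, θ)

/-- the `p`-capacity of the body -/
def cap (C : Config κ) : ℝ := 2 * π * (1 - κ) * C.C0 / κ

end Config

/-! ### The data used in the comparison -/

/-- The pair `(u, om)` of a configuration. -/
structure TData (κ C0 : ℝ) where
  T : ℝ → ℝ
  u : ℝ × ℝ → ℝ
  om : ℝ × ℝ → ℝ
  V : Set (ℝ × ℝ)
  Tcont : Continuous T
  Tper : ∀ θ, T (θ + 2 * π) = T θ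
  Vopen : IsOpen V
  VT : ∀ z : ℝ × ℝ, z.1 ≤ T z.2 → z ∈ V
  sys : Sys κ C0 u om V
  uper : ∀ τ θ, u (τ, θ + 2 * π) = u (τ, θ)
  omper : ∀ τ θ, om (τ, θ + 2 * π) = om (τ, θ)
  mean : ∀ τ, (∀ θ, τ ≤ T θ) →
    ∫ θ in (0 : ℝ)..(2 * π), u (τ, θ) = 2 * π * C0 * Real.exp ((1 - κ) * τ)
  u1 : ∀ θ, u (T θ, θ) = 1
  pos : ∀ z : ℝ × ℝ, z.1 ≤ T z.2 → 0 < u z
  upos : ∀ z : ℝ × ℝ, z.1 ≤ T z.2 → 0 < D1 u z
  exp : ∃ (c : ℕ → ℂ) (τ₁ : ℝ), (∀ θ, τ₁ ≤ T θ) ∧ FExp κ C0 u om c τ₁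

/-- `u` extended by `1` above `T` -/
def TData.ext {κ C0 : ℝ} (D : TData κ C0) (z : ℝ × ℝ) : ℝ :=
  if z.1 < D.T z.2 then D.u z else 1

/-- complement of the slits `{τ ≥ 0, θ ∈ πℤ}` -/
def SC : Set (ℝ × ℝ) := {z | z.1 < 0 ∨ Real.sin z.2 ≠ 0}

/-- The slit function: the potential of a segment in hodograph coordinates. -/
structure SData (κ : ℝ) where
  C0 : ℝ
  u : ℝ × ℝ → ℝ
  C0pos : 0 < C0
  cont : Continuous u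
  per : ∀ τ θ, u (τ, θ + π) = u (τ, θ)
  even : ∀ τ θ, u (τ, -θ) = u (τ, θ)
  pos : ∀ z, 0 < u z
  lt1 : ∀ z ∈ SC, u z < 1
  slit : ∀ z, z ∉ SC → u z = 1
  smooth : ContDiffOn ℝ ∞ u SC
  eq : ∀ z ∈ SC, LL κ u z = 0
  upos : ∀ z ∈ SC, 0 < D1 u z
  uneg : ∀ τ θ, 0 < θ → θ < π / 2 → D2 u (τ, θ) < 0
  mean : ∀ τ ≤ 0, ∫ θ in (0 : ℝ)..(2 * π), u (τ, θ) = 2 * π * C0 * Real.exp ((1 - κ) * τ)
  upper : ∀ z, u z ≤ Real.exp ((1 - κ) * z.1)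
  dec : ∃ A γ : ℝ, 0 < γ ∧ ∀ z : ℝ × ℝ, 0 ≤ z.1 → 1 - u z ≤ A * Real.exp (-(γ * z.1))
  refl : ∀ t₀ : ℝ, 0 < t₀ → ∃ (N : Set (ℝ × ℝ)) (ut : ℝ × ℝ → ℝ), IsOpen N ∧ (t₀, 0) ∈ N ∧
    ContDiffOn ℝ ∞ ut N ∧ (∀ z ∈ N, LL κ ut z = 0) ∧ (∀ z ∈ N, 0 ≤ z.2 → ut z = u z) ∧
    D2 ut (t₀, 0) < 0
  tip : ∃ c h₀ : ℝ, 0 < c ∧ 0 < h₀ ∧ ∀ h, 0 < h → h < h₀ → c * Real.sqrt h ≤ 1 - u (-h, 0)

/-- The slit function with its stream function and all the facts used in the comparison. -/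
structure SFull (κ : ℝ) extends SData κ where
  om : ℝ × ℝ → ℝ
  sysQ : Sys κ C0 u om {z | 0 < z.2 ∧ z.2 < π}
  sysN : Sys κ C0 u om {z | z.1 < 0}
  om_half : ∀ τ, om (τ, π / 2) = 0
  om_zero : ∀ τ, τ < 0 → om (τ, 0) = 0
  om_refl : ∀ τ θ, 0 < θ → θ < π → om (τ, π - θ) = -om (τ, θ)
  om_odd : ∀ τ θ, τ < 0 → om (τ, -θ) = -om (τ, θ)
  om_pos : ∀ τ θ, 0 < θ → θ < π / 2 → 0 < om (τ, θ)
  om_slit : ∀ τ, 0 < τ → 0 < om (τ, 0)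
  om_cont : ContinuousOn om {z | 0 ≤ z.2 ∧ z.2 ≤ π / 2 ∧ z ≠ (0, 0)}
  dom_zero : ∀ τ, τ < 0 → 0 < D2 om (τ, 0)
  dom_half : ∀ τ, D2 om (τ, π / 2) < 0
  refl2 : ∀ t₀ : ℝ, 0 < t₀ → ∃ (N : Set (ℝ × ℝ)) (ut omt : ℝ × ℝ → ℝ), IsOpen N ∧ (t₀, 0) ∈ N ∧
    Sys κ C0 ut omt N ∧ (∀ z ∈ N, 0 ≤ z.2 → ut z = u z ∧ omt z = om z) ∧
    D2 ut (t₀, 0) < 0
  u_half : ∀ τ, u (τ, π / 2) < C0 * Real.exp ((1 - κ) * τ)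
  u_zero : ∀ τ, τ ≤ 0 → C0 * Real.exp ((1 - κ) * τ) < u (τ, 0)
  mean_le : ∀ τ, ∫ θ in (0 : ℝ)..(2 * π), u (τ, θ) ≤ 2 * π * C0 * Real.exp ((1 - κ) * τ)
  exp : ∃ (c : ℕ → ℂ) (τ₁ : ℝ), τ₁ < 0 ∧ FExp κ C0 u om c τ₁ ∧ (∀ n, (c n).im = 0) ∧ 0 < (c 2).re

/-- the perimeter of the segment (doubled length) -/
def SData.Per {κ : ℝ} (S : SData κ) : ℝ :=
  2 * π * (-1 + S.C0 / κ) +
    ∫ τ in Ioi (0 : ℝ), Real.exp (-τ) * ∫ θ in (0 : ℝ)..(2 * π), (1 - S.u (τ, θ))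

/-- strict inclusion -/
def InS {κ : ℝ} (S : SFull κ) (t r w : ℝ) : Prop :=
  ∃ ϑ : ℝ, 0 < ϑ ∧ ϑ < π / 2 ∧ S.u (t, ϑ) = r ∧ |w| < S.om (t, ϑ)

/-- weak inclusion -/
def InSw {κ : ℝ} (S : SFull κ) (t r w : ℝ) : Prop :=
  ∃ ϑ : ℝ, 0 ≤ ϑ ∧ ϑ ≤ π / 2 ∧ S.u (t, ϑ) = r ∧ |w| ≤ S.om (t, ϑ)

/-- the time shift `t = τ − ε⁻¹ log α` -/
def shf (κ α τ : ℝ) : ℝ := τ - Real.log α / (1 - κ)

/-- `P(α)`: the part `{u < α}` of `T` lies strictly inside `S_α` -/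
def PA {κ : ℝ} (S : SFull κ) (D : TData κ S.C0) (α : ℝ) : Prop :=
  ∀ z : ℝ × ℝ, z.1 ≤ D.T z.2 → D.u z < α → InS S (shf κ α z.1) (D.u z / α) (D.om z)

/-- weak `P(α)` -/
def PAw {κ : ℝ} (S : SFull κ) (D : TData κ S.C0) (α : ℝ) : Prop :=
  ∀ z : ℝ × ℝ, z.1 ≤ D.T z.2 → D.u z < α → InSw S (shf κ α z.1) (D.u z / α) (D.om z)

/-- the result of the inclusion theorem -/
def Incl {κ : ℝ} (S : SFull κ) (D : TData κ S.C0) : Prop :=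
  ∀ z : ℝ × ℝ, z.1 < D.T z.2 → InS S z.1 (D.u z) (D.om z)

/-! ### Physical energies -/

/-- the `p`-energy on the plane `ℝ × ℝ`, Euclidean norm of the gradient -/
def En (p : ℝ) (φ : ℝ × ℝ → ℝ) : ℝ :=
  ∫ x : ℝ × ℝ, ((D1 φ x) ^ 2 + (D2 φ x) ^ 2) ^ (p / 2)

/-! ### Resolvent of the constant coefficient operator -/

/-- `P_t g (x) = E g(x₁ − εt + √(2t) Y₁, x₂ + √(2κt) Y₂)` -/
def Pt (κ t : ℝ) (g : ℝ × ℝ → ℝ) (x : ℝ × ℝ) : ℝ :=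
  ∫ y : ℝ × ℝ, g (x.1 - (1 - κ) * t + Real.sqrt (2 * t) * y.1, x.2 + Real.sqrt (2 * κ * t) * y.2)
    ∂((ProbabilityTheory.gaussianReal 0 1).prod (ProbabilityTheory.gaussianReal 0 1))

/-- the resolvent `(q − LL)⁻¹` -/
def Rq (κ q : ℝ) (g : ℝ × ℝ → ℝ) (x : ℝ × ℝ) : ℝ :=
  ∫ t in Ioi (0 : ℝ), Real.exp (-(q * t)) * Pt κ t g x

/-- the monotone iteration for `LL Z = q Z − f(·, Z)` from above -/
def Zseq (κ q : ℝ) (f : ℝ × ℝ → ℝ → ℝ) : ℕ → (ℝ × ℝ → ℝ)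
  | 0 => fun _ => 1
  | (k + 1) => Rq κ q (fun x => f x (Zseq κ q f k x))

end Pool.Agent.Helper25.PCap
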