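import Pool.Agent.Helper25.PCap.Defs
import Pool.Agent.Helper25.PCap.GoalsP
import Pool.Agent.Helper25.PCap.GoalsT
import Pool.Agent.Helper25.PCap.GoalsS
import Pool.Agent.Helper25.PCap.GoalsB

/-!
Planar p-capacity (MP_576c25_an): final packets (support functions, transfer to
`EuclideanSpace ℝ (Fin 2)`, assembly).
-/

set_option autoImplicit false

open MeasureTheory Set Filter Topology
open scoped ContDiff Real

noncomputable section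

namespace Pool.Agent.Helper25.PCap

abbrev E2 := EuclideanSpace ℝ (Fin 2)

/-- the point of `E2` with coordinates `x` -/
def toE (x : ℝ × ℝ) : E2 := EuclideanSpace.single (0 : Fin 2) x.1 + EuclideanSpace.single (1 : Fin 2) x.2

/-- the coordinates of a point of `E2` -/
def ofE (y : E2) : ℝ × ℝ := (y 0, y 1)

/-- unit vector `ν(θ)` as in the frozen statement -/
def nuE (θ : ℝ) : E2 :=
  EuclideanSpace.single (0 : Fin 2) (Real.cos θ) + EuclideanSpace.single (1 : Fin 2) (Real.sin θ)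

/-- support function, as in the frozen statement -/
def hE (Ω : Set E2) (θ : ℝ) : ℝ := sSup ((fun x : E2 => inner ℝ x (nuE θ)) '' Ω)

/-- the class of energies, as in the frozen statement -/
def capSet (p : ℝ) (Ω : Set E2) : Set ℝ :=
  {c : ℝ | ∃ u : E2 → ℝ, ContDiff ℝ 1 u ∧ HasCompactSupport u ∧
    (∃ U : Set E2, IsOpen U ∧ Ω ⊆ U ∧ ∀ x ∈ U, 1 ≤ u x) ∧
    c = MeasureTheory.integral MeasureTheory.volume (fun x : E2 => ‖fderiv ℝ u x‖ ^ p)}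

/-- PACKET TR. Transfer of energies between `E2` and `ℝ × ℝ`. -/
def GTransfer : Prop :=
  (∀ (p : ℝ) (u : E2 → ℝ), 1 < p → ContDiff ℝ 1 u → HasCompactSupport u →
    ContDiff ℝ 1 (fun x : ℝ × ℝ => u (toE x)) ∧ HasCompactSupport (fun x : ℝ × ℝ => u (toE x)) ∧
    (∫ x : E2, ‖fderiv ℝ u x‖ ^ p) = En p (fun x => u (toE x))) ∧
  (∀ (p : ℝ) (φ : ℝ × ℝ → ℝ), 1 < p → ContDiff ℝ 1 φ → HasCompactSupport φ →
    ContDiff ℝ 1 (fun y : E2 => φ (ofE y)) ∧ HasCompactSupport (fun y : E2 => φ (ofE y)) ∧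
    (∫ y : E2, ‖fderiv ℝ (fun y : E2 => φ (ofE y)) y‖ ^ p) = En p φ) ∧
  (∀ y : E2, toE (ofE y) = y) ∧ (∀ x : ℝ × ℝ, ofE (toE x) = x) ∧
  (∀ (y : E2) (θ : ℝ), inner ℝ y (nuE θ) = dn (ofE y) θ) ∧
  (∀ a b : E2, ofE '' (segment ℝ a b) = segment ℝ (ofE a) (ofE b)) ∧
  Continuous toE ∧ Continuous ofE

/-- PACKET SUP. Smooth strictly convex outer approximation of a bounded convex set, as
support functions. -/
def GSupp : Prop := ∀ (Ω : Set E2), Ω.Nonempty → Bornology.IsBounded Ω → Convex ℝ Ω →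
  Continuous (hE Ω) ∧ (∀ θ, hE Ω (θ + 2 * π) = hE Ω θ) ∧
  (∀ ζ : ℝ, 0 < ζ → ∃ H : ℝ → ℝ, ContDiff ℝ ∞ H ∧ (∀ θ, H (θ + 2 * π) = H θ) ∧
    (∀ θ, 0 < rho H θ) ∧ ∀ θ, hE Ω θ ≤ H θ ∧ H θ ≤ hE Ω θ + ζ) ∧
  (∀ (ζ : ℝ) (y : E2), 0 ≤ ζ → (∀ θ, inner ℝ y (nuE θ) ≤ hE Ω θ + ζ) →
    ∃ y' ∈ closure Ω, dist y y' ≤ ζ)

/-- PACKET FIN1. Lower bound for the energies of `Ω` by capacities of configurations. -/
def GFin1 : Prop := ∀ κ : ℝ, 0 < κ → κ < 1 → ∀ (Ω : Set E2), Ω.Nonempty →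
  Bornology.IsBounded Ω → Convex ℝ Ω → ∀ c ∈ capSet (1 + κ) Ω, ∀ e : ℝ, 0 < e →
  ∃ C : Config κ, (∀ θ, hE Ω θ ≤ C.H θ) ∧ C.cap ≤ c + e

/-- PACKET FIN2. Upper bound for the segment. -/
def GFin2 : Prop := ∀ κ : ℝ, 0 < κ → κ < 1 → ∀ (S : SData κ) (h : ℝ) (a b : E2),
  2 * dist a b ≤ Real.exp h * S.Per → ∀ e : ℝ, 0 < e →
  ∃ c ∈ capSet (1 + κ) (segment ℝ a b),
    c ≤ 2 * π * (1 - κ) * (S.C0 * Real.exp ((1 - κ) * h)) / κ + e

/-- The frozen statement for the exponent `1 + κ`. -/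
def GFinal : Prop := ∀ κ : ℝ, 0 < κ → κ < 1 → ∀ (Ω : Set E2), Ω.Nonempty →
  Bornology.IsBounded Ω → Convex ℝ Ω → ∀ a b : E2,
  2 * dist a b = intervalIntegral (hE Ω) 0 (2 * Real.pi) MeasureTheory.volume →
  sInf (capSet (1 + κ) (segment ℝ a b)) ≤ sInf (capSet (1 + κ) Ω)

end Pool.Agent.Helper25.PCap
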