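import Pool.Agent.Helper25.PCap.GoalsA

/-!
Packet A1: elementary facts on the slit data.
-/

set_option autoImplicit false

open MeasureTheory Set Filter Topology
open scoped ContDiff Real

noncomputable section

namespace Pool.Agent.Helper25.PCap

lemma pkA1_isOpen_SC : IsOpen SC := by
  have h : SC = {z : ℝ × ℝ | z.1 < 0} ∪ {z : ℝ × ℝ | Real.sin z.2 ≠ 0} := rfl
  rw [h]
  exact (isOpen_lt continuous_fst continuous_const).union
    (isOpen_ne_fun (Real.continuous_sin.comp continuous_snd) continuous_const)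

lemma pkA1_hasDerivAt {f : ℝ × ℝ → ℝ} {t ϑ : ℝ} (h : DifferentiableAt ℝ f (t, ϑ)) :
    HasDerivAt (fun s : ℝ => f (t, s)) (D2 f (t, ϑ)) ϑ := by
  have h1 : HasDerivAt (fun s : ℝ => ((t, s) : ℝ × ℝ)) (0, 1) ϑ :=
    (hasDerivAt_const ϑ t).prodMk (hasDerivAt_id ϑ)
  exact h.hasFDerivAt.comp_hasDerivAt ϑ h1

lemma pkA1_anti {κ : ℝ} (S : SFull κ) (t : ℝ) :
    StrictAntiOn (fun s : ℝ => S.u (t, s)) (Icc 0 (π / 2)) := by
  have hc : Continuous fun s : ℝ => S.u (t, s) := S.cont.comp (by fun_prop)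
  refine strictAntiOn_of_deriv_neg (convex_Icc 0 (π / 2)) hc.continuousOn fun ϑ hϑ => ?_
  rw [interior_Icc] at hϑ
  have hs : (t, ϑ) ∈ SC := by
    refine Or.inr ?_
    have : 0 < Real.sin ϑ := Real.sin_pos_of_pos_of_lt_pi hϑ.1 (by linarith [hϑ.2, Real.pi_pos])
    exact this.ne'
  have hd : DifferentiableAt ℝ S.u (t, ϑ) :=
    (S.smooth.contDiffAt (pkA1_isOpen_SC.mem_nhds hs)).differentiableAt (by simp)
  rw [(pkA1_hasDerivAt hd).deriv]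
  exact S.uneg t ϑ hϑ.1 hϑ.2

theorem pkA1 : GA1 := by
  intro κ _ _ S
  refine ⟨fun t ϑ ϑ' h0 h1 h2 => pkA1_anti S t ⟨h0, by linarith⟩ ⟨by linarith, h2⟩ h1, ?_⟩
  rintro t r w ⟨ϑ, hϑ0, hϑ1, hr, hw⟩
  have hQ : IsOpen {z : ℝ × ℝ | 0 < z.2 ∧ z.2 < π} :=
    (isOpen_lt continuous_const continuous_snd).inter (isOpen_lt continuous_snd continuous_const)
  have hmem : (t, ϑ) ∈ {z : ℝ × ℝ | 0 < z.2 ∧ z.2 < π} := ⟨hϑ0, by
    show ϑ < π
    linarith [Real.pi_pos]⟩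
  have hom : ContinuousAt S.om (t, ϑ) :=
    (S.sysQ.2.1.contDiffAt (hQ.mem_nhds hmem)).continuousAt
  -- positivity in a neighbourhood
  have hF : ContinuousAt (fun p : (ℝ × ℝ) × ℝ => S.om p.1 - |p.2|) ((t, ϑ), w) := by
    have h1 : ContinuousAt (fun p : (ℝ × ℝ) × ℝ => S.om p.1) ((t, ϑ), w) :=
      ContinuousAt.comp (f := fun p : (ℝ × ℝ) × ℝ => p.1) (g := S.om) hom continuousAt_fst
    exact h1.sub continuousAt_snd.abs
  have hpos : 0 < (fun p : (ℝ × ℝ) × ℝ => S.om p.1 - |p.2|) ((t, ϑ), w) := by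
    show 0 < S.om (t, ϑ) - |w|
    linarith
  have hev := hF.eventually_const_lt hpos
  obtain ⟨δ₀, hδ₀, hball⟩ := Metric.eventually_nhds_iff.1 hev
  obtain ⟨δ, hδ, hd1, hd2, hd3⟩ : ∃ δ : ℝ, 0 < δ ∧ δ < δ₀ ∧ δ < ϑ ∧ δ < π / 2 - ϑ := by
    refine ⟨min δ₀ (min ϑ (π / 2 - ϑ)) / 2, ?_, ?_, ?_, ?_⟩
    · have : 0 < min δ₀ (min ϑ (π / 2 - ϑ)) := lt_min hδ₀ (lt_min hϑ0 (by linarith))
      linarith
    · have h := min_le_left δ₀ (min ϑ (π / 2 - ϑ))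
      linarith
    · have h := (min_le_right δ₀ (min ϑ (π / 2 - ϑ))).trans (min_le_left _ _)
      linarith
    · have h := (min_le_right δ₀ (min ϑ (π / 2 - ϑ))).trans (min_le_right _ _)
      linarith
  have hlt2 : S.u (t, ϑ + δ) < r := by
    rw [← hr]
    exact pkA1_anti S t ⟨hϑ0.le, hϑ1.le⟩ ⟨by linarith, by linarith⟩ (by linarith)
  have hlt1 : r < S.u (t, ϑ - δ) := by
    rw [← hr]
    exact pkA1_anti S t ⟨by linarith, by linarith⟩ ⟨hϑ0.le, hϑ1.le⟩ (by linarith)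
  have hc2 : Continuous fun p : ℝ × ℝ × ℝ => S.u (p.1, ϑ + δ) - p.2.1 :=
    (S.cont.comp (by fun_prop)).sub (by fun_prop)
  have hc1 : Continuous fun p : ℝ × ℝ × ℝ => S.u (p.1, ϑ - δ) - p.2.1 :=
    (S.cont.comp (by fun_prop)).sub (by fun_prop)
  have e2 : ∀ᶠ p : ℝ × ℝ × ℝ in 𝓝 (t, r, w), S.u (p.1, ϑ + δ) - p.2.1 < 0 :=
    hc2.continuousAt.eventually_lt_const (by
      show S.u (t, ϑ + δ) - r < 0
      linarith)
  have e1 : ∀ᶠ p : ℝ × ℝ × ℝ in 𝓝 (t, r, w), 0 < S.u (p.1, ϑ - δ) - p.2.1 :=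
    hc1.continuousAt.eventually_const_lt (by
      show 0 < S.u (t, ϑ - δ) - r
      linarith)
  have e3 : ∀ᶠ p : ℝ × ℝ × ℝ in 𝓝 (t, r, w), dist p (t, r, w) < δ₀ :=
    Metric.eventually_nhds_iff.2 ⟨δ₀, hδ₀, fun _ h => h⟩
  filter_upwards [e1, e2, e3] with p h1 h2 h3
  obtain ⟨t', r', w'⟩ := p
  simp only at h1 h2
  rw [Prod.dist_eq, Prod.dist_eq] at h3
  simp only [max_lt_iff] at h3
  have hcont : ContinuousOn (fun s : ℝ => S.u (t', s)) (Icc (ϑ - δ) (ϑ + δ)) :=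
    (S.cont.comp (by fun_prop)).continuousOn
  have hivt := intermediate_value_Ioo' (by linarith : ϑ - δ ≤ ϑ + δ) hcont
  obtain ⟨s, hs, hsr⟩ := hivt (show r' ∈ Ioo (S.u (t', ϑ + δ)) (S.u (t', ϑ - δ)) from
    ⟨by linarith, by linarith⟩)
  refine ⟨s, by linarith [hs.1], by linarith [hs.2], hsr, ?_⟩
  have hdist : dist ((t', s), w') ((t, ϑ), w) < δ₀ := by
    rw [Prod.dist_eq, Prod.dist_eq]
    simp only [max_lt_iff]
    refine ⟨⟨h3.1, ?_⟩, h3.2.2⟩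
    rw [Real.dist_eq, abs_lt]
    constructor <;> linarith [hs.1, hs.2]
  have := hball hdist
  simp only at this
  show |w'| < S.om (t', s)
  linarith

end Pool.Agent.Helper25.PCap
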