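import Pool.Agent.Helper25.PCap.GoalsF
import Pool.Agent.Helper25.PCap.GoalsT

/-!
Planar p-capacity (MP_576c25_an), packet LEV (helper99): a level set of a solution gives
a configuration.
-/

set_option autoImplicit false

open MeasureTheory Set Filter Topology
open scoped ContDiff Real

noncomputable section

namespace Pool.Agent.Helper25.PCap

namespace PkLEV

/-- the rescaled and translated solution -/
def Wp (W : ℝ × ℝ → ℝ) (s c : ℝ) (z : ℝ × ℝ) : ℝ := s⁻¹ * (W (z + (c, 0)) + 1) - 1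

lemma fderiv_aux (f : ℝ × ℝ → ℝ) (a b k : ℝ) (v z : ℝ × ℝ) (c : ℝ × ℝ) (_ha : a ≠ 0) :
    fderiv ℝ (fun z => a * (f (z + c) + b) - k) z v = a * fderiv ℝ f (z + c) v := by
  have h1 : (fun z => a * (f (z + c) + b) - k) = fun z => a • (f (z + c) + b) - k := by
    funext z; simp
  rw [h1, fderiv_sub_const]
  have h2 : fderiv ℝ (fun z => a • (f (z + c) + b)) z
      = a • fderiv ℝ (fun z => f (z + c) + b) z := by
    have h3 : (fun z => a • (f (z + c) + b)) = a • (fun z => f (z + c) + b) := rfl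
    rw [h3, fderiv_const_smul_field]
    rfl
  rw [h2, fderiv_add_const, fderiv_comp_add_right]
  simp

lemma fderiv_aux0 (f : ℝ × ℝ → ℝ) (a : ℝ) (v z : ℝ × ℝ) (c : ℝ × ℝ) (ha : a ≠ 0) :
    fderiv ℝ (fun z => a * f (z + c)) z v = a * fderiv ℝ f (z + c) v := by
  have := fderiv_aux f a 0 0 v z c ha
  simpa using this

lemma D1_Wp (W : ℝ × ℝ → ℝ) (s c : ℝ) (hs : s ≠ 0) (z : ℝ × ℝ) :
    D1 (Wp W s c) z = s⁻¹ * D1 W (z + (c, 0)) :=
  fderiv_aux W s⁻¹ 1 1 (1, 0) z (c, 0) (inv_ne_zero hs)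

lemma D2_Wp (W : ℝ × ℝ → ℝ) (s c : ℝ) (hs : s ≠ 0) (z : ℝ × ℝ) :
    D2 (Wp W s c) z = s⁻¹ * D2 W (z + (c, 0)) :=
  fderiv_aux W s⁻¹ 1 1 (0, 1) z (c, 0) (inv_ne_zero hs)

lemma D11_Wp (W : ℝ × ℝ → ℝ) (s c : ℝ) (hs : s ≠ 0) (z : ℝ × ℝ) :
    D1 (D1 (Wp W s c)) z = s⁻¹ * D1 (D1 W) (z + (c, 0)) := by
  have h : D1 (Wp W s c) = fun z => s⁻¹ * D1 W (z + (c, 0)) := funext (D1_Wp W s c hs)
  rw [h]
  exact fderiv_aux0 (D1 W) s⁻¹ (1, 0) z (c, 0) (inv_ne_zero hs)

lemma D22_Wp (W : ℝ × ℝ → ℝ) (s c : ℝ) (hs : s ≠ 0) (z : ℝ × ℝ) :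
    D2 (D2 (Wp W s c)) z = s⁻¹ * D2 (D2 W) (z + (c, 0)) := by
  have h : D2 (Wp W s c) = fun z => s⁻¹ * D2 W (z + (c, 0)) := funext (D2_Wp W s c hs)
  rw [h]
  exact fderiv_aux0 (D2 W) s⁻¹ (0, 1) z (c, 0) (inv_ne_zero hs)

lemma LL_Wp (κ : ℝ) (W : ℝ × ℝ → ℝ) (s c : ℝ) (hs : s ≠ 0) (z : ℝ × ℝ) :
    LL κ (Wp W s c) z = s⁻¹ * LL κ W (z + (c, 0)) := by
  unfold LL
  rw [D11_Wp W s c hs, D22_Wp W s c hs, D1_Wp W s c hs]
  ring

/-- adding a constant does not change `LL` -/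
lemma LL_add_const (κ : ℝ) (f : ℝ × ℝ → ℝ) (k : ℝ) (z : ℝ × ℝ) :
    LL κ (fun z => f z + k) z = LL κ f z := by
  have h1 : D1 (fun z => f z + k) = D1 f := by
    funext w; unfold D1; rw [fderiv_add_const]
  have h2 : D2 (fun z => f z + k) = D2 f := by
    funext w; unfold D2; rw [fderiv_add_const]
  unfold LL
  rw [h1, h2]

/-- derivative along the `τ` line -/
lemma hasDerivAt_line {f : ℝ × ℝ → ℝ} {τ θ : ℝ} (h : DifferentiableAt ℝ f (τ, θ)) :
    HasDerivAt (fun x => f (x, θ)) (D1 f (τ, θ)) τ := by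
  have h1 : HasFDerivAt f (fderiv ℝ f (τ, θ)) (τ, θ) := h.hasFDerivAt
  have h2 : HasDerivAt (fun x : ℝ => ((x, θ) : ℝ × ℝ)) (1, 0) τ :=
    (hasDerivAt_id τ).prodMk (hasDerivAt_const τ θ)
  exact h1.comp_hasDerivAt τ h2

lemma contDiffOn_D1 {f : ℝ × ℝ → ℝ} {U : Set (ℝ × ℝ)} (hU : IsOpen U)
    (h : ContDiffOn ℝ ∞ f U) : ContDiffOn ℝ ∞ (D1 f) U := by
  have h1 : ContDiffOn ℝ ∞ (fderiv ℝ f) U :=
    h.fderiv_of_isOpen hU (by simp)
  exact h1.clm_apply contDiffOn_const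

lemma slice_gt {v : ℝ × ℝ → ℝ} {τ₀ : ℝ} (hsm : ContDiffOn ℝ ∞ v {z | z.1 < τ₀})
    (hdec : ∃ A γ : ℝ, 0 < γ ∧ ∀ z : ℝ × ℝ, z.1 < τ₀ → |v z| ≤ A * Real.exp (γ * z.1))
    (hup : ∀ z : ℝ × ℝ, z.1 < τ₀ → 0 < D1 v z - D1 (D1 v) z) (θ τ₁ τ₂ : ℝ)
    (h12 : τ₂ < τ₁) (h1 : τ₁ < τ₀) :
    Real.exp (τ₂ - τ₁) * v (τ₁, θ) < v (τ₂, θ) := by
  have hU : IsOpen {z : ℝ × ℝ | z.1 < τ₀} := isOpen_lt continuous_fst continuous_const
  have hsm1 := contDiffOn_D1 hU hsm
  have hd0 : ∀ τ, τ < τ₀ → HasDerivAt (fun x => v (x, θ)) (D1 v (τ, θ)) τ := fun τ hτ =>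
    hasDerivAt_line ((hsm.differentiableOn (by simp)).differentiableAt (hU.mem_nhds hτ))
  have hd1 : ∀ τ, τ < τ₀ → HasDerivAt (fun x => D1 v (x, θ)) (D1 (D1 v) (τ, θ)) τ := fun τ hτ =>
    hasDerivAt_line ((hsm1.differentiableOn (by simp)).differentiableAt (hU.mem_nhds hτ))
  -- the function `F`
  set F : ℝ → ℝ := fun x => Real.exp (-x) * D1 v (x, θ) with hF
  have hFd : ∀ τ, τ < τ₀ → HasDerivAt F
      (Real.exp (-τ) * (D1 (D1 v) (τ, θ) - D1 v (τ, θ))) τ := by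
    intro τ hτ
    have h2 : HasDerivAt (fun x : ℝ => Real.exp (-x)) (Real.exp (-τ) * (-1)) τ :=
      (hasDerivAt_neg τ).exp
    have h3 := h2.mul (hd1 τ hτ)
    have h4 : Real.exp (-τ) * (-1) * D1 v (τ, θ) + Real.exp (-τ) * D1 (D1 v) (τ, θ)
        = Real.exp (-τ) * (D1 (D1 v) (τ, θ) - D1 v (τ, θ)) := by ring
    rw [h4] at h3
    exact h3
  have hFanti : StrictAntiOn F (Iio τ₀) := by
    apply strictAntiOn_of_deriv_neg (convex_Iio τ₀)
    · intro τ hτ
      exact (hFd τ hτ).continuousAt.continuousWithinAt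
    · intro τ hτ
      rw [interior_Iio] at hτ
      rw [(hFd τ hτ).deriv]
      have := hup (τ, θ) hτ
      have he := Real.exp_pos (-τ)
      nlinarith
  -- the function `h`
  set h : ℝ → ℝ := fun t => if t ≤ 0 then 0 else v (Real.log t, θ) with hh
  have ht0 : 0 < Real.exp τ₀ := Real.exp_pos _
  have hlog : ∀ t, 0 < t → t < Real.exp τ₀ → Real.log t < τ₀ := fun t ht ht' => by
    rw [Real.log_lt_iff_lt_exp ht]; exact ht'
  have hev : ∀ t, 0 < t → h =ᶠ[𝓝 t] fun t => v (Real.log t, θ) := by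
    intro t ht
    filter_upwards [lt_mem_nhds ht] with x hx
    simp [hh, not_le.mpr hx]
  have hhd : ∀ t, 0 < t → t < Real.exp τ₀ → HasDerivAt h (F (Real.log t)) t := by
    intro t ht ht'
    have h2 := (hd0 (Real.log t) (hlog t ht ht')).comp t (Real.hasDerivAt_log ht.ne')
    have h3 : HasDerivAt h (D1 v (Real.log t, θ) * t⁻¹) t := h2.congr_of_eventuallyEq (hev t ht)
    convert h3 using 1
    simp only [hF]
    rw [Real.exp_neg, Real.exp_log ht]
    ring
  have hconc : StrictConcaveOn ℝ (Ico 0 (Real.exp τ₀)) h := by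
    apply StrictAntiOn.strictConcaveOn_of_deriv (convex_Ico _ _)
    · intro t ht
      rcases eq_or_lt_of_le ht.1 with h0 | h0
      · subst h0
        obtain ⟨A, γ, hγ, hA⟩ := hdec
        have hz : h 0 = 0 := by simp [hh]
        rw [ContinuousWithinAt, hz]
        have hAnn : 0 ≤ A := by
          have h5 := hA (τ₀ - 1, 0) (by simp)
          have h6 := abs_nonneg (v (τ₀ - 1, 0))
          have h7 := Real.exp_pos (γ * (τ₀ - 1))
          by_contra hcon
          push Not at hcon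
          have : A * Real.exp (γ * (τ₀ - 1)) < 0 := mul_neg_of_neg_of_pos hcon h7
          simp only at h5
          linarith
        have hb : ∀ t ∈ Ico 0 (Real.exp τ₀), |h t| ≤ A * t ^ γ := by
          intro t ht
          rcases eq_or_lt_of_le ht.1 with h00 | h00
          · rw [← h00, hz, Real.zero_rpow hγ.ne']; simp
          · have h8 : h t = v (Real.log t, θ) := by simp [hh, not_le.mpr h00]
            rw [h8]
            have h9 := hA (Real.log t, θ) (hlog t h00 ht.2)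
            rw [Real.rpow_def_of_pos h00]
            rw [mul_comm (Real.log t)]
            exact h9
        have hlim : Tendsto (fun t : ℝ => A * t ^ γ) (𝓝[Ico 0 (Real.exp τ₀)] 0) (𝓝 0) := by
          have h10 : Tendsto (fun t : ℝ => A * t ^ γ) (𝓝 0) (𝓝 (A * 0 ^ γ)) :=
            (Real.continuous_rpow_const hγ.le).tendsto 0 |>.const_mul A
          rw [Real.zero_rpow hγ.ne', mul_zero] at h10
          exact h10.mono_left nhdsWithin_le_nhds
        rw [tendsto_zero_iff_abs_tendsto_zero]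
        refine tendsto_of_tendsto_of_tendsto_of_le_of_le' tendsto_const_nhds hlim ?_ ?_
        · exact Eventually.of_forall (fun t => abs_nonneg _)
        · filter_upwards [self_mem_nhdsWithin] with t ht using hb t ht
      · exact (hhd t h0 ht.2).continuousAt.continuousWithinAt
    · rw [interior_Ico]
      intro a ha b hb hab
      rw [(hhd a ha.1 ha.2).deriv, (hhd b hb.1 hb.2).deriv]
      exact hFanti (hlog a ha.1 ha.2) (hlog b hb.1 hb.2) (Real.log_lt_log ha.1 hab)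
  have ht1 : Real.exp τ₁ ∈ Ico 0 (Real.exp τ₀) := ⟨(Real.exp_pos _).le, Real.exp_lt_exp.mpr h1⟩
  have h00 : (0 : ℝ) ∈ Ico 0 (Real.exp τ₀) := ⟨le_rfl, ht0⟩
  have hl0 : 0 < Real.exp (τ₂ - τ₁) := Real.exp_pos _
  have hl1 : Real.exp (τ₂ - τ₁) < 1 := by
    rw [Real.exp_lt_one_iff]; linarith
  have hfin := hconc.2 h00 ht1 (Real.exp_pos τ₁).ne (sub_pos.mpr hl1) hl0 (by ring)
  simp only [smul_eq_mul, mul_zero, zero_add] at hfin
  have hz : h 0 = 0 := by simp [hh]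
  rw [hz, mul_zero, zero_add, ← Real.exp_add] at hfin
  have e1 : τ₂ - τ₁ + τ₁ = τ₂ := by ring
  rw [e1] at hfin
  have e2 : ∀ x : ℝ, h (Real.exp x) = v (x, θ) := fun x => by
    simp [hh, not_le.mpr (Real.exp_pos x)]
  rw [e2, e2] at hfin
  exact hfin

lemma pos_K {v : ℝ × ℝ → ℝ} {τ₀ : ℝ} (hsm : ContDiffOn ℝ ∞ v {z | z.1 < τ₀})
    (hdec : ∃ A γ : ℝ, 0 < γ ∧ ∀ z : ℝ × ℝ, z.1 < τ₀ → |v z| ≤ A * Real.exp (γ * z.1))
    (hup : ∀ z : ℝ × ℝ, z.1 < τ₀ → 0 < D1 v z - D1 (D1 v) z) {K e : ℝ} (he : e < 1)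
    (hI : ∀ τ, τ < τ₀ → ∫ θ in (0 : ℝ)..(2 * π), v (τ, θ) = K * Real.exp (e * τ)) : 0 < K := by
  have hcont : ∀ τ, τ < τ₀ → Continuous (fun θ => v (τ, θ)) := by
    intro τ hτ
    rw [continuous_iff_continuousAt]
    intro θ
    have hU : IsOpen {z : ℝ × ℝ | z.1 < τ₀} := isOpen_lt continuous_fst continuous_const
    have h1 : ContinuousAt v (τ, θ) := hsm.continuousOn.continuousAt (hU.mem_nhds hτ)
    exact h1.comp (f := fun θ : ℝ => (τ, θ)) (by fun_prop)
  have h1 : τ₀ - 1 < τ₀ := by linarith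
  have h2 : τ₀ - 2 < τ₀ := by linarith
  have hlt : ∫ θ in (0 : ℝ)..(2 * π), Real.exp ((τ₀ - 2) - (τ₀ - 1)) * v (τ₀ - 1, θ) <
      ∫ θ in (0 : ℝ)..(2 * π), v (τ₀ - 2, θ) := by
    apply intervalIntegral.integral_lt_integral_of_continuousOn_of_le_of_exists_lt
      (by positivity)
    · exact ((hcont _ h1).const_mul _).continuousOn
    · exact (hcont _ h2).continuousOn
    · intro θ _
      exact (slice_gt hsm hdec hup θ (τ₀ - 1) (τ₀ - 2) (by linarith) h1).le
    · exact ⟨0, ⟨le_rfl, by positivity⟩,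
        slice_gt hsm hdec hup 0 (τ₀ - 1) (τ₀ - 2) (by linarith) h1⟩
  rw [intervalIntegral.integral_const_mul, hI _ h1, hI _ h2] at hlt
  have e1 : Real.exp (e * (τ₀ - 2)) = Real.exp (-e) * Real.exp (e * (τ₀ - 1)) := by
    rw [← Real.exp_add]; congr 1; ring
  have e2 : (τ₀ - 2) - (τ₀ - 1) = -1 := by ring
  rw [e1, e2] at hlt
  have h3 : Real.exp (-1) < Real.exp (-e) := Real.exp_lt_exp.mpr (by linarith)
  have h4 : 0 < Real.exp (e * (τ₀ - 1)) := Real.exp_pos _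
  have h5 : 0 < K * (Real.exp (e * (τ₀ - 1)) * (Real.exp (-e) - Real.exp (-1))) := by
    nlinarith
  exact pos_of_mul_pos_left h5 (mul_pos h4 (sub_pos.mpr h3)).le

/-- the mean of `W + 1` -/
lemma mean_W (h0 : GExpo) (h1 : GF1) {κ : ℝ} {W : ℝ × ℝ → ℝ} {T : ℝ → ℝ} {V : Set (ℝ × ℝ)}
    {m : ℝ} (hκ : 0 < κ) (hκ1 : κ < 1) (hVo : IsOpen V) (hWs : ContDiffOn ℝ ∞ W V)
    (hWeq : ∀ z ∈ V, LL κ W z = 0) (hWper : ∀ τ θ, W (τ, θ + 2 * π) = W (τ, θ))
    (hVT : ∀ z : ℝ × ℝ, z.1 ≤ T z.2 → z ∈ V)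
    (hdec : ∃ A γ : ℝ, 0 < γ ∧ ∀ z : ℝ × ℝ, z.1 ≤ T z.2 → |W z + 1| ≤ A * Real.exp (γ * z.1))
    (hup : ∀ z : ℝ × ℝ, z.1 ≤ T z.2 → 0 < D1 W z - D1 (D1 W) z)
    (hm : ∀ θ, m ≤ T θ) :
    ∃ K : ℝ, 0 < K ∧ ∀ τ, τ ≤ m →
      ∫ θ in (0 : ℝ)..(2 * π), (W (τ, θ) + 1) = K * Real.exp ((1 - κ) * τ) := by
  have hsub : ∀ z : ℝ × ℝ, z.1 ≤ m → z.1 ≤ T z.2 := fun z hz => hz.trans (hm _)
  have hUV : {z : ℝ × ℝ | z.1 < m} ⊆ V := fun z hz => hVT z (hsub z (le_of_lt hz))
  have hvs : ContDiffOn ℝ ∞ (fun z => W z + 1) {z | z.1 < m} :=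
    (hWs.mono hUV).add contDiffOn_const
  have hD1 : D1 (fun z => W z + 1) = D1 W := by
    funext w; unfold D1; rw [fderiv_add_const]
  obtain ⟨A, γ, hγ, hA⟩ := hdec
  have hdec' : ∃ A γ : ℝ, 0 < γ ∧ ∀ z : ℝ × ℝ, z.1 < m → |W z + 1| ≤ A * Real.exp (γ * z.1) :=
    ⟨A, γ, hγ, fun z hz => hA z (hsub z hz.le)⟩
  have hDS : DecSol κ (fun z => W z + 1) m := by
    refine ⟨hvs, ?_, ?_, hdec'⟩
    · intro z hz
      rw [LL_add_const]
      exact hWeq z (hUV hz)
    · intro τ θ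
      simp only [hWper]
  have ha0 : aa κ 0 = 1 - κ := (h0 κ hκ hκ1).1
  set I : ℝ → ℝ := fun τ => ∫ θ in (0 : ℝ)..(2 * π), (W (τ, θ) + 1) with hI
  have hI1 : ∀ τ τ₁, τ ≤ τ₁ → τ₁ < m → I τ = Real.exp ((1 - κ) * (τ - τ₁)) * I τ₁ := by
    intro τ τ₁ h h'
    have := (h1 κ hκ hκ1 _ m hDS 0 τ τ₁ h h').1
    simpa [ha0] using this
  set K : ℝ := Real.exp (-((1 - κ) * (m - 1))) * I (m - 1) with hK
  have hI2 : ∀ τ, τ < m → I τ = K * Real.exp ((1 - κ) * τ) := by
    intro τ hτ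
    rcases le_total τ (m - 1) with h | h
    · rw [hI1 τ (m - 1) h (by linarith), hK]
      rw [show (1 - κ) * (τ - (m - 1)) = -((1 - κ) * (m - 1)) + (1 - κ) * τ by ring, Real.exp_add]
      ring
    · have h2 := hI1 (m - 1) τ h hτ
      rw [hK, h2, show (1 - κ) * (m - 1 - τ) = (1 - κ) * (m - 1) + (-((1 - κ) * τ)) by ring,
        Real.exp_add, Real.exp_neg, Real.exp_neg]
      have h3 := (Real.exp_pos ((1 - κ) * (m - 1))).ne'
      have h4 := (Real.exp_pos ((1 - κ) * τ)).ne'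
      field_simp
  have hKpos : 0 < K := by
    refine pos_K hvs hdec' ?_ (e := 1 - κ) (by linarith) hI2
    intro z hz
    rw [hD1]
    exact hup z (hsub z hz.le)
  refine ⟨K, hKpos, fun τ hτ => ?_⟩
  rcases lt_or_eq_of_le hτ with h | h
  · exact hI2 τ h
  · subst h
    -- continuity
    have hcW : ContinuousOn W V := hWs.continuousOn
    have hc2 : Continuous (fun p : ℝ × ℝ => W (min p.1 τ, p.2) + 1) := by
      apply Continuous.add _ continuous_const
      apply hcW.comp_continuous (by fun_prop)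
      intro p
      exact hVT _ (hsub _ (min_le_right _ _))
    have hc3 : Continuous (fun x : ℝ => ∫ θ in (0 : ℝ)..(2 * π), (W (min x τ, θ) + 1)) :=
      intervalIntegral.continuous_parametric_intervalIntegral_of_continuous' hc2 0 (2 * π)
    have hc4 : Continuous (fun x : ℝ => K * Real.exp ((1 - κ) * x)) := by fun_prop
    have heq : EqOn (fun x : ℝ => ∫ θ in (0 : ℝ)..(2 * π), (W (min x τ, θ) + 1))
        (fun x : ℝ => K * Real.exp ((1 - κ) * x)) (Iio τ) := by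
      intro x hx
      have hx' : x < τ := hx
      simp only [min_eq_left hx'.le]
      exact hI2 x hx'
    have hcl := heq.closure hc3 hc4
    rw [closure_Iio] at hcl
    have := hcl (Set.mem_Iic.mpr (le_refl τ))
    simpa using this

theorem exists_min_of_periodic {T : ℝ → ℝ} (hTc : Continuous T)
    (hTper : ∀ θ, T (θ + 2 * π) = T θ) : ∃ θ₀, ∀ θ, T θ₀ ≤ T θ := by
  obtain ⟨θ₀, _, hmin⟩ := (isCompact_Icc (a := (0 : ℝ)) (b := 2 * π)).exists_isMinOn
    ⟨0, le_rfl, by positivity⟩ hTc.continuousOn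
  refine ⟨θ₀, fun θ => ?_⟩
  have hper : Function.Periodic T (2 * π) := hTper
  obtain ⟨y, hy, hyT⟩ := hper.exists_mem_Ico₀ (by positivity) θ
  rw [hyT]
  exact hmin (Ico_subset_Icc_self hy)

end PkLEV

open PkLEV in
/-- PACKET LEV. -/
theorem pkLevel (h0 : GExpo) (h1 : GF1) : GLevel := by
  intro κ W T V s hκ hκ1 hs hs1 hVo hWs hWeq hWper hTc hTper hVT hdec hbd hup
  obtain ⟨θ₀, hθ₀⟩ := exists_min_of_periodic hTc hTper
  obtain ⟨K, hK, hKI⟩ := mean_W h0 h1 hκ hκ1 hVo hWs hWeq hWper hVT hdec hup hθ₀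
  have hs0 : s ≠ 0 := hs.ne'
  have hsi : 0 < s⁻¹ := inv_pos.mpr hs
  have hπ : 0 < 2 * π := by positivity
  set c := Real.log s with hc
  have hcs : Real.exp c = s := Real.exp_log hs
  have hcont : ∀ τ, τ ≤ T θ₀ → Continuous (fun θ => W (τ, θ)) := by
    intro τ hτ
    apply hWs.continuousOn.comp_continuous (by fun_prop)
    intro θ
    exact hVT _ (hτ.trans (hθ₀ θ))
  have hadd : ∀ (τ : ℝ) (θ : ℝ), ((τ, θ) : ℝ × ℝ) + (c, 0) = (τ + c, θ) := by
    intro τ θ; simp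
  have hmeanW : ∀ τ, τ ≤ T θ₀ →
      ∫ θ in (0 : ℝ)..(2 * π), W (τ, θ) = K * Real.exp ((1 - κ) * τ) - 2 * π := by
    intro τ hτ
    have h2 := hKI τ hτ
    rw [intervalIntegral.integral_add ((hcont τ hτ).intervalIntegrable _ _)
      (intervalIntegrable_const)] at h2
    simp at h2
    linarith
  have hbd' : ∀ θ, W (T θ, θ) + 1 - s = D1 W (T θ, θ) := fun θ => by
    have := hbd θ; linarith
  let C : Config κ :=
    { C0 := κ * K * s⁻¹ * Real.exp ((1 - κ) * c) / (2 * π)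
      W := Wp W s c
      T := fun θ => T θ - c
      V := {z | z + (c, 0) ∈ V}
      C0pos := by positivity
      Tcont := hTc.sub continuous_const
      Tper := fun θ => by simp only [hTper]
      Vopen := hVo.preimage (by fun_prop)
      VT := by
        intro z hz
        apply hVT
        simp only [Prod.fst_add, Prod.snd_add, add_zero]
        linarith
      smooth := by
        unfold Wp
        apply ContDiffOn.sub _ contDiffOn_const
        apply contDiffOn_const.mul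
        apply ContDiffOn.add _ contDiffOn_const
        apply hWs.comp (t := V)
        · exact (contDiff_id.add contDiff_const).contDiffOn
        · intro z hz; exact hz
      eq := by
        intro z hz
        rw [LL_Wp κ W s c hs0, hWeq _ hz, mul_zero]
      per := by
        intro τ θ
        simp only [Wp, hadd, hWper]
      dec := by
        obtain ⟨A, γ, hγ, hA⟩ := hdec
        refine ⟨s⁻¹ * A * Real.exp (γ * c), γ, hγ, ?_⟩
        intro z hz
        have h3 := hA (z + (c, 0)) (by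
          simp only [Prod.fst_add, Prod.snd_add, add_zero]; linarith)
        have h4 : Wp W s c z + 1 = s⁻¹ * (W (z + (c, 0)) + 1) := by unfold Wp; ring
        rw [h4, abs_mul, abs_of_pos hsi]
        have h5 : s⁻¹ * A * Real.exp (γ * c) * Real.exp (γ * z.1)
            = s⁻¹ * (A * Real.exp (γ * (z + (c, 0)).1)) := by
          simp only [Prod.fst_add]
          rw [mul_add, Real.exp_add]; ring
        rw [h5]
        exact mul_le_mul_of_nonneg_left h3 hsi.le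
      mean := by
        intro τ hτ
        have hτ' : τ + c ≤ T θ₀ := by have := hτ θ₀; linarith
        simp only [Wp, hadd]
        have hci : Continuous (fun θ => s⁻¹ * (W (τ + c, θ) + 1)) :=
          ((hcont _ hτ').add continuous_const).const_mul _
        rw [intervalIntegral.integral_sub (hci.intervalIntegrable _ _)
          intervalIntegrable_const, intervalIntegral.integral_const_mul, hKI _ hτ']
        simp only [intervalIntegral.integral_const, smul_eq_mul, mul_one, sub_zero]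
        rw [mul_add (1 - κ), Real.exp_add]
        field_simp
        ring
      bdry := by
        intro θ
        rw [D1_Wp W s c hs0]
        simp only [Wp, hadd, sub_add_cancel]
        rw [← hbd' θ]
        field_simp
      upos := by
        intro z hz
        rw [D1_Wp W s c hs0, D11_Wp W s c hs0, ← mul_sub]
        apply mul_pos hsi
        apply hup
        simp only [Prod.fst_add, Prod.snd_add, add_zero]
        linarith }
  refine ⟨C, ?_, ?_⟩
  · intro θ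
    change Real.exp (-(T θ - c)) * Wp W s c (T θ - c, θ) = _
    simp only [Wp, hadd, sub_add_cancel]
    rw [← hbd' θ, show -(T θ - c) = c + (-T θ) by ring, Real.exp_add, hcs]
    field_simp
  · rintro C' ⟨τ, hτ, hC'⟩
    rw [hmeanW τ (hτ θ₀)] at hC'
    have hE := Real.exp_pos ((1 - κ) * τ)
    have h6 : K = 2 * π * (C' / κ) := by
      have h7 : K * Real.exp ((1 - κ) * τ) = 2 * π * (C' / κ) * Real.exp ((1 - κ) * τ) := by
        linarith
      exact mul_right_cancel₀ hE.ne' h7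
    change κ * K * s⁻¹ * Real.exp ((1 - κ) * c) / (2 * π) = C' * s ^ (-κ)
    have h8 : s⁻¹ * Real.exp ((1 - κ) * c) = s ^ (-κ) := by
      rw [Real.rpow_def_of_pos hs, ← hc]
      rw [show (1 - κ) * c = c + c * (-κ) by ring, Real.exp_add, hcs]
      field_simp
    rw [h6]
    calc κ * (2 * π * (C' / κ)) * s⁻¹ * Real.exp ((1 - κ) * c) / (2 * π)
        = κ * (2 * π * (C' / κ)) * (s⁻¹ * Real.exp ((1 - κ) * c)) / (2 * π) := by ring
      _ = C' * s ^ (-κ) := by
        rw [h8]; field_simp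

end Pool.Agent.Helper25.PCap
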