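import Pool.Agent.Helper25.PCap.GoalsTools
import Pool.Agent.Helper25.PCap.GoalsS
import Pool.Agent.Helper25.PCap.PkS3

/-!
Packet S4 (helper76): existence of the limit.
-/

set_option autoImplicit false

open MeasureTheory Set Filter Topology
open scoped ContDiff Real

noncomputable section

namespace Pool.Agent.Helper25.PCap

open PkS3 in
theorem pkS4 (h1 : GS1) (h2 : GS2) (h3 : GS3) (hl : GLim) (h : GQF) : GS4 := by
  intro κ hκ0 hκ1
  set hn : ℕ → ℝ := fun n => 1 / ((n : ℝ) + 2) with hhn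
  have hn0 : ∀ n, 0 < hn n := fun n => by rw [hhn]; positivity
  have hn1 : ∀ n, hn n < 1 := fun n => by
    rw [hhn]
    show 1 / ((n : ℝ) + 2) < 1
    rw [div_lt_one (by positivity)]
    have : (0 : ℝ) ≤ n := Nat.cast_nonneg n
    linarith
  have hex : ∀ n k : ℕ, ∃ m, MSol κ ((k : ℝ) + 1) (hn n) m := fun n k =>
    h1 κ ((k : ℝ) + 1) (hn n) hκ0 hκ1 (by positivity)
  choose M hM using hex
  have hanti : ∀ n z, Antitone fun k => M n k z := by
    intro n z
    apply antitone_nat_of_succ_le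
    intro k
    exact (h2 κ ((k : ℝ) + 1) (hn n) hκ0 hκ1 (by positivity) (M n k) (hM n k)).1
      (((k + 1 : ℕ) : ℝ) + 1) (hn n) (M n (k + 1)) (by push_cast; linarith) le_rfl (hM n (k + 1)) z
  have hmono : ∀ k z, Monotone fun n => M n k z := by
    intro k z
    apply monotone_nat_of_le_succ
    intro n
    refine (h2 κ ((k : ℝ) + 1) (hn (n + 1)) hκ0 hκ1 (by positivity) (M (n + 1) k) (hM (n + 1) k)).1
      ((k : ℝ) + 1) (hn n) (M n k) le_rfl ?_ (hM n k) z
    rw [hhn]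
    show 1 / (((n + 1 : ℕ) : ℝ) + 2) ≤ 1 / ((n : ℝ) + 2)
    apply one_div_le_one_div_of_le (by positivity)
    push_cast
    linarith
  -- limits
  set mn : ℕ → ℝ × ℝ → ℝ := fun n z => ⨅ k, M n k z with hmn
  have hlim1 : ∀ n z, Tendsto (fun k => M n k z) atTop (𝓝 (mn n z)) := by
    intro n z
    apply tendsto_atTop_ciInf (hanti n z)
    refine ⟨0, ?_⟩
    rintro _ ⟨k, rfl⟩
    exact ((hM n k).2.1 z).1
  have hmn01 : ∀ n z, 0 ≤ mn n z ∧ mn n z ≤ 1 ∧ 1 - Real.exp ((1 - κ) * z.1) ≤ mn n z := by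
    intro n z
    refine ⟨ge_of_tendsto' (hlim1 n z) fun k => ((hM n k).2.1 z).1,
      le_of_tendsto' (hlim1 n z) fun k => ((hM n k).2.1 z).2.1,
      ge_of_tendsto' (hlim1 n z) fun k => ((hM n k).2.1 z).2.2⟩
  have hmnmono : ∀ z, Monotone fun n => mn n z := by
    intro z a b hab
    exact le_of_tendsto_of_tendsto' (hlim1 a z) (hlim1 b z) fun k => hmono k z hab
  set m : ℝ × ℝ → ℝ := fun z => ⨆ n, mn n z with hm
  have hlim2 : ∀ z, Tendsto (fun n => mn n z) atTop (𝓝 (m z)) := by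
    intro z
    apply tendsto_atTop_ciSup (hmnmono z)
    refine ⟨1, ?_⟩
    rintro _ ⟨n, rfl⟩
    exact (hmn01 n z).2.1
  have hm01 : ∀ z, 0 ≤ m z ∧ m z ≤ 1 ∧ 1 - Real.exp ((1 - κ) * z.1) ≤ m z := by
    intro z
    refine ⟨ge_of_tendsto' (hlim2 z) fun n => (hmn01 n z).1,
      le_of_tendsto' (hlim2 z) fun n => (hmn01 n z).2.1,
      ge_of_tendsto' (hlim2 z) fun n => (hmn01 n z).2.2⟩
  have hle : ∀ z z' : ℝ × ℝ, (∀ n k, M n k z ≤ M n k z') → m z ≤ m z' := by
    intro z z' hzz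
    refine le_of_tendsto_of_tendsto' (hlim2 z) (hlim2 z') fun n => ?_
    exact le_of_tendsto_of_tendsto' (hlim1 n z) (hlim1 n z') fun k => hzz n k
  have hloc : ∀ z ∈ SC, ∃ O : Set (ℝ × ℝ), IsOpen O ∧ z ∈ O ∧ ∃ n0 : ℕ, ∀ n, n0 ≤ n →
      ∀ y ∈ O, qf (hn n) y = 0 := by
    intro z hz
    by_cases hc : z.1 < 0
    · refine ⟨{y | y.1 < 0}, isOpen_lt continuous_fst continuous_const, hc, 0, ?_⟩
      intro n _ y hy
      exact (h.1 (hn n)).2.2.2.1 y (le_of_lt hy)
    · have hs : Real.sin z.2 ≠ 0 := by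
        rcases hz with h' | h'
        · exact absurd h' hc
        · exact h'
      have hs2 : 0 < Real.sin z.2 ^ 2 := by positivity
      have hopen : IsOpen {y : ℝ × ℝ | Real.sin z.2 ^ 2 / 2 < Real.sin y.2 ^ 2} :=
        isOpen_lt continuous_const (by fun_prop)
      obtain ⟨N, hN⟩ := exists_nat_one_div_lt (show 0 < Real.sin z.2 ^ 2 / 2 by positivity)
      refine ⟨_, hopen, ?_, N, ?_⟩
      · show Real.sin z.2 ^ 2 / 2 < Real.sin z.2 ^ 2
        linarith
      · intro n hn' y hy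
        apply (h.1 (hn n)).2.2.2.2.1 y
        have hy' : Real.sin z.2 ^ 2 / 2 < Real.sin y.2 ^ 2 := hy
        have h4 : hn n ≤ 1 / ((N : ℝ) + 1) := by
          rw [hhn]
          show 1 / ((n : ℝ) + 2) ≤ 1 / ((N : ℝ) + 1)
          apply one_div_le_one_div_of_le (by positivity)
          have : (N : ℝ) ≤ n := by exact_mod_cast hn'
          linarith
        linarith
  have hlocal : ∀ z ∈ SC, ∃ O : Set (ℝ × ℝ), IsOpen O ∧ z ∈ O ∧ ContDiffOn ℝ ∞ m O ∧
      ∀ y ∈ O, LL κ m y = 0 := by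
    intro z hz
    obtain ⟨O, hO, hzO, n0, hn0'⟩ := hloc z hz
    have hA : ∀ n, n0 ≤ n → ContDiffOn ℝ ∞ (mn n) O ∧ ∀ y ∈ O, LL κ (mn n) y = 0 := by
      intro n hnn
      refine hl κ hκ0 hκ1 O (fun k => M n k) (mn n) 1 hO (fun k => (hM n k).1.contDiffOn) ?_ ?_ ?_
      · intro k y hy
        rw [(hM n k).2.2.1 y, hn0' n hnn y hy]
        ring
      · intro k y _
        have := (hM n k).2.1 y
        rw [abs_le]
        constructor
        · linarith [this.1]
        · exact this.2.1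
      · intro y _
        exact hlim1 n y
    have hB := hl κ hκ0 hκ1 O (fun j => mn (j + n0)) m 1 hO
      (fun j => ((hA (j + n0) (Nat.le_add_left _ _)).1).of_le two_le_inf)
      (fun j y hy => (hA (j + n0) (Nat.le_add_left _ _)).2 y hy)
      (fun j y _ => by
        have := hmn01 (j + n0) y
        rw [abs_le]
        constructor
        · linarith [this.1]
        · exact this.2.1)
      (fun y _ => (tendsto_add_atTop_iff_nat n0).2 (hlim2 y))
    exact ⟨O, hO, hzO, hB.1, hB.2⟩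
  refine ⟨m, hm01, ?_, ?_, ?_, ?_, ?_, ?_, ?_⟩
  · intro z hz
    obtain ⟨O, hO, hzO, hc, -⟩ := hlocal z hz
    exact ((hc z hzO).contDiffAt (hO.mem_nhds hzO)).contDiffWithinAt
  · intro z hz
    obtain ⟨O, hO, hzO, -, hc⟩ := hlocal z hz
    exact hc z hzO
  · intro τ θ
    apply le_antisymm
    · exact hle _ _ fun n k => ((hM n k).2.2.2.1 τ θ).le
    · exact hle _ _ fun n k => ((hM n k).2.2.2.1 τ θ).ge
  · intro τ θ
    apply le_antisymm
    · exact hle _ _ fun n k => ((hM n k).2.2.2.2.1 τ θ).le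
    · exact hle _ _ fun n k => ((hM n k).2.2.2.2.1 τ θ).ge
  · intro τ τ' θ hττ
    exact hle _ _ fun n k => (hM n k).2.2.2.2.2 τ τ' θ hττ
  · intro τ θ θ' h0 hθ hθ'
    exact hle _ _ fun n k =>
      (h2 κ ((k : ℝ) + 1) (hn n) hκ0 hκ1 (by positivity) (M n k) (hM n k)).2 τ θ θ' h0 hθ hθ'
  · obtain ⟨K, hK0, hK⟩ := h3 κ hκ0 hκ1
    refine ⟨K, hK0, ?_⟩
    intro z hz
    refine le_of_tendsto' (hlim2 z) fun n => ?_
    exact hK (hn n) (M n) (mn n) (hn0 n) (hn1 n) (hM n) (hlim1 n) z hz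

end Pool.Agent.Helper25.PCap
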